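import Pool.Agent.Lib.MP_4b91fc_lc.GH.Stm2

set_option autoImplicit false

/-!
# Exact counting of unlabelled graphs: the algorithm with `ev numGraphs` in place of `FN`, piece aev
-/

namespace Pool.Agent.Lib.MP_4b91fc_lc.GH

open Finset Pool.Agent.PolyTime

open scoped Nat

private theorem aev_inj {m S B H : ℕ} {a : Fin m → ℕ} {pi : Fin m → Fin m → ℕ}
    (h : TyOK m S B H a pi) : Function.Injective (fun i => 2 * a i) := by
  intro i j hij
  by_contra hne
  have h1 : a i = a j := by
    simp only at hij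
    omega
  have h2 := h.gcd_a i j hne
  rw [← h1, Nat.gcd_self] at h2
  have h3 := h.small i j hne
  rw [← h2] at h3
  have h4 : 1 ≤ B := le_trans h.hS h.hSB
  have h5 := Nat.mul_le_mul_right (a i) h4
  omega

private theorem aev_nodup {m S B H : ℕ} {a : Fin m → ℕ} {pi : Fin m → Fin m → ℕ}
    (h : TyOK m S B H a pi) : (qks a).Nodup := by
  unfold qks
  rw [List.nodup_append]
  refine ⟨List.nodup_ofFn.2 (aev_inj h), List.nodup_singleton 2, ?_⟩
  intro x hx y hy
  rw [List.mem_ofFn] at hx
  obtain ⟨i, rfl⟩ := hx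
  rw [List.mem_singleton] at hy
  have := h.one_lt i
  omega

private theorem aev_two {m S B H : ℕ} {a : Fin m → ℕ} {pi : Fin m → Fin m → ℕ}
    (h : TyOK m S B H a pi) : ∀ k ∈ qks a, 2 ≤ k := by
  intro k hk
  unfold qks at hk
  rw [List.mem_append, List.mem_ofFn, List.mem_singleton] at hk
  rcases hk with ⟨i, rfl⟩ | rfl
  · have := h.one_lt i
    omega
  · exact le_rfl

/-- [aev] -/
theorem p_aev : S_aev := by
  intro hev m S B H a pi h R num
  have hq : ∀ (n k : ℕ) (l : Fin m → ℕ),
      ev numGraphs (qks a) n k (qv a pi l) = FN (qks a) n k (qv a pi l) := by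
    intro n k l
    exact hev _ _ _ _ (aev_nodup h) (aev_two h) (by simp [qks, qv])
  unfold algR Rdig
  simp only [hq]

end Pool.Agent.Lib.MP_4b91fc_lc.GH
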