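import Pool.Agent.Lib.MP_4b91fc_lc.GH.StmP

set_option autoImplicit false

/-!
# Quotient of binary numbers in polynomial time (long division)
-/

namespace Pool.Agent.Lib.MP_4b91fc_lc.GH

open Pool.Agent.PolyTime

/-- one step of the long division by `d`; the state is the remainder and the quotient (least
significant bit first) -/
def bdiv_step (d : ℕ) (s : Big × List Bool) (b : Bool) : Big × List Bool :=
  if d ≤ s.1.val + (s.1.val + b.toNat) then
    (⟨s.1.val + (s.1.val + b.toNat) - d⟩, true :: s.2)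
  else (⟨s.1.val + (s.1.val + b.toNat)⟩, false :: s.2)

theorem bdiv_foldl (d : ℕ) (L : List Bool) : ∀ (r : Big) (o : List Bool), r.val < d →
    (L.foldl (bdiv_step d) (r, o)).1.val < d ∧
    d * ofB (L.foldl (bdiv_step d) (r, o)).2 + (L.foldl (bdiv_step d) (r, o)).1.val =
      2 ^ L.length * (d * ofB o + r.val) + ofB L.reverse := by
  induction L with
  | nil =>
    intro r o hr
    refine ⟨by simpa using hr, by simp [ofB]⟩
  | cons b L ih =>
    intro r o hr
    rw [List.foldl_cons]
    have hb : b.toNat ≤ 1 := by cases b <;> simp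
    rw [List.reverse_cons, ofB_append_singleton, List.length_reverse, List.length_cons, pow_succ]
    by_cases h : d ≤ r.val + (r.val + b.toNat)
    · have e : bdiv_step d (r, o) b = (⟨r.val + (r.val + b.toNat) - d⟩, true :: o) := if_pos h
      rw [e]
      obtain ⟨h1, h3⟩ := ih ⟨r.val + (r.val + b.toNat) - d⟩ (true :: o) (by
        change r.val + (r.val + b.toNat) - d < d
        omega)
      refine ⟨h1, ?_⟩
      rw [h3, ofB_cons]
      obtain ⟨z, hz⟩ : ∃ z, r.val + (r.val + b.toNat) = d + z := ⟨_, (Nat.add_sub_of_le h).symm⟩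
      change 2 ^ L.length * (d * (2 * ofB o + true.toNat) + (r.val + (r.val + b.toNat) - d)) +
        ofB L.reverse = _
      have e2 : r.val + (r.val + b.toNat) - d = z := by omega
      rw [e2, Bool.toNat_true]
      have e3 : 2 ^ L.length * 2 * (d * ofB o + r.val) +
          (ofB L.reverse + 2 ^ L.length * b.toNat) =
          2 ^ L.length * (d * (2 * ofB o) + (r.val + (r.val + b.toNat))) + ofB L.reverse := by ring
      rw [e3, hz]
      ring
    · have e : bdiv_step d (r, o) b = (⟨r.val + (r.val + b.toNat)⟩, false :: o) := if_neg h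
      rw [e]
      obtain ⟨h1, h3⟩ := ih ⟨r.val + (r.val + b.toNat)⟩ (false :: o) (by
        change r.val + (r.val + b.toNat) < d
        omega)
      refine ⟨h1, ?_⟩
      rw [h3, ofB_cons, Bool.toNat_false]
      change 2 ^ L.length * (d * (2 * ofB o + 0) + (r.val + (r.val + b.toNat))) +
        ofB L.reverse = _
      ring

theorem bdiv_bound (d : ℕ) (L : List Bool) : ∀ (r : Big) (o : List Bool) (k : ℕ),
    r.val < d + 2 ^ k →
    (L.foldl (bdiv_step d) (r, o)).1.val < d + 2 ^ (k + L.length) ∧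
    (L.foldl (bdiv_step d) (r, o)).2.length = o.length + L.length := by
  induction L with
  | nil =>
    intro r o k hr
    exact ⟨by simpa using hr, by simp⟩
  | cons b L ih =>
    intro r o k hr
    rw [List.foldl_cons, List.length_cons]
    have hb : b.toNat ≤ 1 := by cases b <;> simp
    have hp : 2 ^ (k + 1) = 2 ^ k * 2 := pow_succ 2 k
    have hpos : 0 < 2 ^ k := by positivity
    by_cases h : d ≤ r.val + (r.val + b.toNat)
    · have e : bdiv_step d (r, o) b = (⟨r.val + (r.val + b.toNat) - d⟩, true :: o) := if_pos h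
      rw [e]
      obtain ⟨h1, h2⟩ := ih ⟨r.val + (r.val + b.toNat) - d⟩ (true :: o) (k + 1) (by
        change r.val + (r.val + b.toNat) - d < d + 2 ^ (k + 1)
        omega)
      refine ⟨?_, ?_⟩
      · rw [show k + (L.length + 1) = k + 1 + L.length by ring]
        exact h1
      · rw [h2, List.length_cons]
        ring
    · have e : bdiv_step d (r, o) b = (⟨r.val + (r.val + b.toNat)⟩, false :: o) := if_neg h
      rw [e]
      obtain ⟨h1, h2⟩ := ih ⟨r.val + (r.val + b.toNat)⟩ (false :: o) (k + 1) (by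
        change r.val + (r.val + b.toNat) < d + 2 ^ (k + 1)
        omega)
      refine ⟨?_, ?_⟩
      · rw [show k + (L.length + 1) = k + 1 + L.length by ring]
        exact h1
      · rw [h2, List.length_cons]
        ring

theorem bdiv_pstep (hle : S_ble) (hsub : S_bsub) :
    PTime (fun p : (List Bool × Big) × (Big × List Bool) × Bool =>
      bdiv_step p.1.2.val p.2.1 p.2.2) := by
  have hd : PTime (fun p : (List Bool × Big) × (Big × List Bool) × Bool => p.1.2) :=
    PTime.snd.comp PTime.fst
  have hr : PTime (fun p : (List Bool × Big) × (Big × List Bool) × Bool => p.2.1.1) :=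
    PTime.fst.comp (PTime.fst.comp PTime.snd)
  have ho : PTime (fun p : (List Bool × Big) × (Big × List Bool) × Bool => p.2.1.2) :=
    PTime.snd.comp (PTime.fst.comp PTime.snd)
  have hb : PTime (fun p : (List Bool × Big) × (Big × List Bool) × Bool =>
      (⟨p.2.2.toNat⟩ : Big)) :=
    (PTime.cond (PTime.snd.comp PTime.snd) (PTime.const (⟨1⟩ : Big))
      (PTime.const (⟨0⟩ : Big))).of_eq fun p => by cases p.2.2 <;> rfl
  have hv : PTime (fun p : (List Bool × Big) × (Big × List Bool) × Bool =>
      (⟨p.2.1.1.val + (p.2.1.1.val + p.2.2.toNat)⟩ : Big)) :=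
    ptime_bigAdd hr (ptime_bigAdd hr hb)
  have h1 : PTime (fun p : (List Bool × Big) × (Big × List Bool) × Bool =>
      decide (p.1.2.val ≤ p.2.1.1.val + (p.2.1.1.val + p.2.2.toNat))) :=
    hle ((List Bool × Big) × (Big × List Bool) × Bool) inferInstance (fun p => p.1.2.val)
      (fun p => p.2.1.1.val + (p.2.1.1.val + p.2.2.toNat)) hd hv
  have h2 : PTime (fun p : (List Bool × Big) × (Big × List Bool) × Bool =>
      (⟨p.2.1.1.val + (p.2.1.1.val + p.2.2.toNat) - p.1.2.val⟩ : Big)) :=
    hsub ((List Bool × Big) × (Big × List Bool) × Bool) inferInstance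
      (fun p => p.2.1.1.val + (p.2.1.1.val + p.2.2.toNat)) (fun p => p.1.2.val) hv hd
  exact PTime.ite (c := fun p : (List Bool × Big) × (Big × List Bool) × Bool =>
      p.1.2.val ≤ p.2.1.1.val + (p.2.1.1.val + p.2.2.toNat)) h1
    (PTime.pair h2 (PTime.cons (PTime.const true) ho))
    (PTime.pair hv (PTime.cons (PTime.const false) ho))

open Polynomial in
theorem p_bdiv : S_bdiv := by
  intro hle hsub α _ f g hf hg
  have h : PTime (fun p : List Bool × Big =>
      p.1.reverse.foldl (bdiv_step p.2.val) ((⟨0⟩ : Big), [])) := by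
    refine PTime.foldl_of_bound (f := fun (p : List Bool × Big) s b => bdiv_step p.2.val s b)
      (PTime.reverse PTime.fst) (PTime.const ((⟨0⟩ : Big), [])) (bdiv_pstep hle hsub)
      (C 20 * X + C 20) ?_
    intro p l₁ l₂ hl
    have h8 : (l₁.foldl (fun s b => bdiv_step p.2.val s b) ((⟨0⟩ : Big), [])) =
      l₁.foldl (bdiv_step p.2.val) ((⟨0⟩ : Big), []) := rfl
    rw [h8]
    obtain ⟨h1, h2⟩ := bdiv_bound p.2.val l₁ ⟨0⟩ [] 0 (by
      change 0 < p.2.val + 2 ^ 0
      positivity)
    have h3 := sz_bits_le (l₁.foldl (bdiv_step p.2.val) ((⟨0⟩ : Big), [])).2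
    rw [h2, List.length_nil] at h3
    have h4 : l₁.length ≤ p.1.length := by
      have := congrArg List.length hl
      rw [List.length_reverse, List.length_append] at this
      omega
    have h5 := length_le_sz p.1
    have h6 : sz p = sz p.1 + sz p.2 + 1 := rfl
    have h9 : (l₁.foldl (bdiv_step p.2.val) ((⟨0⟩ : Big), [])).1.val <
        2 ^ (sz p.2 + l₁.length + 1) := by
      have h10 := lt_two_pow_sz p.2
      have h11 : 2 ^ sz p.2 ≤ 2 ^ (sz p.2 + l₁.length) :=
        Nat.pow_le_pow_right (by norm_num) (by omega)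
      have h12 : 2 ^ (0 + l₁.length) ≤ 2 ^ (sz p.2 + l₁.length) :=
        Nat.pow_le_pow_right (by norm_num) (by omega)
      rw [pow_succ]
      omega
    have h13 := sz_big_le _ _ h9
    have h7 : sz (l₁.foldl (bdiv_step p.2.val) ((⟨0⟩ : Big), [])) =
        sz (l₁.foldl (bdiv_step p.2.val) ((⟨0⟩ : Big), [])).1 +
          sz (l₁.foldl (bdiv_step p.2.val) ((⟨0⟩ : Big), [])).2 + 1 := rfl
    have h14 : sz (⟨(l₁.foldl (bdiv_step p.2.val) ((⟨0⟩ : Big), [])).1.val⟩ : Big) =
        sz (l₁.foldl (bdiv_step p.2.val) ((⟨0⟩ : Big), [])).1 := rfl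
    rw [h14] at h13
    simp only [eval_add, eval_mul, eval_C, eval_X]
    rw [h7]
    omega
  have h0 : PTime (fun a => decide (g a ≤ 0)) :=
    hle α _ g (fun _ => 0) hg (PTime.const (⟨0⟩ : Big))
  have h1 : PTime (fun a => (⟨ofB (((f a).bits).reverse.foldl (bdiv_step (g a))
      ((⟨0⟩ : Big), [])).2⟩ : Big)) :=
    ptime_ofB (PTime.snd.comp (h.comp ((ptime_bits hf).pair hg)))
  refine (PTime.ite (c := fun a => g a ≤ 0) h0 (PTime.const (⟨0⟩ : Big)) h1).of_eq fun a => ?_
  by_cases hga : g a ≤ 0
  · rw [if_pos hga]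
    change (⟨0⟩ : Big) = ⟨f a / g a⟩
    rw [show g a = 0 by omega, Nat.div_zero]
  · rw [if_neg hga]
    congr 1
    obtain ⟨h2, h3⟩ := bdiv_foldl (g a) (f a).bits.reverse ⟨0⟩ [] (by
      change 0 < g a
      omega)
    rw [List.reverse_reverse, ofB_bits, ofB_nil] at h3
    obtain ⟨q, hq⟩ : ∃ q, q = ofB ((f a).bits.reverse.foldl (bdiv_step (g a))
      ((⟨0⟩ : Big), [])).2 := ⟨_, rfl⟩
    obtain ⟨r, hr⟩ : ∃ r, r = ((f a).bits.reverse.foldl (bdiv_step (g a))
      ((⟨0⟩ : Big), [])).1.val := ⟨_, rfl⟩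
    rw [← hq, ← hr] at h3
    rw [← hr] at h2
    rw [← hq]
    have h4 : g a * q + r = f a := by
      have h5 : 2 ^ (f a).bits.reverse.length * (g a * 0 + (⟨0⟩ : Big).val) + f a = f a := by
        have : g a * 0 + (⟨0⟩ : Big).val = 0 := rfl
        rw [this, Nat.mul_zero, Nat.zero_add]
      omega
    symm
    apply Nat.div_eq_of_lt_le
    · rw [mul_comm]
      omega
    · have : (q + 1) * g a = g a * q + g a := by ring
      rw [this]
      omega

end Pool.Agent.Lib.MP_4b91fc_lc.GH
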