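import Pool.Agent.Lib.MP_4b91fc_lc.GH.Stm3

set_option autoImplicit false

/-!
# Every admissible word gives a solution
-/

namespace Pool.Agent.Lib.MP_4b91fc_lc.GH

open Finset

private theorem bk_dvs_of_subset {X Y : Finset ℕ} (h : X ⊆ Y) : Dvs X Y :=
  fun x hx => ⟨x, h hx, dvd_rfl⟩

private theorem bk_mem_pset {i t x : ℕ} : x ∈ pset i t ↔ ∃ k < t, pr (i + k) = x := by
  simp [pset]

private theorem bk_mem_zset {i j M x : ℕ} :
    x ∈ zset i j M ↔ ∃ k < M, pr (i + (M - 1 - k)) * pr (j + k) = x := by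
  simp [zset]

private theorem bk_mem_Ca {P : WP} {p : Par P.r P.b} {f : Fin p.M → P.A} {a : P.A} {x : ℕ} :
    x ∈ XX P p f (.Ca a) ↔ ∃ k : Fin p.M, f k = a ∧ pr (p.iC + (p.M - 1 - (k : ℕ))) = x := by
  simp [XX]

private theorem bk_mem_Da {P : WP} {p : Par P.r P.b} {f : Fin p.M → P.A} {a : P.A} {x : ℕ} :
    x ∈ XX P p f (.Da a) ↔ ∃ k : Fin p.M, f k = a ∧ pr (p.iD + (k : ℕ)) = x := by
  simp [XX]

private theorem bk_mem_Za {P : WP} {p : Par P.r P.b} {f : Fin p.M → P.A}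
    {o : Option (Fin P.r)} {a : P.A} {x : ℕ} :
    x ∈ XX P p f (.Za o a) ↔ ∃ k : Fin p.M, f k = a ∧
      pr (p.iC + (p.M - 1 - (k : ℕ))) * pr (p.iD + p.sh o + (k : ℕ)) = x := by
  simp [XX]

private theorem bk_sep (hmono : StrictMono pr) {r b : ℕ} {p : Par r b} (hg : p.Good) :
    p.iC + p.M ≤ p.iD := by
  have hM := hg.M_pos
  have h1 := hg.winC (p.M - 1) (by omega)
  have h2 : 2 * pr p.iC ≤ 4 * p.M * pr p.iC := Nat.mul_le_mul_right _ (by omega)
  have h3 : pr (p.iC + (p.M - 1)) < pr p.iD := lt_of_lt_of_le h1 (h2.trans hg.lowD)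
  have h4 := hmono.lt_iff_lt.1 h3
  omega

private theorem bk_dv (hpb : S_pb) (P : WP) (p : Par P.r P.b) (hg : p.Good)
    (f : Fin p.M → P.A) (t t' : P.S) (h : dvS t t' = true) :
    Dvs (XX P p f t) (XX P p f t') := by
  obtain ⟨hpr, hmono, -, hps, hzs, hcop, hsub⟩ := hpb
  have hM := hg.M_pos
  have hsep := bk_sep hmono hg
  have hzo : ∀ o, p.iC + p.M ≤ p.iD + p.sh o := fun o => hsep.trans (Nat.le_add_right _ _)
  cases t <;> cases t' <;> first | (cases h; done) | skip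
  case Pt.Pt' => exact bk_dvs_of_subset subset_rfl
  case Pt'.Pt => exact bk_dvs_of_subset subset_rfl
  case Pc.Pt =>
    exact bk_dvs_of_subset (hsub 0 p.iC 0 p.it le_rfl (by have := hg.topC; omega))
  case P.Pt o =>
    exact bk_dvs_of_subset (hsub 0 (p.iD + p.sh o) 0 p.it le_rfl (by have := hg.topD o; omega))
  case PI.Pt j =>
    exact bk_dvs_of_subset (hsub 0 (p.iC + p.M - p.y j) 0 p.it le_rfl
      (by have := hg.topC; omega))
  case C.Z o => exact (hzs p.iC (p.iD + p.sh o) p.M (hzo o)).2.2.2.2.1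
  case D.Z o o' =>
    have h' : o = o' := of_decide_eq_true h
    subst h'
    exact (hzs p.iC (p.iD + p.sh o) p.M (hzo o)).2.2.2.2.2
  case Z.Z' o o' =>
    have h' : o = o' := of_decide_eq_true h
    subst h'
    exact bk_dvs_of_subset subset_rfl
  case Z'.Z o o' =>
    have h' : o = o' := of_decide_eq_true h
    subst h'
    exact bk_dvs_of_subset subset_rfl
  case I.C j =>
    have h1 := hg.xy j
    have h2 := hg.yM j
    exact bk_dvs_of_subset (hsub _ _ _ _ (by omega) (by omega))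
  case Ca.C a =>
    refine bk_dvs_of_subset fun x hx => ?_
    obtain ⟨k, -, rfl⟩ := bk_mem_Ca.1 hx
    exact bk_mem_pset.2 ⟨p.M - 1 - (k : ℕ), by omega, rfl⟩
  case Ca.Za a o a' =>
    have h' : a = a' := of_decide_eq_true h
    subst h'
    intro x hx
    obtain ⟨k, hk, rfl⟩ := bk_mem_Ca.1 hx
    exact ⟨_, bk_mem_Za.2 ⟨k, hk, rfl⟩, Nat.dvd_mul_right _ _⟩
  case Za.Z o a o' =>
    have h' : o = o' := of_decide_eq_true h
    subst h'
    refine bk_dvs_of_subset fun x hx => ?_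
    obtain ⟨k, -, rfl⟩ := bk_mem_Za.1 hx
    exact bk_mem_zset.2 ⟨(k : ℕ), k.2, rfl⟩
  case Da.D a o =>
    cases o with
    | some i => cases h
    | none =>
      refine bk_dvs_of_subset fun x hx => ?_
      obtain ⟨k, -, rfl⟩ := bk_mem_Da.1 hx
      exact bk_mem_pset.2 ⟨(k : ℕ), k.2, rfl⟩
  case Da.Za a o a' =>
    cases o with
    | some i => cases h
    | none =>
      have h' : a = a' := of_decide_eq_true h
      subst h'
      intro x hx
      obtain ⟨k, hk, rfl⟩ := bk_mem_Da.1 hx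
      exact ⟨_, bk_mem_Za.2 ⟨k, hk, rfl⟩, Nat.dvd_mul_left _ _⟩

private theorem bk_cop_pr (hpr : ∀ i, (pr i).Prime) (hmono : StrictMono pr) {i j : ℕ}
    (h : i ≠ j) : Nat.Coprime (pr i) (pr j) :=
  (Nat.coprime_primes (hpr i) (hpr j)).2 fun e => h (hmono.injective e)

private theorem bk_cp (hpb : S_pb) (P : WP) (p : Par P.r P.b) (hg : p.Good)
    (f : Fin p.M → P.A) (hok : P.Ok p.M p.e p.x p.y f) (t t' : P.S) (h : cpS P t t' = true) :
    Cop (XX P p f t) (XX P p f t') := by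
  obtain ⟨hpr, hmono, -, hps, hzs, hcop, hsub⟩ := hpb
  have hM := hg.M_pos
  have hsep := bk_sep hmono hg
  rcases t with _ | _ | _ | _ | o | o | o | o | j | j | a | a | ⟨_ | i, a⟩ <;>
    rcases t' with _ | _ | _ | _ | o' | o' | o' | o' | j' | j' | a' | a' | ⟨o', a'⟩ <;>
    first | (cases h; done) | skip
  · exact (hcop 0 p.iC p.iC p.M (by omega)).2
  · have h' : o = o' := of_decide_eq_true h
    subst h'
    exact (hcop 0 (p.iD + p.sh o) (p.iD + p.sh o) p.M (by omega)).2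
  · have h' : j = j' := of_decide_eq_true h
    subst h'
    exact (hcop 0 (p.iC + p.M - p.y j) (p.iC + p.M - p.y j) (p.y j - p.x j) (by omega)).2
  · have h' : P.Un j a' = false := by
      have h2 : (!P.Un j a') = true := h
      simpa using h2
    have h1 := hg.xy j
    have h2 := hg.yM j
    intro x hx y hy
    obtain ⟨m, hm, rfl⟩ := bk_mem_pset.1 hx
    obtain ⟨k, hk, rfl⟩ := bk_mem_Ca.1 hy
    apply bk_cop_pr hpr hmono
    intro e
    have hk2 := k.2
    have := hok.2 j k (by omega) (by omega)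
    rw [hk, h'] at this
    exact Bool.noConfusion this
  · have h' : a ≠ a' := of_decide_eq_true h
    intro x hx y hy
    obtain ⟨k, hk, rfl⟩ := bk_mem_Ca.1 hx
    obtain ⟨l, hl, rfl⟩ := bk_mem_Ca.1 hy
    apply bk_cop_pr hpr hmono
    intro e
    have : k = l := by
      apply Fin.ext
      have := k.2
      have := l.2
      omega
    subst this
    exact h' (hk.symm.trans hl)
  · have h' : P.Rel i a a' = false := by
      have h2 : (!P.Rel i a a') = true := h
      simpa using h2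
    intro x hx y hy
    obtain ⟨k, hk, rfl⟩ := bk_mem_Za.1 hx
    obtain ⟨l, hl, rfl⟩ := bk_mem_Da.1 hy
    have hk2 := k.2
    have hl2 := l.2
    apply Nat.Coprime.mul_left
    · exact bk_cop_pr hpr hmono (by omega)
    · apply bk_cop_pr hpr hmono
      intro e
      have e' : (l : ℕ) = k + p.e i := by
        have : p.sh (some i) = p.e i := rfl
        omega
      have := hok.1 i k l e'
      rw [hk, hl, h'] at this
      exact Bool.noConfusion this

/-- [bk] Every admissible word gives a solution. -/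
theorem p_bk : S_bk := by
  intro hpb hxc P p hg f hok
  obtain ⟨hpc, hcC, hcD, hcZ, hcs, -, -, hsZ, -, -, -⟩ := hxc hpb P p hg f
  refine ⟨hpc, bk_dv hpb P p hg f, bk_cp hpb P p hg f hok, ?_⟩
  obtain ⟨hpr, hmono, -, hps, hzs, hcop, hsub⟩ := hpb
  have hsep := bk_sep hmono hg
  have hzo : ∀ o, p.iC + p.M ≤ p.iD + p.sh o := fun o => hsep.trans (Nat.le_add_right _ _)
  have hc : ∀ i t, (pset i t).card = t := fun i t => (hps i t).2.1
  have hs : ∀ i t, ∑ x ∈ pset i t, x = psum i t := fun i t => (hps i t).2.2.1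
  have hzc : ∀ o, (zset p.iC (p.iD + p.sh o) p.M).card = p.M := fun o => (hzs _ _ _ (hzo o)).2.1
  have hzsum : ∀ o, ∑ x ∈ zset p.iC (p.iD + p.sh o) p.M, x = zsum p.iC (p.iD + p.sh o) p.M :=
    fun o => (hzs _ _ _ (hzo o)).2.2.1
  refine ⟨⟨hc _ _, hs _ _, hc _ _, hs _ _⟩, ⟨hc _ _, hs _ _, hc _ _, hs _ _⟩,
    fun o => ⟨hc _ _, hs _ _, hc _ _, hs _ _, hzc o, hzsum o, hzc o, hzsum o,
      fun a => (hcZ o a).trans (hcC a).symm, hsZ o⟩,
    fun j => ⟨hc _ _, hs _ _, hc _ _, hs _ _⟩,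
    fun a => (hcD a).trans (hcC a).symm, ?_⟩
  show ∑ a, (XX P p f (.Ca a)).card = p.M
  rw [← hcs]
  exact Finset.sum_congr rfl fun a _ => hcC a

end Pool.Agent.Lib.MP_4b91fc_lc.GH
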