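import Pool.Agent.Lib.MP_4b91fc_lc.GH.StmP

set_option autoImplicit false

namespace Pool.Agent.Lib.MP_4b91fc_lc.GH

open Finset Pool.Agent.PolyTime

/-- one step of the comparison, least significant bit first -/
private def leStep (s : List Bool × Bool) (x : Bool) : List Bool × Bool :=
  (s.1.tail, bif x then s.1.headD false && s.2 else s.1.headD false || s.2)

private theorem leStep_foldl (L : List Bool) : ∀ (m : List Bool) (c : Bool), m.length ≤ L.length →
    ((L.foldl leStep (m, c)).2 = true ↔ ofB L + (!c).toNat ≤ ofB m) := by
  induction L with
  | nil =>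
    intro m c hm
    have hm' : m = [] := List.length_eq_zero_iff.1 (by simpa using hm)
    subst hm'
    cases c <;> simp [ofB]
  | cons x L ih =>
    intro m c hm
    rw [List.foldl_cons]
    have e1 : leStep (m, c) x = (m.tail, bif x then m.headD false && c else m.headD false || c) :=
      rfl
    have e2 : m.tail.length ≤ L.length := by
      rw [List.length_tail]
      rw [List.length_cons] at hm
      omega
    rw [e1, ih _ _ e2, ofB_cons]
    have e3 : ofB m = 2 * ofB m.tail + (m.headD false).toNat := by
      cases m with
      | nil => simp [ofB]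
      | cons y m => simp [ofB]
    rw [e3]
    generalize ofB m.tail = b
    generalize m.headD false = y
    generalize ofB L = a
    cases x <;> cases y <;> cases c <;> simp <;> omega

private theorem ptime_leFold : PTime (fun p : List Bool × List Bool =>
    (p.1 ++ List.replicate p.2.length false).foldl leStep (p.2, true)) := by
  refine PTime.foldl (f := fun (_ : List Bool × List Bool) s b => leStep s b)
    (PTime.append PTime.fst (PTime.replicate (PTime.length PTime.snd) (PTime.const false)))
    (PTime.pair PTime.snd (PTime.const true)) ?_
    (Polynomial.C 8) ?_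
  · have hx : PTime (fun p : (List Bool × List Bool) × (List Bool × Bool) × Bool =>
      p.2.2) := PTime.snd.comp PTime.snd
    have hm : PTime (fun p : (List Bool × List Bool) × (List Bool × Bool) × Bool =>
      p.2.1.1) := PTime.fst.comp (PTime.fst.comp PTime.snd)
    have hc : PTime (fun p : (List Bool × List Bool) × (List Bool × Bool) × Bool =>
      p.2.1.2) := PTime.snd.comp (PTime.fst.comp PTime.snd)
    have hy := PTime.headD hm (PTime.const false)
    exact PTime.pair (PTime.tail hm) (PTime.cond hx (PTime.and hy hc) (PTime.or hy hc))
  · intro a s b _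
    rw [Polynomial.eval_C]
    unfold leStep
    rw [sz_pair]
    have h1 : sz s.1.tail ≤ sz s.1 := by
      have := sz_drop_le s.1 1
      simpa using this
    have h2 := sz_bool_le (bif b then s.1.headD false && s.2 else s.1.headD false || s.2)
    have h4 : sz s = sz s.1 + sz s.2 + 1 := rfl
    have h5 := sz_pos s.2
    omega

theorem p_ble : S_ble := by
  intro α _ f g hf hg
  have hf' : PTime (fun a => (f a).bits) := ptime_bits hf
  have hg' : PTime (fun a => (g a).bits) := ptime_bits hg
  refine ((PTime.snd.comp ptime_leFold).comp (hf'.pair hg')).of_eq fun a => ?_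
  obtain ⟨l, hl⟩ : ∃ l, l = (f a).bits := ⟨_, rfl⟩
  obtain ⟨m, hm⟩ : ∃ m, m = (g a).bits := ⟨_, rfl⟩
  simp only
  rw [← hl, ← hm]
  have h := leStep_foldl (l ++ List.replicate m.length false) m true (by simp)
  have e2 : ∀ (l : List Bool) (k : ℕ), ofB (l ++ List.replicate k false) = ofB l := by
    intro l k
    induction l with
    | nil =>
      rw [List.nil_append]
      induction k with
      | zero => rfl
      | succ k ih =>
        rw [List.replicate_succ, ofB_cons, ih]
        simp [ofB]
    | cons b l ih => rw [List.cons_append, ofB_cons, ih, ofB_cons]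
  rw [e2, hl, hm, ofB_bits, ofB_bits] at h
  rw [hl, hm]
  apply Bool.eq_iff_iff.2
  rw [h]
  simp

end Pool.Agent.Lib.MP_4b91fc_lc.GH
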