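import Pool.Agent.Lib.MP_4b91fc_lc.GH.StmP

set_option autoImplicit false

/-!
# `#GRAPHS` is hard for `#P_1`: products over lists in polynomial time (piece blp)
-/

namespace Pool.Agent.Lib.MP_4b91fc_lc.GH

open Finset Pool.Agent.PolyTime

open scoped Nat

private theorem blp_prod_le (M : ℕ) (l : List ℕ) (h : ∀ x ∈ l, x < 2 ^ M) :
    l.prod ≤ 2 ^ (l.length * M) := by
  induction l with
  | nil => simp
  | cons x l ih =>
    rw [List.prod_cons, List.length_cons, Nat.succ_mul, pow_add, mul_comm]
    exact Nat.mul_le_mul (ih fun y hy => h y (List.mem_cons_of_mem _ hy))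
      (h x List.mem_cons_self).le

open Polynomial in
theorem p_blp : S_blp := by
  intro hmul α β iα iβ l f hl hf
  have hf' : PTime (fun p : α × β => (⟨f p.1 p.2⟩ : Big)) := hf
  obtain ⟨P, hP⟩ := hf'.sz_le
  obtain ⟨R, hR⟩ := hl.sz_le
  have key : ∀ (a : α) (l : List β) (s : ℕ),
      l.foldl (fun (s : Big) b => (⟨s.val * f a b⟩ : Big)) (⟨s⟩ : Big) =
        ⟨s * (l.map (fun b => f a b)).prod⟩ := by
    intro a l
    induction l with
    | nil => intro s; simp
    | cons b l ih =>
      intro s
      rw [List.foldl_cons, ih, List.map_cons, List.prod_cons]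
      congr 1
      ring
  have h : PTime (fun a => (l a).foldl (fun (s : Big) b => (⟨s.val * f a b⟩ : Big))
      (⟨1⟩ : Big)) := by
    refine PTime.foldl_of_bound (f := fun a (s : Big) b => (⟨s.val * f a b⟩ : Big)) hl
      (PTime.const (⟨1⟩ : Big)) ?_ (C 4 * (R * P.comp (X + R + C 1) + C 1) + C 1) ?_
    · have h1 : PB (fun p : α × Big × β => p.2.1.val) :=
        (PTime.fst.comp PTime.snd : PTime (fun p : α × Big × β => p.2.1))
      have h2 : PB (fun p : α × Big × β => f p.1 p.2.2) :=
        hf'.comp (PTime.fst.pair (PTime.snd.comp PTime.snd))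
      exact hmul _ _ _ _ h1 h2
    · intro a l₁ l₂ hla
      rw [key]
      have h1 : ∀ b ∈ l a, f a b < 2 ^ (P.eval (sz a + R.eval (sz a) + 1)) := by
        intro b hb
        refine (lt_two_pow_sz (⟨f a b⟩ : Big)).trans_le (Nat.pow_le_pow_right (by norm_num) ?_)
        refine (hP (a, b)).trans (eval_mono P ?_)
        have h2 := sz_le_of_mem hb
        have h3 := hR a
        rw [sz_pair]
        omega
      have h2 := blp_prod_le (P.eval (sz a + R.eval (sz a) + 1))
        (l₁.map (fun b => f a b)) (by
          intro x hx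
          rw [List.mem_map] at hx
          obtain ⟨b, hb, rfl⟩ := hx
          exact h1 b (by rw [hla]; exact List.mem_append_left _ hb))
      rw [List.length_map] at h2
      have h4 : l₁.length ≤ R.eval (sz a) := by
        have h5 := length_le_sz (l a)
        have h6 := hR a
        have h7 : l₁.length ≤ (l a).length := by rw [hla]; simp
        omega
      have h5 : (l₁.map (fun b => f a b)).prod <
          2 ^ (R.eval (sz a) * P.eval (sz a + R.eval (sz a) + 1) + 1) := by
        refine h2.trans_lt (Nat.pow_lt_pow_right (by norm_num) ?_)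
        have := Nat.mul_le_mul_right (P.eval (sz a + R.eval (sz a) + 1)) h4
        omega
      rw [one_mul]
      refine (sz_big_le _ _ h5).trans ?_
      simp only [eval_add, eval_mul, eval_C, eval_X, eval_comp]
      omega
  refine h.of_eq fun a => ?_
  rw [key, one_mul]

end Pool.Agent.Lib.MP_4b91fc_lc.GH
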