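import Pool.Agent.Lib.MP_4b91fc_lc.GH.StmP

set_option autoImplicit false

/-! [GH bmod] Remainder of binary numbers in polynomial time. -/

namespace Pool.Agent.Lib.MP_4b91fc_lc.GH

open Finset Pool.Agent.PolyTime

theorem p_bmod : S_bmod := by
  intro hmul hsub hle hdiv α _ f g hf hg
  have h1 : PB (fun a => f a / g a) := hdiv hle hsub α _ f g hf hg
  have h2 : PB (fun a => g a * (f a / g a)) := hmul α _ g (fun a => f a / g a) hg h1
  have h3 : PB (fun a => f a - g a * (f a / g a)) := hsub α _ f _ hf h2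
  refine PTime.of_eq h3 fun a => ?_
  show (⟨f a - g a * (f a / g a)⟩ : Big) = ⟨f a % g a⟩
  rw [Nat.mod_eq_sub_mul_div]

end Pool.Agent.Lib.MP_4b91fc_lc.GH
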