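import Pool.Agent.Lib.MP_4b91fc_lc.GH.StmP

set_option autoImplicit false

/-!
# Piece [bmul]: product of binary numbers in polynomial time
-/

namespace Pool.Agent.Lib.MP_4b91fc_lc.GH

open Finset Pool.Agent.PolyTime

/-- One step: double and add. -/
private def bmulStep (g : Big) (s : Big) (b : Bool) : Big :=
  ⟨(⟨s.val * 2⟩ : Big).val + (bif b then g else (⟨0⟩ : Big)).val⟩

private theorem bmul_foldl (g : Big) (L : List Bool) : ∀ x : ℕ,
    (L.foldl (bmulStep g) ⟨x⟩).val = 2 ^ L.length * x + ofB L.reverse * g.val := by
  induction L with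
  | nil => intro x; simp [ofB]
  | cons b L ih =>
    intro x
    rw [List.foldl_cons]
    have h : bmulStep g ⟨x⟩ b = ⟨x * 2 + b.toNat * g.val⟩ := by
      cases b <;> simp [bmulStep]
    rw [h, ih, List.reverse_cons, ofB_append_singleton, List.length_reverse, List.length_cons,
      pow_succ]
    ring

private theorem bmul_ofB_lt (L : List Bool) : ofB L < 2 ^ L.length := by
  induction L with
  | nil => simp [ofB]
  | cons b L ih =>
    rw [ofB_cons, List.length_cons, pow_succ]
    have hb : b.toNat ≤ 1 := by cases b <;> simp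
    omega

open Polynomial in
private theorem bmul_big {α : Type} [SCode α] {f g : α → Big} (hf : PTime f) (hg : PTime g) :
    PTime (fun a => (⟨(f a).val * (g a).val⟩ : Big)) := by
  have h : PTime (fun p : List Bool × Big => p.1.reverse.foldl (bmulStep p.2) (⟨0⟩ : Big)) := by
    refine PTime.foldl_of_bound (f := fun (p : List Bool × Big) s b => bmulStep p.2 s b)
      (PTime.reverse PTime.fst) (PTime.const (⟨0⟩ : Big)) ?_ (C 4 * X + C 1) ?_
    · have hs : PTime (fun p : (List Bool × Big) × Big × Bool => p.2.1) :=
        PTime.fst.comp PTime.snd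
      have hb : PTime (fun p : (List Bool × Big) × Big × Bool => p.2.2) :=
        PTime.snd.comp PTime.snd
      have hg' : PTime (fun p : (List Bool × Big) × Big × Bool => p.1.2) :=
        PTime.snd.comp PTime.fst
      exact ptime_bigAdd (ptime_bigMul hs (PTime.const 2))
        (PTime.cond hb hg' (PTime.const (⟨0⟩ : Big)))
    · intro p l₁ l₂ hl
      have h1 : ((l₁.foldl (fun s b => bmulStep p.2 s b) (⟨0⟩ : Big)).val) =
          2 ^ l₁.length * 0 + ofB l₁.reverse * p.2.val := bmul_foldl p.2 l₁ 0
      have h2 : l₁.length ≤ p.1.length := by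
        have := congrArg List.length hl
        rw [List.length_reverse, List.length_append] at this
        omega
      have h3 := length_le_sz p.1
      have h4 : sz p = sz p.1 + sz p.2 + 1 := rfl
      have h5 := bmul_ofB_lt l₁.reverse
      rw [List.length_reverse] at h5
      have h6 := lt_two_pow_sz p.2
      have h7 : (l₁.foldl (fun s b => bmulStep p.2 s b) (⟨0⟩ : Big)).val <
          2 ^ (l₁.length + sz p.2) := by
        rw [h1, mul_zero, zero_add, pow_add]
        exact Nat.mul_lt_mul'' h5 h6
      have h8 := sz_big_le _ _ h7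
      have h9 : (⟨(l₁.foldl (fun s b => bmulStep p.2 s b) (⟨0⟩ : Big)).val⟩ : Big) =
          l₁.foldl (fun s b => bmulStep p.2 s b) (⟨0⟩ : Big) := rfl
      rw [h9] at h8
      simp only [eval_add, eval_mul, eval_C, eval_X]
      omega
  refine (h.comp ((ptime_bits hf).pair hg)).of_eq fun a => ?_
  have h1 := bmul_foldl (g a) (f a).val.bits.reverse 0
  rw [List.reverse_reverse, ofB_bits, mul_zero, zero_add] at h1
  simp only
  rw [← h1]

theorem p_bmul : S_bmul := by
  intro α _ f g hf hg
  exact bmul_big (f := fun a => (⟨f a⟩ : Big)) (g := fun a => (⟨g a⟩ : Big)) hf hg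

end Pool.Agent.Lib.MP_4b91fc_lc.GH
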