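import Pool.Agent.Lib.MP_4b91fc_lc.GH.StmP

set_option autoImplicit false

/-!
# Products and sums over ranges, powers, factorials, binomial coefficients in polynomial time
-/

namespace Pool.Agent.Lib.MP_4b91fc_lc.GH

open Finset Pool.Agent.PolyTime

open scoped Nat

variable {α : Type} [SCode α]

private theorem bpr_list_prod (f : ℕ → ℕ) (n : ℕ) :
    ((List.range n).map f).prod = ∏ i ∈ range n, f i := by
  induction n with
  | zero => simp
  | succ n ih =>
    rw [List.range_succ, List.map_append, List.prod_append, ih, Finset.prod_range_succ]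
    simp

private theorem bpr_of_eq {f g : α → ℕ} (hf : PB f) (h : ∀ a, f a = g a) : PB g :=
  PTime.of_eq hf fun a => by rw [h a]

private theorem bpr_const (k : ℕ) : PB (fun _ : α => k) := PTime.const (⟨k⟩ : Big)

private theorem bpr_comp {β : Type} [SCode β] {f : β → ℕ} {g : α → β} (hf : PB f) (hg : PTime g) :
    PB (fun a => f (g a)) := PTime.comp (f := fun b : β => (⟨f b⟩ : Big)) hf hg

private theorem bpr_ite {c : α → Prop} [DecidablePred c] {f g : α → ℕ}
    (hc : PTime (fun a => decide (c a))) (hf : PB f) (hg : PB g) :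
    PB (fun a => if c a then f a else g a) := by
  unfold PB at *
  refine (PTime.ite hc hf hg).of_eq fun a => ?_
  by_cases h : c a
  · simp only [if_pos h]
  · simp only [if_neg h]

private theorem bpr_prod (hp : S_blp) (hm : S_bmul) (n : α → ℕ) (f : α → ℕ → ℕ) (hn : PTime n)
    (hf : PB (fun p : α × ℕ => f p.1 p.2)) : PB (fun a => ∏ i ∈ range (n a), f a i) :=
  bpr_of_eq (hp hm α ℕ _ _ (fun a => List.range (n a)) f (PTime.range hn) hf)
    fun a => bpr_list_prod (f a) (n a)

private theorem bpr_sum (n : α → ℕ) (f : α → ℕ → ℕ) (hn : PTime n)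
    (hf : PB (fun p : α × ℕ => f p.1 p.2)) : PB (fun a => ∑ i ∈ range (n a), f a i) :=
  (ptime_bigSum (f := fun a i => (⟨f a i⟩ : Big)) (PTime.range hn) hf).of_eq fun a => by
    rw [sum_list_range (fun i => f a i) (n a)]

private theorem bpr_pow (hp : S_blp) (hm : S_bmul) (f g : α → ℕ) (hf : PB f) (hg : PTime g) :
    PB (fun a => f a ^ g a) :=
  bpr_of_eq (bpr_prod hp hm g (fun a _ => f a) hg (bpr_comp hf PTime.fst)) fun a => by
    rw [Finset.prod_const, Finset.card_range]

private theorem bpr_fact (hp : S_blp) (hm : S_bmul) (hu : S_bun) (f : α → ℕ) (hf : PTime f) :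
    PB (fun a => (f a)!) :=
  bpr_of_eq (bpr_prod hp hm f (fun _ i => i + 1) hf (hu (α × ℕ) _ _ (PTime.succ PTime.snd)))
    fun a => Finset.prod_range_add_one_eq_factorial (f a)

private theorem bpr_choose (hp : S_blp) (hm : S_bmul) (hu : S_bun) (hs : S_bsub) (hl : S_ble)
    (hd : S_bdiv) (f g : α → ℕ) (hf : PTime f) (hg : PTime g) :
    PB (fun a => (f a).choose (g a)) := by
  have h1 : PB (fun a => (f a)! / ((g a)! * (f a - g a)!)) :=
    hd hl hs α _ _ _ (bpr_fact hp hm hu f hf)
      (hm α _ _ _ (bpr_fact hp hm hu g hg)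
        (bpr_fact hp hm hu (fun a => f a - g a) (PTime.sub hf hg)))
  refine bpr_of_eq (bpr_ite (c := fun a => g a ≤ f a) (PTime.nat_le hg hf) h1 (bpr_const 0))
    fun a => ?_
  split_ifs with h
  · rw [Nat.choose_eq_factorial_div_factorial h]
  · rw [Nat.choose_eq_zero_of_lt (by omega)]

theorem p_bpr : S_bpr := by
  intro hm hs hl hd hu hp
  refine ⟨?_, ?_, ?_, ?_, ?_⟩
  · intro α _ n f hn hf
    exact bpr_prod hp hm n f hn hf
  · intro α _ n f hn hf
    exact bpr_sum n f hn hf
  · intro α _ f g hf hg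
    exact bpr_pow hp hm f g hf hg
  · intro α _ f hf
    exact bpr_fact hp hm hu f hf
  · intro α _ f g hf hg
    exact bpr_choose hp hm hu hs hl hd f g hf hg

end Pool.Agent.Lib.MP_4b91fc_lc.GH
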