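import Pool.Agent.Lib.MP_4b91fc_lc.GH.StmP

set_option autoImplicit false

/-! [GH bun] From unary to binary in polynomial time. -/

namespace Pool.Agent.Lib.MP_4b91fc_lc.GH

open Finset Pool.Agent.PolyTime

theorem p_bun : S_bun := by
  intro α _ f hf
  exact (ptime_bigMul (PTime.const (⟨1⟩ : Big)) hf).of_eq fun a => by rw [one_mul]

end Pool.Agent.Lib.MP_4b91fc_lc.GH
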