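import Pool.Agent.Lib.MP_4b91fc_lc.GH.Stm1

set_option autoImplicit false

/-!
# Piece [burn]: the number of unlabelled graphs as a sum over partitions
-/

namespace Pool.Agent.Lib.MP_4b91fc_lc.GH

open Finset Equiv

open scoped Nat

private theorem burn_mem (n : ℕ) (μ : Multiset ℕ) (h : μ ∈ Ptn n) : μ.sum = n ∧ 0 ∉ μ := by
  unfold Ptn at h
  rw [mem_image] at h
  obtain ⟨p, -, rfl⟩ := h
  exact ⟨p.parts_sum, fun h0 => lt_irrefl 0 (p.parts_pos h0)⟩

private theorem burn_mem' (n : ℕ) (μ : Multiset ℕ) (h : μ.sum = n) (h0 : 0 ∉ μ) : μ ∈ Ptn n := by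
  unfold Ptn
  rw [mem_image]
  refine ⟨⟨μ, ?_, h⟩, mem_univ _, rfl⟩
  intro i hi
  rw [Nat.pos_iff_ne_zero]
  rintro rfl
  exact h0 hi

private theorem burn_le {n : ℕ} {μ : Multiset ℕ} (h : μ.sum = n) {k : ℕ} (hk : k ∈ μ) : k ≤ n := by
  rw [← h]
  exact Multiset.single_le_sum (fun _ _ => Nat.zero_le _) k hk

private theorem burn_sum (N : ℕ) (μ : Multiset ℕ) (h : ∀ k ∈ μ, k ∈ range N) (f : ℕ → ℕ) :
    (μ.map f).sum = ∑ k ∈ range N, μ.count k * f k := by
  rw [Finset.sum_multiset_map_count]
  simp only [smul_eq_mul]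
  apply Finset.sum_subset
  · intro k hk
    exact h k (Multiset.mem_toFinset.1 hk)
  · intro k _ hk
    rw [Multiset.mem_toFinset] at hk
    rw [Multiset.count_eq_zero_of_notMem hk, zero_mul]

private theorem burn_od (μ : Multiset ℕ) : od μ = (μ.map (fun x => x % 2)).sum := by
  unfold od
  induction μ using Multiset.induction_on with
  | empty => simp
  | cons a s ih =>
    rw [Multiset.map_cons, Multiset.sum_cons, ← ih]
    by_cases ha : a % 2 = 1
    · rw [Multiset.countP_cons_of_pos (p := fun x => x % 2 = 1) s ha, ha, add_comm]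
    · rw [Multiset.countP_cons_of_neg (p := fun x => x % 2 = 1) s ha]
      omega

private theorem burn_orb (n : ℕ) (σ : Perm (Fin n)) : cc σ.partition.parts = orb σ := by
  have h1 := two_orb σ n (by simp)
  set μ := σ.partition.parts with hμ
  have hs : μ.sum = n := by
    rw [hμ, σ.partition.parts_sum, Fintype.card_fin]
  have hr : ∀ k ∈ μ, k ∈ range (n + 1) := fun k hk => by
    rw [mem_range]
    have := burn_le hs hk
    omega
  have h2 : qq μ μ = qf n (cnt σ) := by
    unfold qq qf gs
    rw [burn_sum (n + 1) μ hr]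
    refine sum_congr rfl fun k _ => ?_
    rw [burn_sum (n + 1) μ hr, mul_sum]
    refine sum_congr rfl fun l _ => ?_
    unfold cnt
    rw [mul_assoc]
  have h3 : od μ = Pool.Agent.Lib.MP_4b91fc_lc.od n (cnt σ) := by
    rw [burn_od, burn_sum (n + 1) μ hr]
    rfl
  unfold cc
  rw [h2, h3]
  omega

private theorem burn_card (n : ℕ) (μ : Multiset ℕ) (hμ : μ ∈ Ptn n) :
    ((univ : Finset (Perm (Fin n))).filter (fun σ => σ.partition.parts = μ)).card * zee μ =
      n ! := by
  obtain ⟨hs, h0⟩ := burn_mem n μ hμ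
  have hr : ∀ k ∈ μ, k ∈ range (n + 1) := fun k hk => by
    rw [mem_range]
    have := burn_le hs hk
    omega
  have ha : ∑ k ∈ Icc 1 n, k * μ.count k = n := by
    have h1 := burn_sum (n + 1) μ hr (fun x => x)
    rw [Multiset.map_id', hs] at h1
    refine Eq.trans ?_ h1.symm
    rw [range_eq_Ico, sum_eq_sum_Ico_succ_bot (by omega), mul_zero, zero_add]
    have h2 : Ico (0 + 1) (n + 1) = Icc 1 n := by
      ext k
      rw [mem_Ico, mem_Icc]
      omega
    rw [h2]
    exact sum_congr rfl fun k _ => mul_comm _ _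
  have h1 := card_cnt (n := n) (fun k => μ.count k) ha
  have h2 : CS n (Icc 1 n) (fun k => μ.count k) =
      (univ : Finset (Perm (Fin n))).filter (fun σ => σ.partition.parts = μ) := by
    ext σ
    rw [mem_CS, mem_filter]
    constructor
    · intro h
      refine ⟨mem_univ _, ?_⟩
      ext k
      by_cases hk : k ∈ Icc 1 n
      · exact h k hk
      · have hs' : σ.partition.parts.sum = n := by
          rw [σ.partition.parts_sum, Fintype.card_fin]
        rw [Multiset.count_eq_zero_of_notMem, Multiset.count_eq_zero_of_notMem]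
        · intro hk'
          apply hk
          rw [mem_Icc]
          refine ⟨?_, burn_le hs hk'⟩
          rw [Nat.one_le_iff_ne_zero]
          rintro rfl
          exact h0 hk'
        · intro hk'
          apply hk
          rw [mem_Icc]
          exact ⟨σ.partition.parts_pos hk', burn_le hs' hk'⟩
    · rintro ⟨-, h⟩ k _
      unfold cnt
      rw [h]
  have h3 : ∏ k ∈ Icc 1 n, (k ^ μ.count k * (μ.count k)!) = zee μ := by
    unfold zee
    symm
    apply Finset.prod_subset
    · intro k hk
      rw [Multiset.mem_toFinset] at hk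
      rw [mem_Icc]
      refine ⟨?_, burn_le hs hk⟩
      rw [Nat.one_le_iff_ne_zero]
      rintro rfl
      exact h0 hk
    · intro k _ hk
      rw [Multiset.mem_toFinset] at hk
      rw [Multiset.count_eq_zero_of_notMem hk]
      simp
  rw [h2, h3] at h1
  exact h1

theorem p_burn : S_burn := by
  intro n
  have h1 := factorial_mul_numGraphs n
  have hmaps : ∀ σ ∈ (univ : Finset (Perm (Fin n))), σ.partition.parts ∈ Ptn n := by
    intro σ _
    apply burn_mem'
    · rw [σ.partition.parts_sum, Fintype.card_fin]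
    · intro h
      exact lt_irrefl 0 (σ.partition.parts_pos h)
  rw [← sum_fiberwise_of_maps_to hmaps] at h1
  have h2 : ((n ! : ℕ) : ℚ) * numGraphs n = ∑ μ ∈ Ptn n, ((n ! : ℕ) : ℚ) * ww μ := by
    rw [← Nat.cast_mul, h1, Nat.cast_sum]
    refine sum_congr rfl fun μ hμ => ?_
    have h3 : ∑ σ ∈ (univ : Finset (Perm (Fin n))).filter (fun σ => σ.partition.parts = μ),
        2 ^ orb σ = ((univ : Finset (Perm (Fin n))).filter
          (fun σ => σ.partition.parts = μ)).card * 2 ^ cc μ := by
      rw [← smul_eq_mul, ← sum_const]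
      refine sum_congr rfl fun σ hσ => ?_
      rw [mem_filter] at hσ
      rw [← hσ.2, burn_orb]
    rw [h3]
    have h4 := burn_card n μ hμ
    have hz : (zee μ : ℚ) ≠ 0 := by
      intro h
      have h5 : zee μ = 0 := by exact_mod_cast h
      rw [h5, mul_zero] at h4
      exact (Nat.factorial_pos n).ne h4
    unfold ww
    rw [← h4]
    push_cast
    field_simp
  rw [← mul_sum] at h2
  exact mul_left_cancel₀ (by exact_mod_cast (Nat.factorial_pos n).ne') h2

end Pool.Agent.Lib.MP_4b91fc_lc.GH
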