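import Pool.Agent.Lib.MP_4b91fc_lc.GH.Stm1

set_option autoImplicit false

/-!
# Exact counting of unlabelled graphs: the exponent `cc` (parity, additivity, bounds), piece cc
-/

namespace Pool.Agent.Lib.MP_4b91fc_lc.GH

open Finset

open scoped Nat

private theorem gs_add (k : ℕ) (μ ν : Multiset ℕ) : gs k (μ + ν) = gs k μ + gs k ν := by
  simp [gs]

private theorem gs_cons (k a : ℕ) (μ : Multiset ℕ) : gs k (a ::ₘ μ) = Nat.gcd k a + gs k μ := by
  simp [gs]

private theorem qq_cons (a : ℕ) (μ ν : Multiset ℕ) : qq (a ::ₘ μ) ν = gs a ν + qq μ ν := by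
  simp [qq]

private theorem qq_cons' (a : ℕ) (μ ν : Multiset ℕ) : qq ν (a ::ₘ μ) = gs a ν + qq ν μ := by
  have h : qq ν (a ::ₘ μ) = (ν.map (fun x => Nat.gcd x a)).sum + qq ν μ := by
    unfold qq
    simp only [gs_cons]
    rw [Multiset.sum_map_add]
  rw [h]
  congr 1
  unfold gs
  simp only [Nat.gcd_comm]

private theorem qq_add_left (μ ν ρ : Multiset ℕ) : qq (μ + ν) ρ = qq μ ρ + qq ν ρ := by
  simp [qq]

private theorem qq_comm (μ ν : Multiset ℕ) : qq μ ν = qq ν μ := by
  induction μ using Multiset.induction with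
  | empty => simp [qq, gs]
  | cons a μ ih => rw [qq_cons, qq_cons', ih]

private theorem od_cons (a : ℕ) (μ : Multiset ℕ) : od (a ::ₘ μ) = od μ + a % 2 := by
  unfold od
  rw [Multiset.countP_cons]
  congr 1
  rcases Nat.mod_two_eq_zero_or_one a with h | h <;> simp [h]

private theorem par (μ : Multiset ℕ) : ∃ c, qq μ μ = od μ + 2 * c := by
  induction μ using Multiset.induction with
  | empty => exact ⟨0, by simp [qq, od]⟩
  | cons a μ ih =>
    obtain ⟨c, hc⟩ := ih
    refine ⟨c + a / 2 + gs a μ, ?_⟩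
    rw [qq_cons, gs_cons, qq_cons', od_cons, hc, Nat.gcd_self]
    have := Nat.mod_add_div a 2
    omega

private theorem two_cc (μ : Multiset ℕ) : 2 * cc μ + od μ = qq μ μ := by
  obtain ⟨c, hc⟩ := par μ
  unfold cc
  omega

private theorem gs_le (k : ℕ) (hk : 0 < k) (μ : Multiset ℕ) : gs k μ ≤ k * μ.card := by
  induction μ using Multiset.induction with
  | empty => simp [gs]
  | cons a μ ih =>
    rw [gs_cons, Multiset.card_cons]
    have := Nat.gcd_le_left a hk
    nlinarith

private theorem qq_le (μ ν : Multiset ℕ) (h : 0 ∉ μ) : qq μ ν ≤ μ.sum * ν.card := by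
  induction μ using Multiset.induction with
  | empty => simp [qq]
  | cons a μ ih =>
    rw [Multiset.mem_cons, not_or] at h
    have h1 := ih h.2
    have h2 := gs_le a (Nat.pos_of_ne_zero (Ne.symm h.1)) ν
    rw [qq_cons, Multiset.sum_cons, add_mul]
    omega

private theorem card_le_sum' (μ : Multiset ℕ) (h : 0 ∉ μ) : μ.card ≤ μ.sum := by
  induction μ using Multiset.induction with
  | empty => simp
  | cons a μ ih =>
    rw [Multiset.mem_cons, not_or] at h
    have h1 := ih h.2
    rw [Multiset.card_cons, Multiset.sum_cons]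
    omega

/-- [cc] -/
theorem p_cc : S_cc := by
  refine ⟨two_cc, gs_add, fun μ ν ρ => ⟨qq_add_left μ ν ρ, ?_⟩, qq_comm, ?_, ?_, ?_⟩
  · rw [qq_comm ρ, qq_add_left, qq_comm μ, qq_comm ν]
  · intro μ k M
    set ρ := Multiset.replicate M k with hρ
    have h1 := two_cc (μ + ρ)
    have h2 := two_cc μ
    have h3 : qq (μ + ρ) (μ + ρ) = qq μ μ + 2 * qq ρ μ + qq ρ ρ := by
      rw [qq_add_left, qq_comm μ (μ + ρ), qq_comm ρ (μ + ρ), qq_add_left, qq_add_left,
        qq_comm μ ρ]
      ring
    have h4 : ∀ ν : Multiset ℕ, qq ρ ν = M * gs k ν := by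
      intro ν
      simp [qq, hρ, Multiset.map_replicate, Multiset.sum_replicate]
    have h5 : gs k ρ = M * k := by
      simp [gs, hρ, Multiset.map_replicate, Multiset.sum_replicate]
    have h6 : od (μ + ρ) = od μ + M * (k % 2) := by
      unfold od
      rw [Multiset.countP_add, hρ]
      congr 1
      clear h1 h2 h3 h4 h5 hρ
      induction M with
      | zero => simp
      | succ M ih =>
        rw [Multiset.replicate_succ, Multiset.countP_cons, ih]
        rcases Nat.mod_two_eq_zero_or_one k with h | h <;> simp [h]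
    have h7 : 2 * (M.choose 2) = M * (M - 1) := by
      rw [Nat.choose_two_right, Nat.mul_div_cancel' (Nat.even_mul_pred_self M).two_dvd]
    have h8 : 2 * e2 k M + M * (k % 2) = M * (M * k) := by
      have h9 := Nat.mod_add_div k 2
      unfold e2
      have e : 2 * (k * M.choose 2 + M * (k / 2)) + M * (k % 2) =
        k * (2 * M.choose 2) + M * (k % 2 + 2 * (k / 2)) := by ring
      rw [e, h9, h7]
      cases M with
      | zero => simp
      | succ M => simp only [Nat.add_sub_cancel]; ring
    rw [h3, h4, h4, h5, h6, ← h2, ← h8] at h1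
    have h10 : 2 * (M * gs k μ) = M * gs k μ + M * gs k μ := by ring
    omega
  · intro μ h
    have h1 := two_cc μ
    have h2 := qq_le μ μ h
    have h3 := Nat.mul_le_mul_left μ.sum (card_le_sum' μ h)
    rw [pow_two]
    omega
  · intro μ h
    exact qq_le μ μ h

end Pool.Agent.Lib.MP_4b91fc_lc.GH
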