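import Pool.Agent.Lib.MP_4b91fc_lc.GH.Stm3

set_option autoImplicit false

/-!
# `#GRAPHS` is hard for `#P_1`: piece [ch]
-/

namespace Pool.Agent.Lib.MP_4b91fc_lc.GH

open Finset Real

private theorem ch_log (x : ℝ) (hx : 0 < x) : Real.log x ≤ 2 * √x - 2 := by
  have h1 : 0 < √x := Real.sqrt_pos.mpr hx
  have h2 := Real.log_le_sub_one_of_pos h1
  have h3 : Real.log x = 2 * Real.log (√x) := by
    rw [Real.log_sqrt hx.le]
    ring
  rw [h3]
  linarith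

private theorem ch_bound (n x : ℕ) (hx : 1 ≤ x) (hn : Nat.primeCounting x = n) :
    x ≤ 9 * (n + 1) ^ 2 := by
  have hx' : (1 : ℝ) ≤ (x : ℝ) := by exact_mod_cast hx
  have h1 := Chebyshev.psi_ge x
  have h2 := Chebyshev.psi_le_primeCounting_mul_log x
  rw [hn] at h2
  have h3 := ch_log (x : ℝ) (by linarith)
  have h4 := ch_log ((x : ℝ) + 1) (by linarith)
  have h5 : √((x : ℝ) + 1) ≤ √(x : ℝ) + 1 := by
    rw [Real.sqrt_le_left (by positivity)]
    have h6 : √(x : ℝ) * √(x : ℝ) = x := Real.mul_self_sqrt (by linarith)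
    nlinarith [Real.sqrt_nonneg (x : ℝ)]
  have h7 : (0 : ℝ) ≤ n := Nat.cast_nonneg n
  have h8 : (n : ℝ) * Real.log x ≤ n * (2 * √(x : ℝ) - 2) := mul_le_mul_of_nonneg_left h3 h7
  have h9 : (x : ℝ) * Real.log 2 ≤ 2 * (n + 1) * √(x : ℝ) := by nlinarith
  have h10 : (2 : ℝ) / 3 ≤ Real.log 2 := by
    have := Real.log_two_gt_d9
    linarith
  have h11 : √(x : ℝ) * √(x : ℝ) = x := Real.mul_self_sqrt (by linarith)
  have h12 : (0 : ℝ) < √(x : ℝ) := Real.sqrt_pos.mpr (by linarith)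
  have h13 : √(x : ℝ) * (2 / 3) ≤ 2 * (n + 1) := by
    have h14 : (x : ℝ) * (2 / 3) ≤ (x : ℝ) * Real.log 2 :=
      mul_le_mul_of_nonneg_left h10 (by linarith)
    have h15 : (√(x : ℝ) * (2 / 3)) * √(x : ℝ) ≤ (2 * (n + 1)) * √(x : ℝ) := by
      calc (√(x : ℝ) * (2 / 3)) * √(x : ℝ) = (√(x : ℝ) * √(x : ℝ)) * (2 / 3) := by ring
        _ = (x : ℝ) * (2 / 3) := by rw [h11]
        _ ≤ _ := h14.trans h9
    exact le_of_mul_le_mul_right h15 h12
  have h16 : √(x : ℝ) ≤ 3 * (n + 1) := by linarith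
  have h17 : (x : ℝ) ≤ (3 * (n + 1)) * (3 * (n + 1)) := by
    calc (x : ℝ) = √(x : ℝ) * √(x : ℝ) := h11.symm
      _ ≤ (3 * (n + 1)) * (3 * (n + 1)) := mul_le_mul h16 h16 h12.le (by positivity)
  have h18 : (x : ℝ) ≤ ((9 * (n + 1) ^ 2 : ℕ) : ℝ) := by
    push_cast
    linarith
  exact_mod_cast h18

theorem p_ch : S_ch := by
  refine ⟨9 * (Polynomial.X + 1) ^ 2 + 1, fun n => ?_⟩
  have h0 : (9 * (Polynomial.X + 1) ^ 2 + 1 : Polynomial ℕ).eval n = 9 * (n + 1) ^ 2 + 1 := by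
    simp
  rw [h0]
  have h1 : n + 2 ≤ pr n := Nat.add_two_le_nth_prime n
  have h2 : Nat.primeCounting' (pr n) = n := Nat.primeCounting'_nth_eq n
  have h3 : Nat.primeCounting (pr n - 1) = n := by
    unfold Nat.primeCounting
    rw [show pr n - 1 + 1 = pr n by omega]
    exact h2
  have h4 := ch_bound n (pr n - 1) (by omega) h3
  omega

end Pool.Agent.Lib.MP_4b91fc_lc.GH
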