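import Pool.Agent.Lib.MP_4b91fc_lc.GH.Stm1

set_option autoImplicit false

/-!
# Piece ptn: partitions, their number, decomposition by the multiplicity of `k`
-/

namespace Pool.Agent.Lib.MP_4b91fc_lc.GH

open Finset

open scoped Nat

private theorem ptn_mem (n : ℕ) (μ : Multiset ℕ) : μ ∈ Ptn n ↔ μ.sum = n ∧ 0 ∉ μ := by
  unfold Ptn
  rw [mem_image]
  constructor
  · rintro ⟨p, -, rfl⟩
    exact ⟨p.parts_sum, fun h => absurd (p.parts_pos h) (lt_irrefl 0)⟩
  · rintro ⟨h1, h2⟩
    refine ⟨⟨μ, ?_, h1⟩, mem_univ _, rfl⟩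
    intro i hi
    rcases Nat.eq_zero_or_pos i with rfl | h
    · exact absurd hi h2
    · exact h

private theorem ptn_card (n : ℕ) : (Ptn n).card ≤ 2 ^ n := by
  unfold Ptn
  refine card_image_le.trans ?_
  rw [card_univ]
  calc Fintype.card (Nat.Partition n) ≤ Fintype.card (Composition n) :=
        Fintype.card_le_of_surjective _ Nat.Partition.ofComposition_surj
    _ = 2 ^ (n - 1) := composition_card n
    _ ≤ 2 ^ n := Nat.pow_le_pow_right (by norm_num) (Nat.sub_le n 1)

private theorem ptn_split (k : ℕ) (μ : Multiset ℕ) :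
    μ.filter (fun x => x ≠ k) + Multiset.replicate (μ.count k) k = μ := by
  have h1 : μ.filter (fun x => x = k) = Multiset.replicate (μ.count k) k :=
    Multiset.filter_eq' μ k
  rw [← h1, add_comm]
  exact Multiset.filter_add_not (fun x => x = k) μ

private theorem ptn_count (k M : ℕ) (ν : Multiset ℕ) (h : k ∉ ν) :
    (ν + Multiset.replicate M k).count k = M := by
  rw [Multiset.count_add, Multiset.count_eq_zero_of_notMem h, Multiset.count_replicate_self,
    zero_add]

private theorem ptn_filter (k M : ℕ) (ν : Multiset ℕ) (h : k ∉ ν) :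
    (ν + Multiset.replicate M k).filter (fun x => x ≠ k) = ν := by
  have h1 := ptn_split k (ν + Multiset.replicate M k)
  rw [ptn_count k M ν h] at h1
  exact add_right_cancel h1

private theorem ptn_sum (k : ℕ) (μ : Multiset ℕ) :
    (μ.filter (fun x => x ≠ k)).sum + k * μ.count k = μ.sum := by
  have h1 := congrArg Multiset.sum (ptn_split k μ)
  rw [Multiset.sum_add, Multiset.sum_replicate, smul_eq_mul] at h1
  rw [mul_comm]
  exact h1

theorem p_ptn : S_ptn := by
  refine ⟨ptn_mem, ptn_card, ?_⟩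
  intro n k hk f
  have hmaps : ∀ μ ∈ Ptn n, μ.count k ∈ range (n / k + 1) := by
    intro μ hμ
    rw [mem_range, Nat.lt_succ_iff, Nat.le_div_iff_mul_le hk]
    have h1 := ptn_sum k μ
    rw [((ptn_mem n μ).mp hμ).1] at h1
    rw [mul_comm]
    omega
  rw [← sum_fiberwise_of_maps_to hmaps]
  apply sum_congr rfl
  intro M hM
  have hM2 : k * M ≤ n := by
    rw [mem_range, Nat.lt_succ_iff, Nat.le_div_iff_mul_le hk] at hM
    rwa [mul_comm] at hM
  refine sum_nbij' (fun μ => μ.filter (fun x => x ≠ k)) (fun ν => ν + Multiset.replicate M k)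
    ?_ ?_ ?_ ?_ ?_
  · intro μ hμ
    rw [mem_filter, ptn_mem] at hμ
    obtain ⟨⟨h1, h2⟩, h3⟩ := hμ
    rw [mem_filter, ptn_mem]
    refine ⟨⟨?_, ?_⟩, ?_⟩
    · have h4 := ptn_sum k μ
      rw [h1, h3] at h4
      omega
    · intro h; exact h2 (Multiset.mem_of_mem_filter h)
    · intro h
      exact (Multiset.mem_filter.mp h).2 rfl
  · intro ν hν
    rw [mem_filter, ptn_mem] at hν
    obtain ⟨⟨h1, h2⟩, h3⟩ := hν
    rw [mem_filter, ptn_mem]
    refine ⟨⟨?_, ?_⟩, ptn_count k M ν h3⟩
    · rw [Multiset.sum_add, Multiset.sum_replicate, smul_eq_mul, h1, mul_comm M k]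
      omega
    · intro h
      rcases Multiset.mem_add.mp h with h | h
      · exact h2 h
      · exact hk.ne (Multiset.eq_of_mem_replicate h)
  · intro μ hμ
    rw [mem_filter] at hμ
    show μ.filter (fun x => x ≠ k) + Multiset.replicate M k = μ
    rw [← hμ.2]
    exact ptn_split k μ
  · intro ν hν
    rw [mem_filter] at hν
    exact ptn_filter k M ν hν.2
  · intro μ hμ
    rw [mem_filter] at hμ
    show f μ = f (μ.filter (fun x => x ≠ k) + Multiset.replicate M k)
    rw [← hμ.2, ptn_split k μ]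

end Pool.Agent.Lib.MP_4b91fc_lc.GH
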