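import Pool.Agent.Lib.MP_4b91fc_lc.GH.Stm1

set_option autoImplicit false

/-! Centraliser orders. -/

namespace Pool.Agent.Lib.MP_4b91fc_lc.GH

open Finset

open scoped Nat

private theorem zee_add (μ ν : Multiset ℕ) (h : ∀ x ∈ μ, x ∉ ν) :
    zee (μ + ν) = zee μ * zee ν := by
  unfold zee
  have hd : Disjoint μ.toFinset ν.toFinset := by
    rw [Finset.disjoint_left]
    intro x hx hx'
    exact h x (Multiset.mem_toFinset.mp hx) (Multiset.mem_toFinset.mp hx')
  rw [Multiset.toFinset_add, Finset.prod_union hd]
  congr 1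
  · refine Finset.prod_congr rfl fun k hk => ?_
    have h1 : ν.count k = 0 :=
      Multiset.count_eq_zero.mpr (h k (Multiset.mem_toFinset.mp hk))
    rw [Multiset.count_add, h1, add_zero]
  · refine Finset.prod_congr rfl fun k hk => ?_
    have h1 : μ.count k = 0 :=
      Multiset.count_eq_zero.mpr fun hk' => h k hk' (Multiset.mem_toFinset.mp hk)
    rw [Multiset.count_add, h1, zero_add]

private theorem zee_rep (M k : ℕ) : zee (Multiset.replicate M k) = k ^ M * M ! := by
  unfold zee
  rcases Nat.eq_zero_or_pos M with rfl | hM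
  · simp
  · rw [Multiset.toFinset_replicate, if_neg (by omega), Finset.prod_singleton,
      Multiset.count_replicate_self]

private theorem zee_dvd1 (k : ℕ) (hk : 0 < k) : ∀ c : ℕ, k ^ c * c ! ∣ (k * c)!
  | 0 => by simp
  | c + 1 => by
    have h1 := zee_dvd1 k hk c
    have h2 : k * (c + 1) = (k * c + (k - 1)) + 1 := by
      rw [Nat.mul_succ]
      omega
    have h3 : (k * (c + 1))! = (k * (c + 1)) * (k * c + (k - 1))! := by
      conv_lhs => rw [h2, Nat.factorial_succ]
      rw [← h2]
    rw [h3, Nat.factorial_succ, pow_succ]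
    have h4 : k ^ c * k * ((c + 1) * c !) = (k * (c + 1)) * (k ^ c * c !) := by ring
    rw [h4]
    exact Nat.mul_dvd_mul_left _ (h1.trans (Nat.factorial_dvd_factorial (by omega)))

theorem p_zee : S_zee := by
  refine ⟨?_, ?_, ?_, ?_, ?_⟩
  · intro μ k M hk
    rw [zee_add, zee_rep, mul_comm]
    intro x hx hx'
    exact hk (Multiset.eq_of_mem_replicate hx' ▸ hx)
  · intro μ h0
    have h1 : μ.sum = ∑ k ∈ μ.toFinset, k * μ.count k := by
      rw [Finset.sum_multiset_count]
      refine Finset.sum_congr rfl fun k _ => ?_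
      rw [smul_eq_mul, mul_comm]
    rw [h1]
    refine dvd_trans ?_ (Nat.prod_factorial_dvd_factorial_sum _ _)
    unfold zee
    refine Finset.prod_dvd_prod_of_dvd _ _ fun k hk => zee_dvd1 k ?_ _
    rcases Nat.eq_zero_or_pos k with rfl | h
    · exact absurd (Multiset.mem_toFinset.mp hk) h0
    · exact h
  · intro μ h0
    unfold zee
    refine Finset.prod_pos fun k hk => ?_
    have hk' : 0 < k := by
      rcases Nat.eq_zero_or_pos k with rfl | h
      · exact absurd (Multiset.mem_toFinset.mp hk) h0
      · exact h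
    exact Nat.mul_pos (pow_pos hk' _) (Nat.factorial_pos _)
  · exact zee_add
  · intro μ h
    rw [Finset.prod_multiset_count]
    unfold zee
    refine Finset.prod_congr rfl fun k _ => ?_
    have h1 := Multiset.nodup_iff_count_le_one.mp h k
    have h2 : (μ.count k)! = 1 := Nat.factorial_eq_one.mpr h1
    rw [h2, mul_one]

end Pool.Agent.Lib.MP_4b91fc_lc.GH
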