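import Pool.Agent.Lib.MP_4b91fc_lc.GH.Stm2
import Pool.Agent.Lib.MP_4b91fc_lc.GH.P.ptn
import Pool.Agent.Lib.MP_4b91fc_lc.GH.P.zee
import Pool.Agent.Lib.MP_4b91fc_lc.GH.P.cc

set_option autoImplicit false

/-!
# `#GRAPHS` is hard for `#P_1`: piece `cl`, the exponents of the tuples
-/

namespace Pool.Agent.Lib.MP_4b91fc_lc.GH

open Finset

open scoped Nat

private theorem cl_sum (F : Finset ℕ) : F.val.sum = ∑ x ∈ F, x := Finset.sum_val F

private theorem cl_qs_comm (X Y : Finset ℕ) : qs X Y = qs Y X := by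
  unfold qs
  rw [Finset.sum_comm]
  exact Finset.sum_congr rfl fun x _ => Finset.sum_congr rfl fun y _ => Nat.gcd_comm _ _

/-- the difference of the exponents -/
private theorem cl_diff {m : ℕ} {a : Fin m → ℕ} {pi : Fin m → Fin m → ℕ} {l s : Fin m → ℕ}
    {q : Fin m → Fin m → ℕ} {Q : Fin m → Fin m → ℕ} {σ : Fin m → ℕ}
    (hσ : ∑ i, a i * σ i = ∑ i, a i * s i) {c : ℕ}
    (hc : c = ∑ i, a i * Q i i + ∑ i, ∑ j, if i < j then 2 * pi i j * Q i j else 0) :
    (c : ℤ) - qe a pi l s q = ∑ i, (a i : ℤ) * ((Q i i : ℤ) - σ i - (l i * (l i - 1) : ℕ)) +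
      ∑ i, ∑ j, if i < j then 2 * (pi i j : ℤ) *
        (if i < j then (Q i j : ℤ) - q i j else 0) else 0 := by
  have h1 : (∑ i, (a i : ℤ) * σ i) = ∑ i, (a i : ℤ) * s i := by exact_mod_cast hσ
  have h2 : (∑ i, ∑ j, if i < j then 2 * (pi i j : ℤ) *
        (if i < j then (Q i j : ℤ) - q i j else 0) else 0) =
      (∑ i, ∑ j, if i < j then 2 * (pi i j : ℤ) * Q i j else 0) -
        ∑ i, ∑ j, if i < j then 2 * (pi i j : ℤ) * q i j else 0 := by
    rw [← Finset.sum_sub_distrib]
    refine Finset.sum_congr rfl fun i _ => ?_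
    rw [← Finset.sum_sub_distrib]
    refine Finset.sum_congr rfl fun j _ => ?_
    by_cases h : i < j
    · simp only [if_pos h]
      ring
    · simp only [if_neg h]
      ring
  have h3 : ∑ i, (a i : ℤ) * ((Q i i : ℤ) - σ i - (l i * (l i - 1) : ℕ)) =
      (∑ i, (a i : ℤ) * Q i i) - (∑ i, (a i : ℤ) * σ i) - ∑ i, (a i : ℤ) * (l i * (l i - 1) : ℕ) := by
    rw [← Finset.sum_sub_distrib, ← Finset.sum_sub_distrib]
    exact Finset.sum_congr rfl fun i _ => by ring
  have h4 : (c : ℤ) = (∑ i, (a i : ℤ) * Q i i) +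
      ∑ i, ∑ j, if i < j then 2 * (pi i j : ℤ) * Q i j else 0 := by
    rw [hc]
    push_cast
    rfl
  have h5 : (qe a pi l s q : ℤ) = (∑ i, (a i : ℤ) * s i) + (∑ i, (a i : ℤ) * (l i * (l i - 1) : ℕ)) +
      ∑ i, ∑ j, if i < j then 2 * (pi i j : ℤ) * q i j else 0 := by
    unfold qe
    have h6 : (∑ i, a i * (s i + l i * (l i - 1))) =
        (∑ i, a i * s i) + ∑ i, a i * (l i * (l i - 1)) := by
      rw [← Finset.sum_add_distrib]
      exact Finset.sum_congr rfl fun i _ => by ring
    rw [h6]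
    push_cast
    rfl
  rw [h4, h5, h3, h2, h1]
  ring

theorem p_cl : S_cl := by
  intro hw1 hw3 hms hjn m S B H a pi hT w l q hw hq hl hlS hsS hqB
  obtain ⟨hm1, -, hm3, hm4, hm5, hm6⟩ := hms p_ptn
  have hJ := hjn p_zee p_cc m S B H a pi hT
  have ha : ∀ i, 0 < a i := fun i => lt_trans one_pos (hT.one_lt i)
  obtain ⟨s, hs⟩ : ∃ s, s = sw w l q := ⟨_, rfl⟩
  have hsi : ∀ i, s i + l i * l (w i) = q i (w i) + l i := by
    intro i
    rw [hs]
    unfold sw
    exact Nat.sub_add_cancel (hl i)
  rw [← hs] at hsS ⊢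
  -- the sums of the gcds in the order of `w`
  have hqw : ∀ X : Fin m → Finset ℕ, (∀ i j, i < j → qs (X i) (X j) = q i j) →
      ∀ i, qs (X i) (X (w i)) = q i (w i) := by
    intro X hX i
    rcases lt_or_gt_of_ne (hw i) with h | h
    · rw [cl_qs_comm, hX _ _ h, hq]
    · exact hX _ _ h
  constructor
  · intro Y hY
    have hY' := hY
    unfold TT at hY'
    rw [Finset.mem_filter, Fintype.mem_piFinset] at hY'
    obtain ⟨hYB, hYc, hYs⟩ := hY'
    have hY1 : ∀ i, ∀ x ∈ Y i, 1 ≤ x ∧ x ≤ B := fun i => hm3 B (Y i) (hYB i)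
    have hY2 : ∀ i, ∀ x ∈ Y i, 2 ≤ x := by
      intro i x hx
      have h1 := (hY1 i x hx).1
      have h2 : x ≠ 1 := fun h => (hYc i).2 (h ▸ hx)
      omega
    obtain ⟨-, hcc⟩ := hJ Y hY1
    have hdiff := cl_diff (pi := pi) (l := l) (q := q) (Q := fun i j => qq (Y i) (Y j)) hYs hcc
    have hexc : ∀ i, (Y i).sum + l i * (l i - 1) ≤ qq (Y i) (Y i) := by
      intro i
      have := (hw3 (Y i) (hY2 i)).1
      rwa [(hYc i).1] at this
    obtain ⟨d, hd⟩ : ∃ d : Fin m → Fin m → ℤ, d = fun i j =>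
      if i < j then (qq (Y i) (Y j) : ℤ) - q i j else 0 := ⟨_, rfl⟩
    have hdB : ∀ i j, |d i j| ≤ (B : ℤ) ^ 2 := by
      intro i j
      rw [hd]
      simp only
      split_ifs with h
      · have h1 : (qq (Y i) (Y j) : ℤ) ≤ (B : ℤ) ^ 2 := by
          exact_mod_cast hm6 B (Y i) (Y j) (hYB i) (hYB j)
        have h2 : (q i j : ℤ) ≤ (B : ℤ) ^ 2 := by exact_mod_cast hqB i j h
        rw [abs_le]
        constructor <;> omega
      · rw [abs_zero]
        positivity
    have hdd : ∀ i j, (if i < j then (qq (Y i) (Y j) : ℤ) - q i j else 0) = d i j := by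
      intro i j
      rw [hd]
    simp only [hdd] at hdiff
    obtain ⟨D, hD⟩ : ∃ D : ℤ, D = ∑ i, ∑ j, if i < j then 2 * (pi i j : ℤ) * d i j else 0 := ⟨_, rfl⟩
    rw [← hD] at hdiff
    have hterm : ∀ i, 0 ≤ (a i : ℤ) * ((qq (Y i) (Y i) : ℤ) - (Y i).sum - (l i * (l i - 1) : ℕ)) := by
      intro i
      apply mul_nonneg (by positivity)
      have := hexc i
      have h2 : ((Y i).sum : ℤ) + (l i * (l i - 1) : ℕ) ≤ qq (Y i) (Y i) := by exact_mod_cast this
      linarith
    by_cases hA : ∃ k, (Y k).sum + l k * (l k - 1) < qq (Y k) (Y k)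
    · obtain ⟨k, hk⟩ := hA
      right; left
      have h1 : (a k : ℤ) ≤ ∑ i, (a i : ℤ) * ((qq (Y i) (Y i) : ℤ) - (Y i).sum -
          (l i * (l i - 1) : ℕ)) := by
        refine le_trans ?_ (Finset.single_le_sum (f := fun i => (a i : ℤ) *
          ((qq (Y i) (Y i) : ℤ) - (Y i).sum - (l i * (l i - 1) : ℕ))) (fun i _ => hterm i)
          (Finset.mem_univ k))
        have h2 : ((Y k).sum : ℤ) + (l k * (l k - 1) : ℕ) < qq (Y k) (Y k) := by exact_mod_cast hk
        have h3 : (1 : ℤ) ≤ (qq (Y k) (Y k) : ℤ) - (Y k).sum - (l k * (l k - 1) : ℕ) := by linarith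
        calc (a k : ℤ) = a k * 1 := (mul_one _).symm
          _ ≤ _ := mul_le_mul_of_nonneg_left h3 (by positivity)
      have h4 : -(∑ i, ∑ j, if i < j then 2 * (pi i j : ℤ) * (B : ℤ) ^ 2 else 0) ≤ D := by
        rw [hD, ← Finset.sum_neg_distrib]
        refine Finset.sum_le_sum fun i _ => ?_
        rw [← Finset.sum_neg_distrib]
        refine Finset.sum_le_sum fun j _ => ?_
        split_ifs with h
        · have h5 := (abs_le.1 (hdB i j)).1
          have h6 : (0 : ℤ) ≤ 2 * (pi i j : ℤ) := by positivity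
          have h7 := mul_le_mul_of_nonneg_left h5 h6
          linarith
        · simp
      have h8 : (∑ i, ∑ j, if i < j then 2 * (pi i j : ℤ) * (B : ℤ) ^ 2 else 0) + (H : ℤ) ≤
          (a k : ℤ) := by
        have h10 := hT.top k
        zify at h10
        exact h10
      have h9 : (qe a pi l s q : ℤ) + H ≤ cc (join a Y) := by linarith
      exact_mod_cast h9
    · push Not at hA
      have hE : ∀ i, qq (Y i) (Y i) = (Y i).sum + l i * (l i - 1) := fun i =>
        le_antisymm (hA i) (hexc i)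
      have hz : ∑ i, (a i : ℤ) * ((qq (Y i) (Y i) : ℤ) - (Y i).sum - (l i * (l i - 1) : ℕ)) = 0 := by
        refine Finset.sum_eq_zero fun i _ => ?_
        rw [hE i]
        push_cast
        ring
      rw [hz, zero_add] at hdiff
      by_cases hB : ∃ i j, i < j ∧ d i j ≠ 0
      · right
        have h1 := hT.sep d hdB hB
        rw [← hD] at h1
        rcases le_abs.1 h1 with h2 | h2
        · left
          have h9 : (qe a pi l s q : ℤ) + H ≤ cc (join a Y) := by linarith
          exact_mod_cast h9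
        · right
          have h9 : (cc (join a Y) : ℤ) + H ≤ qe a pi l s q := by linarith
          exact_mod_cast h9
      · push Not at hB
        left
        have hX : ∀ i, ∃ X : Finset ℕ, PCs X ∧ Y i = X.val := by
          intro i
          apply (hw3 (Y i) (hY2 i)).2.1
          rw [(hYc i).1]
          exact hE i
        choose X hX1 hX2 using hX
        have hqX : ∀ i j, i < j → qs (X i) (X j) = q i j := by
          intro i j hij
          have h1 := hB i j hij
          rw [hd] at h1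
          simp only [if_pos hij] at h1
          have h2 : qq (Y i) (Y j) = q i j := by omega
          rw [← hm5, ← hX2, ← hX2, h2]
        have hcard : ∀ i, (X i).card = l i := by
          intro i
          rw [← (hYc i).1, hX2 i]
          rfl
        have hsumX : ∀ i, (Y i).sum = ∑ x ∈ X i, x := by
          intro i
          rw [hX2 i]
          exact cl_sum _
        have hge : ∀ i, s i ≤ (Y i).sum := by
          intro i
          have h1 := (hw1 (X i) (X (w i)) (hX1 i).1 (hX1 (w i))).1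
          rw [hqw X hqX i, hcard, hcard, ← hsumX] at h1
          have := hsi i
          omega
        have heq : ∀ i, (Y i).sum = s i := by
          have h1 : ∀ i ∈ (univ : Finset (Fin m)), a i * s i ≤ a i * (Y i).sum :=
            fun i _ => Nat.mul_le_mul_left _ (hge i)
          have h2 := (Finset.sum_eq_sum_iff_of_le h1).1 hYs.symm
          intro i
          exact (Nat.eq_of_mul_eq_mul_left (ha i) (h2 i (Finset.mem_univ i))).symm
        refine ⟨X, ?_, funext hX2⟩
        unfold CL
        rw [Finset.mem_filter, Fintype.mem_piFinset]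
        refine ⟨fun i => ?_, fun i => ⟨hX1 i, hcard i, ?_⟩, hqX⟩
        · rw [Finset.mem_powerset]
          intro x hx
          have hx' : x ∈ Y i := by
            rw [hX2 i]
            exact hx
          rw [Finset.mem_Icc]
          exact ⟨(hX1 i).1 x hx, (hY1 i x hx').2⟩
        · apply (hw1 (X i) (X (w i)) (hX1 i).1 (hX1 (w i))).2.1
          rw [hqw X hqX i, hcard, hcard, ← hsumX, heq]
          have := hsi i
          omega
  · intro X hX
    unfold CL at hX
    rw [Finset.mem_filter, Fintype.mem_piFinset] at hX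
    obtain ⟨hX0, hX1, hX2⟩ := hX
    have hsum : ∀ i, ∑ x ∈ X i, x = s i := by
      intro i
      have h1 := (hw1 (X i) (X (w i)) (hX1 i).1.1 (hX1 (w i)).1).2.2 (hX1 i).2.2
      rw [hqw X hX2 i, (hX1 i).2.1, (hX1 (w i)).2.1] at h1
      have := hsi i
      omega
    have hsB : ∀ i, s i ≤ B := by
      intro i
      have h1 : s i ≤ ∑ i, s i := Finset.single_le_sum (fun _ _ => Nat.zero_le _) (Finset.mem_univ i)
      exact (h1.trans hsS).trans hT.hSB
    have hYB : ∀ i, (X i).val ∈ MS B := by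
      intro i
      rw [hm1]
      refine ⟨fun h0 => ?_, ?_⟩
      · have := (hX1 i).1.1 0 h0
        omega
      · rw [cl_sum, hsum]
        exact hsB i
    have hYs : ∑ i, a i * (X i).val.sum = ∑ i, a i * s i :=
      Finset.sum_congr rfl fun i _ => by rw [cl_sum, hsum]
    constructor
    · unfold TT
      rw [Finset.mem_filter, Fintype.mem_piFinset]
      refine ⟨hYB, fun i => ⟨(hX1 i).2.1, fun h1 => ?_⟩, hYs⟩
      have := (hX1 i).1.1 1 h1
      omega
    · obtain ⟨-, hcc⟩ := hJ (fun i => (X i).val) (fun i => hm3 B _ (hYB i))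
      rw [hcc]
      unfold qe
      congr 1
      · refine Finset.sum_congr rfl fun i _ => ?_
        have h1 := (hw3 (X i).val (fun x hx => (hX1 i).1.1 x hx)).2.2 ⟨X i, (hX1 i).1, rfl⟩
        have h2 : Multiset.card (X i).val = l i := (hX1 i).2.1
        rw [h1, h2, cl_sum, hsum]
      · refine Finset.sum_congr rfl fun i _ => Finset.sum_congr rfl fun j _ => ?_
        split_ifs with h
        · rw [hm5, hX2 i j h]
        · rfl

end Pool.Agent.Lib.MP_4b91fc_lc.GH
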