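import Pool.Agent.Lib.MP_4b91fc_lc.GH.Stm1

set_option autoImplicit false

/-!
# `#GRAPHS`: the sum of the terms of one digit
-/

namespace Pool.Agent.Lib.MP_4b91fc_lc.GH

open Finset

open scoped Nat

private lemma clu_filter (μ : Multiset ℕ) (k M : ℕ) (h : k ∉ μ) :
    (μ + Multiset.replicate M k).filter (fun x => x ≠ k) = μ := by
  rw [Multiset.filter_add]
  have h1 : μ.filter (fun x => x ≠ k) = μ :=
    Multiset.filter_eq_self.2 fun a ha hk => h (hk ▸ ha)
  have h2 : (Multiset.replicate M k).filter (fun x => x ≠ k) = 0 :=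
    Multiset.filter_eq_nil.2 fun a ha hk => hk (Multiset.eq_of_mem_replicate ha)
  rw [h1, h2, add_zero]

private lemma clu_gs (y k M : ℕ) (μ : Multiset ℕ) :
    gs y (μ + Multiset.replicate M k) = gs y μ + M * Nat.gcd y k := by
  simp [gs]

private lemma clu_list (M N : ℕ) (b : ℤ) (k : ℕ) (μ : Multiset ℕ) (hM : (M : ℤ) = N - b) :
    ∀ (ks v : List ℕ), v.length = ks.length →
      ((ks.map (fun y => gs y μ + M * Nat.gcd y k) =
        List.zipWith (fun x y => x + N * Nat.gcd y k) v ks) ↔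
      ((∀ p ∈ v.zip ks, 0 ≤ (p.1 : ℤ) + b * (Nat.gcd p.2 k : ℕ)) ∧
        ks.map (fun y => gs y μ) =
          (v.zip ks).map (fun p => ((p.1 : ℤ) + b * (Nat.gcd p.2 k : ℕ)).toNat))) := by
  intro ks
  induction ks with
  | nil =>
    intro v hv
    have : v = [] := by simpa using hv
    subst this
    simp
  | cons y ks ih =>
    intro v hv
    cases v with
    | nil => simp at hv
    | cons x v =>
      have h := ih v (by simpa using hv)
      have h1 : (M : ℤ) * (Nat.gcd y k : ℕ) = N * (Nat.gcd y k : ℕ) - b * (Nat.gcd y k : ℕ) := by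
        rw [hM]; ring
      have e : gs y μ + M * Nat.gcd y k = x + N * Nat.gcd y k ↔
          0 ≤ (x : ℤ) + b * (Nat.gcd y k : ℕ) ∧
            gs y μ = ((x : ℤ) + b * (Nat.gcd y k : ℕ)).toNat := by
        constructor
        · intro h2
          have h3 : ((gs y μ : ℕ) : ℤ) + M * (Nat.gcd y k : ℕ) = x + N * (Nat.gcd y k : ℕ) := by
            exact_mod_cast h2
          rw [h1] at h3
          generalize b * ((Nat.gcd y k : ℕ) : ℤ) = B at *
          constructor <;> omega
        · rintro ⟨h2, h3⟩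
          have h4 : ((gs y μ : ℕ) : ℤ) + M * (Nat.gcd y k : ℕ) = x + N * (Nat.gcd y k : ℕ) := by
            rw [h1]
            generalize b * ((Nat.gcd y k : ℕ) : ℤ) = B at *
            omega
          exact_mod_cast h4
      simp only [List.map_cons, List.zipWith_cons_cons, List.zip_cons_cons, List.cons.injEq,
        List.forall_mem_cons, h, e]
      tauto

private lemma clu_sel (ks : List ℕ) (k u l g : ℕ) (v : List ℕ) (N M : ℕ) (b : ℤ)
    (μ : Multiset ℕ) (hk : 2 ≤ k) (hks : k ∉ ks) (hv : v.length = ks.length)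
    (hM : (M : ℤ) = N - b) (hkμ : k ∉ μ) (hs : (μ.sum : ℤ) = u + k * b) :
    (Sel ks (N + l) (shv ks k N v) (μ + Multiset.replicate M k) ∧
      (u : ℤ) - g = ((μ + Multiset.replicate M k).filter (fun x => x ≠ k)).sum -
        gs k ((μ + Multiset.replicate M k).filter (fun x => x ≠ k))) ↔
    ((0 ≤ (l : ℤ) + b ∧ 0 ≤ (g : ℤ) + k * b ∧
      (∀ p ∈ v.zip ks, 0 ≤ (p.1 : ℤ) + b * (Nat.gcd p.2 k : ℕ))) ∧
      Sel (k :: ks) ((l : ℤ) + b).toNat (((g : ℤ) + k * b).toNat ::
          (v.zip ks).map (fun p => ((p.1 : ℤ) + b * (Nat.gcd p.2 k : ℕ)).toNat)) μ) := by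
  rw [clu_filter μ k M hkμ]
  have h1 : ks.map (fun y => gs y (μ + Multiset.replicate M k)) =
      ks.map (fun y => gs y μ + M * Nat.gcd y k) :=
    List.map_congr_left fun y _ => clu_gs y k M μ
  have h2 := clu_list M N b k μ hM ks v hv
  have h3 : ∀ x, x ≠ k → (x ∈ μ + Multiset.replicate M k ↔ x ∈ μ) := by
    intro x hx
    rw [Multiset.mem_add]
    constructor
    · rintro (h | h)
      · exact h
      · exact absurd (Multiset.eq_of_mem_replicate h) hx
    · exact Or.inl
  have h4 : (∀ x ∈ ks, x ∉ μ + Multiset.replicate M k) ↔ ∀ x ∈ k :: ks, x ∉ μ := by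
    rw [List.forall_mem_cons]
    constructor
    · intro h
      exact ⟨hkμ, fun x hx => fun h' => h x hx ((h3 x (fun e => hks (e ▸ hx))).2 h')⟩
    · rintro ⟨-, h⟩ x hx h'
      exact h x hx ((h3 x (fun e => hks (e ▸ hx))).1 h')
  have h5 : (1 ∉ μ + Multiset.replicate M k) ↔ 1 ∉ μ := by
    rw [h3 1 (by omega)]
  have h6 : (μ + Multiset.replicate M k).card = N + l ↔
      (0 ≤ (l : ℤ) + b ∧ μ.card = ((l : ℤ) + b).toNat) := by
    rw [Multiset.card_add, Multiset.card_replicate]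
    omega
  have h7 : ((u : ℤ) - g = (μ.sum : ℕ) - (gs k μ : ℕ)) ↔
      (0 ≤ (g : ℤ) + k * b ∧ gs k μ = ((g : ℤ) + k * b).toNat) := by
    rw [hs]
    generalize (k : ℤ) * b = B at *
    omega
  unfold Sel
  rw [h1, h4, h5, h6, h7, List.map_cons, List.cons.injEq]
  unfold shv
  rw [h2]
  tauto

private lemma clu_vt (hz : S_zee) (hcc : S_cc) (k u l g N M t : ℕ) (b : ℤ) (μ : Multiset ℕ)
    (hk : 2 ≤ k) (hb : b = (t : ℤ) - u) (ht : M + t = N + u) (hkμ : k ∉ μ) (h0 : 0 ∉ μ)
    (hg : (gs k μ : ℤ) = g + k * b) :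
    vt k u l g N (μ + Multiset.replicate M k) =
      (k : ℚ) ^ t * L2 k u l *
      (2 : ℚ) ^ ((E2 k u l : ℤ) - b * g - k * (b * (b - 1) / 2) - b * (k / 2 : ℕ)) * ww μ *
        (N + u).descFactorial t := by
  have hM : (M : ℤ) = N - b := by omega
  have e1 : cc (μ + Multiset.replicate M k) = e2 k M + M * gs k μ + cc μ := hcc.2.2.2.2.1 μ k M
  have e3 : zee (μ + Multiset.replicate M k) = k ^ M * M ! * zee μ := hz.1 μ k M hkμ
  have e4 : 0 < zee μ := hz.2.2.1 μ h0
  have e5 : (N + u)! = M ! * (N + u).descFactorial t := by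
    have := Nat.factorial_mul_descFactorial (show t ≤ N + u by omega)
    rw [← this]
    congr 2
    omega
  have e6 : (k : ℚ) ^ (N + u) = k ^ M * k ^ t := by rw [← ht, pow_add]
  have hc : ∀ n : ℕ, 2 * (n.choose 2 : ℤ) = n * (n - 1) := by
    intro n
    have h1 := Nat.triangle_succ (n - 1)
    rcases Nat.eq_zero_or_pos n with h | h
    · subst h; simp
    · have h2 : n.choose 2 * 2 = n * (n - 1) := by
        rw [Nat.choose_two_right]
        exact Nat.div_mul_cancel (Nat.even_mul_pred_self n).two_dvd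
      have h3 : ((n - 1 : ℕ) : ℤ) = n - 1 := by omega
      have h4 : ((n.choose 2 * 2 : ℕ) : ℤ) = ((n * (n - 1) : ℕ) : ℤ) := by rw [h2]
      push_cast at h4
      rw [h3] at h4
      linarith
  have hcb : 2 * (b * (b - 1) / 2) = b * (b - 1) := by
    have : (2 : ℤ) ∣ b * (b - 1) := (Int.even_mul_pred_self b).two_dvd
    omega
  have key : (e2 k M + M * gs k μ + cc μ : ℤ) - (e2 k N + N * g) =
      - b * g - k * (b * (b - 1) / 2) - b * (k / 2 : ℕ) + cc μ := by
    have h1 := hc M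
    have h2 := hc N
    rw [hM] at h1
    have h3 : (M.choose 2 : ℤ) - N.choose 2 + N * b - b ^ 2 + (b * (b - 1) / 2) = 0 := by
      have : 2 * ((M.choose 2 : ℤ) - N.choose 2 + N * b - b ^ 2 + (b * (b - 1) / 2)) = 0 := by
        linear_combination h1 - h2 + hcb
      omega
    unfold e2
    push_cast
    rw [hg, hM]
    linear_combination (k : ℤ) * h3
  unfold vt ww
  rw [e1, e3, e5, e6]
  have hk0 : (k : ℚ) ≠ 0 := by positivity
  have hz0 : (zee μ : ℚ) ≠ 0 := by positivity
  have hM0 : ((M ! : ℕ) : ℚ) ≠ 0 := by positivity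
  have e7 : (2 : ℚ) ^ ((E2 k u l : ℤ) - b * g - k * (b * (b - 1) / 2) - b * (k / 2 : ℕ)) * 2 ^ cc μ *
      2 ^ (e2 k N + N * g) = 2 ^ (e2 k M + M * gs k μ + cc μ) * 2 ^ E2 k u l := by
    rw [← zpow_natCast (2 : ℚ) (cc μ), ← zpow_natCast (2 : ℚ) (e2 k N + N * g),
      ← zpow_natCast (2 : ℚ) (e2 k M + M * gs k μ + cc μ), ← zpow_natCast (2 : ℚ) (E2 k u l),
      ← zpow_add₀ (by norm_num), ← zpow_add₀ (by norm_num), ← zpow_add₀ (by norm_num)]
    congr 1
    push_cast at key ⊢
    linear_combination -key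
  generalize (2 : ℚ) ^ ((E2 k u l : ℤ) - b * g - k * (b * (b - 1) / 2) - b * (k / 2 : ℕ)) = Z at *
  generalize (2 : ℚ) ^ (e2 k M + M * gs k μ + cc μ) = X at *
  have hY : (2 : ℚ) ^ (e2 k N + N * g) ≠ 0 := by positivity
  generalize (2 : ℚ) ^ (e2 k N + N * g) = Y at *
  generalize (2 : ℚ) ^ cc μ = W at *
  generalize (2 : ℚ) ^ E2 k u l = V at *
  push_cast
  rw [div_eq_iff hY]
  field_simp
  linear_combination (-(1 : ℚ)) * L2 k u l * (N + u).descFactorial t * e7

private lemma clu_om (ks : List ℕ) (k u l g : ℕ) (v : List ℕ) (t : ℕ) (b : ℤ)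
    (hb : b = (t : ℤ) - u) :
    om ks k u l g v t = if 0 ≤ (u : ℤ) + k * b ∧ 0 ≤ (l : ℤ) + b ∧ 0 ≤ (g : ℤ) + k * b ∧
      (∀ p ∈ v.zip ks, 0 ≤ (p.1 : ℤ) + b * (Nat.gcd p.2 k : ℕ)) then
    (k : ℚ) ^ t * L2 k u l *
      (2 : ℚ) ^ ((E2 k u l : ℤ) - b * g - k * (b * (b - 1) / 2) - b * (k / 2 : ℕ)) *
      Fq (k :: ks) ((u : ℤ) + k * b).toNat ((l : ℤ) + b).toNat
        (((g : ℤ) + k * b).toNat ::
          (v.zip ks).map (fun p => ((p.1 : ℤ) + b * (Nat.gcd p.2 k : ℕ)).toNat))
  else 0 := by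
  subst hb
  rfl

private lemma clu_term (hp : S_ptn) (hz : S_zee) (hcc : S_cc)
    (ks : List ℕ) (k u l g : ℕ) (v : List ℕ) (N M t : ℕ)
    (hk : 2 ≤ k) (hks : k ∉ ks) (hv : v.length = ks.length)
    (ht : M + t = N + u) (hkM : k * M ≤ k * N + u) :
    ∑ μ ∈ (Ptn (k * N + u - k * M)).filter (fun μ => k ∉ μ),
      (if (Sel ks (N + l) (shv ks k N v) (μ + Multiset.replicate M k) ∧
        (u : ℤ) - g = ((μ + Multiset.replicate M k).filter (fun x => x ≠ k)).sum -
          gs k ((μ + Multiset.replicate M k).filter (fun x => x ≠ k))) then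
        vt k u l g N (μ + Multiset.replicate M k) else 0) =
      om ks k u l g v t * (N + u).descFactorial t := by
  have hMb : (M : ℤ) = N - ((t : ℤ) - u) := by omega
  have hn : ((k * N + u - k * M : ℕ) : ℤ) = u + k * ((t : ℤ) - u) := by
    rw [Nat.cast_sub hkM]
    push_cast
    rw [hMb]
    ring
  have hn' : ((u : ℤ) + k * ((t : ℤ) - u)).toNat = k * N + u - k * M := by
    rw [← hn]; simp
  rw [clu_om ks k u l g v t _ rfl]
  generalize hb : (t : ℤ) - u = b at *
  rw [hn']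
  generalize hLL : (((g : ℤ) + k * b).toNat ::
          (v.zip ks).map (fun p => ((p.1 : ℤ) + b * (Nat.gcd p.2 k : ℕ)).toNat)) = LL at *
  have hun : 0 ≤ (u : ℤ) + k * b := by rw [← hn]; positivity
  have hiff : ∀ μ ∈ (Ptn (k * N + u - k * M)).filter (fun μ => k ∉ μ),
      ((Sel ks (N + l) (shv ks k N v) (μ + Multiset.replicate M k) ∧
        (u : ℤ) - g = ((μ + Multiset.replicate M k).filter (fun x => x ≠ k)).sum -
          gs k ((μ + Multiset.replicate M k).filter (fun x => x ≠ k))) ↔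
      ((0 ≤ (l : ℤ) + b ∧ 0 ≤ (g : ℤ) + k * b ∧
      (∀ p ∈ v.zip ks, 0 ≤ (p.1 : ℤ) + b * (Nat.gcd p.2 k : ℕ))) ∧
      Sel (k :: ks) ((l : ℤ) + b).toNat LL μ)) := by
    intro μ hμ
    rw [mem_filter, hp.1] at hμ
    rw [← hLL]
    refine clu_sel ks k u l g v N M b μ hk hks hv hMb hμ.2 ?_
    rw [hμ.1.1, hn]
  split_ifs with hc
  · have hc2 := hc.2
    rw [Fq, mul_sum, sum_mul, sum_filter, sum_filter]
    refine Finset.sum_congr rfl fun μ hμ => ?_
    by_cases hkμ : k ∉ μ
    · rw [if_pos hkμ]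
      have h1 := hiff μ (mem_filter.2 ⟨hμ, hkμ⟩)
      by_cases h2 : Sel (k :: ks) ((l : ℤ) + b).toNat LL μ
      · rw [if_pos (h1.2 ⟨hc2, h2⟩), if_pos h2]
        refine clu_vt hz hcc k u l g N M t b μ hk hb.symm ht hkμ ((hp.1 _ _).1 hμ).2 ?_
        have h3 := h2.2.2.2
        rw [← hLL, List.map_cons, List.cons.injEq] at h3
        rw [h3.1]
        have := hc2.2.1
        omega
      · rw [if_neg (fun h => h2 (h1.1 h).2), if_neg h2]
    · rw [if_neg hkμ, if_neg]
      intro h2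
      exact hkμ (h2.2.2.1 k (List.mem_cons_self ..))
  · rw [zero_mul]
    refine Finset.sum_eq_zero fun μ hμ => ?_
    rw [if_neg]
    intro h
    exact hc ⟨hun, ((hiff μ hμ).1 h).1⟩

private lemma clu_small (ks : List ℕ) (k u l g : ℕ) (v : List ℕ) (t : ℕ)
    (h : (u : ℤ) + k * ((t : ℤ) - u) < 0) : om ks k u l g v t = 0 := by
  rw [clu_om ks k u l g v t _ rfl, if_neg]
  intro h'
  exact absurd h'.1 (not_le.2 h)

private lemma clu_large (hp : S_ptn) (hq : S_parts) (ks : List ℕ) (k u l g : ℕ) (v : List ℕ) (t : ℕ)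
    (hk : 2 ≤ k) (h : 2 * u + k * l + 1 ≤ t) : om ks k u l g v t = 0 := by
  rw [clu_om ks k u l g v t _ rfl]
  generalize hb : (t : ℤ) - u = b at *
  split_ifs with hc
  · have h1 : Fq (k :: ks) ((u : ℤ) + k * b).toNat ((l : ℤ) + b).toNat
        (((g : ℤ) + k * b).toNat ::
          (v.zip ks).map (fun p => ((p.1 : ℤ) + b * (Nat.gcd p.2 k : ℕ)).toNat)) = 0 := by
      refine Finset.sum_eq_zero fun μ hμ => ?_
      exfalso
      rw [mem_filter, hp.1] at hμ
      obtain ⟨⟨h1, h2⟩, h3⟩ := hμ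
      have h4 := hq μ k (by omega) h2 (h3.2.2.1 k (List.mem_cons_self ..))
      have h5 := h3.2.2.2
      rw [List.map_cons, List.cons.injEq] at h5
      rw [h5.1, h1, h3.2.1] at h4
      have h6 : ((((l : ℤ) + b).toNat : ℕ) : ℤ) = l + b := Int.toNat_of_nonneg hc.2.1
      have h7 : ((((u : ℤ) + k * b).toNat : ℕ) : ℤ) = u + k * b := Int.toNat_of_nonneg hc.1
      have h8 : ((((g : ℤ) + k * b).toNat : ℕ) : ℤ) = g + k * b := Int.toNat_of_nonneg hc.2.2.1
      zify at h4 h
      rw [h6, h7, h8] at h4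
      have h9 : b ≤ u + k * l - l - 2 * g := by linarith
      omega
    rw [h1, mul_zero]
  · rfl

private lemma clu_Fq (hp : S_ptn) (hz : S_zee) (hcc : S_cc) (ks : List ℕ) (n l : ℕ) (v : List ℕ) :
    Fq ks n l v ≤ 2 ^ (n + n ^ 2) := by
  have h1 : ∀ μ ∈ (Ptn n).filter (Sel ks l v), ww μ ≤ 2 ^ (n ^ 2) := by
    intro μ hμ
    rw [mem_filter, hp.1] at hμ
    have h2 := hcc.2.2.2.2.2.1 μ hμ.1.2
    rw [hμ.1.1] at h2
    have h3 : (1 : ℚ) ≤ zee μ := by exact_mod_cast hz.2.2.1 μ hμ.1.2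
    unfold ww
    calc (2 : ℚ) ^ cc μ / zee μ ≤ 2 ^ cc μ / 1 :=
          div_le_div_of_nonneg_left (by positivity) one_pos h3
      _ = 2 ^ cc μ := div_one _
      _ ≤ 2 ^ (n ^ 2) := pow_le_pow_right₀ (by norm_num) h2
  calc Fq ks n l v ≤ ((Ptn n).filter (Sel ks l v)).card • (2 : ℚ) ^ (n ^ 2) :=
        Finset.sum_le_card_nsmul _ _ _ h1
    _ = ((Ptn n).filter (Sel ks l v)).card * (2 : ℚ) ^ (n ^ 2) := nsmul_eq_mul _ _
    _ ≤ 2 ^ n * 2 ^ (n ^ 2) := by
        refine mul_le_mul_of_nonneg_right ?_ (by positivity)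
        have h4 : ((Ptn n).filter (Sel ks l v)).card ≤ 2 ^ n :=
          (card_filter_le _ _).trans (hp.2.1 n)
        exact_mod_cast h4
    _ = 2 ^ (n + n ^ 2) := (pow_add _ _ _).symm

private lemma clu_fact (n : ℕ) : n ! ≤ 2 ^ (n * n) := by
  calc n ! ≤ n ^ n := Nat.factorial_le_pow n
    _ ≤ (2 ^ n) ^ n := Nat.pow_le_pow_left Nat.lt_two_pow_self.le n
    _ = 2 ^ (n * n) := (pow_mul _ _ _).symm

private lemma clu_bd (hp : S_ptn) (hz : S_zee) (hcc : S_cc)
    (ks : List ℕ) (k u l g : ℕ) (v : List ℕ) (t s : ℕ) (hs : s = sN k u l) (hgu : g ≤ u)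
    (ht : t ≤ 2 * u + k * l) : om ks k u l g v t ≤ 2 ^ (9 * s ^ 4 + 6 * s ^ 2) := by
  rw [clu_om ks k u l g v t _ rfl]
  have hs' : s = u + k * l + k + 2 := hs
  split_ifs with hc
  · have h1 : (k : ℚ) ^ t ≤ 2 ^ (2 * s ^ 2) := by
      have h2 : k ^ t ≤ 2 ^ (2 * s ^ 2) := by
        calc k ^ t ≤ (2 ^ k) ^ t := Nat.pow_le_pow_left Nat.lt_two_pow_self.le t
          _ = 2 ^ (k * t) := (pow_mul _ _ _).symm
          _ ≤ 2 ^ (2 * s ^ 2) := by
            refine Nat.pow_le_pow_right (by norm_num) ?_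
            calc k * t ≤ s * (2 * s) := Nat.mul_le_mul (by omega) (by omega)
              _ = 2 * s ^ 2 := by ring
      exact_mod_cast h2
    have hn : u + k * (u + k * l) ≤ 2 * s ^ 2 := by
      calc u + k * (u + k * l) ≤ s * 1 + s * s := by
            refine Nat.add_le_add (by omega) (Nat.mul_le_mul (by omega) (by omega))
        _ ≤ s * s + s * s := by
            refine Nat.add_le_add_right (Nat.mul_le_mul_left _ (by omega)) _
        _ = 2 * s ^ 2 := by ring
    have h2 : (L2 k u l : ℚ) ≤ 2 ^ (4 * s ^ 4) := by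
      have h3 : L2 k u l ≤ 2 ^ (4 * s ^ 4) := by
        calc L2 k u l = (u + k * (u + k * l))! := rfl
          _ ≤ 2 ^ ((u + k * (u + k * l)) * (u + k * (u + k * l))) := clu_fact _
          _ ≤ 2 ^ (4 * s ^ 4) := by
            refine Nat.pow_le_pow_right (by norm_num) ?_
            calc _ ≤ (2 * s ^ 2) * (2 * s ^ 2) := Nat.mul_le_mul hn hn
              _ = 4 * s ^ 4 := by ring
      exact_mod_cast h3
    have hbl : -(u : ℤ) ≤ (t : ℤ) - u := by omega
    have hbu : (t : ℤ) - u ≤ u + k * l := by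
      have : (t : ℤ) ≤ 2 * u + k * l := by exact_mod_cast ht
      linarith
    generalize hb : (t : ℤ) - u = b at *
    have h3 : (2 : ℚ) ^ ((E2 k u l : ℤ) - b * g - k * (b * (b - 1) / 2) - b * (k / 2 : ℕ)) ≤
        2 ^ (s ^ 4 + 2 * s ^ 2) := by
      rw [← zpow_natCast (2 : ℚ) (s ^ 4 + 2 * s ^ 2)]
      refine zpow_le_zpow_right₀ (by norm_num) ?_
      have e1 : (E2 k u l : ℤ) = s ^ 4 := by
        unfold E2
        rw [← hs]
        push_cast
        rfl
      have e2 : -(b * g) ≤ (s : ℤ) ^ 2 := by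
        have a1 : (0 : ℤ) ≤ (b + u) * g := mul_nonneg (by linarith) (by positivity)
        have a2 : (u : ℤ) * g ≤ s * s := by
          exact_mod_cast Nat.mul_le_mul (show u ≤ s by omega) (show g ≤ s by omega)
        nlinarith
      have e3 : 0 ≤ (k : ℤ) * (b * (b - 1) / 2) := by
        refine mul_nonneg (by positivity) (Int.ediv_nonneg ?_ (by norm_num))
        rcases le_or_gt b 0 with h | h
        · nlinarith
        · exact mul_nonneg (by linarith) (by omega)
      have e4 : -(b * ((k / 2 : ℕ) : ℤ)) ≤ (s : ℤ) ^ 2 := by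
        have a1 : (0 : ℤ) ≤ (b + u) * ((k / 2 : ℕ) : ℤ) :=
          mul_nonneg (by linarith) (by positivity)
        have a2 : (u : ℤ) * ((k / 2 : ℕ) : ℤ) ≤ s * s := by
          exact_mod_cast Nat.mul_le_mul (show u ≤ s by omega) (show k / 2 ≤ s by omega)
        nlinarith
      rw [e1]
      push_cast at e4 ⊢
      linarith
    have h4 : Fq (k :: ks) ((u : ℤ) + k * b).toNat ((l : ℤ) + b).toNat
        (((g : ℤ) + k * b).toNat ::
          (v.zip ks).map (fun p => ((p.1 : ℤ) + b * (Nat.gcd p.2 k : ℕ)).toNat)) ≤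
        2 ^ (2 * s ^ 2 + 4 * s ^ 4) := by
      refine (clu_Fq hp hz hcc _ _ _ _).trans ?_
      refine pow_le_pow_right₀ (by norm_num) ?_
      have e1 : ((u : ℤ) + k * b).toNat ≤ 2 * s ^ 2 := by
        have a1 : (u : ℤ) + k * b ≤ ((u + k * (u + k * l) : ℕ) : ℤ) := by
          push_cast
          have : (k : ℤ) * b ≤ k * (u + k * l) := mul_le_mul_of_nonneg_left hbu (by positivity)
          linarith
        omega
      calc _ ≤ 2 * s ^ 2 + (2 * s ^ 2) ^ 2 := Nat.add_le_add e1 (Nat.pow_le_pow_left e1 2)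
        _ = 2 * s ^ 2 + 4 * s ^ 4 := by ring
    have h5 : 0 ≤ Fq (k :: ks) ((u : ℤ) + k * b).toNat ((l : ℤ) + b).toNat
        (((g : ℤ) + k * b).toNat ::
          (v.zip ks).map (fun p => ((p.1 : ℤ) + b * (Nat.gcd p.2 k : ℕ)).toNat)) :=
      Finset.sum_nonneg fun μ _ => by unfold ww; positivity
    calc _ ≤ (2 : ℚ) ^ (2 * s ^ 2) * 2 ^ (4 * s ^ 4) * 2 ^ (s ^ 4 + 2 * s ^ 2) *
          2 ^ (2 * s ^ 2 + 4 * s ^ 4) := by
          refine mul_le_mul ?_ h4 h5 (by positivity)
          refine mul_le_mul ?_ h3 (by positivity) (by positivity)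
          exact mul_le_mul h1 h2 (by positivity) (by positivity)
      _ = 2 ^ (9 * s ^ 4 + 6 * s ^ 2) := by
          rw [← pow_add, ← pow_add, ← pow_add]
          congr 1
          ring
  · positivity

theorem p_clu : S_clu := by
  intro hp hz hcc hq ks k u l g v N hk hks hv hgu hN
  have hs : sN k u l = u + k * l + k + 2 := rfl
  have hN' : sN k u l ^ 12 ≤ N := hN
  generalize hse : sN k u l = s at *
  have hs4 : 4 ≤ s := by omega
  have hsN : s ≤ N := (Nat.le_self_pow (by norm_num) s).trans hN'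
  constructor
  · rw [sum_filter, hp.2.2 (k * N + u) k (by omega)]
    have hK : (k * N + u) / k = N + u / k := by
      rw [Nat.mul_add_div (by omega)]
    have huk : u / k ≤ u := Nat.div_le_self _ _
    rw [hK]
    have h1 : ∀ M ∈ range (N + u / k + 1), k * M ≤ k * N + u := by
      intro M hM
      rw [mem_range] at hM
      calc k * M ≤ k * (N + u / k) := Nat.mul_le_mul_left _ (by omega)
        _ = k * N + k * (u / k) := by ring
        _ ≤ k * N + u := Nat.add_le_add_left (Nat.mul_div_le u k) _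
    have h2 : ∀ M ∈ range (N + u / k + 1), N + u - M + M = N + u := by
      intro M hM
      rw [mem_range] at hM
      omega
    rw [Finset.sum_congr rfl fun M hM => clu_term hp hz hcc ks k u l g v N M (N + u - M) hk hks hv
      (by rw [add_comm]; exact h2 M hM) (h1 M hM)]
    have h3 : ∑ M ∈ range (N + u / k + 1), om ks k u l g v (N + u - M) *
        ((N + u).descFactorial (N + u - M) : ℚ) =
        ∑ M ∈ range (N + u + 1), om ks k u l g v (N + u - M) *
        ((N + u).descFactorial (N + u - M) : ℚ) := by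
      refine Finset.sum_subset (fun M hM => ?_) (fun M hM hM' => ?_)
      · rw [mem_range] at hM ⊢
        omega
      · rw [mem_range] at hM hM'
        rw [clu_small, zero_mul]
        have h4 : ((N + u - M : ℕ) : ℤ) = N + u - M := by omega
        rw [h4]
        have h5 : N + u / k + 1 ≤ M := by omega
        have h6 : (k : ℤ) * ((N : ℤ) + (u / k : ℕ) + 1) ≤ k * M :=
          mul_le_mul_of_nonneg_left (by exact_mod_cast h5) (by positivity)
        have h7 : u < k * (u / k) + k := by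
          have := Nat.mod_add_div u k
          have := Nat.mod_lt u (show 0 < k by omega)
          omega
        have h8 : (u : ℤ) < k * (u / k : ℕ) + k := by exact_mod_cast h7
        have h9 : (k : ℤ) * ((N : ℤ) + (u / k : ℕ) + 1) = k * N + (k * (u / k : ℕ) + k) := by ring
        have h10 : (u : ℤ) + k * ((N : ℤ) + u - M - u) = u + k * N - k * M := by ring
        rw [h10]
        linarith
    rw [h3]
    have h4 := Finset.sum_range_reflect (fun t => om ks k u l g v t *
        ((N + u).descFactorial t : ℚ)) (N + u + 1)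
    simp only [Nat.add_sub_cancel] at h4
    rw [h4]
    symm
    refine Finset.sum_subset (fun M hM => ?_) (fun M hM hM' => ?_)
    · rw [mem_range] at hM ⊢
      omega
    · rw [mem_range] at hM hM'
      rw [clu_large hp hq ks k u l g v M hk (by omega), zero_mul]
  · have hr1 : Nat.sqrt N * Nat.sqrt N ≤ N := Nat.sqrt_le N
    have hr2 : N < (Nat.sqrt N + 1) * (Nat.sqrt N + 1) := Nat.lt_succ_sqrt N
    have hr3 : s ^ 6 ≤ Nat.sqrt N := by
      rw [Nat.le_sqrt]
      calc s ^ 6 * s ^ 6 = s ^ 12 := by ring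
        _ ≤ N := hN'
    generalize Nat.sqrt N = r at *
    have h1 : ∀ t ∈ range (2 * u + k * l + 1), om ks k u l g v t * ((N + u).descFactorial t : ℚ) ≤
        2 ^ (9 * s ^ 4 + 6 * s ^ 2 + (2 * r + 1) * (2 * s)) := by
      intro t ht
      rw [mem_range] at ht
      rw [pow_add]
      have h2 := clu_bd hp hz hcc ks k u l g v t s hse.symm hgu (by omega)
      have h3 : (N + u).descFactorial t ≤ 2 ^ ((2 * r + 1) * (2 * s)) := by
        calc (N + u).descFactorial t ≤ (N + u) ^ t := Nat.descFactorial_le_pow _ _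
          _ ≤ (2 ^ (2 * r + 1)) ^ t := by
            refine Nat.pow_le_pow_left ?_ t
            have h4 : r + 1 ≤ 2 ^ r := Nat.lt_two_pow_self
            calc N + u ≤ 2 * N := by omega
              _ ≤ 2 * (2 ^ r * 2 ^ r) := by
                refine Nat.mul_le_mul_left 2 (hr2.le.trans (Nat.mul_le_mul h4 h4))
              _ = 2 ^ (2 * r + 1) := by ring
          _ = 2 ^ ((2 * r + 1) * t) := (pow_mul _ _ _).symm
          _ ≤ 2 ^ ((2 * r + 1) * (2 * s)) :=
            Nat.pow_le_pow_right (by norm_num) (Nat.mul_le_mul_left _ (by omega))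
      exact mul_le_mul h2 (by exact_mod_cast h3) (by positivity) (by positivity)
    have h2 := Finset.sum_le_card_nsmul _ _ _ h1
    rw [card_range, nsmul_eq_mul] at h2
    refine lt_of_le_of_lt h2 ?_
    have h3 : (((2 * u + k * l + 1 : ℕ) : ℕ) : ℚ) < 2 ^ (2 * s) := by
      have : 2 * u + k * l + 1 < 2 ^ (2 * s) :=
        lt_of_le_of_lt (show 2 * u + k * l + 1 ≤ 2 * s by omega) Nat.lt_two_pow_self
      exact_mod_cast this
    calc ((2 * u + k * l + 1 : ℕ) : ℚ) * 2 ^ (9 * s ^ 4 + 6 * s ^ 2 + (2 * r + 1) * (2 * s)) <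
          2 ^ (2 * s) * 2 ^ (9 * s ^ 4 + 6 * s ^ 2 + (2 * r + 1) * (2 * s)) :=
          mul_lt_mul_of_pos_right h3 (by positivity)
      _ = 2 ^ (2 * s + (9 * s ^ 4 + 6 * s ^ 2 + (2 * r + 1) * (2 * s))) := (pow_add _ _ _).symm
      _ ≤ 2 ^ N := by
        refine pow_le_pow_right₀ (by norm_num) ?_
        refine le_trans ?_ hr1
        have a1 : s ^ 4 ≤ r * s := by
          calc s ^ 4 ≤ s ^ 7 := Nat.pow_le_pow_right (by omega) (by norm_num)
            _ = s ^ 6 * s := by ring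
            _ ≤ r * s := Nat.mul_le_mul_right _ hr3
        have a2 : s ^ 2 ≤ r * s := by
          calc s ^ 2 ≤ s ^ 7 := Nat.pow_le_pow_right (by omega) (by norm_num)
            _ = s ^ 6 * s := by ring
            _ ≤ r * s := Nat.mul_le_mul_right _ hr3
        have a3 : s ≤ r * s := by
          have : 1 ≤ r := le_trans (Nat.one_le_pow _ _ (by omega)) hr3
          exact Nat.le_mul_of_pos_left s (by omega)
        have a4 : 1024 * (r * s) ≤ r * r := by
          have b1 : 1024 * s ≤ s ^ 6 := by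
            calc 1024 * s = 4 ^ 5 * s := by norm_num
              _ ≤ s ^ 5 * s := Nat.mul_le_mul_right _ (Nat.pow_le_pow_left hs4 5)
              _ = s ^ 6 := by ring
          calc 1024 * (r * s) = r * (1024 * s) := by ring
            _ ≤ r * r := Nat.mul_le_mul_left _ (b1.trans hr3)
        have a5 : (2 * r + 1) * (2 * s) = 4 * (r * s) + 2 * s := by ring
        rw [a5]
        omega

end Pool.Agent.Lib.MP_4b91fc_lc.GH
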