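import Pool.Agent.Lib.MP_4b91fc_lc.GH.Stm4

set_option autoImplicit false

/-!
# MP_4b91fc_lc, [GH dc]: decoding of `query` in polynomial time
-/

namespace Pool.Agent.Lib.MP_4b91fc_lc.GH

open Finset Pool.Agent.PolyTime

/-- the states: mode, number, bits of the current number (last first), completed lists of bits
(last first) -/
private abbrev dc_St : Type := ℕ × ℕ × List Bool × List (List Bool)

/-- one step: mode `0` counts, mode `1` expects a marker, mode `2` expects a bit -/
private def dc_step (s : dc_St) (b : Bool) : dc_St :=
  bif decide (s.1 = 0) then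
    (bif b then (0, s.2.1 + 1, s.2.2.1, s.2.2.2) else (1, s.2.1, s.2.2.1, s.2.2.2))
  else bif decide (s.1 = 1) then
    (bif b then (2, s.2.1, s.2.2.1, s.2.2.2) else (1, s.2.1, [], s.2.2.1 :: s.2.2.2))
  else (1, s.2.1, b :: s.2.2.1, s.2.2.2)

private def dc_dec (w : List Bool) : ℕ × List Big :=
  ((w.foldl dc_step (0, 0, [], [])).2.1,
    (w.foldl dc_step (0, 0, [], [])).2.2.2.reverse.map (fun c => (⟨ofB c.reverse⟩ : Big)))

private theorem dc_ptime : PTime dc_dec := by
  have h : PTime (fun w : List Bool => w.foldl dc_step ((0, 0, [], []) : dc_St)) := by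
    refine PTime.foldl (f := fun (_ : List Bool) (s : dc_St) b => dc_step s b) PTime.id
      (PTime.const ((0, 0, [], []) : dc_St)) ?_ (Polynomial.C 8) ?_
    · have hs : PTime (fun p : List Bool × dc_St × Bool => p.2.1) := PTime.fst.comp PTime.snd
      have hb : PTime (fun p : List Bool × dc_St × Bool => p.2.2) := PTime.snd.comp PTime.snd
      have h1 : PTime (fun p : List Bool × dc_St × Bool => p.2.1.1) := PTime.fst.comp hs
      have h2 : PTime (fun p : List Bool × dc_St × Bool => p.2.1.2.1) :=
        PTime.fst.comp (PTime.snd.comp hs)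
      have h3 : PTime (fun p : List Bool × dc_St × Bool => p.2.1.2.2.1) :=
        PTime.fst.comp (PTime.snd.comp (PTime.snd.comp hs))
      have h4 : PTime (fun p : List Bool × dc_St × Bool => p.2.1.2.2.2) :=
        PTime.snd.comp (PTime.snd.comp (PTime.snd.comp hs))
      refine PTime.cond (PTime.nat_eq h1 (PTime.const 0)) ?_ ?_
      · exact PTime.cond hb
          (PTime.pair (PTime.const 0) (PTime.pair (PTime.succ h2) (PTime.pair h3 h4)))
          (PTime.pair (PTime.const 1) (PTime.pair h2 (PTime.pair h3 h4)))
      · refine PTime.cond (PTime.nat_eq h1 (PTime.const 1)) ?_ ?_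
        · exact PTime.cond hb
            (PTime.pair (PTime.const 2) (PTime.pair h2 (PTime.pair h3 h4)))
            (PTime.pair (PTime.const 1) (PTime.pair h2 (PTime.pair (PTime.const [])
              (PTime.cons h3 h4))))
        · exact PTime.pair (PTime.const 1) (PTime.pair h2 (PTime.pair (PTime.cons hb h3) h4))
    · rintro a ⟨m, n, c, o⟩ b _
      rw [Polynomial.eval_C]
      unfold dc_step
      have h5 := sz_bool_le b
      by_cases h1 : m = 0
      · cases b <;> simp [h1] <;> omega
      · by_cases h2 : m = 1
        · cases b <;> simp [h2] <;> omega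
        · simp only [h1, h2, decide_false, cond_false, sz_pair, sz_nat, sz_cons]
          omega
  refine PTime.pair (PTime.fst.comp (PTime.snd.comp h)) ?_
  refine PTime.map (f := fun (_ : List Bool) (c : List Bool) => (⟨ofB c.reverse⟩ : Big))
    (PTime.reverse (PTime.snd.comp (PTime.snd.comp (PTime.snd.comp h)))) ?_
  exact ptime_ofB (PTime.reverse PTime.snd)

private theorem dc_rep (n k : ℕ) (c : List Bool) (o : List (List Bool)) :
    (List.replicate n true).foldl dc_step (0, k, c, o) = (0, k + n, c, o) := by
  induction n generalizing k with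
  | zero => rfl
  | succ n ih =>
    rw [List.replicate_succ, List.foldl_cons]
    have h : dc_step (0, k, c, o) true = (0, k + 1, c, o) := rfl
    rw [h, ih]
    congr 2
    omega

private theorem dc_bits (l : List Bool) (n : ℕ) (c : List Bool) (o : List (List Bool)) :
    (l.flatMap (fun b => [true, b])).foldl dc_step (1, n, c, o) = (1, n, l.reverse ++ c, o) := by
  induction l generalizing c with
  | nil => rfl
  | cons b l ih =>
    rw [List.flatMap_cons, List.foldl_append]
    have h : [true, b].foldl dc_step (1, n, c, o) = (1, n, b :: c, o) := rfl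
    rw [h, ih]
    simp

private theorem dc_list (u : List ℕ) (n : ℕ) (o : List (List Bool)) :
    (u.flatMap (fun v => (Nat.bits v).flatMap (fun b => [true, b]) ++ [false])).foldl dc_step
      (1, n, [], o) = (1, n, [], (u.map (fun v => (Nat.bits v).reverse)).reverse ++ o) := by
  induction u generalizing o with
  | nil => rfl
  | cons v u ih =>
    rw [List.flatMap_cons, List.foldl_append, List.foldl_append, dc_bits]
    have h : [false].foldl dc_step (1, n, (Nat.bits v).reverse ++ [], o) =
        (1, n, [], ((Nat.bits v).reverse ++ []) :: o) := rfl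
    rw [h, ih]
    simp

theorem p_dc : S_dc := by
  refine ⟨dc_dec, dc_ptime, ?_⟩
  intro n u
  have h : (query n u).foldl dc_step (0, 0, [], []) =
      (1, n, [], (u.map (fun v => (Nat.bits v).reverse)).reverse) := by
    unfold query
    rw [List.foldl_append, dc_rep, List.foldl_cons]
    have h1 : dc_step (0, 0 + n, [], []) false = (1, 0 + n, [], []) := rfl
    rw [h1, dc_list]
    simp
  unfold dc_dec
  rw [h]
  simp only [List.reverse_reverse, List.map_map]
  congr 1
  apply List.map_congr_left
  intro v _
  simp only [Function.comp_apply, List.reverse_reverse, ofB_bits]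

end Pool.Agent.Lib.MP_4b91fc_lc.GH
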