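import Pool.Agent.Lib.MP_4b91fc_lc.GH.Stm1

/-!
# Exact counting of unlabelled graphs: piece def, the deficiency inequality
-/

set_option autoImplicit false

namespace Pool.Agent.Lib.MP_4b91fc_lc.GH

open Finset

open scoped Nat

private theorem def_cast (μ : Multiset ℕ) (f : ℕ → ℕ) :
    (((μ.map f).sum : ℕ) : ℤ) = (μ.map (fun x : ℕ => (f x : ℤ))).sum := by
  induction μ using Multiset.induction_on with
  | empty => simp
  | cons a s ih => simp [ih]

private theorem def_lin (μ : Multiset ℕ) (a b c : ℤ) (f g : ℕ → ℤ) :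
    (μ.map (fun x : ℕ => a + b * f x + c * g x)).sum =
      a * μ.card + b * (μ.map f).sum + c * (μ.map g).sum := by
  induction μ using Multiset.induction_on with
  | empty => simp
  | cons x s ih =>
    simp only [Multiset.map_cons, Multiset.sum_cons, Multiset.card_cons, ih]
    push_cast
    ring

private theorem def_count (μ : Multiset ℕ) (k : ℕ) (c : ℤ) :
    (μ.map (fun x : ℕ => if x ≠ k then c else 0)).sum =
      (μ.countP (fun x => x ≠ k) : ℤ) * c := by
  induction μ using Multiset.induction_on with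
  | empty => simp
  | cons x s ih =>
    simp only [Multiset.map_cons, Multiset.sum_cons, Multiset.countP_cons, ih]
    by_cases h : x ≠ k
    · rw [if_pos h, if_pos h]
      push_cast
      ring
    · rw [if_neg h, if_neg h]
      push_cast
      ring

private theorem def_le (μ : Multiset ℕ) (f g : ℕ → ℤ) (h : ∀ x ∈ μ, f x ≤ g x) :
    (μ.map f).sum ≤ (μ.map g).sum := Multiset.sum_map_le_sum_map _ _ h

/-- [def] The deficiency inequality. -/
theorem p_def : S_def := by
  intro μ k h0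
  have hsum : (μ.map (fun x : ℕ => (x : ℤ))).sum = (μ.sum : ℤ) := by
    simp
  -- one row
  have hrow : ∀ x : ℕ, (μ.map (fun y : ℕ => (x : ℤ) + 1 * (y : ℤ) + (-2) * (Nat.gcd x y : ℤ))).sum =
      (x : ℤ) * μ.card + (μ.sum : ℤ) - 2 * (gs x μ : ℤ) := by
    intro x
    rw [def_lin μ (x : ℤ) 1 (-2) (fun y : ℕ => (y : ℤ)) (fun y => (Nat.gcd x y : ℤ)), hsum]
    unfold gs
    rw [def_cast]
    ring
  -- all rows
  have htot : (μ.map (fun x : ℕ => (x : ℤ) * μ.card + (μ.sum : ℤ) - 2 * (gs x μ : ℤ))).sum =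
      2 * μ.sum * μ.card - 2 * (qq μ μ : ℤ) := by
    have h1 : (fun x : ℕ => (x : ℤ) * μ.card + (μ.sum : ℤ) - 2 * (gs x μ : ℤ)) =
        fun x : ℕ => (μ.sum : ℤ) + (μ.card : ℤ) * (x : ℤ) + (-2) * (gs x μ : ℤ) := by
      funext x
      ring
    rw [h1, def_lin μ (μ.sum : ℤ) (μ.card : ℤ) (-2) (fun x : ℕ => (x : ℤ))
      (fun x => (gs x μ : ℤ)), hsum]
    unfold qq
    rw [def_cast]
    ring
  -- the bound of one row
  have hb : ∀ x ∈ μ, (if x ≠ k then ((μ.card : ℤ) - |(μ.sum : ℤ) - k * μ.card|) else 0) ≤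
      (x : ℤ) * μ.card + (μ.sum : ℤ) - 2 * (gs x μ : ℤ) := by
    intro x hx
    have hx0 : 0 < x := Nat.pos_of_ne_zero fun h => h0 (h ▸ hx)
    have hgcd : ∀ y ∈ μ, 2 * (Nat.gcd x y : ℤ) ≤ x + y - |(x : ℤ) - y| := by
      intro y hy
      have hy0 : 0 < y := Nat.pos_of_ne_zero fun h => h0 (h ▸ hy)
      have g1 : (Nat.gcd x y : ℤ) ≤ x := by
        exact_mod_cast Nat.le_of_dvd hx0 (Nat.gcd_dvd_left x y)
      have g2 : (Nat.gcd x y : ℤ) ≤ y := by
        exact_mod_cast Nat.le_of_dvd hy0 (Nat.gcd_dvd_right x y)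
      rcases abs_cases ((x : ℤ) - y) with ⟨e, _⟩ | ⟨e, _⟩ <;> rw [e] <;> linarith
    have u1 : (μ.map (fun y : ℕ => (x : ℤ) + (-1) * (y : ℤ) + 0 * (0 : ℤ))).sum ≤
        (μ.map (fun y : ℕ => (x : ℤ) + 1 * (y : ℤ) + (-2) * (Nat.gcd x y : ℤ))).sum := by
      apply def_le
      intro y hy
      have := hgcd y hy
      have h2 := le_abs_self ((x : ℤ) - y)
      linarith
    have u2 : (μ.map (fun y : ℕ => -(x : ℤ) + 1 * (y : ℤ) + 0 * (0 : ℤ))).sum ≤
        (μ.map (fun y : ℕ => (x : ℤ) + 1 * (y : ℤ) + (-2) * (Nat.gcd x y : ℤ))).sum := by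
      apply def_le
      intro y hy
      have := hgcd y hy
      have h2 := neg_abs_le ((x : ℤ) - y)
      linarith
    have u3 : (μ.map (fun _ : ℕ => (0 : ℤ) + 0 * (0 : ℤ) + 0 * (0 : ℤ))).sum ≤
        (μ.map (fun y : ℕ => (x : ℤ) + 1 * (y : ℤ) + (-2) * (Nat.gcd x y : ℤ))).sum := by
      apply def_le
      intro y hy
      have := hgcd y hy
      have h2 := abs_nonneg ((x : ℤ) - y)
      linarith
    rw [hrow, def_lin μ (x : ℤ) (-1) 0 (fun y : ℕ => (y : ℤ)) (fun _ : ℕ => 0), hsum] at u1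
    rw [hrow, def_lin μ (-(x : ℤ)) 1 0 (fun y : ℕ => (y : ℤ)) (fun _ : ℕ => 0), hsum] at u2
    rw [hrow, def_lin μ 0 0 0 (fun _ : ℕ => 0) (fun _ : ℕ => 0)] at u3
    by_cases hk : x ≠ k
    · rw [if_pos hk]
      have hl : (0 : ℤ) ≤ μ.card := by positivity
      rcases lt_or_gt_of_ne hk with h | h
      · have h3 : (x : ℤ) + 1 ≤ k := by exact_mod_cast h
        have h4 : (x : ℤ) * μ.card + μ.card ≤ k * μ.card := by
          have := mul_le_mul_of_nonneg_right h3 hl
          linarith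
        have h5 := neg_abs_le ((μ.sum : ℤ) - k * μ.card)
        linarith
      · have h3 : (k : ℤ) + 1 ≤ x := by exact_mod_cast h
        have h4 : (k : ℤ) * μ.card + μ.card ≤ x * μ.card := by
          have := mul_le_mul_of_nonneg_right h3 hl
          linarith
        have h5 := le_abs_self ((μ.sum : ℤ) - k * μ.card)
        linarith
    · rw [if_neg hk]
      linarith
  have hfin := def_le μ _ _ hb
  rw [def_count, htot] at hfin
  linarith

end Pool.Agent.Lib.MP_4b91fc_lc.GH
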