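import Pool.Agent.Lib.MP_4b91fc_lc.GH.Stm2

set_option autoImplicit false

/-!
# Piece [dg]: the digit counts the tuples
-/

namespace Pool.Agent.Lib.MP_4b91fc_lc.GH

open Finset Pool.Agent.PolyTime

open scoped Nat

private theorem dg_arith (Q H W M C : ℕ) (hC : C < 2 ^ Q) (hW : W < 2 ^ H) :
    (2 ^ Q * W + 2 ^ (Q + H) * M + C) / 2 ^ Q % 2 ^ H = W := by
  have h1 : 2 ^ Q * W + 2 ^ (Q + H) * M + C = C + 2 ^ Q * (W + 2 ^ H * M) := by
    rw [pow_add]; ring
  rw [h1, Nat.add_mul_div_left _ _ (by positivity), Nat.div_eq_of_lt hC, zero_add,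
    Nat.add_mul_mod_self_left, Nat.mod_eq_of_lt hW]

/-- the cofactor of a tuple -/
private def dgc {m : ℕ} (B : ℕ) (Y : Fin m → Multiset ℕ) : ℕ := ∏ i, B ! / zee (Y i)

private theorem dgc_le {m : ℕ} (B : ℕ) (Y : Fin m → Multiset ℕ) : dgc B Y ≤ (B !) ^ m := by
  unfold dgc
  calc ∏ i, B ! / zee (Y i) ≤ ∏ _i : Fin m, B ! :=
        Finset.prod_le_prod (fun _ _ => Nat.zero_le _) fun i _ => Nat.div_le_self _ _
    _ = (B !) ^ m := by rw [Finset.prod_const, Finset.card_univ, Fintype.card_fin]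

theorem p_dg : S_dg := by
  intro hptn hzee hfn hms hjn htt1 htt2 htt hw1 hw3 hcl hcc m S B H a pi hT w l q hw hq hlq hl hs
    hqB
  obtain ⟨hms1, hms2, hms3, -, -, -⟩ := hms hptn
  have hjn' := hjn hzee hcc m S B H a pi hT
  obtain ⟨-, hz2, hz3, -, hz5⟩ := hzee
  obtain ⟨hcl1, hcl2⟩ := hcl hw1 hw3 hms hjn m S B H a pi hT w l q hw hq hlq hl hs hqB
  set s := sw w l q with hsdef
  set T := TT B a l s with hTdef
  set Q := qe a pi l s q with hQdef
  set n := 2 * ∑ i, a i * s i with hndef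
  have hH : H ≠ 0 := by
    intro h0
    have h1 := hT.bits
    rw [h0, pow_zero] at h1
    have h2 : 0 < (B ! * 2 ^ (2 * B + 2)) ^ m := by positivity
    omega
  -- members of `T`
  have hmem : ∀ Y ∈ T, (∀ i, Y i ∈ MS B) ∧ ∀ i, (Y i).card = l i := by
    intro Y hY
    rw [hTdef, TT, Finset.mem_filter, Fintype.mem_piFinset] at hY
    exact ⟨hY.1, fun i => (hY.2.1 i).1⟩
  have hz0 : ∀ Y ∈ T, ∀ i, 0 ∉ Y i := fun Y hY i => ((hms1 B (Y i)).1 ((hmem Y hY).1 i)).1
  have hdvd : ∀ Y ∈ T, ∀ i, zee (Y i) ∣ B ! := by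
    intro Y hY i
    exact (hz2 _ (hz0 Y hY i)).trans
      (Nat.factorial_dvd_factorial ((hms1 B (Y i)).1 ((hmem Y hY).1 i)).2)
  -- the total
  have hterm : ∀ Y ∈ T, ww (join a Y) * (∏ i, ((2 * a i : ℕ) : ℚ) ^ l i) * ((B ! : ℕ) : ℚ) ^ m =
      ((2 ^ cc (join a Y) * dgc B Y : ℕ) : ℚ) := by
    intro Y hY
    have h1 := (hjn' Y fun i x hx => hms3 B (Y i) ((hmem Y hY).1 i) x hx).1
    have h2 : ((zee (join a Y) : ℕ) : ℚ) =
        (∏ i, ((2 * a i : ℕ) : ℚ) ^ l i) * ∏ i, ((zee (Y i) : ℕ) : ℚ) := by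
      rw [h1, ← Finset.prod_mul_distrib, Nat.cast_prod]
      refine Finset.prod_congr rfl fun i _ => ?_
      rw [(hmem Y hY).2 i]
      push_cast
      ring
    have h3 : ((dgc B Y : ℕ) : ℚ) = ((B ! : ℕ) : ℚ) ^ m / ∏ i, ((zee (Y i) : ℕ) : ℚ) := by
      unfold dgc
      rw [Nat.cast_prod]
      have h4 : ((B ! : ℕ) : ℚ) ^ m = ∏ _i : Fin m, ((B ! : ℕ) : ℚ) := by
        rw [Finset.prod_const, Finset.card_univ, Fintype.card_fin]
      rw [h4, ← Finset.prod_div_distrib]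
      refine Finset.prod_congr rfl fun i _ => ?_
      rw [Nat.cast_div (hdvd Y hY i)]
      have := hz3 _ (hz0 Y hY i)
      positivity
    have h4 : (∏ i, ((2 * a i : ℕ) : ℚ) ^ l i) ≠ 0 := by
      rw [Finset.prod_ne_zero_iff]
      intro i _
      have := hT.one_lt i
      have h5 : ((2 * a i : ℕ) : ℚ) ≠ 0 := by
        rw [Nat.cast_ne_zero]
        omega
      exact pow_ne_zero _ h5
    have h5 : (∏ i, ((zee (Y i) : ℕ) : ℚ)) ≠ 0 := by
      rw [Finset.prod_ne_zero_iff]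
      intro i _
      have := hz3 _ (hz0 Y hY i)
      rw [Nat.cast_ne_zero]
      omega
    rw [ww, h2, Nat.cast_mul, h3, Nat.cast_pow, Nat.cast_ofNat]
    field_simp
  have htot : FN (qks a) n (∑ i, l i) (qv a pi l) * (∏ i, (2 * a i) ^ l i) * B ! ^ m =
      n ! * ∑ Y ∈ T, 2 ^ cc (join a Y) * dgc B Y := by
    have h1 : ((FN (qks a) n (∑ i, l i) (qv a pi l) * (∏ i, (2 * a i) ^ l i) * B ! ^ m : ℕ) : ℚ) =
        ((n ! * ∑ Y ∈ T, 2 ^ cc (join a Y) * dgc B Y : ℕ) : ℚ) := by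
      have h2 := htt hptn hms htt1 htt2 m S B H a pi hT l s hl hs ww
      rw [Nat.cast_mul, Nat.cast_mul, hfn, Fq, h2, Nat.cast_mul, Nat.cast_sum]
      have h3 : ((∏ i, (2 * a i) ^ l i : ℕ) : ℚ) = ∏ i, ((2 * a i : ℕ) : ℚ) ^ l i := by
        rw [Nat.cast_prod]
        refine Finset.prod_congr rfl fun i _ => ?_
        rw [Nat.cast_pow]
      rw [h3, Nat.cast_pow, mul_assoc, mul_assoc, Finset.sum_mul]
      congr 1
      refine Finset.sum_congr rfl fun Y hY => ?_
      rw [← hterm Y hY, mul_assoc]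
    exact_mod_cast h1
  -- bounds
  have hsum : ∑ Y ∈ T, dgc B Y < 2 ^ H := by
    have h1 : T.card ≤ (2 ^ (B + 1)) ^ m := by
      calc T.card ≤ (Fintype.piFinset (fun _ : Fin m => MS B)).card := by
            rw [hTdef, TT]
            exact Finset.card_filter_le _ _
        _ = (MS B).card ^ m := by
            rw [Fintype.card_piFinset, Finset.prod_const, Finset.card_univ, Fintype.card_fin]
        _ ≤ (2 ^ (B + 1)) ^ m := Nat.pow_le_pow_left (hms2 B) m
    calc ∑ Y ∈ T, dgc B Y ≤ ∑ _Y ∈ T, (B !) ^ m := Finset.sum_le_sum fun Y _ => dgc_le B Y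
      _ = T.card * (B !) ^ m := by rw [Finset.sum_const, smul_eq_mul]
      _ ≤ (2 ^ (B + 1)) ^ m * (B !) ^ m := Nat.mul_le_mul_right _ h1
      _ ≤ (2 ^ (2 * B + 2)) ^ m * (B !) ^ m := Nat.mul_le_mul_right _
          (Nat.pow_le_pow_left (Nat.pow_le_pow_right (by norm_num) (by omega)) m)
      _ = (B ! * 2 ^ (2 * B + 2)) ^ m := by rw [← mul_pow, mul_comm]
      _ < 2 ^ H := hT.bits
  -- the tuples of sets
  have hA : ∑ Y ∈ T.filter (fun Y => cc (join a Y) = Q), 2 ^ cc (join a Y) * dgc B Y =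
      2 ^ Q * ∑ X ∈ CL B w l q, wtX B X := by
    have h1 : T.filter (fun Y => cc (join a Y) = Q) =
        (CL B w l q).image (fun X i => (X i).val) := by
      ext Y
      rw [Finset.mem_filter, Finset.mem_image]
      constructor
      · rintro ⟨hY, hQ⟩
        rcases hcl1 Y hY with ⟨X, hX, rfl⟩ | h | h
        · exact ⟨X, hX, rfl⟩
        · omega
        · omega
      · rintro ⟨X, hX, rfl⟩
        exact hcl2 X hX
    have hinj : Function.Injective (fun (X : Fin m → Finset ℕ) (i : Fin m) => (X i).val) := by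
      intro X X' h
      funext i
      exact Finset.val_injective (congrFun h i)
    rw [h1, Finset.sum_image fun X _ X' _ h => hinj h, Finset.mul_sum]
    refine Finset.sum_congr rfl fun X hX => ?_
    rw [(hcl2 X hX).2]
    congr 1
    unfold dgc wtX
    refine Finset.prod_congr rfl fun i _ => ?_
    rw [hz5 _ (X i).nodup, Finset.prod_val]
    rfl
  have hW : ∑ X ∈ CL B w l q, wtX B X < 2 ^ H := by
    have h1 : 2 ^ Q * ∑ X ∈ CL B w l q, wtX B X ≤ 2 ^ Q * ∑ Y ∈ T, dgc B Y := by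
      rw [← hA, Finset.mul_sum]
      calc ∑ Y ∈ T.filter (fun Y => cc (join a Y) = Q), 2 ^ cc (join a Y) * dgc B Y =
            ∑ Y ∈ T.filter (fun Y => cc (join a Y) = Q), 2 ^ Q * dgc B Y := by
              refine Finset.sum_congr rfl fun Y hY => ?_
              rw [(Finset.mem_filter.1 hY).2]
        _ ≤ ∑ Y ∈ T, 2 ^ Q * dgc B Y :=
              Finset.sum_le_sum_of_subset (Finset.filter_subset _ _)
    exact (Nat.le_of_mul_le_mul_left h1 (by positivity)).trans_lt hsum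
  -- the large exponents
  obtain ⟨M, hM⟩ : ∃ M, ∑ Y ∈ (T.filter (fun Y => ¬ cc (join a Y) = Q)).filter
      (fun Y => Q + H ≤ cc (join a Y)), 2 ^ cc (join a Y) * dgc B Y = 2 ^ (Q + H) * M := by
    have : 2 ^ (Q + H) ∣ ∑ Y ∈ (T.filter (fun Y => ¬ cc (join a Y) = Q)).filter
        (fun Y => Q + H ≤ cc (join a Y)), 2 ^ cc (join a Y) * dgc B Y := by
      refine Finset.dvd_sum fun Y hY => ?_
      exact (pow_dvd_pow 2 (Finset.mem_filter.1 hY).2).mul_right _
    exact this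
  -- the small exponents
  have hC : ∑ Y ∈ (T.filter (fun Y => ¬ cc (join a Y) = Q)).filter
      (fun Y => ¬ Q + H ≤ cc (join a Y)), 2 ^ cc (join a Y) * dgc B Y < 2 ^ Q := by
    have h1 : (∑ Y ∈ (T.filter (fun Y => ¬ cc (join a Y) = Q)).filter
        (fun Y => ¬ Q + H ≤ cc (join a Y)), 2 ^ cc (join a Y) * dgc B Y) * 2 ^ H ≤
        2 ^ Q * ∑ Y ∈ T, dgc B Y := by
      rw [Finset.sum_mul, Finset.mul_sum]
      calc ∑ Y ∈ (T.filter (fun Y => ¬ cc (join a Y) = Q)).filter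
            (fun Y => ¬ Q + H ≤ cc (join a Y)), 2 ^ cc (join a Y) * dgc B Y * 2 ^ H ≤
          ∑ Y ∈ (T.filter (fun Y => ¬ cc (join a Y) = Q)).filter
            (fun Y => ¬ Q + H ≤ cc (join a Y)), 2 ^ Q * dgc B Y := by
              refine Finset.sum_le_sum fun Y hY => ?_
              rw [Finset.mem_filter, Finset.mem_filter] at hY
              obtain ⟨⟨hY, h2⟩, h3⟩ := hY
              have h4 : cc (join a Y) + H ≤ Q := by
                rcases hcl1 Y hY with ⟨X, hX, rfl⟩ | h | h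
                · exact absurd (hcl2 X hX).2 h2
                · exact absurd h h3
                · exact h
              calc 2 ^ cc (join a Y) * dgc B Y * 2 ^ H =
                    2 ^ (cc (join a Y) + H) * dgc B Y := by rw [pow_add]; ring
                _ ≤ 2 ^ Q * dgc B Y := Nat.mul_le_mul_right _
                    (Nat.pow_le_pow_right (by norm_num) h4)
        _ ≤ ∑ Y ∈ T, 2 ^ Q * dgc B Y := Finset.sum_le_sum_of_subset
              ((Finset.filter_subset _ _).trans (Finset.filter_subset _ _))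
    have h2 : 2 ^ Q * ∑ Y ∈ T, dgc B Y < 2 ^ Q * 2 ^ H :=
      Nat.mul_lt_mul_of_pos_left hsum (by positivity)
    exact Nat.lt_of_mul_lt_mul_right (h1.trans_lt h2)
  have hsplit : ∑ Y ∈ T, 2 ^ cc (join a Y) * dgc B Y =
      2 ^ Q * (∑ X ∈ CL B w l q, wtX B X) + 2 ^ (Q + H) * M +
        ∑ Y ∈ (T.filter (fun Y => ¬ cc (join a Y) = Q)).filter
          (fun Y => ¬ Q + H ≤ cc (join a Y)), 2 ^ cc (join a Y) * dgc B Y := by
    rw [← Finset.sum_filter_add_sum_filter_not T (fun Y => cc (join a Y) = Q), hA,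
      ← Finset.sum_filter_add_sum_filter_not (T.filter (fun Y => ¬ cc (join a Y) = Q))
        (fun Y => Q + H ≤ cc (join a Y)), hM, add_assoc]
  unfold Rdig
  rw [← hsdef, ← hndef, ← hQdef, htot, Nat.mul_div_mul_left _ _ (Nat.factorial_pos n), hsplit]
  exact dg_arith Q H _ M _ hC hW

end Pool.Agent.Lib.MP_4b91fc_lc.GH
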