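import Pool.Agent.Lib.MP_4b91fc_lc.GH.Stm4

set_option autoImplicit false

/-!
# Exact counting of unlabelled graphs is hard for `#P_1`: piece `f1`
-/

namespace Pool.Agent.Lib.MP_4b91fc_lc.GH

open Finset

open scoped Nat

lemma f1_SS (h : S_pb) (P : WP) (p : Par P.r P.b) (hg : p.Good) : 1 ≤ P.SS p := by
  have h0 : 0 < p.it := by
    have := hg.topC
    have := hg.M_pos
    omega
  have h1 : 1 ≤ psum 0 p.it := by
    unfold psum
    have h2 : pr (0 + 0) ≤ ∑ k ∈ range p.it, pr (0 + k) :=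
      Finset.single_le_sum (f := fun k => pr (0 + k)) (fun _ _ => Nat.zero_le _)
        (Finset.mem_range.2 h0)
    have h3 := (h.1 (0 + 0)).pos
    omega
  unfold WP.SS
  omega

lemma f1_xy (n T : ℕ) (j : Fin 6) : xw n T j ≤ yw n T j := by
  fin_cases j
  · exact Nat.zero_le _
  · exact Nat.zero_le _
  · change 1 ≤ T + 2
    omega
  · change T + 2 ≤ T + 3
    omega
  · change T + 2 ≤ T + 2 + n
    omega
  · change T + 2 + n ≤ 2 * T + n + 5
    omega

lemma f1_yM (n T : ℕ) (j : Fin 6) : yw n T j ≤ Mw n T := by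
  have h : Wd n T ≤ Mw n T := by
    unfold Mw
    exact Nat.le_mul_of_pos_right _ (Nat.succ_pos T)
  have h' : 2 * T + n + 5 ≤ Mw n T := h
  fin_cases j
  · exact le_rfl
  · change 1 ≤ Mw n T
    omega
  · change T + 2 ≤ Mw n T
    omega
  · change T + 3 ≤ Mw n T
    omega
  · change T + 2 + n ≤ Mw n T
    omega
  · exact h

theorem p_f1 : S_f1 := by
  intro halg hty hwd hgd h5 hpb N p hp n
  set T := p.eval n + 1 with hT
  have hM : 0 < Mw n T := by
    unfold Mw Wd
    positivity
  have hgood : (parN N p n).Good :=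
    hgd (WPn N).r (WPn N).b (Mw n T) (ew n T) (xw n T) (yw n T) hM (f1_xy n T) (f1_yM n T)
  have hSS := f1_SS hpb (WPn N) (parN N p n) hgood
  have hm : 0 < (WPn N).m := by
    unfold WP.m
    exact Fintype.card_pos_iff.2 ⟨Srt.Pt⟩
  have hTy := hty (WPn N).m ((WPn N).SS (parN N p n)) hm hSS
  have h1 := halg _ _ _ _ _ _ hTy (WPn N).R ((WPn N).num (parN N p n))
  have h2 := hwd (WPn N) (parN N p n) hgood ((WPn N).SS (parN N p n))
    (bB (WPn N).m ((WPn N).SS (parN N p n))) le_rfl hTy.hSB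
  have h3 : (WPn N).count (parN N p n).M (parN N p n).e (parN N p n).x (parN N p n).y =
      N.numAcc n := by
    refine h5 N n T ?_
    intro l c hc
    have := hp n l c hc
    omega
  rw [GG, h1, h2, h3]
  exact Nat.mul_div_cancel _ (pow_pos (Nat.factorial_pos _) _)

end Pool.Agent.Lib.MP_4b91fc_lc.GH
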