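import Pool.Agent.Lib.MP_4b91fc_lc.GH.Stm4
import Pool.Agent.Lib.MP_4b91fc_lc.PTab

set_option autoImplicit false

/-!
# `#GRAPHS` is hard for `#P_1`: the algorithm in polynomial time (piece f2)
-/

namespace Pool.Agent.Lib.MP_4b91fc_lc.GH

open Finset Pool.Agent.PolyTime

open scoped Nat

variable {α : Type} [SCode α]

private theorem f2_n : PTime (fun q : α × ℕ => q.2) := PTime.snd

private theorem f2_T (p : Polynomial ℕ) : PTime (fun q : α × ℕ => p.eval q.2 + 1) :=
  (PTime.polyEval p PTime.snd).add (PTime.const 1)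

private theorem f2_W (p : Polynomial ℕ) : PTime (fun q : α × ℕ => Wd q.2 (p.eval q.2 + 1)) :=
  (((PTime.const 2).mul (f2_T p)).add f2_n).add (PTime.const 5)

private theorem f2_M (p : Polynomial ℕ) : PTime (fun q : α × ℕ => Mw q.2 (p.eval q.2 + 1)) :=
  (f2_W p).mul ((f2_T p).add (PTime.const 1))

private theorem f2_e (p : Polynomial ℕ) (i : Fin 4) :
    PTime (fun q : α × ℕ => ew q.2 (p.eval q.2 + 1) i) := by
  fin_cases i
  · exact PTime.const 1
  · exact f2_W p
  · exact (f2_W p).sub (PTime.const 1)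
  · exact (f2_W p).add (PTime.const 1)

private theorem f2_x (p : Polynomial ℕ) (i : Fin 6) :
    PTime (fun q : α × ℕ => xw q.2 (p.eval q.2 + 1) i) := by
  fin_cases i
  · exact PTime.const 0
  · exact PTime.const 0
  · exact PTime.const 1
  · exact (f2_T p).add (PTime.const 2)
  · exact (f2_T p).add (PTime.const 2)
  · exact ((f2_T p).add (PTime.const 2)).add f2_n

private theorem f2_y (p : Polynomial ℕ) (i : Fin 6) :
    PTime (fun q : α × ℕ => yw q.2 (p.eval q.2 + 1) i) := by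
  fin_cases i
  · exact f2_M p
  · exact PTime.const 1
  · exact (f2_T p).add (PTime.const 2)
  · exact (f2_T p).add (PTime.const 3)
  · exact ((f2_T p).add (PTime.const 2)).add f2_n
  · exact f2_W p

theorem p_f2 : S_f2 := by
  intro A hpal hty hpss hpnm N p α _ U hU
  have hs := hpss (WPn N) (α × ℕ) inferInstance (fun q => Mw q.2 (p.eval q.2 + 1))
    (fun q => ew q.2 (p.eval q.2 + 1)) (fun q => xw q.2 (p.eval q.2 + 1))
    (fun q => yw q.2 (p.eval q.2 + 1)) (f2_M p) (f2_e p) (f2_x p) (f2_y p)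
  have hSS : PTime (fun q : α × ℕ => (WPn N).SS (parN N p q.2)) := hs.1
  have hZZ : PB (fun q : α × ℕ => (WPn N).ZZ (parN N p q.2)) := hs.2
  obtain ⟨hB, hH, ha, hpi⟩ := (hty (WPn N).m).1 (α × ℕ) inferInstance _ hSS
  have hnum : PTime (fun q : (α × ℕ) × List ℕ × List ℕ => (WPn N).num (parN N p q.1.2)
      (fun i => q.2.1.getD i 0) (fun i => q.2.2.getD i 0)) :=
    hpnm (WPn N) (α × ℕ) inferInstance (fun q => Mw q.2 (p.eval q.2 + 1))
      (fun q => ew q.2 (p.eval q.2 + 1)) (fun q => xw q.2 (p.eval q.2 + 1))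
      (fun q => yw q.2 (p.eval q.2 + 1)) (f2_M p) (f2_e p) (f2_x p) (f2_y p)
  have halg := hpal (WPn N).m (WPn N).R (α × ℕ) inferInstance (fun q => U q.1)
    (fun q => (WPn N).num (parN N p q.2)) (fun q => (WPn N).SS (parN N p q.2))
    (fun q => bB (WPn N).m ((WPn N).SS (parN N p q.2)))
    (fun q => bH (WPn N).m ((WPn N).SS (parN N p q.2)))
    (fun q => tya (WPn N).m ((WPn N).SS (parN N p q.2)))
    (fun q => tyPi (WPn N).m ((WPn N).SS (parN N p q.2)))
    (PTime.comp (f := fun p : α × ℕ => (⟨U p.1 p.2⟩ : Big)) hU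
      ((PTime.fst.comp PTime.fst).pair PTime.snd)) hSS hB hH ha hpi hnum
  exact A.div _ _ _ _ (A.mul _ _ _ _ halg hZZ)
    (A.pow _ _ _ _ (A.fact _ _ _ hB) (PTime.const _))

end Pool.Agent.Lib.MP_4b91fc_lc.GH
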