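import Pool.Agent.Lib.MP_4b91fc_lc.GH.Stm4
import Pool.Agent.Lib.MP_4b91fc_lc.PTab

set_option autoImplicit false

/-!
# `#GRAPHS` is hard for `#P_1`: the algorithm uses polynomially many values (piece f3)
-/

namespace Pool.Agent.Lib.MP_4b91fc_lc.GH

open Finset Pool.Agent.PolyTime

open scoped Nat

private theorem f3_T (p : Polynomial ℕ) : PTime (fun n : ℕ => p.eval n + 1) :=
  (PTime.polyEval p PTime.id).add (PTime.const 1)

private theorem f3_W (p : Polynomial ℕ) : PTime (fun n : ℕ => Wd n (p.eval n + 1)) :=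
  (((PTime.const 2).mul (f3_T p)).add PTime.id).add (PTime.const 5)

private theorem f3_M (p : Polynomial ℕ) : PTime (fun n : ℕ => Mw n (p.eval n + 1)) :=
  (f3_W p).mul ((f3_T p).add (PTime.const 1))

private theorem f3_e (p : Polynomial ℕ) (i : Fin 4) :
    PTime (fun n : ℕ => ew n (p.eval n + 1) i) := by
  fin_cases i
  · exact PTime.const 1
  · exact f3_W p
  · exact (f3_W p).sub (PTime.const 1)
  · exact (f3_W p).add (PTime.const 1)

private theorem f3_x (p : Polynomial ℕ) (i : Fin 6) :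
    PTime (fun n : ℕ => xw n (p.eval n + 1) i) := by
  fin_cases i
  · exact PTime.const 0
  · exact PTime.const 0
  · exact PTime.const 1
  · exact (f3_T p).add (PTime.const 2)
  · exact (f3_T p).add (PTime.const 2)
  · exact ((f3_T p).add (PTime.const 2)).add PTime.id

private theorem f3_y (p : Polynomial ℕ) (i : Fin 6) :
    PTime (fun n : ℕ => yw n (p.eval n + 1) i) := by
  fin_cases i
  · exact f3_M p
  · exact PTime.const 1
  · exact (f3_T p).add (PTime.const 2)
  · exact (f3_T p).add (PTime.const 3)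
  · exact ((f3_T p).add (PTime.const 2)).add PTime.id
  · exact f3_W p

theorem p_f3 : S_f3 := by
  intro hlal hty hpss N p
  have hSS : PTime (fun n : ℕ => (WPn N).SS (parN N p n)) :=
    (hpss (WPn N) ℕ inferInstance (fun n => Mw n (p.eval n + 1)) (fun n => ew n (p.eval n + 1))
      (fun n => xw n (p.eval n + 1)) (fun n => yw n (p.eval n + 1)) (f3_M p) (f3_e p) (f3_x p)
      (f3_y p)).1
  obtain ⟨P, hP⟩ := nat_bound hSS
  obtain ⟨β, hβ⟩ := (hty (WPn N).m).2
  obtain ⟨γ, hγ⟩ := hlal (WPn N).m (WPn N).R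
  obtain ⟨Q, hQ⟩ : ∃ Q : Polynomial ℕ, ∀ n : ℕ, (WPn N).SS (parN N p n) ≤ Q.eval n := by
    refine ⟨P.comp (2 * Polynomial.X + 1), fun n => ?_⟩
    have h := hP n
    have e : (P.comp (2 * Polynomial.X + 1)).eval n = P.eval (sz n) := by
      rw [Polynomial.eval_comp, sz_nat]
      simp
    rw [e]
    exact h
  refine ⟨γ.comp (Q + β.comp Q), fun U U' n hU => ?_⟩
  rw [Polynomial.eval_comp] at hU
  have hX : (Q + β.comp Q).eval n = Q.eval n + β.eval (Q.eval n) := by
    rw [Polynomial.eval_add, Polynomial.eval_comp]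
  have h := hγ U U' ((Q + β.comp Q).eval n) hU ((WPn N).num (parN N p n))
    ((WPn N).SS (parN N p n)) (bB (WPn N).m ((WPn N).SS (parN N p n)))
    (bH (WPn N).m ((WPn N).SS (parN N p n))) (tya (WPn N).m ((WPn N).SS (parN N p n)))
    (tyPi (WPn N).m ((WPn N).SS (parN N p n))) (by
      rw [hX]
      exact (hQ n).trans (Nat.le_add_right _ _)) (fun i => by
      rw [hX]
      exact ((hβ ((WPn N).SS (parN N p n))).2.2 i).trans
        ((eval_mono β (hQ n)).trans (Nat.le_add_left _ _)))
  unfold GG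
  rw [h]

end Pool.Agent.Lib.MP_4b91fc_lc.GH
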