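import Pool.Agent.Lib.MP_4b91fc_lc.GH.Stm1

set_option autoImplicit false

/-!
# Piece fn: `FN` is `n!` times `Fq`
-/

namespace Pool.Agent.Lib.MP_4b91fc_lc.GH

open Finset

open scoped Nat

private theorem fn_pow (k a : ℕ) (hk : 0 < k) : k ^ a * a ! ∣ (k * a)! := by
  induction a with
  | zero => simp
  | succ a ih =>
    obtain ⟨m, rfl⟩ : ∃ m, k = m + 1 := ⟨k - 1, by omega⟩
    have h1 : ((m + 1) * (a + 1))! = (m + 1) * (a + 1) * ((m + 1) * a + m)! := by
      have h2 : (m + 1) * (a + 1) = ((m + 1) * a + m) + 1 := by ring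
      rw [h2, Nat.factorial_succ]
    have h3 : ((m + 1) * a)! ∣ ((m + 1) * a + m)! := Nat.factorial_dvd_factorial (by omega)
    rw [h1, pow_succ, Nat.factorial_succ]
    have h4 : (m + 1) ^ a * (m + 1) * ((a + 1) * a !) =
        (m + 1) * (a + 1) * ((m + 1) ^ a * a !) := by ring
    rw [h4]
    exact Nat.mul_dvd_mul_left _ (ih.trans h3)

private theorem fn_zee (μ : Multiset ℕ) (h0 : 0 ∉ μ) : zee μ ∣ μ.sum ! := by
  unfold zee
  have h1 : μ.sum = ∑ k ∈ μ.toFinset, k * μ.count k := by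
    rw [Finset.sum_multiset_count]
    refine Finset.sum_congr rfl fun k _ => ?_
    rw [smul_eq_mul, mul_comm]
  rw [h1]
  refine (Finset.prod_dvd_prod_of_dvd _ (fun k => (k * μ.count k)!) ?_).trans
    (Nat.prod_factorial_dvd_factorial_sum _ _)
  intro k hk
  refine fn_pow k _ (Nat.pos_of_ne_zero ?_)
  rintro rfl
  exact h0 (Multiset.mem_toFinset.1 hk)

private theorem fn_pos (μ : Multiset ℕ) (h0 : 0 ∉ μ) : zee μ ≠ 0 := by
  intro h
  have := fn_zee μ h0
  rw [h, zero_dvd_iff] at this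
  exact Nat.factorial_ne_zero _ this

private theorem fn_mem (n : ℕ) (μ : Multiset ℕ) (h : μ ∈ Ptn n) : μ.sum = n ∧ 0 ∉ μ := by
  unfold Ptn at h
  rw [Finset.mem_image] at h
  obtain ⟨p, _, rfl⟩ := h
  exact ⟨p.parts_sum, fun h0 => (p.parts_pos h0).ne rfl⟩

theorem p_fn : S_fn := by
  intro ks n l v
  unfold FN Fq
  rw [Nat.cast_sum, Finset.mul_sum]
  refine Finset.sum_congr rfl fun μ hμ => ?_
  obtain ⟨h1, h2⟩ := fn_mem n μ (Finset.mem_filter.1 hμ).1
  have h3 : zee μ ∣ n ! := by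
    have := fn_zee μ h2
    rwa [h1] at this
  have h4 : ((zee μ : ℕ) : ℚ) ≠ 0 := by exact_mod_cast fn_pos μ h2
  unfold ww
  rw [Nat.cast_mul, Nat.cast_div h3 h4]
  push_cast
  ring

end Pool.Agent.Lib.MP_4b91fc_lc.GH
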