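import Pool.Agent.Lib.MP_4b91fc_lc.GH.Stm3

set_option autoImplicit false

/-!
# MP_4b91fc_lc, project GH: piece gd, the chosen parameters are good
-/

namespace Pool.Agent.Lib.MP_4b91fc_lc.GH

open Finset

private theorem gd_sh {r b : ℕ} (M : ℕ) (e : Fin r → ℕ) (x y : Fin b → ℕ) (o : Option (Fin r)) :
    (mkPar M e x y).sh o ≤ ∑ i, e i := by
  cases o with
  | none => exact Nat.zero_le _
  | some i => exact Finset.single_le_sum (f := e) (fun _ _ => Nat.zero_le _) (mem_univ i)

theorem p_gd : S_gd := by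
  intro hch hpb hwi r b M e x y hM hxy hyM
  obtain ⟨hw, -⟩ := hwi hch hpb
  have hmono : StrictMono pr := hpb.2.1
  obtain ⟨hC1, hC2⟩ := hw (4 * M) M
  obtain ⟨hD1, hD2⟩ := hw (4 * M * pr (win (4 * M) M)) (M + ∑ i, e i)
  refine ⟨hM, hC1, ?_, hD1, ?_, ?_, ?_, hxy, hyM⟩
  · intro k hk
    refine lt_of_le_of_lt (hmono.monotone ?_) hC2
    change win (4 * M) M + k ≤ win (4 * M) M + M
    have hk' : k < M := hk
    omega
  · intro o k hk
    have h1 := gd_sh M e x y o
    refine lt_of_le_of_lt (hmono.monotone ?_) hD2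
    change win (4 * M * pr (win (4 * M) M)) (M + ∑ i, e i) + (mkPar M e x y).sh o + k ≤
      win (4 * M * pr (win (4 * M) M)) (M + ∑ i, e i) + (M + ∑ i, e i)
    have hk' : k < M := hk
    omega
  · change win (4 * M) M + M ≤ win (4 * M) M +
      win (4 * M * pr (win (4 * M) M)) (M + ∑ i, e i) + M + ∑ i, e i
    omega
  · intro o
    have h1 := gd_sh M e x y o
    change win (4 * M * pr (win (4 * M) M)) (M + ∑ i, e i) + (mkPar M e x y).sh o + M ≤
      win (4 * M) M + win (4 * M * pr (win (4 * M) M)) (M + ∑ i, e i) + M + ∑ i, e i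
    omega

end Pool.Agent.Lib.MP_4b91fc_lc.GH
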