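import Pool.Agent.Lib.MP_4b91fc_lc.GH.Stm1

set_option autoImplicit false

/-!
# `#GRAPHS` is hard for `#P_1`: piece `hi`
-/

namespace Pool.Agent.Lib.MP_4b91fc_lc.GH

open Finset

open scoped Nat

private theorem hi_ch (n : ℕ) : 2 * (n.choose 2 : ℤ) = n * (n - 1) := by
  induction n with
  | zero => simp
  | succ n ih =>
    rw [Nat.choose_succ_succ' n 1, Nat.choose_one_right]
    push_cast
    linear_combination ih

private theorem hi_gs (k : ℕ) (μ : Multiset ℕ) (h0 : 0 ∉ μ) : gs k μ ≤ μ.sum := by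
  induction μ using Multiset.induction_on with
  | empty => simp [gs]
  | cons a s ih =>
    have ha : 0 < a := by
      rcases Nat.eq_zero_or_pos a with h | h
      · exact absurd (by rw [h]; exact Multiset.mem_cons_self 0 s) h0
      · exact h
    have hs : 0 ∉ s := fun h => h0 (Multiset.mem_cons_of_mem h)
    have h1 := ih hs
    unfold gs at h1 ⊢
    rw [Multiset.map_cons, Multiset.sum_cons, Multiset.sum_cons]
    exact add_le_add (Nat.le_of_dvd ha (Nat.gcd_dvd_right k a)) h1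

/-- the bound for the exponent -/
private theorem hi_bd (s b h k k2 E : ℤ) (hs : 4 ≤ s) (hk0 : 0 ≤ k) (hk : k ≤ s) (hb1 : -s ≤ b)
    (hb2 : b ≤ s) (hh0 : 0 ≤ h) (hh : h ≤ s) (hk2 : 0 ≤ k2) (hk2' : k2 ≤ s) (hE : E = s ^ 4) :
    2 * b * h + k * (b * (b - 1)) + 2 * b * k2 ≤ 2 * E := by
  have hs0 : 0 ≤ s := by linarith
  have h1 : b * h ≤ s * s := mul_le_mul hb2 hh hh0 hs0
  have h2 : b * k2 ≤ s * s := mul_le_mul hb2 hk2' hk2 hs0
  have h3 : b * (b - 1) ≤ s * (s + 1) := by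
    have h31 : 0 ≤ (s - b) * (s + b) := mul_nonneg (by linarith) (by linarith)
    have h32 : s * (s + 1) - b * (b - 1) = (s - b) * (s + b) + (s + b) := by ring
    linarith
  have h4 : 0 ≤ s * (s + 1) := mul_nonneg hs0 (by linarith)
  have h5 : k * (b * (b - 1)) ≤ s * (s * (s + 1)) :=
    le_trans (mul_le_mul_of_nonneg_left h3 hk0) (mul_le_mul_of_nonneg_right hk h4)
  have h6 : s ^ 4 = s * s * (s * s) := by ring
  have hss : 0 ≤ s * s := mul_nonneg hs0 hs0
  have h8 : s * s * 4 ≤ s * s * s := mul_le_mul_of_nonneg_left hs hss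
  have h9 : 0 ≤ s * s * s := mul_nonneg hss hs0
  have h7 : s * s * s * 4 ≤ s * s * s * s := mul_le_mul_of_nonneg_left hs h9
  rw [hE, h6]
  linarith

theorem p_hi : S_hi := by
  intro hptn hzee hcc hparts k u l g N hk hgu hN μ hμ hcard htl
  obtain ⟨hsum, h0⟩ := (hptn.1 _ _).1 hμ
  obtain ⟨ν, hν⟩ : ∃ ν, ν = μ.filter (fun x => x ≠ k) := ⟨_, rfl⟩
  obtain ⟨M, hM⟩ : ∃ M, M = μ.count k := ⟨_, rfl⟩
  have hμν : μ = ν + Multiset.replicate M k := by
    rw [hν, hM, ← Multiset.filter_eq']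
    conv_lhs => rw [← Multiset.filter_add_not (fun x => x ≠ k) μ]
    congr 1
    exact Multiset.filter_congr (fun x _ => by simp)
  have hkν : k ∉ ν := by
    rw [hν]
    intro h
    exact (Multiset.mem_filter.1 h).2 rfl
  have h0ν : 0 ∉ ν := by
    rw [hν]
    intro h
    exact h0 (Multiset.mem_filter.1 h).1
  have hsum' : ν.sum + M * k = k * N + u := by
    rw [← hsum]
    conv_rhs => rw [hμν]
    rw [Multiset.sum_add, Multiset.sum_replicate, smul_eq_mul]
  have hcard' : ν.card + M = N + l := by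
    rw [← hcard]
    conv_rhs => rw [hμν]
    rw [Multiset.card_add, Multiset.card_replicate]
  have hz : zee μ = k ^ M * M ! * zee ν := by
    conv_lhs => rw [hμν]
    exact hzee.1 ν k M hkν
  have hz0 : 0 < zee ν := hzee.2.2.1 ν h0ν
  have hc : cc μ = e2 k M + M * gs k ν + cc ν := by
    conv_lhs => rw [hμν]
    exact hcc.2.2.2.2.1 ν k M
  have hp := hparts ν k (by omega) h0ν hkν
  have hg := hi_gs k ν h0ν
  unfold tl at htl
  rw [← hν] at htl ⊢
  -- integers
  obtain ⟨b, hb⟩ : ∃ b : ℤ, b = N - M := ⟨_, rfl⟩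
  obtain ⟨h, hh⟩ : ∃ h : ℤ, h = gs k ν - k * b := ⟨_, rfl⟩
  have hsumZ : (ν.sum : ℤ) = u + k * b := by
    have key : ∀ S : ℕ, S + M * k = k * N + u → (S : ℤ) = u + k * ((N : ℤ) - M) := by
      intro S hS
      have : ((S + M * k : ℕ) : ℤ) = ((k * N + u : ℕ) : ℤ) := by rw [hS]
      push_cast at this
      linear_combination this
    rw [hb]
    exact key _ hsum'
  have hcardZ : (ν.card : ℤ) = l + b := by
    have : ((ν.card + M : ℕ) : ℤ) = ((N + l : ℕ) : ℤ) := by rw [hcard']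
    push_cast at this
    rw [hb]
    linear_combination this
  have hpZ : (ν.card : ℤ) + 2 * gs k ν ≤ ν.sum + k * ν.card := by exact_mod_cast hp
  have hgZ : (gs k ν : ℤ) ≤ ν.sum := by exact_mod_cast hg
  have hk2 : (2 : ℤ) ≤ k := by exact_mod_cast hk
  have hguZ : (g : ℤ) ≤ u := by exact_mod_cast hgu
  have hgh : (g : ℤ) ≤ h := by
    rw [hh]
    linarith
  have hhu : h ≤ u := by
    rw [hh]
    linarith
  have hu0 : (0 : ℤ) ≤ u := Int.natCast_nonneg u
  have hl0 : (0 : ℤ) ≤ l := Int.natCast_nonneg l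
  have hg0 : (0 : ℤ) ≤ g := Int.natCast_nonneg g
  have hh0 : 0 ≤ h := le_trans hg0 hgh
  have hbu : b ≤ u + k * l := by
    rw [hcardZ, hsumZ] at hpZ
    have : (gs k ν : ℤ) = h + k * b := by rw [hh]; ring
    rw [this] at hpZ
    linarith
  have hbl : -(u : ℤ) ≤ b := by
    have h1 : (0 : ℤ) ≤ ν.sum := Int.natCast_nonneg _
    rw [hsumZ] at h1
    by_contra hcon
    have h2 : b < -(u : ℤ) := not_le.1 hcon
    have h3 : (k : ℤ) * b ≤ 2 * b := by
      have := mul_nonneg (sub_nonneg.2 hk2) (show (0 : ℤ) ≤ -b by linarith)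
      linarith
    linarith
  have hkl : (0 : ℤ) ≤ k * l := by positivity
  obtain ⟨s, hs⟩ : ∃ s : ℤ, s = sN k u l := ⟨_, rfl⟩
  have hs' : s = u + k * l + k + 2 := by
    rw [hs]
    unfold sN
    push_cast
    ring
  have hE : ((E2 k u l : ℕ) : ℤ) = s ^ 4 := by
    unfold E2
    rw [hs]
    push_cast
    ring
  have hkk : ((k / 2 : ℕ) : ℤ) ≤ k := by exact_mod_cast Nat.div_le_self k 2
  have hbd := hi_bd s b h k ((k / 2 : ℕ) : ℤ) (E2 k u l : ℕ) (by linarith) (by linarith)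
    (by linarith) (by linarith) (by linarith) hh0 (by linarith) (Int.natCast_nonneg _)
    (by linarith) hE
  -- the exponent
  have hexp : 2 * (((E2 k u l : ℕ) : ℤ) + cc μ - e2 k N - N * g) = 2 * ((E2 k u l : ℕ) : ℤ) +
      2 * N * (h - g) - (2 * b * h + k * (b * (b - 1)) + 2 * b * ((k / 2 : ℕ) : ℤ)) +
        2 * cc ν := by
    rw [hc]
    unfold e2
    push_cast
    have e1 := hi_ch N
    have e3 := hi_ch M
    have hMb : (M : ℤ) = N - b := by rw [hb]; ring
    have hgs : (gs k ν : ℤ) = h + k * b := by rw [hh]; ring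
    rw [hMb] at e3
    rw [hgs, hMb]
    linear_combination (k : ℤ) * e3 - (k : ℤ) * e1
  have hX : ∃ X : ℕ, cc μ + E2 k u l = e2 k N + N * g + X ∧
      (h ≠ g → ∃ Y : ℕ, X = N + Y) := by
    have h1 : (e2 k N : ℤ) + N * g ≤ cc μ + E2 k u l := by
      have h2 : (0 : ℤ) ≤ N * (h - g) := mul_nonneg (Int.natCast_nonneg _) (by linarith)
      have h3 : (0 : ℤ) ≤ cc ν := Int.natCast_nonneg _
      linarith
    have h1' : e2 k N + N * g ≤ cc μ + E2 k u l := by exact_mod_cast h1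
    obtain ⟨X, hX⟩ := Nat.exists_eq_add_of_le h1'
    refine ⟨X, hX, fun hne => ?_⟩
    have h4 : (g : ℤ) + 1 ≤ h := by
      rcases lt_or_eq_of_le hgh with h5 | h5
      · exact h5
      · exact absurd h5.symm hne
    have h5 : (N : ℤ) ≤ X := by
      have h2 : (N : ℤ) ≤ N * (h - g) := by
        have h7 : (0 : ℤ) ≤ N := Int.natCast_nonneg _
        have h8 := mul_nonneg h7 (show (0 : ℤ) ≤ h - g - 1 by linarith)
        linarith
      have h3 : (0 : ℤ) ≤ cc ν := Int.natCast_nonneg _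
      have h6 : (cc μ : ℤ) + E2 k u l = e2 k N + N * g + X := by exact_mod_cast hX
      linarith
    have h5' : N ≤ X := by exact_mod_cast h5
    exact Nat.exists_eq_add_of_le h5'
  obtain ⟨X, hX1, hX2⟩ := hX
  -- the other factors
  have hMN : M ≤ N + u := by
    have : (M : ℤ) ≤ N + u := by
      have : (M : ℤ) = N - b := by rw [hb]; ring
      rw [this]
      linarith
    exact_mod_cast this
  obtain ⟨c, hcN⟩ := Nat.exists_eq_add_of_le hMN
  obtain ⟨q, hq⟩ : M ! ∣ (N + u)! := Nat.factorial_dvd_factorial hMN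
  obtain ⟨r, hr⟩ : zee ν ∣ L2 k u l := by
    refine dvd_trans (hzee.2.1 ν h0ν) ?_
    unfold L2
    apply Nat.factorial_dvd_factorial
    have : (ν.sum : ℤ) ≤ u + k * (u + k * l) := by
      rw [hsumZ]
      have : (k : ℤ) * b ≤ k * (u + k * l) := mul_le_mul_of_nonneg_left hbu (by linarith)
      linarith
    exact_mod_cast this
  have hvt : vt k u l g N μ = ((2 ^ X * (k ^ c * q * r) : ℕ) : ℚ) := by
    unfold vt ww
    have z1 : (zee μ : ℚ) = (k : ℚ) ^ M * (M ! : ℕ) * (zee ν : ℕ) := by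
      rw [hz]
      push_cast
      ring
    have z2 : ((L2 k u l : ℕ) : ℚ) = (zee ν : ℕ) * r := by
      rw [hr]
      push_cast
      ring
    have z3 : (((N + u)! : ℕ) : ℚ) = (M ! : ℕ) * q := by
      rw [hq]
      push_cast
      ring
    have z4 : (k : ℚ) ^ (N + u) = (k : ℚ) ^ M * (k : ℚ) ^ c := by
      rw [hcN, pow_add]
    have z5 : (2 : ℚ) ^ cc μ * 2 ^ E2 k u l = 2 ^ (e2 k N + N * g) * 2 ^ X := by
      rw [← pow_add, hX1, pow_add]
    have zn0 : ((zee ν : ℕ) : ℚ) ≠ 0 := by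
      have : zee ν ≠ 0 := by omega
      exact_mod_cast this
    have zn1 : ((M ! : ℕ) : ℚ) ≠ 0 := by exact_mod_cast Nat.factorial_ne_zero M
    have zn2 : (k : ℚ) ^ M ≠ 0 := by
      have : (k : ℚ) ≠ 0 := by
        have : k ≠ 0 := by omega
        exact_mod_cast this
      exact pow_ne_zero _ this
    have zn3 : (2 : ℚ) ^ (e2 k N + N * g) ≠ 0 := pow_ne_zero _ (by norm_num)
    rw [z1, z2, z3, z4]
    push_cast
    rw [div_mul_eq_mul_div, div_mul_eq_mul_div, div_mul_eq_mul_div, div_mul_eq_mul_div, div_div,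
      div_eq_iff (mul_ne_zero (mul_ne_zero (mul_ne_zero zn2 zn1) zn0) zn3)]
    linear_combination ((zee ν : ℕ) * r * ((k : ℚ) ^ M * (k : ℚ) ^ c) * ((M ! : ℕ) * q)) * z5
  constructor
  · intro _
    exact ⟨_, hvt⟩
  · intro hne
    have hne' : h ≠ g := by
      intro he
      apply hne
      rw [hsumZ]
      have : (gs k ν : ℤ) = h + k * b := by rw [hh]; ring
      rw [this, he]
      ring
    obtain ⟨Y, hY⟩ := hX2 hne'
    refine ⟨2 ^ Y * (k ^ c * q * r), ?_⟩
    rw [hvt, hY, pow_add]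
    push_cast
    ring

end Pool.Agent.Lib.MP_4b91fc_lc.GH
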