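import Pool.Agent.Lib.MP_4b91fc_lc.GH.Stm1

set_option autoImplicit false

/-!
# Interpolation in the basis of the falling factorials (piece `intp`)
-/

namespace Pool.Agent.Lib.MP_4b91fc_lc.GH

open Finset

open scoped Nat fwdDiff

private theorem intp_diff (r t y : ℕ) :
    ∑ j ∈ range (r + 1), ((-1 : ℤ) ^ (r - j) * r.choose j) * ((y + j).choose t : ℤ) =
      if r ≤ t then (y.choose (t - r) : ℤ) else 0 := by
  have h := fwdDiff_iter_eq_sum_shift (h := (1:ℕ)) (fun x : ℕ => ((x.choose t : ℕ) : ℤ)) r y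
  simp only [smul_eq_mul, mul_one] at h
  rw [← h]
  split_ifs with hrt
  · obtain ⟨k, rfl⟩ := Nat.exists_eq_add_of_le hrt
    rw [fwdDiff_iter_choose, Nat.add_sub_cancel_left]
  · obtain ⟨k, rfl⟩ := Nat.exists_eq_add_of_lt (not_le.1 hrt)
    have e := fwdDiff_iter_choose 0 t
    rw [add_zero] at e
    rw [show t + k + 1 = k + 1 + t by ring, Function.iterate_add_apply, e]
    simp only [Nat.choose_zero_right, Nat.cast_one]
    rw [Function.iterate_add_apply, Function.iterate_one, fwdDiff_const]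
    have h0 : ∀ n : ℕ, (fwdDiff (1 : ℕ))^[n] (fun _ : ℕ => (0 : ℤ)) = fun _ => 0 := by
      intro n
      induction n with
      | zero => rfl
      | succ n ih => rw [Function.iterate_succ_apply, fwdDiff_const, ih]
    rw [h0]

private theorem intp_van (y n : ℕ) (hy : 1 ≤ y) :
    ∑ i ∈ range (n + 1), (-1 : ℤ) ^ i * ((y + i - 1).choose i : ℤ) * (y.choose (n - i) : ℤ) =
      if n = 0 then 1 else 0 := by
  have h1 := Ring.add_choose_eq (R := ℤ) (r := -(y : ℤ)) (s := (y : ℤ)) n (Commute.all _ _)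
  rw [neg_add_cancel, Ring.choose_zero_ite, Finset.Nat.sum_antidiagonal_eq_sum_range_succ_mk] at h1
  rw [h1]
  refine Finset.sum_congr rfl fun i _ => ?_
  rw [Ring.choose_neg, Ring.choose_natCast]
  have h2 : ((y : ℤ) + (i : ℤ) - 1) = ((y + i - 1 : ℕ) : ℤ) := by
    rw [Nat.cast_sub (by omega)]
    push_cast
    ring
  rw [h2, Ring.choose_natCast, Units.smul_def, Int.coe_negOnePow_natCast, smul_eq_mul]

private theorem intp_sgn {a b : ℕ} (h : a % 2 = b % 2) : (-1 : ℤ) ^ a = (-1) ^ b := by
  rw [neg_one_pow_eq_pow_mod_two, h, ← neg_one_pow_eq_pow_mod_two]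

private theorem intp_inner (R m y t i : ℕ) (hi : m + i ≤ R) :
    ∑ j ∈ range (R + 1), (-1 : ℤ) ^ (j + m) * ((m + i).choose j : ℤ) * ((y + j).choose t : ℤ) =
      (-1) ^ i * if m + i ≤ t then (y.choose (t - (m + i)) : ℤ) else 0 := by
  rw [← intp_diff (m + i) t y, Finset.mul_sum]
  symm
  have hs : range (m + i + 1) ⊆ range (R + 1) := Finset.range_subset_range.2 (by omega)
  refine Eq.trans (Finset.sum_congr rfl fun j hj => ?_) (Finset.sum_subset hs fun j _ hj => ?_)
  · have hj' : j ≤ m + i := by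
      have := Finset.mem_range.1 hj
      omega
    have e : (-1 : ℤ) ^ (j + m) = (-1) ^ (i + (m + i - j)) := intp_sgn (by omega)
    rw [e, pow_add]
    ring
  · have hj' : m + i < j := by
      by_contra h
      exact hj (Finset.mem_range.2 (by omega))
    rw [Nat.choose_eq_zero_of_lt hj']
    simp

private theorem intp_key (R m y t : ℕ) (hm : m ≤ R) (hy : 1 ≤ y) (ht : t ≤ R) :
    ∑ j ∈ range (R + 1), (-1 : ℤ) ^ (j + m) * (kap R m y j : ℤ) * ((y + j).choose t : ℤ) =
      if t = m then 1 else 0 := by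
  have e1 : ∑ j ∈ range (R + 1), (-1 : ℤ) ^ (j + m) * (kap R m y j : ℤ) * ((y + j).choose t : ℤ) =
      ∑ i ∈ range (R - m + 1), ((-1) ^ i * ((y + i - 1).choose i : ℤ) *
        if m + i ≤ t then (y.choose (t - (m + i)) : ℤ) else 0) := by
    have e2 : ∀ j ∈ range (R + 1), (-1 : ℤ) ^ (j + m) * (kap R m y j : ℤ) *
        ((y + j).choose t : ℤ) = ∑ i ∈ range (R - m + 1), ((y + i - 1).choose i : ℤ) *
          ((-1 : ℤ) ^ (j + m) * ((m + i).choose j : ℤ) * ((y + j).choose t : ℤ)) := by
      intro j _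
      unfold kap
      push_cast
      rw [Finset.mul_sum, Finset.sum_mul]
      refine Finset.sum_congr rfl fun i _ => ?_
      ring
    rw [Finset.sum_congr rfl e2, Finset.sum_comm]
    refine Finset.sum_congr rfl fun i hi => ?_
    have hi' : m + i ≤ R := by
      have := Finset.mem_range.1 hi
      omega
    rw [← Finset.mul_sum, intp_inner R m y t i hi']
    ring
  rw [e1]
  by_cases h : t < m
  · rw [if_neg (by omega)]
    refine Finset.sum_eq_zero fun i _ => ?_
    rw [if_neg (by omega), mul_zero]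
  · obtain ⟨n, rfl⟩ := Nat.exists_eq_add_of_le (not_lt.1 h)
    have hs : range (n + 1) ⊆ range (R - m + 1) := Finset.range_subset_range.2 (by omega)
    rw [← Finset.sum_subset hs fun i _ hi => ?_]
    · have hv := intp_van y n hy
      have e3 : ∀ i ∈ range (n + 1), ((-1) ^ i * ((y + i - 1).choose i : ℤ) *
          if m + i ≤ m + n then (y.choose (m + n - (m + i)) : ℤ) else 0) =
          (-1 : ℤ) ^ i * ((y + i - 1).choose i : ℤ) * (y.choose (n - i) : ℤ) := by
        intro i hi
        have hi' := Finset.mem_range.1 hi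
        rw [if_pos (by omega), show m + n - (m + i) = n - i by omega]
      rw [Finset.sum_congr rfl e3, hv]
      by_cases hn : n = 0
      · subst hn; simp
      · rw [if_neg hn, if_neg (by omega)]
    · have hi' : n + 1 ≤ i := by
        by_contra hc
        exact hi (Finset.mem_range.2 (by omega))
      rw [if_neg (by omega), mul_zero]

theorem p_intp : S_intp := by
  intro R m y ω D hm hy hω hD
  have hS : ∑ j ∈ range (R + 1), (-1 : ℚ) ^ (j + m) * (kap R m y j : ℚ) * (D j : ℚ) =
      m ! * ω m := by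
    have e1 : ∀ j ∈ range (R + 1), (-1 : ℚ) ^ (j + m) * (kap R m y j : ℚ) * (D j : ℚ) =
        ∑ t ∈ range (R + 1), ω t * t ! *
          ((-1 : ℚ) ^ (j + m) * (kap R m y j : ℚ) * ((y + j).choose t : ℚ)) := by
      intro j hj
      rw [hD j hj, Finset.mul_sum]
      refine Finset.sum_congr rfl fun t _ => ?_
      rw [Nat.descFactorial_eq_factorial_mul_choose]
      push_cast
      ring
    rw [Finset.sum_congr rfl e1, Finset.sum_comm]
    have e2 : ∀ t ∈ range (R + 1), ∑ j ∈ range (R + 1), ω t * t ! *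
        ((-1 : ℚ) ^ (j + m) * (kap R m y j : ℚ) * ((y + j).choose t : ℚ)) =
        if t = m then (m ! : ℚ) * ω m else 0 := by
      intro t ht
      rw [← Finset.mul_sum]
      have h1 := congrArg (Int.cast : ℤ → ℚ) (intp_key R m y t hm hy (by
        have := Finset.mem_range.1 ht
        omega))
      push_cast at h1
      rw [h1]
      split_ifs with htm
      · subst htm; ring
      · ring
    rw [Finset.sum_congr rfl e2, Finset.sum_ite_eq' (range (R + 1)) m,
      if_pos (Finset.mem_range.2 (by omega))]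
  have hAB : ((∑ j ∈ range (R + 1), if j % 2 = m % 2 then kap R m y j * D j else 0 : ℕ) : ℚ) -
      ((∑ j ∈ range (R + 1), if j % 2 = m % 2 then 0 else kap R m y j * D j : ℕ) : ℚ) =
      m ! * ω m := by
    rw [← hS]
    push_cast
    rw [← Finset.sum_sub_distrib]
    refine Finset.sum_congr rfl fun j _ => ?_
    split_ifs with h
    · rw [Even.neg_one_pow (by rw [Nat.even_iff]; omega)]
      ring
    · rw [Odd.neg_one_pow (by rw [Nat.odd_iff]; omega)]
      ring
  have h0 : (0 : ℚ) ≤ m ! * ω m := mul_nonneg (Nat.cast_nonneg _) hω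
  unfold interpN
  rw [Nat.cast_sub, hAB]
  have : ((∑ j ∈ range (R + 1), if j % 2 = m % 2 then 0 else kap R m y j * D j : ℕ) : ℚ) ≤
      ((∑ j ∈ range (R + 1), if j % 2 = m % 2 then kap R m y j * D j else 0 : ℕ) : ℚ) := by
    linarith
  exact_mod_cast this

end Pool.Agent.Lib.MP_4b91fc_lc.GH
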