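import Pool.Agent.Lib.MP_4b91fc_lc.GH.Stm2

set_option autoImplicit false

namespace Pool.Agent.Lib.MP_4b91fc_lc.GH

open Finset

open scoped Nat

private lemma jn_zee_map (c : ℕ) (hc : 0 < c) (μ : Multiset ℕ) :
    zee (μ.map (fun x => c * x)) = c ^ μ.card * zee μ := by
  classical
  have hinj : Function.Injective (fun x : ℕ => c * x) := fun x y h =>
    Nat.eq_of_mul_eq_mul_left hc h
  unfold zee
  have h1 : (μ.map (fun x => c * x)).toFinset = μ.toFinset.image (fun x => c * x) :=
    Multiset.toFinset_map _ _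
  rw [h1, Finset.prod_image (fun x _ y _ h => hinj h)]
  have h2 : ∀ x ∈ μ.toFinset,
      (c * x) ^ (μ.map (fun x => c * x)).count (c * x) *
        ((μ.map (fun x => c * x)).count (c * x))! =
      c ^ μ.count x * (x ^ μ.count x * (μ.count x)!) := by
    intro x _
    have h3 : (μ.map (fun x => c * x)).count (c * x) = μ.count x :=
      Multiset.count_map_eq_count' (fun x => c * x) μ hinj x
    rw [h3, mul_pow]
    ring
  rw [Finset.prod_congr rfl h2, Finset.prod_mul_distrib, Finset.prod_pow_eq_pow_sum,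
    Multiset.toFinset_sum_count_eq]

private lemma jn_zee_sum (h4 : ∀ μ ν : Multiset ℕ, (∀ x ∈ μ, x ∉ ν) → zee (μ + ν) = zee μ * zee ν)
    {ι : Type} [DecidableEq ι] (s : Finset ι) (f : ι → Multiset ℕ)
    (hd : ∀ i ∈ s, ∀ j ∈ s, i ≠ j → ∀ x ∈ f i, x ∉ f j) :
    zee (∑ i ∈ s, f i) = ∏ i ∈ s, zee (f i) := by
  classical
  induction s using Finset.induction_on with
  | empty => simp [zee]
  | insert i s hi ih =>
    rw [Finset.sum_insert hi, Finset.prod_insert hi, h4, ih]
    · intro j hj k hk hjk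
      exact hd j (Finset.mem_insert_of_mem hj) k (Finset.mem_insert_of_mem hk) hjk
    · intro x hx hx2
      rw [Multiset.mem_sum] at hx2
      obtain ⟨j, hj, hxj⟩ := hx2
      exact hd i (Finset.mem_insert_self _ _) j (Finset.mem_insert_of_mem hj)
        (fun h => hi (h ▸ hj)) x hx hxj

private lemma jn_qq_sum_left
    (h3 : ∀ μ ν ρ : Multiset ℕ, qq (μ + ν) ρ = qq μ ρ + qq ν ρ ∧ qq ρ (μ + ν) = qq ρ μ + qq ρ ν)
    {ι : Type} [DecidableEq ι] (s : Finset ι) (f : ι → Multiset ℕ) (ρ : Multiset ℕ) :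
    qq (∑ i ∈ s, f i) ρ = ∑ i ∈ s, qq (f i) ρ := by
  classical
  induction s using Finset.induction_on with
  | empty => simp [qq]
  | insert i s hi ih =>
    rw [Finset.sum_insert hi, Finset.sum_insert hi, (h3 _ _ _).1, ih]

private lemma jn_qq_map (c d g : ℕ) (μ ν : Multiset ℕ)
    (h : ∀ x ∈ μ, ∀ y ∈ ν, Nat.gcd (c * x) (d * y) = g * Nat.gcd x y) :
    qq (μ.map (fun x => c * x)) (ν.map (fun x => d * x)) = g * qq μ ν := by
  unfold qq gs
  rw [Multiset.map_map, ← Multiset.sum_map_mul_left]
  congr 1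
  apply Multiset.map_congr rfl
  intro x hx
  simp only [Function.comp]
  rw [Multiset.map_map, ← Multiset.sum_map_mul_left]
  congr 1
  apply Multiset.map_congr rfl
  intro y hy
  exact h x hx y hy

theorem p_jn : S_jn := by
  classical
  intro hz hcc m S B H a pi ok Y hY
  obtain ⟨-, -, -, hz4, -⟩ := hz
  obtain ⟨hc1, -, hc3, hc4, -, -, -⟩ := hcc
  have hB : 1 ≤ B := ok.hS.trans ok.hSB
  have hapos : ∀ i, 0 < a i := fun i => by have := ok.one_lt i; omega
  -- coprimality
  have hcop : ∀ (i : Fin m) (y : ℕ), 1 ≤ y → y ≤ B → Nat.Coprime (a i) y := by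
    intro i y hy1 hy2
    by_contra hne
    obtain ⟨p, hp, hpa, hpy⟩ := Nat.Prime.not_coprime_iff_dvd.mp hne
    have h1 := ok.big i p hp hpa
    have h2 := Nat.le_of_dvd hy1 hpy
    omega
  have hgcd : ∀ i j : Fin m, ∀ x ∈ Y i, ∀ y ∈ Y j,
      Nat.gcd (2 * a i * x) (2 * a j * y) = 2 * Nat.gcd (a i) (a j) * Nat.gcd x y := by
    intro i j x hx y hy
    obtain ⟨hx1, hx2⟩ := hY i x hx
    obtain ⟨hy1, hy2⟩ := hY j y hy
    rw [mul_assoc, mul_assoc, Nat.gcd_mul_left, mul_assoc]
    congr 1
    rw [Nat.Coprime.gcd_mul (a i * x) (hcop j y hy1 hy2)]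
    congr 1
    · rw [Nat.Coprime.gcd_mul_right_cancel]
      exact (hcop j x hx1 hx2).symm
    · rw [Nat.Coprime.gcd_mul_left_cancel]
      exact hcop i y hy1 hy2
  have hdis : ∀ i ∈ (univ : Finset (Fin m)), ∀ j ∈ (univ : Finset (Fin m)), i ≠ j →
      ∀ x ∈ (Y i).map (fun x => 2 * a i * x), x ∉ (Y j).map (fun x => 2 * a j * x) := by
    intro i _ j _ hij z hz1 hz2
    obtain ⟨x, hx, hxz⟩ := Multiset.mem_map.mp hz1
    obtain ⟨y, hy, hyz⟩ := Multiset.mem_map.mp hz2
    obtain ⟨hx1, hx2⟩ := hY i x hx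
    obtain ⟨hy1, hy2⟩ := hY j y hy
    have h1 : 2 * (a i * x) = 2 * (a j * y) := by
      rw [← mul_assoc, ← mul_assoc]; exact hxz.trans hyz.symm
    have h2 : a i * x = a j * y := by omega
    have h3 : a i ∣ a j * y := h2 ▸ Dvd.intro x rfl
    have h4 : a i ∣ a j := (hcop i y hy1 hy2).dvd_of_dvd_mul_right h3
    have h5 : Nat.gcd (a i) (a j) = a i := Nat.gcd_eq_left h4
    have h6 := ok.small i j hij
    rw [← ok.gcd_a i j hij, h5] at h6
    have h7 : 1 * a i ≤ B * a i := Nat.mul_le_mul_right _ hB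
    omega
  refine ⟨?_, ?_⟩
  · unfold join
    rw [jn_zee_sum hz4 univ _ hdis]
    apply Finset.prod_congr rfl
    intro i _
    exact jn_zee_map (2 * a i) (by have := hapos i; omega) (Y i)
  · have hod : od (join a Y) = 0 := by
      unfold od
      rw [Multiset.countP_eq_zero]
      intro z hz hodd
      unfold join at hz
      rw [Multiset.mem_sum] at hz
      obtain ⟨i, -, hzi⟩ := hz
      obtain ⟨x, -, hxz⟩ := Multiset.mem_map.mp hzi
      have h1 : z = 2 * (a i * x) := by rw [← mul_assoc]; exact hxz.symm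
      omega
    have hq : qq (join a Y) (join a Y) =
        ∑ i, ∑ j, 2 * Nat.gcd (a i) (a j) * qq (Y i) (Y j) := by
      unfold join
      rw [jn_qq_sum_left hc3]
      apply Finset.sum_congr rfl
      intro i _
      rw [hc4, jn_qq_sum_left hc3]
      apply Finset.sum_congr rfl
      intro j _
      rw [hc4]
      exact jn_qq_map (2 * a i) (2 * a j) _ (Y i) (Y j) (hgcd i j)
    have h1 := hc1 (join a Y)
    rw [hod, hq] at h1
    set f : Fin m → Fin m → ℕ := fun i j => 2 * Nat.gcd (a i) (a j) * qq (Y i) (Y j) with hf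
    have hsym : ∀ i j, f i j = f j i := by
      intro i j
      simp only [hf]
      rw [Nat.gcd_comm, hc4]
    have hsplit : ∀ i j, f i j = (if i = j then f i j else 0) + (if i < j then f i j else 0) +
        (if j < i then f i j else 0) := by
      intro i j
      rcases lt_trichotomy i j with h | h | h
      · have h1 : ¬ i = j := ne_of_lt h
        have h2 : ¬ j < i := not_lt.mpr h.le
        simp [h, h1, h2]
      · subst h; simp
      · have h1 : ¬ i = j := (ne_of_lt h).symm
        have h2 : ¬ i < j := not_lt.mpr h.le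
        simp [h, h1, h2]
    have hsum : ∑ i, ∑ j, f i j = ∑ i, f i i + 2 * ∑ i, ∑ j, (if i < j then f i j else 0) := by
      have e1 : ∑ i, ∑ j, f i j = ∑ i, ∑ j, ((if i = j then f i j else 0) +
          (if i < j then f i j else 0) + (if j < i then f i j else 0)) :=
        Finset.sum_congr rfl (fun i _ => Finset.sum_congr rfl (fun j _ => hsplit i j))
      rw [e1]
      simp only [Finset.sum_add_distrib]
      have e2 : ∑ i, ∑ j, (if i = j then f i j else 0) = ∑ i, f i i := by
        apply Finset.sum_congr rfl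
        intro i _
        simp
      have e3 : ∑ i, ∑ j, (if j < i then f i j else 0) = ∑ i, ∑ j, (if i < j then f i j else 0) := by
        rw [Finset.sum_comm]
        apply Finset.sum_congr rfl
        intro i _
        apply Finset.sum_congr rfl
        intro j _
        rw [hsym]
      rw [e2, e3]
      ring
    have e4 : ∑ i, f i i = 2 * ∑ i, a i * qq (Y i) (Y i) := by
      rw [Finset.mul_sum]
      apply Finset.sum_congr rfl
      intro i _
      simp only [hf, Nat.gcd_self]
      ring
    have e5 : ∑ i, ∑ j, (if i < j then f i j else 0) =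
        ∑ i, ∑ j, if i < j then 2 * pi i j * qq (Y i) (Y j) else 0 := by
      apply Finset.sum_congr rfl
      intro i _
      apply Finset.sum_congr rfl
      intro j _
      by_cases hij : i < j
      · simp only [hij, if_true, hf]
        rw [ok.gcd_a i j (ne_of_lt hij)]
      · simp [hij]
    rw [← e5]
    have h2 : ∑ i, ∑ j, f i j = 2 * cc (join a Y) := by rw [← h1]; rfl
    rw [hsum, e4] at h2
    omega

end Pool.Agent.Lib.MP_4b91fc_lc.GH

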