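import Pool.Agent.Lib.MP_4b91fc_lc.GH.Stm1

set_option autoImplicit false

namespace Pool.Agent.Lib.MP_4b91fc_lc.GH

open Finset

open scoped Nat

private theorem l1_two_card (μ : Multiset ℕ) (h0 : 0 ∉ μ) (h1 : 1 ∉ μ) : 2 * μ.card ≤ μ.sum := by
  have h : ∀ x ∈ μ, 2 ≤ x := by
    intro x hx
    rcases Nat.lt_or_ge x 2 with h | h
    · interval_cases x
      · exact absurd hx h0
      · exact absurd hx h1
    · exact h
  have := Multiset.card_nsmul_le_sum h
  simpa [smul_eq_mul, mul_comm] using this

theorem p_l1 : S_l1 := by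
  intro hptn hfn hintp hdig u l
  unfold lev1
  split_ifs with h
  · have hR : u ≤ 2 * (u - l) := by omega
    have hl : u - (u - l) = l := by omega
    have h1 : 1 ≤ N1 u := by
      unfold N1
      exact Nat.one_le_pow _ _ (by omega)
    have hF : 0 ≤ Fq [] u l [] := by
      have h2 := hfn [] u l []
      have h3 : (0 : ℚ) < (u ! : ℚ) := by exact_mod_cast Nat.factorial_pos u
      have h4 : (0 : ℚ) ≤ (u ! : ℚ) * Fq [] u l [] := by
        rw [← h2]; positivity
      exact nonneg_of_mul_nonneg_right h4 h3
    have key := hintp (2 * (u - l)) u (N1 u)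
      (fun t => if u - l ≤ t then
        2 ^ (t * (u - l) - t * (t - 1) / 2) * Fq [] t (t - (u - l)) [] else 0)
      (fun j => dig1 numGraphs u l (N1 u + j)) hR h1
      (by
        simp only [hl]
        rw [if_pos (by omega)]
        positivity)
      (by
        intro j _
        exact hdig u l (N1 u + j) h (Nat.le_add_right _ _))
    simp only [hl] at key
    rw [if_pos (by omega : u - l ≤ u)] at key
    have key2 : (interpN (2 * (u - l)) u (N1 u) (fun j => dig1 numGraphs u l (N1 u + j)) : ℚ) =
        ((2 ^ (u * (u - l) - u * (u - 1) / 2) * FN [] u l [] : ℕ) : ℚ) := by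
      rw [key]
      push_cast
      rw [hfn [] u l []]
      ring
    have key3 := Nat.cast_injective key2
    rw [key3]
    exact Nat.mul_div_cancel_left _ (by positivity)
  · unfold FN
    symm
    apply Finset.sum_eq_zero
    intro μ hμ
    exfalso
    rw [Finset.mem_filter] at hμ
    obtain ⟨hm, hs⟩ := hμ
    obtain ⟨hsum, h0⟩ := (hptn.1 u μ).1 hm
    obtain ⟨h1, hc, _⟩ := hs
    have := l1_two_card μ h0 h1
    omega

end Pool.Agent.Lib.MP_4b91fc_lc.GH
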