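import Pool.Agent.Lib.MP_4b91fc_lc.GH.Stm1

set_option autoImplicit false

/-!
# `#GRAPHS` is hard for `#P_1`: piece `l1t`, the tail of the first level
-/

namespace Pool.Agent.Lib.MP_4b91fc_lc.GH

open Finset

open scoped Nat

/-- a bound for the binary logarithm of `2 N` -/
private theorem l1t_log {w N : ℕ} (hw : 8 ≤ w) (hN : w ^ 6 ≤ N) :
    ∃ r : ℕ, 2 * N ≤ 2 ^ r ∧ 32 * w * r ≤ N + 32 * w := by
  obtain ⟨q, hq⟩ : ∃ q, q = N / (32 * w) := ⟨_, rfl⟩
  have hw0 : 0 < 32 * w := by omega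
  have h1 : 32 * w * q ≤ N := by rw [hq]; exact Nat.mul_div_le N (32 * w)
  have h2 : N < 32 * w * (q + 1) := by
    rw [hq]
    exact Nat.lt_mul_div_succ N hw0
  have hw4 : 8 ^ 4 ≤ w ^ 4 := Nat.pow_le_pow_left hw 4
  -- `128 w ≤ q`
  have h3 : 128 * w ≤ q := by
    rw [hq, Nat.le_div_iff_mul_le hw0]
    calc 128 * w * (32 * w) = 8 ^ 4 * w ^ 2 := by ring
      _ ≤ w ^ 4 * w ^ 2 := Nat.mul_le_mul_right _ hw4
      _ = w ^ 6 := by ring
      _ ≤ N := hN
  refine ⟨q + 1, ?_, ?_⟩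
  · obtain ⟨s, hs⟩ : ∃ s, s = q / 2 := ⟨_, rfl⟩
    have hs1 : 2 * s ≤ q := by omega
    have hs2 : q ≤ 2 * s + 1 := by omega
    have h4 : s + 1 ≤ 2 ^ s := Nat.lt_two_pow_self
    have h5 : (s + 1) * (s + 1) ≤ 2 ^ q := by
      calc (s + 1) * (s + 1) ≤ 2 ^ s * 2 ^ s := Nat.mul_le_mul h4 h4
        _ = 2 ^ (2 * s) := by rw [two_mul, pow_add]
        _ ≤ 2 ^ q := Nat.pow_le_pow_right (by norm_num) hs1
    have h6 : 4 * N ≤ q * (q + 1) := by
      have h7 : 4 * (32 * w * (q + 1)) ≤ q * (q + 1) := by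
        calc 4 * (32 * w * (q + 1)) = 128 * w * (q + 1) := by ring
          _ ≤ q * (q + 1) := Nat.mul_le_mul_right _ h3
      omega
    have h8 : q * (q + 1) ≤ (2 * s + 1) * (2 * s + 2) :=
      Nat.mul_le_mul hs2 (by omega)
    have h9 : (2 * s + 1) * (2 * s + 2) ≤ 4 * ((s + 1) * (s + 1)) := by
      nlinarith
    rw [pow_succ]
    omega
  · have : 32 * w * (q + 1) = 32 * w * q + 32 * w := by ring
    omega

/-- the exponent -/
private theorem l1t_exp {w N j r t p c : ℤ} (hw : 8 ≤ w) (hN : 4096 * (w * w) ≤ N)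
    (hr : 32 * (w * r) ≤ N + 32 * w) (hr0 : 0 ≤ r) (hj0 : 0 ≤ j) (hj : j + 1 ≤ w) (htN : t ≤ N)
    (hp0 : 0 ≤ p) (hp : 2 * p ≤ t) (hpj : p + j + 1 ≤ t) (hc : 2 * c ≤ t * p) :
    ((N - t) * (N - t) - (N - t)) + 2 * ((N - t) * p) + 2 * c + 2 * (N * j) + 2 * (r * t) +
      N / 2 ≤ N * N - N := by
  have hww : 8 * w ≤ w * w := by nlinarith
  have hN2 : 0 ≤ N := by nlinarith
  have ht0 : 0 ≤ t := by linarith
  have hdiv : N / 2 ≤ N - N / 2 := by omega
  have hdiv2 : 2 * (N / 2) ≤ N := by omega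
  -- the main estimate
  have key : ((N - t) * (N - t) - (N - t)) + 2 * ((N - t) * p) + 2 * c + 2 * (N * j) - (N * N - N) ≤
      -2 * (N * (t - p - j)) + t * t + t - t * p := by
    nlinarith
  by_cases h : t ≤ 8 * (j + 1)
  · have h1 : t ≤ 8 * w := by linarith
    have h2 : N * 1 ≤ N * (t - p - j) := mul_le_mul_of_nonneg_left (by linarith) hN2
    have h3 : t * t ≤ (8 * w) * (8 * w) := mul_le_mul h1 h1 ht0 (by linarith)
    have h4 : r * t ≤ r * (8 * w) := mul_le_mul_of_nonneg_left h1 hr0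
    have h5 : 0 ≤ t * p := mul_nonneg ht0 hp0
    nlinarith
  · push Not at h
    have h1 : t * (t - p) ≤ N * (t - p) := mul_le_mul_of_nonneg_right htN (by linarith)
    have h2 : N * t ≤ N * (2 * (t - p)) := mul_le_mul_of_nonneg_left (by linarith) hN2
    have h3 : N * (8 * j + 9) ≤ N * t := mul_le_mul_of_nonneg_left (by linarith) hN2
    have h4 : 8 * r ≤ N := by
      have h5 : 8 * r ≤ w * r := mul_le_mul_of_nonneg_right hw hr0
      nlinarith
    have h6 : 8 * r * t ≤ N * t := mul_le_mul_of_nonneg_right h4 ht0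
    nlinarith

theorem p_l1t : S_l1t := by
  intro hP hZ hC u l N hul hN
  obtain ⟨hP1, hP2, hP3⟩ := hP
  obtain ⟨hZ1, -, hZ3, -, -⟩ := hZ
  obtain ⟨hC1, -, -, -, hC5, -, hC7⟩ := hC
  obtain ⟨j, hj⟩ : ∃ j, j = u - l := ⟨_, rfl⟩
  rw [← hj]
  obtain ⟨w, hw⟩ : ∃ w, w = u + 8 := ⟨_, rfl⟩
  have hw8 : 8 ≤ w := by omega
  have hwN : w ^ 6 ≤ N := by
    rw [hw]
    exact hN
  obtain ⟨r, hr1, hr2⟩ := l1t_log hw8 hwN
  have hw2N : 4096 * (w * w) ≤ N := by
    calc 4096 * (w * w) = 8 ^ 4 * w ^ 2 := by ring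
      _ ≤ w ^ 4 * w ^ 2 := Nat.mul_le_mul_right _ (Nat.pow_le_pow_left hw8 4)
      _ = w ^ 6 := by ring
      _ ≤ N := hwN
  -- the term
  have hterm : ∀ t ≤ N, ∀ ν ∈ Ptn t, 1 ∉ ν → ν.card + j < t →
      (N ! : ℚ) * ww (ν + Multiset.replicate (N - t) 1) * 2 ^ (N * j) * (2 ^ t * 2 ^ (N / 4)) ≤
        2 ^ (N.choose 2) := by
    intro t htN ν hν h1ν hcard
    obtain ⟨hsum, h0ν⟩ := (hP1 t ν).1 hν
    -- parts are at least two
    have hp2 : 2 * ν.card ≤ t := by
      have h2 : ν.card • 2 ≤ ν.sum := Multiset.card_nsmul_le_sum (fun x hx => by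
        have hx0 : x ≠ 0 := fun h => h0ν (h ▸ hx)
        have hx1 : x ≠ 1 := fun h => h1ν (h ▸ hx)
        omega)
      rw [smul_eq_mul, hsum] at h2
      omega
    have hgs : gs 1 ν = ν.card := by
      unfold gs
      simp
    have he2 : e2 1 (N - t) = (N - t).choose 2 := by
      unfold e2
      simp
    have hcc : 2 * cc ν ≤ t * ν.card := by
      have h3 := hC1 ν
      have h4 := hC7 ν h0ν
      rw [hsum] at h4
      omega
    have hccμ := hC5 ν 1 (N - t)
    rw [he2, hgs] at hccμ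
    have hzμ := hZ1 ν 1 (N - t) h1ν
    rw [one_pow, one_mul] at hzμ
    have hzν : 0 < zee ν := hZ3 ν h0ν
    -- the exponents
    have hexp : cc (ν + Multiset.replicate (N - t) 1) + N * j + r * t + N / 4 ≤ N.choose 2 := by
      obtain ⟨c, hc⟩ : ∃ c, c = cc ν := ⟨_, rfl⟩
      obtain ⟨p, hp⟩ : ∃ p, p = ν.card := ⟨_, rfl⟩
      obtain ⟨M, hM⟩ : ∃ M, M = N - t := ⟨_, rfl⟩
      rw [hccμ, ← hc, ← hp, ← hM]
      rw [← hc, ← hp] at hcc
      rw [← hp] at hp2 hcard
      have hMt : (M : ℤ) = N - t := by omega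
      have e1 : (2 * M.choose 2 : ℤ) = M * M - M := by
        have h5 := Nat.choose_two_right M
        have h6 : 2 * M.choose 2 = M * (M - 1) := by
          rw [h5]
          exact Nat.mul_div_cancel' (Nat.even_mul_pred_self M).two_dvd
        have h7 : M * (M - 1) + M = M * M := by
          rcases M with _ | m
          · rfl
          · rw [Nat.add_sub_cancel]; ring
        have h8 : (2 * M.choose 2 : ℤ) + M = M * M := by
          exact_mod_cast (by rw [h6]; exact h7 : 2 * M.choose 2 + M = M * M)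
        linarith
      have e2 : (2 * N.choose 2 : ℤ) = N * N - N := by
        have h5 := Nat.choose_two_right N
        have h6 : 2 * N.choose 2 = N * (N - 1) := by
          rw [h5]
          exact Nat.mul_div_cancel' (Nat.even_mul_pred_self N).two_dvd
        have h7 : N * (N - 1) + N = N * N := by
          rcases N with _ | m
          · rfl
          · rw [Nat.add_sub_cancel]; ring
        have h8 : (2 * N.choose 2 : ℤ) + N = N * N := by
          exact_mod_cast (by rw [h6]; exact h7 : 2 * N.choose 2 + N = N * N)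
        linarith
      have h9 := l1t_exp (w := w) (N := N) (j := j) (r := r) (t := t) (p := p) (c := c)
        (by exact_mod_cast hw8) (by exact_mod_cast hw2N)
        (by
          have : 32 * (w * r) ≤ N + 32 * w := by rw [← mul_assoc]; exact hr2
          exact_mod_cast this)
        (Int.natCast_nonneg _) (Int.natCast_nonneg _) (by omega) (by exact_mod_cast htN)
        (Int.natCast_nonneg _) (by exact_mod_cast hp2) (by omega) (by exact_mod_cast hcc)
      have h10 : ((N / 4 : ℕ) : ℤ) * 2 ≤ (N : ℤ) / 2 := by omega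
      have h11 : (2 * (M.choose 2 + M * p + c + N * j + r * t + (N / 4 : ℕ)) : ℤ) ≤
          2 * N.choose 2 := by
        rw [e2]
        rw [← hMt] at h9
        linarith
      have h12 : M.choose 2 + M * p + c + N * j + r * t + N / 4 ≤ N.choose 2 := by
        have h13 : 2 * (M.choose 2 + M * p + c + N * j + r * t + N / 4) ≤ 2 * N.choose 2 := by
          exact_mod_cast h11
        omega
      exact h12
    -- the factorials
    have hfac : (N ! : ℚ) / (((N - t)! * zee ν : ℕ) : ℚ) ≤ (N : ℚ) ^ t := by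
      rw [div_le_iff₀ (by
        have : 0 < (N - t)! * zee ν := Nat.mul_pos (Nat.factorial_pos _) hzν
        exact_mod_cast this)]
      have h5 : N ! ≤ N ^ t * ((N - t)! * zee ν) := by
        rw [← Nat.factorial_mul_descFactorial htN]
        calc (N - t)! * N.descFactorial t ≤ (N - t)! * N ^ t :=
              Nat.mul_le_mul_left _ (Nat.descFactorial_le_pow N t)
          _ = N ^ t * ((N - t)! * 1) := by ring
          _ ≤ N ^ t * ((N - t)! * zee ν) :=
              Nat.mul_le_mul_left _ (Nat.mul_le_mul_left _ hzν)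
      exact_mod_cast h5
    have h2N : (2 * N : ℚ) ^ t ≤ (2 : ℚ) ^ (r * t) := by
      rw [pow_mul]
      apply pow_le_pow_left₀ (by positivity)
      exact_mod_cast hr1
    unfold ww
    rw [hzμ]
    calc (N ! : ℚ) * (2 ^ cc (ν + Multiset.replicate (N - t) 1) / (((N - t)! * zee ν : ℕ) : ℚ)) *
          2 ^ (N * j) * (2 ^ t * 2 ^ (N / 4))
        = ((N ! : ℚ) / (((N - t)! * zee ν : ℕ) : ℚ)) * (2 ^ t *
          (2 ^ cc (ν + Multiset.replicate (N - t) 1) * 2 ^ (N * j) * 2 ^ (N / 4))) := by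
          rw [mul_div_assoc']
          ring
      _ ≤ (N : ℚ) ^ t * (2 ^ t *
          (2 ^ cc (ν + Multiset.replicate (N - t) 1) * 2 ^ (N * j) * 2 ^ (N / 4))) :=
          mul_le_mul_of_nonneg_right hfac (by positivity)
      _ = (2 * N : ℚ) ^ t *
          (2 ^ cc (ν + Multiset.replicate (N - t) 1) * 2 ^ (N * j) * 2 ^ (N / 4)) := by
          rw [mul_pow]
          ring
      _ ≤ 2 ^ (r * t) *
          (2 ^ cc (ν + Multiset.replicate (N - t) 1) * 2 ^ (N * j) * 2 ^ (N / 4)) :=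
          mul_le_mul_of_nonneg_right h2N (by positivity)
      _ = (2 : ℚ) ^ (cc (ν + Multiset.replicate (N - t) 1) + N * j + r * t + N / 4) := by
          rw [pow_add, pow_add, pow_add]
          ring
      _ ≤ 2 ^ (N.choose 2) := pow_le_pow_right₀ (by norm_num) hexp
  -- the sum
  rw [Finset.sum_filter, hP3 N 1 one_pos, Nat.div_one]
  have hr8 : r ≤ N / 4 := by
    have h5 : 32 * 8 * r ≤ 32 * w * r :=
      Nat.mul_le_mul_right _ (Nat.mul_le_mul_left _ hw8)
    have h6 : 8 * w ≤ w * w := Nat.mul_le_mul_right _ hw8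
    omega
  have hN4 : (N : ℚ) + 1 < 2 ^ (N / 4) := by
    have h5 : 2 ^ r ≤ 2 ^ (N / 4) := Nat.pow_le_pow_right (by norm_num) hr8
    have h6 : 8 * 8 ≤ w * w := Nat.mul_le_mul hw8 hw8
    have h7 : N + 1 < 2 ^ (N / 4) := by omega
    exact_mod_cast h7
  have hpos : (0 : ℚ) < 2 ^ (N / 4) := by positivity
  have hin : ∀ M ∈ range (N + 1),
      ∑ μ ∈ (Ptn (N - 1 * M)).filter (fun μ => 1 ∉ μ),
        (if (μ + Multiset.replicate M 1).card + j < N then
          (N ! : ℚ) * ww (μ + Multiset.replicate M 1) * 2 ^ (N * j) else 0) ≤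
      2 ^ (N.choose 2) / 2 ^ (N / 4) := by
    intro M hM
    rw [one_mul]
    have hM' : M ≤ N := by
      have := Finset.mem_range.1 hM
      omega
    obtain ⟨t, ht⟩ : ∃ t, t = N - M := ⟨_, rfl⟩
    have hMt : M = N - t := by omega
    have htN : t ≤ N := by omega
    rw [← ht]
    have hb : ∀ μ ∈ (Ptn t).filter (fun μ => 1 ∉ μ),
        (if (μ + Multiset.replicate M 1).card + j < N then
          (N ! : ℚ) * ww (μ + Multiset.replicate M 1) * 2 ^ (N * j) else 0) ≤
        2 ^ (N.choose 2) / (2 ^ t * 2 ^ (N / 4)) := by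
      intro μ hμ
      obtain ⟨hμ1, hμ2⟩ := Finset.mem_filter.1 hμ
      by_cases hc : (μ + Multiset.replicate M 1).card + j < N
      · rw [if_pos hc, le_div_iff₀ (by positivity), hMt]
        refine hterm t htN μ hμ1 hμ2 ?_
        rw [Multiset.card_add, Multiset.card_replicate] at hc
        omega
      · rw [if_neg hc]
        positivity
    calc _ ≤ ∑ _μ ∈ (Ptn t).filter (fun μ => 1 ∉ μ),
          (2 : ℚ) ^ (N.choose 2) / (2 ^ t * 2 ^ (N / 4)) := Finset.sum_le_sum hb
      _ = ((Ptn t).filter (fun μ => 1 ∉ μ)).card * ((2 : ℚ) ^ (N.choose 2) /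
          (2 ^ t * 2 ^ (N / 4))) := by rw [Finset.sum_const, nsmul_eq_mul]
      _ ≤ (2 ^ t : ℚ) * ((2 : ℚ) ^ (N.choose 2) / (2 ^ t * 2 ^ (N / 4))) := by
          apply mul_le_mul_of_nonneg_right _ (by positivity)
          have h5 : ((Ptn t).filter (fun μ => 1 ∉ μ)).card ≤ 2 ^ t :=
            (Finset.card_filter_le _ _).trans (hP2 t)
          exact_mod_cast h5
      _ = 2 ^ (N.choose 2) / 2 ^ (N / 4) := by
          have h6 : (2 : ℚ) ^ t ≠ 0 := by positivity
          field_simp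
  calc _ ≤ ∑ _M ∈ range (N + 1), (2 : ℚ) ^ (N.choose 2) / 2 ^ (N / 4) := Finset.sum_le_sum hin
    _ = ((N : ℚ) + 1) * (2 ^ (N.choose 2) / 2 ^ (N / 4)) := by
        rw [Finset.sum_const, Finset.card_range, nsmul_eq_mul]
        push_cast
        ring
    _ < 2 ^ (N / 4) * (2 ^ (N.choose 2) / 2 ^ (N / 4)) :=
        mul_lt_mul_of_pos_right hN4 (by positivity)
    _ = 2 ^ (N.choose 2) := by
        field_simp

end Pool.Agent.Lib.MP_4b91fc_lc.GH
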