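import Pool.Agent.Lib.MP_4b91fc_lc.GH.Stm1

set_option autoImplicit false

/-!
# `#GRAPHS` is hard for `#P_1`: piece l2 (the next level)
-/

namespace Pool.Agent.Lib.MP_4b91fc_lc.GH

open Finset

open scoped Nat

private theorem l2_zip : ∀ (v ks : List ℕ), v.length = ks.length →
    (v.zip ks).map (fun p => p.1) = v
  | [], [], _ => rfl
  | [], _ :: _, h => by simp at h
  | _ :: _, [], h => by simp at h
  | a :: v, b :: ks, h => by
    simp only [List.zip_cons_cons, List.map_cons]
    rw [l2_zip v ks (by simpa using h)]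

private theorem l2_om (ks : List ℕ) (k u l g : ℕ) (v : List ℕ) (hv : v.length = ks.length) :
    om ks k u l g v u =
      (k : ℚ) ^ u * L2 k u l * (2 : ℚ) ^ E2 k u l * Fq (k :: ks) u l (g :: v) := by
  have hz : (v.zip ks).map (fun p => ((p.1 : ℤ) + (0 : ℤ) * (Nat.gcd p.2 k : ℕ)).toNat) = v := by
    have h : (fun p : ℕ × ℕ => ((p.1 : ℤ) + (0 : ℤ) * (Nat.gcd p.2 k : ℕ)).toNat) =
        fun p => p.1 := by
      funext p
      simp
    rw [h, l2_zip v ks hv]
  unfold om
  simp only [sub_self]
  rw [if_pos]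
  · rw [hz]
    simp only [mul_zero, add_zero, Int.toNat_natCast, zero_mul, sub_zero, Int.zero_ediv,
      EuclideanDomain.zero_div, zpow_natCast]
  · refine ⟨by simp, by simp, by simp, fun p _ => by simp⟩

private theorem l2_gs (k : ℕ) (μ : Multiset ℕ) : 0 ∉ μ → gs k μ ≤ μ.sum := by
  induction μ using Multiset.induction with
  | empty => intro _; simp [gs]
  | cons a μ ih =>
    intro h
    rw [Multiset.mem_cons, not_or] at h
    have h1 := ih h.2
    have h2 : Nat.gcd k a ≤ a := Nat.gcd_le_right k (Nat.pos_of_ne_zero (fun h0 => h.1 h0.symm))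
    have h3 : gs k (a ::ₘ μ) = Nat.gcd k a + gs k μ := by
      unfold gs
      rw [Multiset.map_cons, Multiset.sum_cons]
    rw [h3, Multiset.sum_cons]
    omega

theorem p_l2 : S_l2 := by
  intro hptn hfn hintp hdig ks k u l g v hk hks hv
  unfold lev2
  by_cases hg : g ≤ u
  · rw [if_pos hg]
    have hL : 0 < k ^ u * L2 k u l * 2 ^ E2 k u l := by
      have h1 : 0 < L2 k u l := Nat.factorial_pos _
      positivity
    have hN : 1 ≤ N2 k u l := by
      unfold N2 sN
      exact Nat.one_le_pow _ _ (by omega)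
    have h0 : 0 ≤ om ks k u l g v u := by
      rw [l2_om ks k u l g v hv]
      have h1 : 0 ≤ Fq (k :: ks) u l (g :: v) := by
        unfold Fq
        refine Finset.sum_nonneg fun μ _ => ?_
        unfold ww
        positivity
      positivity
    have h1 := hintp (2 * u + k * l) u (N2 k u l + u) (om ks k u l g v)
      (fun j => dig2 (FN ks) ks k u l g v (N2 k u l + j)) (by omega) (by omega) h0 (by
        intro j _
        have h2 := hdig ks k u l g v (N2 k u l + j) hk hks hv hg (Nat.le_add_right _ _)
        have h3 : N2 k u l + u + j = N2 k u l + j + u := by omega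
        rw [h3]
        exact h2)
    have h2 : interpN (2 * u + k * l) u (N2 k u l + u)
        (fun j => dig2 (FN ks) ks k u l g v (N2 k u l + j)) =
        k ^ u * L2 k u l * 2 ^ E2 k u l * FN (k :: ks) u l (g :: v) := by
      have h3 : (interpN (2 * u + k * l) u (N2 k u l + u)
          (fun j => dig2 (FN ks) ks k u l g v (N2 k u l + j)) : ℚ) =
          ((k ^ u * L2 k u l * 2 ^ E2 k u l * FN (k :: ks) u l (g :: v) : ℕ) : ℚ) := by
        rw [h1, l2_om ks k u l g v hv]
        push_cast
        rw [hfn]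
        ring
      exact_mod_cast h3
    rw [h2, Nat.mul_div_cancel_left _ hL]
  · rw [if_neg hg]
    unfold FN
    symm
    refine Finset.sum_eq_zero fun μ hμ => ?_
    exfalso
    obtain ⟨h1, h2⟩ := mem_filter.1 hμ
    obtain ⟨h3, h4⟩ := (hptn.1 u μ).1 h1
    have h5 := h2.2.2.2
    rw [List.map_cons, List.cons.injEq] at h5
    have h6 := l2_gs k μ h4
    omega

end Pool.Agent.Lib.MP_4b91fc_lc.GH
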