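import Pool.Agent.Lib.MP_4b91fc_lc.GH.Stm1

set_option autoImplicit false

/-!
# Piece l2d: the digits of the next levels
-/

namespace Pool.Agent.Lib.MP_4b91fc_lc.GH

open Finset

open scoped Nat

private theorem l2d_nat {S : Finset (Multiset ℕ)} {f : Multiset ℕ → ℚ} {c : ℕ}
    (h : ∀ μ ∈ S, ∃ z : ℕ, f μ = c * z) : ∃ z : ℕ, ∑ μ ∈ S, f μ = c * z := by
  apply Finset.sum_induction f (fun x => ∃ z : ℕ, x = c * z)
  · rintro a b ⟨y, rfl⟩ ⟨z, rfl⟩
    exact ⟨y + z, by push_cast; ring⟩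
  · exact ⟨0, by simp⟩
  · exact h

private theorem l2d_vt (k u l g N : ℕ) (μ : Multiset ℕ) : 0 ≤ vt k u l g N μ := by
  unfold vt ww
  positivity

private theorem l2d_div {A B m : ℕ} {τ : ℚ} (hB : 0 < B) (h0 : 0 ≤ τ) (h1 : τ < 1)
    (h : (A : ℚ) / B = m + τ) : A / B = m := by
  have h2 : ⌊(A : ℚ) / (B : ℚ)⌋₊ = A / B := Nat.floor_div_eq_div A B
  rw [← h2, h]
  have h3 : (0 : ℚ) ≤ (m : ℚ) + τ := by positivity
  rw [Nat.floor_eq_iff h3]
  constructor
  · linarith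
  · linarith

theorem p_l2d : S_l2d := by
  intro hfn ht1 ht2 hhi hclu hptn hzee hcc hdef hparts ks k u l g v N hk hks hv hg hN
  have T1 := ht1 hptn hzee hcc k u l g N hk hg hN
  have T2 := ht2 hptn hzee hcc hdef k u l g N hk hg hN
  have HI := hhi hptn hzee hcc hparts k u l g N hk hg hN
  obtain ⟨C1, C2⟩ := hclu hptn hzee hcc hparts ks k u l g v N hk hks hv hg hN
  classical
  set Om : ℚ := ∑ t ∈ range (2 * u + k * l + 1), om ks k u l g v t * (N + u).descFactorial t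
    with hOm
  set q : Multiset ℕ → Prop := fun μ =>
    (u : ℤ) - g = (μ.filter (fun x => x ≠ k)).sum - gs k (μ.filter (fun x => x ≠ k)) with hq
  set S := (Ptn (k * N + u)).filter (Sel ks (N + l) (shv ks k N v)) with hS
  have hSm : ∀ μ ∈ S, μ ∈ Ptn (k * N + u) ∧ μ.card = N + l := by
    intro μ hμ
    rw [hS, mem_filter] at hμ
    exact ⟨hμ.1, hμ.2.2.1⟩
  -- the main part
  have e1 : ∑ μ ∈ S.filter q, vt k u l g N μ = Om := by
    rw [← C1, hS, filter_filter]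
  have hqt : ∀ μ, q μ → ¬ tl k u g μ := by
    intro μ h1 h2
    unfold tl at h2
    have h3 : (u : ℤ) - g = (μ.filter (fun x => x ≠ k)).sum -
      gs k (μ.filter (fun x => x ≠ k)) := h1
    omega
  obtain ⟨z1, hz1⟩ : ∃ z : ℕ, ∑ μ ∈ S.filter q, vt k u l g N μ = ((1 : ℕ) : ℚ) * z := by
    apply l2d_nat
    intro μ hμ
    rw [mem_filter] at hμ
    obtain ⟨h1, h2⟩ := hμ
    obtain ⟨h3, h4⟩ := hSm μ h1
    obtain ⟨z, hz⟩ := (HI μ h3 h4 (hqt μ h2)).1 h2
    exact ⟨z, by rw [hz]; simp⟩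
  obtain ⟨z2, hz2⟩ : ∃ z : ℕ, ∑ μ ∈ (S.filter (fun μ => ¬ q μ)).filter (fun μ => ¬ tl k u g μ),
      vt k u l g N μ = ((2 ^ N : ℕ) : ℚ) * z := by
    apply l2d_nat
    intro μ hμ
    rw [mem_filter, mem_filter] at hμ
    obtain ⟨⟨h1, h2⟩, h5⟩ := hμ
    obtain ⟨h3, h4⟩ := hSm μ h1
    obtain ⟨z, hz⟩ := (HI μ h3 h4 h5).2 h2
    exact ⟨z, by rw [hz]; push_cast; rfl⟩
  -- the tail
  have h3 : ∑ μ ∈ (S.filter (fun μ => ¬ q μ)).filter (fun μ => tl k u g μ), vt k u l g N μ < 1 := by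
    have hle : ∑ μ ∈ (S.filter (fun μ => ¬ q μ)).filter (fun μ => tl k u g μ), vt k u l g N μ ≤
        ∑ μ ∈ (Ptn (k * N + u)).filter (fun μ => μ.card = N + l ∧ tl k u g μ ∧
          N ≤ μ.count k + 16 * (sN k u l + 1)), vt k u l g N μ +
        ∑ μ ∈ (Ptn (k * N + u)).filter (fun μ => μ.card = N + l ∧
          ¬ N ≤ μ.count k + 16 * (sN k u l + 1)), vt k u l g N μ := by
      rw [← Finset.sum_union]
      · apply Finset.sum_le_sum_of_subset_of_nonneg
        · intro μ hμ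
          rw [mem_filter, mem_filter] at hμ
          obtain ⟨⟨h1, h2⟩, h5⟩ := hμ
          obtain ⟨h3, h4⟩ := hSm μ h1
          rw [mem_union, mem_filter, mem_filter]
          by_cases hc : N ≤ μ.count k + 16 * (sN k u l + 1)
          · exact Or.inl ⟨h3, h4, h5, hc⟩
          · exact Or.inr ⟨h3, h4, hc⟩
        · intro μ _ _
          exact l2d_vt _ _ _ _ _ _
      · rw [Finset.disjoint_left]
        intro μ h1 h2
        rw [mem_filter] at h1 h2
        exact h2.2.2 h1.2.2.2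
    linarith
  have h4 : 0 ≤ ∑ μ ∈ (S.filter (fun μ => ¬ q μ)).filter (fun μ => tl k u g μ),
      vt k u l g N μ := Finset.sum_nonneg fun μ _ => l2d_vt _ _ _ _ _ _
  set τ : ℚ := ∑ μ ∈ (S.filter (fun μ => ¬ q μ)).filter (fun μ => tl k u g μ), vt k u l g N μ
  have htot : ∑ μ ∈ S, vt k u l g N μ = ((z1 + 2 ^ N * z2 : ℕ) : ℚ) + τ := by
    rw [← Finset.sum_filter_add_sum_filter_not S q, hz1,
      ← Finset.sum_filter_add_sum_filter_not (S.filter (fun μ => ¬ q μ)) (fun μ => tl k u g μ),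
      hz2]
    push_cast
    ring
  -- the quotient
  have hfrac : ((FN ks (k * N + u) (N + l) (shv ks k N v) * L2 k u l * 2 ^ E2 k u l *
      k ^ (N + u) * (N + u)! : ℕ) : ℚ) / (((k * N + u)! * 2 ^ (e2 k N + N * g) : ℕ) : ℚ) =
      ((z1 + 2 ^ N * z2 : ℕ) : ℚ) + τ := by
    rw [← htot]
    push_cast
    rw [hfn ks (k * N + u) (N + l) (shv ks k N v)]
    have hn : ((k * N + u)! : ℚ) ≠ 0 := by positivity
    have h2 : (2 : ℚ) ^ (e2 k N + N * g) ≠ 0 := by positivity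
    rw [div_eq_iff (mul_ne_zero hn h2)]
    have h5 : ∑ μ ∈ S, vt k u l g N μ = Fq ks (k * N + u) (N + l) (shv ks k N v) *
        (L2 k u l * 2 ^ E2 k u l * k ^ (N + u) * (N + u)! / 2 ^ (e2 k N + N * g)) := by
      unfold Fq
      rw [Finset.sum_mul]
      apply Finset.sum_congr rfl
      intro μ _
      unfold vt
      ring
    rw [h5]
    field_simp
  have hB : 0 < (k * N + u)! * 2 ^ (e2 k N + N * g) := by positivity
  have hd := l2d_div hB h4 h3 hfrac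
  have hz1' : Om = z1 := by rw [← e1, hz1]; simp
  have hlt : z1 < 2 ^ N := by
    have h6 : (z1 : ℚ) < 2 ^ N := by rw [← hz1']; exact C2
    exact_mod_cast h6
  have hfin : dig2 (FN ks) ks k u l g v N = z1 := by
    unfold dig2
    rw [hd, Nat.add_mul_mod_self_left, Nat.mod_eq_of_lt hlt]
  rw [hfin, hz1']

end Pool.Agent.Lib.MP_4b91fc_lc.GH
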