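import Pool.Agent.Lib.MP_4b91fc_lc.GH.Stm2

set_option autoImplicit false

/-!
# `#GRAPHS` is hard for `#P_1`: piece lal
-/

namespace Pool.Agent.Lib.MP_4b91fc_lc.GH

open Finset

open scoped Nat

/-- **[lal]** -/
theorem p_lal : S_lal := by
  intro hloc m R
  obtain ⟨β, hβ⟩ := hloc (m + 1)
  refine ⟨β.comp (2 * Polynomial.X ^ 2 + 2 * Polynomial.X + 2), ?_⟩
  intro U U' X hU num S B H a pi hS ha
  have e : (β.comp (2 * Polynomial.X ^ 2 + 2 * Polynomial.X + 2)).eval X =
      β.eval (2 * X ^ 2 + 2 * X + 2) := by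
    rw [Polynomial.eval_comp]
    simp
  rw [e] at hU
  unfold algR
  refine sum_congr rfl (fun l _ => sum_congr rfl (fun q _ => ?_))
  by_cases hok : okq R num S l (symq q) = true
  · rw [if_pos hok, if_pos hok]
    unfold okq at hok
    rw [Bool.and_eq_true, decide_eq_true_eq] at hok
    obtain ⟨⟨_, _, _, hl, hsw⟩, _⟩ := hok
    have h1 : ∑ i, a i * sw R.w l (symq q) i ≤ X ^ 2 := by
      calc ∑ i, a i * sw R.w l (symq q) i ≤ ∑ i, X * sw R.w l (symq q) i :=
            sum_le_sum (fun i _ => Nat.mul_le_mul_right _ (ha i))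
        _ = X * ∑ i, sw R.w l (symq q) i := by rw [mul_sum]
        _ ≤ X * X := Nat.mul_le_mul_left _ (hsw.trans hS)
        _ = X ^ 2 := by ring
    have h2 : (qks a).length = m + 1 := by
      unfold qks
      simp
    have h3 : ∀ k ∈ qks a, k ≤ 2 * X ^ 2 + 2 * X + 2 := by
      intro k hk
      unfold qks at hk
      rw [List.mem_append, List.mem_ofFn] at hk
      rcases hk with ⟨i, rfl⟩ | hk
      · have := ha i
        omega
      · rw [List.mem_singleton] at hk
        omega
    unfold Rdig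
    rw [hβ U U' (2 * X ^ 2 + 2 * X + 2) hU (qks a) _ _ _ h2 h3 (by omega) (by omega)]
  · rw [if_neg hok, if_neg hok]

end Pool.Agent.Lib.MP_4b91fc_lc.GH
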