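import Pool.Agent.Lib.MP_4b91fc_lc.GH.Stm1

set_option autoImplicit false

/-!
# `#GRAPHS` is hard for `#P_1`: piece loc
-/

namespace Pool.Agent.Lib.MP_4b91fc_lc.GH

open Finset

open scoped Nat

private lemma loc_int {R m y0 : ℕ} {D D' : ℕ → ℕ} (h : ∀ j ≤ R, D j = D' j) :
    interpN R m y0 D = interpN R m y0 D' := by
  have e1 : ∀ j ∈ range (R + 1), D j = D' j := fun j hj => h j (Nat.lt_succ_iff.1 (mem_range.1 hj))
  have h1 : (∑ j ∈ range (R + 1), if j % 2 = m % 2 then kap R m y0 j * D j else 0) =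
      ∑ j ∈ range (R + 1), if j % 2 = m % 2 then kap R m y0 j * D' j else 0 :=
    sum_congr rfl (fun j hj => by rw [e1 j hj])
  have h2 : (∑ j ∈ range (R + 1), if j % 2 = m % 2 then 0 else kap R m y0 j * D j) =
      ∑ j ∈ range (R + 1), if j % 2 = m % 2 then 0 else kap R m y0 j * D' j :=
    sum_congr rfl (fun j hj => by rw [e1 j hj])
  unfold interpN
  rw [h1, h2]

private lemma loc_lev1 {U U' : ℕ → ℕ} {X n l : ℕ} (hn : n ≤ X)
    (h : ∀ i ≤ (X + 8) ^ 6 + 2 * X, U i = U' i) : lev1 U n l = lev1 U' n l := by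
  unfold lev1
  by_cases h2 : 2 * l ≤ n
  · rw [if_pos h2, if_pos h2]
    congr 1
    apply loc_int
    intro j hj
    unfold dig1
    have h3 : N1 n ≤ (X + 8) ^ 6 := Nat.pow_le_pow_left (by omega) 6
    rw [h (N1 n + j) (by omega)]
  · rw [if_neg h2, if_neg h2]

private lemma loc_lev2 {F F' : ℕ → ℕ → List ℕ → ℕ} {X k n l : ℕ} (ks : List ℕ) (g : ℕ)
    (v : List ℕ) (hk : k ≤ X) (hn : n ≤ X) (hl : l ≤ X)
    (h : ∀ (a b : ℕ) (w : List ℕ),
      a ≤ (X + 1) * ((X ^ 2 + 2 * X + 2) ^ 12 + 2 * X + X ^ 2) + 2 * X →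
      b ≤ (X + 1) * ((X ^ 2 + 2 * X + 2) ^ 12 + 2 * X + X ^ 2) + 2 * X → F a b w = F' a b w) :
    lev2 F ks k n l g v = lev2 F' ks k n l g v := by
  unfold lev2
  by_cases h2 : g ≤ n
  · rw [if_pos h2, if_pos h2]
    congr 1
    apply loc_int
    intro j hj
    unfold dig2
    have hkl : k * l ≤ X ^ 2 := by
      rw [sq]
      exact Nat.mul_le_mul hk hl
    have h3 : N2 k n l ≤ (X ^ 2 + 2 * X + 2) ^ 12 := by
      apply Nat.pow_le_pow_left
      unfold sN
      omega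
    have h4 : N2 k n l + j ≤ (X ^ 2 + 2 * X + 2) ^ 12 + 2 * X + X ^ 2 := by omega
    have h5 : k * (N2 k n l + j) ≤ X * ((X ^ 2 + 2 * X + 2) ^ 12 + 2 * X + X ^ 2) :=
      Nat.mul_le_mul hk h4
    have h6 : (X + 1) * ((X ^ 2 + 2 * X + 2) ^ 12 + 2 * X + X ^ 2) =
        X * ((X ^ 2 + 2 * X + 2) ^ 12 + 2 * X + X ^ 2) +
          ((X ^ 2 + 2 * X + 2) ^ 12 + 2 * X + X ^ 2) := by ring
    rw [h (k * (N2 k n l + j) + n) (N2 k n l + j + l) _ (by omega) (by omega)]
  · rw [if_neg h2, if_neg h2]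

/-- **[loc]** -/
theorem p_loc : S_loc := by
  intro r
  induction r with
  | zero =>
    refine ⟨(Polynomial.X + 8) ^ 6 + 2 * Polynomial.X, ?_⟩
    intro U U' X hU ks n l v hks _ hn _
    obtain rfl : ks = [] := List.length_eq_zero_iff.1 hks
    have e : ((Polynomial.X + 8) ^ 6 + 2 * Polynomial.X : Polynomial ℕ).eval X =
        (X + 8) ^ 6 + 2 * X := by simp
    rw [e] at hU
    exact loc_lev1 hn hU
  | succ r ih =>
    obtain ⟨β, hβ⟩ := ih
    refine ⟨β.comp ((Polynomial.X + 1) * ((Polynomial.X ^ 2 + 2 * Polynomial.X + 2) ^ 12 +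
      2 * Polynomial.X + Polynomial.X ^ 2) + 2 * Polynomial.X), ?_⟩
    intro U U' X hU ks n l v hks hX hn hl
    have e : (β.comp ((Polynomial.X + 1) * ((Polynomial.X ^ 2 + 2 * Polynomial.X + 2) ^ 12 +
        2 * Polynomial.X + Polynomial.X ^ 2) + 2 * Polynomial.X)).eval X =
        β.eval ((X + 1) * ((X ^ 2 + 2 * X + 2) ^ 12 + 2 * X + X ^ 2) + 2 * X) := by
      rw [Polynomial.eval_comp]
      simp
    rw [e] at hU
    cases ks with
    | nil => simp at hks
    | cons k ks =>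
      cases v with
      | nil => rfl
      | cons g v =>
        have hks' : ks.length = r := by simpa using hks
        apply loc_lev2 ks g v (hX k (by simp)) hn hl
        intro a b w ha hb
        apply hβ U U' _ hU ks a b w hks' _ ha hb
        intro y hy
        have h1 := hX y (List.mem_cons_of_mem _ hy)
        omega

end Pool.Agent.Lib.MP_4b91fc_lc.GH
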