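import Pool.Agent.Lib.MP_4b91fc_lc.GH.Stm4
import Pool.Agent.Lib.MP_a28c52_lc.FromTM2
import Pool.Agent.Lib.MP_a28c52_lc.ToTM

set_option autoImplicit false

/-!
# `#GRAPHS` is hard for `#P_1`: from `PTime` to machines with plain words
-/

namespace Pool.Agent.Lib.MP_4b91fc_lc.GH

open Turing HerCo

/-- the code of a word as an S-expression, in bits -/
private def m1_e (w : List Bool) : List Bool := (Pool.Agent.PolyTime.enc w).bits

private theorem m1_e_eq (w : List Bool) :
    m1_e w = w.flatMap (fun b => if b then [true, true, false, false] else [true, false]) ++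
      [false] := by
  induction w with
  | nil => rfl
  | cons b w ih =>
    have h : m1_e (b :: w) = true :: ((Pool.Agent.PolyTime.enc b).bits ++ m1_e w) := rfl
    rw [h, ih]
    cases b <;> rfl

private theorem m1_FP_e : FP .poly m1_e := by
  have h : FP .poly (fun w : List Bool =>
      w.flatMap (fun b => if b then [true, true, false, false] else [true, false]) ++ [false]) := by
    fun_prop
  exact h.congr fun w => (m1_e_eq w).symm

/-- one step of the decoder -/
private def m1_st (p : ℕ × List Bool) (b : Bool) : ℕ × List Bool :=
  if b then (p.1 + 1, p.2)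
  else if p.1 = 0 then p
  else if p.1 = 1 then (0, false :: p.2)
  else if p.1 = 2 then (3, p.2)
  else (0, true :: p.2)

/-- the decoder -/
private def m1_d (x : List Bool) : List Bool := (x.foldl m1_st (0, [])).2.reverse

private theorem m1_bd (x : List Bool) (p : ℕ × List Bool) :
    (x.foldl m1_st p).1 ≤ p.1 + x.length + 3 ∧ (x.foldl m1_st p).2.length ≤ p.2.length + x.length := by
  have h : ∀ (y : List Bool) (p : ℕ × List Bool),
      (y.foldl m1_st p).1 ≤ max p.1 3 + y.length ∧
        (y.foldl m1_st p).2.length ≤ p.2.length + y.length := by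
    intro y
    induction y with
    | nil => intro p; simp
    | cons b y ih =>
      intro p
      rw [List.foldl_cons]
      obtain ⟨h1, h2⟩ := ih (m1_st p b)
      have h3 : max (m1_st p b).1 3 ≤ max p.1 3 + 1 ∧ (m1_st p b).2.length ≤ p.2.length + 1 := by
        unfold m1_st
        split_ifs <;> simp
      rw [List.length_cons]
      constructor <;> omega
  obtain ⟨h1, h2⟩ := h x p
  exact ⟨by omega, h2⟩

private theorem m1_FP_d : FP .poly m1_d := by
  have hh : FP .poly (fun p : List Bool × (ℕ × List Bool) × Bool => m1_st p.2.1 p.2.2) := by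
    unfold m1_st
    fun_prop
  have h := FP.foldl (l := fun x : List Bool => x) (g := fun _ => ((0 : ℕ), ([] : List Bool)))
    (h := fun _ p b => m1_st p b) FP.id (by fun_prop) hh (fun _ => by
      refine ⟨fun x => 2 * (sz x + 3) + 1 + 3 * sz x, ?_, fun x l' hl' => ?_⟩
      · exact (((Bd.const 2).mul (Bd.sz.add (Bd.const 3))).add (Bd.const 1)).add
          ((Bd.const 3).mul Bd.sz)
      · have h3 : ∀ y : List Bool, sz y = 3 * y.length := by
          intro y
          induction y with
          | nil => simp
          | cons b y ih => simp [ih]; ring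
        obtain ⟨h1, h2⟩ := m1_bd l' (0, [])
        have h4 : l'.length ≤ x.length := hl'.length_le
        have h5 := h3 x
        have h6 : sz (l'.foldl m1_st (0, [])) = 2 * sz (l'.foldl m1_st (0, [])).1 + 1 +
            sz (l'.foldl m1_st (0, [])).2 := sz_prod _ _
        show sz (l'.foldl m1_st (0, [])) ≤ _
        rw [h6, h3, sz_nat]
        simp only [List.length_nil] at h2
        beta_reduce
        omega)
  exact (h.snd.reverse).congr fun x => rfl

private theorem m1_d_e (w : List Bool) : m1_d (m1_e w) = w := by
  have h : ∀ (w o : List Bool), (w.flatMap (fun b => if b then [true, true, false, false]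
      else [true, false])).foldl m1_st (0, o) = (0, w.reverse ++ o) := by
    intro w
    induction w with
    | nil => intro o; rfl
    | cons b w ih =>
      intro o
      rw [List.flatMap_cons, List.foldl_append]
      have h1 : (if b = true then [true, true, false, false] else [true, false]).foldl m1_st
          (0, o) = (0, b :: o) := by
        cases b <;> rfl
      rw [h1, ih]
      simp
  rw [m1_d, m1_e_eq, List.foldl_append, h]
  simp [m1_st]

theorem p_m1 : S_m1 := by
  intro G hG
  have h1 : Cp .poly (fun w : List Bool => m1_e w) (fun w => m1_e (G w)) := by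
    obtain h := hG.exists_tm
    obtain ⟨M⟩ := h
    exact Cp.ofTM2 M
  have h2 : Cp .poly (fun w : List Bool => w) (fun w => m1_e w) := Cp.of_FP m1_FP_e
  have h3 : Cp .poly (fun w : List Bool => m1_e (G w)) (fun w => m1_d (m1_e (G w))) :=
    Cp.of_FP m1_FP_d
  have h4 : Cp .poly (fun w : List Bool => w) (fun w => G w) :=
    (h3.comp (h1.comp h2)).of_eq (fun _ => rfl) fun w => m1_d_e (G w)
  exact Cp.toTM2 (eb := fun w : List Bool => w) h4

end Pool.Agent.Lib.MP_4b91fc_lc.GH
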