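import Pool.Agent.Lib.MP_4b91fc_lc.GH.Stm4
import Pool.Agent.Lib.MP_a28c52_lc.Bridge

set_option autoImplicit false

/-! Composition of a machine for `G` with a machine for `U`. -/

namespace Pool.Agent.Lib.MP_4b91fc_lc.GH

open Turing

private theorem m2_query {B : ℕ → List Bool} (hB : HerCo.FP .poly B) (p : Polynomial ℕ) :
    HerCo.FP .poly (fun n : ℕ => List.replicate n true ++ false ::
      (List.range (p.eval n + 1)).flatMap
        (fun i => (B i).flatMap (fun b => [true, b]) ++ [false])) := by
  fun_prop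

theorem p_m2 : S_m2 := by
  rintro U p G ⟨hU⟩ ⟨hG⟩
  have h1 : HerCo.Cp .poly (HerCo.enc : ℕ → List Bool) (fun n => Nat.bits (U n)) :=
    HerCo.Cp.ofTM2 hU
  have h2 : HerCo.FP .poly (fun n : ℕ => Nat.bits (U n)) :=
    (HerCo.Cp.reindex HerCo.Cp.rawToEnc (fun n => Nat.bits (U n))).comp h1
  have h3 : HerCo.FP .poly (fun n : ℕ => query n ((List.range (p.eval n + 1)).map U)) := by
    refine (m2_query h2 p).congr fun n => ?_
    simp only [query, List.flatMap_map]
  have h4 : HerCo.Cp .poly (HerCo.enc : ℕ → List Bool)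
      (fun n => query n ((List.range (p.eval n + 1)).map U)) :=
    (HerCo.Cp.reindex HerCo.Cp.encToRaw
      (fun n => query n ((List.range (p.eval n + 1)).map U))).comp h3
  have h5 : HerCo.Cp .poly (fun w : List Bool => w) (fun w => G w) :=
    HerCo.Cp.ofTM2 (ea := fun w : List Bool => w) (eb := fun w : List Bool => w) (f := G) hG
  have h6 : HerCo.Cp .poly (HerCo.enc : ℕ → List Bool)
      (fun n => G (query n ((List.range (p.eval n + 1)).map U))) :=
    (HerCo.Cp.reindex h5 (fun n => query n ((List.range (p.eval n + 1)).map U))).comp h4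
  exact HerCo.Cp.toTM2 (ea := fun n : ℕ => List.replicate n true)
    (eb := fun w : List Bool => w) h6

end Pool.Agent.Lib.MP_4b91fc_lc.GH
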