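import Pool.Agent.Lib.MP_4b91fc_lc.GH.Stm2

set_option autoImplicit false

/-!
# Piece ms: multisets with bounded sum
-/

namespace Pool.Agent.Lib.MP_4b91fc_lc.GH

open Finset Pool.Agent.PolyTime

open scoped Nat

private theorem ms_mem (h : S_ptn) (B : ℕ) (μ : Multiset ℕ) :
    μ ∈ MS B ↔ 0 ∉ μ ∧ μ.sum ≤ B := by
  unfold MS
  rw [mem_biUnion]
  constructor
  · rintro ⟨n, hn, hμ⟩
    rw [mem_range] at hn
    obtain ⟨h1, h2⟩ := (h.1 n μ).1 hμ
    exact ⟨h2, by omega⟩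
  · rintro ⟨h1, h2⟩
    exact ⟨μ.sum, mem_range.2 (by omega), (h.1 _ μ).2 ⟨rfl, h1⟩⟩

private theorem ms_geom (n : ℕ) : ∑ i ∈ range n, 2 ^ i ≤ 2 ^ n := by
  induction n with
  | zero => simp
  | succ n ih =>
    rw [sum_range_succ, pow_succ]
    omega

private theorem ms_card (h : S_ptn) (B : ℕ) : (MS B).card ≤ 2 ^ (B + 1) := by
  unfold MS
  refine card_biUnion_le.trans ?_
  exact (sum_le_sum (fun i _ => h.2.1 i)).trans (ms_geom (B + 1))

private theorem ms_bd (h : S_ptn) (B : ℕ) (μ : Multiset ℕ) (hμ : μ ∈ MS B) (x : ℕ)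
    (hx : x ∈ μ) : 1 ≤ x ∧ x ≤ B := by
  obtain ⟨h1, h2⟩ := (ms_mem h B μ).1 hμ
  constructor
  · rcases Nat.eq_zero_or_pos x with rfl | h3
    · exact absurd hx h1
    · exact h3
  · exact (Multiset.le_sum_of_mem hx).trans h2

private theorem ms_gs (x : ℕ) (ν : Multiset ℕ) (h1 : 1 ≤ x) (h0 : 0 ∉ ν) :
    gs x ν ≤ x * ν.sum := by
  have h3 : (ν.map (fun y => x * y)).sum = x * ν.sum := by
    rw [Multiset.sum_map_mul_left, Multiset.map_id']
  unfold gs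
  rw [← h3]
  refine Multiset.sum_map_le_sum_map _ _ (fun y hy => ?_)
  have hy1 : 1 ≤ y := by
    rcases Nat.eq_zero_or_pos y with rfl | h3
    · exact absurd hy h0
    · exact h3
  exact (Nat.gcd_le_left y h1).trans (Nat.le_mul_of_pos_right x hy1)

private theorem ms_qq (μ ν : Multiset ℕ) (h1 : 0 ∉ μ) (h2 : 0 ∉ ν) :
    qq μ ν ≤ μ.sum * ν.sum := by
  have h3 : (μ.map (fun x => x * ν.sum)).sum = μ.sum * ν.sum := by
    rw [Multiset.sum_map_mul_right, Multiset.map_id']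
  unfold qq
  rw [← h3]
  refine Multiset.sum_map_le_sum_map _ _ (fun x hx => ?_)
  refine ms_gs x ν ?_ h2
  rcases Nat.eq_zero_or_pos x with rfl | h4
  · exact absurd hx h1
  · exact h4

/-- Piece ms. -/
theorem p_ms : S_ms := by
  intro h
  refine ⟨ms_mem h, ms_card h, fun B μ hμ x hx => ms_bd h B μ hμ x hx, fun X => rfl,
    fun X Y => rfl, ?_⟩
  intro B μ ν hμ hν
  obtain ⟨h1, h2⟩ := (ms_mem h B μ).1 hμ
  obtain ⟨h3, h4⟩ := (ms_mem h B ν).1 hν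
  refine (ms_qq μ ν h1 h3).trans ?_
  rw [sq]
  exact Nat.mul_le_mul h2 h4

end Pool.Agent.Lib.MP_4b91fc_lc.GH
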