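import Pool.Agent.Lib.MP_4b91fc_lc.GH.Stm4

set_option autoImplicit false

/-!
# Exact counting of unlabelled graphs: paths as lists, piece n0
-/

namespace Pool.Agent.Lib.MP_4b91fc_lc.GH

open Finset Pool.Agent.PolyTime Turing

open scoped Nat

private theorem cfgAt_succ {N : NTM} (c : N.Cfg) (l : List N.Tr) (t : ℕ) (h : t < l.length) :
    cfgAt c l (t + 1) = (cfgAt c l t).next l[t] := by
  unfold cfgAt
  rw [List.take_succ_eq_append_getElem h, List.foldl_append]
  rfl

private theorem cfgAt_len {N : NTM} (c : N.Cfg) (l : List N.Tr) (t : ℕ) (h : l.length ≤ t) :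
    cfgAt c l t = l.foldl NTM.Cfg.next c := by
  unfold cfgAt
  rw [List.take_of_length_le h]

private theorem cfgAt_cons {N : NTM} (c : N.Cfg) (τ : N.Tr) (l : List N.Tr) (t : ℕ) :
    cfgAt c (τ :: l) (t + 1) = cfgAt (c.next τ) l t := by
  unfold cfgAt
  rw [List.take_succ_cons, List.foldl_cons]

private theorem path_iff {N : NTM} (c c' : N.Cfg) (l : List N.Tr) : NTM.Path c l c' ↔
    c' = l.foldl NTM.Cfg.next c ∧
      ∀ (t : ℕ) (h : t < l.length), l[t] ∈ N.δ (cfgAt c l t).q (cfgAt c l t).scan := by
  induction l generalizing c with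
  | nil =>
    constructor
    · intro h
      cases h
      exact ⟨rfl, fun t ht => absurd ht (by simp)⟩
    · rintro ⟨h, -⟩
      rw [h]
      exact NTM.Path.nil c
  | cons τ l ih =>
    constructor
    · intro h
      cases h with
      | cons _ _ _ _ h1 h2 =>
        obtain ⟨h3, h4⟩ := (ih (c.next τ)).1 h2
        refine ⟨h3, fun t ht => ?_⟩
        cases t with
        | zero => exact h1
        | succ t =>
          have h5 := h4 t (by simpa using ht)
          rw [cfgAt_cons]
          exact h5
    · rintro ⟨h1, h2⟩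
      refine NTM.Path.cons c c' τ l (h2 0 (by simp)) ((ih (c.next τ)).2 ⟨h1, fun t ht => ?_⟩)
      have h3 := h2 (t + 1) (by simpa using ht)
      rw [cfgAt_cons] at h3
      exact h3

private theorem val_le (d : Dir) : |d.val| ≤ 1 := by
  cases d <;> simp [Dir.val]

private theorem pos_le (N : NTM) (n : ℕ) (l : List N.Tr) (t : ℕ) :
    |(cfgAt (N.init n) l t).pos| ≤ t := by
  induction t with
  | zero => simp [cfgAt, NTM.init]
  | succ t ih =>
    by_cases h : t < l.length
    · rw [cfgAt_succ _ _ _ h]
      have h1 := val_le (l[t]).2.2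
      have h2 := abs_add_le (cfgAt (N.init n) l t).pos (l[t]).2.2.val
      push_cast
      exact h2.trans (add_le_add ih h1)
    · have h1 : l.length ≤ t := by omega
      rw [cfgAt_len _ _ _ (show l.length ≤ t + 1 by omega), ← cfgAt_len _ _ _ h1]
      push_cast
      linarith

private theorem tape_eq (N : NTM) (n : ℕ) (l : List N.Tr) (t : ℕ) (x : ℤ) (hx : (t : ℤ) ≤ |x|) :
    (cfgAt (N.init n) l t).tape x = (N.init n).tape x := by
  induction t with
  | zero => simp [cfgAt]
  | succ t ih =>
    push_cast at hx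
    by_cases h : t < l.length
    · rw [cfgAt_succ _ _ _ h, ← ih (by linarith)]
      have h1 := pos_le N n l t
      refine Function.update_of_ne ?_ _ _
      rintro rfl
      linarith
    · have h1 : l.length ≤ t := by omega
      rw [cfgAt_len _ _ _ (show l.length ≤ t + 1 by omega), ← cfgAt_len _ _ _ h1]
      exact ih (by linarith)

/-- [n0] -/
theorem p_n0 : S_n0 :=
  ⟨fun _ => path_iff, pos_le, tape_eq, fun _ => cfgAt_succ, fun _ => cfgAt_len⟩

end Pool.Agent.Lib.MP_4b91fc_lc.GH
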