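import Pool.Agent.Lib.MP_4b91fc_lc.GH.Stm4

set_option autoImplicit false

/-!
# Piece n2: row `0` of an admissible word is the initial configuration
-/

namespace Pool.Agent.Lib.MP_4b91fc_lc.GH

open Finset Pool.Agent.PolyTime Turing

open scoped Nat

private theorem n2_next {Q Γ : Type} [DecidableEq Q] [DecidableEq Γ] (a b : Cell Q Γ) (g : Γ)
    (h1 : relH a b = true) (h2 : hasSym g b = true)
    (h3 : (∃ q γ c, a = .hd q γ c) ∨ ∃ γ, a = .tp γ true) : b = .tp g true := by
  cases b with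
  | bd => simp [hasSym] at h2
  | tp γ s =>
    have h4 : γ = g := by simpa [hasSym] using h2
    have h5 : s = true := by
      rcases h3 with ⟨q, γ', c, rfl⟩ | ⟨γ', rfl⟩
      · simpa [relH] using h1
      · simpa [relH] using h1
    rw [h4, h5]
  | hd q γ c =>
    exfalso
    rcases h3 with ⟨q', γ', c', rfl⟩ | ⟨γ', rfl⟩
    · simp [relH] at h1
    · simp [relH] at h1

private theorem n2_head {Q Γ : Type} [DecidableEq Q] [DecidableEq Γ] (q : Q) (g : Γ)
    (a : Cell Q Γ) (h1 : hasHd q a = true) (h2 : hasSym g a = true) :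
    ∃ c, a = .hd q g c := by
  cases a with
  | bd => simp [hasHd] at h1
  | tp γ s => simp [hasHd] at h1
  | hd q' γ c =>
    have h3 : q' = q := by simpa [hasHd] using h1
    have h4 : γ = g := by simpa [hasSym] using h2
    exact ⟨c, by rw [h3, h4]⟩

/-- the symbols of the first row -/
private def n2_sy (N : NTM) (n T k : ℕ) : N.Γ := if k < T + 2 + n then N.one else N.blank

private theorem n2_tape (N : NTM) (n T k : ℕ) (h : T + 2 ≤ k) :
    (N.init n).tape ((k : ℤ) - ((T : ℤ) + 2)) = n2_sy N n T k := by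
  unfold n2_sy
  change (if 0 ≤ (k : ℤ) - ((T : ℤ) + 2) ∧ (k : ℤ) - ((T : ℤ) + 2) < n then N.one else N.blank) = _
  by_cases h1 : k < T + 2 + n
  · rw [if_pos h1, if_pos]
    constructor
    · omega
    · omega
  · rw [if_neg h1, if_neg]
    omega

private theorem n2_tape' (N : NTM) (n T k : ℕ) (h : k < T + 2) :
    (N.init n).tape ((k : ℤ) - ((T : ℤ) + 2)) = N.blank := by
  change (if 0 ≤ (k : ℤ) - ((T : ℤ) + 2) ∧ (k : ℤ) - ((T : ℤ) + 2) < n then N.one else N.blank) = _
  rw [if_neg]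
  omega

/-- Piece n2. -/
theorem p_n2 : S_n2 := by
  intro N n T f hok
  obtain ⟨hrel, hun⟩ := hok
  have hWM : Wd n T ≤ Mw n T := Nat.le_mul_of_pos_right _ (Nat.succ_pos T)
  have hW : Wd n T = 2 * T + n + 5 := rfl
  have hH : ∀ k l : Fin (Mw n T), (l : ℕ) = k + 1 → relH (f k) (f l) = true :=
    fun k l h => hrel (0 : Fin 4) k l h
  have hU1 : ∀ k : Fin (Mw n T), (k : ℕ) < 1 → decide (f k = .bd) = true :=
    fun k h => hun (1 : Fin 6) k (Nat.zero_le _) h
  have hU2 : ∀ k : Fin (Mw n T), 1 ≤ (k : ℕ) → (k : ℕ) < T + 2 →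
      decide (f k = .tp N.blank false) = true :=
    fun k h h' => hun (2 : Fin 6) k h h'
  have hU3 : ∀ k : Fin (Mw n T), T + 2 ≤ (k : ℕ) → (k : ℕ) < T + 3 →
      hasHd N.start (f k) = true :=
    fun k h h' => hun (3 : Fin 6) k h h'
  have hU4 : ∀ k : Fin (Mw n T), T + 2 ≤ (k : ℕ) → (k : ℕ) < T + 2 + n →
      hasSym N.one (f k) = true :=
    fun k h h' => hun (4 : Fin 6) k h h'
  have hU5 : ∀ k : Fin (Mw n T), T + 2 + n ≤ (k : ℕ) → (k : ℕ) < Wd n T →
      hasSym N.blank (f k) = true :=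
    fun k h h' => hun (5 : Fin 6) k h h'
  have hsy : ∀ k : Fin (Mw n T), T + 2 ≤ (k : ℕ) → (k : ℕ) < Wd n T →
      hasSym (n2_sy N n T k) (f k) = true := by
    intro k h h'
    unfold n2_sy
    by_cases h1 : (k : ℕ) < T + 2 + n
    · rw [if_pos h1]
      exact hU4 k h h1
    · rw [if_neg h1]
      exact hU5 k (by omega) h'
  have h0 : T + 2 < Mw n T := by omega
  obtain ⟨ch, hch⟩ := n2_head N.start (n2_sy N n T (T + 2)) (f ⟨T + 2, h0⟩)
    (hU3 ⟨T + 2, h0⟩ le_rfl (Nat.lt_succ_self _)) (hsy ⟨T + 2, h0⟩ le_rfl (by show T + 2 < Wd n T; omega))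
  have hr : ∀ (d : ℕ) (k : Fin (Mw n T)), (k : ℕ) = T + 3 + d → (k : ℕ) < Wd n T →
      f k = .tp (n2_sy N n T k) true := by
    intro d
    induction d with
    | zero =>
      intro k hk hkW
      exact n2_next (f ⟨T + 2, h0⟩) (f k) _
        (hH ⟨T + 2, h0⟩ k (by show (k : ℕ) = T + 2 + 1; omega)) (hsy k (by omega) hkW)
        (Or.inl ⟨_, _, _, hch⟩)
    | succ d ih =>
      intro k hk hkW
      have h1 : T + 3 + d < Mw n T := by omega
      have h2 := ih ⟨T + 3 + d, h1⟩ rfl (by show T + 3 + d < Wd n T; omega)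
      exact n2_next (f ⟨T + 3 + d, h1⟩) (f k) _
        (hH ⟨T + 3 + d, h1⟩ k (by show (k : ℕ) = T + 3 + d + 1; omega)) (hsy k (by omega) hkW)
        (Or.inr ⟨_, h2⟩)
  refine ⟨ch, ?_⟩
  intro k hk
  have hkW : (k : ℕ) < Wd n T := by
    rcases Nat.div_eq_zero_iff.1 hk with h | h
    · omega
    · exact h
  rw [Nat.mod_eq_of_lt hkW]
  by_cases hk0 : (k : ℕ) = 0
  · rw [if_pos hk0]
    exact of_decide_eq_true (hU1 k (by omega))
  · rw [if_neg hk0]
    unfold cellAt
    have hpos : (N.init n).pos = 0 := rfl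
    have hq : (N.init n).q = N.start := rfl
    rw [hpos, hq]
    rcases lt_trichotomy (k : ℕ) (T + 2) with h | h | h
    · rw [if_neg (by omega), n2_tape' N n T k h, decide_eq_false (by omega)]
      exact of_decide_eq_true (hU2 k (by omega) h)
    · rw [if_pos (by omega), n2_tape N n T k (by omega)]
      have h2 : k = ⟨T + 2, h0⟩ := Fin.ext h
      rw [h2, hch]
    · rw [if_neg (by omega), n2_tape N n T k (by omega), decide_eq_true (by omega)]
      exact hr (k - (T + 3)) k (by omega) hkW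

end Pool.Agent.Lib.MP_4b91fc_lc.GH
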