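import Pool.Agent.Lib.MP_4b91fc_lc.GH.Stm4

set_option autoImplicit false

/-!
# `S_n3`: the next row of an admissible word
-/

namespace Pool.Agent.Lib.MP_4b91fc_lc.GH

open Finset

section cells

variable {Q Γ : Type} [DecidableEq Q] [DecidableEq Γ]

/-- the symbol of a cell -/
private def n3_sym : Cell Q Γ → Option Γ
  | .bd => none
  | .tp g _ => some g
  | .hd _ g _ => some g

/-- the symbol of the cell below -/
private def n3_new : Cell Q Γ → Option Γ
  | .bd => none
  | .tp g _ => some g
  | .hd _ g none => some g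
  | .hd _ _ (some τ) => some τ.2.1

private lemma n3_symV {a b : Cell Q Γ} (h : relV a b = true) : n3_sym b = n3_new a := by
  cases a with
  | bd => cases b <;> simp_all [relV, n3_sym, n3_new]
  | tp g s => cases b <;> simp_all [relV, n3_sym, n3_new]
  | hd q g c =>
    cases c <;> cases b <;> simp_all [relV, n3_sym, n3_new]

private lemma n3_bdV {a b : Cell Q Γ} (h : relV a b = true) : a = .bd ↔ b = .bd := by
  cases a with
  | bd => cases b <;> simp_all [relV]
  | tp g s => cases b <;> simp_all [relV]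
  | hd q g c =>
    cases c <;> cases b <;> simp_all [relV]

private lemma n3_Hhd {a : Cell Q Γ} {q : Q} {g : Γ} {c : Option (Q × Γ × Dir)} (ha : a ≠ .bd)
    (h : relH a (.hd q g c) = true) : ∃ g', a = .tp g' false := by
  cases a with
  | bd => exact absurd rfl ha
  | tp g' s => cases s <;> simp_all [relH]
  | hd q' g' c' => simp_all [relH]

private lemma n3_Htf {a : Cell Q Γ} {g : Γ} (ha : a ≠ .bd)
    (h : relH a (.tp g false) = true) : ∃ g', a = .tp g' false := by
  cases a with
  | bd => exact absurd rfl ha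
  | tp g' s => cases s <;> simp_all [relH]
  | hd q' g' c' => simp_all [relH]

private lemma n3_hdH {a : Cell Q Γ} {q : Q} {g : Γ} {c : Option (Q × Γ × Dir)} (ha : a ≠ .bd)
    (h : relH (.hd q g c) a = true) : ∃ g', a = .tp g' true := by
  cases a with
  | bd => exact absurd rfl ha
  | tp g' s => cases s <;> simp_all [relH]
  | hd q' g' c' => simp_all [relH]

private lemma n3_ttH {a : Cell Q Γ} {g : Γ} (ha : a ≠ .bd)
    (h : relH (.tp g true) a = true) : ∃ g', a = .tp g' true := by
  cases a with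
  | bd => exact absurd rfl ha
  | tp g' s => cases s <;> simp_all [relH]
  | hd q' g' c' => simp_all [relH]

private lemma n3_left {W P0 : ℕ} {B : ℕ → Cell Q Γ} (hb : ∀ j, 1 ≤ j → j < W → B j ≠ .bd)
    (hH : ∀ j, j + 1 < W → relH (B j) (B (j + 1)) = true) (hP : P0 < W) {q : Q} {g : Γ}
    {c : Option (Q × Γ × Dir)} (h0 : B P0 = .hd q g c) :
    ∀ d j, j + d + 1 = P0 → 1 ≤ j → ∃ g', B j = .tp g' false := by
  intro d
  induction d with
  | zero =>
    intro j hj h1
    have h2 := hH j (by omega)
    rw [show j + 1 = P0 by omega, h0] at h2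
    exact n3_Hhd (hb j h1 (by omega)) h2
  | succ d ih =>
    intro j hj h1
    obtain ⟨g', hg⟩ := ih (j + 1) (by omega) (by omega)
    have h2 := hH j (by omega)
    rw [hg] at h2
    exact n3_Htf (hb j h1 (by omega)) h2

private lemma n3_right {W P0 : ℕ} {B : ℕ → Cell Q Γ} (hb : ∀ j, 1 ≤ j → j < W → B j ≠ .bd)
    (hH : ∀ j, j + 1 < W → relH (B j) (B (j + 1)) = true) {q : Q} {g : Γ}
    {c : Option (Q × Γ × Dir)} (h0 : B P0 = .hd q g c) :
    ∀ d, P0 + d + 1 < W → ∃ g', B (P0 + d + 1) = .tp g' true := by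
  intro d
  induction d with
  | zero =>
    intro hj
    have h2 := hH P0 (by omega)
    rw [h0] at h2
    exact n3_hdH (hb (P0 + 1) (by omega) hj) h2
  | succ d ih =>
    intro hj
    obtain ⟨g', hg⟩ := ih (by omega)
    have h2 := hH (P0 + d + 1) (by omega)
    rw [hg] at h2
    exact n3_ttH (hb (P0 + d + 1 + 1) (by omega) hj) h2

private lemma n3_hasHd {q : Q} {a : Cell Q Γ} (h : hasHd q a = true) :
    ∃ g c, a = .hd q g c := by
  cases a with
  | bd => simp [hasHd] at h
  | tp g s => simp [hasHd] at h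
  | hd q' g c =>
    simp only [hasHd, decide_eq_true_eq] at h
    exact ⟨g, c, by rw [h]⟩

end cells

private lemma n3_facts (N : NTM) (n T : ℕ) (f : Fin (Mw n T) → Cell N.Q N.Γ)
    (h : (WPn N).Ok (Mw n T) (ew n T) (xw n T) (yw n T) f) :
    (∀ k l : Fin (Mw n T), (l : ℕ) = k + 1 → relH (f k) (f l) = true) ∧
    (∀ k l : Fin (Mw n T), (l : ℕ) = k + Wd n T → relV (f k) (f l) = true) ∧
    (∀ k l : Fin (Mw n T), (l : ℕ) = k + (Wd n T - 1) → relL (f k) (f l) = true) ∧
    (∀ k l : Fin (Mw n T), (l : ℕ) = k + (Wd n T + 1) → relR (f k) (f l) = true) :=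
  ⟨fun k l e => h.1 (0 : Fin 4) k l e, fun k l e => h.1 (1 : Fin 4) k l e,
    fun k l e => h.1 (2 : Fin 4) k l e, fun k l e => h.1 (3 : Fin 4) k l e⟩

private lemma n3_bound {n T t j : ℕ} (ht : t ≤ T) (hj : j < Wd n T) :
    t * Wd n T + j < Mw n T := by
  have h1 : (t + 1) * Wd n T ≤ (T + 1) * Wd n T := Nat.mul_le_mul_right _ (by omega)
  have h2 : (t + 1) * Wd n T = t * Wd n T + Wd n T := by ring
  have h3 : Mw n T = (T + 1) * Wd n T := by unfold Mw; ring
  omega

theorem p_n3 : S_n3 := by
  intro N n T t f c ch hok ht hpos hrow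
  obtain ⟨hH, hV, hL, hR⟩ := n3_facts N n T f hok
  have hW : Wd n T = 2 * T + n + 5 := rfl
  have hWpos : 0 < Wd n T := by omega
  have htW : (t + 1) * Wd n T = t * Wd n T + Wd n T := by ring
  obtain ⟨A, hA⟩ : ∃ A : ℕ → Cell N.Q N.Γ, ∀ j (h : j < Wd n T),
      A j = f ⟨t * Wd n T + j, n3_bound ht.le h⟩ :=
    ⟨fun j => if h : j < Wd n T then f ⟨t * Wd n T + j, n3_bound ht.le h⟩ else .bd,
      fun j h => dif_pos h⟩
  obtain ⟨B, hB⟩ : ∃ B : ℕ → Cell N.Q N.Γ, ∀ j (h : j < Wd n T),
      B j = f ⟨(t + 1) * Wd n T + j, n3_bound ht h⟩ :=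
    ⟨fun j => if h : j < Wd n T then f ⟨(t + 1) * Wd n T + j, n3_bound ht h⟩ else .bd,
      fun j h => dif_pos h⟩
  have hAV : ∀ j, j < Wd n T → relV (A j) (B j) = true := by
    intro j h
    rw [hA j h, hB j h]
    refine hV _ _ ?_
    change (t + 1) * Wd n T + j = t * Wd n T + j + Wd n T
    omega
  have hBH : ∀ j, j + 1 < Wd n T → relH (B j) (B (j + 1)) = true := by
    intro j h
    rw [hB j (by omega), hB (j + 1) h]
    refine hH _ _ ?_
    change (t + 1) * Wd n T + (j + 1) = (t + 1) * Wd n T + j + 1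
    omega
  have hAL : ∀ j, j + 1 < Wd n T → relL (A (j + 1)) (B j) = true := by
    intro j h
    rw [hA (j + 1) h, hB j (by omega)]
    refine hL _ _ ?_
    change (t + 1) * Wd n T + j = t * Wd n T + (j + 1) + (Wd n T - 1)
    omega
  have hAR : ∀ j, j + 1 < Wd n T → relR (A j) (B (j + 1)) = true := by
    intro j h
    rw [hA j (by omega), hB (j + 1) h]
    refine hR _ _ ?_
    change (t + 1) * Wd n T + (j + 1) = t * Wd n T + j + (Wd n T + 1)
    omega
  have hArow : ∀ j, j < Wd n T → A j =
      if j = 0 then .bd else cellAt c ch ((j : ℤ) - ((T : ℤ) + 2)) := by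
    intro j h
    rw [hA j h]
    have h1 : (t * Wd n T + j) / Wd n T = t := by
      rw [Nat.add_comm, Nat.add_mul_div_right _ _ hWpos, Nat.div_eq_of_lt h, zero_add]
    have h2 : (t * Wd n T + j) % Wd n T = j := by
      rw [Nat.add_comm, Nat.add_mul_mod_self_right, Nat.mod_eq_of_lt h]
    have h3 := hrow ⟨t * Wd n T + j, n3_bound ht.le h⟩ h1
    rw [h3]
    simp only [h2]
  clear hH hV hL hR hrow hA
  -- the column of the head
  obtain ⟨hp1, hp2⟩ := abs_le.mp hpos
  obtain ⟨P, hP⟩ : ∃ P : ℕ, (P : ℤ) = c.pos + T + 2 :=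
    ⟨(c.pos + T + 2).toNat, Int.toNat_of_nonneg (by omega)⟩
  have hAP : A P = .hd c.q (c.tape c.pos) ch := by
    rw [hArow P (by omega), if_neg (by omega)]
    unfold cellAt
    rw [if_pos (by omega)]
    rw [show (P : ℤ) - ((T : ℤ) + 2) = c.pos by omega]
  have hAj : ∀ j, 1 ≤ j → j < Wd n T → j ≠ P →
      ∃ s, A j = .tp (c.tape ((j : ℤ) - ((T : ℤ) + 2))) s := by
    intro j h1 h2 h3
    rw [hArow j h2, if_neg (by omega)]
    unfold cellAt
    rw [if_neg (by omega)]
    exact ⟨_, rfl⟩
  have hA0 : A 0 = .bd := by rw [hArow 0 hWpos, if_pos rfl]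
  have hB0 : B 0 = .bd := (n3_bdV (hAV 0 hWpos)).mp hA0
  have hBb : ∀ j, 1 ≤ j → j < Wd n T → B j ≠ .bd := by
    intro j h1 h2 h3
    have h4 := (n3_bdV (hAV j h2)).mpr h3
    by_cases h5 : j = P
    · rw [h5, hAP] at h4
      simp at h4
    · obtain ⟨s, hs⟩ := hAj j h1 h2 h5
      rw [hs] at h4
      simp at h4
  -- the symbols
  have hsym : ∀ j, 1 ≤ j → j < Wd n T → n3_sym (B j) =
      some ((ch.elim c (fun τ => c.next τ)).tape ((j : ℤ) - ((T : ℤ) + 2))) := by
    intro j h1 h2
    rw [n3_symV (hAV j h2)]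
    by_cases h5 : j = P
    · rw [h5, hAP, show (P : ℤ) - ((T : ℤ) + 2) = c.pos by omega]
      cases ch with
      | none => rfl
      | some τ =>
        change some τ.2.1 = some (Function.update c.tape c.pos τ.2.1 c.pos)
        rw [Function.update_self]
    · obtain ⟨s, hs⟩ := hAj j h1 h2 h5
      rw [hs]
      cases ch with
      | none => rfl
      | some τ =>
        change some _ = some (Function.update c.tape c.pos τ.2.1 _)
        rw [Function.update_of_ne (by omega)]
  -- the head of the next row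
  obtain ⟨P1, g1, ch', hP1, hP1a, hP1b, hBP, hnone⟩ : ∃ (P1 : ℕ) (g1 : N.Γ) (ch' : Option N.Tr),
      (P1 : ℤ) = (ch.elim c (fun τ => c.next τ)).pos + T + 2 ∧ 1 ≤ P1 ∧ P1 < Wd n T ∧
      B P1 = .hd (ch.elim c (fun τ => c.next τ)).q g1 ch' ∧ (ch = none → ch' = none) := by
    cases ch with
    | none =>
      have h1 := hAV P (by omega)
      rw [hAP] at h1
      refine ⟨P, c.tape c.pos, none, hP, by omega, by omega, ?_, fun _ => rfl⟩
      change B P = .hd c.q (c.tape c.pos) none
      revert h1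
      cases B P with
      | bd => simp [relV]
      | tp g s => simp [relV]
      | hd q' g' c' =>
        simp only [relV, decide_eq_true_eq]
        rintro ⟨rfl, rfl, rfl⟩
        rfl
    | some τ =>
      obtain ⟨q1, γ1, d⟩ := τ
      cases d with
      | left =>
        obtain ⟨P', rfl⟩ : ∃ P', P = P' + 1 := ⟨P - 1, by omega⟩
        have h1 := hAL P' (by omega)
        rw [hAP] at h1
        simp only [relL, decide_eq_true_eq, true_implies] at h1
        obtain ⟨g, c', hg⟩ := n3_hasHd h1
        refine ⟨P', g, c', ?_, by omega, by omega, hg, fun h => by simp at h⟩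
        change (P' : ℤ) = c.pos + -1 + T + 2
        push_cast at hP
        omega
      | stay =>
        have h1 := hAV P (by omega)
        rw [hAP] at h1
        have h2 : ∃ g c', B P = .hd q1 g c' := by
          revert h1
          cases B P with
          | bd => simp [relV]
          | tp g s => simp [relV]
          | hd q' g' c' =>
            simp only [relV, decide_eq_true_eq]
            rintro ⟨-, rfl, rfl⟩
            exact ⟨_, _, rfl⟩
        obtain ⟨g, c', hg⟩ := h2
        refine ⟨P, g, c', ?_, by omega, by omega, hg, fun h => by simp at h⟩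
        change (P : ℤ) = c.pos + 0 + T + 2
        omega
      | right =>
        have h1 := hAR P (by omega)
        rw [hAP] at h1
        simp only [relR, decide_eq_true_eq, true_implies] at h1
        obtain ⟨g, c', hg⟩ := n3_hasHd h1
        refine ⟨P + 1, g, c', ?_, by omega, by omega, hg, fun h => by simp at h⟩
        change ((P + 1 : ℕ) : ℤ) = c.pos + 1 + T + 2
        push_cast
        omega
  -- assembly
  refine ⟨ch', ?_, hnone⟩
  intro k hk
  have hj : (k : ℕ) % Wd n T < Wd n T := Nat.mod_lt _ hWpos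
  have hkj : (k : ℕ) = (t + 1) * Wd n T + (k : ℕ) % Wd n T := by
    have h1 := Nat.div_add_mod (k : ℕ) (Wd n T)
    rw [hk, mul_comm] at h1
    exact h1.symm
  have hfk : f k = B ((k : ℕ) % Wd n T) := by
    rw [hB _ hj]
    congr 1
    exact Fin.ext hkj
  rw [hfk]
  generalize (k : ℕ) % Wd n T = j at hj ⊢
  split_ifs with h0
  · rw [h0, hB0]
  · have h1 : 1 ≤ j := by omega
    have hs := hsym j h1 hj
    unfold cellAt
    rcases lt_trichotomy j P1 with h2 | h2 | h2
    · obtain ⟨g, hg⟩ := n3_left hBb hBH hP1b hBP (P1 - j - 1) j (by omega) h1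
      rw [hg] at hs ⊢
      rw [if_neg (by omega)]
      rw [decide_eq_false (by omega)]
      change some g = _ at hs
      rw [Option.some.inj hs]
    · subst h2
      rw [hBP] at hs ⊢
      rw [if_pos (by omega)]
      change some g1 = _ at hs
      rw [Option.some.inj hs]
    · obtain ⟨g, hg⟩ := n3_right hBb hBH hBP (j - P1 - 1) (by omega)
      rw [show P1 + (j - P1 - 1) + 1 = j by omega] at hg
      rw [hg] at hs ⊢
      rw [if_neg (by omega)]
      rw [decide_eq_true (by omega)]
      change some g = _ at hs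
      rw [Option.some.inj hs]

end Pool.Agent.Lib.MP_4b91fc_lc.GH
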