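import Pool.Agent.Lib.MP_4b91fc_lc.GH.Stm4

set_option autoImplicit false

/-!
# `#GRAPHS` is hard for `#P_1`: piece n3v
-/

namespace Pool.Agent.Lib.MP_4b91fc_lc.GH

open Finset

open scoped Nat

/-- **[n3v]** -/
theorem p_n3v : S_n3v := by
  intro N n T t f c ch hok ht hpos hrow
  obtain ⟨j, hj⟩ : ∃ j : ℕ, (j : ℤ) = c.pos + (T + 2) := by
    refine ⟨(c.pos + (T + 2)).toNat, Int.toNat_of_nonneg ?_⟩
    have := abs_le.1 hpos
    linarith [this.1]
  have hb := abs_le.1 hpos
  have hj0 : 0 < j := by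
    have : (0 : ℤ) < j := by rw [hj]; linarith [hb.1]
    exact_mod_cast this
  have hjW : j < Wd n T := by
    have : (j : ℤ) < Wd n T := by
      unfold Wd
      push_cast
      rw [hj]
      have h0 : (0 : ℤ) ≤ n := Int.natCast_nonneg n
      have h1 : (0 : ℤ) ≤ T := Int.natCast_nonneg T
      linarith [hb.2]
    exact_mod_cast this
  have hk : t * Wd n T + j < Mw n T := by
    unfold Mw
    calc t * Wd n T + j < t * Wd n T + Wd n T := by omega
      _ = Wd n T * (t + 1) := by ring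
      _ ≤ Wd n T * (T + 1) := Nat.mul_le_mul_left _ (by omega)
  have hmod : (t * Wd n T + j) % Wd n T = j := by
    rw [Nat.mul_comm, Nat.mul_add_mod]
    exact Nat.mod_eq_of_lt hjW
  have hdiv : (t * Wd n T + j) / Wd n T = t := by
    rw [Nat.mul_comm, Nat.mul_add_div (by omega), Nat.div_eq_of_lt hjW, add_zero]
  have h1 := hrow ⟨t * Wd n T + j, hk⟩ hdiv
  simp only [hmod] at h1
  rw [if_neg (by omega)] at h1
  have h2 : f ⟨t * Wd n T + j, hk⟩ = .hd c.q c.scan ch := by
    rw [h1, hj, add_sub_cancel_right]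
    unfold cellAt NTM.Cfg.scan
    rw [if_pos rfl]
  have h3 := hok.2 (0 : Fin 6) ⟨t * Wd n T + j, hk⟩ (Nat.zero_le _) hk
  rw [h2] at h3
  constructor
  · rintro rfl
    have h4 : decide (N.δ c.q c.scan = ∅ ∧ c.q ∈ N.acc) = true := h3
    have h5 : N.δ c.q c.scan = ∅ ∧ c.q ∈ N.acc := of_decide_eq_true h4
    exact h5
  · rintro τ rfl
    have h4 : decide (τ ∈ N.δ c.q c.scan) = true := h3
    exact of_decide_eq_true h4

end Pool.Agent.Lib.MP_4b91fc_lc.GH
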