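import Pool.Agent.Lib.MP_4b91fc_lc.GH.Stm4

set_option autoImplicit false

/-!
# `#GRAPHS` is hard for `#P_1`: every admissible word is a tableau
-/

namespace Pool.Agent.Lib.MP_4b91fc_lc.GH

private theorem n4_path_append {N : NTM} {τ : N.Tr} : ∀ (l : List N.Tr) (c c' : N.Cfg),
    NTM.Path c l c' → τ ∈ N.δ c'.q c'.scan → NTM.Path c (l ++ [τ]) (c'.next τ) := by
  intro l
  induction l with
  | nil =>
    intro c c' h hτ
    cases h
    exact NTM.Path.cons _ _ _ _ hτ (NTM.Path.nil _)
  | cons a l ih =>
    intro c c' h hτ
    cases h with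
    | cons _ _ _ _ ha h =>
      exact NTM.Path.cons _ _ _ _ ha (ih _ _ h hτ)

theorem p_n4 : S_n4 := by
  intro h0 h2 h3 h3v N n T hT f hf
  obtain ⟨-, hpos, -, -, -⟩ := h0
  have key : ∀ t : ℕ, t ≤ T → ∃ l : List N.Tr, l.length ≤ t ∧
      NTM.Path (N.init n) l (l.foldl NTM.Cfg.next (N.init n)) ∧
      (∀ s < t, RowIs n T f s (cfgAt (N.init n) l s) l[s]?) ∧
      ∃ ch : Option N.Tr, RowIs n T f t (cfgAt (N.init n) l t) ch ∧
        (l.length < t → ch = none ∧ (l.foldl NTM.Cfg.next (N.init n)).Halted ∧
          (l.foldl NTM.Cfg.next (N.init n)).q ∈ N.acc) := by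
    intro t
    induction t with
    | zero =>
      intro _
      obtain ⟨ch, hch⟩ := h2 N n T f hf
      exact ⟨[], le_rfl, NTM.Path.nil _, fun s hs => absurd hs (Nat.not_lt_zero s), ch, hch,
        fun h => absurd h (Nat.not_lt_zero _)⟩
    | succ t ih =>
      intro ht
      obtain ⟨l, hl, hp, hrow, ch, hch, hend⟩ := ih (by omega)
      have htake : l.take t = l := List.take_of_length_le hl
      have hc : cfgAt (N.init n) l t = l.foldl NTM.Cfg.next (N.init n) := by
        rw [cfgAt, htake]
      have hc1 : cfgAt (N.init n) l (t + 1) = l.foldl NTM.Cfg.next (N.init n) := by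
        rw [cfgAt, List.take_of_length_le (by omega)]
      have hpt : |(cfgAt (N.init n) l t).pos| ≤ (t : ℤ) := hpos N n l t
      have hpT : |(cfgAt (N.init n) l t).pos| ≤ (T : ℤ) := by
        have : (t : ℤ) ≤ T := by exact_mod_cast (by omega : t ≤ T)
        omega
      obtain ⟨ch', hch', hnone⟩ := h3 N n T t f _ ch hf (by omega) hpt hch
      obtain ⟨hv1, hv2⟩ := h3v N n T t f _ ch hf (by omega) hpT hch
      cases ch with
      | none =>
        obtain ⟨hH, hA⟩ := hv1 rfl
        refine ⟨l, by omega, hp, ?_, none, ?_, ?_⟩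
        · intro s hs
          rcases Nat.lt_succ_iff_lt_or_eq.1 hs with hs | hs
          · exact hrow s hs
          · subst hs
            rw [List.getElem?_eq_none hl]
            exact hch
        · have h1 := hch'
          rw [hnone rfl] at h1
          rw [hc1, ← hc]
          exact h1
        · intro _
          rw [hc] at hH hA
          exact ⟨rfl, hH, hA⟩
      | some τ =>
        have hlt : l.length = t := by
          by_contra hne
          have := (hend (by omega)).1
          cases this
        have hτ := hv2 τ rfl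
        rw [hc] at hτ
        have hfold : (l ++ [τ]).foldl NTM.Cfg.next (N.init n) =
            (l.foldl NTM.Cfg.next (N.init n)).next τ := by
          rw [List.foldl_append]
          rfl
        have htk : ∀ s ≤ t, cfgAt (N.init n) (l ++ [τ]) s = cfgAt (N.init n) l s := by
          intro s hs
          rw [cfgAt, cfgAt, List.take_append_of_le_length (by omega)]
        refine ⟨l ++ [τ], by simp [hlt], ?_, ?_, ch', ?_, ?_⟩
        · rw [hfold]
          exact n4_path_append l _ _ hp hτ
        · intro s hs
          rcases Nat.lt_succ_iff_lt_or_eq.1 hs with hs | hs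
          · rw [htk s hs.le, List.getElem?_append_left (by omega)]
            exact hrow s hs
          · subst hs
            rw [htk s le_rfl]
            have h5 : (l ++ [τ])[s]? = some τ := by
              rw [← hlt]
              simp
            rw [h5]
            exact hch
        · have h1 := hch'
          have h6 : cfgAt (N.init n) (l ++ [τ]) (t + 1) = (cfgAt (N.init n) l t).next τ := by
            rw [cfgAt, List.take_of_length_le (by simp [hlt]), hfold, hc]
          rw [h6]
          exact h1
        · intro h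
          simp [hlt] at h
  obtain ⟨l, hl, hp, hrow, ch, hch, hend⟩ := key T le_rfl
  have hlT := hT l _ hp
  obtain ⟨hn, hH, hA⟩ := hend hlT
  subst hn
  refine ⟨l, ⟨_, hp, hH, hA⟩, hlT, ?_⟩
  have hall : ∀ s ≤ T, RowIs n T f s (cfgAt (N.init n) l s) l[s]? := by
    intro s hs
    rcases hs.lt_or_eq with hs | hs
    · exact hrow s hs
    · subst hs
      rw [List.getElem?_eq_none hl]
      exact hch
  funext k
  have hk : (k : ℕ) / Wd n T ≤ T := by
    have h1 : (k : ℕ) < Wd n T * (T + 1) := k.2
    exact Nat.lt_succ_iff.1 (Nat.div_lt_of_lt_mul h1)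
  rw [hall _ hk k rfl]
  rfl

end Pool.Agent.Lib.MP_4b91fc_lc.GH
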