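import Pool.Agent.Lib.MP_4b91fc_lc.GH.Stm4

set_option autoImplicit false

/-!
Piece `[GH n5]` of `MP_4b91fc_lc`: the number of admissible words is the number of accepting
computations.
-/

namespace Pool.Agent.Lib.MP_4b91fc_lc.GH

open Finset

variable {N : NTM}

private theorem n5_tabl {n T : ℕ} (l : List N.Tr) (k : Fin (Mw n T)) (t j : ℕ)
    (hk : (k : ℕ) = Wd n T * t + j) (hj : j < Wd n T) :
    tabl N n T l k = if j = 0 then .bd
      else cellAt (cfgAt (N.init n) l t) l[t]? ((j : ℤ) - ((T : ℤ) + 2)) := by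
  have hW : 0 < Wd n T := lt_of_le_of_lt (Nat.zero_le _) hj
  have h1 : (k : ℕ) / Wd n T = t := by
    rw [hk, Nat.mul_add_div hW, Nat.div_eq_of_lt hj, add_zero]
  have h2 : (k : ℕ) % Wd n T = j := by
    rw [hk, Nat.mul_add_mod, Nat.mod_eq_of_lt hj]
  unfold tabl
  rw [h1, h2]

/-- the head cell of row `t` -/
private theorem n5_head (h0 : S_n0) {n T : ℕ} (t : ℕ) (ht : t ≤ T) (l : List N.Tr) :
    ∃ k : Fin (Mw n T), ∀ l' : List N.Tr, l'.take t = l.take t →
      tabl N n T l' k = .hd (cfgAt (N.init n) l t).q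
        ((cfgAt (N.init n) l t).tape (cfgAt (N.init n) l t).pos) l'[t]? := by
  set c := cfgAt (N.init n) l t with hc
  have hp : |c.pos| ≤ t := h0.2.1 N n l t
  rw [abs_le] at hp
  obtain ⟨j, hj⟩ : ∃ j : ℕ, (j : ℤ) = c.pos + (T + 2) :=
    ⟨(c.pos + (T + 2)).toNat, Int.toNat_of_nonneg (by omega)⟩
  have hj0 : j ≠ 0 := by omega
  have hjW : j < Wd n T := by unfold Wd; omega
  have hkM : Wd n T * t + j < Mw n T := by
    have h1 : Wd n T * t + Wd n T ≤ Wd n T * (T + 1) := by
      rw [← Nat.mul_succ]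
      exact Nat.mul_le_mul_left _ (by omega)
    unfold Mw
    omega
  refine ⟨⟨_, hkM⟩, fun l' hl' => ?_⟩
  have hc' : cfgAt (N.init n) l' t = c := by
    rw [hc]
    unfold cfgAt
    rw [hl']
  rw [n5_tabl l' ⟨_, hkM⟩ t j rfl hjW, if_neg hj0, hc']
  have hx : (j : ℤ) - ((T : ℤ) + 2) = c.pos := by omega
  rw [hx]
  unfold cellAt
  rw [if_pos rfl]

private theorem n5_inj (h0 : S_n0) {n T : ℕ} {l l' : List N.Tr} (hl : l.length < T)
    (hl' : l'.length < T) (h : tabl N n T l = tabl N n T l') : l = l' := by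
  have key : ∀ t : ℕ, t ≤ T → l.take t = l'.take t := by
    intro t
    induction t with
    | zero => intro _; rfl
    | succ t ih =>
      intro ht
      have h1 := ih (by omega)
      obtain ⟨k, hk⟩ := n5_head (n := n) h0 t (by omega : t ≤ T) l
      have h2 := hk l rfl
      have h3 := hk l' h1.symm
      rw [← h, h2] at h3
      have h4 : l[t]? = l'[t]? := by
        injection h3
      rw [List.take_add_one, List.take_add_one, h1, h4]
  have h1 := key T le_rfl
  rwa [List.take_of_length_le hl.le, List.take_of_length_le hl'.le] at h1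

theorem p_n5 : S_n5 := by
  intro h0 h1 h4 h2 h3 h3v N n T hT
  have hlen : ∀ l, N.Accepts n l → l.length < T := by
    rintro l ⟨c, hp, -⟩
    exact hT l c hp
  unfold WP.count NTM.numAcc
  symm
  apply Nat.card_eq_of_bijective (fun l : {l : List N.Tr // N.Accepts n l} =>
    (⟨tabl N n T l.1, h1 h0 N n T l.1 l.2 (hlen _ l.2)⟩ :
      {f : Fin (Mw n T) → (WPn N).A // (WPn N).Ok (Mw n T) (ew n T) (xw n T) (yw n T) f}))
  constructor
  · rintro ⟨l, hl⟩ ⟨l', hl'⟩ h
    apply Subtype.ext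
    exact n5_inj h0 (hlen l hl) (hlen l' hl') (congrArg Subtype.val h)
  · rintro ⟨f, hf⟩
    obtain ⟨l, ha, -, hfl⟩ := h4 h0 h2 h3 h3v N n T hT f hf
    exact ⟨⟨l, ha⟩, Subtype.ext hfl.symm⟩

end Pool.Agent.Lib.MP_4b91fc_lc.GH
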