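import Pool.Agent.Lib.MP_4b91fc_lc.GH.Stm2

set_option autoImplicit false

/-!
# `#GRAPHS` is hard for `#P_1`: piece np
-/

namespace Pool.Agent.Lib.MP_4b91fc_lc.GH

open Finset Pool.Agent.PolyTime

open scoped Nat

private lemma np_ex (c x : ℕ) (L : List ℕ) (hx : 1 ≤ x) (hL : L.length < c) :
    ∃ p, x < p ∧ p.Prime ∧ p ∉ L ∧ p ≤ 2 ^ c * x := by
  by_contra hcon
  push Not at hcon
  have h0 : ∀ t : ℕ, ∃ p, Nat.Prime p ∧ 2 ^ t * x < p ∧ p ≤ 2 * (2 ^ t * x) := fun t =>
    Nat.exists_prime_lt_and_le_two_mul _ (Nat.mul_ne_zero (by positivity) (by omega))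
  choose f hf1 hf2 hf3 using h0
  have hmono : StrictMono f := by
    apply strictMono_nat_of_lt_succ
    intro t
    have h1 := hf3 t
    have h2 := hf2 (t + 1)
    rw [pow_succ'] at h2
    have h3 : 2 * 2 ^ t * x = 2 * (2 ^ t * x) := by ring
    omega
  have hsub : (range c).image f ⊆ L.toFinset := by
    intro p hp
    rw [mem_image] at hp
    obtain ⟨t, ht, rfl⟩ := hp
    rw [mem_range] at ht
    rw [List.mem_toFinset]
    by_contra hno
    have h1 : x < f t := by
      have h2 := hf2 t
      have h3 : 1 * x ≤ 2 ^ t * x := Nat.mul_le_mul_right _ Nat.one_le_two_pow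
      omega
    have h4 := hcon (f t) h1 (hf1 t) hno
    have h5 : f t ≤ 2 ^ c * x := by
      have h6 := hf3 t
      have h7 : 2 ^ (t + 1) * x ≤ 2 ^ c * x :=
        Nat.mul_le_mul_right _ (Nat.pow_le_pow_right (by omega) (by omega))
      have h8 : 2 ^ (t + 1) * x = 2 * (2 ^ t * x) := by ring
      omega
    omega
  have h1 := card_le_card hsub
  rw [card_image_of_injective _ hmono.injective, card_range] at h1
  have h2 := List.toFinset_card_le L
  omega

/-- **[np]** -/
theorem p_np : S_np := by
  constructor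
  · intro c x L hx hL
    obtain ⟨p, h1, h2, h3, h4⟩ := np_ex c x L hx hL
    unfold np
    cases hf : (List.range (2 ^ c * x + 1)).find? (fun p => decide (x < p ∧ p.Prime ∧ p ∉ L)) with
    | none =>
      exfalso
      rw [List.find?_eq_none] at hf
      exact hf p (List.mem_range.2 (by omega)) (decide_eq_true ⟨h1, h2, h3⟩)
    | some q =>
      have h5' := List.find?_some hf
      have h5 : x < q ∧ q.Prime ∧ q ∉ L := by simpa using h5'
      have h6 := List.mem_range.1 (List.mem_of_find?_eq_some hf)
      rw [Option.getD_some]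
      exact ⟨h5.2.1, h5.1, by omega, h5.2.2⟩
  · intro c α _ x L hx hL
    have h1 : PTime (fun a => (List.range (2 ^ c * x a + 1)).find?
        (fun p => decide (x a < p ∧ p.Prime ∧ p ∉ L a))) := by
      refine PTime.find? (p := fun a p => decide (x a < p ∧ p.Prime ∧ p ∉ L a))
        (PTime.range (PTime.succ (PTime.mul (PTime.const _) hx))) ?_
      refine (PTime.and (PTime.nat_lt (hx.comp PTime.fst) PTime.snd)
        (PTime.and (ptime_prime PTime.snd)
          (PTime.not (PTime.mem PTime.snd (hL.comp PTime.fst))))).of_eq fun q => ?_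
      rw [Bool.decide_and, Bool.decide_and, decide_not]
    refine (PTime.option_casesOn (g := fun _ => 0) (h := fun _ b => b) h1 (PTime.const 0)
      PTime.snd).of_eq fun a => ?_
    unfold np
    cases (List.range (2 ^ c * x a + 1)).find?
        (fun p => decide (x a < p ∧ p.Prime ∧ p ∉ L a)) <;> rfl

end Pool.Agent.Lib.MP_4b91fc_lc.GH
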