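import Pool.Agent.Lib.MP_4b91fc_lc.GH.Stm3

set_option autoImplicit false

/-!
# `S_pa`: the coprime set of smallest sum
-/

namespace Pool.Agent.Lib.MP_4b91fc_lc.GH

open Finset

private lemma pa_sum {f : ℕ → ℕ} (hf : StrictMono f) {i t : ℕ} {I : Finset ℕ} (hc : I.card = t)
    (hi : ∀ k ∈ I, i ≤ k) (hne : I ≠ Finset.Ico i (i + t)) :
    ∑ k ∈ Finset.Ico i (i + t), f k < ∑ k ∈ I, f k := by
  set J := Finset.Ico i (i + t) with hJ
  have hcJ : J.card = t := by rw [hJ, Nat.card_Ico]; omega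
  have h1 : ∑ k ∈ J \ I, f k + ∑ k ∈ J ∩ I, f k = ∑ k ∈ J, f k := by
    rw [add_comm]
    exact Finset.sum_inter_add_sum_sdiff J I f
  have h2 : ∑ k ∈ I \ J, f k + ∑ k ∈ J ∩ I, f k = ∑ k ∈ I, f k := by
    rw [add_comm, Finset.inter_comm]
    exact Finset.sum_inter_add_sum_sdiff I J f
  have hcd : (J \ I).card = (I \ J).card :=
    Finset.card_sdiff_comm (by rw [hcJ, hc])
  have hpos : (J \ I).Nonempty := by
    rw [Finset.nonempty_iff_ne_empty]
    intro h0
    have h3 : J ⊆ I := Finset.sdiff_eq_empty_iff_subset.mp h0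
    exact hne (Finset.eq_of_subset_of_card_le h3 (by rw [hcJ, hc])).symm
  have h3 : ∑ k ∈ J \ I, f k < (J \ I).card * f (i + t) := by
    rw [← smul_eq_mul, ← Finset.sum_const]
    refine Finset.sum_lt_sum_of_nonempty hpos fun k hk => ?_
    have h4 := (Finset.mem_sdiff.mp hk).1
    rw [hJ, Finset.mem_Ico] at h4
    exact hf h4.2
  have h4 : (I \ J).card * f (i + t) ≤ ∑ k ∈ I \ J, f k := by
    rw [← smul_eq_mul, ← Finset.sum_const]
    refine Finset.sum_le_sum fun k hk => ?_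
    obtain ⟨h5, h6⟩ := Finset.mem_sdiff.mp hk
    rw [hJ, Finset.mem_Ico, not_and] at h6
    exact hf.monotone (not_lt.mp (h6 (hi k h5)))
  rw [hcd] at h3
  omega

theorem p_pa : S_pa := by
  intro hpb i t X hPC hcard hsum hcop
  obtain ⟨hpr, hmono, hsurj, -⟩ := hpb
  have hidx : ∀ x ∈ X, ∃ k, pr k = x.minFac := fun x hx =>
    hsurj _ (Nat.minFac_prime (by have := hPC.1 x hx; omega))
  choose! idx hi using hidx
  have hdvd : ∀ x ∈ X, pr (idx x) ∣ x := fun x hx => by
    rw [hi x hx]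
    exact Nat.minFac_dvd x
  have hle : ∀ x ∈ X, pr (idx x) ≤ x := fun x hx =>
    Nat.le_of_dvd (by have := hPC.1 x hx; omega) (hdvd x hx)
  have hge : ∀ x ∈ X, i ≤ idx x := by
    intro x hx
    by_contra h
    push Not at h
    exact (hpr _).one_lt.ne' (Nat.Coprime.eq_one_of_dvd (hcop x hx (idx x) h).symm (hdvd x hx))
  have hinj : Set.InjOn idx X := by
    intro x hx y hy hxy
    by_contra hne
    have h1 : Nat.gcd x y = 1 := hPC.2 x hx y hy hne
    have h2 : pr (idx x) ∣ Nat.gcd x y :=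
      Nat.dvd_gcd (hdvd x hx) (by rw [hxy]; exact hdvd y hy)
    rw [h1, Nat.dvd_one] at h2
    exact (hpr _).one_lt.ne' h2
  have hcI : (X.image idx).card = t := by
    rw [Finset.card_image_of_injOn hinj, hcard]
  have hgI : ∀ k ∈ X.image idx, i ≤ k := by
    intro k hk
    obtain ⟨x, hx, rfl⟩ := Finset.mem_image.mp hk
    exact hge x hx
  have hsI : ∑ k ∈ X.image idx, pr k = ∑ x ∈ X, pr (idx x) := Finset.sum_image hinj
  have hJ : ∑ k ∈ Finset.Ico i (i + t), pr k = psum i t := by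
    unfold psum
    rw [Finset.sum_Ico_eq_sum_range]
    congr 2
    omega
  have hI : X.image idx = Finset.Ico i (i + t) := by
    by_contra hne
    have h1 := pa_sum hmono hcI hgI hne
    rw [hJ, hsI, ← hsum] at h1
    exact absurd (Finset.sum_le_sum hle) (not_le.mpr h1)
  have heq : ∀ x ∈ X, pr (idx x) = x := by
    refine (Finset.sum_eq_sum_iff_of_le hle).mp ?_
    rw [← hsI, hI, hJ, hsum]
  have h1 : X = (X.image idx).image pr := by
    rw [Finset.image_image]
    ext x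
    rw [Finset.mem_image]
    constructor
    · intro hx
      exact ⟨x, hx, heq x hx⟩
    · rintro ⟨y, hy, rfl⟩
      change pr (idx y) ∈ X
      rw [heq y hy]
      exact hy
  rw [h1, hI]
  unfold pset
  ext p
  simp only [Finset.mem_image, Finset.mem_Ico, Finset.mem_range]
  constructor
  · rintro ⟨k, ⟨hk1, hk2⟩, rfl⟩
    exact ⟨k - i, by omega, by rw [Nat.add_sub_cancel' hk1]⟩
  · rintro ⟨k, hk, rfl⟩
    exact ⟨i + k, ⟨by omega, by omega⟩, rfl⟩

end Pool.Agent.Lib.MP_4b91fc_lc.GH
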