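import Pool.Agent.Lib.MP_4b91fc_lc.GH.Stm2

set_option autoImplicit false

/-!
Piece `[GH pal]` of `MP_4b91fc_lc`: the algorithm `algR` in polynomial time.
-/

namespace Pool.Agent.Lib.MP_4b91fc_lc.GH

open Finset Pool.Agent.PolyTime

open scoped Nat

private theorem pal_ite {α : Type} [SCode α] {c : α → Prop} [DecidablePred c] {f g : α → ℕ}
    (hc : PTime (fun a => decide (c a))) (hf : PB f) (hg : PB g) :
    PB (fun a => if c a then f a else g a) := by
  unfold PB at *
  refine (PTime.ite hc hf hg).of_eq fun a => ?_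
  by_cases h : c a <;> simp [h]

private theorem pal_const {α : Type} [SCode α] (n : ℕ) : PB (fun _ : α => n) :=
  PTime.const (⟨n⟩ : Big)

private theorem pal_all (A : Arith) (hp : S_pfs) {m : ℕ} {α : Type} [SCode α]
    {P : α → Fin m → Prop} [∀ a i, Decidable (P a i)]
    (h : ∀ i, PTime (fun a => decide (P a i))) : PTime (fun a => decide (∀ i, P a i)) := by
  refine ((hp A m α _).2.2 (fun a i => decide (P a i)) h).of_eq fun a => ?_
  congr 1
  apply propext
  exact forall_congr' fun i => decide_eq_true_iff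

private theorem pal_imp {α : Type} [SCode α] {b : Bool} {P : α → Prop} [DecidablePred P]
    (h : PTime (fun a => decide (P a))) : PTime (fun a => decide (b = true → P a)) := by
  cases b
  · refine (PTime.const true).of_eq fun a => ?_
    simp
  · refine h.of_eq fun a => ?_
    simp

private theorem pal_and {α : Type} [SCode α] {P Q : α → Prop} [DecidablePred P] [DecidablePred Q]
    (h : PTime (fun a => decide (P a))) (h' : PTime (fun a => decide (Q a))) :
    PTime (fun a => decide (P a ∧ Q a)) :=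
  (PTime.and h h').of_eq fun _ => (Bool.decide_and _ _).symm

private theorem pal_sym {m : ℕ} {α : Type} [SCode α] {q : α → Fin m → Fin m → ℕ}
    (hq : ∀ i j, PTime (fun a => q a i j)) (i j : Fin m) :
    PTime (fun a => symq (q a) i j) := by
  unfold symq
  by_cases h : i < j
  · simp only [h, if_true]
    exact hq i j
  · simp only [h, if_false]
    exact hq j i

private theorem pal_sw {m : ℕ} {α : Type} [SCode α] (w : Fin m → Fin m) {l : α → Fin m → ℕ}
    {q : α → Fin m → Fin m → ℕ} (hl : ∀ i, PTime (fun a => l a i))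
    (hq : ∀ i j, PTime (fun a => q a i j)) (i : Fin m) :
    PTime (fun a => sw w (l a) (q a) i) := by
  unfold sw
  exact PTime.sub (PTime.add (hq _ _) (hl _)) (PTime.mul (hl _) (hl _))

private theorem pal_okq (A : Arith) (hp : S_pfs) {m : ℕ} (R : RS m) {α : Type} [SCode α]
    {num : α → (Fin m → ℕ) → (Fin m → ℕ) → Bool} {S : α → ℕ} {l : α → Fin m → ℕ}
    {q : α → Fin m → Fin m → ℕ} (hS : PTime S) (hl : ∀ i, PTime (fun a => l a i))
    (hq : ∀ i j, PTime (fun a => q a i j))
    (hn : PTime (fun a => num a (l a) (sw R.w (l a) (q a)))) :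
    PTime (fun a => okq R (num a) (S a) (l a) (q a)) := by
  have hsw := fun i => pal_sw R.w hl hq i
  unfold okq
  refine PTime.and ?_ hn
  refine pal_and (pal_all A hp fun i => ?_) (pal_and (pal_all A hp fun i => pal_all A hp fun j =>
    pal_imp ?_) (pal_and (pal_all A hp fun i => pal_all A hp fun j => pal_imp ?_)
      (pal_and ?_ ?_)))
  · exact PTime.nat_le (PTime.mul (hl _) (hl _)) (PTime.add (hq _ _) (hl _))
  · exact PTime.nat_eq (PTime.add (hq _ _) (hl _)) (PTime.add (PTime.mul (hl _) (hl _)) (hsw _))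
  · exact PTime.nat_eq (hq _ _) (PTime.mul (hl _) (hl _))
  · exact PTime.nat_le ((hp A m α _).2.1 l hl).1 hS
  · exact PTime.nat_le ((hp A m α _).2.1 (fun a => sw R.w (l a) (q a)) hsw).1 hS

/-- [pal] -/
theorem p_pal : S_pal := by
  intro A hp hptu hpt2 hRd m R α _ U num S B H a pi hU hS hB hH ha hpi hnum
  unfold algR
  refine hptu A m α _ (fun x _ => S x + 1) (fun x l =>
    ∑ q ∈ Fintype.piFinset (fun i : Fin m => Fintype.piFinset (fun j : Fin m =>
      if i < j then range (B x ^ 2 + 1) else {0})),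
      if okq R (num x) (S x) l (symq q) = true then
        Rdig (ev (U x)) (B x) (H x) (a x) (pi x) R.w l (symq q) else 0)
    (fun i => PTime.succ hS) ?_
  refine hpt2 hptu A m (α × List ℕ) _ (fun p => B p.1 ^ 2 + 1) (fun p q =>
      if okq R (num p.1) (S p.1) (fun i : Fin m => p.2.getD i 0) (symq q) = true then
        Rdig (ev (U p.1)) (B p.1) (H p.1) (a p.1) (pi p.1) R.w (fun i : Fin m => p.2.getD i 0)
          (symq q) else 0)
    (PTime.succ (PTime.natPow_const (hB.comp PTime.fst) 2)) ?_
  have h1 : PTime (fun p : (α × List ℕ) × List ℕ => p.1.1) := PTime.fst.comp PTime.fst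
  have h2 : PTime (fun p : (α × List ℕ) × List ℕ => p.1.2) := PTime.snd.comp PTime.fst
  have h3 : PTime (fun p : (α × List ℕ) × List ℕ => p.2) := PTime.snd
  have hl : ∀ i : Fin m, PTime (fun p : (α × List ℕ) × List ℕ => p.1.2.getD (i : ℕ) 0) :=
    fun i => PTime.getD (PTime.const _) h2 (PTime.const 0)
  have hq0 : ∀ i j : Fin m,
      PTime (fun p : (α × List ℕ) × List ℕ => p.2.getD ((i : ℕ) * m + j) 0) :=
    fun i j => PTime.getD (PTime.const _) h3 (PTime.const 0)
  have hq : ∀ i j : Fin m, PTime (fun p : (α × List ℕ) × List ℕ =>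
      symq (fun i j : Fin m => p.2.getD ((i : ℕ) * m + j) 0) i j) := fun i j => pal_sym hq0 i j
  have hok : PTime (fun p : (α × List ℕ) × List ℕ => okq R (num p.1.1) (S p.1.1)
      (fun i : Fin m => p.1.2.getD (i : ℕ) 0)
      (symq (fun i j : Fin m => p.2.getD ((i : ℕ) * m + j) 0))) := by
    refine pal_okq A hp R (num := fun p : (α × List ℕ) × List ℕ => num p.1.1)
      (S := fun p => S p.1.1) (l := fun p i => p.1.2.getD (i : ℕ) 0)
      (q := fun p => symq (fun i j : Fin m => p.2.getD ((i : ℕ) * m + j) 0))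
      (hS.comp h1) hl hq ?_
    have hsw := fun i => pal_sw R.w (l := fun (p : (α × List ℕ) × List ℕ) (i : Fin m) =>
      p.1.2.getD (i : ℕ) 0) (q := fun (p : (α × List ℕ) × List ℕ) =>
        symq (fun i j : Fin m => p.2.getD ((i : ℕ) * m + j) 0)) hl hq i
    refine (hnum.comp (h1.pair (h2.pair (((hp A m _ _).2.1 _ hsw).2)))).of_eq fun p => ?_
    dsimp only
    congr 1
    funext i
    simp
  refine pal_ite ?_ ?_ (pal_const 0)
  · refine hok.of_eq fun p => ?_
    simp
  · exact hRd m ((α × List ℕ) × List ℕ) _ (fun p => U p.1.1) (fun p => B p.1.1)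
      (fun p => H p.1.1) (fun p => a p.1.1) (fun p => pi p.1.1) R.w
      (fun p i => p.1.2.getD (i : ℕ) 0)
      (fun p => symq (fun i j : Fin m => p.2.getD ((i : ℕ) * m + j) 0))
      (PTime.comp (f := fun p : α × ℕ => (⟨U p.1 p.2⟩ : Big)) hU
        ((h1.comp PTime.fst).pair PTime.snd)) (hB.comp h1) (hH.comp h1)
      (fun i => (ha i).comp h1) (fun i j => (hpi i j).comp h1) hl hq

end Pool.Agent.Lib.MP_4b91fc_lc.GH
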