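import Pool.Agent.Lib.MP_4b91fc_lc.GH.Stm1

set_option autoImplicit false

namespace Pool.Agent.Lib.MP_4b91fc_lc.GH

private lemma parts_one (x k : ℕ) (hk : 0 < k) (hx : 0 < x) (hne : x ≠ k) :
    1 + 2 * Nat.gcd k x ≤ x + k := by
  obtain ⟨a, ha⟩ := Nat.gcd_dvd_left k x
  obtain ⟨b, hb⟩ := Nat.gcd_dvd_right k x
  have hg : 0 < Nat.gcd k x := Nat.gcd_pos_of_pos_left x hk
  generalize hgg : Nat.gcd k x = g at *
  have ha0 : 0 < a := by
    rcases Nat.eq_zero_or_pos a with h | h
    · subst h; simp at ha; omega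
    · exact h
  have hb0 : 0 < b := by
    rcases Nat.eq_zero_or_pos b with h | h
    · subst h; simp at hb; omega
    · exact h
  have hab : a ≠ b := by
    rintro rfl
    exact hne (by rw [hb, ha])
  have h3 : 3 ≤ a + b := by omega
  have h4 : g * 3 ≤ g * (a + b) := Nat.mul_le_mul_left g h3
  rw [Nat.mul_add, ← ha, ← hb] at h4
  omega

theorem p_parts : S_parts := by
  intro μ k hk
  induction μ using Multiset.induction_on with
  | empty => intro _ _; simp [gs]
  | cons x μ ih =>
    intro h0 hkm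
    rw [Multiset.mem_cons, not_or] at h0 hkm
    have h1 := ih h0.2 hkm.2
    have h2 := parts_one x k hk (Nat.pos_of_ne_zero (fun h => h0.1 h.symm))
      (fun h => hkm.1 h.symm)
    have h3 : gs k (x ::ₘ μ) = Nat.gcd k x + gs k μ := by
      simp [gs]
    rw [h3, Multiset.card_cons, Multiset.sum_cons, Nat.mul_succ]
    omega

end Pool.Agent.Lib.MP_4b91fc_lc.GH
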