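import Pool.Agent.Lib.MP_4b91fc_lc.GH.StmP

set_option autoImplicit false

/-!
# MP_4b91fc_lc, [GH pev]: `ev` in polynomial time for a fixed number of statistics
-/

namespace Pool.Agent.Lib.MP_4b91fc_lc.GH

open Finset Pool.Agent.PolyTime

private theorem pev_ite {α : Type} [SCode α] {c : α → Prop} [DecidablePred c] {f g : α → ℕ}
    (hc : PTime (fun a => decide (c a))) (hf : PB f) (hg : PB g) :
    PB (fun a => if c a then f a else g a) :=
  (PTime.ite hc hf hg).of_eq fun a => by by_cases h : c a <;> simp [h]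

private theorem pev_of_eq {α : Type} [SCode α] {f g : α → ℕ} (hf : PB f)
    (h : ∀ a, f a = g a) : PB g := by
  obtain rfl : f = g := funext h
  exact hf

private theorem pev_zero {α : Type} [SCode α] : PB (fun _ : α => 0) := PTime.const (⟨0⟩ : Big)

private theorem pev_comp {α β : Type} [SCode α] [SCode β] {f : β → ℕ} {g : α → β} (hf : PB f)
    (hg : PTime g) : PB (fun a => f (g a)) :=
  PTime.comp (f := fun b => (⟨f b⟩ : Big)) hf hg

theorem p_pev : S_pev := by
  intro hA hI h1 h2 r α _ U hU
  have l1 := h1 hA hI α _ U hU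
  have hks : PTime (fun p : α × List ℕ × ℕ × ℕ × List ℕ => p.2.1) := PTime.fst.comp PTime.snd
  have hn : PTime (fun p : α × List ℕ × ℕ × ℕ × List ℕ => p.2.2.1) :=
    PTime.fst.comp (PTime.snd.comp PTime.snd)
  have hl : PTime (fun p : α × List ℕ × ℕ × ℕ × List ℕ => p.2.2.2.1) :=
    PTime.fst.comp (PTime.snd.comp (PTime.snd.comp PTime.snd))
  have hv : PTime (fun p : α × List ℕ × ℕ × ℕ × List ℕ => p.2.2.2.2) :=
    PTime.snd.comp (PTime.snd.comp (PTime.snd.comp PTime.snd))
  induction r with
  | zero =>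
    refine pev_of_eq (pev_ite (c := fun p : α × List ℕ × ℕ × ℕ × List ℕ => p.2.1.length = 0)
      (f := fun p => lev1 (U p.1) p.2.2.1 p.2.2.2.1) (g := fun _ => 0)
      (PTime.nat_eq (PTime.length hks) (PTime.const 0)) ?_ pev_zero) ?_
    · exact pev_comp (f := fun p : α × ℕ × ℕ => lev1 (U p.1) p.2.1 p.2.2) l1
        (g := fun p : α × List ℕ × ℕ × ℕ × List ℕ => (p.1, p.2.2.1, p.2.2.2.1))
        (PTime.pair PTime.fst (PTime.pair hn hl))
    · rintro ⟨a, ks, n, l, v⟩
      dsimp only
      by_cases h : ks.length = 0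
      · rw [if_pos h, if_pos h]
        rw [List.length_eq_zero_iff] at h
        subst h
        rw [ev]
      · rw [if_neg h, if_neg h]
  | succ r ih =>
    have l2 := h2 hA hI α _ (fun a ks n l v => if ks.length = r then ev (U a) ks n l v else 0) ih
    refine pev_of_eq (pev_ite (c := fun p : α × List ℕ × ℕ × ℕ × List ℕ => p.2.1.length = r + 1)
      (f := fun p : α × List ℕ × ℕ × ℕ × List ℕ => if p.2.2.2.2.length = 0 then 0 else
        lev2 (fun n l v => if p.2.1.tail.length = r then ev (U p.1) p.2.1.tail n l v else 0)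
          p.2.1.tail (p.2.1.headD 0) p.2.2.1 p.2.2.2.1 (p.2.2.2.2.headD 0) p.2.2.2.2.tail)
      (g := fun _ => 0)
      (PTime.nat_eq (PTime.length hks) (PTime.const (r + 1)))
      (pev_ite (c := fun p : α × List ℕ × ℕ × ℕ × List ℕ => p.2.2.2.2.length = 0)
        (PTime.nat_eq (PTime.length hv) (PTime.const 0)) pev_zero ?_) pev_zero) ?_
    · exact pev_comp (f := fun p : α × List ℕ × (ℕ × ℕ × ℕ × ℕ) × List ℕ =>
          lev2 (fun n l v => if p.2.1.length = r then ev (U p.1) p.2.1 n l v else 0) p.2.1
            p.2.2.1.1 p.2.2.1.2.1 p.2.2.1.2.2.1 p.2.2.1.2.2.2 p.2.2.2) l2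
        (g := fun p : α × List ℕ × ℕ × ℕ × List ℕ => (p.1, p.2.1.tail,
          (p.2.1.headD 0, p.2.2.1, p.2.2.2.1, p.2.2.2.2.headD 0), p.2.2.2.2.tail))
        (PTime.pair PTime.fst (PTime.pair (PTime.tail hks) (PTime.pair
          (PTime.pair (PTime.headD hks (PTime.const 0)) (PTime.pair hn (PTime.pair hl
            (PTime.headD hv (PTime.const 0))))) (PTime.tail hv))))
    · rintro ⟨a, ks, n, l, v⟩
      dsimp only
      by_cases h : ks.length = r + 1
      · rw [if_pos h, if_pos h]
        cases ks with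
        | nil => simp at h
        | cons k ks =>
          have h' : ks.length = r := by simpa using h
          cases v with
          | nil => simp [ev]
          | cons g v =>
            rw [if_neg (by simp), ev]
            simp only [List.tail_cons, List.headD_cons, h', if_true]
      · rw [if_neg h, if_neg h]

end Pool.Agent.Lib.MP_4b91fc_lc.GH
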