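import Pool.Agent.Lib.MP_4b91fc_lc.GH.Stm3

set_option autoImplicit false

/-!
# Piece pfi: finite sums, products and conjunctions indexed by a finite type
-/

namespace Pool.Agent.Lib.MP_4b91fc_lc.GH

open Finset Pool.Agent.PolyTime

open scoped Nat

/-- Piece pfi. -/
theorem p_pfi : S_pfi := by
  intro hs hA ι _ α _
  obtain ⟨h1, h2, h3⟩ := hs hA (Fintype.card ι) α inferInstance
  let e : ι ≃ Fin (Fintype.card ι) := Fintype.equivFin ι
  refine ⟨?_, ?_, ?_⟩
  · intro f hf
    obtain ⟨h4, h5⟩ := h1 (fun a j => f a (e.symm j)) (fun j => hf (e.symm j))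
    constructor
    · refine PTime.of_eq h4 (fun a => ?_)
      exact congrArg Big.mk (Equiv.sum_comp e.symm (f a))
    · refine PTime.of_eq h5 (fun a => ?_)
      exact congrArg Big.mk (Equiv.prod_comp e.symm (f a))
  · intro f hf
    obtain ⟨h4, -⟩ := h2 (fun a j => f a (e.symm j)) (fun j => hf (e.symm j))
    refine PTime.of_eq h4 (fun a => ?_)
    exact Equiv.sum_comp e.symm (f a)
  · intro p _ hp
    have h4 := h3 (fun a j => decide (p a (e.symm j))) (fun j => hp (e.symm j))
    refine PTime.of_eq h4 (fun a => ?_)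
    rw [decide_eq_decide]
    constructor
    · intro h i
      have h6 := h (e i)
      rw [Equiv.symm_apply_apply] at h6
      exact of_decide_eq_true h6
    · intro h j
      exact decide_eq_true (h (e.symm j))

end Pool.Agent.Lib.MP_4b91fc_lc.GH
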