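import Pool.Agent.Lib.MP_4b91fc_lc.GH.Stm2

set_option autoImplicit false

/-!
# `#GRAPHS` is hard for `#P_1`: finite sums, products, conjunctions in polynomial time (piece pfs)
-/

namespace Pool.Agent.Lib.MP_4b91fc_lc.GH

open Finset Pool.Agent.PolyTime

open scoped Nat

private theorem pfs_big (hA : Arith) (m : ℕ) (α : Type) (iα : SCode α) :
    ∀ f : α → Fin m → ℕ, (∀ i, PB (fun a => f a i)) →
      PB (fun a => ∑ i, f a i) ∧ PB (fun a => ∏ i, f a i) := by
  induction m with
  | zero =>
    intro f _
    constructor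
    · have h : PTime (fun _ : α => (⟨0⟩ : Big)) := PTime.const _
      refine h.of_eq fun a => ?_
      beta_reduce
      rw [Fin.sum_univ_zero]
    · have h : PTime (fun _ : α => (⟨1⟩ : Big)) := PTime.const _
      refine h.of_eq fun a => ?_
      beta_reduce
      rw [Fin.prod_univ_zero]
  | succ m ih =>
    intro f hf
    obtain ⟨h1, h2⟩ := ih (fun a i => f a i.succ) (fun i => hf i.succ)
    constructor
    · have h3 : PTime (fun a => (⟨f a 0 + ∑ i : Fin m, f a i.succ⟩ : Big)) :=
        ptime_bigAdd (hf 0) h1
      refine h3.of_eq fun a => ?_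
      beta_reduce
      rw [Fin.sum_univ_succ]
    · have h3 : PTime (fun a => (⟨f a 0 * ∏ i : Fin m, f a i.succ⟩ : Big)) :=
        hA.mul α iα _ _ (hf 0) h2
      refine h3.of_eq fun a => ?_
      beta_reduce
      rw [Fin.prod_univ_succ]

private theorem pfs_un (m : ℕ) (α : Type) (_ : SCode α) :
    ∀ f : α → Fin m → ℕ, (∀ i, PTime (fun a => f a i)) →
      PTime (fun a => ∑ i, f a i) ∧ PTime (fun a => List.ofFn (f a)) := by
  induction m with
  | zero =>
    intro f _
    constructor
    · have h : PTime (fun _ : α => (0 : ℕ)) := PTime.const _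
      refine h.of_eq fun a => ?_
      rw [Fin.sum_univ_zero]
    · have h : PTime (fun _ : α => ([] : List ℕ)) := PTime.const _
      refine h.of_eq fun a => ?_
      rw [List.ofFn_zero]
  | succ m ih =>
    intro f hf
    obtain ⟨h1, h2⟩ := ih (fun a i => f a i.succ) (fun i => hf i.succ)
    constructor
    · refine ((hf 0).add h1).of_eq fun a => ?_
      rw [Fin.sum_univ_succ]
    · refine (PTime.cons (hf 0) h2).of_eq fun a => ?_
      rw [List.ofFn_succ]

private theorem pfs_all (m : ℕ) (α : Type) (_ : SCode α) :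
    ∀ p : α → Fin m → Bool, (∀ i, PTime (fun a => p a i)) →
      PTime (fun a => decide (∀ i, p a i = true)) := by
  induction m with
  | zero =>
    intro p _
    have h : PTime (fun _ : α => true) := PTime.const _
    refine h.of_eq fun a => ?_
    symm
    rw [decide_eq_true_iff]
    exact fun i => i.elim0
  | succ m ih =>
    intro p hp
    have h1 := ih (fun a i => p a i.succ) (fun i => hp i.succ)
    refine ((hp 0).and h1).of_eq fun a => ?_
    rw [Bool.eq_iff_iff, Bool.and_eq_true, decide_eq_true_iff, decide_eq_true_iff, Fin.forall_fin_succ]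

theorem p_pfs : S_pfs := fun hA m α iα =>
  ⟨pfs_big hA m α iα, pfs_un m α iα, pfs_all m α iα⟩

end Pool.Agent.Lib.MP_4b91fc_lc.GH
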