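import Pool.Agent.Lib.MP_4b91fc_lc.GH.StmP

set_option autoImplicit false

/-!
Piece `[GH pin]` of `MP_4b91fc_lc`: the interpolation formula in polynomial time.
-/

namespace Pool.Agent.Lib.MP_4b91fc_lc.GH

open Finset Pool.Agent.PolyTime

open scoped Nat

private theorem pin_ite {α : Type} [SCode α] {c : α → Prop} [DecidablePred c] {f g : α → ℕ}
    (hc : PTime (fun a => decide (c a))) (hf : PB f) (hg : PB g) :
    PB (fun a => if c a then f a else g a) := by
  unfold PB at *
  refine (PTime.ite hc hf hg).of_eq fun a => ?_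
  by_cases h : c a <;> simp [h]

private theorem pin_const {α : Type} [SCode α] (n : ℕ) : PB (fun _ : α => n) :=
  PTime.const (⟨n⟩ : Big)

private theorem pin_par {α : Type} [SCode α] {f g : α → ℕ} (hf : PTime f) (hg : PTime g) :
    PTime (fun a => decide (f a % 2 = g a % 2)) := by
  refine (ptime_dvd (PTime.const 2) (PTime.add hf hg)).of_eq fun a => ?_
  congr 1
  apply propext
  omega

private theorem pin_kap (A : Arith) {α : Type} [SCode α] {R m y0 : α → ℕ} (hR : PTime R)
    (hm : PTime m) (hy : PTime y0) :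
    PB (fun p : α × ℕ => kap (R p.1) (m p.1) (y0 p.1) p.2) := by
  unfold kap
  refine A.sum (α × ℕ) _ (fun p => R p.1 - m p.1 + 1)
    (fun p i => (y0 p.1 + i - 1).choose i * (m p.1 + i).choose p.2)
    (PTime.succ (PTime.sub (hR.comp PTime.fst) (hm.comp PTime.fst))) ?_
  have h1 : PTime (fun q : (α × ℕ) × ℕ => q.1.1) := PTime.fst.comp PTime.fst
  have h2 : PTime (fun q : (α × ℕ) × ℕ => q.1.2) := PTime.snd.comp PTime.fst
  have h3 : PTime (fun q : (α × ℕ) × ℕ => q.2) := PTime.snd
  exact A.mul _ _ _ _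
    (A.choose _ _ _ _ (PTime.pred (PTime.add (hy.comp h1) h3)) h3)
    (A.choose _ _ _ _ (PTime.add (hm.comp h1) h3) h2)

/-- [pin] -/
theorem p_pin : S_pin := by
  intro A α _ D R m y0 hR hm hy hD
  have hk : PB (fun p : α × ℕ => kap (R p.1) (m p.1) (y0 p.1) p.2 * D p.1 p.2) :=
    A.mul _ _ _ _ (pin_kap A hR hm hy) hD
  have hp : PTime (fun p : α × ℕ => decide (p.2 % 2 = m p.1 % 2)) :=
    pin_par PTime.snd (hm.comp PTime.fst)
  unfold interpN
  refine A.sub _ _ _ _ ?_ ?_
  · exact A.sum α _ (fun a => R a + 1)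
      (fun a j => if j % 2 = m a % 2 then kap (R a) (m a) (y0 a) j * D a j else 0)
      (PTime.succ hR) (pin_ite hp hk (pin_const 0))
  · exact A.sum α _ (fun a => R a + 1)
      (fun a j => if j % 2 = m a % 2 then 0 else kap (R a) (m a) (y0 a) j * D a j)
      (PTime.succ hR) (pin_ite hp (pin_const 0) hk)

end Pool.Agent.Lib.MP_4b91fc_lc.GH
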