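import Pool.Agent.Lib.MP_4b91fc_lc.GH.StmP

set_option autoImplicit false

/-!
# Piece pl1: the first level in polynomial time
-/

namespace Pool.Agent.Lib.MP_4b91fc_lc.GH

open Finset Pool.Agent.PolyTime

open scoped Nat

private theorem pb_const {α : Type} [SCode α] (c : ℕ) : PB (fun _ : α => c) :=
  PTime.const (⟨c⟩ : Big)

private theorem pb_comp {α β : Type} [SCode α] [SCode β] {f : β → ℕ} {g : α → β} (hf : PB f)
    (hg : PTime g) : PB (fun a => f (g a)) :=
  PTime.comp (f := fun b => (⟨f b⟩ : Big)) hf hg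

private theorem pb_ite {α : Type} [SCode α] {c : α → Prop} [DecidablePred c] {f g : α → ℕ}
    (hc : PTime (fun a => decide (c a))) (hf : PB f) (hg : PB g) :
    PB (fun a => if c a then f a else g a) := by
  have h := PTime.ite (c := c) (f := fun a => (⟨f a⟩ : Big)) (g := fun a => (⟨g a⟩ : Big)) hc hf hg
  exact h.of_eq fun a => by by_cases h : c a <;> simp [h]

private theorem ptime_div2 {α : Type} [SCode α] {f : α → ℕ} (hf : PTime f) :
    PTime (fun a => f a / 2) :=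
  Pool.Agent.Lib.MP_b4f117_lc.ptime_div hf (PTime.const 2) (fun _ => by norm_num)

private theorem ptime_choose2 {α : Type} [SCode α] {f : α → ℕ} (hf : PTime f) :
    PTime (fun a => (f a).choose 2) :=
  (ptime_div2 (PTime.mul hf (PTime.pred hf))).of_eq fun a => (Nat.choose_two_right (f a)).symm

/-- the digit, for given values of `U` -/
private theorem pb_dig1 (ar : Arith) {β : Type} [SCode β] {G : β → ℕ} {u l N : β → ℕ} (hG : PB G)
    (hu : PTime u) (hl : PTime l) (hN : PTime N) :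
    PB (fun b => (N b)! * G b * 2 ^ (N b * (u b - l b)) / 2 ^ ((N b).choose 2) % 2 ^ (N b)) := by
  have h1 : PB (fun b => (N b)!) := ar.fact _ _ _ hN
  have h2 : PB (fun b => 2 ^ (N b * (u b - l b))) :=
    ar.pow _ _ (fun _ => 2) (fun b => N b * (u b - l b)) (pb_const 2)
      (PTime.mul hN (PTime.sub hu hl))
  have h3 : PB (fun b => 2 ^ ((N b).choose 2)) :=
    ar.pow _ _ (fun _ => 2) (fun b => (N b).choose 2) (pb_const 2) (ptime_choose2 hN)
  have h4 : PB (fun b => 2 ^ (N b)) := ar.pow _ _ (fun _ => 2) N (pb_const 2) hN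
  exact ar.mod _ _ _ _ (ar.div _ _ _ _ (ar.mul _ _ _ _ (ar.mul _ _ _ _ h1 hG) h2) h3) h4

theorem p_pl1 : S_pl1 := by
  intro ar hpin α _ U hU
  have hu : PTime (fun p : α × ℕ × ℕ => p.2.1) := PTime.fst.comp PTime.snd
  have hl : PTime (fun p : α × ℕ × ℕ => p.2.2) := PTime.snd.comp PTime.snd
  have hN1 : PTime (fun p : α × ℕ × ℕ => N1 p.2.1) :=
    PTime.natPow_const (PTime.add hu (PTime.const 8)) 6
  -- the interpolation
  have hint : PB (fun p : α × ℕ × ℕ => interpN (2 * (p.2.1 - p.2.2)) p.2.1 (N1 p.2.1)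
      (fun j => dig1 (U p.1) p.2.1 p.2.2 (N1 p.2.1 + j))) := by
    refine hpin ar (α × ℕ × ℕ) _ (fun p j => dig1 (U p.1) p.2.1 p.2.2 (N1 p.2.1 + j))
      (fun p => 2 * (p.2.1 - p.2.2)) (fun p => p.2.1) (fun p => N1 p.2.1)
      (PTime.mul (PTime.const 2) (PTime.sub hu hl)) hu hN1 ?_
    have hN : PTime (fun q : (α × ℕ × ℕ) × ℕ => N1 q.1.2.1 + q.2) :=
      PTime.add (hN1.comp PTime.fst) PTime.snd
    exact pb_dig1 ar (G := fun q : (α × ℕ × ℕ) × ℕ => U q.1.1 (N1 q.1.2.1 + q.2))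
      (u := fun q => q.1.2.1) (l := fun q => q.1.2.2) (N := fun q => N1 q.1.2.1 + q.2)
      (pb_comp (f := fun p : α × ℕ => U p.1 p.2)
        (g := fun q : (α × ℕ × ℕ) × ℕ => (q.1.1, N1 q.1.2.1 + q.2)) hU
        (PTime.pair (PTime.fst.comp PTime.fst) hN))
      (hu.comp PTime.fst) (hl.comp PTime.fst) hN
  have hpow : PB (fun p : α × ℕ × ℕ =>
      2 ^ (p.2.1 * (p.2.1 - p.2.2) - p.2.1 * (p.2.1 - 1) / 2)) :=
    ar.pow _ _ (fun _ => 2) (fun p : α × ℕ × ℕ =>
      p.2.1 * (p.2.1 - p.2.2) - p.2.1 * (p.2.1 - 1) / 2) (pb_const 2)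
      (PTime.sub (PTime.mul hu (PTime.sub hu hl)) (ptime_div2 (PTime.mul hu (PTime.pred hu))))
  exact pb_ite (c := fun p : α × ℕ × ℕ => 2 * p.2.2 ≤ p.2.1)
    (PTime.nat_le (PTime.mul (PTime.const 2) hl) hu) (ar.div _ _ _ _ hint hpow) (pb_const 0)

end Pool.Agent.Lib.MP_4b91fc_lc.GH
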