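import Pool.Agent.Lib.MP_4b91fc_lc.GH.StmP

set_option autoImplicit false

/-!
# Piece pl2: the next level in polynomial time
-/

namespace Pool.Agent.Lib.MP_4b91fc_lc.GH

open Finset Pool.Agent.PolyTime

open scoped Nat

private theorem pb_const {α : Type} [SCode α] (c : ℕ) : PB (fun _ : α => c) :=
  PTime.const (⟨c⟩ : Big)

private theorem pb_comp {α β : Type} [SCode α] [SCode β] {f : β → ℕ} {g : α → β} (hf : PB f)
    (hg : PTime g) : PB (fun a => f (g a)) :=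
  PTime.comp (f := fun b => (⟨f b⟩ : Big)) hf hg

private theorem pb_ite {α : Type} [SCode α] {c : α → Prop} [DecidablePred c] {f g : α → ℕ}
    (hc : PTime (fun a => decide (c a))) (hf : PB f) (hg : PB g) :
    PB (fun a => if c a then f a else g a) := by
  have h := PTime.ite (c := c) (f := fun a => (⟨f a⟩ : Big)) (g := fun a => (⟨g a⟩ : Big)) hc hf hg
  exact h.of_eq fun a => by by_cases h : c a <;> simp [h]

private theorem ptime_div2 {α : Type} [SCode α] {f : α → ℕ} (hf : PTime f) :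
    PTime (fun a => f a / 2) :=
  Pool.Agent.Lib.MP_b4f117_lc.ptime_div hf (PTime.const 2) (fun _ => by norm_num)

private theorem ptime_choose2 {α : Type} [SCode α] {f : α → ℕ} (hf : PTime f) :
    PTime (fun a => (f a).choose 2) :=
  (ptime_div2 (PTime.mul hf (PTime.pred hf))).of_eq fun a => (Nat.choose_two_right (f a)).symm

private theorem zipWith_eq_map (f : ℕ → ℕ → ℕ) (v w : List ℕ) :
    List.zipWith f v w = (List.range (v.length - (v.length - w.length))).map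
      (fun i => f (v.getD i 0) (w.getD i 0)) := by
  apply List.ext_getElem
  · simp
    omega
  · intro i h1 h2
    simp only [List.length_zipWith] at h1
    have h3 : i < v.length := by omega
    have h4 : i < w.length := by omega
    simp [h3, h4]

private theorem ptime_shv {β : Type} [SCode β] {ks : β → List ℕ} {k N : β → ℕ} {v : β → List ℕ}
    (hks : PTime ks) (hk : PTime k) (hN : PTime N) (hv : PTime v) :
    PTime (fun b => shv (ks b) (k b) (N b) (v b)) := by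
  have h : PTime (fun b => (List.range ((v b).length - ((v b).length - (ks b).length))).map
      (fun i => (v b).getD i 0 + N b * Nat.gcd ((ks b).getD i 0) (k b))) := by
    refine PTime.map (f := fun b i => (v b).getD i 0 + N b * Nat.gcd ((ks b).getD i 0) (k b))
      (PTime.range (PTime.sub (PTime.length hv) (PTime.sub (PTime.length hv)
        (PTime.length hks)))) ?_
    exact PTime.add (PTime.getD PTime.snd (hv.comp PTime.fst) (PTime.const 0))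
      (PTime.mul (hN.comp PTime.fst) (ptime_gcd (PTime.getD PTime.snd (hks.comp PTime.fst)
        (PTime.const 0)) (hk.comp PTime.fst)))
  exact h.of_eq fun b => (zipWith_eq_map (fun x y => x + N b * Nat.gcd y (k b)) (v b) (ks b)).symm

section

variable {β : Type} [SCode β] {k u l : β → ℕ}

private theorem ptime_sN (hk : PTime k) (hu : PTime u) (hl : PTime l) :
    PTime (fun b => sN (k b) (u b) (l b)) :=
  PTime.add (PTime.add (PTime.add hu (PTime.mul hk hl)) hk) (PTime.const 2)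

private theorem ptime_N2 (hk : PTime k) (hu : PTime u) (hl : PTime l) :
    PTime (fun b => N2 (k b) (u b) (l b)) := PTime.natPow_const (ptime_sN hk hu hl) 12

private theorem ptime_E2 (hk : PTime k) (hu : PTime u) (hl : PTime l) :
    PTime (fun b => E2 (k b) (u b) (l b)) := PTime.natPow_const (ptime_sN hk hu hl) 4

private theorem pb_L2 (ar : Arith) (hk : PTime k) (hu : PTime u) (hl : PTime l) :
    PB (fun b => L2 (k b) (u b) (l b)) :=
  ar.fact _ _ _ (PTime.add hu (PTime.mul hk (PTime.add hu (PTime.mul hk hl))))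

private theorem ptime_e2 {N : β → ℕ} (hk : PTime k) (hN : PTime N) :
    PTime (fun b => e2 (k b) (N b)) :=
  PTime.add (PTime.mul hk (ptime_choose2 hN)) (PTime.mul hN (ptime_div2 hk))

/-- the digit, for given values of `F` -/
private theorem pb_dig2 (ar : Arith) {G : β → ℕ} {g N : β → ℕ} (hG : PB G) (hk : PTime k)
    (hu : PTime u) (hl : PTime l) (hg : PTime g) (hN : PTime N) :
    PB (fun b => G b * L2 (k b) (u b) (l b) * 2 ^ E2 (k b) (u b) (l b) * k b ^ (N b + u b) *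
      (N b + u b)! / ((k b * N b + u b)! * 2 ^ (e2 (k b) (N b) + N b * g b)) % 2 ^ N b) := by
  have h1 : PB (fun b => 2 ^ E2 (k b) (u b) (l b)) :=
    ar.pow _ _ (fun _ => 2) (fun b => E2 (k b) (u b) (l b)) (pb_const 2) (ptime_E2 hk hu hl)
  have h2 : PB (fun b => k b ^ (N b + u b)) :=
    ar.pow _ _ k (fun b => N b + u b) (ar.un _ _ _ hk) (PTime.add hN hu)
  have h3 : PB (fun b => (N b + u b)!) := ar.fact _ _ _ (PTime.add hN hu)
  have h4 : PB (fun b => (k b * N b + u b)!) :=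
    ar.fact _ _ _ (PTime.add (PTime.mul hk hN) hu)
  have h5 : PB (fun b => 2 ^ (e2 (k b) (N b) + N b * g b)) :=
    ar.pow _ _ (fun _ => 2) (fun b => e2 (k b) (N b) + N b * g b) (pb_const 2)
      (PTime.add (ptime_e2 hk hN) (PTime.mul hN hg))
  have h6 : PB (fun b => 2 ^ N b) := ar.pow _ _ (fun _ => 2) N (pb_const 2) hN
  exact ar.mod _ _ _ _ (ar.div _ _ _ _ (ar.mul _ _ _ _ (ar.mul _ _ _ _ (ar.mul _ _ _ _
    (ar.mul _ _ _ _ hG (pb_L2 ar hk hu hl)) h1) h2) h3) (ar.mul _ _ _ _ h4 h5)) h6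

end

theorem p_pl2 : S_pl2 := by
  intro ar hpin α _ F hF
  have ha : PTime (fun p : α × List ℕ × (ℕ × ℕ × ℕ × ℕ) × List ℕ => p.1) := PTime.fst
  have hks : PTime (fun p : α × List ℕ × (ℕ × ℕ × ℕ × ℕ) × List ℕ => p.2.1) :=
    PTime.fst.comp PTime.snd
  have hq : PTime (fun p : α × List ℕ × (ℕ × ℕ × ℕ × ℕ) × List ℕ => p.2.2.1) :=
    PTime.fst.comp (PTime.snd.comp PTime.snd)
  have hk : PTime (fun p : α × List ℕ × (ℕ × ℕ × ℕ × ℕ) × List ℕ => p.2.2.1.1) :=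
    PTime.fst.comp hq
  have hu : PTime (fun p : α × List ℕ × (ℕ × ℕ × ℕ × ℕ) × List ℕ => p.2.2.1.2.1) :=
    PTime.fst.comp (PTime.snd.comp hq)
  have hl : PTime (fun p : α × List ℕ × (ℕ × ℕ × ℕ × ℕ) × List ℕ => p.2.2.1.2.2.1) :=
    PTime.fst.comp (PTime.snd.comp (PTime.snd.comp hq))
  have hg : PTime (fun p : α × List ℕ × (ℕ × ℕ × ℕ × ℕ) × List ℕ => p.2.2.1.2.2.2) :=
    PTime.snd.comp (PTime.snd.comp (PTime.snd.comp hq))
  have hv : PTime (fun p : α × List ℕ × (ℕ × ℕ × ℕ × ℕ) × List ℕ => p.2.2.2) :=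
    PTime.snd.comp (PTime.snd.comp PTime.snd)
  have hN2 := ptime_N2 hk hu hl
  have hint : PB (fun p : α × List ℕ × (ℕ × ℕ × ℕ × ℕ) × List ℕ =>
      interpN (2 * p.2.2.1.2.1 + p.2.2.1.1 * p.2.2.1.2.2.1) p.2.2.1.2.1
        (N2 p.2.2.1.1 p.2.2.1.2.1 p.2.2.1.2.2.1 + p.2.2.1.2.1)
        (fun j => dig2 (F p.1 p.2.1) p.2.1 p.2.2.1.1 p.2.2.1.2.1 p.2.2.1.2.2.1 p.2.2.1.2.2.2
          p.2.2.2 (N2 p.2.2.1.1 p.2.2.1.2.1 p.2.2.1.2.2.1 + j))) := by
    refine hpin ar (α × List ℕ × (ℕ × ℕ × ℕ × ℕ) × List ℕ) _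
      (fun p j => dig2 (F p.1 p.2.1) p.2.1 p.2.2.1.1 p.2.2.1.2.1 p.2.2.1.2.2.1 p.2.2.1.2.2.2
          p.2.2.2 (N2 p.2.2.1.1 p.2.2.1.2.1 p.2.2.1.2.2.1 + j))
      (fun p => 2 * p.2.2.1.2.1 + p.2.2.1.1 * p.2.2.1.2.2.1) (fun p => p.2.2.1.2.1)
      (fun p => N2 p.2.2.1.1 p.2.2.1.2.1 p.2.2.1.2.2.1 + p.2.2.1.2.1)
      (PTime.add (PTime.mul (PTime.const 2) hu) (PTime.mul hk hl)) hu (PTime.add hN2 hu) ?_
    have hN : PTime (fun q : (α × List ℕ × (ℕ × ℕ × ℕ × ℕ) × List ℕ) × ℕ =>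
        N2 q.1.2.2.1.1 q.1.2.2.1.2.1 q.1.2.2.1.2.2.1 + q.2) :=
      PTime.add (hN2.comp PTime.fst) PTime.snd
    have hG : PB (fun q : (α × List ℕ × (ℕ × ℕ × ℕ × ℕ) × List ℕ) × ℕ =>
        F q.1.1 q.1.2.1 (q.1.2.2.1.1 * (N2 q.1.2.2.1.1 q.1.2.2.1.2.1 q.1.2.2.1.2.2.1 + q.2) +
          q.1.2.2.1.2.1) (N2 q.1.2.2.1.1 q.1.2.2.1.2.1 q.1.2.2.1.2.2.1 + q.2 + q.1.2.2.1.2.2.1)
          (shv q.1.2.1 q.1.2.2.1.1 (N2 q.1.2.2.1.1 q.1.2.2.1.2.1 q.1.2.2.1.2.2.1 + q.2)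
            q.1.2.2.2)) :=
      pb_comp (f := fun p : α × List ℕ × ℕ × ℕ × List ℕ =>
          F p.1 p.2.1 p.2.2.1 p.2.2.2.1 p.2.2.2.2)
        (g := fun q : (α × List ℕ × (ℕ × ℕ × ℕ × ℕ) × List ℕ) × ℕ =>
          (q.1.1, q.1.2.1, q.1.2.2.1.1 * (N2 q.1.2.2.1.1 q.1.2.2.1.2.1 q.1.2.2.1.2.2.1 + q.2) +
          q.1.2.2.1.2.1, N2 q.1.2.2.1.1 q.1.2.2.1.2.1 q.1.2.2.1.2.2.1 + q.2 + q.1.2.2.1.2.2.1,
          shv q.1.2.1 q.1.2.2.1.1 (N2 q.1.2.2.1.1 q.1.2.2.1.2.1 q.1.2.2.1.2.2.1 + q.2)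
            q.1.2.2.2)) hF
        (PTime.pair (ha.comp PTime.fst) (PTime.pair (hks.comp PTime.fst) (PTime.pair
          (PTime.add (PTime.mul (hk.comp PTime.fst) hN) (hu.comp PTime.fst)) (PTime.pair
          (PTime.add hN (hl.comp PTime.fst)) (ptime_shv (hks.comp PTime.fst)
            (hk.comp PTime.fst) hN (hv.comp PTime.fst))))))
    exact pb_dig2 ar hG (hk.comp PTime.fst) (hu.comp PTime.fst) (hl.comp PTime.fst)
      (hg.comp PTime.fst) hN
  have hden : PB (fun p : α × List ℕ × (ℕ × ℕ × ℕ × ℕ) × List ℕ =>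
      p.2.2.1.1 ^ p.2.2.1.2.1 * L2 p.2.2.1.1 p.2.2.1.2.1 p.2.2.1.2.2.1 *
        2 ^ E2 p.2.2.1.1 p.2.2.1.2.1 p.2.2.1.2.2.1) :=
    ar.mul _ _ _ _ (ar.mul _ _ _ _ (ar.pow _ _ _ _ (ar.un _ _ _ hk) hu) (pb_L2 ar hk hu hl))
      (ar.pow _ _ (fun _ => 2) (fun p : α × List ℕ × (ℕ × ℕ × ℕ × ℕ) × List ℕ =>
        E2 p.2.2.1.1 p.2.2.1.2.1 p.2.2.1.2.2.1) (pb_const 2) (ptime_E2 hk hu hl))
  exact pb_ite (c := fun p : α × List ℕ × (ℕ × ℕ × ℕ × ℕ) × List ℕ =>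
      p.2.2.1.2.2.2 ≤ p.2.2.1.2.1) (PTime.nat_le hg hu) (ar.div _ _ _ _ hint hden) (pb_const 0)

end Pool.Agent.Lib.MP_4b91fc_lc.GH
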