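import Pool.Agent.Lib.MP_4b91fc_lc.GH.Stm3

set_option autoImplicit false

/-!
# `#GRAPHS` is hard for `#P_1`: piece pnm
-/

namespace Pool.Agent.Lib.MP_4b91fc_lc.GH

open Finset Pool.Agent.PolyTime

open scoped Nat

/-- the condition `c` is decidable in polynomial time -/
private def PD {β : Type} [SCode β] (c : β → Prop) : Prop :=
  PTime (fun a => @decide (c a) (Classical.propDecidable (c a)))

private lemma PD_and {β : Type} [SCode β] {c d : β → Prop} (hc : PD c) (hd : PD d) :
    PD (fun a => c a ∧ d a) := by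
  unfold PD at *
  refine (PTime.and hc hd).of_eq (fun a => ?_)
  rw [Bool.eq_iff_iff]
  simp

private lemma PD_eq {β : Type} [SCode β] {f g : β → ℕ} (hf : PTime f) (hg : PTime g) :
    PD (fun a => f a = g a) := by
  unfold PD
  exact (PTime.nat_eq hf hg).of_eq (fun a => decide_eq_decide.2 Iff.rfl)

private lemma PD_all (hfi : S_pfi) (hfs : S_pfs) (hA : Arith) (ι : Type) [Fintype ι] {β : Type}
    [iβ : SCode β] {c : β → ι → Prop} (hc : ∀ i, PD (fun a => c a i)) :
    PD (fun a => ∀ i, c a i) := by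
  unfold PD at *
  have h := (hfi hfs hA ι inferInstance β iβ).2.2 c (fun a i => Classical.propDecidable (c a i)) hc
  exact h.of_eq (fun a => decide_eq_decide.2 Iff.rfl)

private lemma PT_sum (hfi : S_pfi) (hfs : S_pfs) (hA : Arith) (ι : Type) [Fintype ι] {β : Type}
    [iβ : SCode β] {f : β → ι → ℕ} (hf : ∀ i, PTime (fun a => f a i)) :
    PTime (fun a => ∑ i, f a i) :=
  (hfi hfs hA ι inferInstance β iβ).2.1 f hf

private lemma PD_num (hfi : S_pfi) (hfs : S_pfs) (hA : Arith) (P : WP) {β : Type} [SCode β]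
    (p : β → Par P.r P.b) (hM : PTime (fun a => (p a).M)) (hiC : PTime (fun a => (p a).iC))
    (hiD : PTime (fun a => (p a).iD)) (hit : PTime (fun a => (p a).it))
    (hsh : ∀ o, PTime (fun a => (p a).sh o)) (hx : ∀ j, PTime (fun a => (p a).x j))
    (hy : ∀ j, PTime (fun a => (p a).y j))
    (hps : ∀ f g : β → ℕ, PTime f → PTime g → PTime (fun a => psum (f a) (g a)))
    (hzs : ∀ f g h : β → ℕ, PTime f → PTime g → PTime h → PTime (fun a => zsum (f a) (g a) (h a)))
    (l s : β → P.S → ℕ) (hl : ∀ t, PTime (fun a => l a t)) (hs : ∀ t, PTime (fun a => s a t)) :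
    PD (fun a => NumS P (p a) (l a) (s a)) := by
  have h0 : PTime (fun _ : β => 0) := PTime.const 0
  have hDo : ∀ o, PTime (fun a => (p a).iD + (p a).sh o) := fun o => PTime.add hiD (hsh o)
  have hz : ∀ o, PTime (fun a => zsum (p a).iC ((p a).iD + (p a).sh o) (p a).M) :=
    fun o => hzs _ _ _ hiC (hDo o) hM
  have hI : ∀ j, PTime (fun a => (p a).iC + (p a).M - (p a).y j) :=
    fun j => PTime.sub (PTime.add hiC hM) (hy j)
  have hxy : ∀ j, PTime (fun a => (p a).y j - (p a).x j) := fun j => PTime.sub (hy j) (hx j)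
  unfold NumS
  refine PD_and (PD_and (PD_eq (hl _) hit) (PD_and (PD_eq (hs _) (hps _ _ h0 hit))
    (PD_and (PD_eq (hl _) hit) (PD_eq (hs _) (hps _ _ h0 hit))))) ?_
  refine PD_and (PD_and (PD_eq (hl _) hiC) (PD_and (PD_eq (hs _) (hps _ _ h0 hiC))
    (PD_and (PD_eq (hl _) hM) (PD_eq (hs _) (hps _ _ hiC hM))))) ?_
  refine PD_and (PD_all hfi hfs hA _ (fun o => ?_)) (PD_and (PD_all hfi hfs hA _ (fun j => ?_)) ?_)
  · refine PD_and (PD_eq (hl _) (hDo o)) (PD_and (PD_eq (hs _) (hps _ _ h0 (hDo o)))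
      (PD_and (PD_eq (hl _) hM) (PD_and (PD_eq (hs _) (hps _ _ (hDo o) hM))
      (PD_and (PD_eq (hl _) hM) (PD_and (PD_eq (hs _) (hz o))
      (PD_and (PD_eq (hl _) hM) (PD_and (PD_eq (hs _) (hz o)) (PD_and ?_ ?_))))))))
    · exact PD_all hfi hfs hA _ (fun a => PD_eq (hl _) (hl _))
    · exact PD_eq (PT_sum hfi hfs hA _ (fun a => hs _)) (hz o)
  · exact PD_and (PD_eq (hl _) (hI j)) (PD_and (PD_eq (hs _) (hps _ _ h0 (hI j)))
      (PD_and (PD_eq (hl _) (hxy j)) (PD_eq (hs _) (hps _ _ (hI j) (hxy j)))))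
  · exact PD_and (PD_all hfi hfs hA _ (fun a => PD_eq (hl _) (hl _)))
      (PD_eq (PT_sum hfi hfs hA _ (fun a => hl _)) hM)

/-- **[pnm]** -/
theorem p_pnm : S_pnm := by
  intro hA hfi hpr hfs hch hpb hwi P α iα M e x y hM he hx hy
  have hprime : ∀ (β : Type) (_ : SCode β) (f : β → ℕ), PTime f → PTime (fun a => pr (f a)) :=
    fun β iβ f hf => (hpr hch hpb hwi β iβ).1 f hf
  have hwin : ∀ (β : Type) (_ : SCode β) (f g : β → ℕ), PTime f → PTime g →
      PTime (fun a => win (f a) (g a)) :=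
    fun β iβ f g hf hg => (hpr hch hpb hwi β iβ).2 f g hf hg
  have hps : ∀ f g : α × List ℕ × List ℕ → ℕ, PTime f → PTime g →
      PTime (fun a => psum (f a) (g a)) := by
    intro f g hf hg
    unfold psum
    refine ptime_sum (f := fun a k => pr (f a + k)) hg ?_
    exact hprime _ _ _ (PTime.add (hf.comp PTime.fst) PTime.snd)
  have hzs : ∀ f g h : α × List ℕ × List ℕ → ℕ, PTime f → PTime g → PTime h →
      PTime (fun a => zsum (f a) (g a) (h a)) := by
    intro f g h hf hg hh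
    unfold zsum
    refine ptime_sum (f := fun a k => pr (f a + (h a - 1 - k)) * pr (g a + k)) hh ?_
    refine PTime.mul (hprime _ _ _ (PTime.add (hf.comp PTime.fst) ?_))
      (hprime _ _ _ (PTime.add (hg.comp PTime.fst) PTime.snd))
    exact PTime.sub (PTime.pred (hh.comp PTime.fst)) PTime.snd
  have hM' : PTime (fun q : α × List ℕ × List ℕ => M q.1) := hM.comp PTime.fst
  have he' : ∀ i, PTime (fun q : α × List ℕ × List ℕ => e q.1 i) := fun i => (he i).comp PTime.fst
  have hse : PTime (fun q : α × List ℕ × List ℕ => ∑ i, e q.1 i) := PT_sum hfi hfs hA _ he'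
  have h4 : PTime (fun q : α × List ℕ × List ℕ => 4 * M q.1) := PTime.mul (PTime.const 4) hM'
  have hiC : PTime (fun q : α × List ℕ × List ℕ => win (4 * M q.1) (M q.1)) := hwin _ _ _ _ h4 hM'
  have hiD : PTime (fun q : α × List ℕ × List ℕ =>
      win (4 * M q.1 * pr (win (4 * M q.1) (M q.1))) (M q.1 + ∑ i, e q.1 i)) :=
    hwin _ _ _ _ (PTime.mul h4 (hprime _ _ _ hiC)) (PTime.add hM' hse)
  have hmain := PD_num hfi hfs hA P
    (fun q : α × List ℕ × List ℕ => mkPar (M q.1) (e q.1) (x q.1) (y q.1)) hM' hiC hiD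
    (PTime.add (PTime.add (PTime.add hiC hiD) hM') hse)
    (fun o => by
      cases o with
      | none => exact PTime.const 0
      | some i => exact he' i)
    (fun j => (hx j).comp PTime.fst) (fun j => (hy j).comp PTime.fst) hps hzs
    (fun q t => q.2.1.getD (P.eq t) 0) (fun q t => q.2.2.getD (P.eq t) 0)
    (fun t => PTime.getD (PTime.const _) (PTime.fst.comp PTime.snd) (PTime.const 0))
    (fun t => PTime.getD (PTime.const _) (PTime.snd.comp PTime.snd) (PTime.const 0))
  unfold PD at hmain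
  exact hmain.of_eq (fun q => decide_eq_decide.2 Iff.rfl)

end Pool.Agent.Lib.MP_4b91fc_lc.GH
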