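import Pool.Agent.Lib.MP_4b91fc_lc.GH.Stm3

set_option autoImplicit false

/-!
# `#GRAPHS` is hard for `#P_1`: piece ppr
-/

namespace Pool.Agent.Lib.MP_4b91fc_lc.GH

open Finset Pool.Agent.PolyTime

open scoped Nat

private lemma ppr_len (p : ℕ) :
    ((List.range p).filter (fun q => decide q.Prime)).length = Nat.count Nat.Prime p := by
  induction p with
  | zero => simp
  | succ n ih =>
    rw [List.range_succ, List.filter_append, List.length_append, ih, Nat.count_succ]
    by_cases h : n.Prime <;> simp [h]

private lemma ppr_iff (p i : ℕ) : (p.Prime ∧ Nat.count Nat.Prime p = i) ↔ pr i = p := by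
  constructor
  · rintro ⟨h1, h2⟩
    rw [← h2]
    exact Nat.nth_count h1
  · intro h
    have h1 : (pr i).Prime := Nat.prime_nth_prime i
    rw [← h]
    exact ⟨h1, Nat.count_nth_of_infinite Nat.infinite_setOfPred_prime i⟩

private lemma ppr_find {α : Type} [SCode α] {n : α → ℕ} {P : α → ℕ → Bool} (hn : PTime n)
    (hP : PTime (fun q : α × ℕ => P q.1 q.2)) {w : α → ℕ}
    (hw : ∀ a, w a ≤ n a ∧ P a (w a) = true ∧ ∀ j < w a, P a j = false) : PTime w := by
  have h1 : PTime (fun a => (List.range (n a + 1)).find? (P a)) :=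
    PTime.find? (PTime.range (PTime.succ hn)) hP
  refine (PTime.option_casesOn (g := fun _ => 0) (h := fun _ b => b) h1 (PTime.const 0)
      PTime.snd).of_eq fun a => ?_
  obtain ⟨h2, h3, h4⟩ := hw a
  have h5 : (List.range (n a + 1)).find? (P a) = some (w a) := by
    rw [List.find?_range_eq_some]
    refine ⟨h3, List.mem_range.2 (by omega), fun j hj => ?_⟩
    rw [h4 j hj]
    rfl
  rw [h5]

/-- **[ppr]** -/
theorem p_ppr : S_ppr := by
  intro hch hpb hwi α _
  have hA : ∀ (β : Type) (_ : SCode β) (f : β → ℕ), PTime f → PTime (fun a => pr (f a)) := by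
    intro β _ f hf
    obtain ⟨c, hc⟩ := hch
    refine ppr_find (n := fun a => c.eval (f a))
      (P := fun a p => decide p.Prime &&
        decide (((List.range p).filter (fun q => decide q.Prime)).length = f a))
      (PTime.polyEval c hf) ?_ fun a => ?_
    · refine PTime.and (ptime_prime PTime.snd) (PTime.nat_eq (PTime.length
        (PTime.filter (p := fun (_ : β × ℕ) q => decide q.Prime) (PTime.range PTime.snd)
          (ptime_prime PTime.snd))) (hf.comp PTime.fst))
    · have h0 : ∀ p, (decide p.Prime &&
        decide (((List.range p).filter (fun q => decide q.Prime)).length = f a)) =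
          decide (pr (f a) = p) := by
        intro p
        rw [ppr_len, ← Bool.decide_and, decide_eq_decide]
        exact ppr_iff p (f a)
      refine ⟨hc _, ?_, fun j hj => ?_⟩
      · rw [h0]
        exact decide_eq_true rfl
      · rw [h0]
        exact decide_eq_false (by omega)
  refine ⟨hA α _, fun f g hf hg => ?_⟩
  obtain ⟨h1, β, hβ⟩ := hwi hch hpb
  refine ppr_find (n := fun a => β.eval (f a + g a))
    (P := fun a i => decide (f a ≤ pr i) && decide (pr (i + g a) < 2 * pr i))
    (PTime.polyEval β (PTime.add hf hg)) ?_ fun a => ?_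
  · exact PTime.and (PTime.nat_le (hf.comp PTime.fst) (hA _ _ _ PTime.snd))
      (PTime.nat_lt (hA _ _ _ (PTime.add PTime.snd (hg.comp PTime.fst)))
        (PTime.mul (PTime.const 2) (hA _ _ _ PTime.snd)))
  · refine ⟨hβ _ _, ?_, fun j hj => ?_⟩
    · rw [Bool.and_eq_true, decide_eq_true_iff, decide_eq_true_iff]
      exact h1 _ _
    · rw [← Bool.decide_and]
      exact decide_eq_false (Nat.notMem_of_lt_sInf hj)

end Pool.Agent.Lib.MP_4b91fc_lc.GH
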