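import Pool.Agent.Lib.MP_4b91fc_lc.GH.Stm2

set_option autoImplicit false

/-!
# MP_4b91fc_lc, [GH prd]: `Rdig` in polynomial time
-/

namespace Pool.Agent.Lib.MP_4b91fc_lc.GH

open Finset Pool.Agent.PolyTime

open scoped Nat

private theorem prd_of_eq {α : Type} [SCode α] {f g : α → ℕ} (hf : PB f)
    (h : ∀ a, f a = g a) : PB g := by
  obtain rfl : f = g := funext h
  exact hf

private theorem prd_comp {α β : Type} [SCode α] [SCode β] {f : β → ℕ} {g : α → β} (hf : PB f)
    (hg : PTime g) : PB (fun a => f (g a)) :=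
  PTime.comp (f := fun b => (⟨f b⟩ : Big)) hf hg

theorem p_prd : S_prd := by
  intro hA hS hev m α _ U B H a pi w l q hU hB hH ha hpi hl hq
  obtain ⟨_, h2, _⟩ := hS hA m α inferInstance
  have hsum : ∀ f : α → Fin m → ℕ, (∀ i, PTime (fun x => f x i)) →
      PTime (fun x => ∑ i, f x i) := fun f hf => (h2 f hf).1
  have hofn : ∀ f : α → Fin m → ℕ, (∀ i, PTime (fun x => f x i)) →
      PTime (fun x => List.ofFn (f x)) := fun f hf => (h2 f hf).2
  have hprod : ∀ f : α → Fin m → ℕ, (∀ i, PB (fun x => f x i)) →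
      PB (fun x => ∏ i, f x i) := fun f hf => ((hS hA m α inferInstance).1 f hf).2
  -- the sums
  have hs : ∀ i, PTime (fun x => sw w (l x) (q x) i) := fun i =>
    PTime.sub (PTime.add (hq i (w i)) (hl i)) (PTime.mul (hl i) (hl (w i)))
  have hn : PTime (fun x => 2 * ∑ i, a x i * sw w (l x) (q x) i) :=
    PTime.mul (PTime.const 2) (hsum (fun x i => a x i * sw w (l x) (q x) i)
      (fun i => PTime.mul (ha i) (hs i)))
  have hL : PTime (fun x => ∑ i, l x i) := hsum l hl
  have hks : PTime (fun x => qks (a x)) :=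
    PTime.append (hofn (fun x i => 2 * a x i) (fun i => PTime.mul (PTime.const 2) (ha i)))
      (PTime.const [2])
  have hv : PTime (fun x => qv (a x) (pi x) (l x)) := by
    refine PTime.append (hofn (fun x i => 2 * (a x i * l x i +
      ∑ j, if j = i then 0 else pi x i j * l x j)) (fun i => PTime.mul (PTime.const 2)
        (PTime.add (PTime.mul (ha i) (hl i)) (hsum (fun x j => if j = i then 0 else
          pi x i j * l x j) (fun j => ?_))))) ?_
    · by_cases h : j = i
      · simp only [h, if_true]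
        exact PTime.const 0
      · simp only [h, if_false]
        exact PTime.mul (hpi i j) (hl j)
    · exact PTime.cons (PTime.mul (PTime.const 2) hL) (PTime.const [])
  have hqe : PTime (fun x => qe (a x) (pi x) (l x) (sw w (l x) (q x)) (q x)) := by
    refine PTime.add (hsum (fun x i => a x i * (sw w (l x) (q x) i + l x i * (l x i - 1)))
      (fun i => PTime.mul (ha i) (PTime.add (hs i) (PTime.mul (hl i)
        (PTime.sub (hl i) (PTime.const 1)))))) ?_
    refine hsum (fun x i => ∑ j, if i < j then 2 * pi x i j * q x i j else 0) (fun i => ?_)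
    refine hsum (fun x j => if i < j then 2 * pi x i j * q x i j else 0) (fun j => ?_)
    by_cases h : i < j
    · simp only [h, if_true]
      exact PTime.mul (PTime.mul (PTime.const 2) (hpi i j)) (hq i j)
    · simp only [h, if_false]
      exact PTime.const 0
  -- the value of the refined sum
  have hF : PB (fun x => ev (U x) (qks (a x)) (2 * ∑ i, a x i * sw w (l x) (q x) i)
      (∑ i, l x i) (qv (a x) (pi x) (l x))) := by
    have h1 := prd_comp (f := fun p : α × List ℕ × ℕ × ℕ × List ℕ =>
      if p.2.1.length = m + 1 then ev (U p.1) p.2.1 p.2.2.1 p.2.2.2.1 p.2.2.2.2 else 0)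
      (g := fun x => (x, qks (a x), 2 * ∑ i, a x i * sw w (l x) (q x) i, ∑ i, l x i,
        qv (a x) (pi x) (l x))) (hev (m + 1) α inferInstance U hU)
      (PTime.pair PTime.id (PTime.pair hks (PTime.pair hn (PTime.pair hL hv))))
    refine prd_of_eq h1 (fun x => ?_)
    have h2 : (qks (a x)).length = m + 1 := by
      unfold qks
      simp
    simp only [h2, if_true]
  have h2c : PB (fun _ : α => 2) := hA.un _ _ _ (PTime.const 2)
  have hP : PB (fun x => ∏ i, (2 * a x i) ^ l x i) :=
    hprod (fun x i => (2 * a x i) ^ l x i) (fun i => hA.pow _ _ _ _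
      (hA.un _ _ _ (PTime.mul (PTime.const 2) (ha i))) (hl i))
  have hBf : PB (fun x => (B x)! ^ m) :=
    hA.pow _ _ _ _ (hA.fact _ _ _ hB) (PTime.const m)
  have hnum := hA.mul _ _ _ _ (hA.mul _ _ _ _ hF hP) hBf
  have hden := hA.mul _ _ _ _ (hA.fact _ _ _ hn) (hA.pow _ _ _ _ h2c hqe)
  exact hA.mod _ _ _ _ (hA.div _ _ _ _ hnum hden) (hA.pow _ _ _ _ h2c hH)

end Pool.Agent.Lib.MP_4b91fc_lc.GH
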