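import Pool.Agent.Lib.MP_4b91fc_lc.GH.Stm2

set_option autoImplicit false

/-!
# `#GRAPHS` is hard for `#P_1`: sums over matrices in polynomial time (piece pt2)
-/

namespace Pool.Agent.Lib.MP_4b91fc_lc.GH

open Finset Pool.Agent.PolyTime

open scoped Nat

private theorem pt2_val {m : ℕ} (i j : Fin m) :
    ((finProdFinEquiv (i, j) : Fin (m * m)) : ℕ) = (i : ℕ) * m + j := by
  rw [finProdFinEquiv_apply_val]
  simp only
  ring

private theorem pt2_sum (m : ℕ) (s : Fin m → Fin m → Finset ℕ) (g : (Fin m → Fin m → ℕ) → ℕ) :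
    ∑ q ∈ Fintype.piFinset (fun i : Fin m => Fintype.piFinset (fun j : Fin m => s i j)), g q =
      ∑ t ∈ Fintype.piFinset (fun k : Fin (m * m) =>
        s (finProdFinEquiv.symm k).1 (finProdFinEquiv.symm k).2),
        g (fun i j => t (finProdFinEquiv (i, j))) := by
  refine Finset.sum_bij'
    (fun q _ => fun k : Fin (m * m) => q (finProdFinEquiv.symm k).1 (finProdFinEquiv.symm k).2)
    (fun t _ => fun i j => t (finProdFinEquiv (i, j))) ?_ ?_ ?_ ?_ ?_
  · intro q hq
    rw [Fintype.mem_piFinset] at hq
    rw [Fintype.mem_piFinset]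
    intro k
    have h := hq (finProdFinEquiv.symm k).1
    rw [Fintype.mem_piFinset] at h
    exact h _
  · intro t ht
    rw [Fintype.mem_piFinset] at ht
    rw [Fintype.mem_piFinset]
    intro i
    rw [Fintype.mem_piFinset]
    intro j
    have h := ht (finProdFinEquiv (i, j))
    rw [Equiv.symm_apply_apply] at h
    exact h
  · intro q _
    funext i j
    show q (finProdFinEquiv.symm (finProdFinEquiv (i, j))).1
      (finProdFinEquiv.symm (finProdFinEquiv (i, j))).2 = q i j
    rw [Equiv.symm_apply_apply]
  · intro t _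
    funext k
    show t (finProdFinEquiv ((finProdFinEquiv.symm k).1, (finProdFinEquiv.symm k).2)) = t k
    rw [Prod.mk.eta, Equiv.apply_symm_apply]
  · intro q _
    have e : (fun i j : Fin m => q (finProdFinEquiv.symm (finProdFinEquiv (i, j))).1
        (finProdFinEquiv.symm (finProdFinEquiv (i, j))).2) = q := by
      funext i j
      rw [Equiv.symm_apply_apply]
    exact (congrArg g e).symm

theorem p_pt2 : S_pt2 := by
  intro hT _ m α iα bd f hbd hf
  have hf' : PTime (fun p : α × List ℕ =>
      (⟨f p.1 (fun i j => p.2.getD (i * m + j) 0)⟩ : Big)) := hf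
  have h1 : PB (fun p : α × List ℕ =>
      f p.1 (fun i j : Fin m =>
        (fun k : Fin (m * m) => p.2.getD k 0) (finProdFinEquiv (i, j)))) := by
    refine hf'.of_eq fun p => ?_
    congr 2
    funext i j
    show p.2.getD (i * m + j) 0 = p.2.getD ((finProdFinEquiv (i, j) : Fin (m * m)) : ℕ) 0
    rw [pt2_val]
  have h2 : ∀ k : Fin (m * m), PTime (fun a =>
      if (finProdFinEquiv.symm k).1 < (finProdFinEquiv.symm k).2 then bd a else 1) := by
    intro k
    by_cases hk : (finProdFinEquiv.symm k).1 < (finProdFinEquiv.symm k).2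
    · simp only [hk, if_true]
      exact hbd
    · simp only [hk, if_false]
      exact PTime.const 1
  have h3 := hT ‹_› (m * m) α iα (fun a k =>
      if (finProdFinEquiv.symm k).1 < (finProdFinEquiv.symm k).2 then bd a else 1)
    (fun a t => f a (fun i j => t (finProdFinEquiv (i, j)))) h2 h1
  have h4 : PTime (fun a => (⟨∑ t ∈ Fintype.piFinset (fun k : Fin (m * m) =>
      range (if (finProdFinEquiv.symm k).1 < (finProdFinEquiv.symm k).2 then bd a else 1)),
      f a (fun i j => t (finProdFinEquiv (i, j)))⟩ : Big)) := h3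
  refine h4.of_eq fun a => ?_
  congr 1
  refine Eq.trans ?_ (pt2_sum m (fun i j => if i < j then range (bd a) else {0}) (f a)).symm
  refine Finset.sum_congr ?_ fun _ _ => rfl
  congr 1
  funext k
  by_cases hk : (finProdFinEquiv.symm k).1 < (finProdFinEquiv.symm k).2
  · simp only [hk, if_true]
  · simp only [hk, if_false]
    rfl

end Pool.Agent.Lib.MP_4b91fc_lc.GH
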