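import Pool.Agent.Lib.MP_4b91fc_lc.GH.Stm2

set_option autoImplicit false

/-!
# `#GRAPHS` is hard for `#P_1`: sums over tuples in polynomial time (piece ptu)
-/

namespace Pool.Agent.Lib.MP_4b91fc_lc.GH

open Finset Pool.Agent.PolyTime

open scoped Nat

private theorem ptu_sum (m : ℕ) (s : Fin (m + 1) → Finset ℕ) (g : (Fin (m + 1) → ℕ) → ℕ) :
    ∑ t ∈ Fintype.piFinset s, g t =
      ∑ x ∈ s 0, ∑ t ∈ Fintype.piFinset (fun i : Fin m => s i.succ), g (Fin.cons x t) := by
  rw [← Finset.sum_product']
  refine Finset.sum_bij' (fun t _ => (t 0, fun i : Fin m => t i.succ))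
    (fun p _ => Fin.cons p.1 p.2) ?_ ?_ ?_ ?_ ?_
  · intro t ht
    rw [Fintype.mem_piFinset] at ht
    rw [Finset.mem_product, Fintype.mem_piFinset]
    exact ⟨ht 0, fun i => ht i.succ⟩
  · intro p hp
    rw [Finset.mem_product, Fintype.mem_piFinset] at hp
    rw [Fintype.mem_piFinset]
    intro i
    refine Fin.cases ?_ (fun j => ?_) i
    · exact hp.1
    · exact hp.2 j
  · intro t _
    funext i
    refine Fin.cases ?_ (fun j => ?_) i
    · rfl
    · rfl
  · intro p _
    rfl
  · intro t _
    congr 1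
    funext i
    refine Fin.cases ?_ (fun j => ?_) i
    · rfl
    · rfl

theorem p_ptu : S_ptu := by
  intro hA m
  induction m with
  | zero =>
    intro α iα bd f _ hf
    have hf' : PTime (fun p : α × List ℕ => (⟨f p.1 (fun i => p.2.getD i 0)⟩ : Big)) := hf
    have h : PTime (fun a : α => (⟨f a (fun i : Fin 0 => ([] : List ℕ).getD i 0)⟩ : Big)) :=
      hf'.comp (PTime.id.pair (PTime.const ([] : List ℕ)))
    refine h.of_eq fun a => ?_
    have e : Fintype.piFinset (fun i : Fin 0 => range (bd a i)) =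
        {fun i : Fin 0 => ([] : List ℕ).getD i 0} := by
      apply Finset.eq_singleton_iff_unique_mem.2
      refine ⟨?_, fun t _ => funext fun i => i.elim0⟩
      rw [Fintype.mem_piFinset]
      intro i
      exact i.elim0
    simp only [e, Finset.sum_singleton]
  | succ m ih =>
    intro α iα bd f hbd hf
    have hf' : PTime (fun p : α × List ℕ => (⟨f p.1 (fun i => p.2.getD i 0)⟩ : Big)) := hf
    have h1 : PB (fun q : (α × ℕ) × List ℕ =>
        f q.1.1 (Fin.cons q.1.2 (fun i : Fin m => q.2.getD i 0))) := by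
      have h2 : PTime (fun q : (α × ℕ) × List ℕ =>
          (⟨f q.1.1 (fun i : Fin (m + 1) => (q.1.2 :: q.2).getD i 0)⟩ : Big)) :=
        hf'.comp ((PTime.fst.comp PTime.fst).pair
          (PTime.cons (PTime.snd.comp PTime.fst) PTime.snd))
      refine h2.of_eq fun q => ?_
      congr 2
      funext i
      refine Fin.cases ?_ (fun j => ?_) i
      · rfl
      · rfl
    have h3 : PB (fun p : α × ℕ => ∑ t ∈ Fintype.piFinset (fun i : Fin m =>
        range (bd p.1 i.succ)), f p.1 (Fin.cons p.2 t)) :=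
      ih (α × ℕ) inferInstance (fun p i => bd p.1 i.succ) (fun p t => f p.1 (Fin.cons p.2 t))
        (fun i => (hbd i.succ).comp PTime.fst) h1
    have h4 := hA.sum α iα (fun a => bd a 0) (fun a x => ∑ t ∈ Fintype.piFinset
      (fun i : Fin m => range (bd a i.succ)), f a (Fin.cons x t)) (hbd 0) h3
    have h5 : PTime (fun a => (⟨∑ x ∈ range (bd a 0), ∑ t ∈ Fintype.piFinset
      (fun i : Fin m => range (bd a i.succ)), f a (Fin.cons x t)⟩ : Big)) := h4
    refine h5.of_eq fun a => ?_
    congr 1
    exact (ptu_sum m (fun i => range (bd a i)) (f a)).symm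

end Pool.Agent.Lib.MP_4b91fc_lc.GH
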