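import Pool.Agent.Lib.MP_4b91fc_lc.GH.Stm4

set_option autoImplicit false

/-!
# MP_4b91fc_lc, [GH red]: the reduction
-/

namespace Pool.Agent.Lib.MP_4b91fc_lc.GH

open Finset Pool.Agent.PolyTime Turing

private theorem red_orac : PB (fun t : List Big × ℕ => orac t.1 t.2) :=
  (PTime.getD (d := fun _ : List Big × ℕ => (⟨0⟩ : Big)) PTime.snd PTime.fst
    (PTime.const _)).of_eq fun _ => rfl

private theorem red_G (g : List Big → ℕ → ℕ)
    (hg : PB (fun t : List Big × ℕ => g t.1 t.2)) (dec : List Bool → ℕ × List Big)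
    (hdec : PTime dec) : PTime (fun w : List Bool => (g (dec w).2 (dec w).1).bits) := by
  have h3 : PTime (fun w : List Bool => (⟨g (dec w).2 (dec w).1⟩ : Big)) :=
    PTime.comp (f := fun t : List Big × ℕ => (⟨g t.1 t.2⟩ : Big))
      (g := fun w : List Bool => ((dec w).2, (dec w).1)) hg
      (PTime.pair (PTime.snd.comp hdec) (PTime.fst.comp hdec))
  exact ptime_bits h3

private theorem red_list (U : ℕ → ℕ) (c i : ℕ) (hi : i ≤ c) :
    orac (((List.range (c + 1)).map U).map (fun v => (⟨v⟩ : Big))) i = U i := by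
  have hi' : i < c + 1 := Nat.lt_succ_of_le hi
  simp only [orac]
  rw [List.getD_eq_getElem?_getD, List.getElem?_map, List.getElem?_map, List.getElem?_range hi']
  rfl

theorem p_red : S_red := by
  intro hf1 hf2 hf3 hdc hm1 f hf
  obtain ⟨N, q, hN, hf⟩ := hf
  obtain ⟨β, hβ⟩ := hf3 N q
  obtain ⟨dec, hdec, hdec'⟩ := hdc
  have h2 : PB (fun t : List Big × ℕ => GG N q (orac t.1) t.2) :=
    hf2 N q (List Big) _ orac red_orac
  have h1 := hf1 N q hN
  generalize GG N q = g at h1 h2 hβ
  have hG := red_G (fun l n => g (orac l) n) h2 dec hdec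
  refine ⟨β, fun w => (g (orac (dec w).2) (dec w).1).bits, hm1 _ hG, fun n => ?_⟩
  have h4 : g (orac (dec (query n ((List.range (β.eval n + 1)).map numGraphs))).2)
      (dec (query n ((List.range (β.eval n + 1)).map numGraphs))).1 = f n := by
    rw [hdec', hf, ← h1 n]
    exact hβ _ _ n fun i hi => red_list numGraphs _ i hi
  exact congrArg Nat.bits h4

end Pool.Agent.Lib.MP_4b91fc_lc.GH
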