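import Pool.Agent.Lib.MP_4b91fc_lc.GH.Stm2

set_option autoImplicit false

/-!
# `S_rs`: the algorithm counts the solutions of a relational system
-/

namespace Pool.Agent.Lib.MP_4b91fc_lc.GH

open Finset

private lemma rs_qs_comm (X Y : Finset ℕ) : qs X Y = qs Y X := by
  unfold qs
  rw [Finset.sum_comm]
  refine Finset.sum_congr rfl fun y _ => Finset.sum_congr rfl fun x _ => Nat.gcd_comm x y

private lemma rs_qs_le (X Y : Finset ℕ) (hX : ∀ x ∈ X, 2 ≤ x) :
    qs X Y ≤ Y.card * ∑ x ∈ X, x := by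
  unfold qs
  rw [Finset.mul_sum]
  refine Finset.sum_le_sum fun x hx => ?_
  calc ∑ y ∈ Y, Nat.gcd x y ≤ ∑ _y ∈ Y, x :=
        Finset.sum_le_sum fun y _ => Nat.gcd_le_left y (by have := hX x hx; omega)
    _ = Y.card * x := by rw [Finset.sum_const, smul_eq_mul]

private lemma rs_symq_comm {m : ℕ} (q : Fin m → Fin m → ℕ) (i j : Fin m) :
    symq q i j = symq q j i := by
  unfold symq
  rcases lt_trichotomy i j with h | h | h
  · rw [if_pos h, if_neg (not_lt.mpr h.le)]
  · rw [h]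
  · rw [if_neg (not_lt.mpr h.le), if_pos h]

private lemma rs_symq_eq {m : ℕ} {X : Fin m → Finset ℕ} {q : Fin m → Fin m → ℕ}
    (h : ∀ i j, i < j → qs (X i) (X j) = q i j) (i j : Fin m) (hij : i ≠ j) :
    symq q i j = qs (X i) (X j) := by
  unfold symq
  rcases lt_or_gt_of_ne hij with h1 | h1
  · rw [if_pos h1, h i j h1]
  · rw [if_neg (not_lt.mpr h1.le), ← h j i h1, rs_qs_comm]

/-- the statistics of a tuple -/
private def rs_q {m : ℕ} (X : Fin m → Finset ℕ) (i j : Fin m) : ℕ :=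
  if i < j then qs (X i) (X j) else 0

private lemma rs_le_of_sum {m : ℕ} {f : Fin m → ℕ} {S : ℕ} (h : ∑ i, f i ≤ S) (i : Fin m) :
    f i ≤ S := (Finset.single_le_sum (fun j _ => Nat.zero_le (f j)) (Finset.mem_univ i)).trans h

private lemma rs_mem_Sol {m : ℕ} {R : RS m} {num : (Fin m → ℕ) → (Fin m → ℕ) → Bool} {S B : ℕ}
    {X : Fin m → Finset ℕ} : X ∈ Sol R num S B ↔
      (∀ i, X i ∈ (Icc 2 B).powerset) ∧
      (∀ i, PCs (X i)) ∧ (∀ i j, R.dv i j = true → Dvs (X i) (X j)) ∧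
      (∀ i j, R.cp i j = true → Cop (X i) (X j)) ∧
      num (fun i => (X i).card) (fun i => ∑ x ∈ X i, x) = true ∧
      ∑ i, (X i).card ≤ S ∧ ∑ i, ∑ x ∈ X i, x ≤ S := by
  unfold Sol
  rw [Finset.mem_filter, Fintype.mem_piFinset]

private lemma rs_mem_CL {m : ℕ} {B : ℕ} {w : Fin m → Fin m} {l : Fin m → ℕ}
    {q : Fin m → Fin m → ℕ} {X : Fin m → Finset ℕ} : X ∈ CL B w l q ↔
      (∀ i, X i ∈ (Icc 2 B).powerset) ∧
      (∀ i, PCs (X i) ∧ (X i).card = l i ∧ Dvs (X i) (X (w i))) ∧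
      ∀ i j, i < j → qs (X i) (X j) = q i j := by
  unfold CL
  rw [Finset.mem_filter, Fintype.mem_piFinset]

private lemma rs_okq {m : ℕ} {R : RS m} {num : (Fin m → ℕ) → (Fin m → ℕ) → Bool} {S : ℕ}
    {l : Fin m → ℕ} {q : Fin m → Fin m → ℕ} : okq R num S l q = true ↔
      ((∀ i, l i * l (R.w i) ≤ q i (R.w i) + l i) ∧
      (∀ i j, R.dv i j = true → q i j + l i = l i * l j + sw R.w l q i) ∧
      (∀ i j, R.cp i j = true → q i j = l i * l j) ∧
      ∑ i, l i ≤ S ∧ ∑ i, sw R.w l q i ≤ S) ∧ num l (sw R.w l q) = true := by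
  unfold okq
  rw [Bool.and_eq_true, decide_eq_true_eq]

private lemma rs_fwd (h1 : S_w1) (h2 : S_w2) {m S B : ℕ} {R : RS m}
    {num : (Fin m → ℕ) → (Fin m → ℕ) → Bool} {X : Fin m → Finset ℕ} (hX : X ∈ Sol R num S B) :
    okq R num S (fun i => (X i).card) (symq (rs_q X)) = true ∧
      X ∈ CL B R.w (fun i => (X i).card) (symq (rs_q X)) := by
  obtain ⟨hP, hPC, hdv, hcp, hnum, hc, hs⟩ := rs_mem_Sol.mp hX
  have hq : ∀ i j, i ≠ j → symq (rs_q X) i j = qs (X i) (X j) :=
    rs_symq_eq (X := X) (q := rs_q X) (fun i j h => by unfold rs_q; rw [if_pos h])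
  have he : ∀ i j, R.dv i j = true →
      qs (X i) (X j) + (X i).card = (X i).card * (X j).card + ∑ x ∈ X i, x := fun i j h =>
    ((h1 (X i) (X j) (hPC i).1 (hPC j)).2).mpr (hdv i j h)
  have hsw : ∀ i, sw R.w (fun i => (X i).card) (symq (rs_q X)) i = ∑ x ∈ X i, x := by
    intro i
    have h3 := he i (R.w i) (R.hw i).2
    unfold sw
    rw [hq i (R.w i) (R.hw i).1.symm]
    change qs (X i) (X (R.w i)) + (X i).card - (X i).card * (X (R.w i)).card = ∑ x ∈ X i, x
    omega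
  have hsw' : sw R.w (fun i => (X i).card) (symq (rs_q X)) = fun i => ∑ x ∈ X i, x := funext hsw
  constructor
  · rw [rs_okq]
    refine ⟨⟨fun i => ?_, fun i j h => ?_, fun i j h => ?_, hc, ?_⟩, ?_⟩
    · have h3 := he i (R.w i) (R.hw i).2
      rw [hq i (R.w i) (R.hw i).1.symm]
      change (X i).card * (X (R.w i)).card ≤ qs (X i) (X (R.w i)) + (X i).card
      omega
    · rw [hq i j (R.hd i j h), hsw i]
      exact he i j h
    · rw [hq i j (R.hc i j h)]
      exact ((h2 (X i) (X j) (fun x hx => by have := (hPC i).1 x hx; omega)).2).mpr (hcp i j h)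
    · rw [hsw']
      exact hs
    · rw [hsw']
      exact hnum
  · rw [rs_mem_CL]
    exact ⟨hP, fun i => ⟨hPC i, rfl, hdv i (R.w i) (R.hw i).2⟩, fun i j h => (hq i j h.ne).symm⟩

private lemma rs_bwd (h1 : S_w1) (h2 : S_w2) {m S B : ℕ} {R : RS m}
    {num : (Fin m → ℕ) → (Fin m → ℕ) → Bool} {l : Fin m → ℕ} {q : Fin m → Fin m → ℕ}
    (hok : okq R num S l (symq q) = true) {X : Fin m → Finset ℕ}
    (hX : X ∈ CL B R.w l (symq q)) :
    X ∈ Sol R num S B ∧ (fun i => (X i).card) = l ∧ ∀ i j, i < j → qs (X i) (X j) = q i j := by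
  obtain ⟨hP, hPC, hqs⟩ := rs_mem_CL.mp hX
  obtain ⟨⟨ha, hb, hc, hd, he⟩, hnum⟩ := rs_okq.mp hok
  have hq0 : ∀ i j, i < j → qs (X i) (X j) = q i j := by
    intro i j h
    rw [hqs i j h]
    unfold symq
    rw [if_pos h]
  have hq : ∀ i j, i ≠ j → symq q i j = qs (X i) (X j) := rs_symq_eq hq0
  have hl : (fun i => (X i).card) = l := funext fun i => (hPC i).2.1
  have hsw : ∀ i, ∑ x ∈ X i, x = sw R.w l (symq q) i := by
    intro i
    have h3 := ((h1 (X i) (X (R.w i)) (hPC i).1.1 (hPC (R.w i)).1).2).mpr (hPC i).2.2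
    rw [(hPC i).2.1, (hPC (R.w i)).2.1] at h3
    unfold sw
    rw [hq i (R.w i) (R.hw i).1.symm]
    omega
  have hsw' : (fun i => ∑ x ∈ X i, x) = sw R.w l (symq q) := funext hsw
  refine ⟨?_, hl, hq0⟩
  rw [rs_mem_Sol]
  refine ⟨hP, fun i => (hPC i).1, fun i j h => ?_, fun i j h => ?_, ?_, ?_, ?_⟩
  · refine ((h1 (X i) (X j) (hPC i).1.1 (hPC j).1).2).mp ?_
    have h3 := hb i j h
    rw [hq i j (R.hd i j h), ← hsw i] at h3
    rw [(hPC i).2.1, (hPC j).2.1]
    exact h3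
  · refine ((h2 (X i) (X j) (fun x hx => by have := (hPC i).1.1 x hx; omega)).2).mp ?_
    rw [(hPC i).2.1, (hPC j).2.1, ← hc i j h, hq i j (R.hc i j h)]
  · rw [hl, hsw']
    exact hnum
  · have : ∑ i, (X i).card = ∑ i, l i := Finset.sum_congr rfl fun i _ => (hPC i).2.1
    rw [this]
    exact hd
  · rw [Finset.sum_congr rfl fun i _ => hsw i]
    exact he

theorem p_rs : S_rs := by
  intro h1 h2 m S B H a pi hT hR R num
  have hmap1 : ∀ X ∈ Sol R num S B, (fun i => (X i).card) ∈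
      Fintype.piFinset (fun _ : Fin m => range (S + 1)) := by
    intro X hX
    obtain ⟨-, -, -, -, -, hc, -⟩ := rs_mem_Sol.mp hX
    rw [Fintype.mem_piFinset]
    intro i
    rw [Finset.mem_range]
    have := rs_le_of_sum hc i
    omega
  have hmap2 : ∀ X ∈ Sol R num S B, rs_q X ∈
      Fintype.piFinset (fun i : Fin m => Fintype.piFinset (fun j : Fin m =>
        if i < j then range (B ^ 2 + 1) else {0})) := by
    intro X hX
    obtain ⟨-, hPC, -, -, -, hc, hs⟩ := rs_mem_Sol.mp hX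
    rw [Fintype.mem_piFinset]
    intro i
    rw [Fintype.mem_piFinset]
    intro j
    unfold rs_q
    split_ifs with h
    · rw [Finset.mem_range]
      have h3 := rs_qs_le (X i) (X j) (hPC i).1
      have h4 := rs_le_of_sum hc j
      have h5 := rs_le_of_sum hs i
      have h6 : (X j).card * ∑ x ∈ X i, x ≤ B * B :=
        Nat.mul_le_mul (h4.trans hT.hSB) (h5.trans hT.hSB)
      rw [sq]
      omega
    · exact Finset.mem_singleton_self 0
  rw [← Finset.sum_fiberwise_of_maps_to hmap1]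
  unfold algR
  refine Finset.sum_congr rfl fun l _ => ?_
  rw [← Finset.sum_fiberwise_of_maps_to (s := (Sol R num S B).filter (fun X =>
    (fun i => (X i).card) = l)) (g := fun X => rs_q X)
    (fun X hX => hmap2 X (Finset.mem_filter.mp hX).1)]
  refine Finset.sum_congr rfl fun q hq => ?_
  have hq1 : ∀ i j, i < j → q i j ≤ B ^ 2 := by
    intro i j h
    have h3 := Fintype.mem_piFinset.mp (Fintype.mem_piFinset.mp hq i) j
    rw [if_pos h, Finset.mem_range] at h3
    omega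
  have hq2 : ∀ i j, ¬ i < j → q i j = 0 := by
    intro i j h
    have h3 := Fintype.mem_piFinset.mp (Fintype.mem_piFinset.mp hq i) j
    rw [if_neg h, Finset.mem_singleton] at h3
    exact h3
  by_cases hok : okq R num S l (symq q) = true
  · rw [if_pos hok]
    obtain ⟨⟨ha, hb, hc, hd, he⟩, hnum⟩ := rs_okq.mp hok
    rw [hR R.w l (symq q) (fun i => (R.hw i).1) (rs_symq_comm q) ha hd he (by
      intro i j h
      unfold symq
      rw [if_pos h]
      exact hq1 i j h)]
    refine Finset.sum_congr ?_ fun _ _ => rfl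
    ext X
    rw [Finset.mem_filter, Finset.mem_filter]
    constructor
    · intro hX
      obtain ⟨h3, h4, h5⟩ := rs_bwd h1 h2 hok hX
      refine ⟨⟨h3, h4⟩, ?_⟩
      funext i j
      unfold rs_q
      split_ifs with h
      · exact h5 i j h
      · exact (hq2 i j h).symm
    · rintro ⟨⟨h3, h4⟩, h5⟩
      have h6 := (rs_fwd h1 h2 h3).2
      rw [h4, h5] at h6
      exact h6
  · rw [if_neg hok]
    symm
    refine Finset.sum_eq_zero fun X hX => ?_
    exfalso
    rw [Finset.mem_filter, Finset.mem_filter] at hX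
    obtain ⟨⟨h3, h4⟩, h5⟩ := hX
    have h6 := (rs_fwd h1 h2 h3).1
    rw [h4, h5] at h6
    exact hok h6

end Pool.Agent.Lib.MP_4b91fc_lc.GH
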