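import Pool.Agent.Lib.MP_4b91fc_lc.GH.Stm3

set_option autoImplicit false

/-!
# Exact counting of unlabelled graphs: every solution comes from a word, piece st
-/

namespace Pool.Agent.Lib.MP_4b91fc_lc.GH

open Finset Pool.Agent.PolyTime

open scoped Nat

/-- [st] -/
theorem p_st : S_st := by
  intro hpb hpa hzz h1 h2 P p hp X hX
  obtain ⟨a1, a2, a3, a4, a5, a6⟩ := h1 hpb hpa hzz P p hp X hX
  obtain ⟨f, hf, h⟩ := h2 hpb P p hp X hX a4 (fun o => ⟨(a5 o).2.1, (a5 o).2.2.1⟩)
    (fun j => (a6 j).2)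
  refine ⟨f, hf, ?_⟩
  funext t
  cases t with
  | Pt => exact a1
  | Pt' => exact a2
  | Pc => exact a3
  | C => exact a4
  | P o => exact (a5 o).1
  | D o => exact (a5 o).2.1
  | Z o => exact (a5 o).2.2.1
  | Z' o => exact (a5 o).2.2.2
  | PI j => exact (a6 j).1
  | I j => exact (a6 j).2
  | Ca a => exact (h a).1
  | Da a => exact (h a).2.1
  | Za o a => exact (h a).2.2 o

end Pool.Agent.Lib.MP_4b91fc_lc.GH
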