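import Pool.Agent.Lib.MP_4b91fc_lc.GH.Stm3

/-!
# Exact counting of unlabelled graphs: piece st1, the sets which do not depend on the word
-/

set_option autoImplicit false

namespace Pool.Agent.Lib.MP_4b91fc_lc.GH

open Finset

open scoped Nat

private theorem st1_sub {A B : Finset ℕ} (hA : PCs A) (hAB : Dvs A B) (hBA : Dvs B A) :
    A ⊆ B := by
  intro x hx
  obtain ⟨y, hy, hxy⟩ := hAB x hx
  obtain ⟨x', hx', hyx⟩ := hBA y hy
  have h1 : x = x' := by
    by_contra hne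
    have h2 := hA.2 x hx x' hx' hne
    have h3 : x ∣ x' := hxy.trans hyx
    have h4 : x = 1 := by
      have h7 : x ∣ Nat.gcd x x' := Nat.dvd_gcd dvd_rfl h3
      rw [h2] at h7
      exact Nat.dvd_one.1 h7
    have h5 := hA.1 x hx
    omega
  subst h1
  have h6 : x = y := Nat.dvd_antisymm hxy hyx
  rw [h6]
  exact hy

private theorem st1_mem {i t k : ℕ} (hk : k < t) : pr (i + k) ∈ pset i t := by
  unfold pset
  exact Finset.mem_image.2 ⟨k, Finset.mem_range.2 hk, rfl⟩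

/-- coprime to `pset 0 i` -/
private theorem st1_cop {X : Finset ℕ} {i : ℕ} (h : Cop X (pset 0 i)) :
    ∀ x ∈ X, ∀ k < i, Nat.Coprime x (pr k) := by
  intro x hx k hk
  have h1 : pr (0 + k) ∈ pset 0 i := st1_mem hk
  rw [Nat.zero_add] at h1
  exact h x hx _ h1

/-- [st1] The sets of a solution which do not depend on the word. -/
theorem p_st1 : S_st1 := by
  intro hb ha hz P p hp X hX
  obtain ⟨hP, hD, hC, hN⟩ := hX
  obtain ⟨⟨a1, a2, a3, a4⟩, ⟨b1, b2, b3, b4⟩, ho, hj, -, -⟩ := hN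
  have hno : ∀ Y : Finset ℕ, ∀ x ∈ Y, ∀ k < 0, Nat.Coprime x (pr k) :=
    fun Y x _ k hk => absurd hk (Nat.not_lt_zero k)
  have hPt : X .Pt = pset 0 p.it := ha hb 0 p.it _ (hP _) a1 a2 (hno _)
  have hPt' : X .Pt' = pset 0 p.it := ha hb 0 p.it _ (hP _) a3 a4 (hno _)
  have hPc : X .Pc = pset 0 p.iC := ha hb 0 p.iC _ (hP _) b1 b2 (hno _)
  have hCc : Cop (X .C) (pset 0 p.iC) := by
    rw [← hPc]
    exact hC .C .Pc rfl
  have hCe : X .C = pset p.iC p.M := ha hb p.iC p.M _ (hP _) b3 b4 (st1_cop hCc)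
  refine ⟨hPt, hPt', hPc, hCe, ?_, ?_⟩
  · intro o
    obtain ⟨c1, c2, c3, c4, c5, c6, c7, c8, -, -⟩ := ho o
    have hPo : X (.P o) = pset 0 (p.iD + p.sh o) := ha hb 0 _ _ (hP _) c1 c2 (hno _)
    have hDc : Cop (X (.D o)) (pset 0 (p.iD + p.sh o)) := by
      rw [← hPo]
      exact hC (.D o) (.P o) (by simp [cpS])
    have hDo : X (.D o) = pset (p.iD + p.sh o) p.M :=
      ha hb _ p.M _ (hP _) c3 c4 (st1_cop hDc)
    have hZ1 : Dvs (pset p.iC p.M) (X (.Z o)) := by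
      rw [← hCe]
      exact hD .C (.Z o) rfl
    have hZ2 : Dvs (pset (p.iD + p.sh o) p.M) (X (.Z o)) := by
      rw [← hDo]
      exact hD (.D o) (.Z o) (by simp [dvS])
    have hmono : Monotone pr := hb.2.1.monotone
    have hZo : X (.Z o) = zset p.iC (p.iD + p.sh o) p.M :=
      hz hb p.M p.iC (p.iD + p.sh o) (pr p.iC) (pr p.iD) _ hp.M_pos hp.lowC hp.lowD
        (fun k hk => ⟨hmono (by omega), hp.winC k hk⟩)
        (fun k hk => ⟨hmono (by omega), hp.winD o k hk⟩) (hP _) c5 c6 hZ1 hZ2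
    have hZZ : X (.Z' o) = X (.Z o) := by
      have e1 : Dvs (X (.Z o)) (X (.Z' o)) := hD (.Z o) (.Z' o) (by simp [dvS])
      have e2 : Dvs (X (.Z' o)) (X (.Z o)) := hD (.Z' o) (.Z o) (by simp [dvS])
      exact Finset.Subset.antisymm (st1_sub (hP _) e2 e1) (st1_sub (hP _) e1 e2)
    exact ⟨hPo, hDo, hZo, hZZ.trans hZo⟩
  · intro j
    obtain ⟨c1, c2, c3, c4⟩ := hj j
    have hPI : X (.PI j) = pset 0 (p.iC + p.M - p.y j) := ha hb 0 _ _ (hP _) c1 c2 (hno _)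
    have hIc : Cop (X (.I j)) (pset 0 (p.iC + p.M - p.y j)) := by
      rw [← hPI]
      exact hC (.I j) (.PI j) (by simp [cpS])
    exact ⟨hPI, ha hb _ _ _ (hP _) c3 c4 (st1_cop hIc)⟩

end Pool.Agent.Lib.MP_4b91fc_lc.GH
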