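import Pool.Agent.Lib.MP_4b91fc_lc.GH.Stm3

set_option autoImplicit false

namespace Pool.Agent.Lib.MP_4b91fc_lc.GH

open Finset

private lemma st2_dvd_prime {u v : ℕ} (hv : v.Prime) (hu : 2 ≤ u) (h : u ∣ v) : u = v := by
  rcases (Nat.dvd_prime hv).mp h with h1 | h1
  · omega
  · exact h1

theorem p_st2 : S_st2 := by
  classical
  intro hpb P p hg X hX hC hDZ hI
  obtain ⟨prP, prM, -, -, -, -, -⟩ := hpb
  obtain ⟨hPC, hDv, hCp, hN⟩ := hX
  obtain ⟨-, ⟨-, -, hlC, -⟩, hNo, -, hlDa, hlCa⟩ := hN
  have prI : Function.Injective pr := prM.injective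
  obtain ⟨c, hc⟩ : ∃ c : Fin p.M → ℕ, ∀ k, c k = pr (p.iC + (p.M - 1 - (k : ℕ))) :=
    ⟨_, fun _ => rfl⟩
  obtain ⟨d, hd⟩ : ∃ d : Option (Fin P.r) → Fin p.M → ℕ,
      ∀ o k, d o k = pr (p.iD + p.sh o + (k : ℕ)) := ⟨_, fun _ _ => rfl⟩
  have cP : ∀ k, (c k).Prime := fun k => by rw [hc]; exact prP _
  have dP : ∀ o k, (d o k).Prime := fun o k => by rw [hd]; exact prP _
  have cI : Function.Injective c := by
    intro k l h
    rw [hc, hc] at h
    have h1 := prI h
    apply Fin.ext
    have := k.2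
    have := l.2
    omega
  have dI : ∀ o, Function.Injective (d o) := by
    intro o k l h
    rw [hd, hd] at h
    have h1 := prI h
    apply Fin.ext
    omega
  have hcd : ∀ o k l, c k < d o l := by
    intro o k l
    have h1 : c k < 2 * pr p.iC := by
      rw [hc]
      exact hg.winC (p.M - 1 - (k : ℕ)) (by have := k.2; omega)
    have h2 : pr p.iD ≤ d o l := by
      rw [hd]
      exact prM.monotone (by omega)
    have h3 := hg.lowD
    have h4 : 4 * 1 * pr p.iC ≤ 4 * p.M * pr p.iC :=
      Nat.mul_le_mul_right _ (Nat.mul_le_mul_left _ hg.M_pos)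
    omega
  have ckdvd : ∀ o k l, c k ∣ c l * d o l → k = l := by
    intro o k l h
    rcases (cP k).dvd_mul.mp h with h1 | h1
    · exact cI ((Nat.prime_dvd_prime_iff_eq (cP k) (cP l)).mp h1)
    · have h2 := (Nat.prime_dvd_prime_iff_eq (cP k) (dP o l)).mp h1
      have h3 := hcd o k l
      omega
  have memC : ∀ u, u ∈ X .C ↔ ∃ k, c k = u := by
    intro u
    rw [hC]
    unfold pset
    rw [Finset.mem_image]
    constructor
    · rintro ⟨k, hk, rfl⟩
      rw [Finset.mem_range] at hk
      refine ⟨⟨p.M - 1 - k, by omega⟩, ?_⟩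
      rw [hc]
      congr 2
      show p.M - 1 - (p.M - 1 - k) = k
      omega
    · rintro ⟨k, rfl⟩
      refine ⟨p.M - 1 - (k : ℕ), ?_, (hc k).symm⟩
      rw [Finset.mem_range]
      have := k.2
      omega
  have memZ : ∀ o u, u ∈ X (.Z o) → ∃ k, c k * d o k = u := by
    intro o u hu
    rw [(hDZ o).2] at hu
    unfold zset at hu
    rw [Finset.mem_image] at hu
    obtain ⟨k, hk, rfl⟩ := hu
    rw [Finset.mem_range] at hk
    exact ⟨⟨k, hk⟩, by rw [hc, hd]⟩
  have memD : ∀ u, u ∈ X (.D none) → ∃ k, d none k = u := by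
    intro u hu
    rw [(hDZ none).1] at hu
    unfold pset at hu
    rw [Finset.mem_image] at hu
    obtain ⟨k, hk, rfl⟩ := hu
    rw [Finset.mem_range] at hk
    exact ⟨⟨k, hk⟩, by rw [hd]⟩
  -- the sets of the letters in `C`
  have CaSub : ∀ a u, u ∈ X (.Ca a) → u ∈ X .C := by
    intro a u hu
    obtain ⟨v, hv, huv⟩ := hDv (.Ca a) .C (by simp [dvS]) u hu
    obtain ⟨k, rfl⟩ := (memC v).mp hv
    rw [st2_dvd_prime (cP k) ((hPC (.Ca a)).1 u hu) huv]
    exact hv
  have CaDis : ∀ a a' u, u ∈ X (.Ca a) → u ∈ X (.Ca a') → a = a' := by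
    intro a a' u h h'
    by_contra hne
    have h1 := hCp (.Ca a) (.Ca a') (by simp [cpS, hne]) u h u h'
    have h2 := (Nat.coprime_self u).mp h1
    have h3 := (hPC (.Ca a)).1 u h
    omega
  have hU : (univ : Finset P.A).biUnion (fun a => X (.Ca a)) = X .C := by
    apply Finset.eq_of_subset_of_card_le
    · intro u hu
      rw [Finset.mem_biUnion] at hu
      obtain ⟨a, -, hua⟩ := hu
      exact CaSub a u hua
    · rw [Finset.card_biUnion]
      · rw [hlCa]
        exact hlC.le
      · intro a _ a' _ hne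
        show Disjoint (X (.Ca a)) (X (.Ca a'))
        rw [Finset.disjoint_left]
        intro u h h'
        exact hne (CaDis a a' u h h')
  have hex : ∀ k, ∃ a, c k ∈ X (.Ca a) := by
    intro k
    have h1 : c k ∈ (univ : Finset P.A).biUnion (fun a => X (.Ca a)) := by
      rw [hU]
      exact (memC _).mpr ⟨k, rfl⟩
    rw [Finset.mem_biUnion] at h1
    obtain ⟨a, -, ha⟩ := h1
    exact ⟨a, ha⟩
  choose f hf using hex
  have hCa : ∀ a, X (.Ca a) = (univ.filter (fun k => f k = a)).image c := by
    intro a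
    ext u
    rw [Finset.mem_image]
    constructor
    · intro hu
      obtain ⟨k, rfl⟩ := (memC u).mp (CaSub a u hu)
      exact ⟨k, Finset.mem_filter.mpr ⟨Finset.mem_univ _, CaDis _ _ _ (hf k) hu⟩, rfl⟩
    · rintro ⟨k, hk, rfl⟩
      rw [Finset.mem_filter] at hk
      rw [← hk.2]
      exact hf k
  have hCac : ∀ a, (X (.Ca a)).card = (univ.filter (fun k => f k = a)).card := by
    intro a
    rw [hCa a, Finset.card_image_of_injective _ cI]
  -- the sets `Za`
  have hwex : ∀ o k, ∃ w, w ∈ X (.Za o (f k)) ∧ c k ∣ w ∧ w ∣ c k * d o k := by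
    intro o k
    obtain ⟨w, hw, hcw⟩ := hDv (.Ca (f k)) (.Za o (f k)) (by simp [dvS]) (c k) (hf k)
    obtain ⟨z, hz, hwz⟩ := hDv (.Za o (f k)) (.Z o) (by simp [dvS]) w hw
    obtain ⟨l, rfl⟩ := memZ o z hz
    have h1 := ckdvd o k l (hcw.trans hwz)
    subst h1
    exact ⟨w, hw, hcw, hwz⟩
  choose w hw1 hw2 hw3 using hwex
  have wI : ∀ o, Function.Injective (w o) := by
    intro o k l h
    have h1 : c l ∣ c k * d o k := (hw2 o l).trans (h ▸ hw3 o k)
    exact (ckdvd o l k h1).symm
  have hZa : ∀ o a, X (.Za o a) = (univ.filter (fun k => f k = a)).image (w o) := by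
    intro o a
    symm
    apply Finset.eq_of_subset_of_card_le
    · intro u hu
      rw [Finset.mem_image] at hu
      obtain ⟨k, hk, rfl⟩ := hu
      rw [Finset.mem_filter] at hk
      rw [← hk.2]
      exact hw1 o k
    · rw [Finset.card_image_of_injective _ (wI o), ← hCac]
      obtain ⟨-, -, -, -, -, -, -, -, h9, -⟩ := hNo o
      exact (h9 a).le
  have hsum : ∀ o, ∑ k, w o k = ∑ k, c k * d o k := by
    intro o
    obtain ⟨-, -, -, -, -, -, -, -, -, h10⟩ := hNo o
    have h1 : ∑ a, ∑ u ∈ X (.Za o a), u = ∑ k, w o k := by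
      rw [← Finset.sum_fiberwise (s := (univ : Finset (Fin p.M))) (g := f) (f := w o)]
      apply Finset.sum_congr rfl
      intro a _
      rw [hZa o a, Finset.sum_image]
      intro x _ y _ hxy
      exact wI o hxy
    rw [← h1, h10]
    unfold zsum
    rw [Finset.sum_range]
    apply Finset.sum_congr rfl
    intro k _
    rw [hc, hd]
  have hwz : ∀ o k, w o k = c k * d o k := by
    intro o k
    have h1 : ∀ k ∈ (univ : Finset (Fin p.M)), w o k ≤ c k * d o k := fun k _ =>
      Nat.le_of_dvd (Nat.mul_pos (cP k).pos (dP o k).pos) (hw3 o k)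
    exact (Finset.sum_eq_sum_iff_of_le h1).mp (hsum o) k (Finset.mem_univ _)
  -- the sets `Da`
  have hDa : ∀ a, X (.Da a) = (univ.filter (fun k => f k = a)).image (d none) := by
    intro a
    apply Finset.eq_of_subset_of_card_le
    · intro u hu
      obtain ⟨v, hv, huv⟩ := hDv (.Da a) (.D none) (by simp [dvS]) u hu
      obtain ⟨k, rfl⟩ := memD v hv
      have h1 := st2_dvd_prime (dP none k) ((hPC (.Da a)).1 u hu) huv
      subst h1
      obtain ⟨z, hz, hzd⟩ := hDv (.Da a) (.Za none a) (by simp [dvS]) _ hu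
      rw [hZa none a, Finset.mem_image] at hz
      obtain ⟨l, hl, rfl⟩ := hz
      rw [hwz none l] at hzd
      have h2 : k = l := by
        rcases (dP none k).dvd_mul.mp hzd with h3 | h3
        · have h4 := (Nat.prime_dvd_prime_iff_eq (dP none k) (cP l)).mp h3
          have h5 := hcd none l k
          omega
        · exact dI none ((Nat.prime_dvd_prime_iff_eq (dP none k) (dP none l)).mp h3)
      subst h2
      exact Finset.mem_image_of_mem _ hl
    · rw [Finset.card_image_of_injective _ (dI none), ← hCac]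
      exact (hlDa a).ge
  refine ⟨f, ⟨?_, ?_⟩, ?_⟩
  · intro i k l hkl
    by_contra hR
    have h1 : P.Rel i (f k) (f l) = false := by simpa using hR
    have h2 := hCp (.Za (some i) (f k)) (.Da (f l)) (by simp [cpS, h1])
    have h3 := h2 (w (some i) k) (hw1 (some i) k) (d none l) (by
      rw [hDa (f l)]
      exact Finset.mem_image_of_mem _ (Finset.mem_filter.mpr ⟨Finset.mem_univ _, rfl⟩))
    have h4 : d (some i) k = d none l := by
      rw [hd, hd]
      congr 1
      show p.iD + p.e i + (k : ℕ) = p.iD + 0 + (l : ℕ)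
      omega
    rw [hwz, h4] at h3
    have h5 : d none l ∣ c k * d none l := Dvd.intro_left _ rfl
    have h6 := Nat.Coprime.eq_one_of_dvd h3.symm h5
    have h7 := (dP none l).one_lt
    omega
  · intro j k hx hy
    by_contra hR
    have h1 : P.Un j (f k) = false := by simpa using hR
    have h2 := hCp (.I j) (.Ca (f k)) (by simp [cpS, h1])
    have h3 : c k ∈ X (.I j) := by
      rw [hI j]
      unfold pset
      rw [Finset.mem_image]
      have h4 := hg.yM j
      refine ⟨p.y j - 1 - (k : ℕ), Finset.mem_range.mpr (by omega), ?_⟩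
      rw [hc]
      congr 1
      omega
    have h5 := (Nat.coprime_self _).mp (h2 (c k) h3 (c k) (hf k))
    have h6 := (cP k).one_lt
    omega
  · intro a
    refine ⟨?_, ?_, ?_⟩
    · rw [hCa a]
      show _ = (univ.filter (fun k => f k = a)).image
        (fun k : Fin p.M => pr (p.iC + (p.M - 1 - (k : ℕ))))
      congr 1
      funext k
      exact hc k
    · rw [hDa a]
      show _ = (univ.filter (fun k => f k = a)).image (fun k : Fin p.M => pr (p.iD + (k : ℕ)))
      congr 1
      funext k
      exact hd none k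
    · intro o
      rw [hZa o a]
      show _ = (univ.filter (fun k => f k = a)).image
        (fun k : Fin p.M => pr (p.iC + (p.M - 1 - (k : ℕ))) * pr (p.iD + p.sh o + (k : ℕ)))
      congr 1
      funext k
      rw [hwz, hc, hd]

end Pool.Agent.Lib.MP_4b91fc_lc.GH

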