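import Pool.Agent.Lib.MP_4b91fc_lc.GH.Stm1

set_option autoImplicit false

/-!
Piece t1 (`MP_4b91fc_lc`): the part of the tail with few parts different from `k`.
-/

namespace Pool.Agent.Lib.MP_4b91fc_lc.GH

open Finset

open scoped Nat

private lemma t1_choose (n : ℕ) : 2 * ((n.choose 2 : ℕ) : ℤ) = n * (n - 1) := by
  induction n with
  | zero => simp
  | succ n ih =>
    rw [Nat.choose_succ_succ' n 1, Nat.choose_one_right]
    push_cast
    linarith

/-- the quadratic form of the exponent is bounded below -/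
private lemma t1_quad {k b p g u s : ℤ} (hk : 2 ≤ k) (hp0 : 0 ≤ p) (hp : 2 * p ≤ k) (hg0 : 0 ≤ g)
    (hgu : g ≤ u) (hus : u ≤ s) (hD : 0 ≤ k * b + u) (hb : b ≤ 16 * (s + 1)) :
    0 ≤ k * b ^ 2 - k * b + 2 * b * p + 2 * b * (g - 1) + 2 * s ^ 2 + 32 * (s + 1) := by
  have hs : 0 ≤ s := by linarith
  rcases le_or_gt 0 b with h0 | h0
  · have h1 : 0 ≤ k * b ^ 2 - k * b := by
      have h2 : 0 ≤ b * (b - 1) := by
        rcases eq_or_lt_of_le h0 with h | h
        · rw [← h]; simp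
        · exact mul_nonneg h0 (by linarith [Int.add_one_le_iff.2 h])
      have h3 := mul_nonneg (by linarith : (0 : ℤ) ≤ k) h2
      linarith
    have h4 : 0 ≤ b * p := mul_nonneg h0 hp0
    have h5 : 0 ≤ b * g := mul_nonneg h0 hg0
    have h6 : 0 ≤ s ^ 2 := sq_nonneg s
    linarith
  · have h1 : -b ≤ u := by
      have : 2 * (-b) ≤ k * (-b) := mul_le_mul_of_nonneg_right hk (by linarith)
      linarith
    have h2 : 0 ≤ (-b) * (k - 2 * p) := mul_nonneg (by linarith) (by linarith)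
    have h3 : (-b) * g ≤ s * s :=
      mul_le_mul (by linarith) (by linarith) hg0 hs
    have h4 : 0 ≤ k * b ^ 2 := mul_nonneg (by linarith) (sq_nonneg b)
    nlinarith

private lemma t1_exp {k u g M N D G s : ℕ} (hk : 2 ≤ k) (hgu : g ≤ u) (hus : u ≤ s)
    (hD : k * M + D = k * N + u) (ht : u + G < D + g) (hM : N ≤ M + 16 * (s + 1)) :
    e2 k M + M * G + N ≤ e2 k N + N * g + (s ^ 2 + 16 * (s + 1)) := by
  have h1 := t1_choose M
  have h2 := t1_choose N
  obtain ⟨p, hp⟩ : ∃ p, p = k / 2 := ⟨_, rfl⟩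
  have hp2 : 2 * p ≤ k := by omega
  have key : ((e2 k M : ℕ) : ℤ) + M * G + N ≤ (e2 k N : ℕ) + N * g + (s ^ 2 + 16 * (s + 1)) := by
    unfold e2
    rw [← hp]
    push_cast
    obtain ⟨b, hb⟩ : ∃ b : ℤ, b = (N : ℤ) - M := ⟨_, rfl⟩
    have hMb : (M : ℤ) = N - b := by linarith
    have hDz : (k : ℤ) * M + D = k * N + u := by exact_mod_cast hD
    have hDb : (D : ℤ) = k * b + u := by rw [hb]; linarith
    have hG : (G : ℤ) ≤ k * b + g - 1 := by
      have : (u : ℤ) + G < D + g := by exact_mod_cast ht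
      linarith
    have hMG : (M : ℤ) * G ≤ M * (k * b + g - 1) :=
      mul_le_mul_of_nonneg_left hG (Int.natCast_nonneg M)
    have hq := t1_quad (k := (k : ℤ)) (b := b) (p := (p : ℤ)) (g := (g : ℤ)) (u := (u : ℤ))
      (s := (s : ℤ)) (by exact_mod_cast hk) (Int.natCast_nonneg p) (by exact_mod_cast hp2)
      (Int.natCast_nonneg g) (by exact_mod_cast hgu) (by exact_mod_cast hus)
      (by rw [← hDb]; exact Int.natCast_nonneg D)
      (by
        have : (N : ℤ) ≤ M + 16 * (s + 1) := by exact_mod_cast hM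
        rw [hb]; linarith)
    have e1 : 2 * ((k : ℤ) * (M.choose 2 : ℕ)) = k * (M * (M - 1)) := by rw [← h1]; ring
    have e3 : 2 * ((k : ℤ) * (N.choose 2 : ℕ)) = k * (N * (N - 1)) := by rw [← h2]; ring
    rw [hMb] at e1 hMG ⊢
    nlinarith
  have key2 : ((e2 k M + M * G + N : ℕ) : ℤ) ≤ ((e2 k N + N * g + (s ^ 2 + 16 * (s + 1)) : ℕ) : ℤ) := by
    push_cast
    exact key
  exact_mod_cast key2

private lemma t1_L (k u l : ℕ) : L2 k u l ≤ 2 ^ (sN k u l ^ 4) := by
  obtain ⟨s, hs⟩ : ∃ s, s = sN k u l := ⟨_, rfl⟩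
  have hn : u + k * (u + k * l) ≤ s ^ 2 := by
    rw [hs]
    unfold sN
    obtain ⟨X, hX⟩ : ∃ X, X = k * l := ⟨_, rfl⟩
    rw [← hX]
    nlinarith [Nat.zero_le (u * X), Nat.zero_le (X * X), Nat.zero_le (k * u),
      Nat.zero_le (k * X), Nat.zero_le (u * u), Nat.zero_le (k * k)]
  rw [← hs]
  unfold L2
  calc (u + k * (u + k * l))! ≤ (s ^ 2)! := Nat.factorial_le hn
    _ ≤ (s ^ 2) ^ (s ^ 2) := Nat.factorial_le_pow _
    _ ≤ (2 ^ (s ^ 2)) ^ (s ^ 2) := Nat.pow_le_pow_left Nat.lt_two_pow_self.le _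
    _ = 2 ^ (s ^ 4) := by rw [← pow_mul]; ring_nf

private lemma t1_fac {k M N u s : ℕ} (hks : k ≤ s) (hus : u ≤ s) (hs : 4 ≤ s) (hN : 2 * s ≤ N)
    (hMN : M ≤ N + u) (hM : N ≤ M + 16 * (s + 1)) :
    k ^ (N + u) * (N + u)! ≤ k ^ M * M ! * (N ^ 2) ^ (21 * s) := by
  obtain ⟨q, hq⟩ : ∃ q, q = N + u - M := ⟨_, rfl⟩
  have hq1 : N + u = M + q := by omega
  have hq2 : q ≤ 21 * s := by omega
  have h1 : (N + u)! ≤ M ! * (N + u) ^ q := by
    have := Nat.factorial_mul_descFactorial (show q ≤ N + u by omega)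
    rw [← this, show N + u - q = M by omega]
    exact Nat.mul_le_mul_left _ (Nat.descFactorial_le_pow _ _)
  have h2 : k * (N + u) ≤ N ^ 2 := by
    have : k * (N + u) ≤ s * (2 * N) := Nat.mul_le_mul hks (by omega)
    nlinarith
  have hNpos : 0 < N ^ 2 := by
    have : 0 < N := by omega
    positivity
  calc k ^ (N + u) * (N + u)! ≤ k ^ (N + u) * (M ! * (N + u) ^ q) := Nat.mul_le_mul_left _ h1
    _ = k ^ M * M ! * (k * (N + u)) ^ q := by
        conv_lhs => rw [hq1]
        rw [pow_add, mul_pow, hq1]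
        ring
    _ ≤ k ^ M * M ! * (N ^ 2) ^ q := Nat.mul_le_mul_left _ (Nat.pow_le_pow_left h2 _)
    _ ≤ k ^ M * M ! * (N ^ 2) ^ (21 * s) :=
        Nat.mul_le_mul_left _ (Nat.pow_le_pow_right hNpos hq2)

private lemma t1_rat {a A Z L E K c Q d n L' : ℚ} (ha : 0 ≤ a) (hA : 0 < A) (hZ : 1 ≤ Z)
    (hL : 0 ≤ L) (hE : 0 ≤ E) (hc : 0 < c) (hn : 0 < n) (hK : K ≤ A * Q) (hQ : 0 ≤ Q)
    (had : a * n ≤ c * d) (hLL : L ≤ L') (hd : 0 ≤ d) :
    a / (A * Z) * L * E * K / c ≤ L' * E * Q * d / n := by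
  have hZ0 : 0 < Z := by linarith
  have hAZ : 0 < A * Z := mul_pos hA hZ0
  have h1 : K / (A * Z) ≤ Q := by
    rw [div_le_iff₀ hAZ]
    have : A * Q * 1 ≤ A * Q * Z := mul_le_mul_of_nonneg_left hZ (mul_nonneg hA.le hQ)
    linarith
  have h2 : a / c ≤ d / n := by
    rw [div_le_div_iff₀ hc hn]
    linarith
  have h3 : 0 ≤ a / c := div_nonneg ha hc.le
  have h5 : 0 ≤ d / n := div_nonneg hd hn.le
  calc a / (A * Z) * L * E * K / c = (K / (A * Z)) * (a / c) * (L * E) := by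
        field_simp
    _ ≤ Q * (a / c) * (L * E) :=
        mul_le_mul_of_nonneg_right (mul_le_mul_of_nonneg_right h1 h3) (mul_nonneg hL hE)
    _ ≤ Q * (d / n) * (L * E) :=
        mul_le_mul_of_nonneg_right (mul_le_mul_of_nonneg_left h2 hQ) (mul_nonneg hL hE)
    _ ≤ Q * (d / n) * (L' * E) :=
        mul_le_mul_of_nonneg_left (mul_le_mul_of_nonneg_right hLL hE) (mul_nonneg hQ h5)
    _ = L' * E * Q * d / n := by ring

private lemma t1_num {s N u : ℕ} (hs : 4 ≤ s) (hus : u ≤ s) (hN : s ^ 12 ≤ N) :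
    (N + u + 1) * (2 ^ (21 * s ^ 2) * (2 ^ (s ^ 4) * 2 ^ (s ^ 4) * (N ^ 2) ^ (21 * s) *
      2 ^ (s ^ 2 + 16 * (s + 1) + 441 * s ^ 4))) * 2 < 2 ^ N := by
  obtain ⟨t, ht⟩ : ∃ t, t = Nat.sqrt N := ⟨_, rfl⟩
  have ht1 : s ^ 6 ≤ t := by
    rw [ht, Nat.le_sqrt]
    calc s ^ 6 * s ^ 6 = s ^ 12 := by ring
      _ ≤ N := hN
  have ht2 : t * t ≤ N := by rw [ht]; exact Nat.sqrt_le N
  have ht3 : N < (t + 1) * (t + 1) := by rw [ht]; exact Nat.lt_succ_sqrt N
  have h4 : 4 ^ 5 ≤ s ^ 5 := Nat.pow_le_pow_left hs 5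
  have h5 : 1024 * s ≤ t := by
    calc 1024 * s = 4 ^ 5 * s := by norm_num
      _ ≤ s ^ 5 * s := Nat.mul_le_mul_right _ h4
      _ = s ^ 6 := by ring
      _ ≤ t := ht1
  have h6 : 16 * s ^ 4 ≤ t := by
    calc 16 * s ^ 4 = 4 ^ 2 * s ^ 4 := by norm_num
      _ ≤ s ^ 2 * s ^ 4 := Nat.mul_le_mul_right _ (Nat.pow_le_pow_left hs 2)
      _ = s ^ 6 := by ring
      _ ≤ t := ht1
  have h7 : 4096 ≤ t := by omega
  have hNt : t ≤ N := by nlinarith
  have hN1 : 1 ≤ N := by omega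
  have hu : N + u + 1 ≤ N ^ 2 := by nlinarith
  have hNpow : N ≤ 2 ^ (2 * (t + 1)) := by
    calc N ≤ (t + 1) * (t + 1) := ht3.le
      _ ≤ 2 ^ (t + 1) * 2 ^ (t + 1) :=
          Nat.mul_le_mul Nat.lt_two_pow_self.le Nat.lt_two_pow_self.le
      _ = 2 ^ (2 * (t + 1)) := by rw [← pow_add]; ring_nf
  have hs2 : 16 * s ^ 2 ≤ s ^ 4 := by
    calc 16 * s ^ 2 = 4 ^ 2 * s ^ 2 := by norm_num
      _ ≤ s ^ 2 * s ^ 2 := Nat.mul_le_mul_right _ (Nat.pow_le_pow_left hs 2)
      _ = s ^ 4 := by ring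
  have hs3 : 4 * s ≤ s ^ 2 := by nlinarith
  -- the exponent
  have hexp : 2 * (t + 1) * (42 * s + 2) + (21 * s ^ 2 + (s ^ 4 + s ^ 4) +
      (s ^ 2 + 16 * (s + 1) + 441 * s ^ 4)) + 1 < N := by
    have h8 : 1024 * (2 * (t + 1) * (42 * s + 2)) ≤ 200 * (t * t) := by
      have h9 : 1024 * (42 * s + 2) ≤ 43 * t := by omega
      calc 1024 * (2 * (t + 1) * (42 * s + 2)) = 2 * (t + 1) * (1024 * (42 * s + 2)) := by ring
        _ ≤ 2 * (t + 1) * (43 * t) := Nat.mul_le_mul_left _ h9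
        _ ≤ 200 * (t * t) := by nlinarith
    have h10 : 21 * s ^ 2 + (s ^ 4 + s ^ 4) + (s ^ 2 + 16 * (s + 1) + 441 * s ^ 4) ≤ 30 * t := by
      omega
    have h11 : 1024 * (30 * t) ≤ 8 * (t * t) := by nlinarith
    have h12 : 1024 * (2 * (t + 1) * (42 * s + 2) + (21 * s ^ 2 + (s ^ 4 + s ^ 4) +
      (s ^ 2 + 16 * (s + 1) + 441 * s ^ 4)) + 1) ≤ 300 * (t * t) := by nlinarith
    nlinarith
  calc (N + u + 1) * (2 ^ (21 * s ^ 2) * (2 ^ (s ^ 4) * 2 ^ (s ^ 4) * (N ^ 2) ^ (21 * s) *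
      2 ^ (s ^ 2 + 16 * (s + 1) + 441 * s ^ 4))) * 2
      ≤ N ^ 2 * (2 ^ (21 * s ^ 2) * (2 ^ (s ^ 4) * 2 ^ (s ^ 4) * (N ^ 2) ^ (21 * s) *
      2 ^ (s ^ 2 + 16 * (s + 1) + 441 * s ^ 4))) * 2 :=
        Nat.mul_le_mul_right _ (Nat.mul_le_mul_right _ hu)
    _ = N ^ (42 * s + 2) * 2 ^ (21 * s ^ 2 + (s ^ 4 + s ^ 4) +
          (s ^ 2 + 16 * (s + 1) + 441 * s ^ 4) + 1) := by
        rw [show 42 * s + 2 = 2 * (21 * s) + 2 by ring]
        simp only [pow_add, pow_mul, pow_one]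
        ring
    _ ≤ (2 ^ (2 * (t + 1))) ^ (42 * s + 2) * 2 ^ (21 * s ^ 2 + (s ^ 4 + s ^ 4) +
          (s ^ 2 + 16 * (s + 1) + 441 * s ^ 4) + 1) :=
        Nat.mul_le_mul_right _ (Nat.pow_le_pow_left hNpow _)
    _ = 2 ^ (2 * (t + 1) * (42 * s + 2) + (21 * s ^ 2 + (s ^ 4 + s ^ 4) +
          (s ^ 2 + 16 * (s + 1) + 441 * s ^ 4)) + 1) := by
        rw [← pow_mul, ← pow_add]
        congr 1
    _ < 2 ^ N := Nat.pow_lt_pow_right (by norm_num) hexp

private lemma t1_vt_nonneg (k u l g N : ℕ) (μ : Multiset ℕ) : 0 ≤ vt k u l g N μ := by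
  unfold vt ww
  positivity

theorem p_t1 : S_t1 := by
  intro hptn hzee hcc k u l g N hk hgu hN
  obtain ⟨s, hs⟩ : ∃ s, s = sN k u l := ⟨_, rfl⟩
  have hks : k ≤ s := by rw [hs]; unfold sN; omega
  have hus : u ≤ s := by rw [hs]; unfold sN; omega
  have hs4 : 4 ≤ s := by rw [hs]; unfold sN; omega
  have hN' : s ^ 12 ≤ N := by rw [hs]; exact hN
  have hsN : 2 * s ≤ N := by
    calc 2 * s ≤ 4 ^ 11 * s := Nat.mul_le_mul_right _ (by norm_num)
      _ ≤ s ^ 11 * s := Nat.mul_le_mul_right _ (Nat.pow_le_pow_left hs4 11)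
      _ = s ^ 12 := by ring
      _ ≤ N := hN'
  have hLs : L2 k u l ≤ 2 ^ (s ^ 4) := by rw [hs]; exact t1_L k u l
  have hE : E2 k u l = s ^ 4 := by rw [hs]; rfl
  rw [← hs]
  -- the bound for one term
  obtain ⟨B, hB⟩ : ∃ B : ℚ, B = 2 ^ (s ^ 4) * 2 ^ (s ^ 4) * ((N : ℚ) ^ 2) ^ (21 * s) *
      2 ^ (s ^ 2 + 16 * (s + 1) + 441 * s ^ 4) / 2 ^ N := ⟨_, rfl⟩
  have hB0 : 0 ≤ B := by rw [hB]; positivity
  obtain ⟨f, hf⟩ : ∃ f : Multiset ℕ → ℚ, f = fun μ =>
      if μ.card = N + l ∧ tl k u g μ ∧ N ≤ μ.count k + 16 * (s + 1) then vt k u l g N μ else 0 :=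
    ⟨_, rfl⟩
  rw [Finset.sum_filter]
  have hsum : ∑ μ ∈ Ptn (k * N + u), (if μ.card = N + l ∧ tl k u g μ ∧
      N ≤ μ.count k + 16 * (s + 1) then vt k u l g N μ else 0) = ∑ μ ∈ Ptn (k * N + u), f μ := by
    rw [hf]
  rw [hsum, hptn.2.2 (k * N + u) k (by omega) f]
  have hinner : ∀ M ∈ range ((k * N + u) / k + 1),
      ∑ μ ∈ (Ptn (k * N + u - k * M)).filter (fun μ => k ∉ μ), f (μ + Multiset.replicate M k) ≤
        2 ^ (21 * s ^ 2) * B := by
    intro M hM
    rw [Finset.mem_range] at hM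
    have hMk : k * M ≤ k * N + u := by
      have : M ≤ (k * N + u) / k := by omega
      calc k * M ≤ k * ((k * N + u) / k) := Nat.mul_le_mul_left _ this
        _ ≤ k * N + u := Nat.mul_div_le _ _
    have hMN : M ≤ N + u := by
      by_contra hcon
      push Not at hcon
      have : k * (N + u + 1) ≤ k * M := Nat.mul_le_mul_left _ hcon
      nlinarith
    by_cases hMs : N ≤ M + 16 * (s + 1)
    · -- few parts different from `k`
      have hD : k * N + u - k * M ≤ 21 * s ^ 2 := by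
        have h1 : k * N ≤ k * (M + 16 * (s + 1)) := Nat.mul_le_mul_left _ hMs
        have h2 : k * (16 * (s + 1)) ≤ s * (16 * (s + 1)) := Nat.mul_le_mul_right _ hks
        have h3 : k * (M + 16 * (s + 1)) = k * M + k * (16 * (s + 1)) := by ring
        have h4 : u + s * (16 * (s + 1)) ≤ 21 * s ^ 2 := by nlinarith
        omega
      calc ∑ μ ∈ (Ptn (k * N + u - k * M)).filter (fun μ => k ∉ μ),
            f (μ + Multiset.replicate M k)
          ≤ ∑ μ ∈ (Ptn (k * N + u - k * M)).filter (fun μ => k ∉ μ), B := by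
            refine Finset.sum_le_sum fun μ hμ => ?_
            rw [Finset.mem_filter] at hμ
            obtain ⟨hμ1, hμk⟩ := hμ
            obtain ⟨hμs, hμ0⟩ := (hptn.1 _ _).1 hμ1
            rw [hf]
            dsimp only
            split_ifs with hcond
            swap
            · exact hB0
            obtain ⟨-, htl, -⟩ := hcond
            -- the parts different from `k`
            have hfil : (μ + Multiset.replicate M k).filter (fun x => x ≠ k) = μ := by
              rw [Multiset.filter_add]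
              have h1 : μ.filter (fun x => x ≠ k) = μ := by
                rw [Multiset.filter_eq_self]
                intro x hx hxk
                exact hμk (hxk ▸ hx)
              have h2 : (Multiset.replicate M k).filter (fun x => x ≠ k) = 0 := by
                rw [Multiset.filter_eq_nil]
                intro x hx
                rw [Multiset.eq_of_mem_replicate hx]
                simp
              rw [h1, h2, add_zero]
            unfold tl at htl
            rw [hfil, hμs] at htl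
            have ht : u + gs k μ < (k * N + u - k * M) + g := by
              have : ((u + gs k μ : ℕ) : ℤ) < (((k * N + u - k * M) + g : ℕ) : ℤ) := by
                push_cast at htl ⊢
                linarith
              exact_mod_cast this
            have hx := t1_exp hk hgu hus
              (show k * M + (k * N + u - k * M) = k * N + u by omega) ht hMs
            have hccμ : cc μ ≤ 441 * s ^ 4 := by
              calc cc μ ≤ μ.sum ^ 2 := hcc.2.2.2.2.2.1 μ hμ0
                _ ≤ (21 * s ^ 2) ^ 2 := by rw [hμs]; exact Nat.pow_le_pow_left hD 2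
                _ = 441 * s ^ 4 := by ring
            unfold vt ww
            rw [hcc.2.2.2.2.1, hzee.1 μ k M hμk, hE, hB]
            have hzμ : 1 ≤ zee μ := hzee.2.2.1 μ hμ0
            have hfac := t1_fac hks hus hs4 hsN hMN hMs
            have hr := t1_rat (a := (2 : ℚ) ^ (e2 k M + M * gs k μ + cc μ))
              (A := (k : ℚ) ^ M * (M ! : ℕ)) (Z := (zee μ : ℚ)) (L := (L2 k u l : ℚ))
              (E := (2 : ℚ) ^ (s ^ 4)) (K := (k : ℚ) ^ (N + u) * ((N + u)! : ℕ))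
              (c := (2 : ℚ) ^ (e2 k N + N * g)) (Q := ((N : ℚ) ^ 2) ^ (21 * s))
              (d := (2 : ℚ) ^ (s ^ 2 + 16 * (s + 1) + 441 * s ^ 4)) (n := (2 : ℚ) ^ N)
              (L' := (2 : ℚ) ^ (s ^ 4)) (by positivity)
              (by
                have : 0 < k := by omega
                have hkq : (0 : ℚ) < k := by exact_mod_cast this
                have hMq : (0 : ℚ) < (M ! : ℕ) := by exact_mod_cast Nat.factorial_pos M
                positivity)
              (by exact_mod_cast hzμ) (by positivity) (by positivity) (by positivity)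
              (by positivity) (by exact_mod_cast hfac) (by positivity)
              (by
                rw [← pow_add, ← pow_add]
                refine pow_le_pow_right₀ (by norm_num) ?_
                omega)
              (by exact_mod_cast hLs) (by positivity)
            push_cast
            calc _ = (2 : ℚ) ^ (e2 k M + M * gs k μ + cc μ) / ((k : ℚ) ^ M * (M ! : ℕ) * (zee μ : ℚ)) *
                  (L2 k u l : ℚ) * (2 : ℚ) ^ (s ^ 4) * ((k : ℚ) ^ (N + u) * ((N + u)! : ℕ)) /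
                  (2 : ℚ) ^ (e2 k N + N * g) := by ring
              _ ≤ _ := hr
        _ = ((Ptn (k * N + u - k * M)).filter (fun μ => k ∉ μ)).card * B := by
            rw [Finset.sum_const, nsmul_eq_mul]
        _ ≤ 2 ^ (21 * s ^ 2) * B := by
            refine mul_le_mul_of_nonneg_right ?_ hB0
            have h1 : ((Ptn (k * N + u - k * M)).filter (fun μ => k ∉ μ)).card ≤
                2 ^ (21 * s ^ 2) := by
              calc _ ≤ (Ptn (k * N + u - k * M)).card := Finset.card_filter_le _ _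
                _ ≤ 2 ^ (k * N + u - k * M) := hptn.2.1 _
                _ ≤ 2 ^ (21 * s ^ 2) := Nat.pow_le_pow_right (by norm_num) hD
            exact_mod_cast h1
    · -- no term
      have h0 : ∑ μ ∈ (Ptn (k * N + u - k * M)).filter (fun μ => k ∉ μ),
          f (μ + Multiset.replicate M k) = 0 := by
        refine Finset.sum_eq_zero fun μ hμ => ?_
        rw [Finset.mem_filter] at hμ
        rw [hf]
        dsimp only
        rw [if_neg]
        rintro ⟨-, -, h⟩
        rw [Multiset.count_add, Multiset.count_eq_zero_of_notMem hμ.2,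
          Multiset.count_replicate_self, zero_add] at h
        exact hMs h
      rw [h0]
      exact mul_nonneg (by positivity) hB0
  have hcard : (k * N + u) / k + 1 ≤ N + u + 1 := by
    have : (k * N + u) / k = N + u / k := by
      rw [Nat.mul_add_div (by omega)]
    rw [this]
    have := Nat.div_le_self u k
    omega
  calc ∑ M ∈ range ((k * N + u) / k + 1),
        ∑ μ ∈ (Ptn (k * N + u - k * M)).filter (fun μ => k ∉ μ), f (μ + Multiset.replicate M k)
      ≤ ∑ M ∈ range ((k * N + u) / k + 1), 2 ^ (21 * s ^ 2) * B := Finset.sum_le_sum hinner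
    _ = ((k * N + u) / k + 1 : ℕ) * (2 ^ (21 * s ^ 2) * B) := by
        rw [Finset.sum_const, Finset.card_range, nsmul_eq_mul]
    _ ≤ (N + u + 1 : ℕ) * (2 ^ (21 * s ^ 2) * B) := by
        refine mul_le_mul_of_nonneg_right ?_ (mul_nonneg (by positivity) hB0)
        exact_mod_cast hcard
    _ < 1 / 2 := by
        have hnum := t1_num hs4 hus hN'
        have hnumq : (((N + u + 1) * (2 ^ (21 * s ^ 2) * (2 ^ (s ^ 4) * 2 ^ (s ^ 4) *
          (N ^ 2) ^ (21 * s) * 2 ^ (s ^ 2 + 16 * (s + 1) + 441 * s ^ 4))) * 2 : ℕ) : ℚ) <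
            ((2 ^ N : ℕ) : ℚ) := by exact_mod_cast hnum
        push_cast at hnumq
        rw [hB]
        have hpos : (0 : ℚ) < 2 ^ N := by positivity
        push_cast
        rw [← mul_div_assoc, ← mul_div_assoc, div_lt_iff₀ hpos]
        linarith

end Pool.Agent.Lib.MP_4b91fc_lc.GH
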