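import Pool.Agent.Lib.MP_4b91fc_lc.GH.Stm3

set_option autoImplicit false

/-!
# Piece [tot]: the total sum and the total product of the sets of a word
-/

namespace Pool.Agent.Lib.MP_4b91fc_lc.GH

open Finset Pool.Agent.PolyTime

open scoped Nat

/-- the sorts as a sum type -/
private def tot_e (A : Type) (r b : ℕ) : Srt A r b ≃
    ((Fin 4 ⊕ (Option (Fin r) × Fin 4)) ⊕ (Fin b × Fin 2)) ⊕ ((A × Fin 2) ⊕ (Option (Fin r) × A)) where
  toFun
    | .Pt => .inl (.inl (.inl 0))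
    | .Pt' => .inl (.inl (.inl 1))
    | .Pc => .inl (.inl (.inl 2))
    | .C => .inl (.inl (.inl 3))
    | .P o => .inl (.inl (.inr (o, 0)))
    | .D o => .inl (.inl (.inr (o, 1)))
    | .Z o => .inl (.inl (.inr (o, 2)))
    | .Z' o => .inl (.inl (.inr (o, 3)))
    | .PI j => .inl (.inr (j, 0))
    | .I j => .inl (.inr (j, 1))
    | .Ca a => .inr (.inl (a, 0))
    | .Da a => .inr (.inl (a, 1))
    | .Za o a => .inr (.inr (o, a))
  invFun
    | .inl (.inl (.inl 0)) => .Pt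
    | .inl (.inl (.inl 1)) => .Pt'
    | .inl (.inl (.inl 2)) => .Pc
    | .inl (.inl (.inl 3)) => .C
    | .inl (.inl (.inr (o, 0))) => .P o
    | .inl (.inl (.inr (o, 1))) => .D o
    | .inl (.inl (.inr (o, 2))) => .Z o
    | .inl (.inl (.inr (o, 3))) => .Z' o
    | .inl (.inr (j, 0)) => .PI j
    | .inl (.inr (j, 1)) => .I j
    | .inr (.inl (a, 0)) => .Ca a
    | .inr (.inl (a, 1)) => .Da a
    | .inr (.inr (o, a)) => .Za o a
  left_inv t := by cases t <;> rfl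
  right_inv t := by
    rcases t with ((t | ⟨o, t⟩) | ⟨j, t⟩) | (⟨a, t⟩ | ⟨o, a⟩)
    · fin_cases t <;> rfl
    · fin_cases t <;> rfl
    · fin_cases t <;> rfl
    · fin_cases t <;> rfl
    · rfl

private theorem tot_sum {A : Type} [Fintype A] {r b : ℕ} (F : Srt A r b → ℕ) :
    ∑ t, F t = F .Pt + F .Pt' + F .Pc + F .C +
      ∑ o, (F (.P o) + F (.D o) + F (.Z o) + F (.Z' o)) + ∑ j, (F (.PI j) + F (.I j)) +
      (∑ a, F (.Ca a) + ∑ a, F (.Da a)) + ∑ o, ∑ a, F (.Za o a) := by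
  rw [← Equiv.sum_comp (tot_e A r b).symm F]
  simp only [Fintype.sum_sum_type, Fintype.sum_prod_type, Fin.sum_univ_four, Fin.sum_univ_two]
  rw [← sum_add_distrib]
  simp only [tot_e, Equiv.coe_fn_symm_mk]
  ring

private theorem tot_prod {A : Type} [Fintype A] {r b : ℕ} (F : Srt A r b → ℕ) :
    ∏ t, F t = F .Pt * F .Pt' * F .Pc * F .C *
      (∏ o, (F (.P o) * F (.D o) * F (.Z o) * F (.Z' o))) * (∏ j, (F (.PI j) * F (.I j))) *
      ((∏ a, F (.Ca a)) * ∏ a, F (.Da a)) * ∏ o, ∏ a, F (.Za o a) := by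
  rw [← Equiv.prod_comp (tot_e A r b).symm F]
  simp only [Fintype.prod_sum_type, Fintype.prod_prod_type, Fin.prod_univ_four, Fin.prod_univ_two]
  rw [← prod_mul_distrib]
  simp only [tot_e, Equiv.coe_fn_symm_mk]
  ring

theorem p_tot : S_tot := by
  intro hpb hxc P p hp f
  obtain ⟨hpr, hmono, -, hps, hzs, -, -⟩ := id hpb
  obtain ⟨xPC, -, -, -, -, xCs, xDs, xZs, xCp, xDp, xZp⟩ := hxc hpb P p hp f
  have hij : ∀ o, p.iC + p.M ≤ p.iD + p.sh o := by
    intro o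
    have h1 := hp.M_pos
    have h2 := hp.winC (p.M - 1) (by omega)
    have h3 := hp.lowD
    have h4 : 2 * pr p.iC ≤ 4 * p.M * pr p.iC := Nat.mul_le_mul_right _ (by omega)
    have h5 : p.iC + (p.M - 1) < p.iD := hmono.lt_iff_lt.1 (by omega)
    omega
  have hS : ∑ t, ∑ x ∈ XX P p f t, x = P.SS p := by
    rw [tot_sum, xCs, xDs, sum_congr rfl fun o _ => xZs o]
    have e1 : ∀ o, (∑ x ∈ XX P p f (.P o), x) + (∑ x ∈ XX P p f (.D o), x) +
        (∑ x ∈ XX P p f (.Z o), x) + (∑ x ∈ XX P p f (.Z' o), x) =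
        psum 0 (p.iD + p.sh o) + psum (p.iD + p.sh o) p.M +
          zsum p.iC (p.iD + p.sh o) p.M + zsum p.iC (p.iD + p.sh o) p.M := by
      intro o
      change (∑ x ∈ pset 0 (p.iD + p.sh o), x) + (∑ x ∈ pset (p.iD + p.sh o) p.M, x) +
        (∑ x ∈ zset p.iC (p.iD + p.sh o) p.M, x) + (∑ x ∈ zset p.iC (p.iD + p.sh o) p.M, x) = _
      rw [(hps _ _).2.2.1, (hps _ _).2.2.1, (hzs _ _ _ (hij o)).2.2.1]
    have e2 : ∀ j, (∑ x ∈ XX P p f (.PI j), x) + (∑ x ∈ XX P p f (.I j), x) =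
        psum 0 (p.iC + p.M - p.y j) + psum (p.iC + p.M - p.y j) (p.y j - p.x j) := by
      intro j
      change (∑ x ∈ pset 0 (p.iC + p.M - p.y j), x) +
        (∑ x ∈ pset (p.iC + p.M - p.y j) (p.y j - p.x j), x) = _
      rw [(hps _ _).2.2.1, (hps _ _).2.2.1]
    have e3 : (∑ x ∈ XX P p f .Pt, x) = psum 0 p.it := (hps _ _).2.2.1
    have e4 : (∑ x ∈ XX P p f .Pt', x) = psum 0 p.it := (hps _ _).2.2.1
    have e5 : (∑ x ∈ XX P p f .Pc, x) = psum 0 p.iC := (hps _ _).2.2.1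
    have e6 : (∑ x ∈ XX P p f .C, x) = psum p.iC p.M := (hps _ _).2.2.1
    rw [sum_congr rfl fun o _ => e1 o, sum_congr rfl fun j _ => e2 j, e3, e4, e5, e6]
    unfold WP.SS
    simp only [sum_add_distrib, ← mul_sum]
    ring
  refine ⟨hS, ?_, ?_, ?_⟩
  · rw [tot_prod, xCp, xDp, prod_congr rfl fun o _ => xZp o]
    have e1 : ∀ o, (∏ x ∈ XX P p f (.P o), x) * (∏ x ∈ XX P p f (.D o), x) *
        (∏ x ∈ XX P p f (.Z o), x) * (∏ x ∈ XX P p f (.Z' o), x) =
        pprod 0 (p.iD + p.sh o) * pprod (p.iD + p.sh o) p.M *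
          (pprod p.iC p.M * pprod (p.iD + p.sh o) p.M) *
          (pprod p.iC p.M * pprod (p.iD + p.sh o) p.M) := by
      intro o
      change (∏ x ∈ pset 0 (p.iD + p.sh o), x) * (∏ x ∈ pset (p.iD + p.sh o) p.M, x) *
        (∏ x ∈ zset p.iC (p.iD + p.sh o) p.M, x) * (∏ x ∈ zset p.iC (p.iD + p.sh o) p.M, x) = _
      rw [(hps _ _).2.2.2, (hps _ _).2.2.2, (hzs _ _ _ (hij o)).2.2.2.1]
    have e2 : ∀ j, (∏ x ∈ XX P p f (.PI j), x) * (∏ x ∈ XX P p f (.I j), x) =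
        pprod 0 (p.iC + p.M - p.y j) * pprod (p.iC + p.M - p.y j) (p.y j - p.x j) := by
      intro j
      change (∏ x ∈ pset 0 (p.iC + p.M - p.y j), x) *
        (∏ x ∈ pset (p.iC + p.M - p.y j) (p.y j - p.x j), x) = _
      rw [(hps _ _).2.2.2, (hps _ _).2.2.2]
    have e3 : (∏ x ∈ XX P p f .Pt, x) = pprod 0 p.it := (hps _ _).2.2.2
    have e4 : (∏ x ∈ XX P p f .Pt', x) = pprod 0 p.it := (hps _ _).2.2.2
    have e5 : (∏ x ∈ XX P p f .Pc, x) = pprod 0 p.iC := (hps _ _).2.2.2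
    have e6 : (∏ x ∈ XX P p f .C, x) = pprod p.iC p.M := (hps _ _).2.2.2
    rw [prod_congr rfl fun o _ => e1 o, prod_congr rfl fun j _ => e2 j, e3, e4, e5, e6]
    unfold WP.ZZ
    have e7 : ∏ o : Option (Fin P.r), (pprod 0 (p.iD + p.sh o) * pprod (p.iD + p.sh o) p.M *
        (pprod p.iC p.M * pprod (p.iD + p.sh o) p.M) ^ 3) =
        (∏ o : Option (Fin P.r), (pprod 0 (p.iD + p.sh o) * pprod (p.iD + p.sh o) p.M *
          (pprod p.iC p.M * pprod (p.iD + p.sh o) p.M) *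
          (pprod p.iC p.M * pprod (p.iD + p.sh o) p.M))) *
        ∏ o : Option (Fin P.r), (pprod p.iC p.M * pprod (p.iD + p.sh o) p.M) := by
      rw [← prod_mul_distrib]
      exact prod_congr rfl fun o _ => by ring
    rw [e7]
    ring
  · rw [← hS]
    refine sum_le_sum fun t _ => ?_
    rw [card_eq_sum_ones]
    refine sum_le_sum fun x hx => ?_
    have := (xPC t).1 x hx
    omega
  · intro f' h
    funext k
    have h1 : pr (p.iC + (p.M - 1 - (k : ℕ))) ∈ XX P p f (.Ca (f k)) := by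
      change _ ∈ image _ _
      rw [mem_image]
      exact ⟨k, by simp, rfl⟩
    rw [h] at h1
    change _ ∈ image _ _ at h1
    rw [mem_image] at h1
    obtain ⟨k', hk', he⟩ := h1
    rw [mem_filter] at hk'
    have h2 := hmono.injective he
    have h3 : k' = k := by
      apply Fin.ext
      have := k.isLt
      have := k'.isLt
      omega
    rw [← hk'.2, h3]

end Pool.Agent.Lib.MP_4b91fc_lc.GH
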