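import Pool.Agent.Lib.MP_4b91fc_lc.GH.Stm2

set_option autoImplicit false

/-!
# `#GRAPHS` is hard for `#P_1`, piece [tt]: the sum over tuples
-/

namespace Pool.Agent.Lib.MP_4b91fc_lc.GH

open Finset Pool.Agent.PolyTime

open scoped Nat

/-- A type number does not divide a multiple of another type number by a small factor. -/
private theorem tt_ndvd {m S B H : ℕ} {a : Fin m → ℕ} {pi : Fin m → Fin m → ℕ}
    (h : TyOK m S B H a pi) {i j : Fin m} (hij : i ≠ j) {y : ℕ} (hy1 : 1 ≤ y) (hyB : y ≤ B) :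
    ¬ a i ∣ a j * y := by
  intro hd
  have hcop : Nat.Coprime (a i) y := by
    apply Nat.Coprime.symm
    rw [Nat.coprime_iff_gcd_eq_one]
    by_contra hne
    obtain ⟨p, hp, hpd⟩ := Nat.exists_prime_and_dvd hne
    have h1 : p ∣ y := hpd.trans (Nat.gcd_dvd_left _ _)
    have h2 : p ∣ a i := hpd.trans (Nat.gcd_dvd_right _ _)
    have h3 := h.big i p hp h2
    have h4 := Nat.le_of_dvd hy1 h1
    omega
  have hd2 : a i ∣ a j := hcop.dvd_of_dvd_mul_right hd
  have hg : pi i j = a i := by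
    rw [← h.gcd_a i j hij]
    exact Nat.gcd_eq_left hd2
  have hs := h.small i j hij
  rw [hg] at hs
  have hB : 1 ≤ B := hy1.trans hyB
  have : a i ≤ B * a i := Nat.le_mul_of_pos_left _ hB
  omega

/-- The multiplicities of the members of a tuple. -/
private theorem tt_count {m S B H : ℕ} {a : Fin m → ℕ} {pi : Fin m → Fin m → ℕ}
    (h : TyOK m S B H a pi) (Y : Fin m → Multiset ℕ)
    (hY : ∀ i, ∀ x ∈ Y i, 1 ≤ x ∧ x ≤ B) (i : Fin m) (x : ℕ) :
    (join a Y).count (2 * a i * x) = (Y i).count x := by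
  unfold join
  rw [Multiset.count_sum']
  rw [Finset.sum_eq_single i]
  · have hinj : Function.Injective (fun x : ℕ => 2 * a i * x) := by
      intro u v huv
      have hpos : 0 < 2 * a i := by
        have := h.one_lt i
        omega
      exact Nat.eq_of_mul_eq_mul_left hpos huv
    exact Multiset.count_map_eq_count' (fun x : ℕ => 2 * a i * x) (Y i) hinj x
  · intro j _ hji
    rw [Multiset.count_eq_zero]
    intro hmem
    obtain ⟨y, hy, hyx⟩ := Multiset.mem_map.1 hmem
    have hb := hY j y hy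
    apply tt_ndvd h (Ne.symm hji) hb.1 hb.2
    refine ⟨x, ?_⟩
    have e : 2 * (a j * y) = 2 * (a i * x) := by
      rw [← mul_assoc, ← mul_assoc]
      exact hyx
    omega
  · intro hi
    exact absurd (Finset.mem_univ i) hi

theorem p_tt : S_tt := by
  intro h_ptn h_ms h_tt1 h_tt2 m S B H a pi hT l s hl hs f
  have h1 := h_tt1 h_ptn h_ms m S B H a pi hT l s
  have h2 := h_tt2 h_ptn h_ms m S B H a pi hT l s hl hs
  have hms := (h_ms h_ptn).2.2.1
  have hb : ∀ Y ∈ TT B a l s, ∀ i, ∀ x ∈ Y i, 1 ≤ x ∧ x ≤ B := by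
    intro Y hY i x hx
    unfold TT at hY
    rw [Finset.mem_filter, Fintype.mem_piFinset] at hY
    exact hms B (Y i) (hY.1 i) x hx
  symm
  apply Finset.sum_bij (fun Y _ => join a Y)
  · intro Y hY
    rw [Finset.mem_filter]
    exact h1 Y hY
  · intro Y hY Y' hY' he
    funext i
    rw [Multiset.ext]
    intro x
    rw [← tt_count hT Y (hb Y hY) i x, ← tt_count hT Y' (hb Y' hY') i x]
    exact congrArg (Multiset.count (2 * a i * x)) he
  · intro μ hμ
    rw [Finset.mem_filter] at hμ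
    obtain ⟨Y, hY, he⟩ := h2 μ hμ.1 hμ.2
    exact ⟨Y, hY, he⟩
  · intro Y _
    rfl

end Pool.Agent.Lib.MP_4b91fc_lc.GH
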