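import Pool.Agent.Lib.MP_4b91fc_lc.GH.Stm2

set_option autoImplicit false

/-!
# Piece [tt1]: from tuples to selected partitions
-/

namespace Pool.Agent.Lib.MP_4b91fc_lc.GH

open Finset

open scoped Nat

private lemma tt1_gs_sum {m : ℕ} (k : ℕ) (F : Fin m → Multiset ℕ) :
    gs k (∑ i, F i) = ∑ i, gs k (F i) := by
  unfold gs
  have h1 : (∑ i, F i).map (fun x => Nat.gcd k x) = ∑ i, (F i).map (fun x => Nat.gcd k x) :=
    map_sum (Multiset.mapAddMonoidHom (fun x : ℕ => Nat.gcd k x)) _ _
  rw [h1]
  exact map_sum (Multiset.sumAddMonoidHom (M := ℕ)) _ _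

private lemma tt1_mem {m : ℕ} (a : Fin m → ℕ) (Y : Fin m → Multiset ℕ) (z : ℕ)
    (hz : z ∈ join a Y) : ∃ i, ∃ x ∈ Y i, 2 * a i * x = z := by
  unfold join at hz
  rw [Multiset.mem_sum] at hz
  obtain ⟨i, _, hi⟩ := hz
  obtain ⟨x, hx, hxz⟩ := Multiset.mem_map.mp hi
  exact ⟨i, x, hx, hxz⟩

private lemma tt1_gs_const (k c b : ℕ) (μ : Multiset ℕ) (h : ∀ x ∈ μ, Nat.gcd k (b * x) = c) :
    gs k (μ.map (fun x => b * x)) = c * μ.card := by
  unfold gs
  rw [Multiset.map_map]
  have : μ.map ((fun x => Nat.gcd k x) ∘ (fun x => b * x)) = μ.map (fun _ => c) := by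
    apply Multiset.map_congr rfl
    intro x hx
    exact h x hx
  rw [this, Multiset.map_const', Multiset.sum_replicate, smul_eq_mul, mul_comm]

private lemma tt1_cop {a B x : ℕ} (hb : ∀ p : ℕ, p.Prime → p ∣ a → B < p) (hx1 : 1 ≤ x)
    (hx : x ≤ B) : Nat.Coprime a x := by
  apply Nat.Coprime.symm
  rw [Nat.coprime_iff_gcd_eq_one]
  by_contra hne
  obtain ⟨p, hp, hpd⟩ := Nat.exists_prime_and_dvd hne
  have h1 : p ∣ x := dvd_trans hpd (Nat.gcd_dvd_left x a)
  have h2 : p ∣ a := dvd_trans hpd (Nat.gcd_dvd_right x a)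
  have h3 := hb p hp h2
  have h4 : p ≤ x := Nat.le_of_dvd (by omega) h1
  omega

theorem p_tt1 : S_tt1 := by
  intro hptn hms m S B H a pi ty l s Y hY
  have hms3 := (hms hptn).2.2.1
  unfold TT at hY
  rw [Finset.mem_filter, Fintype.mem_piFinset] at hY
  obtain ⟨hYm, hY1, hY2⟩ := hY
  have hrange : ∀ i, ∀ x ∈ Y i, 1 ≤ x ∧ x ≤ B := fun i => hms3 B (Y i) (hYm i)
  have ha0 : ∀ i, 0 < a i := fun i => lt_trans Nat.zero_lt_one (ty.one_lt i)
  have hB : 1 ≤ B := le_trans ty.hS ty.hSB
  refine ⟨?_, ?_, ?_, ?_, ?_⟩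
  · rw [hptn.1]
    refine ⟨?_, ?_⟩
    · unfold join
      have h1 : (∑ i, (Y i).map (fun x => 2 * a i * x)).sum =
          ∑ i, ((Y i).map (fun x => 2 * a i * x)).sum :=
        map_sum (Multiset.sumAddMonoidHom (M := ℕ)) _ _
      rw [h1, ← hY2, Finset.mul_sum]
      apply Finset.sum_congr rfl
      intro i _
      rw [Multiset.sum_map_mul_left, Multiset.map_id', mul_assoc]
    · intro h
      obtain ⟨i, x, hx, hz⟩ := tt1_mem a Y 0 h
      have h1 := (hrange i x hx).1
      have h2 := ha0 i
      have h3 : 0 < 2 * a i * x := by positivity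
      omega
  · intro h
    obtain ⟨i, x, hx, hz⟩ := tt1_mem a Y 1 h
    rw [mul_assoc] at hz
    omega
  · unfold join
    rw [Multiset.card_sum]
    apply Finset.sum_congr rfl
    intro i _
    rw [Multiset.card_map]
    exact (hY1 i).1
  · intro k hk h
    obtain ⟨i, x, hx, hz⟩ := tt1_mem a Y k h
    unfold qks at hk
    rcases List.mem_append.mp hk with hk1 | hk2
    · obtain ⟨j, hj⟩ := (List.mem_ofFn' _ _).mp hk1
      have h1 : a j = a i * x := by
        have : 2 * (a i * x) = 2 * a j := by rw [← mul_assoc, hz, ← hj]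
        omega
      by_cases hij : i = j
      · subst hij
        have h2 : a i * x = a i * 1 := by rw [mul_one]; exact h1.symm
        have h3 : x = 1 := Nat.eq_of_mul_eq_mul_left (ha0 i) h2
        exact (hY1 i).2 (h3 ▸ hx)
      · have h2 : Nat.gcd (a i) (a j) = a i := Nat.gcd_eq_left ⟨x, h1⟩
        have h3 := ty.small i j hij
        rw [← ty.gcd_a i j hij, h2] at h3
        have h4 : 1 * a i ≤ B * a i := Nat.mul_le_mul_right _ hB
        omega
    · have h1 : k = 2 := by simpa using hk2
      have h2 : a i * x = 1 := by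
        rw [mul_assoc] at hz
        omega
      have h3 : a i = 1 := Nat.eq_one_of_mul_eq_one_right h2
      have := ty.one_lt i
      omega
  · have hg : ∀ j, gs (2 * a j) (join a Y) =
        2 * (a j * l j + ∑ i, if i = j then 0 else pi j i * l i) := by
      intro j
      unfold join
      rw [tt1_gs_sum]
      have h1 : ∀ i, gs (2 * a j) ((Y i).map (fun x => 2 * a i * x)) =
          2 * (if i = j then a j * l j else pi j i * l i) := by
        intro i
        have h2 : ∀ x ∈ Y i, Nat.gcd (2 * a j) (2 * a i * x) =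
            2 * (if i = j then a j else pi j i) := by
          intro x hx
          obtain ⟨hx1, hxB⟩ := hrange i x hx
          rw [mul_assoc, Nat.gcd_mul_left]
          have h3 : Nat.gcd (a j) (a i * x) = Nat.gcd (a j) (a i) :=
            Nat.Coprime.gcd_mul_right_cancel_right (a i) (tt1_cop (ty.big j) hx1 hxB).symm
          rw [h3]
          split_ifs with h4
          · rw [h4, Nat.gcd_self]
          · rw [ty.gcd_a j i (fun h => h4 h.symm)]
        rw [tt1_gs_const _ _ _ _ h2, (hY1 i).1]
        split_ifs with h4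
        · rw [h4]; ring
        · ring
      rw [Finset.sum_congr rfl (fun i _ => h1 i), ← Finset.mul_sum]
      congr 1
      rw [← Finset.add_sum_erase _ _ (Finset.mem_univ j), if_pos rfl]
      congr 1
      rw [← Finset.add_sum_erase Finset.univ (fun i => if i = j then 0 else pi j i * l i)
        (Finset.mem_univ j), if_pos rfl, zero_add]
      apply Finset.sum_congr rfl
      intro i hi
      rw [if_neg (Finset.ne_of_mem_erase hi), if_neg (Finset.ne_of_mem_erase hi)]
    have hg2 : gs 2 (join a Y) = 2 * ∑ i, l i := by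
      unfold join
      rw [tt1_gs_sum, Finset.mul_sum]
      apply Finset.sum_congr rfl
      intro i _
      have h2 : ∀ x ∈ Y i, Nat.gcd 2 (2 * a i * x) = 2 := by
        intro x _
        rw [mul_assoc]
        exact Nat.gcd_eq_left (Dvd.intro _ rfl)
      rw [tt1_gs_const _ _ _ _ h2, (hY1 i).1]
    unfold qks qv
    rw [List.map_append, List.map_ofFn]
    congr 1
    · congr 1
      funext j
      exact hg j
    · simp only [List.map_cons, List.map_nil]
      rw [hg2]

end Pool.Agent.Lib.MP_4b91fc_lc.GH
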