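import Pool.Agent.Lib.MP_4b91fc_lc.GH.Stm2

set_option autoImplicit false

/-!
# Piece [tt2]: from selected partitions to tuples
-/

namespace Pool.Agent.Lib.MP_4b91fc_lc.GH

open Finset

open scoped Nat

private lemma tt2_le (f : ℕ → ℕ) (c : ℕ) : ∀ μ : Multiset ℕ, (∀ x ∈ μ, f x ≤ c) →
    (μ.map f).sum ≤ c * μ.card := by
  intro μ
  induction μ using Multiset.induction with
  | empty => intro _; simp
  | cons x μ ih =>
    intro h
    have h1 := ih (fun y hy => h y (Multiset.mem_cons_of_mem hy))
    have h2 := h x (Multiset.mem_cons_self x μ)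
    rw [Multiset.map_cons, Multiset.sum_cons, Multiset.card_cons, mul_add, mul_one]
    omega

private lemma tt2_eq (f : ℕ → ℕ) (c : ℕ) (μ : Multiset ℕ) (h : ∀ x ∈ μ, f x ≤ c)
    (hs : (μ.map f).sum = c * μ.card) : ∀ x ∈ μ, f x = c := by
  intro x hx
  obtain ⟨ν, rfl⟩ := Multiset.exists_cons_of_mem hx
  have h1 := tt2_le f c ν (fun y hy => h y (Multiset.mem_cons_of_mem hy))
  have h2 := h x hx
  rw [Multiset.map_cons, Multiset.sum_cons, Multiset.card_cons, mul_add, mul_one] at hs
  omega

private lemma tt2_gs2 (a : ℕ) (κ : Multiset ℕ) :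
    gs (2 * a) (κ.map (fun y => 2 * y)) = 2 * gs a κ := by
  unfold gs
  rw [Multiset.map_map, ← Multiset.sum_map_mul_left]
  congr 1
  apply Multiset.map_congr rfl
  intro y _
  simp only [Function.comp_apply]
  exact Nat.gcd_mul_left 2 a y

private lemma tt2_proper {a B y : ℕ} (ha : 1 < a) (hb : ∀ p : ℕ, p.Prime → p ∣ a → B < p)
    (hy : ¬ a ∣ y) : (B + 1) * Nat.gcd a y ≤ a := by
  obtain ⟨e, he⟩ := Nat.gcd_dvd_left a y
  have he1 : e ≠ 1 := by
    rintro rfl
    rw [mul_one] at he
    apply hy
    rw [he]
    exact Nat.gcd_dvd_right a y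
  obtain ⟨p, hp, hpe⟩ := Nat.exists_prime_and_dvd he1
  have h1 : B < p := hb p hp (by rw [he]; exact Dvd.dvd.mul_left hpe _)
  have h0 : e ≠ 0 := by
    rintro rfl
    rw [mul_zero] at he
    omega
  have h2 : p ≤ e := Nat.le_of_dvd (Nat.pos_of_ne_zero h0) hpe
  calc (B + 1) * Nat.gcd a y ≤ e * Nat.gcd a y := Nat.mul_le_mul_right _ (by omega)
    _ = a := by rw [mul_comm]; exact he.symm

private lemma tt2_sand {a B : ℕ} (ha : 1 < a) (hb : ∀ p : ℕ, p.Prime → p ∣ a → B < p) :
    ∀ κ : Multiset ℕ, a * κ.countP (fun y => a ∣ y) ≤ gs a κ ∧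
      (B + 1) * gs a κ ≤ (B + 1) * (a * κ.countP (fun y => a ∣ y)) + a * κ.card := by
  intro κ
  induction κ using Multiset.induction with
  | empty => simp [gs]
  | cons y κ ih =>
    have hg : gs a (y ::ₘ κ) = Nat.gcd a y + gs a κ := by simp [gs]
    rw [hg, Multiset.card_cons]
    by_cases hy : a ∣ y
    · have e1 : (y ::ₘ κ).countP (fun y => a ∣ y) = κ.countP (fun y => a ∣ y) + 1 :=
        Multiset.countP_cons_of_pos _ hy
      rw [e1, Nat.gcd_eq_left hy]
      constructor
      · rw [mul_add, mul_one]; omega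
      · have : (B + 1) * (a + gs a κ) = (B + 1) * a + (B + 1) * gs a κ := by ring
        have h2 : (B + 1) * (a * (κ.countP (fun y => a ∣ y) + 1)) =
          (B + 1) * a + (B + 1) * (a * κ.countP (fun y => a ∣ y)) := by ring
        have h3 : a * (κ.card + 1) = a * κ.card + a := by ring
        rw [this, h2, h3]
        omega
    · have e1 : (y ::ₘ κ).countP (fun y => a ∣ y) = κ.countP (fun y => a ∣ y) :=
        Multiset.countP_cons_of_neg _ hy
      rw [e1]
      have h1 := tt2_proper ha hb hy
      constructor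
      · omega
      · have : (B + 1) * (Nat.gcd a y + gs a κ) = (B + 1) * Nat.gcd a y + (B + 1) * gs a κ := by ring
        have h3 : a * (κ.card + 1) = a * κ.card + a := by ring
        rw [this, h3]
        omega

private lemma tt2_count {m : ℕ} (a : Fin m → ℕ) (κ : Multiset ℕ) :
    ∑ i, κ.countP (fun y => a i ∣ y) =
      (κ.map (fun y => ∑ i, if a i ∣ y then 1 else 0)).sum := by
  induction κ using Multiset.induction with
  | empty => simp
  | cons y κ ih =>
    rw [Multiset.map_cons, Multiset.sum_cons, ← ih, ← Finset.sum_add_distrib]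
    apply Finset.sum_congr rfl
    intro i _
    rw [Multiset.countP_cons, add_comm]

theorem p_tt2 : S_tt2 := by
  intro hptn hms m S B H a pi ty l s hl hs μ hμ hsel
  obtain ⟨h1μ, hcard, hks, hgs⟩ := hsel
  obtain ⟨hsum, h0μ⟩ := (hptn.1 _ μ).mp hμ
  have hms1 := (hms hptn).1
  -- the statistics
  have hlen : (List.ofFn (fun i => gs (2 * a i) μ)) ++ [gs 2 μ] = qv a pi l := by
    rw [← hgs, qks, List.map_append, List.map_ofFn]
    rfl
  have hstat : (∀ i, gs (2 * a i) μ = 2 * (a i * l i + ∑ j, if j = i then 0 else pi i j * l j)) ∧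
      gs 2 μ = 2 * ∑ i, l i := by
    unfold qv at hlen
    have := List.append_inj hlen (by simp)
    refine ⟨fun i => ?_, ?_⟩
    · have h1 := List.ofFn_injective this.1
      exact congrFun h1 i
    · simpa using this.2
  obtain ⟨hst, hst2⟩ := hstat
  have ha0 : ∀ i, 0 < a i := fun i => lt_trans Nat.zero_lt_one (ty.one_lt i)
  -- all parts are even
  have heven : ∀ x ∈ μ, 2 ∣ x := by
    intro x hx
    have h1 : Nat.gcd 2 x = 2 := tt2_eq (fun x => Nat.gcd 2 x) 2 μ
      (fun x _ => Nat.le_of_dvd (by norm_num) (Nat.gcd_dvd_left 2 x))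
      (by rw [hcard]; exact hst2) x hx
    rw [← h1]
    exact Nat.gcd_dvd_right 2 x
  obtain ⟨κ, rfl⟩ : ∃ κ : Multiset ℕ, μ = κ.map (fun y => 2 * y) := by
    refine ⟨μ.map (fun x => x / 2), ?_⟩
    rw [Multiset.map_map]
    conv_lhs => rw [← Multiset.map_id μ]
    apply Multiset.map_congr rfl
    intro x hx
    simp only [Function.comp_apply, id]
    exact (Nat.mul_div_cancel' (heven x hx)).symm
  have h0κ : 0 ∉ κ := fun h => h0μ (Multiset.mem_map.mpr ⟨0, h, rfl⟩)
  have haκ : ∀ i, a i ∉ κ := by
    intro i h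
    apply hks (2 * a i)
    · unfold qks
      exact List.mem_append_left _ ((List.mem_ofFn' _ _).mpr ⟨i, rfl⟩)
    · exact Multiset.mem_map.mpr ⟨a i, h, rfl⟩
  have hcardκ : κ.card = ∑ i, l i := by rw [← hcard, Multiset.card_map]
  have hsumκ : κ.sum = ∑ i, a i * s i := by
    have : (κ.map (fun y => 2 * y)).sum = 2 * κ.sum := by
      rw [Multiset.sum_map_mul_left, Multiset.map_id']
    rw [this] at hsum
    omega
  have hgκ : ∀ i, gs (a i) κ = a i * l i + ∑ j, if j = i then 0 else pi i j * l j := by
    intro i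
    have h1 := hst i
    rw [tt2_gs2] at h1
    omega
  have hB : 1 ≤ B := le_trans ty.hS ty.hSB
  have hLB : ∑ i, l i ≤ B := le_trans hl ty.hSB
  -- the number of parts divisible by `a i`
  have hcount : ∀ i, κ.countP (fun y => a i ∣ y) = l i := by
    intro i
    obtain ⟨h1, h2⟩ := tt2_sand (ty.one_lt i) (ty.big i) κ
    have h3 : gs (a i) κ < a i * (κ.countP (fun y => a i ∣ y) + 1) := by
      have h4 : a i * κ.card ≤ a i * B := Nat.mul_le_mul_left _ (by rw [hcardκ]; exact hLB)
      have h5 : (B + 1) * gs (a i) κ < (B + 1) * (a i * (κ.countP (fun y => a i ∣ y) + 1)) := by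
        have h6 : (B + 1) * (a i * (κ.countP (fun y => a i ∣ y) + 1)) =
          (B + 1) * (a i * κ.countP (fun y => a i ∣ y)) + (a i * B + a i) := by ring
        rw [h6]
        have := ha0 i
        omega
      exact lt_of_mul_lt_mul_left h5 (Nat.zero_le _)
    have h4 : (∑ j, if j = i then 0 else pi i j * l j) < a i := by
      have h5 : B * (∑ j, if j = i then 0 else pi i j * l j) ≤ (a i - 1) * ∑ j, l j := by
        rw [Finset.mul_sum, Finset.mul_sum]
        apply Finset.sum_le_sum
        intro j _
        split_ifs with h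
        · simp
        · rw [← mul_assoc]
          apply Nat.mul_le_mul_right
          have := ty.small i j (fun h' => h h'.symm)
          omega
      have h6 : (a i - 1) * ∑ j, l j ≤ B * (a i - 1) := by
        rw [mul_comm]
        exact Nat.mul_le_mul_right _ hLB
      have h7 : (∑ j, if j = i then 0 else pi i j * l j) ≤ a i - 1 :=
        Nat.le_of_mul_le_mul_left (le_trans h5 h6) hB
      have := ha0 i
      omega
    rw [hgκ i] at h1 h3
    have h5 : κ.countP (fun y => a i ∣ y) < l i + 1 := by
      have : a i * κ.countP (fun y => a i ∣ y) < a i * (l i + 1) := by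
        rw [mul_add, mul_one]; omega
      exact lt_of_mul_lt_mul_left this (Nat.zero_le _)
    have h6 : l i < κ.countP (fun y => a i ∣ y) + 1 := by
      have : a i * l i < a i * (κ.countP (fun y => a i ∣ y) + 1) := by omega
      exact lt_of_mul_lt_mul_left this (Nat.zero_le _)
    omega
  -- the bound for the sum
  have hbound : ∀ k, ∑ i, a i * s i ≤ B * a k := by
    intro k
    have h1 : (∑ i, a i * s i) * S ≤ S * (B * a k) := by
      rw [Finset.sum_mul]
      calc ∑ i, a i * s i * S = ∑ i, s i * (a i * S) := by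
            apply Finset.sum_congr rfl; intro i _; ring
        _ ≤ ∑ i, s i * (B * a k) := Finset.sum_le_sum fun i _ => Nat.mul_le_mul_left _ (ty.comp i k)
        _ = (∑ i, s i) * (B * a k) := by rw [Finset.sum_mul]
        _ ≤ S * (B * a k) := Nat.mul_le_mul_right _ hs
    rw [mul_comm] at h1
    exact Nat.le_of_mul_le_mul_left h1 ty.hS
  -- no part is divisible by two of the `a i`
  have hone : ∀ y ∈ κ, ∀ i k, a i ∣ y → a k ∣ y → i = k := by
    intro y hy i k hi hk
    by_contra hne
    have h1 : Nat.lcm (a i) (a k) ∣ y := Nat.lcm_dvd hi hk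
    have hy0 : 0 < y := Nat.pos_of_ne_zero (fun h => h0κ (h ▸ hy))
    have h2 : Nat.lcm (a i) (a k) ≤ y := Nat.le_of_dvd hy0 h1
    have h3 : y ≤ κ.sum := Multiset.le_sum_of_mem hy
    have h4 := hbound k
    rw [← hsumκ] at h4
    have h5 : pi i k * Nat.lcm (a i) (a k) = a i * a k := by
      rw [← ty.gcd_a i k hne]
      exact Nat.gcd_mul_lcm (a i) (a k)
    have h6 := ty.small i k hne
    have h7 : pi i k * Nat.lcm (a i) (a k) ≤ pi i k * (B * a k) :=
      Nat.mul_le_mul_left _ (le_trans h2 (le_trans h3 h4))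
    rw [h5] at h7
    have h8 : a i * a k ≤ (B * pi i k) * a k := by
      calc a i * a k ≤ pi i k * (B * a k) := h7
        _ = (B * pi i k) * a k := by ring
    have h9 : a i ≤ B * pi i k := Nat.le_of_mul_le_mul_right h8 (ha0 k)
    omega
  have hsumone : ∀ y ∈ κ, (∑ i, if a i ∣ y then 1 else 0) = 1 := by
    apply tt2_eq (fun y => ∑ i, if a i ∣ y then 1 else 0) 1 κ
    · intro y hy
      by_cases h : ∃ i, a i ∣ y
      · obtain ⟨i, hi⟩ := h
        have : (∑ k, if a k ∣ y then 1 else 0) = 1 := by
          rw [Finset.sum_eq_single i]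
          · simp [hi]
          · intro k _ hk
            rw [if_neg]
            intro h'
            exact hk (hone y hy k i h' hi)
          · intro h'; exact absurd (Finset.mem_univ i) h'
        exact this.le
      · have : (∑ k, if a k ∣ y then 1 else 0) = 0 := by
          apply Finset.sum_eq_zero
          intro k _
          rw [if_neg]
          intro h'
          exact h ⟨k, h'⟩
        change (∑ k, if a k ∣ y then 1 else 0) ≤ 1
        rw [this]
        exact Nat.zero_le _
    · rw [← tt2_count, Finset.sum_congr rfl (fun i _ => hcount i), hcardκ, one_mul]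
  have hsplit : ∑ i, κ.filter (fun y => a i ∣ y) = κ := by
    ext y
    rw [Multiset.count_sum']
    by_cases hy : y ∈ κ
    · have h1 : ∀ i, Multiset.count y (κ.filter (fun y => a i ∣ y)) =
          (if a i ∣ y then 1 else 0) * κ.count y := by
        intro i
        rw [Multiset.count_filter]
        split_ifs <;> simp
      rw [Finset.sum_congr rfl (fun i _ => h1 i), ← Finset.sum_mul, hsumone y hy, one_mul]
    · rw [Multiset.count_eq_zero_of_notMem hy]
      apply Finset.sum_eq_zero
      intro i _
      apply Multiset.count_eq_zero_of_notMem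
      intro h
      exact hy (Multiset.mem_of_mem_filter h)
  -- the tuple
  have hmapY : ∀ i, ((κ.filter (fun y => a i ∣ y)).map (fun y => y / a i)).map (fun x => a i * x) =
      κ.filter (fun y => a i ∣ y) := by
    intro i
    rw [Multiset.map_map]
    conv_rhs => rw [← Multiset.map_id (κ.filter (fun y => a i ∣ y))]
    apply Multiset.map_congr rfl
    intro y hy
    simp only [Function.comp_apply, id]
    exact Nat.mul_div_cancel' (Multiset.mem_filter.mp hy).2
  have hsumY : ∀ i, a i * ((κ.filter (fun y => a i ∣ y)).map (fun y => y / a i)).sum =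
      (κ.filter (fun y => a i ∣ y)).sum := by
    intro i
    have h1 : (((κ.filter (fun y => a i ∣ y)).map (fun y => y / a i)).map (fun x => a i * x)).sum =
        a i * ((κ.filter (fun y => a i ∣ y)).map (fun y => y / a i)).sum := by
      rw [Multiset.sum_map_mul_left, Multiset.map_id']
    rw [← h1, hmapY]
  have hsumall : ∑ i, (κ.filter (fun y => a i ∣ y)).sum = κ.sum := by
    conv_rhs => rw [← hsplit]
    exact (map_sum (Multiset.sumAddMonoidHom (M := ℕ)) _ _).symm
  refine ⟨fun i => (κ.filter (fun y => a i ∣ y)).map (fun y => y / a i), ?_, ?_⟩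
  · unfold TT
    rw [Finset.mem_filter, Fintype.mem_piFinset]
    refine ⟨fun i => ?_, fun i => ⟨?_, ?_⟩, ?_⟩
    · rw [hms1]
      refine ⟨?_, ?_⟩
      · intro h
        obtain ⟨y, hy, hy0⟩ := Multiset.mem_map.mp h
        obtain ⟨hy1, hy2⟩ := Multiset.mem_filter.mp hy
        have : y = 0 := by
          rw [← Nat.mul_div_cancel' hy2, hy0, mul_zero]
        exact h0κ (this ▸ hy1)
      · have h1 : a i * ((κ.filter (fun y => a i ∣ y)).map (fun y => y / a i)).sum ≤ a i * B := by
          rw [hsumY i]
          calc (κ.filter (fun y => a i ∣ y)).sum ≤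
                ∑ i, (κ.filter (fun y => a i ∣ y)).sum :=
                Finset.single_le_sum (f := fun i => (κ.filter (fun y => a i ∣ y)).sum)
                  (fun _ _ => Nat.zero_le _) (Finset.mem_univ i)
            _ = κ.sum := hsumall
            _ ≤ B * a i := by rw [hsumκ]; exact hbound i
            _ = a i * B := mul_comm _ _
        exact Nat.le_of_mul_le_mul_left h1 (ha0 i)
    · rw [Multiset.card_map, ← Multiset.countP_eq_card_filter]
      exact hcount i
    · intro h
      obtain ⟨y, hy, hy1⟩ := Multiset.mem_map.mp h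
      obtain ⟨hy2, hy3⟩ := Multiset.mem_filter.mp hy
      have : y = a i := by
        rw [← Nat.mul_div_cancel' hy3, hy1, mul_one]
      exact haκ i (this ▸ hy2)
    · rw [Finset.sum_congr rfl (fun i _ => hsumY i), hsumall, hsumκ]
  · unfold join
    have h1 : ∀ i, ((κ.filter (fun y => a i ∣ y)).map (fun y => y / a i)).map (fun x => 2 * a i * x) =
        (κ.filter (fun y => a i ∣ y)).map (fun y => 2 * y) := by
      intro i
      conv_rhs => rw [← hmapY i]
      rw [Multiset.map_map, Multiset.map_map, Multiset.map_map]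
      apply Multiset.map_congr rfl
      intro y _
      simp only [Function.comp_apply]
      ring
    rw [Finset.sum_congr rfl (fun i _ => h1 i)]
    conv_rhs => rw [← hsplit]
    exact (map_sum (Multiset.mapAddMonoidHom (fun y : ℕ => 2 * y)) _ _).symm

end Pool.Agent.Lib.MP_4b91fc_lc.GH
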