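import Pool.Agent.Lib.MP_4b91fc_lc.GH.Stm2

set_option autoImplicit false

/-!
# The type numbers satisfy the structure `TyOK`
-/

namespace Pool.Agent.Lib.MP_4b91fc_lc.GH

open Finset

open scoped Nat

/-! ### Sizes -/

private theorem ty1_B_pos (m S : ℕ) (hS : 1 ≤ S) : 1 ≤ bB m S := by
  unfold bB
  exact Nat.mul_pos (by positivity) hS

private theorem ty1_G_B (m S : ℕ) : 4 * bB m S ^ 2 + 1 ≤ tyG m S := by
  unfold tyG
  nlinarith [Nat.zero_le (m * (bB m S + 2) ^ 2), Nat.zero_le (bB m S ^ 2), Nat.zero_le (bB m S)]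

private theorem ty1_G_2B (m S : ℕ) : 2 * bB m S + 8 ≤ tyG m S := by
  unfold tyG
  nlinarith [Nat.zero_le (m * (bB m S + 2) ^ 2)]

private theorem ty1_H_G (m S : ℕ) : bH m S ≤ tyG m S := by
  unfold tyG bH
  nlinarith [Nat.zero_le ((m + 1) * (bB m S + 2) ^ 2)]

private theorem ty1_pow_pos (m S e : ℕ) : 1 ≤ tyG m S ^ e :=
  Nat.one_le_pow _ _ (by have := ty1_G_2B m S; omega)

private theorem ty1_pow_mono (m S : ℕ) {e f : ℕ} (h : e ≤ f) : tyG m S ^ e ≤ tyG m S ^ f :=
  Nat.pow_le_pow_right (by have := ty1_G_2B m S; omega) h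

private theorem ty1_two (m S e : ℕ) : 2 * tyG m S ^ e < tyG m S ^ (e + 1) := by
  rw [pow_succ]
  have h1 := ty1_G_2B m S
  have h2 := ty1_pow_pos m S e
  nlinarith

/-! ### The exponents -/

/-- the exponent of a pair -/
private def ty1_e {m : ℕ} (i j : Fin m) : ℕ := (i : ℕ) * m + j + 1

private theorem ty1_e_le {m : ℕ} (i j : Fin m) : ty1_e i j ≤ m ^ 2 := by
  unfold ty1_e
  have h1 : ((i : ℕ) + 1) * m ≤ m * m := Nat.mul_le_mul_right _ i.2
  have h2 := j.2
  nlinarith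

private theorem ty1_e_pos {m : ℕ} (i j : Fin m) : 1 ≤ ty1_e i j := by
  unfold ty1_e
  omega

private theorem ty1_euc {m a b c d : ℕ} (hb : b < m) (hd : d < m)
    (h : a * m + b = c * m + d) : a = c ∧ b = d := by
  rcases lt_trichotomy a c with h1 | h1 | h1
  · have h2 : (a + 1) * m ≤ c * m := Nat.mul_le_mul_right _ h1
    nlinarith
  · subst h1
    exact ⟨rfl, by omega⟩
  · have h2 : (c + 1) * m ≤ a * m := Nat.mul_le_mul_right _ h1
    nlinarith

private theorem ty1_e_inj {m : ℕ} {i j k l : Fin m} (h : ty1_e i j = ty1_e k l) :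
    i = k ∧ j = l := by
  unfold ty1_e at h
  have h1 := ty1_euc j.2 l.2 (by omega : (i : ℕ) * m + j = k * m + l)
  exact ⟨Fin.ext h1.1, Fin.ext h1.2⟩

/-! ### The primes `pi` -/

section

variable {m S : ℕ}

private theorem ty1_pi_lt (hnp : S_np) {i j : Fin m} (h : i < j) :
    (tyPi m S i j).Prime ∧ tyG m S ^ ty1_e i j < tyPi m S i j ∧
      tyPi m S i j ≤ 2 * tyG m S ^ ty1_e i j := by
  have h1 : tyPi m S i j = np 1 (tyG m S ^ ty1_e i j) [] := by
    unfold tyPi
    rw [if_pos h]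
    rfl
  have h2 := hnp.1 1 (tyG m S ^ ty1_e i j) [] (ty1_pow_pos m S _) (by simp)
  rw [h1]
  exact ⟨h2.1, h2.2.1, by simpa using h2.2.2.1⟩

private theorem ty1_sym (i j : Fin m) : tyPi m S i j = tyPi m S j i := by
  unfold tyPi
  rcases lt_trichotomy i j with h | h | h
  · rw [if_pos h, if_neg (lt_asymm h), if_pos h]
  · subst h
    rfl
  · rw [if_neg (lt_asymm h), if_pos h, if_pos h]

private theorem ty1_prime (hnp : S_np) {i j : Fin m} (h : i ≠ j) : (tyPi m S i j).Prime := by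
  rcases lt_or_gt_of_ne h with h1 | h1
  · exact (ty1_pi_lt hnp h1).1
  · rw [ty1_sym]
    exact (ty1_pi_lt hnp h1).1

private theorem ty1_gt (hnp : S_np) {i j : Fin m} (h : i ≠ j) : tyG m S < tyPi m S i j := by
  have key : ∀ {i j : Fin m}, i < j → tyG m S < tyPi m S i j := by
    intro i j h1
    refine lt_of_le_of_lt ?_ (ty1_pi_lt hnp h1).2.1
    calc tyG m S = tyG m S ^ 1 := (pow_one _).symm
      _ ≤ _ := ty1_pow_mono m S (ty1_e_pos i j)
  rcases lt_or_gt_of_ne h with h1 | h1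
  · exact key h1
  · rw [ty1_sym]
    exact key h1

private theorem ty1_le (hnp : S_np) {i j : Fin m} (h : i ≠ j) :
    tyPi m S i j ≤ 2 * tyG m S ^ (m ^ 2) := by
  have key : ∀ {i j : Fin m}, i < j → tyPi m S i j ≤ 2 * tyG m S ^ (m ^ 2) := by
    intro i j h1
    exact (ty1_pi_lt hnp h1).2.2.trans (Nat.mul_le_mul_left _ (ty1_pow_mono m S (ty1_e_le i j)))
  rcases lt_or_gt_of_ne h with h1 | h1
  · exact key h1
  · rw [ty1_sym]
    exact key h1

private theorem ty1_inj_lt (hnp : S_np) {i j k l : Fin m} (h : i < j) (h' : k < l)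
    (he : tyPi m S i j = tyPi m S k l) : i = k ∧ j = l := by
  have h1 := ty1_pi_lt (S := S) hnp h
  have h2 := ty1_pi_lt (S := S) hnp h'
  rcases lt_trichotomy (ty1_e i j) (ty1_e k l) with h3 | h3 | h3
  · have h4 := ty1_two m S (ty1_e i j)
    have h5 : tyG m S ^ (ty1_e i j + 1) ≤ tyG m S ^ ty1_e k l := ty1_pow_mono m S h3
    omega
  · exact ty1_e_inj h3
  · have h4 := ty1_two m S (ty1_e k l)
    have h5 : tyG m S ^ (ty1_e k l + 1) ≤ tyG m S ^ ty1_e i j := ty1_pow_mono m S h3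
    omega

private theorem ty1_inj (hnp : S_np) {i j k l : Fin m} (h : i ≠ j) (h' : k ≠ l)
    (he : tyPi m S i j = tyPi m S k l) : (i = k ∧ j = l) ∨ (i = l ∧ j = k) := by
  rcases lt_or_gt_of_ne h with h1 | h1 <;> rcases lt_or_gt_of_ne h' with h2 | h2
  · exact Or.inl (ty1_inj_lt hnp h1 h2 he)
  · rw [ty1_sym k l] at he
    exact Or.inr (ty1_inj_lt hnp h1 h2 he)
  · rw [ty1_sym i j] at he
    have := ty1_inj_lt hnp h1 h2 he
    exact Or.inr ⟨this.2, this.1⟩
  · rw [ty1_sym i j, ty1_sym k l] at he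
    have := ty1_inj_lt hnp h1 h2 he
    exact Or.inl ⟨this.2, this.1⟩

/-! ### The products and the numbers `rho` -/

private theorem ty1_P_pos (hnp : S_np) (i : Fin m) : 1 ≤ tyP m S i := by
  unfold tyP
  refine Nat.one_le_iff_ne_zero.mpr (Finset.prod_ne_zero_iff.mpr fun j _ => ?_)
  split_ifs with h
  · exact one_ne_zero
  · exact (ty1_prime hnp (Ne.symm h)).ne_zero

private theorem ty1_P_le (hnp : S_np) (i : Fin m) : tyP m S i ≤ tyG m S ^ (m ^ 3 + m) := by
  unfold tyP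
  have h1 : (∏ j, if j = i then 1 else tyPi m S i j) ≤ ∏ _j : Fin m, tyG m S ^ (m ^ 2 + 1) := by
    refine Finset.prod_le_prod' fun j _ => ?_
    split_ifs with h
    · exact ty1_pow_pos m S _
    · exact (ty1_le hnp (Ne.symm h)).trans (ty1_two m S _).le
  refine h1.trans (le_of_eq ?_)
  rw [Finset.prod_const, Finset.card_univ, Fintype.card_fin, ← pow_mul]
  congr 1
  ring

private theorem ty1_P_le_A (hnp : S_np) (i : Fin m) : tyP m S i ≤ tyA m S :=
  (ty1_P_le hnp i).trans (ty1_pow_mono m S (by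
    have := Nat.zero_le (2 * m ^ 2)
    omega))

private theorem ty1_div (hnp : S_np) (i : Fin m) :
    tyG m S ^ (2 * m ^ 2 + 6) ≤ tyA m S / tyP m S i := by
  rw [Nat.le_div_iff_mul_le (ty1_P_pos hnp i)]
  refine (Nat.mul_le_mul_left _ (ty1_P_le hnp i)).trans (le_of_eq ?_)
  unfold tyA
  rw [← pow_add]
  congr 1
  ring

/-- the number `rho_i` -/
private def ty1_rho (m S : ℕ) (i : Fin m) : ℕ := (tyRho m S (i + 1)).headD 1

private theorem ty1_len (t : ℕ) : (tyRho m S t).length = t := by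
  induction t with
  | zero => rfl
  | succ t ih =>
    rw [tyRho, List.length_cons, ih]

private theorem ty1_rho_eq (i : Fin m) : ty1_rho m S i =
    np (m + 1) (tyA m S / tyP m S i + 1) (tyRho m S i) := by
  unfold ty1_rho
  rw [tyRho, List.headD_cons, dif_pos i.2]

private theorem ty1_rho_spec (hnp : S_np) (i : Fin m) : (ty1_rho m S i).Prime ∧
    tyA m S / tyP m S i + 1 < ty1_rho m S i ∧
    ty1_rho m S i ≤ 2 ^ (m + 1) * (tyA m S / tyP m S i + 1) ∧ ty1_rho m S i ∉ tyRho m S i := by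
  rw [ty1_rho_eq]
  exact hnp.1 (m + 1) (tyA m S / tyP m S i + 1) (tyRho m S i) (Nat.le_add_left 1 _) (by
    rw [ty1_len]
    have := i.2
    omega)

private theorem ty1_mem (k : Fin m) (t : ℕ) (h : (k : ℕ) < t) :
    ty1_rho m S k ∈ tyRho m S t := by
  induction t with
  | zero => omega
  | succ t ih =>
    rcases Nat.lt_succ_iff_lt_or_eq.mp h with h1 | h1
    · rw [tyRho]
      exact List.mem_cons_of_mem _ (ih h1)
    · unfold ty1_rho
      subst h1
      rw [tyRho, List.headD_cons]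
      exact List.mem_cons_self

private theorem ty1_rho_ne (hnp : S_np) {i j : Fin m} (h : i ≠ j) :
    ty1_rho m S i ≠ ty1_rho m S j := by
  rcases lt_or_gt_of_ne h with h1 | h1
  · intro he
    refine (ty1_rho_spec (S := S) hnp j).2.2.2 ?_
    rw [← he]
    exact ty1_mem i j h1
  · intro he
    refine (ty1_rho_spec (S := S) hnp i).2.2.2 ?_
    rw [he]
    exact ty1_mem j i h1

private theorem ty1_rho_gt (hnp : S_np) (k : Fin m) {i j : Fin m} (h : i ≠ j) :
    tyPi m S i j < ty1_rho m S k := by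
  have h1 := (ty1_rho_spec (S := S) hnp k).2.1
  have h2 := ty1_div (S := S) hnp k
  have h3 := ty1_le (S := S) hnp h
  have h4 := ty1_two m S (m ^ 2)
  have h5 : tyG m S ^ (m ^ 2 + 1) ≤ tyG m S ^ (2 * m ^ 2 + 6) := ty1_pow_mono m S (by omega)
  omega

private theorem ty1_a_eq (i : Fin m) : tya m S i = tyP m S i * ty1_rho m S i := rfl

private theorem ty1_a_gt (hnp : S_np) (i : Fin m) : tyA m S < tya m S i := by
  rw [ty1_a_eq]
  have h1 := (ty1_rho_spec (S := S) hnp i).2.1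
  have h2 := ty1_P_pos (S := S) hnp i
  calc tyA m S < tyP m S i * (tyA m S / tyP m S i + 1) := Nat.lt_mul_div_succ _ h2
    _ ≤ _ := Nat.mul_le_mul_left _ h1.le

private theorem ty1_a_le (hnp : S_np) (i : Fin m) : tya m S i ≤ 2 ^ (m + 2) * tyA m S := by
  rw [ty1_a_eq]
  have h1 := (ty1_rho_spec (S := S) hnp i).2.2.1
  have h2 := ty1_P_le_A (S := S) hnp i
  have h3 : tyP m S i * (tyA m S / tyP m S i) ≤ tyA m S := Nat.mul_div_le _ _
  calc tyP m S i * ty1_rho m S i
      ≤ tyP m S i * (2 ^ (m + 1) * (tyA m S / tyP m S i + 1)) := Nat.mul_le_mul_left _ h1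
    _ = 2 ^ (m + 1) * (tyP m S i * (tyA m S / tyP m S i) + tyP m S i) := by ring
    _ ≤ 2 ^ (m + 1) * (tyA m S + tyA m S) := Nat.mul_le_mul_left _ (by omega)
    _ = 2 ^ (m + 2) * tyA m S := by ring

private theorem ty1_gcd (hnp : S_np) {i j : Fin m} (h : i ≠ j) :
    Nat.gcd (tya m S i) (tya m S j) = tyPi m S i j := by
  have hi : tyP m S i = tyPi m S i j *
      ∏ k ∈ univ.erase j, if k = i then 1 else tyPi m S i k := by
    unfold tyP
    rw [← Finset.mul_prod_erase univ _ (Finset.mem_univ j), if_neg (Ne.symm h)]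
  have hj : tyP m S j = tyPi m S i j *
      ∏ k ∈ univ.erase i, if k = j then 1 else tyPi m S j k := by
    unfold tyP
    rw [← Finset.mul_prod_erase univ _ (Finset.mem_univ i), if_neg h, ty1_sym j i]
  have hc : Nat.Coprime ((∏ k ∈ univ.erase j, if k = i then 1 else tyPi m S i k) * ty1_rho m S i)
      ((∏ k ∈ univ.erase i, if k = j then 1 else tyPi m S j k) * ty1_rho m S j) := by
    have c1 : ∀ k ∈ univ.erase j, Nat.Coprime (if k = i then 1 else tyPi m S i k)
        (∏ k ∈ univ.erase i, if k = j then 1 else tyPi m S j k) := by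
      intro k hk
      refine Nat.Coprime.prod_right fun l hl => ?_
      have hk' : k ≠ j := (Finset.mem_erase.mp hk).1
      have hl' : l ≠ i := (Finset.mem_erase.mp hl).1
      split_ifs with h1 h2 h2
      · exact Nat.coprime_one_left _
      · exact Nat.coprime_one_left _
      · exact Nat.coprime_one_right _
      · refine (Nat.coprime_primes (ty1_prime hnp (Ne.symm h1)) (ty1_prime hnp (Ne.symm h2))).2 ?_
        intro he
        rcases ty1_inj hnp (Ne.symm h1) (Ne.symm h2) he with h3 | h3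
        · exact h h3.1
        · exact hl' h3.1.symm
    have c2 : ∀ k ∈ univ.erase j, Nat.Coprime (if k = i then 1 else tyPi m S i k)
        (ty1_rho m S j) := by
      intro k _
      split_ifs with h1
      · exact Nat.coprime_one_left _
      · exact (Nat.coprime_primes (ty1_prime hnp (Ne.symm h1)) (ty1_rho_spec hnp j).1).2
          (ty1_rho_gt hnp j (Ne.symm h1)).ne
    have c3 : ∀ k ∈ univ.erase i, Nat.Coprime (ty1_rho m S i)
        (if k = j then 1 else tyPi m S j k) := by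
      intro k _
      split_ifs with h1
      · exact Nat.coprime_one_right _
      · exact (Nat.coprime_primes (ty1_rho_spec hnp i).1 (ty1_prime hnp (Ne.symm h1))).2
          (ty1_rho_gt hnp i (Ne.symm h1)).ne'
    refine Nat.Coprime.mul_left (Nat.Coprime.mul_right ?_ ?_) (Nat.Coprime.mul_right ?_ ?_)
    · exact Nat.Coprime.prod_left c1
    · exact Nat.Coprime.prod_left c2
    · exact Nat.Coprime.prod_right c3
    · exact (Nat.coprime_primes (ty1_rho_spec hnp i).1 (ty1_rho_spec hnp j).1).2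
        (ty1_rho_ne hnp h)
  rw [ty1_a_eq, ty1_a_eq, hi, hj, mul_assoc, mul_assoc, Nat.gcd_mul_left, hc.gcd_eq_one, mul_one]

private theorem ty1_big (hnp : S_np) (i : Fin m) (p : ℕ) (hp : p.Prime) (hd : p ∣ tya m S i) :
    bB m S < p := by
  have hG := ty1_G_2B m S
  rw [ty1_a_eq, hp.dvd_mul] at hd
  rcases hd with h | h
  · unfold tyP at h
    rw [hp.prime.dvd_finsetProd_iff] at h
    obtain ⟨k, _, hk⟩ := h
    split_ifs at hk with h1
    · exact absurd hk hp.not_dvd_one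
    · have h2 := (Nat.prime_dvd_prime_iff_eq hp (ty1_prime hnp (Ne.symm h1))).1 hk
      have h3 := ty1_gt (S := S) hnp (Ne.symm h1)
      omega
  · have h2 := (Nat.prime_dvd_prime_iff_eq hp (ty1_rho_spec hnp i).1).1 h
    have h3 := (ty1_rho_spec (S := S) hnp i).2.1
    have h4 := ty1_div (S := S) hnp i
    have h5 : tyG m S ^ 1 ≤ tyG m S ^ (2 * m ^ 2 + 6) := ty1_pow_mono m S (by omega)
    rw [pow_one] at h5
    omega

/-! ### Separation -/

private theorem ty1_geom (G N : ℕ) (hG : 1 ≤ G) : ∑ k ∈ range N, (G - 1) * G ^ k + 1 = G ^ N := by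
  induction N with
  | zero => simp
  | succ N ih =>
    rw [Finset.sum_range_succ, pow_succ]
    obtain ⟨g, rfl⟩ : ∃ g, G = g + 1 := ⟨G - 1, by omega⟩
    simp only [Nat.add_sub_cancel] at ih ⊢
    nlinarith

private theorem ty1_sum_lt (S : ℕ) (T : Finset (Fin m × Fin m)) (N : ℕ)
    (hN : ∀ p ∈ T, ty1_e p.1 p.2 < N) :
    ∑ p ∈ T, 4 * bB m S ^ 2 * tyG m S ^ ty1_e p.1 p.2 + 1 ≤ tyG m S ^ N := by
  have hG := ty1_G_B m S
  have h1 : ∑ p ∈ T, 4 * bB m S ^ 2 * tyG m S ^ ty1_e p.1 p.2 ≤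
      ∑ p ∈ T, (tyG m S - 1) * tyG m S ^ ty1_e p.1 p.2 :=
    Finset.sum_le_sum fun p _ => Nat.mul_le_mul_right _ (by omega)
  have h2 : ∑ p ∈ T, (tyG m S - 1) * tyG m S ^ ty1_e p.1 p.2 =
      ∑ k ∈ T.image (fun p => ty1_e p.1 p.2), (tyG m S - 1) * tyG m S ^ k := by
    rw [Finset.sum_image]
    intro p _ q _ h
    have h3 := ty1_e_inj h
    exact Prod.ext h3.1 h3.2
  have h3 : ∑ k ∈ T.image (fun p => ty1_e p.1 p.2), (tyG m S - 1) * tyG m S ^ k ≤
      ∑ k ∈ range N, (tyG m S - 1) * tyG m S ^ k := by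
    refine Finset.sum_le_sum_of_subset ?_
    intro k hk
    rw [Finset.mem_image] at hk
    obtain ⟨p, hp, rfl⟩ := hk
    exact Finset.mem_range.mpr (hN p hp)
  have h4 := ty1_geom (tyG m S) N (by omega)
  omega

private theorem ty1_double {M : Type} [AddCommMonoid M] (x : Fin m → Fin m → M) :
    (∑ i, ∑ j, if i < j then x i j else 0) =
      ∑ p ∈ (univ : Finset (Fin m × Fin m)).filter (fun p => p.1 < p.2), x p.1 p.2 := by
  rw [Finset.sum_filter, ← Finset.univ_product_univ, Finset.sum_product]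

private theorem ty1_sep (hnp : S_np) (d : Fin m → Fin m → ℤ)
    (hd : ∀ i j, |d i j| ≤ (bB m S : ℤ) ^ 2) (hne : ∃ i j, i < j ∧ d i j ≠ 0) :
    (bH m S : ℤ) ≤ |∑ i, ∑ j, if i < j then 2 * (tyPi m S i j : ℤ) * d i j else 0| := by
  rw [ty1_double (fun i j => 2 * (tyPi m S i j : ℤ) * d i j)]
  set F := (univ : Finset (Fin m × Fin m)).filter (fun p => p.1 < p.2) with hF
  set T := F.filter (fun p => d p.1 p.2 ≠ 0) with hT
  have h0 : ∑ p ∈ F, 2 * (tyPi m S p.1 p.2 : ℤ) * d p.1 p.2 =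
      ∑ p ∈ T, 2 * (tyPi m S p.1 p.2 : ℤ) * d p.1 p.2 := by
    symm
    refine Finset.sum_subset (Finset.filter_subset _ _) fun p hp hn => ?_
    have h : d p.1 p.2 = 0 := by
      by_contra h
      exact hn (Finset.mem_filter.mpr ⟨hp, h⟩)
    rw [h, mul_zero]
  obtain ⟨i, j, hij, hdij⟩ := hne
  have hTne : T.Nonempty := ⟨(i, j), by simp [hT, hF, hij, hdij]⟩
  obtain ⟨p0, hp0, hmax⟩ := Finset.exists_max_image T (fun p => ty1_e p.1 p.2) hTne
  have hTlt : ∀ p ∈ T, p.1 < p.2 := by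
    intro p hp
    rw [hT, hF, Finset.mem_filter, Finset.mem_filter] at hp
    exact hp.1.2
  have hTd : ∀ p ∈ T, d p.1 p.2 ≠ 0 := by
    intro p hp
    rw [hT, Finset.mem_filter] at hp
    exact hp.2
  rw [h0, ← Finset.add_sum_erase T _ hp0]
  have h1 : (2 : ℤ) * (tyG m S : ℤ) ^ ty1_e p0.1 p0.2 ≤
      |2 * (tyPi m S p0.1 p0.2 : ℤ) * d p0.1 p0.2| := by
    rw [abs_mul, abs_mul, abs_two, Nat.abs_cast]
    have h2 : (1 : ℤ) ≤ |d p0.1 p0.2| := Int.one_le_abs (hTd p0 hp0)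
    have h3 : ((tyG m S ^ ty1_e p0.1 p0.2 : ℕ) : ℤ) ≤ (tyPi m S p0.1 p0.2 : ℤ) := by
      exact_mod_cast (ty1_pi_lt (S := S) hnp (hTlt p0 hp0)).2.1.le
    push_cast at h3
    have h4 : (0 : ℤ) ≤ (tyPi m S p0.1 p0.2 : ℤ) := Int.natCast_nonneg _
    nlinarith
  have h2 : |∑ p ∈ T.erase p0, 2 * (tyPi m S p.1 p.2 : ℤ) * d p.1 p.2| + 1 ≤
      (tyG m S : ℤ) ^ ty1_e p0.1 p0.2 := by
    have h3 : |∑ p ∈ T.erase p0, 2 * (tyPi m S p.1 p.2 : ℤ) * d p.1 p.2| ≤
        ∑ p ∈ T.erase p0, ((4 * bB m S ^ 2 * tyG m S ^ ty1_e p.1 p.2 : ℕ) : ℤ) := by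
      refine (Finset.abs_sum_le_sum_abs _ _).trans (Finset.sum_le_sum fun p hp => ?_)
      rw [abs_mul, abs_mul, abs_two, Nat.abs_cast]
      have h4 : (tyPi m S p.1 p.2 : ℤ) ≤ ((2 * tyG m S ^ ty1_e p.1 p.2 : ℕ) : ℤ) := by
        exact_mod_cast (ty1_pi_lt (S := S) hnp (hTlt p (Finset.mem_of_mem_erase hp))).2.2
      have h5 := hd p.1 p.2
      calc 2 * (tyPi m S p.1 p.2 : ℤ) * |d p.1 p.2|
          ≤ 2 * ((2 * tyG m S ^ ty1_e p.1 p.2 : ℕ) : ℤ) * (bB m S : ℤ) ^ 2 :=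
            mul_le_mul (by linarith) h5 (abs_nonneg _) (by positivity)
        _ = ((4 * bB m S ^ 2 * tyG m S ^ ty1_e p.1 p.2 : ℕ) : ℤ) := by
            push_cast
            ring
    have h4 := ty1_sum_lt S (T.erase p0) (ty1_e p0.1 p0.2) (by
      intro p hp
      have h5 := hmax p (Finset.mem_of_mem_erase hp)
      refine lt_of_le_of_ne h5 fun h6 => ?_
      have h7 := ty1_e_inj h6
      exact Finset.ne_of_mem_erase hp (Prod.ext h7.1 h7.2))
    have h5 : ((∑ p ∈ T.erase p0, 4 * bB m S ^ 2 * tyG m S ^ ty1_e p.1 p.2 + 1 : ℕ) : ℤ) ≤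
        ((tyG m S ^ ty1_e p0.1 p0.2 : ℕ) : ℤ) := by exact_mod_cast h4
    push_cast at h5 h3
    linarith
  have h3 : |2 * (tyPi m S p0.1 p0.2 : ℤ) * d p0.1 p0.2| -
      |∑ p ∈ T.erase p0, 2 * (tyPi m S p.1 p.2 : ℤ) * d p.1 p.2| ≤
      |2 * (tyPi m S p0.1 p0.2 : ℤ) * d p0.1 p0.2 +
        ∑ p ∈ T.erase p0, 2 * (tyPi m S p.1 p.2 : ℤ) * d p.1 p.2| := by
    have h4 := abs_sub_abs_le_abs_sub (2 * (tyPi m S p0.1 p0.2 : ℤ) * d p0.1 p0.2)
      (-(∑ p ∈ T.erase p0, 2 * (tyPi m S p.1 p.2 : ℤ) * d p.1 p.2))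
    rwa [abs_neg, sub_neg_eq_add] at h4
  have h4 : (bH m S : ℤ) ≤ (tyG m S : ℤ) ^ ty1_e p0.1 p0.2 := by
    have h5 : bH m S ≤ tyG m S ^ ty1_e p0.1 p0.2 := by
      refine (ty1_H_G m S).trans ?_
      calc tyG m S = tyG m S ^ 1 := (pow_one _).symm
        _ ≤ _ := ty1_pow_mono m S (ty1_e_pos _ _)
    exact_mod_cast h5
  linarith

private theorem ty1_top (hnp : S_np) (k : Fin m) :
    (∑ i, ∑ j, if i < j then 2 * tyPi m S i j * bB m S ^ 2 else 0) + bH m S ≤ tya m S k := by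
  rw [ty1_double (fun i j => 2 * tyPi m S i j * bB m S ^ 2)]
  have h1 : ∑ p ∈ (univ : Finset (Fin m × Fin m)).filter (fun p => p.1 < p.2),
      2 * tyPi m S p.1 p.2 * bB m S ^ 2 ≤
      ∑ p ∈ (univ : Finset (Fin m × Fin m)).filter (fun p => p.1 < p.2),
        4 * bB m S ^ 2 * tyG m S ^ ty1_e p.1 p.2 := by
    refine Finset.sum_le_sum fun p hp => ?_
    have h2 := (ty1_pi_lt (S := S) hnp (Finset.mem_filter.mp hp).2).2.2
    calc 2 * tyPi m S p.1 p.2 * bB m S ^ 2
        ≤ 2 * (2 * tyG m S ^ ty1_e p.1 p.2) * bB m S ^ 2 :=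
          Nat.mul_le_mul_right _ (Nat.mul_le_mul_left _ h2)
      _ = _ := by ring
  have h2 := ty1_sum_lt S ((univ : Finset (Fin m × Fin m)).filter (fun p => p.1 < p.2))
    (m ^ 2 + 1) (by
      intro p _
      have := ty1_e_le p.1 p.2
      omega)
  have h3 := ty1_H_G m S
  have h4 : tyG m S ^ 1 ≤ tyG m S ^ (m ^ 2 + 1) := ty1_pow_mono m S (by omega)
  rw [pow_one] at h4
  have h5 := ty1_two m S (m ^ 2 + 1)
  have h6 : tyG m S ^ (m ^ 2 + 1 + 1) ≤ tyA m S := ty1_pow_mono m S (by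
    have := Nat.zero_le (m ^ 3)
    omega)
  have h7 := ty1_a_gt (S := S) hnp k
  omega

private theorem ty1_bits (m S : ℕ) : ((bB m S)! * 2 ^ (2 * bB m S + 2)) ^ m < 2 ^ bH m S := by
  set B := bB m S with hB
  have h1 : B ! ≤ 2 ^ (B * B) := by
    calc B ! ≤ B ^ B := Nat.factorial_le_pow B
      _ ≤ (2 ^ B) ^ B := Nat.pow_le_pow_left Nat.lt_two_pow_self.le _
      _ = 2 ^ (B * B) := by rw [← pow_mul]
  calc (B ! * 2 ^ (2 * B + 2)) ^ m ≤ (2 ^ (B * B) * 2 ^ (2 * B + 2)) ^ m :=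
        Nat.pow_le_pow_left (Nat.mul_le_mul_right _ h1) _
    _ = 2 ^ ((B * B + (2 * B + 2)) * m) := by rw [← pow_add, ← pow_mul]
    _ < 2 ^ bH m S := by
        refine Nat.pow_lt_pow_right (by norm_num) ?_
        unfold bH
        rw [← hB]
        nlinarith [Nat.zero_le (m * B)]

end

theorem p_ty1 : S_ty1 := by
  intro hnp m S hm hS
  have hG := ty1_G_2B m S
  exact
    { hm := hm
      hS := hS
      hSB := by
        unfold bB
        exact Nat.le_mul_of_pos_left _ (by positivity)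
      sym := ty1_sym
      gcd_a := fun i j h => ty1_gcd hnp h
      one_lt := fun i => by
        have h1 := ty1_a_gt (S := S) hnp i
        have h2 : 1 ≤ tyA m S := ty1_pow_pos m S _
        omega
      big := fun i p hp hd => ty1_big hnp i p hp hd
      comp := fun i j => by
        have h1 := ty1_a_le (S := S) hnp i
        have h2 := ty1_a_gt (S := S) hnp j
        calc tya m S i * S ≤ 2 ^ (m + 2) * tyA m S * S := Nat.mul_le_mul_right _ h1
          _ = 2 ^ (m + 2) * S * tyA m S := by ring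
          _ ≤ bB m S * tya m S j := Nat.mul_le_mul_left _ h2.le
      small := fun i j h => by
        have h1 := ty1_a_gt (S := S) hnp i
        have h2 := ty1_le (S := S) hnp h
        have h3 : tyG m S ^ (m ^ 2 + 1) ≤ tyA m S := ty1_pow_mono m S (by
          have := Nat.zero_le (m ^ 3)
          omega)
        have h4 : bB m S * tyPi m S i j ≤ tyG m S ^ (m ^ 2 + 1) := by
          rw [pow_succ]
          calc bB m S * tyPi m S i j ≤ bB m S * (2 * tyG m S ^ (m ^ 2)) :=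
                Nat.mul_le_mul_left _ h2
            _ = tyG m S ^ (m ^ 2) * (2 * bB m S) := by ring
            _ ≤ _ := Nat.mul_le_mul_left _ (by omega)
        omega
      sep := fun d hd hne => ty1_sep hnp d hd hne
      top := fun k => ty1_top hnp k
      bits := ty1_bits m S }

end Pool.Agent.Lib.MP_4b91fc_lc.GH
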