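import Pool.Agent.Lib.MP_4b91fc_lc.GH.Stm2
import Pool.Agent.Lib.MP_b4f117_lc.Arith

set_option autoImplicit false

/-!
# [ty2] the type numbers in polynomial time
-/

namespace Pool.Agent.Lib.MP_4b91fc_lc.GH

open Finset Pool.Agent.PolyTime

theorem ty2_prod {α : Type} [SCode α] : ∀ (n : ℕ) (f : α → Fin n → ℕ),
    (∀ i, PTime (fun a => f a i)) → PTime (fun a => ∏ i, f a i) := by
  intro n
  induction n with
  | zero =>
    intro f _
    exact (PTime.const (1 : ℕ)).of_eq fun a => by simp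
  | succ n ih =>
    intro f hf
    exact (PTime.mul (hf 0) (ih (fun a i => f a i.succ) (fun i => hf i.succ))).of_eq fun a => by
      rw [Fin.prod_univ_succ]

theorem ty2_G_pos (m S : ℕ) : 0 < tyG m S := by
  unfold tyG
  positivity

theorem ty2_pi_pos (hnp : S_np) (m S : ℕ) (i j : Fin m) : 0 < tyPi m S i j := by
  have key : ∀ e : ℕ, 0 < np 1 (tyG m S ^ e) [] := fun e =>
    (hnp.1 1 (tyG m S ^ e) [] (Nat.pow_pos (ty2_G_pos m S)) (by simp)).1.pos
  unfold tyPi
  split_ifs
  · exact key _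
  · exact key _
  · exact Nat.one_pos

theorem ty2_P_pos (hnp : S_np) (m S : ℕ) (i : Fin m) : 0 < tyP m S i := by
  unfold tyP
  refine Finset.prod_pos fun j _ => ?_
  split_ifs
  · exact Nat.one_pos
  · exact ty2_pi_pos hnp m S i j

theorem ty2_bB {α : Type} [SCode α] (m : ℕ) (S : α → ℕ) (hS : PTime S) :
    PTime (fun x => bB m (S x)) := by
  unfold bB
  exact PTime.mul (PTime.const _) hS

theorem ty2_bH {α : Type} [SCode α] (m : ℕ) (S : α → ℕ) (hS : PTime S) :
    PTime (fun x => bH m (S x)) := by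
  unfold bH
  exact PTime.mul (PTime.const _)
    (PTime.natPow_const (PTime.add (ty2_bB m S hS) (PTime.const 2)) 2)

theorem ty2_G {α : Type} [SCode α] (m : ℕ) (S : α → ℕ) (hS : PTime S) :
    PTime (fun x => tyG m (S x)) := by
  unfold tyG
  exact PTime.mul (PTime.const _)
    (PTime.natPow_const (PTime.add (ty2_bB m S hS) (PTime.const 2)) 2)

theorem ty2_A {α : Type} [SCode α] (m : ℕ) (S : α → ℕ) (hS : PTime S) :
    PTime (fun x => tyA m (S x)) := by
  unfold tyA
  exact PTime.natPow_const (ty2_G m S hS) _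

theorem ty2_pi {α : Type} [SCode α] (hnp : S_np) (m : ℕ) (S : α → ℕ) (hS : PTime S)
    (i j : Fin m) : PTime (fun x => tyPi m (S x) i j) := by
  have key : ∀ e : ℕ, PTime (fun x => np 1 (tyG m (S x) ^ e) []) := fun e =>
    hnp.2 1 α _ (fun x => tyG m (S x) ^ e) (fun _ => [])
      (PTime.natPow_const (ty2_G m S hS) e) (PTime.const _)
  unfold tyPi
  by_cases h1 : i < j
  · simp only [h1, if_true]
    exact key _
  · by_cases h2 : j < i
    · simp only [h1, h2, if_true, if_false]
      exact key _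
    · simp only [h1, h2, if_false]
      exact PTime.const _

theorem ty2_P {α : Type} [SCode α] (hnp : S_np) (m : ℕ) (S : α → ℕ) (hS : PTime S)
    (i : Fin m) : PTime (fun x => tyP m (S x) i) := by
  unfold tyP
  refine ty2_prod m (fun x j => if j = i then 1 else tyPi m (S x) i j) fun j => ?_
  by_cases h : j = i
  · simp only [h, if_true]
    exact PTime.const _
  · simp only [h, if_false]
    exact ty2_pi hnp m S hS i j

theorem ty2_Rho {α : Type} [SCode α] (hnp : S_np) (m : ℕ) (S : α → ℕ) (hS : PTime S) :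
    ∀ t : ℕ, PTime (fun x => tyRho m (S x) t) := by
  intro t
  induction t with
  | zero => exact PTime.const _
  | succ t ih =>
    have hdiv : PTime (fun x =>
        tyA m (S x) / (if h : t < m then tyP m (S x) ⟨t, h⟩ else 1)) := by
      refine Pool.Agent.Lib.MP_b4f117_lc.ptime_div (ty2_A m S hS) ?_ ?_
      · by_cases h : t < m
        · simp only [h, dif_pos]
          exact ty2_P hnp m S hS ⟨t, h⟩
        · simp only [h, dif_neg, not_false_eq_true]
          exact PTime.const _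
      · intro x
        by_cases h : t < m
        · simp only [h, dif_pos]
          exact ty2_P_pos hnp m (S x) ⟨t, h⟩
        · simp only [h, dif_neg, not_false_eq_true]
          exact Nat.one_pos
    exact PTime.cons (hnp.2 (m + 1) α _ _ _ (PTime.succ hdiv) ih) ih

theorem ty2_a {α : Type} [SCode α] (hnp : S_np) (m : ℕ) (S : α → ℕ) (hS : PTime S)
    (i : Fin m) : PTime (fun x => tya m (S x) i) := by
  unfold tya
  exact PTime.mul (ty2_P hnp m S hS i) (PTime.headD (ty2_Rho hnp m S hS (i + 1)) (PTime.const 1))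

theorem ty2_bd (f : ℕ → ℕ) (hf : PTime f) : ∃ Q : Polynomial ℕ, ∀ S, f S ≤ Q.eval S := by
  obtain ⟨P, hP⟩ := PTime.sz_le hf
  refine ⟨P.comp (2 * Polynomial.X + 1), fun S => ?_⟩
  have h := hP S
  rw [sz_nat, sz_nat] at h
  rw [Polynomial.eval_comp]
  have e : Polynomial.eval S (2 * Polynomial.X + 1 : Polynomial ℕ) = 2 * S + 1 := by
    simp
  rw [e]
  omega

theorem p_ty2 : S_ty2 := by
  intro hnp m
  refine ⟨fun α _ S hS => ⟨ty2_bB m S hS, ty2_bH m S hS, fun i => ty2_a hnp m S hS i,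
    fun i j => ty2_pi hnp m S hS i j⟩, ?_⟩
  obtain ⟨Q1, h1⟩ := ty2_bd _ (ty2_bB (α := ℕ) m (fun x => x) PTime.id)
  obtain ⟨Q2, h2⟩ := ty2_bd _ (ty2_bH (α := ℕ) m (fun x => x) PTime.id)
  have h3 : ∀ i : Fin m, ∃ Q : Polynomial ℕ, ∀ S, tya m S i ≤ Q.eval S := fun i =>
    ty2_bd _ (ty2_a (α := ℕ) hnp m (fun x => x) PTime.id i)
  choose Q3 h3 using h3
  refine ⟨Q1 + Q2 + ∑ i, Q3 i, fun S => ?_⟩
  rw [Polynomial.eval_add, Polynomial.eval_add, Polynomial.eval_finsetSum]
  have e1 := h1 S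
  have e2 := h2 S
  refine ⟨by omega, by omega, fun i => ?_⟩
  have e3 := h3 i S
  have e4 : (Q3 i).eval S ≤ ∑ i, (Q3 i).eval S :=
    Finset.single_le_sum (f := fun i => (Q3 i).eval S) (fun _ _ => Nat.zero_le _)
      (Finset.mem_univ i)
  omega

end Pool.Agent.Lib.MP_4b91fc_lc.GH
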