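import Pool.Agent.Lib.MP_4b91fc_lc.GH.Stm5

set_option autoImplicit false

/-!
# MP_4b91fc_lc: piece [GH v0], counting computations step by step
-/

namespace Pool.Agent.Lib.MP_4b91fc_lc.GH

open Finset

/-- the accepting computations from `c` -/
private def v0_A {N : NTM} (c : N.Cfg) : Set (List N.Tr) :=
  {l | ∃ c' : N.Cfg, NTM.Path c l c' ∧ c'.Halted ∧ c'.q ∈ N.acc}

private theorem v0_cnt {N : NTM} (c : N.Cfg) : NTM.cnt c = Nat.card (v0_A c) := rfl

private theorem v0_cons {N : NTM} (c c' : N.Cfg) (τ : N.Tr) (l : List N.Tr) :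
    NTM.Path c (τ :: l) c' ↔ τ ∈ N.δ c.q c.scan ∧ NTM.Path (c.next τ) l c' := by
  constructor
  · intro h
    cases h with
    | cons _ _ _ _ h1 h2 => exact ⟨h1, h2⟩
  · rintro ⟨h1, h2⟩
    exact NTM.Path.cons c c' τ l h1 h2

private theorem v0_nil {N : NTM} (c c' : N.Cfg) : NTM.Path c [] c' ↔ c = c' := by
  constructor
  · intro h
    cases h with
    | nil => rfl
  · rintro rfl
    exact NTM.Path.nil c

private theorem v0_halt {N : NTM} (c : N.Cfg) (h : c.Halted) :
    NTM.cnt c = if c.q ∈ N.acc then 1 else 0 := by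
  have h0 : N.δ c.q c.scan = ∅ := h
  have hA : v0_A c = if c.q ∈ N.acc then {[]} else ∅ := by
    ext l
    cases l with
    | nil =>
      constructor
      · rintro ⟨c', h1, h2, h3⟩
        rw [v0_nil] at h1
        subst h1
        rw [if_pos h3]
        exact Set.mem_singleton _
      · intro hl
        by_cases hq : c.q ∈ N.acc
        · exact ⟨c, NTM.Path.nil c, h, hq⟩
        · rw [if_neg hq] at hl
          exact absurd hl (Set.notMem_empty _)
    | cons τ l =>
      constructor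
      · rintro ⟨c', h1, h2, h3⟩
        rw [v0_cons, h0] at h1
        exact absurd h1.1 (Finset.notMem_empty _)
      · intro hl
        by_cases hq : c.q ∈ N.acc
        · rw [if_pos hq, Set.mem_singleton_iff] at hl
          exact absurd hl (List.cons_ne_nil _ _)
        · rw [if_neg hq] at hl
          exact absurd hl (Set.notMem_empty _)
  rw [v0_cnt, hA]
  by_cases hq : c.q ∈ N.acc
  · rw [if_pos hq, if_pos hq]
    exact Nat.card_unique
  · rw [if_neg hq, if_neg hq]
    exact Nat.card_of_isEmpty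

private theorem v0_fin {N : NTM} (c : N.Cfg) (b : ℕ) (h : NTM.Bd c b) : Finite (v0_A c) := by
  have h1 : {l : List N.Tr | l.length ≤ b}.Finite := List.finite_length_le _ _
  have h2 : v0_A c ⊆ {l : List N.Tr | l.length ≤ b} := by
    rintro l ⟨c', hl, _⟩
    exact h l c' hl
  exact (h1.subset h2).to_subtype

private theorem v0_next {N : NTM} (c : N.Cfg) (b : ℕ) (h : NTM.Bd c b) (τ : N.Tr)
    (hτ : τ ∈ N.δ c.q c.scan) : NTM.Bd (c.next τ) b := by
  intro l c' hl
  have := h (τ :: l) c' ((v0_cons c c' τ l).2 ⟨hτ, hl⟩)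
  rw [List.length_cons] at this
  omega

private def v0_equiv {N : NTM} (c : N.Cfg) (hc : ¬ c.Halted) :
    v0_A c ≃ (Σ τ : N.δ c.q c.scan, v0_A (c.next τ)) where
  toFun := fun x => match x with
    | ⟨[], h⟩ => False.elim (by
        obtain ⟨c', h1, h2, _⟩ := h
        rw [v0_nil] at h1
        subst h1
        exact hc h2)
    | ⟨τ :: l, h⟩ => ⟨⟨τ, by
        obtain ⟨c', h1, _, _⟩ := h
        exact ((v0_cons _ _ _ _).1 h1).1⟩, ⟨l, by
        obtain ⟨c', h1, h2, h3⟩ := h
        exact ⟨c', ((v0_cons _ _ _ _).1 h1).2, h2, h3⟩⟩⟩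
  invFun := fun x => ⟨x.1.1 :: x.2.1, by
    obtain ⟨c', h1, h2, h3⟩ := x.2.2
    exact ⟨c', (v0_cons _ _ _ _).2 ⟨x.1.2, h1⟩, h2, h3⟩⟩
  left_inv := by
    rintro ⟨l, h⟩
    cases l with
    | nil =>
      exfalso
      obtain ⟨c', h1, h2, _⟩ := h
      rw [v0_nil] at h1
      subst h1
      exact hc h2
    | cons τ l => rfl
  right_inv := by
    rintro ⟨⟨τ, hτ⟩, ⟨l, hl⟩⟩
    rfl

theorem p_v0 : S_v0 := by
  refine ⟨fun N c h => v0_halt c h, ?_, ?_, ?_, fun N n => rfl, fun N p => Iff.rfl⟩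
  · intro N c b hb hc
    have hfin : ∀ τ : N.δ c.q c.scan, Finite (v0_A (c.next τ)) :=
      fun τ => v0_fin _ b (v0_next c b hb τ.1 τ.2)
    rw [v0_cnt, Nat.card_congr (v0_equiv c hc), Nat.card_sigma]
    exact Finset.sum_coe_sort (N.δ c.q c.scan) (fun τ => NTM.cnt (c.next τ))
  · intro N c b h l c' hl
    cases l with
    | nil => exact Nat.zero_le _
    | cons τ l =>
      rw [v0_cons] at hl
      rw [List.length_cons]
      exact Nat.succ_le_succ (h τ hl.1 l c' hl.2)
  · intro N c b b' h hb l c' hl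
    exact (h l c' hl).trans hb

end Pool.Agent.Lib.MP_4b91fc_lc.GH
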