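import Pool.Agent.Lib.MP_4b91fc_lc.GH.Stm5

set_option autoImplicit false

/-!
# Piece v1: the machine of a sweeping system
-/

namespace Pool.Agent.Lib.MP_4b91fc_lc.GH

open Finset Turing

open scoped Nat

private theorem v1_step (h0 : S_v0) (N : NTM) (c : N.Cfg) (b : ℕ) (T : Finset N.Tr)
    (hT : N.δ c.q c.scan = T) (hb : ∀ τ ∈ T, NTM.Bd (c.next τ) b) (hq : T = ∅ → c.q ∉ N.acc) :
    NTM.Bd c (b + 1) ∧ NTM.cnt c = ∑ τ ∈ T, NTM.cnt (c.next τ) := by
  obtain ⟨h1, h2, h3, -, -, -⟩ := h0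
  have h4 : NTM.Bd c (b + 1) := h3 N c b (by rw [hT]; exact hb)
  refine ⟨h4, ?_⟩
  by_cases h5 : T = ∅
  · have h6 : c.Halted := by
      unfold NTM.Cfg.Halted
      rw [hT, h5]
    rw [h1 N c h6, if_neg (hq h5), h5, sum_empty]
  · have h6 : ¬ c.Halted := by
      unfold NTM.Cfg.Halted
      rw [hT]
      exact h5
    rw [h2 N c (b + 1) h4 h6, hT]

private theorem v1_tp_nat (W : Sw) (L : List W.A) (k : ℕ) : W.tp L (k : ℤ) = L[k]? := by
  unfold Sw.tp
  rw [if_pos (Int.natCast_nonneg k), Int.toNat_natCast]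

private theorem v1_tp_neg (W : Sw) (L : List W.A) : W.tp L (-1) = none := by
  unfold Sw.tp
  rw [if_neg (by omega)]

private theorem v1_tp_set (W : Sw) (P L : List W.A) (a b : W.A) :
    Function.update (W.tp (P ++ a :: L)) (P.length : ℤ) (some b) = W.tp (P ++ [b] ++ L) := by
  funext x
  by_cases h1 : x = (P.length : ℤ)
  · rw [h1, Function.update_self, v1_tp_nat, List.append_assoc, List.getElem?_append_right le_rfl,
      Nat.sub_self]
    rfl
  · rw [Function.update_of_ne h1]
    by_cases h2 : 0 ≤ x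
    · obtain ⟨k, rfl⟩ := Int.eq_ofNat_of_zero_le h2
      rw [v1_tp_nat, v1_tp_nat, List.append_assoc]
      rcases Nat.lt_or_ge k P.length with h3 | h3
      · rw [List.getElem?_append_left h3, List.getElem?_append_left h3]
      · have h4 : k ≠ P.length := fun h => h1 (by rw [h])
        obtain ⟨m, hm⟩ : ∃ m, k - P.length = m + 1 := ⟨k - P.length - 1, by omega⟩
        rw [List.getElem?_append_right h3, List.getElem?_append_right h3, hm]
        rfl
    · unfold Sw.tp
      rw [if_neg h2, if_neg h2]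

private theorem v1_upd (W : Sw) (L : List W.A) (x : ℤ) (o : Option W.A) (h : W.tp L x = o) :
    Function.update (W.tp L) x o = W.tp L := by
  rw [← h, Function.update_eq_self]

private theorem v1_cfg {W : Sw} (q : MQ W.S) (x y : ℤ) (f g : ℤ → Option W.A) (hx : x = y)
    (hf : f = g) : (⟨q, x, f⟩ : W.ntm.Cfg) = ⟨q, y, g⟩ := by
  subst hx
  subst hf
  rfl

private theorem v1_rt (h0 : S_v0) (W : Sw) (P : List W.A) (B v : ℕ)
    (hI : NTM.Bd (N := W.ntm) ⟨MQ.sw W.s0, 0, W.tp P⟩ B ∧
      NTM.cnt (N := W.ntm) ⟨MQ.sw W.s0, 0, W.tp P⟩ = v) (j : ℕ) (hj : j ≤ P.length) :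
    NTM.Bd (N := W.ntm) ⟨MQ.rt, (j : ℤ) - 1, W.tp P⟩ (B + j + 1) ∧
      NTM.cnt (N := W.ntm) ⟨MQ.rt, (j : ℤ) - 1, W.tp P⟩ = v := by
  induction j with
  | zero =>
    let c : W.ntm.Cfg := ⟨MQ.rt, ((0 : ℕ) : ℤ) - 1, W.tp P⟩
    let τ : W.ntm.Tr := (MQ.sw W.s0, none, Dir.right)
    have hn : c.next τ = (⟨MQ.sw W.s0, 0, W.tp P⟩ : W.ntm.Cfg) := by
      have h1 : Function.update (W.tp P) (((0 : ℕ) : ℤ) - 1) none = W.tp P :=
        v1_upd W P _ _ (v1_tp_neg W P)
      have h2 : ((0 : ℕ) : ℤ) - 1 + Dir.right.val = 0 := rfl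
      exact v1_cfg (W := W) _ _ _ _ _ h2 h1
    have hs : c.scan = (none : Option W.A) := v1_tp_neg W P
    have hT : W.ntm.δ c.q c.scan = {τ} := by
      rw [hs]
      rfl
    obtain ⟨h1, h2⟩ := v1_step h0 W.ntm c B {τ} hT
      (by
        intro σ hσ
        rw [mem_singleton.1 hσ, hn]
        exact hI.1) (fun h => absurd h (singleton_ne_empty τ))
    rw [sum_singleton, hn, hI.2] at h2
    exact ⟨h1, h2⟩
  | succ j ih =>
    obtain ⟨ih1, ih2⟩ := ih (by omega)
    let c : W.ntm.Cfg := ⟨MQ.rt, ((j + 1 : ℕ) : ℤ) - 1, W.tp P⟩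
    have hp : ((j + 1 : ℕ) : ℤ) - 1 = (j : ℤ) := by
      push_cast
      ring
    have hg : W.tp P (((j + 1 : ℕ) : ℤ) - 1) = some P[j] := by
      rw [hp, v1_tp_nat]
      exact List.getElem?_eq_getElem (by omega)
    let τ : W.ntm.Tr := (MQ.rt, some P[j], Dir.left)
    have hn : c.next τ = (⟨MQ.rt, (j : ℤ) - 1, W.tp P⟩ : W.ntm.Cfg) := by
      have h1 : Function.update (W.tp P) (((j + 1 : ℕ) : ℤ) - 1) (some P[j]) = W.tp P :=
        v1_upd W P _ _ hg
      have h2 : ((j + 1 : ℕ) : ℤ) - 1 + Dir.left.val = (j : ℤ) - 1 := by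
        rw [hp]
        rfl
      exact v1_cfg (W := W) _ _ _ _ _ h2 h1
    have hs : c.scan = some P[j] := hg
    have hT : W.ntm.δ c.q c.scan = {τ} := by
      rw [hs]
      rfl
    obtain ⟨h1, h2⟩ := v1_step h0 W.ntm c (B + j + 1) {τ} hT
      (by
        intro σ hσ
        rw [mem_singleton.1 hσ, hn]
        exact ih1) (fun h => absurd h (singleton_ne_empty τ))
    rw [sum_singleton, hn, ih2] at h2
    exact ⟨h1, h2⟩

private theorem v1_end (h0 : S_v0) (W : Sw) (P : List W.A) (B : ℕ) (v : List W.A → ℕ) (s : W.S)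
    (hI : W.fin s = some false → NTM.Bd (N := W.ntm) ⟨MQ.sw W.s0, 0, W.tp P⟩ B ∧
      NTM.cnt (N := W.ntm) ⟨MQ.sw W.s0, 0, W.tp P⟩ = v P) :
    NTM.Bd (N := W.ntm) ⟨MQ.sw s, (P.length : ℤ), W.tp P⟩ (B + P.length + 2) ∧
      NTM.cnt (N := W.ntm) ⟨MQ.sw s, (P.length : ℤ), W.tp P⟩ = W.endv v s P := by
  have hg : W.tp P (P.length : ℤ) = none := by
    rw [v1_tp_nat]
    exact List.getElem?_eq_none le_rfl
  let c : W.ntm.Cfg := ⟨MQ.sw s, (P.length : ℤ), W.tp P⟩
  have hs : c.scan = (none : Option W.A) := hg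
  have hmono := h0.2.2.2.1
  rcases hf : W.fin s with _ | b
  · have hT : W.ntm.δ c.q c.scan = ∅ := by
      rw [hs]
      change (match W.fin s with
        | some true => {(MQ.ac, none, Dir.stay)}
        | some false => {(MQ.rt, none, Dir.left)}
        | none => (∅ : Finset W.ntm.Tr)) = _
      rw [hf]
    obtain ⟨h1, h2⟩ := v1_step h0 W.ntm c (B + P.length + 1) ∅ hT
      (fun τ hτ => absurd hτ (notMem_empty τ)) (fun _ => by
        change MQ.sw s ∉ ({MQ.ac} : Finset (MQ W.S))
        simp)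
    refine ⟨h1, ?_⟩
    rw [sum_empty] at h2
    unfold Sw.endv
    rw [hf]
    exact h2
  · cases b with
    | true =>
      let τ : W.ntm.Tr := (MQ.ac, none, Dir.stay)
      have hT : W.ntm.δ c.q c.scan = {τ} := by
        rw [hs]
        change (match W.fin s with
          | some true => {(MQ.ac, none, Dir.stay)}
          | some false => {(MQ.rt, none, Dir.left)}
          | none => (∅ : Finset W.ntm.Tr)) = _
        rw [hf]
        rfl
      have hh : (c.next τ).Halted := rfl
      have h5 : NTM.Bd (c.next τ) 1 := by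
        refine h0.2.2.1 W.ntm (c.next τ) 0 ?_
        intro σ hσ
        rw [show W.ntm.δ (c.next τ).q (c.next τ).scan = ∅ from hh] at hσ
        exact absurd hσ (notMem_empty σ)
      have h6 : NTM.cnt (c.next τ) = 1 := by
        rw [h0.1 W.ntm (c.next τ) hh]
        exact if_pos (mem_singleton_self _)
      obtain ⟨h1, h2⟩ := v1_step h0 W.ntm c (B + P.length + 1) {τ} hT
        (by
          intro σ hσ
          rw [mem_singleton.1 hσ]
          exact hmono W.ntm _ _ _ h5 (by omega)) (fun h => absurd h (singleton_ne_empty τ))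
      rw [sum_singleton, h6] at h2
      refine ⟨h1, ?_⟩
      unfold Sw.endv
      rw [hf]
      exact h2
    | false =>
      let τ : W.ntm.Tr := (MQ.rt, none, Dir.left)
      have hT : W.ntm.δ c.q c.scan = {τ} := by
        rw [hs]
        change (match W.fin s with
          | some true => {(MQ.ac, none, Dir.stay)}
          | some false => {(MQ.rt, none, Dir.left)}
          | none => (∅ : Finset W.ntm.Tr)) = _
        rw [hf]
        rfl
      have hn : c.next τ = (⟨MQ.rt, (P.length : ℤ) - 1, W.tp P⟩ : W.ntm.Cfg) := by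
        have h1 : Function.update (W.tp P) (P.length : ℤ) none = W.tp P := v1_upd W P _ _ hg
        exact v1_cfg (W := W) _ _ _ _ _ rfl h1
      obtain ⟨h5, h6⟩ := v1_rt h0 W P B (v P) (hI hf) P.length le_rfl
      obtain ⟨h1, h2⟩ := v1_step h0 W.ntm c (B + P.length + 1) {τ} hT
        (by
          intro σ hσ
          rw [mem_singleton.1 hσ, hn]
          exact h5) (fun h => absurd h (singleton_ne_empty τ))
      rw [sum_singleton, hn, h6] at h2
      refine ⟨h1, ?_⟩
      unfold Sw.endv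
      rw [hf]
      exact h2

private theorem v1_sweep (h0 : S_v0) (W : Sw) (wt : W.A → ℕ) (ph : W.S → ℕ)
    (hw : ∀ s a, ∀ x ∈ W.tr s a, wt x.2 + ph x.1 ≤ wt a + ph s)
    (hf : ∀ s, W.fin s = some false → 1 ≤ ph s) (t n B : ℕ) (v : List W.A → ℕ)
    (hI : ∀ P : List W.A, P.length = n → (P.map wt).sum < t →
      NTM.Bd (N := W.ntm) ⟨MQ.sw W.s0, 0, W.tp P⟩ B ∧
      NTM.cnt (N := W.ntm) ⟨MQ.sw W.s0, 0, W.tp P⟩ = v P) (L : List W.A) :
    ∀ (P : List W.A) (s : W.S), P.length + L.length = n →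
      (P.map wt).sum + ph s + (L.map wt).sum ≤ t →
      NTM.Bd (N := W.ntm) ⟨MQ.sw s, (P.length : ℤ), W.tp (P ++ L)⟩ (B + n + 2 + L.length) ∧
        NTM.cnt (N := W.ntm) ⟨MQ.sw s, (P.length : ℤ), W.tp (P ++ L)⟩ =
          W.swp (W.endv v) s P L := by
  induction L with
  | nil =>
    intro P s hn ht
    rw [List.length_nil, add_zero] at hn
    rw [List.map_nil, List.sum_nil, add_zero] at ht
    rw [List.append_nil, List.length_nil, add_zero]
    have h1 := v1_end h0 W P B v s (fun h => hI P hn (by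
      have := hf s h
      omega))
    rw [hn] at h1
    rw [hn]
    exact h1
  | cons a L ih =>
    intro P s hn ht
    rw [List.length_cons] at hn
    rw [List.map_cons, List.sum_cons] at ht
    let c : W.ntm.Cfg := ⟨MQ.sw s, (P.length : ℤ), W.tp (P ++ a :: L)⟩
    have hg : W.tp (P ++ a :: L) (P.length : ℤ) = some a := by
      rw [v1_tp_nat, List.getElem?_append_right le_rfl, Nat.sub_self]
      rfl
    have hs : c.scan = some a := hg
    let T : Finset W.ntm.Tr := (W.tr s a).image (fun x => (MQ.sw x.1, some x.2, Dir.right))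
    have hT : W.ntm.δ c.q c.scan = T := by
      rw [hs]
      rfl
    have hx : ∀ x ∈ W.tr s a,
        NTM.Bd (c.next (MQ.sw x.1, some x.2, Dir.right)) (B + n + 2 + L.length) ∧
        NTM.cnt (c.next (MQ.sw x.1, some x.2, Dir.right)) =
          W.swp (W.endv v) x.1 (P ++ [x.2]) L := by
      intro x hx
      have h1 : c.next (MQ.sw x.1, some x.2, Dir.right) =
          (⟨MQ.sw x.1, ((P ++ [x.2]).length : ℤ), W.tp (P ++ [x.2] ++ L)⟩ : W.ntm.Cfg) := by
        have h2 : (P.length : ℤ) + Dir.right.val = ((P ++ [x.2]).length : ℤ) := by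
          rw [List.length_append, List.length_singleton]
          push_cast
          rfl
        exact v1_cfg (W := W) _ _ _ _ _ h2 (v1_tp_set W P L a x.2)
      rw [h1]
      refine ih (P ++ [x.2]) x.1 ?_ ?_
      · rw [List.length_append, List.length_singleton]
        omega
      · rw [List.map_append, List.sum_append, List.map_singleton, List.sum_singleton]
        have := hw s a x hx
        omega
    obtain ⟨h1, h2⟩ := v1_step h0 W.ntm c (B + n + 2 + L.length) T hT
      (by
        intro τ hτ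
        obtain ⟨x, hxm, rfl⟩ := mem_image.1 hτ
        exact (hx x hxm).1)
      (fun _ => by
        change MQ.sw s ∉ ({MQ.ac} : Finset (MQ W.S))
        simp)
    refine ⟨h1, ?_⟩
    have h3 : ∑ τ ∈ T, NTM.cnt (c.next τ) =
        ∑ x ∈ W.tr s a, NTM.cnt (c.next (MQ.sw x.1, some x.2, Dir.right)) := by
      refine sum_image ?_
      intro x _ y _ hxy
      have h4 := Prod.mk.inj hxy
      have h5 := Prod.mk.inj h4.2
      exact Prod.ext (MQ.sw.inj h4.1) (Option.some.inj h5.1)
    rw [h3, sum_congr rfl (fun x hxm => (hx x hxm).2)] at h2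
    exact h2

/-- Piece v1. -/
theorem p_v1 : S_v1 := by
  intro h0 W wt ph hw hp hf t
  induction t with
  | zero =>
    intro L hL
    exact absurd hL (Nat.not_lt_zero _)
  | succ t ih =>
    intro L hL
    have h1 := v1_sweep h0 W wt ph hw hf t L.length ((2 * L.length + 3) * t) (W.val t)
      (fun P hP hPt => by
        have h2 := ih P hPt
        rw [hP] at h2
        exact h2) L [] W.s0 (by rw [List.length_nil, zero_add])
      (by rw [List.map_nil, List.sum_nil, hp]; omega)
    obtain ⟨h2, h3⟩ := h1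
    refine ⟨h0.2.2.2.1 W.ntm _ _ _ h2 ?_, h3⟩
    ring_nf
    omega

end Pool.Agent.Lib.MP_4b91fc_lc.GH
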