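import Pool.Agent.Lib.MP_4b91fc_lc.GH.Stm5

/-!
# Exact counting of unlabelled graphs: piece v2m, a sweep which starts inside a block
-/

set_option autoImplicit false

namespace Pool.Agent.Lib.MP_4b91fc_lc.GH

open Finset

open scoped Nat

/-- the number of choices of the marked cell -/
private def v2m_cf (ch : Bool) (m : ℕ) : ℕ := if ch then 1 else m

/-- the written bits -/
private def v2m_sh : Bool → List Bool → List Bool
  | _, [] => []
  | c, y :: ys => c :: v2m_sh y ys

/-- the last bit -/
private def v2m_ls : Bool → List Bool → Bool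
  | c, [] => c
  | _, y :: ys => v2m_ls y ys

private theorem v2m_cons : ∀ (ys : List Bool) (c : Bool), c :: ys = v2m_sh c ys ++ [v2m_ls c ys]
  | [], c => rfl
  | y :: ys, c => by
    rw [v2m_sh, v2m_ls, List.cons_append, ← v2m_cons ys y]

private theorem v2m_rot1 (c : Bool) (ys : List Bool) :
    rot1 (c :: ys) = v2m_ls c ys :: v2m_sh c ys := by
  rw [v2m_cons ys c, rot1]
  have h : (v2m_sh c ys ++ [v2m_ls c ys]).length - 1 = (v2m_sh c ys).length := by
    rw [List.length_append, List.length_singleton]
    omega
  rw [h, List.rotate_append_length_eq]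
  rfl

private theorem v2m_sum_chs (ch : Bool) (m : ℕ) (a : ℕ) :
    ∑ ch' ∈ chs ch, v2m_cf ch' m * a = v2m_cf ch (m + 1) * a := by
  cases ch
  · have h : chs false = {true, false} := rfl
    rw [h, sum_pair (by decide)]
    simp only [v2m_cf]
    simp
    ring
  · have h : chs true = {true} := rfl
    rw [h, sum_singleton]
    simp [v2m_cf]

private theorem v2m_sum_image (ch : Bool) (h : Bool → LS × LA) (hh : h true ≠ h false)
    (F : LS × LA → ℕ) : ∑ z ∈ (chs ch).image h, F z = ∑ ch' ∈ chs ch, F (h ch') := by
  apply sum_image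
  intro a _ b _ hab
  cases a <;> cases b
  · rfl
  · exact absurd hab.symm hh
  · exact absurd hab hh
  · rfl

private theorem v2m_sum_rotC (la ch c g x y : Bool) (F : LS × LA → ℕ) :
    ∑ z ∈ rotC false la ch c g x y, F z =
      if (la = true → c = x) then ∑ ch' ∈ chs ch, F (.rot false la ch' y g, .lt false x c)
      else 0 := by
  have h : rotC false la ch c g x y = if (la = true → c = x) then
      (chs ch).image (fun ch' => (LS.rot false la ch' y g, LA.lt false x c)) else ∅ := by
    revert la ch c g x y
    decide
  rw [h]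
  split_ifs with h1
  · rw [v2m_sum_image]
    simp
  · rfl

private theorem v2m_sum_rotS (la ch x y : Bool) (F : LS × LA → ℕ) :
    ∑ z ∈ rotS false la ch x y, F z =
      ∑ g : Bool, if (la = true → g = x) then
        ∑ ch' ∈ chs ch, F (.rot false la ch' y g, .lt true x g) else 0 := by
  rw [rotS, sum_image, sum_filter, sum_product]
  · have h : xns false x = {x} := rfl
    rw [h, sum_singleton, sum_product]
    refine sum_congr rfl fun g _ => ?_
    by_cases h1 : la = true → g = x
    · rw [if_pos h1]
      refine sum_congr rfl fun ch' _ => ?_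
      exact if_pos h1
    · rw [if_neg h1]
      refine sum_eq_zero fun ch' _ => ?_
      exact if_neg h1
  · intro a _ b _ hab
    simp only [Prod.mk.injEq, LS.rot.injEq, LA.lt.injEq] at hab
    obtain ⟨⟨-, -, h1, -, h2⟩, -, h3, -⟩ := hab
    exact Prod.ext h3 (Prod.ext h2 h1)

/-- the statement for the states `rot` -/
private def v2m_A1 (v : List LA → ℕ) (D : List (List (Bool × Bool))) (la g : Bool)
    (C : List (Bool × Bool)) : Prop :=
  ∀ (ch c : Bool) (P : List LA),
    GW.swp (GW.endv v) (.rot false la ch c g) P (C.map ltf ++ tpe D) =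
      v2m_cf ch (C.length + (D.map List.length).sum) *
        if v2m_ls c (C.map Prod.snd) = g ∧ (la = true → v2m_sh c (C.map Prod.snd) = C.map Prod.fst ∧
          ∀ B ∈ D, rot1 (B.map Prod.snd) = B.map Prod.fst) then
          v (P ++ (((C.map Prod.fst).zip (v2m_sh c (C.map Prod.snd))).map ltf ++ tpe (D.map stp)))
        else 0

private theorem v2m_B (v : List LA → ℕ) (D : List (List (Bool × Bool))) (hA : ∀ la g C, v2m_A1 v D la g C)
    (la ch : Bool) (p : Bool × Bool) (B : List (Bool × Bool)) (P : List LA) :
    ∑ z ∈ rotS false la ch p.1 p.2, GW.swp (GW.endv v) z.1 (P ++ [z.2]) (B.map ltf ++ tpe D) =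
      v2m_cf ch ((((p :: B) :: D).map List.length).sum) *
        if (la = true → ∀ B' ∈ (p :: B) :: D, rot1 (B'.map Prod.snd) = B'.map Prod.fst) then
          v (P ++ tpe (((p :: B) :: D).map stp))
        else 0 := by
  rw [v2m_sum_rotS]
  rw [sum_eq_single (v2m_ls p.2 (B.map Prod.snd))]
  · have hlen : ((((p :: B) :: D).map List.length).sum) = B.length + (D.map List.length).sum + 1 := by
      simp only [List.map_cons, List.sum_cons, List.length_cons]
      ring
    have htp : tpe (((p :: B) :: D).map stp) = LA.lt true p.1 (v2m_ls p.2 (B.map Prod.snd)) ::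
        ((((B.map Prod.fst).zip (v2m_sh p.2 (B.map Prod.snd))).map ltf) ++ tpe (D.map stp)) := by
      simp only [List.map_cons, tpe, List.flatMap_cons, stp, v2m_rot1, List.zip_cons_cons, bk,
        List.cons_append]
    rw [hlen, htp]
    by_cases h1 : la = true → v2m_ls p.2 (B.map Prod.snd) = p.1
    · rw [if_pos h1]
      have h2 : ∀ ch' ∈ chs ch, GW.swp (GW.endv v)
          (LS.rot false la ch' p.2 (v2m_ls p.2 (B.map Prod.snd)),
            LA.lt true p.1 (v2m_ls p.2 (B.map Prod.snd))).1
          (P ++ [(LS.rot false la ch' p.2 (v2m_ls p.2 (B.map Prod.snd)),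
            LA.lt true p.1 (v2m_ls p.2 (B.map Prod.snd))).2]) (B.map ltf ++ tpe D) =
          v2m_cf ch' (B.length + (D.map List.length).sum) *
            if (la = true → ∀ B' ∈ (p :: B) :: D, rot1 (B'.map Prod.snd) = B'.map Prod.fst) then
              v (P ++ LA.lt true p.1 (v2m_ls p.2 (B.map Prod.snd)) ::
        ((((B.map Prod.fst).zip (v2m_sh p.2 (B.map Prod.snd))).map ltf) ++ tpe (D.map stp)))
            else 0 := by
        intro ch' _
        dsimp only
        rw [hA la _ B ch' p.2 _]
        congr 1
        rw [List.append_assoc, List.singleton_append]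
        apply if_congr _ rfl rfl
        rw [List.forall_mem_cons]
        simp only [List.map_cons, v2m_rot1, List.cons.injEq, true_and]
        constructor
        · intro h3 h4
          exact ⟨⟨h1 h4, (h3 h4).1⟩, (h3 h4).2⟩
        · intro h3 h4
          exact ⟨(h3 h4).1.2, (h3 h4).2⟩
      rw [sum_congr rfl h2, v2m_sum_chs]
    · rw [if_neg h1, if_neg, mul_zero]
      intro h3
      apply h1
      intro h4
      have h5 := (List.forall_mem_cons.1 (h3 h4)).1
      simp only [List.map_cons, v2m_rot1, List.cons.injEq] at h5
      exact h5.1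
  · intro g _ hg
    split_ifs with h1
    · apply sum_eq_zero
      intro ch' _
      dsimp only
      rw [hA la g B ch' p.2 _, if_neg, mul_zero]
      intro h2
      exact hg h2.1.symm
    · rfl
  · intro h
    exact absurd (mem_univ _) h

private theorem v2m_C (v : List LA → ℕ) (D : List (List (Bool × Bool))) (la g : Bool)
    (p : Bool × Bool) (C : List (Bool × Bool)) (ih : v2m_A1 v D la g C) :
    v2m_A1 v D la g (p :: C) := by
  intro ch c P
  have hstep : GW.swp (GW.endv v) (.rot false la ch c g) P ((p :: C).map ltf ++ tpe D) =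
      ∑ z ∈ rotC false la ch c g p.1 p.2,
        GW.swp (GW.endv v) z.1 (P ++ [z.2]) (C.map ltf ++ tpe D) := rfl
  have hls : v2m_ls c ((p :: C).map Prod.snd) = v2m_ls p.2 (C.map Prod.snd) := rfl
  have hsh : v2m_sh c ((p :: C).map Prod.snd) = c :: v2m_sh p.2 (C.map Prod.snd) := rfl
  have hlen : (p :: C).length + (D.map List.length).sum = C.length + (D.map List.length).sum + 1 := by
    rw [List.length_cons]
    ring
  rw [hstep, v2m_sum_rotC, hls, hsh, hlen]
  by_cases h1 : la = true → c = p.1
  · rw [if_pos h1]
    have h2 : ∀ ch' ∈ chs ch, GW.swp (GW.endv v)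
        (LS.rot false la ch' p.2 g, LA.lt false p.1 c).1
        (P ++ [(LS.rot false la ch' p.2 g, LA.lt false p.1 c).2]) (C.map ltf ++ tpe D) =
        v2m_cf ch' (C.length + (D.map List.length).sum) *
          if v2m_ls p.2 (C.map Prod.snd) = g ∧ (la = true →
            c :: v2m_sh p.2 (C.map Prod.snd) = (p :: C).map Prod.fst ∧
            ∀ B ∈ D, rot1 (B.map Prod.snd) = B.map Prod.fst) then
            v (P ++ ((((p :: C).map Prod.fst).zip (c :: v2m_sh p.2 (C.map Prod.snd))).map ltf ++
              tpe (D.map stp)))
          else 0 := by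
      intro ch' _
      dsimp only
      rw [ih ch' p.2 _]
      congr 1
      rw [List.append_assoc, List.singleton_append, List.map_cons, List.zip_cons_cons,
        List.map_cons, List.cons_append]
      apply if_congr _ rfl rfl
      rw [List.cons.injEq]
      constructor
      · intro h3
        exact ⟨h3.1, fun h4 => ⟨⟨h1 h4, (h3.2 h4).1⟩, (h3.2 h4).2⟩⟩
      · intro h3
        exact ⟨h3.1, fun h4 => ⟨(h3.2 h4).1.2, (h3.2 h4).2⟩⟩
    rw [sum_congr rfl h2, v2m_sum_chs]
  · rw [if_neg h1, if_neg, mul_zero]
    intro h3
    apply h1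
    intro h4
    have h5 := (h3.2 h4).1
    rw [List.map_cons, List.cons.injEq] at h5
    exact h5.1

private theorem v2m_allA (v : List LA → ℕ) : ∀ D : List (List (Bool × Bool)),
    (∀ B ∈ D, B ≠ []) → ∀ la g C, v2m_A1 v D la g C := by
  intro D
  induction D with
  | nil =>
    intro _ la g C
    induction C with
    | nil =>
      intro ch c P
      have h : GW.swp (GW.endv v) (.rot false la ch c g) P
          (([] : List (Bool × Bool)).map ltf ++ tpe []) = if ch = true ∧ c = g then v P else 0 := by
        cases ch <;> cases c <;> cases g <;> rfl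
      rw [h]
      cases ch
      · simp [v2m_cf]
      · simp [v2m_cf, v2m_ls, v2m_sh, tpe]
    | cons p C ih => exact v2m_C v [] la g p C ih
  | cons B D ihD =>
    intro hD la g C
    induction C with
    | nil =>
      intro ch c P
      obtain ⟨p, B', rfl⟩ : ∃ p B', B = p :: B' := by
        cases B with
        | nil => exact absurd rfl (hD [] (by simp))
        | cons p B' => exact ⟨p, B', rfl⟩
      have hstep : GW.swp (GW.endv v) (.rot false la ch c g) P
          (([] : List (Bool × Bool)).map ltf ++ tpe ((p :: B') :: D)) =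
          ∑ z ∈ (if c = g then rotS false la ch p.1 p.2 else ∅),
            GW.swp (GW.endv v) z.1 (P ++ [z.2]) (B'.map ltf ++ tpe D) := rfl
      rw [hstep]
      by_cases hcg : c = g
      · rw [if_pos hcg, v2m_B v D (ihD fun B hB => hD B (List.mem_cons_of_mem _ hB)) la ch p B' P]
        rw [List.length_nil, Nat.zero_add]
        congr 1
        apply if_congr _ _ rfl
        · constructor
          · intro h1
            exact ⟨hcg, fun h2 => ⟨rfl, h1 h2⟩⟩
          · intro h1 h2
            exact (h1.2 h2).2
        · rfl
      · rw [if_neg hcg, sum_empty, if_neg, mul_zero]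
        intro h1
        exact hcg h1.1
    | cons p C ih => exact v2m_C v (B :: D) la g p C ih

/-- the states `own` -/
private theorem v2m_own (v : List LA → ℕ) (D : List (List (Bool × Bool)))
    (hD : ∀ B ∈ D, B ≠ []) : ∀ (O : List (Bool × Bool)) (ch : Bool) (P : List LA),
    GW.swp (GW.endv v) (.own false ch) P (O.map ltf ++ tpe D) =
      v2m_cf ch (O.length + (D.map List.length).sum) *
        v (P ++ (O.map ltf ++ tpe (D.map stp))) := by
  intro O
  induction O with
  | nil =>
    intro ch P
    cases D with
    | nil =>
      cases ch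
      · have h : GW.swp (GW.endv v) (.own false false) P
            (([] : List (Bool × Bool)).map ltf ++ tpe []) = 0 := rfl
        rw [h]
        simp [v2m_cf]
      · have h : GW.swp (GW.endv v) (.own false true) P
            (([] : List (Bool × Bool)).map ltf ++ tpe []) = v P := rfl
        rw [h]
        simp [v2m_cf, tpe]
    | cons B D =>
      obtain ⟨p, B', rfl⟩ : ∃ p B', B = p :: B' := by
        cases B with
        | nil => exact absurd rfl (hD [] (by simp))
        | cons p B' => exact ⟨p, B', rfl⟩
      have hstep : GW.swp (GW.endv v) (.own false ch) P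
          (([] : List (Bool × Bool)).map ltf ++ tpe ((p :: B') :: D)) =
          ∑ z ∈ rotS false false ch p.1 p.2,
            GW.swp (GW.endv v) z.1 (P ++ [z.2]) (B'.map ltf ++ tpe D) := rfl
      rw [hstep, v2m_B v D (v2m_allA v D fun B hB => hD B (List.mem_cons_of_mem _ hB)) false ch p
        B' P]
      rw [List.length_nil, Nat.zero_add, if_pos (fun h => absurd h (by decide))]
      rfl
  | cons o O ih =>
    intro ch P
    have hstep : GW.swp (GW.endv v) (.own false ch) P ((o :: O).map ltf ++ tpe D) =
        ∑ z ∈ (chs ch).image (fun ch' => (LS.own false ch', LA.lt false o.1 o.2)),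
          GW.swp (GW.endv v) z.1 (P ++ [z.2]) (O.map ltf ++ tpe D) := rfl
    rw [hstep, v2m_sum_image _ _ (by simp)]
    have h2 : ∀ ch' ∈ chs ch, GW.swp (GW.endv v) (LS.own false ch', LA.lt false o.1 o.2).1
        (P ++ [(LS.own false ch', LA.lt false o.1 o.2).2]) (O.map ltf ++ tpe D) =
        v2m_cf ch' (O.length + (D.map List.length).sum) *
          v (P ++ ((o :: O).map ltf ++ tpe (D.map stp))) := by
      intro ch' _
      dsimp only
      rw [ih ch' _, List.append_assoc, List.singleton_append, List.map_cons, List.cons_append]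
      rfl
    rw [sum_congr rfl h2, v2m_sum_chs]
    congr 2
    rw [List.length_cons]
    ring

/-- the states `fst` -/
private theorem v2m_fst (v : List LA → ℕ) (D : List (List (Bool × Bool)))
    (hD : ∀ B ∈ D, B ≠ []) (O : List (Bool × Bool)) (ch : Bool) (P : List LA) :
    GW.swp (GW.endv v) (.fst false ch) P (O.map ltf ++ tpe D) =
      v2m_cf ch (O.length + (D.map List.length).sum) *
        if O = [] → ∀ B ∈ D, rot1 (B.map Prod.snd) = B.map Prod.fst then
          v (P ++ (O.map ltf ++ tpe (D.map stp)))
        else 0 := by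
  cases O with
  | nil =>
    cases D with
    | nil =>
      cases ch
      · have h : GW.swp (GW.endv v) (.fst false false) P
            (([] : List (Bool × Bool)).map ltf ++ tpe []) = 0 := rfl
        rw [h]
        simp [v2m_cf]
      · have h : GW.swp (GW.endv v) (.fst false true) P
            (([] : List (Bool × Bool)).map ltf ++ tpe []) = v P := rfl
        rw [h]
        simp [v2m_cf, tpe]
    | cons B D =>
      obtain ⟨p, B', rfl⟩ : ∃ p B', B = p :: B' := by
        cases B with
        | nil => exact absurd rfl (hD [] (by simp))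
        | cons p B' => exact ⟨p, B', rfl⟩
      have hstep : GW.swp (GW.endv v) (.fst false ch) P
          (([] : List (Bool × Bool)).map ltf ++ tpe ((p :: B') :: D)) =
          ∑ z ∈ rotS false true ch p.1 p.2,
            GW.swp (GW.endv v) z.1 (P ++ [z.2]) (B'.map ltf ++ tpe D) := rfl
      rw [hstep, v2m_B v D (v2m_allA v D fun B hB => hD B (List.mem_cons_of_mem _ hB)) true ch p
        B' P]
      rw [List.length_nil, Nat.zero_add]
      congr 1
      apply if_congr _ _ rfl
      · constructor
        · intro h1 _
          exact h1 rfl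
        · intro h1 _
          exact h1 rfl
      · rfl
  | cons o O =>
    have hstep : GW.swp (GW.endv v) (.fst false ch) P ((o :: O).map ltf ++ tpe D) =
        ∑ z ∈ (chs ch).image (fun ch' => (LS.own false ch', LA.lt false o.1 o.2)),
          GW.swp (GW.endv v) z.1 (P ++ [z.2]) (O.map ltf ++ tpe D) := rfl
    rw [hstep, v2m_sum_image _ _ (by simp), if_pos (fun h => absurd h (by simp))]
    have h2 : ∀ ch' ∈ chs ch, GW.swp (GW.endv v) (LS.own false ch', LA.lt false o.1 o.2).1
        (P ++ [(LS.own false ch', LA.lt false o.1 o.2).2]) (O.map ltf ++ tpe D) =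
        v2m_cf ch' (O.length + (D.map List.length).sum) *
          v (P ++ ((o :: O).map ltf ++ tpe (D.map stp))) := by
      intro ch' _
      dsimp only
      rw [v2m_own v D hD O ch' _, List.append_assoc, List.singleton_append, List.map_cons,
        List.cons_append]
      rfl
    rw [sum_congr rfl h2, v2m_sum_chs]
    congr 2
    rw [List.length_cons]
    ring

private theorem v2m_dn (f : LS → List LA → ℕ) (L : List LA) : ∀ (i : ℕ) (P : List LA),
    GW.swp f .s0 P (List.replicate i .dn ++ L) = GW.swp f .s0 (P ++ List.replicate i .dn) L := by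
  intro i
  induction i with
  | zero =>
    intro P
    simp
  | succ i ih =>
    intro P
    have hstep : GW.swp f .s0 P (List.replicate (i + 1) .dn ++ L) =
        ∑ z ∈ ({(.s0, .dn)} : Finset (LS × LA)),
          GW.swp f z.1 (P ++ [z.2]) (List.replicate i .dn ++ L) := rfl
    rw [hstep, sum_singleton]
    dsimp only
    rw [ih, List.append_assoc, List.singleton_append, List.replicate_succ]

/-- [v2m] A sweep which starts inside a block. -/
theorem p_v2m : S_v2m := by
  intro v i x y O D hD
  rw [v2m_dn, List.nil_append]
  have hstep : GW.swp (GW.endv v) .s0 (List.replicate i .dn)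
      (.lt false x y :: (O.map ltf ++ tpe D)) =
      ∑ z ∈ (chs false).image (fun ch => (LS.fst false ch, LA.dn)),
        GW.swp (GW.endv v) z.1 (List.replicate i .dn ++ [z.2]) (O.map ltf ++ tpe D) := rfl
  rw [hstep, v2m_sum_image _ _ (by simp)]
  have h2 : ∀ ch' ∈ chs false, GW.swp (GW.endv v) (LS.fst false ch', LA.dn).1
      (List.replicate i .dn ++ [(LS.fst false ch', LA.dn).2]) (O.map ltf ++ tpe D) =
      v2m_cf ch' (O.length + (D.map List.length).sum) *
        if O = [] → ∀ B ∈ D, rot1 (B.map Prod.snd) = B.map Prod.fst then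
          v (List.replicate (i + 1) .dn ++ (O.map ltf ++ tpe (D.map stp)))
        else 0 := by
    intro ch' _
    dsimp only
    rw [v2m_fst v D hD O ch' _, ← List.replicate_succ']
  rw [sum_congr rfl h2, v2m_sum_chs]
  congr 1
  simp only [v2m_cf]
  simp
  ring

end Pool.Agent.Lib.MP_4b91fc_lc.GH
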