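import Pool.Agent.Lib.MP_4b91fc_lc.GH.Stm5

set_option autoImplicit false

/-!
# `#GRAPHS` is complete for `#P_1`: piece `v3`, the value of a tape of blocks
-/

namespace Pool.Agent.Lib.MP_4b91fc_lc.GH

open Finset Turing

private theorem v3_dn (f : LS → List LA → ℕ) (i : ℕ) : ∀ P : List LA,
    GW.swp f .s0 P (List.replicate i .dn) = f .s0 (P ++ List.replicate i .dn) := by
  induction i with
  | zero =>
    intro P
    simp [Sw.swp]
  | succ i ih =>
    intro P
    rw [List.replicate_succ]
    show ∑ x ∈ trG .s0 .dn, GW.swp f x.1 (P ++ [x.2]) (List.replicate i .dn) = _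
    rw [show trG .s0 .dn = {(LS.s0, LA.dn)} from rfl, Finset.sum_singleton]
    show GW.swp f .s0 (P ++ [LA.dn]) (List.replicate i .dn) = _
    rw [ih, List.append_assoc]
    rfl

private theorem v3_sumX_congr : ∀ (l : List ℕ) (h h' : List (List Bool) → ℕ),
    (∀ Z : List (List Bool), Z.map List.length = l → h Z = h' Z) → sumX l h = sumX l h'
  | [], h, h', hh => hh [] rfl
  | b :: bs, h, h', hh => by
    show ∑ w : Fin b → Bool, sumX bs (fun Z => h (List.ofFn w :: Z)) =
      ∑ w : Fin b → Bool, sumX bs (fun Z => h' (List.ofFn w :: Z))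
    refine Finset.sum_congr rfl fun w _ => ?_
    refine v3_sumX_congr bs _ _ fun Z hZ => ?_
    exact hh _ (by simp [hZ])

private theorem v3_sumX_mul : ∀ (l : List ℕ) (c : ℕ) (h : List (List Bool) → ℕ),
    sumX l (fun Z => c * h Z) = c * sumX l h
  | [], c, h => rfl
  | b :: bs, c, h => by
    show ∑ w : Fin b → Bool, sumX bs (fun Z => c * h (List.ofFn w :: Z)) =
      c * ∑ w : Fin b → Bool, sumX bs (fun Z => h (List.ofFn w :: Z))
    rw [Finset.mul_sum]
    refine Finset.sum_congr rfl fun w _ => ?_
    exact v3_sumX_mul bs c (fun Z => h (List.ofFn w :: Z))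

private theorem v3_len_rot1 {α : Type} (Y : List α) : (rot1 Y).length = Y.length := by
  unfold rot1
  exact List.length_rotate ..

private theorem v3_zip_fst {α : Type} (w : List α) : (w.zip (rot1 w)).map Prod.fst = w :=
  List.map_fst_zip (le_of_eq (v3_len_rot1 w).symm)

private theorem v3_zip_snd {α : Type} (w : List α) : (w.zip (rot1 w)).map Prod.snd = rot1 w :=
  List.map_snd_zip (le_of_eq (v3_len_rot1 w))

private theorem v3_zip_len {α : Type} (w : List α) : (w.zip (rot1 w)).length = w.length := by
  rw [List.length_zip, v3_len_rot1, min_self]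

private theorem v3_stp_fst (B : List (Bool × Bool)) :
    (stp B).map Prod.fst = B.map Prod.fst := by
  unfold stp
  refine List.map_fst_zip (le_of_eq ?_)
  rw [v3_len_rot1, List.length_map, List.length_map]

private theorem v3_stp_snd (B : List (Bool × Bool)) :
    (stp B).map Prod.snd = rot1 (B.map Prod.snd) := by
  unfold stp
  refine List.map_snd_zip (le_of_eq ?_)
  rw [v3_len_rot1, List.length_map, List.length_map]

private theorem v3_stp_len (B : List (Bool × Bool)) : (stp B).length = B.length := by
  unfold stp
  rw [List.length_zip, v3_len_rot1, List.length_map, List.length_map, min_self]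

private theorem v3_ne {μ : List ℕ} (hμ : ∀ b ∈ μ, 0 < b) {D : List (List (Bool × Bool))}
    (hD : D.map List.length = μ) : ∀ B ∈ D, B ≠ [] := by
  intro B hB h0
  have h1 := hμ B.length (hD ▸ List.mem_map_of_mem hB)
  rw [h0] at h1
  exact Nat.lt_irrefl _ h1

private theorem v3_mid (h2m : S_v2m) (μ : List ℕ) (hμ : ∀ b ∈ μ, 0 < b)
    (IH : ∀ (D : List (List (Bool × Bool))) (i t : ℕ), D.map List.length = μ → μ.sum < t →
      GW.val t (List.replicate i .dn ++ tpe D) = gv μ) :
    ∀ (O : List (Bool × Bool)) (D : List (List (Bool × Bool))) (i t : ℕ), O ≠ [] →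
      D.map List.length = μ → O.length + μ.sum < t →
      GW.val t (List.replicate i .dn ++ (O.map ltf ++ tpe D)) =
        (∏ j ∈ range O.length, (μ.sum + j + 1)) *
          (if ∀ B ∈ D, rot1^[O.length] (B.map Prod.snd) = B.map Prod.fst then gv μ else 0) := by
  intro O
  induction O with
  | nil =>
    intro D i t h
    exact absurd rfl h
  | cons p O' ih =>
    intro D i t _ hD ht
    obtain ⟨t', rfl⟩ : ∃ t', t = t' + 1 := ⟨t - 1, by omega⟩
    have hne := v3_ne hμ hD
    have h1 := h2m (GW.val t') i p.1 p.2 O' D hne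
    have h2 : GW.val (t' + 1) (List.replicate i .dn ++ ((p :: O').map ltf ++ tpe D)) =
        GW.swp (GW.endv (GW.val t')) .s0 []
          (List.replicate i .dn ++ .lt false p.1 p.2 :: (O'.map ltf ++ tpe D)) := rfl
    rw [h2, h1, hD]
    have hD' : (D.map stp).map List.length = μ := by
      rw [List.map_map, ← hD]
      refine List.map_congr_left fun B _ => ?_
      exact v3_stp_len B
    have hlen : (p :: O').length = O'.length + 1 := rfl
    rw [hlen] at ht ⊢
    rw [Finset.prod_range_succ]
    by_cases hO : O' = []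
    · subst hO
      simp only [forall_const, List.length_nil, zero_add, Finset.range_zero, Finset.prod_empty,
        one_mul, Function.iterate_one, add_zero, List.map_nil, List.nil_append]
      rw [IH (D.map stp) (i + 1) t' hD' (by simp at ht; omega)]
      ring
    · have h3 := ih (D.map stp) (i + 1) t' hO hD' (by omega)
      rw [if_pos (fun h => absurd h hO), h3]
      have h4 : (∀ B ∈ D.map stp, rot1^[O'.length] (B.map Prod.snd) = B.map Prod.fst) ↔
          ∀ B ∈ D, rot1^[O'.length + 1] (B.map Prod.snd) = B.map Prod.fst := by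
        constructor
        · intro h B hB
          have h5 := h (stp B) (List.mem_map_of_mem hB)
          rw [v3_stp_fst, v3_stp_snd] at h5
          rw [Function.iterate_succ_apply]
          exact h5
        · intro h B hB
          obtain ⟨B', hB', rfl⟩ := List.mem_map.1 hB
          have h5 := h B' hB'
          rw [Function.iterate_succ_apply] at h5
          rw [v3_stp_fst, v3_stp_snd]
          exact h5
      simp only [h4]
      ring

private theorem v3_main (h2m : S_v2m) (h2s : S_v2s) (h4 : S_v4) : ∀ (μ : List ℕ),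
    (∀ b ∈ μ, 0 < b) → ∀ (D : List (List (Bool × Bool))) (i t : ℕ), D.map List.length = μ →
    μ.sum < t → GW.val t (List.replicate i .dn ++ tpe D) = gv μ := by
  intro μ
  induction μ with
  | nil =>
    intro _ D i t hD ht
    have hD0 : D = [] := by simpa using hD
    subst hD0
    obtain ⟨t', rfl⟩ : ∃ t', t = t' + 1 := ⟨t - 1, by omega⟩
    show GW.swp (GW.endv (GW.val t')) .s0 [] (List.replicate i .dn ++ []) = 1
    rw [List.append_nil, v3_dn]
    rfl
  | cons a μ IH =>
    intro hμ D i t hD ht
    obtain ⟨B, D', rfl⟩ : ∃ B D', D = B :: D' := by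
      cases D with
      | nil => simp at hD
      | cons B D' => exact ⟨B, D', rfl⟩
    have hBa : B.length = a := by simpa using (List.cons.inj hD).1
    have hD' : D'.map List.length = μ := (List.cons.inj hD).2
    have hμ' : ∀ b ∈ μ, 0 < b := fun b hb => hμ b (List.mem_cons_of_mem _ hb)
    have IH' := IH hμ'
    have ha : 0 < a := hμ a List.mem_cons_self
    obtain ⟨p, O, rfl⟩ : ∃ p O, B = p :: O := by
      cases B with
      | nil => simp at hBa; omega
      | cons p O => exact ⟨p, O, rfl⟩
    obtain ⟨t', rfl⟩ : ∃ t', t = t' + 1 := ⟨t - 1, by omega⟩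
    have hsum : (a :: μ).sum = a + μ.sum := by simp
    have hal : a = O.length + 1 := by rw [← hBa]; rfl
    rw [hsum] at ht
    have h1 := h2s (GW.val t') i p.1 p.2 O D' (v3_ne hμ' hD')
    have h2 : GW.val (t' + 1) (List.replicate i .dn ++ tpe ((p :: O) :: D')) =
        GW.swp (GW.endv (GW.val t')) .s0 []
          (List.replicate i .dn ++ .lt true p.1 p.2 :: (O.map ltf ++ tpe D')) := rfl
    rw [h2, h1, hD']
    have h5 := (h4.2 a μ hμ')
    have hgv : gv (a :: μ) = (∏ j ∈ range O.length, (μ.sum + j + 1)) * gv μ *
        sumX μ (fun Z => if ∀ w ∈ Z, rot1^[a] w = w then 1 else 0) := by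
      rw [h5]
      show (∏ t ∈ range (a - 1), (μ.sum + t + 1)) * 2 ^ (μ.map (fun b => Nat.gcd a b)).sum *
        gv μ = _
      rw [hal, Nat.add_sub_cancel]
      ring
    rw [hgv, ← v3_sumX_mul]
    refine v3_sumX_congr μ _ _ fun Z hZ => ?_
    have hZ' : (Z.map (fun w => w.zip (rot1 w))).map List.length = μ := by
      rw [List.map_map, ← hZ]
      refine List.map_congr_left fun w _ => ?_
      exact v3_zip_len w
    by_cases hO : O = []
    · subst hO
      have ha1 : a = 1 := by rw [hal]; rfl
      subst ha1
      simp only [forall_const, List.map_nil, List.nil_append, List.length_nil, Finset.range_zero,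
        Finset.prod_empty, one_mul, Function.iterate_one]
      by_cases hc : ∀ w ∈ Z, rot1 w = w
      · rw [if_pos hc, if_pos hc, mul_one]
        exact IH' _ _ _ hZ' (by omega)
      · rw [if_neg hc, if_neg hc, mul_zero]
    · rw [if_pos (fun h => absurd h hO)]
      rw [v3_mid h2m μ hμ' IH' O _ (i + 1) t' hO hZ' (by omega)]
      have h6 : (∀ B ∈ Z.map (fun w => w.zip (rot1 w)),
          rot1^[O.length] (B.map Prod.snd) = B.map Prod.fst) ↔ ∀ w ∈ Z, rot1^[a] w = w := by
        rw [hal]
        constructor
        · intro h w hw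
          have h7 := h _ (List.mem_map_of_mem (f := fun w => w.zip (rot1 w)) hw)
          rw [v3_zip_fst, v3_zip_snd] at h7
          rw [Function.iterate_succ_apply]
          exact h7
        · intro h B hB
          obtain ⟨w, hw, rfl⟩ := List.mem_map.1 hB
          have h7 := h w hw
          rw [Function.iterate_succ_apply] at h7
          rw [v3_zip_fst, v3_zip_snd]
          exact h7
      simp only [h6]
      by_cases hc : ∀ w ∈ Z, rot1^[a] w = w
      · rw [if_pos hc, if_pos hc, mul_one]
      · rw [if_neg hc, if_neg hc, mul_zero, mul_zero]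

theorem p_v3 : S_v3 := by
  intro h2m h2s h4 D i t hD ht
  refine v3_main h2m h2s h4 (D.map List.length) ?_ D i t rfl ht
  intro b hb
  obtain ⟨B, hB, rfl⟩ := List.mem_map.1 hb
  exact List.length_pos_iff.2 (hD B hB)

end Pool.Agent.Lib.MP_4b91fc_lc.GH
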