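import Pool.Agent.Lib.MP_4b91fc_lc.GH.Stm5

/-!
# `#GRAPHS` is complete for `#P_1`: piece v4, binary words invariant under a rotation
-/

set_option autoImplicit false

namespace Pool.Agent.Lib.MP_4b91fc_lc.GH

open Finset

private theorem v4_iter (a : ℕ) (l : List Bool) :
    rot1^[a] l = l.rotate (a * (l.length - 1)) := by
  induction a with
  | zero => simp
  | succ a ih =>
    rw [Function.iterate_succ_apply', ih]
    unfold rot1
    rw [List.length_rotate, List.rotate_rotate, Nat.succ_mul]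

private theorem v4_gcd (a b : ℕ) (hb : 0 < b) : Nat.gcd (a * (b - 1)) b = Nat.gcd a b := by
  have h : Nat.Coprime (b - 1) b := by
    have h1 := Nat.coprime_self_add_right (m := b - 1) (n := 1)
    rw [Nat.sub_add_cancel hb] at h1
    exact h1.2 (Nat.coprime_one_right _)
  exact Nat.Coprime.gcd_mul_right_cancel a h

private theorem v4_inv (k b : ℕ) (hb : 0 < b) (w : Fin b → Bool) :
    (List.ofFn w).rotate k = List.ofFn w ↔
      Function.Periodic (fun n : ℕ => w ⟨n % b, Nat.mod_lt _ hb⟩) k := by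
  constructor
  · intro h n
    have hn : n % b < (List.ofFn w).length := by
      rw [List.length_ofFn]
      exact Nat.mod_lt _ hb
    have hn' : n % b < ((List.ofFn w).rotate k).length := by
      rw [List.length_rotate]
      exact hn
    have h1 : ((List.ofFn w).rotate k)[n % b]'hn' = (List.ofFn w)[n % b]'hn := by
      simp only [h]
    rw [List.getElem_rotate, List.getElem_ofFn, List.getElem_ofFn] at h1
    show w _ = w _
    rw [← h1]
    congr 1
    apply Fin.ext
    show (n + k) % b = (n % b + k) % (List.ofFn w).length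
    rw [List.length_ofFn, Nat.mod_add_mod]
  · intro h
    apply List.ext_getElem
    · rw [List.length_rotate]
    · intro i h1 h2
      rw [List.getElem_rotate, List.getElem_ofFn, List.getElem_ofFn]
      have h3 : w ⟨(i + k) % b, Nat.mod_lt _ hb⟩ = w ⟨i % b, Nat.mod_lt _ hb⟩ := h i
      have h4 : i < b := by
        rw [List.length_ofFn] at h2
        exact h2
      have e1 : (⟨i % b, Nat.mod_lt _ hb⟩ : Fin b) = ⟨i, h4⟩ := Fin.ext (Nat.mod_eq_of_lt h4)
      rw [e1] at h3
      rw [← h3]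
      congr 1
      apply Fin.ext
      show (i + k) % (List.ofFn w).length = (i + k) % b
      rw [List.length_ofFn]

private theorem v4_per (k b : ℕ) (hb : 0 < b) (w : Fin b → Bool)
    (h : Function.Periodic (fun n : ℕ => w ⟨n % b, Nat.mod_lt _ hb⟩) k) :
    Function.Periodic (fun n : ℕ => w ⟨n % b, Nat.mod_lt _ hb⟩) (Nat.gcd k b) := by
  have hbp : ∀ n m : ℕ, n % b = m % b →
      w ⟨n % b, Nat.mod_lt _ hb⟩ = w ⟨m % b, Nat.mod_lt _ hb⟩ := by
    intro n m e
    congr 1
    exact Fin.ext e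
  rcases Nat.lt_or_ge (Nat.gcd k b) b with hd | hd
  · obtain ⟨m, _, hm⟩ := Nat.exists_mul_mod_eq_gcd hd
    intro n
    have h1 : Function.Periodic (fun n : ℕ => w ⟨n % b, Nat.mod_lt _ hb⟩) (m * k) :=
      h.nat_mul m
    have h2 : w ⟨(n + m * k) % b, Nat.mod_lt _ hb⟩ = w ⟨n % b, Nat.mod_lt _ hb⟩ := h1 n
    show w ⟨(n + Nat.gcd k b) % b, Nat.mod_lt _ hb⟩ = w ⟨n % b, Nat.mod_lt _ hb⟩
    rw [← h2]
    apply hbp
    rw [← hm, Nat.add_mod_mod, mul_comm k m]
  · have e : Nat.gcd k b = b := le_antisymm (Nat.gcd_le_right _ hb) hd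
    rw [e]
    intro n
    apply hbp
    rw [Nat.add_mod_right]

private theorem v4_card (a b : ℕ) (hb : 0 < b) :
    (univ.filter (fun w : Fin b → Bool => rot1^[a] (List.ofFn w) = List.ofFn w)).card =
      2 ^ Nat.gcd a b := by
  have hd0 : 0 < Nat.gcd a b := Nat.gcd_pos_of_pos_right _ hb
  have hdb : Nat.gcd a b ∣ b := Nat.gcd_dvd_right _ _
  have hdle : Nat.gcd a b ≤ b := Nat.le_of_dvd hb hdb
  let E : (Fin (Nat.gcd a b) → Bool) → (Fin b → Bool) :=
    fun u i => u ⟨(i : ℕ) % Nat.gcd a b, Nat.mod_lt _ hd0⟩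
  have hE : Function.Injective E := by
    intro u v huv
    funext j
    have h1 : E u ⟨j, lt_of_lt_of_le j.2 hdle⟩ = E v ⟨j, lt_of_lt_of_le j.2 hdle⟩ := by rw [huv]
    have h2 : (⟨(j : ℕ) % Nat.gcd a b, Nat.mod_lt _ hd0⟩ : Fin (Nat.gcd a b)) = j :=
      Fin.ext (Nat.mod_eq_of_lt j.2)
    have h3 : u ⟨(j : ℕ) % Nat.gcd a b, Nat.mod_lt _ hd0⟩ =
      v ⟨(j : ℕ) % Nat.gcd a b, Nat.mod_lt _ hd0⟩ := h1
    rw [h2] at h3
    exact h3
  have hset : univ.filter (fun w : Fin b → Bool => rot1^[a] (List.ofFn w) = List.ofFn w) =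
      univ.image E := by
    ext w
    rw [Finset.mem_filter, Finset.mem_image, v4_iter, List.length_ofFn, v4_inv _ _ hb]
    constructor
    · rintro ⟨_, h⟩
      have h1 := v4_per _ b hb w h
      rw [v4_gcd a b hb] at h1
      refine ⟨fun j => w ⟨j, lt_of_lt_of_le j.2 hdle⟩, Finset.mem_univ _, ?_⟩
      funext i
      show w ⟨(i : ℕ) % Nat.gcd a b, _⟩ = w i
      have h2 : w ⟨((i : ℕ) % Nat.gcd a b) % b, Nat.mod_lt _ hb⟩ =
        w ⟨(i : ℕ) % b, Nat.mod_lt _ hb⟩ := h1.map_mod_nat (i : ℕ)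
      have h3 : (⟨(i : ℕ) % b, Nat.mod_lt _ hb⟩ : Fin b) = i := Fin.ext (Nat.mod_eq_of_lt i.2)
      rw [h3] at h2
      rw [← h2]
      congr 1
      apply Fin.ext
      exact (Nat.mod_eq_of_lt (lt_of_lt_of_le (Nat.mod_lt _ hd0) hdle)).symm
    · rintro ⟨u, _, rfl⟩
      refine ⟨Finset.mem_univ _, ?_⟩
      intro n
      show u ⟨((n + a * (b - 1)) % b) % Nat.gcd a b, _⟩ = u ⟨(n % b) % Nat.gcd a b, _⟩
      congr 1
      apply Fin.ext
      show ((n + a * (b - 1)) % b) % Nat.gcd a b = (n % b) % Nat.gcd a b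
      rw [Nat.mod_mod_of_dvd _ hdb, Nat.mod_mod_of_dvd _ hdb]
      have h4 : Nat.gcd a b ∣ a * (b - 1) := Dvd.dvd.mul_right (Nat.gcd_dvd_left _ _) _
      rw [Nat.add_mod, Nat.mod_eq_zero_of_dvd h4, Nat.add_zero, Nat.mod_mod]
  rw [hset, Finset.card_image_of_injective _ hE, Finset.card_univ, Fintype.card_fun,
    Fintype.card_bool, Fintype.card_fin]

private theorem v4_zero (l : List ℕ) : sumX l (fun _ => 0) = 0 := by
  induction l with
  | nil => rfl
  | cons b l ih =>
    have e : sumX (b :: l) (fun _ => 0) = ∑ _w : Fin b → Bool, sumX l (fun _ => 0) := rfl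
    rw [e, ih]
    exact Finset.sum_const_zero

private theorem v4_step (a : ℕ) (l : List ℕ) (v : List Bool) :
    sumX l (fun Z => if ∀ w ∈ (v :: Z), rot1^[a] w = w then 1 else 0) =
      if rot1^[a] v = v then
        sumX l (fun Z => if ∀ w ∈ Z, rot1^[a] w = w then 1 else 0) else 0 := by
  by_cases hv : rot1^[a] v = v
  · rw [if_pos hv]
    congr 1
    funext Z
    by_cases hZ : ∀ w ∈ Z, rot1^[a] w = w
    · have hZ' : ∀ w ∈ (v :: Z), rot1^[a] w = w := List.forall_mem_cons.2 ⟨hv, hZ⟩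
      rw [if_pos hZ, if_pos hZ']
    · have hZ' : ¬ ∀ w ∈ (v :: Z), rot1^[a] w = w := fun h => hZ (List.forall_mem_cons.1 h).2
      rw [if_neg hZ, if_neg hZ']
  · rw [if_neg hv]
    have e : (fun Z : List (List Bool) =>
        if ∀ w ∈ (v :: Z), rot1^[a] w = w then 1 else 0) = fun _ => 0 := by
      funext Z
      have hZ' : ¬ ∀ w ∈ (v :: Z), rot1^[a] w = w := fun h => hv (List.forall_mem_cons.1 h).1
      rw [if_neg hZ']
    rw [e]
    exact v4_zero l

theorem p_v4 : S_v4 := by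
  refine ⟨v4_card, ?_⟩
  intro a l
  induction l with
  | nil =>
    intro _
    simp [sumX]
  | cons b l ih =>
    intro hl
    have hb : 0 < b := hl b (by simp)
    have ih' := ih (fun c hc => hl c (List.mem_cons_of_mem _ hc))
    have e1 : sumX (b :: l) (fun Z => if ∀ w ∈ Z, rot1^[a] w = w then 1 else 0) =
        ∑ w : Fin b → Bool, sumX l (fun Z =>
          if ∀ v ∈ (List.ofFn w :: Z), rot1^[a] v = v then 1 else 0) := rfl
    rw [e1]
    have e2 : ∀ w : Fin b → Bool, sumX l (fun Z =>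
          if ∀ v ∈ (List.ofFn w :: Z), rot1^[a] v = v then 1 else 0) =
        if rot1^[a] (List.ofFn w) = List.ofFn w then
          2 ^ (l.map (fun b => Nat.gcd a b)).sum else 0 := by
      intro w
      rw [v4_step, ih']
    rw [Finset.sum_congr rfl (fun w _ => e2 w), ← Finset.sum_filter, Finset.sum_const, v4_card a b hb,
      smul_eq_mul, List.map_cons, List.sum_cons, pow_add]

end Pool.Agent.Lib.MP_4b91fc_lc.GH
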