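import Pool.Agent.Lib.MP_4b91fc_lc.GH.Stm5

set_option autoImplicit false

/-!
# The first sweep: the compositions of `n`
-/

namespace Pool.Agent.Lib.MP_4b91fc_lc.GH

open Finset

/-- the weight of a list of lengths of blocks -/
private def v5_w (l : List ℕ) : ℕ := (l.map (fun a => 2 ^ (a / 2))).prod

/-- the weighted sum over the compositions -/
private def v5_T (F : List ℕ → ℕ) (n : ℕ) : ℕ := ∑ c : Composition n, v5_w c.blocks * F c.blocks

/-- a new first block -/
private def v5_cons {n : ℕ} (a : ℕ) (ha : a < n + 1) (c : Composition (n - a)) :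
    Composition (n + 1) where
  blocks := (a + 1) :: c.blocks
  blocks_pos := by
    intro i hi
    rcases List.mem_cons.mp hi with rfl | hi
    · exact Nat.succ_pos a
    · exact c.blocks_pos hi
  blocks_sum := by
    rw [List.sum_cons, c.blocks_sum]
    omega

private theorem v5_T_zero (F : List ℕ → ℕ) : v5_T F 0 = F [] := by
  unfold v5_T
  have h : ∀ c : Composition 0, c.blocks = [] := by
    intro c
    by_contra hne
    obtain ⟨a, l, hl⟩ := List.exists_cons_of_ne_nil hne
    have h1 := c.blocks_sum
    have h2 : 0 < a := c.blocks_pos (by rw [hl]; exact List.mem_cons_self)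
    rw [hl, List.sum_cons] at h1
    omega
  have hu : ∀ c : Composition 0, c = ⟨[], by simp, rfl⟩ := by
    intro c
    exact Composition.ext (h c)
  rw [Finset.sum_eq_single (⟨[], by simp, rfl⟩ : Composition 0)]
  · simp [v5_w]
  · intro c _ hc
    exact absurd (hu c) hc
  · intro hc
    exact absurd (Finset.mem_univ _) hc

private theorem v5_T_succ (F : List ℕ → ℕ) (n : ℕ) :
    v5_T F (n + 1) = ∑ a ∈ range (n + 1),
      2 ^ ((a + 1) / 2) * v5_T (fun l => F ((a + 1) :: l)) (n - a) := by
  unfold v5_T
  have h1 : ∀ a ∈ range (n + 1), 2 ^ ((a + 1) / 2) * (∑ c : Composition (n - a),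
      v5_w c.blocks * F ((a + 1) :: c.blocks)) =
      ∑ c : Composition (n - a), v5_w ((a + 1) :: c.blocks) * F ((a + 1) :: c.blocks) := by
    intro a _
    rw [Finset.mul_sum]
    apply Finset.sum_congr rfl
    intro c _
    have : v5_w ((a + 1) :: c.blocks) = 2 ^ ((a + 1) / 2) * v5_w c.blocks := by
      unfold v5_w
      rw [List.map_cons, List.prod_cons]
    rw [this, mul_assoc]
  rw [Finset.sum_congr rfl h1, Finset.sum_sigma']
  symm
  refine Finset.sum_bij (fun x hx => v5_cons x.1
    (by rw [Finset.mem_sigma, Finset.mem_range] at hx; exact hx.1) x.2) ?_ ?_ ?_ ?_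
  · intro x hx
    exact Finset.mem_univ _
  · rintro ⟨a, c⟩ hx ⟨a', c'⟩ hx' h
    have h2 : (a + 1) :: c.blocks = (a' + 1) :: c'.blocks := congrArg Composition.blocks h
    rw [List.cons.injEq] at h2
    have h3 : a = a' := by omega
    subst h3
    rw [Composition.ext h2.2]
  · intro c _
    obtain ⟨b, l, hl⟩ : ∃ b l, c.blocks = b :: l := by
      rcases hc : c.blocks with _ | ⟨b, l⟩
      · have := c.blocks_sum
        rw [hc] at this
        simp at this
      · exact ⟨b, l, rfl⟩
    have hb : 0 < b := c.blocks_pos (by rw [hl]; exact List.mem_cons_self)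
    have hs := c.blocks_sum
    rw [hl, List.sum_cons] at hs
    refine ⟨⟨b - 1, ⟨l, ?_, ?_⟩⟩, ?_, ?_⟩
    · intro i hi
      exact c.blocks_pos (by rw [hl]; exact List.mem_cons_of_mem _ hi)
    · omega
    · rw [Finset.mem_sigma, Finset.mem_range]
      exact ⟨by change b - 1 < n + 1; omega, Finset.mem_univ _⟩
    · apply Composition.ext
      change (b - 1 + 1) :: l = c.blocks
      rw [hl, Nat.sub_add_cancel hb]
  · intro x hx
    rfl

/-- the value of the rest of the first sweep -/
private def v5_G : ℕ → List ℕ → ℕ → ℕ
  | 0, l, b => gv (l ++ [b])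
  | r + 1, l, b => v5_G r (l ++ [b]) 1 + (if b % 2 = 1 then 2 else 1) * v5_G r l (b + 1)

private theorem v5_G_eq (r : ℕ) : ∀ (l : List ℕ) (b : ℕ), v5_G r l b =
    ∑ j ∈ range (r + 1), 2 ^ ((b + j) / 2 - b / 2) *
      v5_T (fun l' => gv (l ++ (b + j) :: l')) (r - j) := by
  induction r with
  | zero =>
    intro l b
    rw [Finset.sum_range_one, Nat.add_zero, Nat.sub_self, pow_zero, one_mul, Nat.sub_zero,
      v5_T_zero]
    rfl
  | succ r ih =>
    intro l b
    rw [Finset.sum_range_succ']
    have hz : 2 ^ ((b + 0) / 2 - b / 2) *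
        v5_T (fun l' => gv (l ++ (b + 0) :: l')) (r + 1 - 0) =
        v5_T (fun l' => gv (l ++ b :: l')) (r + 1) := by
      simp
    rw [hz, v5_T_succ, add_comm (∑ k ∈ range (r + 1), _)]
    have e : v5_G (r + 1) l b =
      v5_G r (l ++ [b]) 1 + (if b % 2 = 1 then 2 else 1) * v5_G r l (b + 1) := rfl
    rw [e, ih, ih, Finset.mul_sum]
    congr 1
    · apply Finset.sum_congr rfl
      intro j _
      have h1 : (1 + j) / 2 - 1 / 2 = (j + 1) / 2 := by
        rw [show 1 + j = j + 1 by ring]
        simp
      rw [h1, show 1 + j = j + 1 by ring]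
      congr 2
      funext l'
      rw [List.append_assoc, List.singleton_append]
    · apply Finset.sum_congr rfl
      intro j _
      have h1 : (if b % 2 = 1 then 2 else 1) * 2 ^ ((b + 1 + j) / 2 - (b + 1) / 2) =
          2 ^ ((b + (j + 1)) / 2 - b / 2) := by
        rw [show b + (j + 1) = b + 1 + j by ring]
        split_ifs with h
        · rw [← pow_succ']
          congr 1
          omega
        · rw [one_mul]
          congr 1
          omega
      rw [← mul_assoc, h1, show b + (j + 1) = b + 1 + j by ring,
        show r + 1 - (j + 1) = r - j by omega]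

private theorem v5_bk (B : List (Bool × Bool)) (hB : B ≠ []) (p : Bool × Bool) :
    bk B ++ [ltf p] = bk (B ++ [p]) := by
  obtain ⟨q, B', rfl⟩ := List.exists_cons_of_ne_nil hB
  rw [List.cons_append]
  change (LA.lt true q.1 q.2 :: B'.map ltf) ++ [ltf p] = LA.lt true q.1 q.2 :: (B' ++ [p]).map ltf
  rw [List.map_append, List.cons_append]
  rfl

private theorem v5_tpe (D : List (List (Bool × Bool))) (B : List (Bool × Bool)) :
    tpe D ++ bk B = tpe (D ++ [B]) := by
  unfold tpe
  rw [List.flatMap_append, List.flatMap_singleton]

private theorem v5_sweep (h3 : ∀ (D : List (List (Bool × Bool))) (i t : ℕ), (∀ B ∈ D, B ≠ []) →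
    (D.map List.length).sum < t → GW.val t (List.replicate i .dn ++ tpe D) =
      gv (D.map List.length)) (t : ℕ) : ∀ (r : ℕ) (D : List (List (Bool × Bool)))
    (B : List (Bool × Bool)), (∀ B' ∈ D, B' ≠ []) → B ≠ [] →
    (D.map List.length).sum + B.length + r < t →
    GW.swp (GW.endv (GW.val t)) (.gs (decide (B.length % 2 = 1))) (tpe D ++ bk B)
      (List.replicate r .one) = v5_G r (D.map List.length) B.length := by
  intro r
  induction r with
  | zero =>
    intro D B hD hB hs
    have hD' : ∀ B' ∈ D ++ [B], B' ≠ [] := by
      intro B' hB'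
      rcases List.mem_append.mp hB' with h | h
      · exact hD B' h
      · rw [List.mem_singleton.mp h]
        exact hB
    have h := h3 (D ++ [B]) 0 t hD' (by
      rw [List.map_append, List.sum_append]
      simp only [List.map_cons, List.map_nil, List.sum_cons, List.sum_nil]
      omega)
    have e : GW.swp (GW.endv (GW.val t)) (.gs (decide (B.length % 2 = 1))) (tpe D ++ bk B)
      (List.replicate 0 .one) = GW.val t (tpe D ++ bk B) := rfl
    rw [e, v5_tpe]
    rw [List.replicate_zero, List.nil_append, List.map_append] at h
    exact h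
  | succ r ih =>
    intro D B hD hB hs
    have hD' : ∀ B' ∈ D ++ [B], B' ≠ [] := by
      intro B' hB'
      rcases List.mem_append.mp hB' with h | h
      · exact hD B' h
      · rw [List.mem_singleton.mp h]
        exact hB
    have hnew := ih (D ++ [B]) [(false, false)] hD' (by simp) (by
      rw [List.map_append, List.sum_append]
      simp only [List.map_cons, List.map_nil, List.sum_cons, List.sum_nil, List.length_cons,
        List.length_nil]
      omega)
    have hold : ∀ p : Bool × Bool, GW.swp (GW.endv (GW.val t))
        (.gs (decide ((B.length + 1) % 2 = 1))) (tpe D ++ bk B ++ [ltf p])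
        (List.replicate r .one) = v5_G r (D.map List.length) (B.length + 1) := by
      intro p
      have h := ih D (B ++ [p]) hD (by simp) (by
        rw [List.length_append, List.length_singleton]
        omega)
      rw [List.length_append, List.length_singleton] at h
      rw [List.append_assoc, v5_bk B hB]
      exact h
    have hnew' : GW.swp (GW.endv (GW.val t)) (.gs true) (tpe D ++ bk B ++ [LA.lt true false false])
        (List.replicate r .one) = v5_G r (D.map List.length ++ [B.length]) 1 := by
      have e1 : tpe D ++ bk B ++ [LA.lt true false false] =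
          tpe (D ++ [B]) ++ bk [(false, false)] := by
        rw [← v5_tpe]
        rfl
      rw [e1]
      rw [List.map_append] at hnew
      exact hnew
    rw [List.replicate_succ]
    have e2 : ∀ (s : LS) (P : List LA), GW.swp (GW.endv (GW.val t)) s P
        (.one :: List.replicate r .one) = ∑ x ∈ trG s .one,
          GW.swp (GW.endv (GW.val t)) x.1 (P ++ [x.2]) (List.replicate r .one) := fun _ _ => rfl
    rw [e2]
    have e3 : v5_G (r + 1) (D.map List.length) B.length =
      v5_G r (D.map List.length ++ [B.length]) 1 + (if B.length % 2 = 1 then 2 else 1) *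
        v5_G r (D.map List.length) (B.length + 1) := rfl
    rw [e3]
    by_cases hp : B.length % 2 = 1
    · have hp' : ¬ (B.length + 1) % 2 = 1 := by omega
      rw [if_pos hp, decide_eq_true hp]
      rw [decide_eq_false hp'] at hold
      have e4 : trG (.gs true) .one = insert (LS.gs true, LA.lt true false false)
        {(LS.gs false, LA.lt false false false), (LS.gs false, LA.lt false true false)} := rfl
      rw [e4, Finset.sum_insert (by decide), Finset.sum_pair (by decide)]
      simp only
      rw [hnew', two_mul]
      congr 1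
      exact congrArg₂ (· + ·) (hold (false, false)) (hold (true, false))
    · have hp' : (B.length + 1) % 2 = 1 := by omega
      rw [if_neg hp, decide_eq_false hp]
      rw [decide_eq_true hp'] at hold
      have e4 : trG (.gs false) .one = insert (LS.gs true, LA.lt true false false)
        {(LS.gs true, LA.lt false false false)} := rfl
      rw [e4, Finset.sum_insert (by decide), Finset.sum_singleton]
      simp only
      rw [hnew', one_mul]
      congr 1
      exact hold (false, false)

theorem p_v5 : S_v5 := by
  intro h2m h2s h4 h3' n t hnt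
  have h3 := h3' h2m h2s h4
  obtain ⟨t, rfl⟩ : ∃ t', t = t' + 1 := ⟨t - 1, by omega⟩
  change GW.val (t + 1) (List.replicate n .one) = v5_T gv n
  rcases n with _ | n
  · rw [v5_T_zero]
    rfl
  · have e1 : GW.val (t + 1) (List.replicate (n + 1) .one) =
        ∑ x ∈ trG .s0 .one, GW.swp (GW.endv (GW.val t)) x.1 ([] ++ [x.2])
          (List.replicate n .one) := rfl
    have e2 : trG .s0 .one = {(LS.gs true, LA.lt true false false)} := rfl
    rw [e1, e2, Finset.sum_singleton]
    have h := v5_sweep h3 t n [] [(false, false)] (by simp) (by simp) (by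
      simp only [List.map_nil, List.sum_nil, List.length_cons, List.length_nil]
      omega)
    have e3 : GW.swp (GW.endv (GW.val t)) (LS.gs true) ([] ++ [LA.lt true false false])
        (List.replicate n .one) = v5_G n [] 1 := h
    simp only
    rw [e3, v5_G_eq, v5_T_succ]
    apply Finset.sum_congr rfl
    intro j _
    have h1 : (1 + j) / 2 - 1 / 2 = (j + 1) / 2 := by
      rw [show 1 + j = j + 1 by ring]
      simp
    rw [h1, show 1 + j = j + 1 by ring]
    rfl

end Pool.Agent.Lib.MP_4b91fc_lc.GH
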