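import Pool.Agent.Lib.MP_4b91fc_lc.GH.Stm5

set_option autoImplicit false

/-!
# Burnside's sum over the compositions
-/

namespace Pool.Agent.Lib.MP_4b91fc_lc.GH

open Finset

open scoped Nat

/-- the product of the inverses of the sums of the last parts -/
private def v6P : List ℕ → ℚ
  | [] => 1
  | a :: l => 1 / ((a : ℚ) + (l.sum : ℚ)) * v6P l

/-- first part of a composition -/
private theorem v6_comp (n : ℕ) (hn : 0 < n) (F : List ℕ → ℚ) :
    ∑ c : Composition n, F c.blocks =
      ∑ a ∈ Icc 1 n, ∑ c : Composition (n - a), F (a :: c.blocks) := by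
  rw [Finset.sum_sigma']
  symm
  refine Finset.sum_bij
    (fun (x : (a : ℕ) × Composition (n - a)) hx => (⟨x.1 :: x.2.blocks, ?_, ?_⟩ : Composition n))
    ?_ ?_ ?_ ?_
  · intro i hi
    have h1 : 1 ≤ x.1 := (Finset.mem_Icc.mp (Finset.mem_sigma.mp hx).1).1
    rcases List.mem_cons.mp hi with h | h
    · omega
    · exact x.2.blocks_pos h
  · have h2 := (Finset.mem_Icc.mp (Finset.mem_sigma.mp hx).1).2
    rw [List.sum_cons, x.2.blocks_sum]
    omega
  · intro x hx
    exact Finset.mem_univ _
  · rintro ⟨a, c⟩ hx ⟨b, d⟩ hy hxy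
    have h : a :: c.blocks = b :: d.blocks := by
      have := congrArg Composition.blocks hxy
      exact this
    have hab : a = b := (List.cons.inj h).1
    subst hab
    have hcd : c = d := Composition.ext (List.cons.inj h).2
    rw [hcd]
  · intro c _
    obtain ⟨bl, hpos, hsum⟩ := c
    cases bl with
    | nil =>
      exfalso
      simp at hsum
      omega
    | cons a t =>
      have ha : 0 < a := hpos List.mem_cons_self
      have hs : a + t.sum = n := by
        rw [← hsum, List.sum_cons]
      refine ⟨⟨a, ⟨t, fun {i} hi => hpos (List.mem_cons_of_mem _ hi), by omega⟩⟩, ?_, rfl⟩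
      rw [Finset.mem_sigma]
      exact ⟨Finset.mem_Icc.mpr ⟨ha, (show a ≤ n by omega)⟩, Finset.mem_univ _⟩
  · intro x _
    rfl

/-- one part of a multiset -/
private theorem v6_zee (hzee : S_zee) (a : ℕ) (ν : Multiset ℕ) :
    zee (a ::ₘ ν) = a * ((a ::ₘ ν).count a) * zee ν := by
  have hz := hzee.1
  have h0 : ν = ν.filter (fun x => x ≠ a) + Multiset.replicate (ν.count a) a := by
    have h1 := Multiset.filter_add_not (fun x => x = a) ν
    have h2 : ν.filter (fun x => x = a) = Multiset.replicate (ν.count a) a :=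
      Multiset.filter_eq' ν a
    rw [h2, add_comm] at h1
    exact h1.symm
  have hn : a ∉ ν.filter (fun x => x ≠ a) := by
    simp [Multiset.mem_filter]
  have h1 : a ::ₘ ν = ν.filter (fun x => x ≠ a) + Multiset.replicate (ν.count a + 1) a := by
    rw [Multiset.replicate_succ, Multiset.add_cons, ← h0]
  have h2 : (a ::ₘ ν).count a = ν.count a + 1 := Multiset.count_cons_self a ν
  have h3 : zee ν = a ^ (ν.count a) * (ν.count a)! * zee (ν.filter (fun x => x ≠ a)) := by
    conv_lhs => rw [h0]
    exact hz _ _ _ hn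
  have h4 : zee (a ::ₘ ν) =
      a ^ (ν.count a + 1) * (ν.count a + 1)! * zee (ν.filter (fun x => x ≠ a)) := by
    conv_lhs => rw [h1]
    exact hz _ _ _ hn
  rw [h4, h2, h3, Nat.factorial_succ, pow_succ]
  ring

/-- the sum over the compositions of a function of the multiset -/
private theorem v6_main (hzee : S_zee) (hptn : S_ptn) (n : ℕ) :
    ∀ f : Multiset ℕ → ℚ,
      ∑ c : Composition n, f (c.blocks : Multiset ℕ) * v6P c.blocks =
        ∑ μ ∈ Ptn n, f μ / (zee μ : ℚ) := by
  induction n using Nat.strong_induction_on with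
  | _ n ih =>
  intro f
  have hmem := hptn.1
  rcases Nat.eq_zero_or_pos n with hn | hn
  · subst hn
    have h1 : Ptn 0 = {0} := by
      ext μ
      rw [hmem, Finset.mem_singleton]
      constructor
      · rintro ⟨hs, h0⟩
        by_contra hne
        obtain ⟨x, hx⟩ := Multiset.exists_mem_of_ne_zero hne
        have h2 : x ≤ μ.sum := Multiset.single_le_sum (fun y _ => Nat.zero_le y) x hx
        have h3 : x = 0 := by omega
        rw [h3] at hx
        exact h0 hx
      · rintro rfl
        simp
    have h2 : ∀ c : Composition 0, c.blocks = [] := by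
      intro c
      cases hb : c.blocks with
      | nil => rfl
      | cons a t =>
        exfalso
        have ha : 0 < a := c.blocks_pos (by rw [hb]; exact List.mem_cons_self)
        have hs := c.blocks_sum
        rw [hb, List.sum_cons] at hs
        omega
    have h3 : Fintype.card (Composition 0) = 1 := by
      rw [composition_card]
      rfl
    rw [h1, Finset.sum_singleton]
    rw [Finset.sum_congr rfl (fun c _ => by rw [h2 c])]
    rw [Finset.sum_const, Finset.card_univ, h3]
    have h4 : zee 0 = 1 := by simp [zee]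
    rw [h4]
    simp [v6P]
  · rw [v6_comp n hn (fun l => f (l : Multiset ℕ) * v6P l)]
    have hnq : (n : ℚ) ≠ 0 := by
      have : (0 : ℚ) < n := by exact_mod_cast hn
      exact this.ne'
    -- the left side
    have hL : ∑ a ∈ Icc 1 n, ∑ c : Composition (n - a),
        (fun l : List ℕ => f (l : Multiset ℕ) * v6P l) (a :: c.blocks) =
        1 / (n : ℚ) * ∑ a ∈ Icc 1 n, ∑ ν ∈ Ptn (n - a), f (a ::ₘ ν) / (zee ν : ℚ) := by
      rw [Finset.mul_sum]
      refine Finset.sum_congr rfl (fun a ha => ?_)
      obtain ⟨ha1, ha2⟩ := Finset.mem_Icc.mp ha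
      rw [← ih (n - a) (by omega) (fun ν => f (a ::ₘ ν)), Finset.mul_sum]
      refine Finset.sum_congr rfl (fun c _ => ?_)
      have hs : (a : ℚ) + (c.blocks.sum : ℚ) = n := by
        rw [c.blocks_sum]
        have : a + (n - a) = n := by omega
        exact_mod_cast this
      simp only [v6P]
      rw [hs, ← Multiset.cons_coe]
      ring
    rw [hL]
    -- the right side
    have hR : ∑ μ ∈ Ptn n, f μ / (zee μ : ℚ) =
        1 / (n : ℚ) * ∑ μ ∈ Ptn n, ∑ a ∈ μ.toFinset,
          ((a : ℚ) * (μ.count a : ℚ)) * (f μ / (zee μ : ℚ)) := by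
      rw [Finset.mul_sum]
      refine Finset.sum_congr rfl (fun μ hμ => ?_)
      obtain ⟨hs, h0⟩ := (hmem n μ).mp hμ
      have h1 : ∑ a ∈ μ.toFinset, ((a : ℚ) * (μ.count a : ℚ)) = n := by
        have h2 := Finset.sum_multiset_count μ
        rw [hs] at h2
        rw [h2]
        push_cast
        refine Finset.sum_congr rfl (fun a _ => ?_)
        simp only [smul_eq_mul, Nat.cast_mul]
        ring
      rw [← Finset.sum_mul, h1]
      field_simp
    rw [hR]
    congr 1
    rw [Finset.sum_sigma', Finset.sum_sigma']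
    refine Finset.sum_bij'
      (fun (x : (_ : ℕ) × Multiset ℕ) _ => (⟨x.1 ::ₘ x.2, x.1⟩ : (_ : Multiset ℕ) × ℕ))
      (fun (y : (_ : Multiset ℕ) × ℕ) _ => (⟨y.2, y.1.erase y.2⟩ : (_ : ℕ) × Multiset ℕ))
      ?_ ?_ ?_ ?_ ?_
    · rintro ⟨a, ν⟩ hx
      rw [Finset.mem_sigma] at hx
      obtain ⟨ha, hν⟩ := hx
      obtain ⟨ha1, ha2⟩ := Finset.mem_Icc.mp ha
      obtain ⟨hs, h0⟩ := (hmem _ _).mp hν
      simp only at hs h0 ha1 ha2
      rw [Finset.mem_sigma, hmem]
      refine ⟨⟨?_, ?_⟩, ?_⟩
      · simp only [Multiset.sum_cons]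
        rw [hs]
        omega
      · simp only [Multiset.mem_cons]
        rintro (h | h)
        · omega
        · exact h0 h
      · simp
    · rintro ⟨μ, a⟩ hy
      rw [Finset.mem_sigma] at hy
      obtain ⟨hμ, ha⟩ := hy
      obtain ⟨hs, h0⟩ := (hmem _ _).mp hμ
      simp only [Multiset.mem_toFinset] at ha
      simp only at hs h0
      have h1 : a ::ₘ μ.erase a = μ := Multiset.cons_erase ha
      have h2 : a + (μ.erase a).sum = n := by
        rw [← Multiset.sum_cons, h1, hs]
      have h3 : a ≠ 0 := by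
        rintro rfl
        exact h0 ha
      rw [Finset.mem_sigma, hmem]
      refine ⟨Finset.mem_Icc.mpr ⟨by simp only; omega, by simp only; omega⟩, ?_, ?_⟩
      · simp only
        omega
      · simp only
        intro h
        exact h0 (Multiset.mem_of_mem_erase h)
    · rintro ⟨a, ν⟩ hx
      simp
    · rintro ⟨μ, a⟩ hy
      rw [Finset.mem_sigma] at hy
      have ha : a ∈ μ := by
        have := hy.2
        simpa using this
      simp [Multiset.cons_erase ha]
    · rintro ⟨a, ν⟩ hx
      rw [Finset.mem_sigma] at hx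
      obtain ⟨ha, hν⟩ := hx
      obtain ⟨ha1, ha2⟩ := Finset.mem_Icc.mp ha
      obtain ⟨hs, h0⟩ := (hmem _ _).mp hν
      simp only at hs h0 ha1 ha2
      have hz := v6_zee hzee a ν
      have hz0 : 0 < zee ν := hzee.2.2.1 ν h0
      have hz0q : (zee ν : ℚ) ≠ 0 := by
        have : (0 : ℚ) < zee ν := by exact_mod_cast hz0
        exact this.ne'
      have haq : (a : ℚ) ≠ 0 := by
        have : (0 : ℚ) < a := by exact_mod_cast ha1
        exact this.ne'
      have hcq : (((a ::ₘ ν).count a : ℕ) : ℚ) ≠ 0 := by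
        rw [Multiset.count_cons_self]
        push_cast
        positivity
      simp only
      rw [hz]
      push_cast
      field_simp

/-- the value of `gv` -/
private theorem v6_gv (hcc : S_cc) (l : List ℕ) (hl : ∀ a ∈ l, 0 < a) :
    (((l.map (fun a => 2 ^ (a / 2))).prod * gv l : ℕ) : ℚ) =
      (l.sum ! : ℚ) * ((2 : ℚ) ^ cc (l : Multiset ℕ) * v6P l) := by
  induction l with
  | nil =>
    have h0 : cc (([] : List ℕ) : Multiset ℕ) = 0 := by
      simp [cc, qq]
    rw [h0]
    simp [gv, v6P]
  | cons a l ih =>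
    have ih' := ih (fun b hb => hl b (List.mem_cons_of_mem _ hb))
    have ha : 0 < a := hl a List.mem_cons_self
    have hc := hcc.2.2.2.2.1 (l : Multiset ℕ) a 1
    have hc1 : cc ((a :: l : List ℕ) : Multiset ℕ) = a / 2 + gs a (l : Multiset ℕ) + cc (l : Multiset ℕ) := by
      have h1 : ((a :: l : List ℕ) : Multiset ℕ) = (l : Multiset ℕ) + Multiset.replicate 1 a := by
        rw [Multiset.replicate_one, ← Multiset.cons_coe, add_comm, Multiset.singleton_add]
      rw [h1, hc]
      simp [e2]
    have hg : gs a (l : Multiset ℕ) = (l.map (fun b => Nat.gcd a b)).sum := by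
      simp [gs]
    have hf : ((l.sum)! : ℚ) * ((∏ t ∈ range (a - 1), (l.sum + t + 1) : ℕ) : ℚ) *
        ((a : ℚ) + (l.sum : ℚ)) = ((a + l.sum)! : ℚ) := by
      have h1 : (l.sum)! * (∏ t ∈ range (a - 1), (l.sum + t + 1)) = (l.sum + (a - 1))! := by
        generalize a - 1 = m
        induction m with
        | zero => simp
        | succ m ihm =>
          rw [Finset.prod_range_succ, ← mul_assoc, ihm, ← Nat.add_assoc, Nat.factorial_succ]
          ring
      have h2 : (a + l.sum)! = (a + l.sum) * (l.sum + (a - 1))! := by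
        obtain ⟨m, rfl⟩ : ∃ m, a = m + 1 := ⟨a - 1, by omega⟩
        have : m + 1 + l.sum = (l.sum + (m + 1 - 1)) + 1 := by omega
        rw [this, Nat.factorial_succ]
      rw [← Nat.cast_mul, h1, h2]
      push_cast
      ring
    have hne : ((a : ℚ) + (l.sum : ℚ)) ≠ 0 := by
      have : (0 : ℚ) < a := by exact_mod_cast ha
      positivity
    rw [hc1, hg]
    simp only [List.map_cons, List.prod_cons, gv, v6P, List.sum_cons]
    rw [← hf]
    have : ((2 ^ (a / 2) * (l.map (fun a => 2 ^ (a / 2))).prod *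
        ((∏ t ∈ range (a - 1), (l.sum + t + 1)) * 2 ^ (l.map (fun b => Nat.gcd a b)).sum * gv l) : ℕ) : ℚ) =
        (2 : ℚ) ^ (a / 2) * (2 : ℚ) ^ (l.map (fun b => Nat.gcd a b)).sum *
          ((∏ t ∈ range (a - 1), (l.sum + t + 1) : ℕ) : ℚ) *
          (((l.map (fun a => 2 ^ (a / 2))).prod * gv l : ℕ) : ℚ) := by
      push_cast
      ring
    rw [this, ih', pow_add, pow_add]
    field_simp

theorem p_v6 : S_v6 := by
  intro hburn hcc hzee hptn n
  have h1 : ((∑ c : Composition n, (c.blocks.map (fun a => 2 ^ (a / 2))).prod * gv c.blocks : ℕ) : ℚ) =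
      ((n ! * numGraphs n : ℕ) : ℚ) := by
    rw [Nat.cast_sum]
    have h2 : ∀ c ∈ (univ : Finset (Composition n)),
        (((c.blocks.map (fun a => 2 ^ (a / 2))).prod * gv c.blocks : ℕ) : ℚ) =
          (n ! : ℚ) * ((fun μ : Multiset ℕ => (2 : ℚ) ^ cc μ) (c.blocks : Multiset ℕ) * v6P c.blocks) := by
      intro c _
      rw [v6_gv hcc c.blocks (fun a ha => c.blocks_pos ha), c.blocks_sum]
    rw [Finset.sum_congr rfl h2, ← Finset.mul_sum,
      v6_main hzee hptn n (fun μ : Multiset ℕ => (2 : ℚ) ^ cc μ), Nat.cast_mul, hburn n]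
    rfl
  exact_mod_cast h1

end Pool.Agent.Lib.MP_4b91fc_lc.GH
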