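import Pool.Agent.Lib.MP_4b91fc_lc.GH.Stm5

set_option autoImplicit false

/-!
# `#GRAPHS` is complete for `#P_1`: [v7], `n! U_n` is in `#P_1`
-/

namespace Pool.Agent.Lib.MP_4b91fc_lc.GH

open Finset Turing

open scoped Nat

/-- weights of the letters -/
private def v7_wt : LA → ℕ
  | .one => 2
  | .dn => 0
  | .lt _ _ _ => 1

/-- weights of the states -/
private def v7_ph : LS → ℕ
  | .s0 => 0
  | _ => 1

private theorem v7_rotS (nw la ch x y : Bool) :
    ∀ z ∈ rotS nw la ch x y, v7_wt z.2 + v7_ph z.1 ≤ 2 := by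
  intro z hz
  obtain ⟨w, _, rfl⟩ := Finset.mem_image.1 hz
  exact le_refl 2

private theorem v7_rotC (nw la ch c g x y : Bool) :
    ∀ z ∈ rotC nw la ch c g x y, v7_wt z.2 + v7_ph z.1 ≤ 2 := by
  intro z hz
  obtain ⟨w, _, rfl⟩ := Finset.mem_image.1 hz
  exact le_refl 2

private theorem v7_tr : ∀ s a, ∀ x ∈ trG s a, v7_wt x.2 + v7_ph x.1 ≤ v7_wt a + v7_ph s := by
  intro s a z hz
  rcases s with _ | p | ⟨nw, ch⟩ | ⟨nw, ch⟩ | ⟨nw, la, ch, c, g⟩
  · rcases a with _ | _ | ⟨b, x, y⟩
    · obtain rfl := Finset.mem_singleton.1 hz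
      exact le_refl 2
    · obtain rfl := Finset.mem_singleton.1 hz
      exact le_refl 0
    · obtain ⟨w, _, rfl⟩ := Finset.mem_image.1 hz
      exact le_refl 1
  · rcases a with _ | _ | ⟨b, x, y⟩
    · rcases Finset.mem_insert.1 hz with rfl | hz
      · exact (by decide : 2 ≤ 3)
      · cases p
        · obtain rfl := Finset.mem_singleton.1 hz
          exact (by decide : 2 ≤ 3)
        · rcases Finset.mem_insert.1 hz with rfl | hz
          · exact (by decide : 2 ≤ 3)
          · obtain rfl := Finset.mem_singleton.1 hz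
            exact (by decide : 2 ≤ 3)
    · exact absurd hz (Finset.notMem_empty _)
    · exact absurd hz (Finset.notMem_empty _)
  · rcases a with _ | _ | ⟨_ | _, x, y⟩
    · exact absurd hz (Finset.notMem_empty _)
    · exact absurd hz (Finset.notMem_empty _)
    · obtain ⟨w, _, rfl⟩ := Finset.mem_image.1 hz
      exact le_refl 2
    · exact v7_rotS _ _ _ _ _ z hz
  · rcases a with _ | _ | ⟨_ | _, x, y⟩
    · exact absurd hz (Finset.notMem_empty _)
    · exact absurd hz (Finset.notMem_empty _)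
    · obtain ⟨w, _, rfl⟩ := Finset.mem_image.1 hz
      exact le_refl 2
    · exact v7_rotS _ _ _ _ _ z hz
  · rcases a with _ | _ | ⟨_ | _, x, y⟩
    · exact absurd hz (Finset.notMem_empty _)
    · exact absurd hz (Finset.notMem_empty _)
    · exact v7_rotC _ _ _ _ _ _ _ z hz
    · have hz' : z ∈ (if c = g then rotS nw la ch x y else ∅) := hz
      split_ifs at hz' with h
      · exact v7_rotS _ _ _ _ _ z hz'
      · exact absurd hz' (Finset.notMem_empty _)

private theorem v7_fin : ∀ s, finG s = some false → 1 ≤ v7_ph s := by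
  intro s hs
  rcases s with _ | p | ⟨nw, ch⟩ | ⟨nw, ch⟩ | ⟨nw, la, ch, c, g⟩
  · have h : some true = some false := hs
    simp at h
  all_goals exact le_refl 1

private theorem v7_init (n : ℕ) :
    (GW.ntm).init n = ⟨MQ.sw GW.s0, 0, GW.tp (List.replicate n LA.one)⟩ := by
  unfold NTM.init
  congr 1
  funext x
  change (if 0 ≤ x ∧ x < n then some LA.one else none) =
    if 0 ≤ x then (List.replicate n LA.one)[x.toNat]? else none
  rw [List.getElem?_replicate]
  by_cases h0 : 0 ≤ x
  · by_cases h1 : x < n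
    · rw [if_pos ⟨h0, h1⟩, if_pos h0, if_pos (by omega)]
    · rw [if_neg (fun h => h1 h.2), if_pos h0, if_neg (by omega)]
  · rw [if_neg (fun h => h0 h.1), if_neg h0]

private theorem v7_sum (n : ℕ) : ((List.replicate n LA.one).map v7_wt).sum = 2 * n := by
  rw [List.map_replicate, List.sum_replicate]
  change n * 2 = 2 * n
  ring

theorem p_v7 : S_v7 := by
  intro h0 h1 h5 h6
  obtain ⟨_, _, _, _, hacc, hruns⟩ := h0
  have key : ∀ n : ℕ,
      NTM.Bd ((GW.ntm).init n) ((2 * n + 3) * (2 * n + 2)) ∧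
      NTM.cnt ((GW.ntm).init n) = GW.val (2 * n + 2) (List.replicate n LA.one) := by
    intro n
    have h := h1 GW v7_wt v7_ph v7_tr rfl v7_fin (2 * n + 2) (List.replicate n LA.one)
      (by
        have := v7_sum n
        omega)
    rw [List.length_replicate] at h
    rw [v7_init n]
    exact h
  refine ⟨GW.ntm, (2 * Polynomial.X + 3) * (2 * Polynomial.X + 2), ?_, ?_⟩
  · rw [hruns]
    intro n
    have e : Polynomial.eval n ((2 * Polynomial.X + 3) * (2 * Polynomial.X + 2) : Polynomial ℕ) =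
        (2 * n + 3) * (2 * n + 2) := by
      simp
    rw [e]
    exact (key n).1
  · intro n
    rw [hacc, (key n).2, h5 n (2 * n + 2) (by omega), h6 n]

end Pool.Agent.Lib.MP_4b91fc_lc.GH
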