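import Pool.Agent.Lib.MP_4b91fc_lc.GH.StmP

set_option autoImplicit false

/-!
# Truncated difference of binary numbers in polynomial time
-/

namespace Pool.Agent.Lib.MP_4b91fc_lc.GH

open Function Pool.Agent.PolyTime

/-- one step of the subtraction; the second entry is the borrow -/
private def bsub_step (s : List Bool × Bool × List Bool) (x : Bool) : List Bool × Bool × List Bool :=
  (s.1.tail, bif x then s.1.headD false && s.2.1 else s.1.headD false || s.2.1,
    (bif x then (bif s.1.headD false then s.2.1 else !s.2.1) else
      (bif s.1.headD false then !s.2.1 else s.2.1)) :: s.2.2)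

private theorem bsub_foldl (L : List Bool) : ∀ (m : List Bool) (c : Bool) (o : List Bool),
    (L.foldl bsub_step (m, c, o)).2.2.length = o.length + L.length ∧
    ofB (L.foldl bsub_step (m, c, o)).2.2.reverse + 2 ^ o.length * (ofB m + c.toNat) =
      ofB o.reverse + 2 ^ o.length * ofB L + 2 ^ (o.length + L.length) *
        (ofB (m.drop L.length) + (L.foldl bsub_step (m, c, o)).2.1.toNat) := by
  induction L with
  | nil =>
    intro m c o
    refine ⟨by simp, ?_⟩
    simp [ofB]
  | cons x L ih =>
    intro m c o
    rw [List.foldl_cons]
    obtain ⟨s, hs⟩ : ∃ s, s = bsub_step (m, c, o) x := ⟨_, rfl⟩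
    obtain ⟨h2, h3⟩ := ih s.1 s.2.1 s.2.2
    rw [← hs]
    have e1 : s.1 = m.tail := by rw [hs]; rfl
    have e2 : s.2.2.length = o.length + 1 := by rw [hs]; rfl
    have e3 : (s.1, s.2.1, s.2.2) = s := rfl
    rw [e3] at h2 h3
    refine ⟨?_, ?_⟩
    · rw [h2, e2, List.length_cons]
      ring
    · rw [e2] at h3
      have e4 : m.drop (x :: L).length = s.1.drop L.length := by
        rw [e1]
        simp
      rw [e4, List.length_cons, show o.length + (L.length + 1) = o.length + 1 + L.length by ring]
      obtain ⟨R, hR⟩ : ∃ R, R = 2 ^ (o.length + 1 + L.length) *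
        (ofB (s.1.drop L.length) + (L.foldl bsub_step s).2.1.toNat) := ⟨_, rfl⟩
      rw [← hR] at h3 ⊢
      have e5 : s.2.2.reverse = o.reverse ++ [bif x then (bif m.headD false then c else !c) else
          (bif m.headD false then !c else c)] := by
        rw [hs]
        simp [bsub_step]
      have e6 : s.2.1 = (bif x then m.headD false && c else m.headD false || c) := by
        rw [hs]
        rfl
      have e7 : ofB m = 2 * ofB m.tail + (m.headD false).toNat := by
        cases m with
        | nil => simp [ofB]
        | cons y m => simp [ofB]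
      rw [e5, ofB_append_singleton, List.length_reverse, e6, e1, pow_succ] at h3
      rw [e7, ofB_cons]
      generalize ofB (L.foldl bsub_step s).2.2.reverse = Z at h3 ⊢
      generalize ofB m.tail = M at h3 ⊢
      generalize m.headD false = y at h3 ⊢
      generalize 2 ^ o.length = E at h3 ⊢
      generalize ofB L = Q at h3 ⊢
      generalize ofB o.reverse = O at h3 ⊢
      cases x <;> cases y <;> cases c <;> simp at h3 ⊢ <;> nlinarith

private theorem bsub_lt (l : List Bool) : ofB l < 2 ^ l.length := by
  induction l with
  | nil => simp [ofB]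
  | cons b l ih =>
    rw [ofB_cons, List.length_cons, pow_succ]
    cases b <;> simp <;> omega

private theorem bsub_ofB_false (l : List Bool) (k : ℕ) :
    ofB (l ++ List.replicate k false) = ofB l := by
  induction l with
  | nil =>
    rw [List.nil_append]
    induction k with
    | zero => rfl
    | succ k ih =>
      rw [List.replicate_succ, ofB_cons, ih]
      simp [ofB]
  | cons b l ih => rw [List.cons_append, ofB_cons, ih, ofB_cons]

/-- **Truncated difference of binary numbers.** -/
theorem p_bsub : S_bsub := by
  intro α _ f g hf hg
  have h : PTime (fun p : List Bool × List Bool =>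
      (p.1 ++ List.replicate p.2.length false).foldl bsub_step (p.2, false, [])) := by
    refine PTime.foldl (f := fun (_ : List Bool × List Bool) s b => bsub_step s b)
      (PTime.append PTime.fst (PTime.replicate (PTime.length PTime.snd) (PTime.const false)))
      (PTime.pair PTime.snd (PTime.pair (PTime.const false) (PTime.const []))) ?_
      (Polynomial.C 8) ?_
    · have hx : PTime (fun p : (List Bool × List Bool) × (List Bool × Bool × List Bool) × Bool =>
        p.2.2) := PTime.snd.comp PTime.snd
      have hm : PTime (fun p : (List Bool × List Bool) × (List Bool × Bool × List Bool) × Bool =>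
        p.2.1.1) := PTime.fst.comp (PTime.fst.comp PTime.snd)
      have hc : PTime (fun p : (List Bool × List Bool) × (List Bool × Bool × List Bool) × Bool =>
        p.2.1.2.1) := PTime.fst.comp (PTime.snd.comp (PTime.fst.comp PTime.snd))
      have ho : PTime (fun p : (List Bool × List Bool) × (List Bool × Bool × List Bool) × Bool =>
        p.2.1.2.2) := PTime.snd.comp (PTime.snd.comp (PTime.fst.comp PTime.snd))
      have hy := PTime.headD hm (PTime.const false)
      exact PTime.pair (PTime.tail hm) (PTime.pair (PTime.cond hx (PTime.and hy hc)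
        (PTime.or hy hc)) (PTime.cons (PTime.cond hx (PTime.cond hy hc (PTime.not hc))
        (PTime.cond hy (PTime.not hc) hc)) ho))
    · intro a s b _
      rw [Polynomial.eval_C]
      unfold bsub_step
      rw [sz_pair, sz_pair, sz_cons]
      have h1 : sz s.1.tail ≤ sz s.1 := by
        have := sz_drop_le s.1 1
        simpa using this
      have h2 := sz_bool_le (bif b then s.1.headD false && s.2.1 else s.1.headD false || s.2.1)
      have h3 := sz_bool_le (bif b then (bif s.1.headD false then s.2.1 else !s.2.1) else
        (bif s.1.headD false then !s.2.1 else s.2.1))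
      have h4 : sz s = sz s.1 + (sz s.2.1 + sz s.2.2 + 1) + 1 := rfl
      have h5 := sz_pos s.2.1
      omega
  have h2 : PTime (fun p : List Bool × List Bool => (⟨ofB
      (bif ((p.1 ++ List.replicate p.2.length false).foldl bsub_step (p.2, false, [])).2.1 then []
        else ((p.1 ++ List.replicate p.2.length false).foldl bsub_step
          (p.2, false, [])).2.2.reverse)⟩ : Big)) :=
    ptime_ofB (PTime.cond (PTime.fst.comp (PTime.snd.comp h)) (PTime.const [])
      (PTime.reverse (PTime.snd.comp (PTime.snd.comp h))))
  refine (h2.comp ((ptime_bits hf).pair (ptime_bits hg))).of_eq fun a => ?_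
  congr 1
  obtain ⟨l, hl⟩ : ∃ l, l = (f a).bits := ⟨_, rfl⟩
  obtain ⟨m, hm⟩ : ∃ m, m = (g a).bits := ⟨_, rfl⟩
  simp only
  rw [← hl, ← hm]
  obtain ⟨h3, h4⟩ := bsub_foldl (l ++ List.replicate m.length false) m false []
  have e1 : m.drop (l ++ List.replicate m.length false).length = [] := by
    apply List.drop_eq_nil_of_le
    simp
  rw [e1, bsub_ofB_false, ofB_nil] at h4
  have h5 := bsub_lt ((l ++ List.replicate m.length false).foldl bsub_step
    (m, false, [])).2.2.reverse
  rw [List.length_reverse, h3] at h5
  have hfa : ofB l = f a := by rw [hl, ofB_bits]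
  have hga : ofB m = g a := by rw [hm, ofB_bits]
  rw [← hfa, ← hga]
  generalize l ++ List.replicate m.length false = L at h4 h5 ⊢
  generalize L.foldl bsub_step (m, false, []) = s at h4 h5 ⊢
  obtain ⟨s1, c, o⟩ := s
  simp only [List.length_nil, Nat.zero_add, List.reverse_nil, ofB_nil, pow_zero, one_mul,
    Bool.toNat_false, Nat.add_zero] at h4 h5 ⊢
  cases c
  · simp only [Bool.toNat_false, Nat.mul_zero, Nat.add_zero, cond_false] at h4 ⊢
    omega
  · simp only [Bool.toNat_true, Nat.mul_one, cond_true, ofB_nil] at h4 ⊢
    omega

end Pool.Agent.Lib.MP_4b91fc_lc.GH
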