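import Pool.Agent.Lib.MP_4b91fc_lc.GH.Stm5
import Pool.Agent.Lib.MP_4b91fc_lc.GH.Asm
import Pool.Agent.Lib.MP_4b91fc_lc.GH.P.bmul
import Pool.Agent.Lib.MP_4b91fc_lc.GH.P.bsub
import Pool.Agent.Lib.MP_4b91fc_lc.GH.P.ble
import Pool.Agent.Lib.MP_4b91fc_lc.GH.P.bdiv
import Pool.Agent.Lib.MP_4b91fc_lc.GH.P.bmod
import Pool.Agent.Lib.MP_4b91fc_lc.GH.P.bun
import Pool.Agent.Lib.MP_4b91fc_lc.GH.P.blp
import Pool.Agent.Lib.MP_4b91fc_lc.GH.P.bpr
import Pool.Agent.Lib.MP_4b91fc_lc.GH.P.dc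
import Pool.Agent.Lib.MP_4b91fc_lc.GH.P.m1
import Pool.Agent.Lib.MP_4b91fc_lc.GH.P.m2

set_option autoImplicit false

/-!
# `#GRAPHS` is complete for `#P_1`: division by `n!`
-/

namespace Pool.Agent.Lib.MP_4b91fc_lc.GH

open Turing Pool.Agent.PolyTime

open scoped Nat

private theorem v8_ptime (dec : List Bool → ℕ × List Big) (hdec : PTime dec) :
    PTime (fun w : List Bool =>
      (((dec w).2.getD (dec w).1 ⟨0⟩).val / ((dec w).1)!).bits) := by
  have arith : Arith := asm_arith p_bmul p_bsub p_ble p_bdiv p_bmod p_bun p_blp p_bpr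
  have h1 : PB (fun w : List Bool => ((dec w).2.getD (dec w).1 ⟨0⟩).val) :=
    (PTime.getD (PTime.fst.comp hdec) (PTime.snd.comp hdec) (PTime.const (⟨0⟩ : Big))).of_eq
      fun w => rfl
  have h2 : PB (fun w : List Bool => ((dec w).1)!) :=
    arith.fact (List Bool) _ _ (PTime.fst.comp hdec)
  have h3 := arith.div (List Bool) _ _ _ h1 h2
  exact ptime_bits h3

theorem p_v8 : S_v8 := by
  intro U hU
  obtain ⟨dec, hdec, hq⟩ := p_dc
  have m := p_m2 (fun n => n ! * U n) Polynomial.X _ hU (p_m1 _ (v8_ptime dec hdec))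
  have key : (fun n : ℕ => (((dec (query n ((List.range (Polynomial.X.eval n + 1)).map
      (fun n => n ! * U n)))).2.getD (dec (query n ((List.range (Polynomial.X.eval n + 1)).map
      (fun n => n ! * U n)))).1 ⟨0⟩).val / ((dec (query n ((List.range
      (Polynomial.X.eval n + 1)).map (fun n => n ! * U n)))).1)!).bits) =
      fun n => Nat.bits (U n) := by
    funext n
    rw [hq, Polynomial.eval_X]
    have h : (((List.range (n + 1)).map (fun n => n ! * U n)).map (fun v => (⟨v⟩ : Big))).getD n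
        ⟨0⟩ = ⟨n ! * U n⟩ := by
      rw [List.map_map, List.getD_eq_getElem?_getD, List.getElem?_map,
        List.getElem?_range (Nat.lt_succ_self n)]
      rfl
    show Nat.bits ((((((List.range (n + 1)).map (fun n => n ! * U n)).map
      (fun v => (⟨v⟩ : Big))).getD n ⟨0⟩).val) / n !) = Nat.bits (U n)
    rw [h, Nat.mul_div_cancel_left _ (Nat.factorial_pos n)]
  rw [key] at m
  obtain ⟨M⟩ := m
  exact ⟨{ toTM2ComputableAux := M.toTM2ComputableAux, time := M.time,
           outputsFun := M.outputsFun }⟩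

end Pool.Agent.Lib.MP_4b91fc_lc.GH
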