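import Pool.Agent.Lib.MP_4b91fc_lc.GH.Stm2

set_option autoImplicit false

/-! Sums of greatest common divisors with pairwise coprime numbers. -/

namespace Pool.Agent.Lib.MP_4b91fc_lc.GH

open Finset

private theorem w1_gp {g P : ℕ} (hg : 1 ≤ g) (hP : 1 ≤ P) : g + P ≤ 1 + g * P := by
  obtain ⟨a, rfl⟩ := Nat.exists_eq_add_of_le hg
  obtain ⟨b, rfl⟩ := Nat.exists_eq_add_of_le hP
  nlinarith [Nat.zero_le (a * b)]

private theorem w1_ind (x : ℕ) (hx : 0 < x) (Y : Finset ℕ) :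
    (∀ a ∈ Y, ∀ b ∈ Y, a ≠ b → Nat.Coprime a b) →
    (∏ y ∈ Y, Nat.gcd x y) ∣ x ∧ 1 ≤ ∏ y ∈ Y, Nat.gcd x y ∧
      ∑ y ∈ Y, Nat.gcd x y + 1 ≤ Y.card + ∏ y ∈ Y, Nat.gcd x y := by
  classical
  induction Y using Finset.induction_on with
  | empty => intro _; simp
  | insert y Y hy ih =>
    intro h
    obtain ⟨h1, h2, h3⟩ := ih fun a ha b hb => h a (mem_insert_of_mem ha) b (mem_insert_of_mem hb)
    have hg : 1 ≤ Nat.gcd x y := Nat.gcd_pos_of_pos_left y hx
    rw [prod_insert hy, sum_insert hy, card_insert_of_notMem hy]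
    refine ⟨?_, ?_, ?_⟩
    · apply Nat.Coprime.mul_dvd_of_dvd_of_dvd _ (Nat.gcd_dvd_left x y) h1
      apply Nat.Coprime.prod_right
      intro b hb
      have hc : Nat.Coprime y b := h y (mem_insert_self y Y) b (mem_insert_of_mem hb)
        fun he => hy (he ▸ hb)
      exact Nat.Coprime.coprime_dvd_left (Nat.gcd_dvd_right x y)
        (Nat.Coprime.coprime_dvd_right (Nat.gcd_dvd_right x b) hc)
    · exact Nat.one_le_iff_ne_zero.mpr (Nat.mul_ne_zero (by omega) (by omega))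
    · have := w1_gp hg h2
      omega

private theorem w1_one (x : ℕ) (hx : 2 ≤ x) (Y : Finset ℕ) (hY : PCs Y) :
    ∑ y ∈ Y, Nat.gcd x y + 1 ≤ Y.card + x ∧
      (∑ y ∈ Y, Nat.gcd x y + 1 = Y.card + x ↔ ∃ y ∈ Y, x ∣ y) := by
  classical
  obtain ⟨h1, h2, h3⟩ := w1_ind x (by omega) Y hY.2
  have h4 : ∏ y ∈ Y, Nat.gcd x y ≤ x := Nat.le_of_dvd (by omega) h1
  refine ⟨by omega, ?_, ?_⟩
  · intro he
    by_contra hne
    push Not at hne
    have hg : ∀ y ∈ Y, Nat.gcd x y < x := fun y hy =>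
      lt_of_le_of_ne (Nat.le_of_dvd (by omega) (Nat.gcd_dvd_left x y))
        fun h => hne y hy (Nat.gcd_eq_left_iff_dvd.mp h)
    by_cases hex : ∃ y ∈ Y, 1 < Nat.gcd x y
    · obtain ⟨y, hy, hy1⟩ := hex
      obtain ⟨k1, k2, k3⟩ := w1_ind x (by omega) (Y.erase y) fun a ha b hb =>
        hY.2 a (mem_of_mem_erase ha) b (mem_of_mem_erase hb)
      have k4 : Nat.gcd x y + ∑ y ∈ Y.erase y, Nat.gcd x y = ∑ y ∈ Y, Nat.gcd x y :=
        add_sum_erase Y (fun z => Nat.gcd x z) hy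
      have k5 : Nat.gcd x y * ∏ y ∈ Y.erase y, Nat.gcd x y = ∏ y ∈ Y, Nat.gcd x y :=
        mul_prod_erase Y (fun z => Nat.gcd x z) hy
      have k6 : (Y.erase y).card + 1 = Y.card := card_erase_add_one hy
      rcases Nat.eq_or_lt_of_le k2 with hP | hP
      · have := hg y hy
        omega
      · have k7 : Nat.gcd x y + ∏ y ∈ Y.erase y, Nat.gcd x y <
            1 + Nat.gcd x y * ∏ y ∈ Y.erase y, Nat.gcd x y := by
          generalize Nat.gcd x y = a at hy1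
          generalize ∏ y ∈ Y.erase y, Nat.gcd x y = b at hP
          obtain ⟨c, rfl⟩ := Nat.exists_eq_add_of_lt hy1
          obtain ⟨d, rfl⟩ := Nat.exists_eq_add_of_lt hP
          nlinarith [Nat.zero_le (c * d)]
        omega
    · push Not at hex
      have k1 : ∑ y ∈ Y, Nat.gcd x y ≤ ∑ y ∈ Y, 1 := sum_le_sum hex
      rw [sum_const, smul_eq_mul, mul_one] at k1
      omega
  · rintro ⟨y, hy, hxy⟩
    have k4 : Nat.gcd x y + ∑ y ∈ Y.erase y, Nat.gcd x y = ∑ y ∈ Y, Nat.gcd x y :=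
      add_sum_erase Y (fun z => Nat.gcd x z) hy
    have k6 : (Y.erase y).card + 1 = Y.card := card_erase_add_one hy
    have k5 : ∑ z ∈ Y.erase y, Nat.gcd x z = ∑ z ∈ Y.erase y, 1 := by
      refine sum_congr rfl fun z hz => ?_
      have hc : Nat.Coprime y z := hY.2 y hy z (mem_of_mem_erase hz)
        (fun he => (ne_of_mem_erase hz) he.symm)
      exact Nat.Coprime.coprime_dvd_left hxy hc
    rw [sum_const, smul_eq_mul, mul_one] at k5
    have k7 : Nat.gcd x y = x := Nat.gcd_eq_left hxy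
    omega

theorem p_w1 : S_w1 := by
  intro X Y hX hY
  have h1 : qs X Y + X.card = ∑ x ∈ X, (∑ y ∈ Y, Nat.gcd x y + 1) := by
    rw [sum_add_distrib, sum_const, smul_eq_mul, mul_one, qs]
  have h2 : X.card * Y.card + ∑ x ∈ X, x = ∑ x ∈ X, (Y.card + x) := by
    rw [sum_add_distrib, sum_const, smul_eq_mul]
  rw [h1, h2]
  have h3 : ∀ x ∈ X, ∑ y ∈ Y, Nat.gcd x y + 1 ≤ Y.card + x := fun x hx =>
    (w1_one x (hX x hx) Y hY).1
  refine ⟨sum_le_sum h3, ?_⟩
  rw [sum_eq_sum_iff_of_le h3]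
  constructor
  · intro h x hx
    exact (w1_one x (hX x hx) Y hY).2.mp (h x hx)
  · intro h x hx
    exact (w1_one x (hX x hx) Y hY).2.mpr (h x hx)

end Pool.Agent.Lib.MP_4b91fc_lc.GH
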