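import Pool.Agent.Lib.MP_4b91fc_lc.GH.Stm2

set_option autoImplicit false

/-!
# MP_4b91fc_lc, [GH w2]: sums of greatest common divisors, the coprimality inequality
-/

namespace Pool.Agent.Lib.MP_4b91fc_lc.GH

open Finset

theorem p_w2 : S_w2 := by
  intro X Y hX
  have hc : X.card * Y.card = ∑ _x ∈ X, ∑ _y ∈ Y, 1 := by
    simp
  have h1 : ∀ x ∈ X, ∀ y ∈ Y, 1 ≤ Nat.gcd x y := fun x hx y _ =>
    Nat.gcd_pos_of_pos_left y (hX x hx)
  have h2 : ∀ x ∈ X, ∑ _y ∈ Y, 1 ≤ ∑ y ∈ Y, Nat.gcd x y := fun x hx =>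
    Finset.sum_le_sum (h1 x hx)
  refine ⟨?_, ?_⟩
  · rw [hc]
    exact Finset.sum_le_sum h2
  · rw [hc, eq_comm]
    unfold qs Cop
    rw [Finset.sum_eq_sum_iff_of_le h2]
    refine forall₂_congr fun x hx => ?_
    rw [Finset.sum_eq_sum_iff_of_le (h1 x hx)]
    refine forall₂_congr fun y _ => ?_
    rw [eq_comm]

end Pool.Agent.Lib.MP_4b91fc_lc.GH
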