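import Pool.Agent.Lib.MP_4b91fc_lc.GH.Stm2

set_option autoImplicit false

/-!
# `#GRAPHS` is hard for `#P_1`: piece w3 (the diagonal inequality)
-/

namespace Pool.Agent.Lib.MP_4b91fc_lc.GH

open Finset

open scoped Nat

private theorem w3_gs_cons (k a : ℕ) (μ : Multiset ℕ) :
    gs k (a ::ₘ μ) = Nat.gcd k a + gs k μ := by
  unfold gs
  rw [Multiset.map_cons, Multiset.sum_cons]

private theorem w3_gs (a : ℕ) (μ : Multiset ℕ) : (∀ x ∈ μ, 2 ≤ x) →
    μ.card ≤ gs a μ ∧ (gs a μ = μ.card ↔ ∀ x ∈ μ, Nat.Coprime a x) := by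
  induction μ using Multiset.induction with
  | empty => intro _; simp [gs]
  | cons b μ ih =>
    intro h
    obtain ⟨h1, h2⟩ := ih (fun x hx => h x (Multiset.mem_cons_of_mem hx))
    have h3 : 1 ≤ Nat.gcd a b :=
      Nat.gcd_pos_of_pos_right a (by have := h b (Multiset.mem_cons_self b μ); omega)
    rw [w3_gs_cons, Multiset.card_cons]
    refine ⟨by omega, ?_⟩
    constructor
    · intro h4
      have h5 : Nat.gcd a b = 1 := by omega
      have h6 : gs a μ = μ.card := by omega
      intro x hx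
      rcases Multiset.mem_cons.1 hx with rfl | hx
      · exact h5
      · exact h2.1 h6 x hx
    · intro h4
      have h5 : Nat.gcd a b = 1 := h4 b (Multiset.mem_cons_self b μ)
      have h6 := h2.2 (fun x hx => h4 x (Multiset.mem_cons_of_mem hx))
      omega

private theorem w3_sum (a : ℕ) (μ : Multiset ℕ) (ν : Multiset ℕ) :
    (μ.map (fun x => gs x (a ::ₘ ν))).sum = gs a μ + (μ.map (fun x => gs x ν)).sum := by
  induction μ using Multiset.induction with
  | empty => simp [gs]
  | cons b μ ih =>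
    rw [Multiset.map_cons, Multiset.sum_cons, Multiset.map_cons, Multiset.sum_cons, ih,
      w3_gs_cons, w3_gs_cons, Nat.gcd_comm b a]
    ring

private theorem w3_qq (a : ℕ) (μ : Multiset ℕ) :
    qq (a ::ₘ μ) (a ::ₘ μ) = a + 2 * gs a μ + qq μ μ := by
  unfold qq
  rw [Multiset.map_cons, Multiset.sum_cons, w3_sum, w3_gs_cons, Nat.gcd_self]
  ring

private theorem w3_iff (a : ℕ) (ha : 2 ≤ a) (μ : Multiset ℕ) :
    (∃ X : Finset ℕ, PCs X ∧ a ::ₘ μ = X.val) ↔
      (∃ X : Finset ℕ, PCs X ∧ μ = X.val) ∧ ∀ x ∈ μ, Nat.Coprime a x := by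
  constructor
  · rintro ⟨X, hX, h⟩
    have hn : (a ::ₘ μ).Nodup := by
      rw [h]
      exact X.nodup
    obtain ⟨hn1, hn2⟩ := Multiset.nodup_cons.1 hn
    have haX : a ∈ X := by
      rw [← Finset.mem_val, ← h]
      exact Multiset.mem_cons_self a μ
    have hsub : ∀ x ∈ μ, x ∈ X := fun x hx => by
      rw [← Finset.mem_val, ← h]
      exact Multiset.mem_cons_of_mem hx
    refine ⟨⟨⟨μ, hn2⟩, ⟨fun x hx => hX.1 x (hsub x hx), fun x hx y hy hxy =>
      hX.2 x (hsub x hx) y (hsub y hy) hxy⟩, rfl⟩, fun x hx => ?_⟩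
    refine hX.2 a haX x (hsub x hx) ?_
    rintro rfl
    exact hn1 hx
  · rintro ⟨⟨X, hX, rfl⟩, h⟩
    have haX : a ∉ X := by
      intro hm
      have h1 := h a hm
      rw [Nat.coprime_self] at h1
      omega
    refine ⟨insert a X, ⟨?_, ?_⟩, (Finset.insert_val_of_notMem haX).symm⟩
    · intro x hx
      rcases Finset.mem_insert.1 hx with rfl | hx
      · exact ha
      · exact hX.1 x hx
    · intro x hx y hy hxy
      rcases Finset.mem_insert.1 hx with h1 | h1
      · rcases Finset.mem_insert.1 hy with h2 | h2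
        · exact absurd (h1.trans h2.symm) hxy
        · rw [h1]
          exact h y h2
      · rcases Finset.mem_insert.1 hy with h2 | h2
        · rw [h2]
          exact (h x h1).symm
        · exact hX.2 x h1 y h2 hxy

theorem p_w3 : S_w3 := by
  intro μ
  induction μ using Multiset.induction with
  | empty =>
    intro _
    refine ⟨by simp, ?_⟩
    constructor
    · intro _
      exact ⟨∅, ⟨by simp, by simp⟩, rfl⟩
    · intro _
      simp [qq]
  | cons a μ ih =>
    intro h
    have ha : 2 ≤ a := h a (Multiset.mem_cons_self a μ)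
    have hμ : ∀ x ∈ μ, 2 ≤ x := fun x hx => h x (Multiset.mem_cons_of_mem hx)
    obtain ⟨h1, h2⟩ := ih hμ
    obtain ⟨h3, h4⟩ := w3_gs a μ hμ
    rw [w3_iff a ha μ, ← h2, ← h4, w3_qq, Multiset.sum_cons, Multiset.card_cons]
    have h5 : (μ.card + 1) * (μ.card + 1 - 1) = μ.card * (μ.card - 1) + 2 * μ.card := by
      rcases Nat.eq_zero_or_pos μ.card with h0 | h0
      · rw [h0]
      · obtain ⟨c, hc⟩ : ∃ c, μ.card = c + 1 := ⟨μ.card - 1, by omega⟩
        rw [hc]
        simp only [Nat.add_sub_cancel]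
        ring
    rw [h5]
    constructor
    · omega
    · constructor
      · intro h6
        constructor <;> omega
      · rintro ⟨h6, h7⟩
        omega

end Pool.Agent.Lib.MP_4b91fc_lc.GH
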