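import Pool.Agent.Lib.MP_4b91fc_lc.GH.Stm3

set_option autoImplicit false

/-!
# Piece [wi]: windows with many primes
-/

namespace Pool.Agent.Lib.MP_4b91fc_lc.GH

open Finset Pool.Agent.PolyTime

open scoped Nat

private theorem wi_poly (c : Polynomial ℕ) (n : ℕ) :
    c.eval n ≤ (∑ i ∈ range (c.natDegree + 1), c.coeff i) * (n + 1) ^ c.natDegree := by
  rw [Polynomial.eval_eq_sum_range, Finset.sum_mul]
  refine Finset.sum_le_sum fun i hi => ?_
  rw [Finset.mem_range] at hi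
  refine Nat.mul_le_mul_left _ ?_
  calc n ^ i ≤ (n + 1) ^ i := Nat.pow_le_pow_left (by omega) _
    _ ≤ (n + 1) ^ c.natDegree := Nat.pow_le_pow_right (by omega) (by omega)

private theorem wi_exp (C d : ℕ) : ∃ t0 : ℕ, ∀ t, t0 ≤ t → C * (2 * t + 1) ^ d < 2 ^ t := by
  have h1 : Filter.Tendsto (fun n : ℕ => (C : ℝ) * 3 ^ d * ((n : ℝ) ^ d / 2 ^ n)) Filter.atTop
      (nhds ((C : ℝ) * 3 ^ d * 0)) :=
    (tendsto_pow_const_div_const_pow_of_one_lt d (by norm_num : (1 : ℝ) < 2)).const_mul _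
  rw [mul_zero] at h1
  have h2 := (h1.eventually (gt_mem_nhds (zero_lt_one))).and (Filter.eventually_ge_atTop 1)
  obtain ⟨t0, ht0⟩ := Filter.eventually_atTop.1 h2
  refine ⟨t0, fun t ht => ?_⟩
  obtain ⟨h3, h4⟩ := ht0 t ht
  have h5 : (0 : ℝ) < 2 ^ t := by positivity
  have h6 : (C : ℝ) * 3 ^ d * (t : ℝ) ^ d < 2 ^ t := by
    rw [← mul_div_assoc, div_lt_one h5] at h3
    exact h3
  have h7 : C * 3 ^ d * t ^ d < 2 ^ t := by exact_mod_cast h6
  calc C * (2 * t + 1) ^ d ≤ C * (3 * t) ^ d :=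
        Nat.mul_le_mul_left _ (Nat.pow_le_pow_left (by omega) _)
    _ = C * 3 ^ d * t ^ d := by rw [mul_pow, mul_assoc]
    _ < 2 ^ t := h7

theorem p_wi : S_wi := by
  intro hch hpb
  obtain ⟨c, hc⟩ := hch
  obtain ⟨hprime, hmono, -⟩ := hpb
  set d := c.natDegree with hd
  set C := ∑ i ∈ range (c.natDegree + 1), c.coeff i with hC
  obtain ⟨t0, ht0⟩ := wi_exp C d
  -- the main estimate
  have key : ∀ L K : ℕ, ∃ j < 2 * (t0 + d * (L + K + 1)),
      L ≤ pr (L + j * (K + 1)) ∧ pr (L + j * (K + 1) + K) < 2 * pr (L + j * (K + 1)) := by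
    intro L K
    by_contra hcon
    push Not at hcon
    set s := L + K with hs
    set t := t0 + d * (s + 1) with ht
    have hle : ∀ i, i ≤ pr i := fun i => hmono.le_apply
    have h1 : ∀ j, j ≤ 2 * t → 2 ^ j ≤ pr (L + j * (K + 1)) := by
      intro j
      induction j with
      | zero =>
        intro _
        rw [pow_zero]
        exact (hprime _).one_lt.le
      | succ j ih =>
        intro hj
        have h2 := ih (by omega)
        have h3 := hcon j (by omega) ((by omega : L ≤ L + j * (K + 1)).trans (hle _))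
        have h4 : pr (L + j * (K + 1) + K) ≤ pr (L + (j + 1) * (K + 1)) := by
          refine hmono.monotone ?_
          rw [add_mul, one_mul]
          omega
        rw [pow_succ]
        omega
    have h2 := h1 (2 * t) le_rfl
    have h3 := (hc (L + 2 * t * (K + 1))).trans (wi_poly c _)
    have h4 : L + 2 * t * (K + 1) + 1 ≤ (s + 1) * (2 * t + 1) := by
      rw [hs]
      nlinarith [Nat.zero_le (t * L), Nat.zero_le K]
    have h5 : (s + 1) ^ d ≤ 2 ^ t := by
      calc (s + 1) ^ d ≤ (2 ^ (s + 1)) ^ d := Nat.pow_le_pow_left Nat.lt_two_pow_self.le _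
        _ = 2 ^ (d * (s + 1)) := by rw [← pow_mul, mul_comm]
        _ ≤ 2 ^ t := Nat.pow_le_pow_right (by norm_num) (by omega)
    have h6 : C * (2 * t + 1) ^ d < 2 ^ t := ht0 t (by omega)
    have h7 : C * (L + 2 * t * (K + 1) + 1) ^ d < 2 ^ (2 * t) := by
      calc C * (L + 2 * t * (K + 1) + 1) ^ d ≤ C * ((s + 1) * (2 * t + 1)) ^ d :=
            Nat.mul_le_mul_left _ (Nat.pow_le_pow_left h4 _)
        _ = (s + 1) ^ d * (C * (2 * t + 1) ^ d) := by rw [mul_pow]; ring
        _ ≤ 2 ^ t * (C * (2 * t + 1) ^ d) := Nat.mul_le_mul_right _ h5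
        _ < 2 ^ t * 2 ^ t := Nat.mul_lt_mul_of_pos_left h6 (by positivity)
        _ = 2 ^ (2 * t) := by rw [← pow_add, two_mul]
    exact absurd (h2.trans h3) (not_le.2 h7)
  refine ⟨fun L K => ?_, ?_⟩
  · obtain ⟨j, -, h1, h2⟩ := key L K
    have h3 : {i | L ≤ pr i ∧ pr (i + K) < 2 * pr i}.Nonempty := ⟨_, h1, h2⟩
    exact Nat.sInf_mem h3
  · refine ⟨Polynomial.X + Polynomial.C 2 * (Polynomial.C t0 + Polynomial.C d *
      (Polynomial.X + 1)) * (Polynomial.X + 1), fun L K => ?_⟩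
    obtain ⟨j, hj, h1, h2⟩ := key L K
    have h3 : win L K ≤ L + j * (K + 1) := Nat.sInf_le ⟨h1, h2⟩
    refine h3.trans ?_
    simp only [Polynomial.eval_add, Polynomial.eval_mul, Polynomial.eval_X, Polynomial.eval_C,
      Polynomial.eval_one]
    have h4 : j * (K + 1) ≤ 2 * (t0 + d * (L + K + 1)) * (L + K + 1) :=
      Nat.mul_le_mul hj.le (by omega)
    omega

end Pool.Agent.Lib.MP_4b91fc_lc.GH
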