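import Pool.Agent.Lib.MP_4b91fc_lc.GH.Stm3

set_option autoImplicit false

/-! The weight of a tuple of sets. -/

namespace Pool.Agent.Lib.MP_4b91fc_lc.GH

open Finset

open scoped Nat

private theorem wx_dvd (h : S_zee) (B : ℕ) (X : Finset ℕ) (hX : PCs X)
    (hs : ∑ x ∈ X, x ≤ B) : (∏ x ∈ X, x) ∣ B ! := by
  have h0 : (0 : ℕ) ∉ X.val := by
    intro h0
    have := hX.1 0 h0
    omega
  have h1 := h.2.1 X.val h0
  have h2 := h.2.2.2.2 X.val X.nodup
  rw [h2] at h1
  have e1 : X.val.prod = ∏ x ∈ X, x := by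
    rw [Finset.prod_val]
    rfl
  have e2 : X.val.sum = ∑ x ∈ X, x := by
    rw [Finset.sum_val]
    rfl
  rw [e1, e2] at h1
  exact h1.trans (Nat.factorial_dvd_factorial hs)

theorem p_wx : S_wx := by
  intro h m B X hX hs
  unfold wtX
  rw [← Finset.prod_mul_distrib]
  have h1 : ∀ i ∈ (univ : Finset (Fin m)),
      B ! / (∏ x ∈ X i, x) * (∏ x ∈ X i, x) = B ! := fun i _ =>
    Nat.div_mul_cancel (wx_dvd h B (X i) (hX i) (hs i))
  rw [Finset.prod_congr rfl h1, Finset.prod_const, Finset.card_univ, Fintype.card_fin]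

end Pool.Agent.Lib.MP_4b91fc_lc.GH
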