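import Pool.Agent.Lib.MP_4b91fc_lc.GH.Stm3

set_option autoImplicit false

/-!
# [xc] the sets of the letters
-/

namespace Pool.Agent.Lib.MP_4b91fc_lc.GH

open Finset

theorem xc_sub {X Y : Finset ℕ} (h : X ⊆ Y) (hY : PCs Y) : PCs X :=
  ⟨fun x hx => hY.1 x (h hx), fun x hx y hy => hY.2 x (h hx) y (h hy)⟩

theorem xc_sum {A : Type} [Fintype A] [DecidableEq A] {M : ℕ} (f : Fin M → A) (g : Fin M → ℕ)
    (hg : Function.Injective g) :
    ∑ a, ∑ x ∈ (univ.filter (fun k => f k = a)).image g, x = ∑ k, g k := by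
  have h1 : ∀ a, ∑ x ∈ (univ.filter (fun k => f k = a)).image g, x
      = ∑ k ∈ univ.filter (fun k => f k = a), g k := fun a =>
    Finset.sum_image (fun x _ y _ h => hg h)
  rw [Finset.sum_congr rfl fun a _ => h1 a]
  exact Finset.sum_fiberwise univ f g

theorem xc_prod {A : Type} [Fintype A] [DecidableEq A] {M : ℕ} (f : Fin M → A) (g : Fin M → ℕ)
    (hg : Function.Injective g) :
    ∏ a, ∏ x ∈ (univ.filter (fun k => f k = a)).image g, x = ∏ k, g k := by
  have h1 : ∀ a, ∏ x ∈ (univ.filter (fun k => f k = a)).image g, x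
      = ∏ k ∈ univ.filter (fun k => f k = a), g k := fun a =>
    Finset.prod_image (fun x _ y _ h => hg h)
  rw [Finset.prod_congr rfl fun a _ => h1 a]
  exact Finset.prod_fiberwise univ f g

theorem xc_rs (M : ℕ) (h : ℕ → ℕ) : ∑ k : Fin M, h (M - 1 - (k : ℕ)) = ∑ k ∈ range M, h k := by
  rw [Fin.sum_univ_eq_sum_range (fun k => h (M - 1 - k)) M]
  exact Finset.sum_range_reflect h M

theorem xc_rp (M : ℕ) (h : ℕ → ℕ) : ∏ k : Fin M, h (M - 1 - (k : ℕ)) = ∏ k ∈ range M, h k := by
  rw [Fin.prod_univ_eq_prod_range (fun k => h (M - 1 - k)) M]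
  exact Finset.prod_range_reflect h M

theorem xc_card {A : Type} [Fintype A] [DecidableEq A] {M : ℕ} (f : Fin M → A) :
    ∑ a, (univ.filter (fun k => f k = a)).card = M := by
  have h := Finset.card_eq_sum_card_fiberwise (f := f) (s := univ) (t := univ)
    (fun x _ => Finset.mem_coe.2 (Finset.mem_univ _))
  rw [Finset.card_univ, Fintype.card_fin] at h
  exact h.symm

theorem xc_le (hpb : S_pb) (P : WP) (p : Par P.r P.b) (hp : p.Good) : p.iC + p.M ≤ p.iD := by
  obtain ⟨-, hmono, -⟩ := hpb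
  by_contra hc
  push Not at hc
  have h1 : p.iD ≤ p.iC + (p.M - 1) := by have := hp.M_pos; omega
  have h2 : pr p.iD ≤ pr (p.iC + (p.M - 1)) := hmono.monotone h1
  have h3 := hp.winC (p.M - 1) (by have := hp.M_pos; omega)
  have h4 := hp.lowD
  have h5 : pr p.iC ≤ p.M * pr p.iC := Nat.le_mul_of_pos_left _ hp.M_pos
  have h6 : 4 * p.M * pr p.iC = 4 * (p.M * pr p.iC) := by ring
  omega

theorem p_xc : S_xc := by
  intro hpb P p hp f
  have hle := xc_le hpb P p hp
  obtain ⟨hprime, hmono, -, hps, hzs, -, -⟩ := hpb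
  have hinj := hmono.injective
  have gC : Function.Injective (fun k : Fin p.M => pr (p.iC + (p.M - 1 - (k : ℕ)))) := by
    intro k l h
    have h1 := hinj h
    have := k.2
    have := l.2
    exact Fin.ext (by omega)
  have gD : Function.Injective (fun k : Fin p.M => pr (p.iD + (k : ℕ))) := by
    intro k l h
    have h1 := hinj h
    exact Fin.ext (by omega)
  have gZ : ∀ o, Function.Injective (fun k : Fin p.M =>
      pr (p.iC + (p.M - 1 - (k : ℕ))) * pr (p.iD + p.sh o + (k : ℕ))) := by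
    intro o k l h
    have h1 := (hzs p.iC (p.iD + p.sh o) p.M (by omega)).2.1
    have h2 : Set.InjOn (fun k => pr (p.iC + (p.M - 1 - k)) * pr (p.iD + p.sh o + k))
        (range p.M : Finset ℕ) := by
      apply Finset.card_image_iff.1
      rw [card_range]
      exact h1
    exact Fin.ext (h2 (Finset.mem_coe.2 (Finset.mem_range.2 k.2))
      (Finset.mem_coe.2 (Finset.mem_range.2 l.2)) h)
  have sC : ∀ a, XX P p f (.Ca a) ⊆ pset p.iC p.M := by
    intro a x hx
    simp only [XX, Finset.mem_image, Finset.mem_filter, Finset.mem_univ, true_and] at hx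
    obtain ⟨k, -, rfl⟩ := hx
    have := k.2
    exact Finset.mem_image.2 ⟨p.M - 1 - (k : ℕ), Finset.mem_range.2 (by omega), rfl⟩
  have sD : ∀ a, XX P p f (.Da a) ⊆ pset p.iD p.M := by
    intro a x hx
    simp only [XX, Finset.mem_image, Finset.mem_filter, Finset.mem_univ, true_and] at hx
    obtain ⟨k, -, rfl⟩ := hx
    exact Finset.mem_image.2 ⟨(k : ℕ), Finset.mem_range.2 k.2, rfl⟩
  have sZ : ∀ o a, XX P p f (.Za o a) ⊆ zset p.iC (p.iD + p.sh o) p.M := by
    intro o a x hx
    simp only [XX, Finset.mem_image, Finset.mem_filter, Finset.mem_univ, true_and] at hx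
    obtain ⟨k, -, rfl⟩ := hx
    exact Finset.mem_image.2 ⟨(k : ℕ), Finset.mem_range.2 k.2, rfl⟩
  refine ⟨?_, ?_, ?_, ?_, ?_, ?_, ?_, ?_, ?_, ?_, ?_⟩
  · intro t
    cases t with
    | Pt => exact (hps _ _).1
    | Pt' => exact (hps _ _).1
    | Pc => exact (hps _ _).1
    | C => exact (hps _ _).1
    | P o => exact (hps _ _).1
    | D o => exact (hps _ _).1
    | Z o => exact (hzs _ _ _ (by omega)).1
    | Z' o => exact (hzs _ _ _ (by omega)).1
    | PI j => exact (hps _ _).1
    | I j => exact (hps _ _).1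
    | Ca a => exact xc_sub (sC a) (hps _ _).1
    | Da a => exact xc_sub (sD a) (hps _ _).1
    | Za o a => exact xc_sub (sZ o a) (hzs _ _ _ (by omega)).1
  · intro a
    exact Finset.card_image_of_injective _ gC
  · intro a
    exact Finset.card_image_of_injective _ gD
  · intro o a
    exact Finset.card_image_of_injective _ (gZ o)
  · exact xc_card f
  · refine (xc_sum f _ gC).trans ?_
    exact xc_rs p.M (fun k => pr (p.iC + k))
  · refine (xc_sum f _ gD).trans ?_
    exact Fin.sum_univ_eq_sum_range (fun k => pr (p.iD + k)) p.M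
  · intro o
    refine (xc_sum f _ (gZ o)).trans ?_
    exact Fin.sum_univ_eq_sum_range
      (fun k => pr (p.iC + (p.M - 1 - k)) * pr (p.iD + p.sh o + k)) p.M
  · refine (xc_prod f _ gC).trans ?_
    exact xc_rp p.M (fun k => pr (p.iC + k))
  · refine (xc_prod f _ gD).trans ?_
    exact Fin.prod_univ_eq_prod_range (fun k => pr (p.iD + k)) p.M
  · intro o
    refine (xc_prod f _ (gZ o)).trans ?_
    rw [Finset.prod_mul_distrib]
    rw [xc_rp p.M (fun k => pr (p.iC + k)),
      Fin.prod_univ_eq_prod_range (fun k => pr (p.iD + p.sh o + k)) p.M]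
    rfl

end Pool.Agent.Lib.MP_4b91fc_lc.GH
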