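import Pool.Agent.Lib.MP_4b91fc_lc.GH.Stm3

set_option autoImplicit false

/-! The matching of smallest sum. -/

namespace Pool.Agent.Lib.MP_4b91fc_lc.GH

open Finset

private theorem zz_dvd2 {a b z : ℕ} (ha : a.Prime) (hb : b.Prime) (hab : a ≠ b) (h1 : a ∣ z)
    (h2 : b ∣ z) : a * b ∣ z :=
  Nat.Coprime.mul_dvd_of_dvd_of_dvd ((Nat.coprime_primes ha hb).mpr hab) h1 h2

private theorem zz_perm {M : ℕ} (σ : Equiv.Perm (Fin M)) (h : ∀ a b, σ a < σ b → a < b) :
    ∀ a, σ a = a := by
  have h1 : StrictMono σ := by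
    intro a b hab
    rcases lt_trichotomy (σ a) (σ b) with h2 | h2 | h2
    · exact h2
    · exact absurd (σ.injective h2) (ne_of_lt hab)
    · exact absurd (h b a h2) (not_lt.mpr hab.le)
  have h2 : StrictMono σ.symm := by
    intro a b hab
    apply h
    simpa using hab
  intro a
  apply le_antisymm
  · have := h2.le_apply (x := σ a)
    simpa using this
  · exact h1.le_apply

private theorem zz_fin {M : ℕ} (hM : 0 < M) (c d : Fin M → ℕ) (x y : ℕ) (Z : Finset ℕ)
    (hc : ∀ k, (c k).Prime) (hd : ∀ k, (d k).Prime) (hcm : ∀ k l, k < l → c l < c k)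
    (hdm : ∀ k l, k < l → d k < d l) (hx : 4 * M ≤ x) (hy : 4 * M * x ≤ y)
    (hc1 : ∀ k, x ≤ c k ∧ c k < 2 * x) (hd1 : ∀ k, y ≤ d k ∧ d k < 2 * y)
    (hZ : PCs Z) (hcard : Z.card = M) (hsum : ∑ z ∈ Z, z = ∑ k, c k * d k)
    (hC : ∀ k, ∃ z ∈ Z, c k ∣ z) (hD : ∀ k, ∃ z ∈ Z, d k ∣ z) :
    Z = univ.image fun k => c k * d k := by
  classical
  have hx0 : 0 < x := by omega
  have hxy : 2 * x ≤ y := by
    calc 2 * x ≤ 4 * M * x := Nat.mul_le_mul_right x (by omega)
      _ ≤ y := hy
  have hy0 : 0 < y := by omega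
  have hcd : ∀ k l, c k ≠ d l := fun k l he => by
    have := (hc1 k).2
    have := (hd1 l).1
    omega
  have hcinj : ∀ k l, k ≠ l → c k ≠ c l := by
    intro k l hkl
    rcases lt_or_gt_of_ne hkl with h | h
    · exact (hcm k l h).ne'
    · exact (hcm l k h).ne
  have hdinj : ∀ k l, k ≠ l → d k ≠ d l := by
    intro k l hkl
    rcases lt_or_gt_of_ne hkl with h | h
    · exact (hdm k l h).ne
    · exact (hdm l k h).ne'
  have hlt : ∀ z ∈ Z, z < 4 * M * x * y := by
    intro z hz
    have h1 : z ≤ ∑ z ∈ Z, z := single_le_sum (f := fun z => z) (fun _ _ => Nat.zero_le _) hz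
    have h2 : ∑ k, c k * d k < ∑ _k : Fin M, (2 * x) * (2 * y) := by
      apply sum_lt_sum_of_nonempty
      · exact ⟨⟨0, hM⟩, mem_univ _⟩
      · intro k _
        exact Nat.mul_lt_mul'' (hc1 k).2 (hd1 k).2
    rw [sum_const, card_univ, Fintype.card_fin, smul_eq_mul] at h2
    calc z ≤ ∑ k, c k * d k := by rw [← hsum]; exact h1
      _ < M * (2 * x * (2 * y)) := h2
      _ = 4 * M * x * y := by ring
  have hpos : ∀ z ∈ Z, 0 < z := fun z hz => by
    have := hZ.1 z hz
    omega
  choose f hfZ hf using hC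
  choose g hgZ hg using hD
  have hginj : Function.Injective g := by
    intro k l he
    by_contra hne
    have h1 : d k * d l ∣ g k := zz_dvd2 (hd k) (hd l) (hdinj k l hne) (hg k) (he ▸ hg l)
    have h2 := Nat.le_of_dvd (hpos _ (hgZ k)) h1
    have h3 : y * y ≤ d k * d l := Nat.mul_le_mul (hd1 k).1 (hd1 l).1
    have h4 := hlt _ (hgZ k)
    have h5 : 4 * M * x * y ≤ y * y := Nat.mul_le_mul_right y hy
    omega
  have hgim : Z = univ.image g := by
    symm
    apply eq_of_subset_of_card_le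
    · intro z hz
      obtain ⟨k, -, rfl⟩ := mem_image.mp hz
      exact hgZ k
    · rw [card_image_of_injective _ hginj, card_univ, Fintype.card_fin, hcard]
  have hfinj : Function.Injective f := by
    intro k l he
    by_contra hne
    obtain ⟨m, -, hm⟩ := mem_image.mp (hgim ▸ hfZ k)
    have h1 : c k * c l ∣ f k := zz_dvd2 (hc k) (hc l) (hcinj k l hne) (hf k) (he ▸ hf l)
    have h2 : d m ∣ f k := hm ▸ hg m
    have h3 : c k * c l * d m ∣ f k := by
      apply Nat.Coprime.mul_dvd_of_dvd_of_dvd _ h1 h2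
      exact Nat.Coprime.mul_left ((Nat.coprime_primes (hc k) (hd m)).mpr (hcd k m))
        ((Nat.coprime_primes (hc l) (hd m)).mpr (hcd l m))
    have h4 := Nat.le_of_dvd (hpos _ (hfZ k)) h3
    have h5 : x * x * y ≤ c k * c l * d m :=
      Nat.mul_le_mul (Nat.mul_le_mul (hc1 k).1 (hc1 l).1) (hd1 m).1
    have h6 := hlt _ (hfZ k)
    have h7 : 4 * M * x * y ≤ x * x * y := Nat.mul_le_mul_right y (Nat.mul_le_mul_right x hx)
    omega
  have hfim : Z = univ.image f := by
    symm
    apply eq_of_subset_of_card_le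
    · intro z hz
      obtain ⟨k, -, rfl⟩ := mem_image.mp hz
      exact hfZ k
    · rw [card_image_of_injective _ hfinj, card_univ, Fintype.card_fin, hcard]
  have hex : ∀ k, ∃ l, g l = f k := by
    intro k
    obtain ⟨l, -, hl⟩ := mem_image.mp (hgim ▸ hfZ k)
    exact ⟨l, hl⟩
  choose s hs using hex
  have hsinj : Function.Injective s := by
    intro k l he
    apply hfinj
    rw [← hs k, ← hs l, he]
  let σ : Equiv.Perm (Fin M) := Equiv.ofBijective s (Finite.injective_iff_bijective.mp hsinj)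
  have hσ : ∀ k, σ k = s k := fun k => rfl
  have hle : ∀ k, c k * d (σ k) ≤ f k := by
    intro k
    apply Nat.le_of_dvd (hpos _ (hfZ k))
    apply Nat.Coprime.mul_dvd_of_dvd_of_dvd ((Nat.coprime_primes (hc k) (hd _)).mpr (hcd k _))
      (hf k)
    rw [hσ, ← hs k]
    exact hg (s k)
  have hsf : ∑ k, f k = ∑ k, c k * d k := by
    rw [← hsum]
    conv_rhs => rw [hfim]
    rw [sum_image fun a _ b _ h => hfinj h]
  have hav : Antivary c d := by
    intro a b hab
    rcases lt_trichotomy a b with h | h | h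
    · exact (hcm a b h).le
    · rw [h]
    · exact absurd (hdm b a h) (not_lt.mpr hab.le)
  have h1 : ∑ k, c k * d k ≤ ∑ k, c k * d (σ k) := hav.sum_mul_le_sum_mul_comp_perm
  have h2 : ∑ k, c k * d (σ k) ≤ ∑ k, f k := sum_le_sum fun k _ => hle k
  have h3 : ∑ k, c k * d (σ k) = ∑ k, c k * d k := by omega
  have h4 : ∑ k, c k * d (σ k) = ∑ k, f k := by omega
  have h5 := hav.sum_mul_eq_sum_mul_comp_perm_iff.mp h3
  have h6 : ∀ a, σ a = a := by
    apply zz_perm
    intro a b hab
    have h7 : c b ≤ c a := h5 (hdm _ _ hab)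
    rcases lt_trichotomy a b with h | h | h
    · exact h
    · rw [h] at hab
      exact absurd hab (lt_irrefl _)
    · exact absurd (hcm b a h) (not_lt.mpr h7)
  have h8 : ∀ k ∈ (univ : Finset (Fin M)), c k * d (σ k) = f k :=
    (sum_eq_sum_iff_of_le fun k _ => hle k).mp h4
  rw [hfim]
  apply image_congr
  intro k _
  change f k = c k * d k
  rw [← h8 k (mem_univ k), h6 k]

theorem p_zz : S_zz := by
  intro hpb M i j x y Z hM hx hy hC hD hZ hcard hsum hdC hdD
  obtain ⟨hp, hm, -, -, -, -, -⟩ := hpb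
  have h1 := zz_fin hM (fun k : Fin M => pr (i + (M - 1 - (k : ℕ)))) (fun k => pr (j + (k : ℕ)))
    x y Z (fun k => hp _) (fun k => hp _)
    (fun k l hkl => hm (by
      have := l.isLt
      have h : (k : ℕ) < (l : ℕ) := hkl
      omega))
    (fun k l hkl => hm (by
      have h : (k : ℕ) < (l : ℕ) := hkl
      omega)) hx hy
    (fun k => hC _ (by have := k.isLt; omega)) (fun k => hD _ k.isLt) hZ hcard
    (by rw [hsum, zsum, sum_range]) ?_ ?_
  · rw [h1, zset]
    ext z
    simp only [mem_image, mem_univ, true_and, mem_range]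
    constructor
    · rintro ⟨k, rfl⟩
      exact ⟨k, k.isLt, rfl⟩
    · rintro ⟨k, hk, rfl⟩
      exact ⟨⟨k, hk⟩, rfl⟩
  · intro k
    apply hdC
    rw [pset, mem_image]
    exact ⟨M - 1 - (k : ℕ), mem_range.mpr (by have := k.isLt; omega), rfl⟩
  · intro k
    apply hdD
    rw [pset, mem_image]
    exact ⟨(k : ℕ), mem_range.mpr k.isLt, rfl⟩

end Pool.Agent.Lib.MP_4b91fc_lc.GH
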