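import Pool.Agent.Lib.MP_4b91fc_lc.GH.Stm1

/-! [GH ev] All levels, by induction on `ks`. -/

namespace Pool.Agent.Lib.MP_4b91fc_lc.GH

open Finset

open scoped Nat

private theorem ev_shv_length (ks : List ℕ) (k N : ℕ) (v : List ℕ) (h : v.length = ks.length) :
    (shv ks k N v).length = ks.length := by
  unfold shv
  rw [List.length_zipWith, h, min_self]

theorem p_ev : S_ev := by
  intro h1 h2 ks
  induction ks with
  | nil =>
    intro n l v _ _ hv
    have hv0 : v = [] := List.length_eq_zero_iff.1 (by simpa using hv)
    subst hv0
    exact h1 n l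
  | cons k ks ih =>
    intro n l v hnd hk hv
    cases v with
    | nil => simp at hv
    | cons g v =>
      have hv' : v.length = ks.length := by simpa using hv
      have hnd' := List.nodup_cons.1 hnd
      have hks : ∀ x ∈ ks, 2 ≤ x := fun x hx => hk x (List.mem_cons_of_mem _ hx)
      rw [← h2 ks k n l g v (hk k List.mem_cons_self) hnd'.1 hv']
      show lev2 (ev numGraphs ks) ks k n l g v = lev2 (FN ks) ks k n l g v
      have hd : ∀ N, dig2 (ev numGraphs ks) ks k n l g v N = dig2 (FN ks) ks k n l g v N := by
        intro N
        unfold dig2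
        rw [ih (k * N + n) (N + l) (shv ks k N v) hnd'.2 hks (ev_shv_length ks k N v hv')]
      unfold lev2
      simp only [hd]

end Pool.Agent.Lib.MP_4b91fc_lc.GH
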