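import Pool.Agent.Lib.MP_4b91fc_lc.GH.Stm1

set_option autoImplicit false

/-!
# Piece l1d: the digits of the first level
-/

namespace Pool.Agent.Lib.MP_4b91fc_lc.GH

open Finset

open scoped Nat

private theorem l1d_nat {S : Finset (Multiset ℕ)} {f : Multiset ℕ → ℚ} {c : ℕ}
    (h : ∀ μ ∈ S, ∃ z : ℕ, f μ = c * z) : ∃ z : ℕ, ∑ μ ∈ S, f μ = c * z := by
  apply Finset.sum_induction f (fun x => ∃ z : ℕ, x = c * z)
  · rintro a b ⟨y, rfl⟩ ⟨z, rfl⟩
    exact ⟨y + z, by push_cast; ring⟩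
  · exact ⟨0, by simp⟩
  · exact h

private theorem l1d_div {A B m : ℕ} {τ : ℚ} (h0 : 0 ≤ τ) (h1 : τ < 1)
    (h : (A : ℚ) / B = m + τ) : A / B = m := by
  have h2 : ⌊(A : ℚ) / (B : ℚ)⌋₊ = A / B := Nat.floor_div_eq_div A B
  rw [← h2, h]
  have h3 : (0 : ℚ) ≤ (m : ℚ) + τ := by positivity
  rw [Nat.floor_eq_iff h3]
  constructor
  · linarith
  · linarith

private theorem l1d_ch (n : ℕ) : 2 * ((n.choose 2 : ℕ) : ℤ) = (n : ℤ) * (n - 1) := by
  induction n with
  | zero => simp
  | succ n ih =>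
    rw [Nat.choose_succ_succ' n 1, Nat.choose_one_right]
    push_cast
    linarith

/-- a bound for the binary logarithm of `2 N` -/
private theorem l1d_log {w N : ℕ} (hw : 8 ≤ w) (hN : w ^ 6 ≤ N) :
    ∃ r : ℕ, 2 * N ≤ 2 ^ r ∧ 32 * w * r ≤ N + 32 * w := by
  obtain ⟨q, hq⟩ : ∃ q, q = N / (32 * w) := ⟨_, rfl⟩
  have hw0 : 0 < 32 * w := by omega
  have h1 : 32 * w * q ≤ N := by rw [hq]; exact Nat.mul_div_le N (32 * w)
  have h2 : N < 32 * w * (q + 1) := by
    rw [hq]
    exact Nat.lt_mul_div_succ N hw0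
  have hw4 : 8 ^ 4 ≤ w ^ 4 := Nat.pow_le_pow_left hw 4
  have h3 : 128 * w ≤ q := by
    rw [hq, Nat.le_div_iff_mul_le hw0]
    calc 128 * w * (32 * w) = 8 ^ 4 * w ^ 2 := by ring
      _ ≤ w ^ 4 * w ^ 2 := Nat.mul_le_mul_right _ hw4
      _ = w ^ 6 := by ring
      _ ≤ N := hN
  refine ⟨q + 1, ?_, ?_⟩
  · obtain ⟨s, hs⟩ : ∃ s, s = q / 2 := ⟨_, rfl⟩
    have hs1 : 2 * s ≤ q := by omega
    have hs2 : q ≤ 2 * s + 1 := by omega
    have h4 : s + 1 ≤ 2 ^ s := Nat.lt_two_pow_self
    have h5 : (s + 1) * (s + 1) ≤ 2 ^ q := by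
      calc (s + 1) * (s + 1) ≤ 2 ^ s * 2 ^ s := Nat.mul_le_mul h4 h4
        _ = 2 ^ (2 * s) := by rw [two_mul, pow_add]
        _ ≤ 2 ^ q := Nat.pow_le_pow_right (by norm_num) hs1
    have h6 : 4 * N ≤ q * (q + 1) := by
      have h7 : 4 * (32 * w * (q + 1)) ≤ q * (q + 1) := by
        calc 4 * (32 * w * (q + 1)) = 128 * w * (q + 1) := by ring
          _ ≤ q * (q + 1) := Nat.mul_le_mul_right _ h3
      omega
    have h8 : q * (q + 1) ≤ (2 * s + 1) * (2 * s + 2) :=
      Nat.mul_le_mul hs2 (by omega)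
    have h9 : (2 * s + 1) * (2 * s + 2) ≤ 4 * ((s + 1) * (s + 1)) := by
      nlinarith
    rw [pow_succ]
    omega
  · have : 32 * w * (q + 1) = 32 * w * q + 32 * w := by ring
    omega

/-- a lower bound for the sum of all `gcd x y` -/
private theorem l1d_qq (μ : Multiset ℕ) (h0 : 0 ∉ μ) :
    μ.card * μ.card + μ.sum ≤ qq μ μ + μ.card := by
  have h1 : ∀ x ∈ μ, x + μ.card ≤ gs x μ + 1 := by
    intro x hx
    obtain ⟨ν, hν⟩ := Multiset.exists_cons_of_mem hx
    have h2 : ν.card • 1 ≤ (ν.map (fun y => Nat.gcd x y)).sum := by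
      have h3 := Multiset.card_nsmul_le_sum (s := ν.map (fun y => Nat.gcd x y)) (a := 1) (by
        intro z hz
        rw [Multiset.mem_map] at hz
        obtain ⟨y, hy, rfl⟩ := hz
        have hx0 : x ≠ 0 := fun h => h0 (h ▸ hx)
        exact Nat.gcd_pos_of_pos_left _ (Nat.pos_of_ne_zero hx0))
      rwa [Multiset.card_map] at h3
    unfold gs
    rw [hν, Multiset.map_cons, Multiset.sum_cons, Nat.gcd_self, Multiset.card_cons]
    rw [smul_eq_mul, mul_one] at h2
    omega
  have h4 : (μ.map (fun x => x + μ.card)).sum ≤ (μ.map (fun x => gs x μ + 1)).sum :=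
    Multiset.sum_map_le_sum_map _ _ h1
  rw [Multiset.sum_map_add, Multiset.sum_map_add, Multiset.map_id', Multiset.map_const',
    Multiset.sum_replicate, Multiset.map_const', Multiset.sum_replicate, smul_eq_mul, smul_eq_mul,
    mul_one] at h4
  unfold qq
  omega

/-- the exponent of two -/
private theorem l1d_exp {μ : Multiset ℕ} {N j : ℕ} (h0 : 0 ∉ μ) (hs : μ.sum = N)
    (hcc : 2 * cc μ + od μ = qq μ μ) (hj : N ≤ μ.card + j) :
    N.choose 2 + N * (μ.card + j - N) ≤ N * j + cc μ := by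
  have h1 := l1d_qq μ h0
  rw [hs] at h1
  have h2 : od μ ≤ μ.card := Multiset.countP_le_card _ _
  have h3 := l1d_ch N
  obtain ⟨d, hd⟩ : ∃ d, μ.card + j = N + d := ⟨_, (Nat.add_sub_of_le hj).symm⟩
  rw [hd, Nat.add_sub_cancel_left]
  have hc : (μ.card : ℤ) = N + d - j := by
    have : ((μ.card + j : ℕ) : ℤ) = ((N + d : ℕ) : ℤ) := by rw [hd]
    push_cast at this
    linarith
  -- `card ≤ N`
  have hcard : μ.card ≤ N := by
    have h5 : μ.card • 1 ≤ μ.sum := Multiset.card_nsmul_le_sum (fun x hx => by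
      have hx0 : x ≠ 0 := fun h => h0 (h ▸ hx)
      omega)
    rw [smul_eq_mul, mul_one, hs] at h5
    exact h5
  have h6 : ((μ.card * μ.card + N : ℕ) : ℤ) ≤ ((2 * cc μ + od μ + μ.card : ℕ) : ℤ) := by
    rw [hcc]
    exact_mod_cast h1
  push_cast at h6
  have h7 : ((od μ : ℕ) : ℤ) ≤ μ.card := by exact_mod_cast h2
  have h8 : (μ.card : ℤ) ≤ N := by exact_mod_cast hcard
  have h9 : 2 * (((N.choose 2 + N * d : ℕ) : ℤ)) ≤ 2 * ((N * j + cc μ : ℕ) : ℤ) := by
    push_cast
    obtain ⟨c, hcd⟩ : ∃ c : ℤ, c = μ.card := ⟨_, rfl⟩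
    rw [← hcd] at h6 h7 h8 hc
    have hd' : (d : ℤ) = c + j - N := by linarith
    rw [hd']
    nlinarith [sq_nonneg ((N : ℤ) - c)]
  have h10 : ((N.choose 2 + N * d : ℕ) : ℤ) ≤ ((N * j + cc μ : ℕ) : ℤ) := by linarith
  exact_mod_cast h10

theorem p_l1d : S_l1d := by
  intro hP hZ hC hB _hfn hT u l N hul hN
  have T1 := hT hP hZ hC u l N hul hN
  obtain ⟨hP1, hP2, hP3⟩ := hP
  obtain ⟨hZ1, hZ2, hZ3, -, -⟩ := hZ
  obtain ⟨hC1, -, -, -, hC5, hC6, -⟩ := hC
  classical
  obtain ⟨j, hj⟩ : ∃ j, j = u - l := ⟨_, rfl⟩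
  rw [← hj] at T1 ⊢
  have hju : j ≤ u := by omega
  obtain ⟨w, hw⟩ : ∃ w, w = u + 8 := ⟨_, rfl⟩
  have hw8 : 8 ≤ w := by omega
  have hwN : w ^ 6 ≤ N := by
    rw [hw]
    exact hN
  have hw2N : 4096 * (w * w) ≤ N := by
    calc 4096 * (w * w) = 8 ^ 4 * w ^ 2 := by ring
      _ ≤ w ^ 4 * w ^ 2 := Nat.mul_le_mul_right _ (Nat.pow_le_pow_left hw8 4)
      _ = w ^ 6 := by ring
      _ ≤ N := hwN
  have hwN2 : 2 * w ≤ N := by nlinarith
  have h2jN : 2 * j ≤ N := by omega
  -- the terms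
  obtain ⟨T, hTd⟩ : ∃ T : Multiset ℕ → ℚ, T = fun μ =>
    (N ! : ℚ) * ww μ * 2 ^ (N * j) / 2 ^ (N.choose 2) := ⟨_, rfl⟩
  have hTnn : ∀ μ, 0 ≤ T μ := by
    intro μ
    rw [hTd]
    unfold ww
    positivity
  -- integrality
  have hint : ∀ μ ∈ Ptn N, N ≤ μ.card + j →
      ∃ z : ℕ, T μ = ((2 ^ (N * (μ.card + j - N)) : ℕ) : ℚ) * z := by
    intro μ hμ hcj
    obtain ⟨hsum, h0⟩ := (hP1 N μ).1 hμ
    have he := l1d_exp h0 hsum (hC1 μ) hcj
    obtain ⟨e, he'⟩ := Nat.exists_eq_add_of_le he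
    have hdvd : zee μ ∣ N ! := by
      rw [← hsum]
      exact hZ2 μ h0
    obtain ⟨z, hz⟩ := hdvd
    have hzp : (zee μ : ℚ) ≠ 0 := by
      have := hZ3 μ h0
      positivity
    refine ⟨z * 2 ^ e, ?_⟩
    rw [hTd]
    show (N ! : ℚ) * ww μ * 2 ^ (N * j) / 2 ^ (N.choose 2) = _
    unfold ww
    rw [hz]
    push_cast
    have h2 : (2 : ℚ) ^ (N.choose 2) ≠ 0 := by positivity
    rw [div_eq_iff h2]
    have h3 : (2 : ℚ) ^ (N * j) * 2 ^ cc μ = 2 ^ (N.choose 2) * 2 ^ (N * (μ.card + j - N)) *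
        2 ^ e := by
      rw [← pow_add, he', pow_add, pow_add]
    field_simp
    linear_combination (z : ℚ) * h3
  -- the tail
  have h3 : ∑ μ ∈ (Ptn N).filter (fun μ => μ.card + j < N), T μ < 1 := by
    have h4 : ∑ μ ∈ (Ptn N).filter (fun μ => μ.card + j < N), T μ =
        (∑ μ ∈ (Ptn N).filter (fun μ => μ.card + j < N), (N ! : ℚ) * ww μ * 2 ^ (N * j)) /
          2 ^ (N.choose 2) := by
      rw [Finset.sum_div, hTd]
    rw [h4, div_lt_one (by positivity)]
    exact T1
  have h4 : 0 ≤ ∑ μ ∈ (Ptn N).filter (fun μ => μ.card + j < N), T μ :=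
    Finset.sum_nonneg fun μ _ => hTnn μ
  obtain ⟨z1, hz1⟩ : ∃ z : ℕ, ∑ μ ∈ (Ptn N).filter (fun μ => μ.card + j = N), T μ =
      ((1 : ℕ) : ℚ) * z := by
    apply l1d_nat
    intro μ hμ
    rw [mem_filter] at hμ
    obtain ⟨z, hz⟩ := hint μ hμ.1 hμ.2.ge
    exact ⟨z, by rw [hz, hμ.2]; simp⟩
  obtain ⟨z2, hz2⟩ : ∃ z : ℕ, ∑ μ ∈ (Ptn N).filter (fun μ => N < μ.card + j), T μ =
      ((2 ^ N : ℕ) : ℚ) * z := by
    apply l1d_nat
    intro μ hμ
    rw [mem_filter] at hμ
    obtain ⟨z, hz⟩ := hint μ hμ.1 hμ.2.le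
    obtain ⟨d, hd⟩ : ∃ d, μ.card + j - N = 1 + d := ⟨μ.card + j - N - 1, by omega⟩
    refine ⟨2 ^ (N * d) * z, ?_⟩
    rw [hz, hd]
    push_cast
    rw [mul_add, pow_add, mul_one]
    ring
  obtain ⟨τ, hτ⟩ : ∃ τ : ℚ, τ = ∑ μ ∈ (Ptn N).filter (fun μ => μ.card + j < N), T μ := ⟨_, rfl⟩
  rw [← hτ] at h3 h4
  have htot : ∑ μ ∈ Ptn N, T μ = ((z1 + 2 ^ N * z2 : ℕ) : ℚ) + τ := by
    rw [← Finset.sum_filter_add_sum_filter_not (Ptn N) (fun μ => μ.card + j = N), hz1,
      ← Finset.sum_filter_add_sum_filter_not ((Ptn N).filter (fun μ => ¬ μ.card + j = N))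
        (fun μ => μ.card + j < N), filter_filter, filter_filter]
    have e1 : (Ptn N).filter (fun μ => ¬ μ.card + j = N ∧ μ.card + j < N) =
        (Ptn N).filter (fun μ => μ.card + j < N) := by
      apply Finset.filter_congr
      intro μ _
      constructor
      · exact fun h => h.2
      · exact fun h => ⟨by omega, h⟩
    have e2 : (Ptn N).filter (fun μ => ¬ μ.card + j = N ∧ ¬ μ.card + j < N) =
        (Ptn N).filter (fun μ => N < μ.card + j) := by
      apply Finset.filter_congr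
      intro μ _
      constructor
      · exact fun h => by omega
      · exact fun h => ⟨by omega, by omega⟩
    rw [e1, e2, hz2, ← hτ]
    push_cast
    ring
  -- the quotient
  have hfrac : ((N ! * numGraphs N * 2 ^ (N * j) : ℕ) : ℚ) / ((2 ^ (N.choose 2) : ℕ) : ℚ) =
      ((z1 + 2 ^ N * z2 : ℕ) : ℚ) + τ := by
    rw [← htot]
    push_cast
    rw [hB N, hTd, Finset.mul_sum, Finset.sum_mul, Finset.sum_div]
  have hd := l1d_div h4 h3 hfrac
  -- the main part
  have hmain : ∀ t ≤ N, ∑ ν ∈ (Ptn t).filter (fun ν => 1 ∉ ν),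
      (if (ν + Multiset.replicate (N - t) 1).card + j = N then
        T (ν + Multiset.replicate (N - t) 1) else 0) =
      (if j ≤ t then (2 : ℚ) ^ (t * j - t * (t - 1) / 2) * Fq [] t (t - j) [] else 0) *
        N.descFactorial t := by
    intro t htN
    by_cases hjt : j ≤ t
    · rw [if_pos hjt, ← Finset.sum_filter, filter_filter]
      have e1 : (Ptn t).filter (fun ν => 1 ∉ ν ∧
          (ν + Multiset.replicate (N - t) 1).card + j = N) =
          (Ptn t).filter (Sel [] (t - j) []) := by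
        apply Finset.filter_congr
        intro ν _
        rw [Multiset.card_add, Multiset.card_replicate]
        unfold Sel
        constructor
        · rintro ⟨h1, h2⟩
          exact ⟨h1, by omega, by simp, rfl⟩
        · rintro ⟨h1, h2, -, -⟩
          exact ⟨h1, by omega⟩
      rw [e1]
      unfold Fq
      rw [Finset.mul_sum, Finset.sum_mul]
      apply Finset.sum_congr rfl
      intro ν hν
      rw [mem_filter] at hν
      obtain ⟨hν1, hν2, hν3, -, -⟩ := hν
      obtain ⟨hsum, h0⟩ := (hP1 t ν).1 hν1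
      have hp2 : 2 * ν.card ≤ t := by
        have h2 : ν.card • 2 ≤ ν.sum := Multiset.card_nsmul_le_sum (fun x hx => by
          have hx0 : x ≠ 0 := fun h => h0 (h ▸ hx)
          have hx1 : x ≠ 1 := fun h => hν2 (h ▸ hx)
          omega)
        rw [smul_eq_mul, hsum] at h2
        omega
      obtain ⟨M, hM⟩ : ∃ M, N = M + t := ⟨N - t, by omega⟩
      have hMt : N - t = M := by omega
      obtain ⟨p, hp⟩ : ∃ p, t = j + p := ⟨t - j, by omega⟩
      have hcp : ν.card = p := by omega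
      have hpj : p ≤ j := by omega
      have hgs : gs 1 ν = ν.card := by
        unfold gs
        simp
      have hcc1 : cc (ν + Multiset.replicate M 1) = M.choose 2 + M * p + cc ν := by
        rw [hC5 ν 1 M, hgs, hcp]
        unfold e2
        simp
      have hzz : zee (ν + Multiset.replicate M 1) = M ! * zee ν := by
        rw [hZ1 ν 1 M hν2, one_pow, one_mul]
      have hdesc : M ! * N.descFactorial t = N ! := by
        rw [← hMt]
        exact Nat.factorial_mul_descFactorial htN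
      have htt : t * (t - 1) / 2 = t.choose 2 := (Nat.choose_two_right t).symm
      -- exponents
      have hex : M.choose 2 + M * p + N * j + t.choose 2 = N.choose 2 + t * j := by
        have c1 := l1d_ch M
        have c2 := l1d_ch t
        have c3 := l1d_ch N
        have h5 : 2 * ((M.choose 2 + M * p + N * j + t.choose 2 : ℕ) : ℤ) =
            2 * ((N.choose 2 + t * j : ℕ) : ℤ) := by
          push_cast
          have hN' : (N : ℤ) = M + t := by exact_mod_cast hM
          have ht' : (t : ℤ) = j + p := by exact_mod_cast hp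
          rw [hN'] at c3 ⊢
          rw [ht'] at c2 c3 ⊢
          linear_combination c1 + c2 - c3
        have h6 : ((M.choose 2 + M * p + N * j + t.choose 2 : ℕ) : ℤ) =
            ((N.choose 2 + t * j : ℕ) : ℤ) := by linarith
        exact_mod_cast h6
      have hle : t.choose 2 ≤ t * j := by
        rw [← htt]
        apply Nat.div_le_of_le_mul
        calc t * (t - 1) ≤ t * (2 * j) := Nat.mul_le_mul_left _ (by omega)
          _ = 2 * (t * j) := by ring
      obtain ⟨E, hE⟩ : ∃ E, t * j = t.choose 2 + E := Nat.exists_eq_add_of_le hle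
      have hEE : t * j - t * (t - 1) / 2 = E := by rw [htt]; omega
      have hex2 : M.choose 2 + M * p + N * j = N.choose 2 + E := by omega
      rw [hMt, hEE, hTd]
      show (N ! : ℚ) * ww (ν + Multiset.replicate M 1) * 2 ^ (N * j) / 2 ^ (N.choose 2) = _
      unfold ww
      rw [hcc1, hzz, ← hdesc]
      have hzp : (zee ν : ℚ) ≠ 0 := by
        have := hZ3 ν h0
        positivity
      have hMp : (M ! : ℚ) ≠ 0 := by positivity
      have h2 : (2 : ℚ) ^ (N.choose 2) ≠ 0 := by positivity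
      have h3 : (2 : ℚ) ^ (M.choose 2) * 2 ^ (M * p) * 2 ^ (N * j) = 2 ^ (N.choose 2) * 2 ^ E := by
        rw [← pow_add, ← pow_add, hex2, pow_add]
      rw [div_eq_iff h2]
      push_cast
      rw [pow_add, pow_add]
      field_simp
      linear_combination (N.descFactorial t : ℚ) * h3
    · rw [if_neg hjt, zero_mul]
      apply Finset.sum_eq_zero
      intro ν _
      rw [if_neg]
      rw [Multiset.card_add, Multiset.card_replicate]
      omega
  obtain ⟨Om, hOm⟩ : ∃ Om : ℚ, Om = ∑ t ∈ range (2 * j + 1),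
      (if j ≤ t then (2 : ℚ) ^ (t * j - t * (t - 1) / 2) * Fq [] t (t - j) [] else 0) *
        N.descFactorial t := ⟨_, rfl⟩
  rw [← hOm]
  have hz1Om : (z1 : ℚ) = Om := by
    have e1 : (z1 : ℚ) = ∑ μ ∈ Ptn N, (if μ.card + j = N then T μ else 0) := by
      rw [← Finset.sum_filter, hz1]
      simp
    rw [e1, hP3 N 1 one_pos (fun μ => if μ.card + j = N then T μ else 0), hOm, Nat.div_one,
      ← Finset.sum_range_reflect]
    have e2 : ∑ t ∈ range (N + 1), ∑ ν ∈ (Ptn (N - 1 * (N + 1 - 1 - t))).filter (fun μ => 1 ∉ μ),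
        (if (ν + Multiset.replicate (N + 1 - 1 - t) 1).card + j = N then
          T (ν + Multiset.replicate (N + 1 - 1 - t) 1) else 0) =
        ∑ t ∈ range (N + 1),
          (if j ≤ t then (2 : ℚ) ^ (t * j - t * (t - 1) / 2) * Fq [] t (t - j) [] else 0) *
            N.descFactorial t := by
      apply Finset.sum_congr rfl
      intro t ht
      rw [mem_range] at ht
      have h5 : N + 1 - 1 - t = N - t := by omega
      have h6 : N - 1 * (N - t) = t := by omega
      rw [h5, h6]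
      exact hmain t (by omega)
    rw [e2]
    symm
    apply Finset.sum_subset
    · intro t ht
      rw [mem_range] at ht ⊢
      omega
    · intro t ht ht2
      rw [mem_range] at ht
      rw [mem_range, not_lt] at ht2
      have hF : Fq [] t (t - j) [] = 0 := by
        unfold Fq
        apply Finset.sum_eq_zero
        intro ν hν
        exfalso
        rw [mem_filter] at hν
        obtain ⟨hν1, hν2, hν3, -, -⟩ := hν
        obtain ⟨hsum, h0⟩ := (hP1 t ν).1 hν1
        have h2 : ν.card • 2 ≤ ν.sum := Multiset.card_nsmul_le_sum (fun x hx => by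
          have hx0 : x ≠ 0 := fun h => h0 (h ▸ hx)
          have hx1 : x ≠ 1 := fun h => hν2 (h ▸ hx)
          omega)
        rw [smul_eq_mul, hsum] at h2
        omega
      rw [hF, mul_zero, ite_self, zero_mul]
  -- the bound
  have hlt : Om < 2 ^ N := by
    obtain ⟨r, hr1, hr2⟩ := l1d_log hw8 hwN
    have hN1 : 1 ≤ N := by omega
    have hterm : ∀ t ∈ range (2 * j + 1),
        (if j ≤ t then (2 : ℚ) ^ (t * j - t * (t - 1) / 2) * Fq [] t (t - j) [] else 0) *
          N.descFactorial t ≤ 2 ^ (2 * j * j + (2 * j + 2 * j * (2 * j)) + r * (2 * j)) := by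
      intro t ht
      rw [mem_range] at ht
      have ht2 : t ≤ 2 * j := by omega
      have hF : Fq [] t (t - j) [] ≤ 2 ^ (2 * j + 2 * j * (2 * j)) := by
        unfold Fq
        calc ∑ μ ∈ (Ptn t).filter (Sel [] (t - j) []), ww μ ≤
            ∑ μ ∈ (Ptn t).filter (Sel [] (t - j) []), (2 : ℚ) ^ (2 * j * (2 * j)) := by
              apply Finset.sum_le_sum
              intro μ hμ
              rw [mem_filter] at hμ
              obtain ⟨hsum, h0⟩ := (hP1 t μ).1 hμ.1
              have hz := hZ3 μ h0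
              have h5 : cc μ ≤ 2 * j * (2 * j) := by
                refine (hC6 μ h0).trans ?_
                rw [hsum, pow_two]
                exact Nat.mul_le_mul ht2 ht2
              unfold ww
              have hz' : (1 : ℚ) ≤ (zee μ : ℚ) := by exact_mod_cast hz
              calc (2 : ℚ) ^ cc μ / zee μ ≤ 2 ^ cc μ := div_le_self (by positivity) hz'
                _ ≤ 2 ^ (2 * j * (2 * j)) := pow_le_pow_right₀ (by norm_num) h5
          _ ≤ (2 : ℚ) ^ (2 * j) * 2 ^ (2 * j * (2 * j)) := by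
              rw [Finset.sum_const, nsmul_eq_mul]
              apply mul_le_mul_of_nonneg_right _ (by positivity)
              have h6 : ((Ptn t).filter (Sel [] (t - j) [])).card ≤ 2 ^ (2 * j) :=
                (Finset.card_filter_le _ _).trans ((hP2 t).trans
                  (Nat.pow_le_pow_right (by norm_num) ht2))
              exact_mod_cast h6
          _ = 2 ^ (2 * j + 2 * j * (2 * j)) := by rw [pow_add]
      have hF0 : 0 ≤ Fq [] t (t - j) [] := by
        unfold Fq
        apply Finset.sum_nonneg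
        intro μ _
        unfold ww
        positivity
      have hde : (N.descFactorial t : ℚ) ≤ 2 ^ (r * (2 * j)) := by
        have h7 : N.descFactorial t ≤ 2 ^ (r * (2 * j)) := by
          calc N.descFactorial t ≤ N ^ t := Nat.descFactorial_le_pow N t
            _ ≤ N ^ (2 * j) := Nat.pow_le_pow_right hN1 ht2
            _ ≤ (2 ^ r) ^ (2 * j) := Nat.pow_le_pow_left (by omega) _
            _ = 2 ^ (r * (2 * j)) := by rw [← pow_mul]
        exact_mod_cast h7
      by_cases hjt : j ≤ t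
      · rw [if_pos hjt]
        have h8 : (2 : ℚ) ^ (t * j - t * (t - 1) / 2) ≤ 2 ^ (2 * j * j) := by
          apply pow_le_pow_right₀ (by norm_num)
          have : t * j ≤ 2 * j * j := Nat.mul_le_mul_right _ ht2
          omega
        rw [pow_add, pow_add]
        apply mul_le_mul _ hde (by positivity) (by positivity)
        exact mul_le_mul h8 hF hF0 (by positivity)
      · rw [if_neg hjt, zero_mul]
        positivity
    have hsum := Finset.sum_le_sum hterm
    rw [← hOm, Finset.sum_const, Finset.card_range, nsmul_eq_mul] at hsum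
    refine lt_of_le_of_lt hsum ?_
    have h9 : ((2 * j + 1 : ℕ) : ℚ) < 2 ^ (2 * j + 1) := by
      exact_mod_cast Nat.lt_two_pow_self
    have h10 : 2 * j + 1 + (2 * j * j + (2 * j + 2 * j * (2 * j)) + r * (2 * j)) ≤ N := by
      have hjw : j ≤ w := by omega
      have a1 : j * j ≤ w * w := Nat.mul_le_mul hjw hjw
      have a2 : r * (2 * j) ≤ 2 * (w * r) := by
        calc r * (2 * j) = 2 * (j * r) := by ring
          _ ≤ 2 * (w * r) := Nat.mul_le_mul_left _ (Nat.mul_le_mul_right _ hjw)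
      have a3 : w ≤ w * w := Nat.le_mul_self w
      have a4 : 2 * j * j = 2 * (j * j) := by ring
      have a5 : 2 * j * (2 * j) = 4 * (j * j) := by ring
      have a6 : 32 * w * r = 32 * (w * r) := by ring
      rw [a4, a5]
      rw [a6] at hr2
      omega
    calc ((2 * j + 1 : ℕ) : ℚ) * 2 ^ (2 * j * j + (2 * j + 2 * j * (2 * j)) + r * (2 * j)) <
        2 ^ (2 * j + 1) * 2 ^ (2 * j * j + (2 * j + 2 * j * (2 * j)) + r * (2 * j)) :=
          mul_lt_mul_of_pos_right h9 (by positivity)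
      _ = 2 ^ (2 * j + 1 + (2 * j * j + (2 * j + 2 * j * (2 * j)) + r * (2 * j))) := by
          rw [← pow_add]
      _ ≤ 2 ^ N := pow_le_pow_right₀ (by norm_num) h10
  have hzlt : z1 < 2 ^ N := by
    rw [← hz1Om] at hlt
    exact_mod_cast hlt
  have hfin : dig1 numGraphs u l N = z1 := by
    unfold dig1
    rw [← hj, hd, Nat.add_mul_mod_self_left, Nat.mod_eq_of_lt hzlt]
  rw [hfin, hz1Om]

end Pool.Agent.Lib.MP_4b91fc_lc.GH
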