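import Pool.Agent.Lib.MP_4b91fc_lc.GH.Stm4

set_option autoImplicit false

/-!
Piece `[GH n1]` of `MP_4b91fc_lc`: the tableau of an accepting computation is an admissible word.
-/

namespace Pool.Agent.Lib.MP_4b91fc_lc.GH

open Finset

variable {N : NTM}

private theorem n1_tabl {n T : ℕ} (l : List N.Tr) (k : Fin (Mw n T)) (t j : ℕ)
    (hk : (k : ℕ) = Wd n T * t + j) (hj : j < Wd n T) :
    tabl N n T l k = if j = 0 then .bd
      else cellAt (cfgAt (N.init n) l t) l[t]? ((j : ℤ) - ((T : ℤ) + 2)) := by
  have hW : 0 < Wd n T := lt_of_le_of_lt (Nat.zero_le _) hj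
  have h1 : (k : ℕ) / Wd n T = t := by
    rw [hk, Nat.mul_add_div hW, Nat.div_eq_of_lt hj, add_zero]
  have h2 : (k : ℕ) % Wd n T = j := by
    rw [hk, Nat.mul_add_mod, Nat.mod_eq_of_lt hj]
  unfold tabl
  rw [h1, h2]

private theorem n1_H (c : N.Cfg) (ch : Option N.Tr) (x : ℤ) :
    relH (cellAt c ch x) (cellAt c ch (x + 1)) = true := by
  unfold cellAt
  by_cases h1 : x = c.pos
  · have h2 : ¬ (x + 1 = c.pos) := by omega
    have h3 : c.pos < x + 1 := by omega
    simp [h1, relH]
  · by_cases h2 : x + 1 = c.pos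
    · have h3 : ¬ c.pos < x := by omega
      simp [h1, h2, h3, relH]
    · have h3 : (c.pos < x) ↔ (c.pos < x + 1) := by omega
      simp [h1, h2, h3, relH]

private theorem n1_V1 (c : N.Cfg) (τ : N.Tr) (ch' : Option N.Tr) (x : ℤ) :
    relV (cellAt c (some τ) x) (cellAt (c.next τ) ch' x) = true := by
  obtain ⟨q, γ, d⟩ := τ
  unfold cellAt NTM.Cfg.next
  by_cases h1 : x = c.pos
  · subst h1
    cases d
    · simp [relV, Dir.val]
    · simp [relV, Dir.val]
    · simp [relV, Dir.val]
  · by_cases h2 : x = c.pos + d.val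
    · simp only [if_neg h1, if_pos h2, relV, Function.update_of_ne h1, decide_true]
    · simp only [if_neg h1, if_neg h2, relV, Function.update_of_ne h1, decide_true]

private theorem n1_V2 (c : N.Cfg) (x : ℤ) :
    relV (cellAt c none x) (cellAt c none x) = true := by
  unfold cellAt
  by_cases h1 : x = c.pos
  · simp [h1, relV]
  · simp [h1, relV]

private theorem n1_L (c : N.Cfg) (τ : N.Tr) (ch' : Option N.Tr) (x : ℤ) :
    relL (cellAt c (some τ) x) (cellAt (c.next τ) ch' (x - 1)) = true := by
  obtain ⟨q, γ, d⟩ := τ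
  unfold cellAt NTM.Cfg.next
  by_cases h1 : x = c.pos
  · subst h1
    cases d
    · have h2 : c.pos - 1 = c.pos + Dir.left.val := rfl
      simp [relL, hasHd, h2]
    · simp [relL]
    · simp [relL]
  · simp [h1, relL]

private theorem n1_R (c : N.Cfg) (τ : N.Tr) (ch' : Option N.Tr) (x : ℤ) :
    relR (cellAt c (some τ) x) (cellAt (c.next τ) ch' (x + 1)) = true := by
  obtain ⟨q, γ, d⟩ := τ
  unfold cellAt NTM.Cfg.next
  by_cases h1 : x = c.pos
  · subst h1
    cases d
    · simp [relR]
    · simp [relR]
    · have h2 : c.pos + 1 = c.pos + Dir.right.val := rfl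
      simp [relR, hasHd, h2]
  · simp [h1, relR]

private theorem n1_L0 (c : N.Cfg) (x : ℤ) (b : Cell N.Q N.Γ) :
    relL (cellAt c none x) b = true := by
  unfold cellAt
  by_cases h1 : x = c.pos
  · simp [h1, relL]
  · simp [h1, relL]

private theorem n1_R0 (c : N.Cfg) (x : ℤ) (b : Cell N.Q N.Γ) :
    relR (cellAt c none x) b = true := by
  unfold cellAt
  by_cases h1 : x = c.pos
  · simp [h1, relR]
  · simp [h1, relR]

/-- [n1] -/
theorem p_n1 : S_n1 := by
  intro h0 N n T l hacc hT
  obtain ⟨h01, h02, -, h04, h05⟩ := h0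
  obtain ⟨cf, hpath, hhalt, hac⟩ := hacc
  obtain ⟨hcf, hval⟩ := (h01 N (N.init n) cf l).1 hpath
  have hWd : Wd n T = 2 * T + n + 5 := rfl
  have hW : 0 < Wd n T := by omega
  have hrow : ∀ k : Fin (Mw n T), (k : ℕ) / Wd n T ≤ T := by
    intro k
    have h := k.2
    unfold Mw at h
    exact Nat.lt_succ_iff.1 (Nat.div_lt_of_lt_mul h)
  have hmod : ∀ k : ℕ, k % Wd n T < Wd n T := fun k => Nat.mod_lt _ hW
  have hdm : ∀ k : ℕ, Wd n T * (k / Wd n T) + k % Wd n T = k := fun k => Nat.div_add_mod _ _
  have hend : ∀ t, l.length ≤ t → cfgAt (N.init n) l t = cf := by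
    intro t ht
    rw [h05 N (N.init n) l t ht, hcf]
  have hpos : ∀ t, |(cfgAt (N.init n) l t).pos| + 1 ≤ (T : ℤ) := by
    intro t
    rcases Nat.lt_or_ge t l.length with h | h
    · have := h02 N n l t
      omega
    · have h2 := h02 N n l l.length
      rw [hend t h, ← hend l.length le_rfl]
      omega
  have hposl : ∀ t, -(T : ℤ) + 1 ≤ (cfgAt (N.init n) l t).pos := by
    intro t
    have := hpos t
    have h2 := neg_abs_le (cfgAt (N.init n) l t).pos
    omega
  have hposr : ∀ t, (cfgAt (N.init n) l t).pos ≤ (T : ℤ) - 1 := by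
    intro t
    have := hpos t
    have h2 := le_abs_self (cfgAt (N.init n) l t).pos
    omega
  have hnone : ∀ t, l.length ≤ t → l[t]? = none := fun t ht => List.getElem?_eq_none ht
  have hsome : ∀ t (h : t < l.length), l[t]? = some l[t] := fun t ht =>
    List.getElem?_eq_getElem ht
  have htp : ∀ (c : N.Cfg) (ch : Option N.Tr) (x : ℤ), x ≠ c.pos →
      cellAt c ch x = .tp (c.tape x) (decide (c.pos < x)) := fun c ch x hx => if_neg hx
  constructor
  · intro (i : Fin 4) k k' hk'
    obtain ⟨t, ht⟩ : ∃ t, t = (k : ℕ) / Wd n T := ⟨_, rfl⟩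
    obtain ⟨j, hj⟩ : ∃ j, j = (k : ℕ) % Wd n T := ⟨_, rfl⟩
    have hjW : j < Wd n T := hj ▸ hmod k
    have hk : (k : ℕ) = Wd n T * t + j := by rw [ht, hj]; exact (hdm k).symm
    rw [n1_tabl l k t j hk hjW]
    have hpl := hposl t
    have hpr := hposr t
    fin_cases i
    · -- neighbours in a row
      have hk2 : (k' : ℕ) = k + 1 := hk'
      show relH _ _ = true
      by_cases hj1 : j + 1 < Wd n T
      · rw [n1_tabl l k' t (j + 1) (by rw [hk2, hk, add_assoc]) hj1, if_neg (Nat.succ_ne_zero j)]
        by_cases hj0 : j = 0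
        · rw [if_pos hj0, htp _ _ _ (by rw [hj0]; push_cast; omega)]
          have : ¬ ((cfgAt (N.init n) l t).pos < ((j + 1 : ℕ) : ℤ) - ((T : ℤ) + 2)) := by
            rw [hj0]; push_cast; omega
          rw [decide_eq_false this]
          rfl
        · rw [if_neg hj0]
          have e : ((j + 1 : ℕ) : ℤ) - ((T : ℤ) + 2) = ((j : ℤ) - ((T : ℤ) + 2)) + 1 := by
            push_cast; ring
          rw [e]
          exact n1_H _ _ _
      · have hj2 : j + 1 = Wd n T := by omega
        rw [n1_tabl l k' (t + 1) 0 (by rw [hk2, hk, Nat.mul_succ]; omega) hW, if_pos rfl,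
          if_neg (by omega), htp _ _ _ (by omega)]
        have : (cfgAt (N.init n) l t).pos < (j : ℤ) - ((T : ℤ) + 2) := by omega
        rw [decide_eq_true this]
        rfl
    · -- the cell below
      have hk2 : (k' : ℕ) = k + Wd n T := hk'
      show relV _ _ = true
      rw [n1_tabl l k' (t + 1) j (by rw [hk2, hk, Nat.mul_succ]; omega) hjW]
      by_cases hj0 : j = 0
      · rw [if_pos hj0, if_pos hj0]
        rfl
      · rw [if_neg hj0, if_neg hj0]
        rcases Nat.lt_or_ge t l.length with h | h
        · rw [hsome t h, h04 N (N.init n) l t h]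
          exact n1_V1 _ _ _ _
        · rw [hnone t h, hnone (t + 1) (by omega), hend t h, hend (t + 1) (by omega)]
          exact n1_V2 _ _
    · -- below to the left
      have hk2 : (k' : ℕ) = k + (Wd n T - 1) := hk'
      show relL _ _ = true
      by_cases hj0 : j = 0
      · rw [if_pos hj0]
        rfl
      · rw [if_neg hj0]
        rcases Nat.lt_or_ge t l.length with h | h
        · by_cases hj1 : j = 1
          · rw [htp _ _ _ (by rw [hj1]; push_cast; omega)]
            rfl
          · rw [n1_tabl l k' (t + 1) (j - 1) (by rw [hk2, hk, Nat.mul_succ]; omega) (by omega),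
              if_neg (by omega), hsome t h, h04 N (N.init n) l t h]
            have e : ((j - 1 : ℕ) : ℤ) - ((T : ℤ) + 2) = ((j : ℤ) - ((T : ℤ) + 2)) - 1 := by
              rw [Nat.cast_sub (by omega)]; push_cast; ring
            rw [e]
            exact n1_L _ _ _ _
        · rw [hnone t h]
          exact n1_L0 _ _ _
    · -- below to the right
      have hk2 : (k' : ℕ) = k + (Wd n T + 1) := hk'
      show relR _ _ = true
      by_cases hj0 : j = 0
      · rw [if_pos hj0]
        rfl
      · rw [if_neg hj0]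
        rcases Nat.lt_or_ge t l.length with h | h
        · by_cases hj1 : j + 1 < Wd n T
          · rw [n1_tabl l k' (t + 1) (j + 1) (by rw [hk2, hk, Nat.mul_succ]; omega) hj1,
              if_neg (by omega), hsome t h, h04 N (N.init n) l t h]
            have e : ((j + 1 : ℕ) : ℤ) - ((T : ℤ) + 2) = ((j : ℤ) - ((T : ℤ) + 2)) + 1 := by
              push_cast; ring
            rw [e]
            exact n1_R _ _ _ _
          · rw [htp _ _ _ (by omega)]
            rfl
        · rw [hnone t h]
          exact n1_R0 _ _ _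
  · intro (i : Fin 6) k hx hy
    have hrow0 : (k : ℕ) < Wd n T → tabl N n T l k = if (k : ℕ) = 0 then .bd
        else cellAt (N.init n) l[0]? (((k : ℕ) : ℤ) - ((T : ℤ) + 2)) := by
      intro hkW
      rw [n1_tabl l k 0 k (by rw [Nat.mul_zero, Nat.zero_add]) hkW]
      rfl
    fin_cases i
    · -- the transitions
      show (match tabl N n T l k with
        | .hd q γ none => decide (N.δ q γ = ∅ ∧ q ∈ N.acc)
        | .hd q γ (some τ) => decide (τ ∈ N.δ q γ)
        | _ => true) = true
      obtain ⟨t, ht⟩ : ∃ t, t = (k : ℕ) / Wd n T := ⟨_, rfl⟩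
      obtain ⟨j, hj⟩ : ∃ j, j = (k : ℕ) % Wd n T := ⟨_, rfl⟩
      have hjW : j < Wd n T := hj ▸ hmod k
      have hk : (k : ℕ) = Wd n T * t + j := by rw [ht, hj]; exact (hdm k).symm
      rw [n1_tabl l k t j hk hjW]
      by_cases hj0 : j = 0
      · rw [if_pos hj0]
      · rw [if_neg hj0]
        unfold cellAt
        by_cases hp : (j : ℤ) - ((T : ℤ) + 2) = (cfgAt (N.init n) l t).pos
        · rw [if_pos hp, hp]
          rcases Nat.lt_or_ge t l.length with h | h
          · rw [hsome t h]
            exact decide_eq_true (hval t h)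
          · rw [hnone t h, hend t h]
            exact decide_eq_true ⟨hhalt, hac⟩
        · rw [if_neg hp]
    · -- the border
      have hy' : (k : ℕ) < 1 := hy
      show decide (tabl N n T l k = .bd) = true
      rw [hrow0 (by omega), if_pos (by omega)]
      exact decide_eq_true rfl
    · -- blanks
      have hx' : 1 ≤ (k : ℕ) := hx
      have hy' : (k : ℕ) < T + 2 := hy
      show decide (tabl N n T l k = .tp N.blank false) = true
      rw [hrow0 (by omega), if_neg (by omega), htp _ _ _ (by
        show ((k : ℕ) : ℤ) - ((T : ℤ) + 2) ≠ 0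
        omega)]
      have h1 : (N.init n).tape (((k : ℕ) : ℤ) - ((T : ℤ) + 2)) = N.blank :=
        if_neg (by omega)
      have h2 : decide ((N.init n).pos < ((k : ℕ) : ℤ) - ((T : ℤ) + 2)) = false := by
        apply decide_eq_false
        show ¬ (0 : ℤ) < ((k : ℕ) : ℤ) - ((T : ℤ) + 2)
        omega
      rw [h1, h2]
      exact decide_eq_true rfl
    · -- the head
      have hx' : T + 2 ≤ (k : ℕ) := hx
      have hy' : (k : ℕ) < T + 3 := hy
      show hasHd N.start (tabl N n T l k) = true
      rw [hrow0 (by omega), if_neg (by omega)]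
      have e : ((k : ℕ) : ℤ) - ((T : ℤ) + 2) = (N.init n).pos := by
        show ((k : ℕ) : ℤ) - ((T : ℤ) + 2) = 0
        omega
      unfold cellAt
      rw [if_pos e]
      exact decide_eq_true rfl
    · -- the input
      have hx' : T + 2 ≤ (k : ℕ) := hx
      have hy' : (k : ℕ) < T + 2 + n := hy
      show hasSym N.one (tabl N n T l k) = true
      rw [hrow0 (by omega), if_neg (by omega)]
      have h1 : (N.init n).tape (((k : ℕ) : ℤ) - ((T : ℤ) + 2)) = N.one :=
        if_pos (by omega)
      unfold cellAt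
      split_ifs
      · exact decide_eq_true h1
      · exact decide_eq_true h1
    · -- blanks to the right
      have hx' : T + 2 + n ≤ (k : ℕ) := hx
      have hy' : (k : ℕ) < Wd n T := hy
      show hasSym N.blank (tabl N n T l k) = true
      rw [hrow0 (by omega), if_neg (by omega)]
      have h1 : (N.init n).tape (((k : ℕ) : ℤ) - ((T : ℤ) + 2)) = N.blank :=
        if_neg (by omega)
      unfold cellAt
      split_ifs
      · exact decide_eq_true h1
      · exact decide_eq_true h1

end Pool.Agent.Lib.MP_4b91fc_lc.GH
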