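import Pool.Agent.Lib.MP_4b91fc_lc.GH.Stm3

set_option autoImplicit false

/-!
# Sets of consecutive primes and of their products
-/

namespace Pool.Agent.Lib.MP_4b91fc_lc.GH

open Finset

private theorem pb_prime (i : ℕ) : (pr i).Prime := Nat.prime_nth_prime i

private theorem pb_mono : StrictMono pr := Nat.nth_strictMono Nat.infinite_setOfPred_prime

private theorem pb_cop {i j : ℕ} (h : i ≠ j) : Nat.Coprime (pr i) (pr j) :=
  (Nat.coprime_primes (pb_prime i) (pb_prime j)).2 fun he => h (pb_mono.injective he)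

private theorem pb_injOn (i t : ℕ) : Set.InjOn (fun k => pr (i + k)) (range t : Finset ℕ) := by
  intro a _ b _ h
  have := pb_mono.injective h
  omega

private theorem pb_pset (i t : ℕ) : PCs (pset i t) ∧ (pset i t).card = t ∧
    ∑ x ∈ pset i t, x = psum i t ∧ ∏ x ∈ pset i t, x = pprod i t := by
  refine ⟨⟨?_, ?_⟩, ?_, ?_, ?_⟩
  · intro x hx
    unfold pset at hx
    rw [Finset.mem_image] at hx
    obtain ⟨k, _, rfl⟩ := hx
    exact (pb_prime _).two_le
  · intro x hx y hy hxy
    unfold pset at hx hy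
    rw [Finset.mem_image] at hx hy
    obtain ⟨k, _, rfl⟩ := hx
    obtain ⟨l, _, rfl⟩ := hy
    exact pb_cop fun h => hxy (by rw [h])
  · unfold pset
    rw [Finset.card_image_of_injOn (pb_injOn i t), Finset.card_range]
  · unfold pset psum
    rw [Finset.sum_image (pb_injOn i t)]
  · unfold pset pprod
    rw [Finset.prod_image (pb_injOn i t)]

private theorem pb_z_cop {i j M : ℕ} (hij : i + M ≤ j) {k l : ℕ} (hk : k < M) (hl : l < M)
    (h : k ≠ l) : Nat.Coprime (pr (i + (M - 1 - k)) * pr (j + k))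
      (pr (i + (M - 1 - l)) * pr (j + l)) := by
  refine Nat.Coprime.mul_left (Nat.Coprime.mul_right ?_ ?_) (Nat.Coprime.mul_right ?_ ?_)
  · exact pb_cop (by omega)
  · exact pb_cop (by omega)
  · exact pb_cop (by omega)
  · exact pb_cop (by omega)

private theorem pb_z_two (a b : ℕ) : 2 ≤ pr a * pr b := by
  have h1 := (pb_prime a).two_le
  have h2 := (pb_prime b).two_le
  nlinarith

private theorem pb_z_injOn {i j M : ℕ} (hij : i + M ≤ j) :
    Set.InjOn (fun k => pr (i + (M - 1 - k)) * pr (j + k)) (range M : Finset ℕ) := by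
  intro a ha b hb h
  rw [Finset.mem_coe, Finset.mem_range] at ha hb
  by_contra hne
  have h1 := pb_z_cop hij ha hb hne
  have h2 : pr (i + (M - 1 - a)) * pr (j + a) = pr (i + (M - 1 - b)) * pr (j + b) := h
  rw [h2, Nat.coprime_self] at h1
  have h3 := pb_z_two (i + (M - 1 - b)) (j + b)
  omega

private theorem pb_zset (i j M : ℕ) (hij : i + M ≤ j) : PCs (zset i j M) ∧
    (zset i j M).card = M ∧ ∑ x ∈ zset i j M, x = zsum i j M ∧
    ∏ x ∈ zset i j M, x = pprod i M * pprod j M ∧
    Dvs (pset i M) (zset i j M) ∧ Dvs (pset j M) (zset i j M) := by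
  refine ⟨⟨?_, ?_⟩, ?_, ?_, ?_, ?_, ?_⟩
  · intro x hx
    unfold zset at hx
    rw [Finset.mem_image] at hx
    obtain ⟨k, _, rfl⟩ := hx
    exact pb_z_two _ _
  · intro x hx y hy hxy
    unfold zset at hx hy
    rw [Finset.mem_image] at hx hy
    obtain ⟨k, hk, rfl⟩ := hx
    obtain ⟨l, hl, rfl⟩ := hy
    exact pb_z_cop hij (Finset.mem_range.mp hk) (Finset.mem_range.mp hl)
      fun h => hxy (by rw [h])
  · unfold zset
    rw [Finset.card_image_of_injOn (pb_z_injOn hij), Finset.card_range]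
  · unfold zset zsum
    rw [Finset.sum_image (pb_z_injOn hij)]
  · unfold zset pprod
    rw [Finset.prod_image (pb_z_injOn hij), Finset.prod_mul_distrib,
      Finset.prod_range_reflect (fun k => pr (i + k)) M]
  · intro x hx
    unfold pset at hx
    rw [Finset.mem_image] at hx
    obtain ⟨k, hk, rfl⟩ := hx
    rw [Finset.mem_range] at hk
    refine ⟨pr (i + (M - 1 - (M - 1 - k))) * pr (j + (M - 1 - k)), ?_, ?_⟩
    · unfold zset
      exact Finset.mem_image_of_mem (fun k => pr (i + (M - 1 - k)) * pr (j + k))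
        (Finset.mem_range.mpr (by omega))
    · rw [show M - 1 - (M - 1 - k) = k by omega]
      exact Dvd.intro _ rfl
  · intro x hx
    unfold pset at hx
    rw [Finset.mem_image] at hx
    obtain ⟨k, hk, rfl⟩ := hx
    refine ⟨pr (i + (M - 1 - k)) * pr (j + k), ?_, Dvd.intro_left _ rfl⟩
    unfold zset
    exact Finset.mem_image_of_mem (fun k => pr (i + (M - 1 - k)) * pr (j + k)) hk

private theorem pb_sets_cop (i t i' t' : ℕ) (h : i + t ≤ i') :
    Cop (pset i t) (pset i' t') ∧ Cop (pset i' t') (pset i t) := by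
  have key : ∀ x ∈ pset i t, ∀ y ∈ pset i' t', Nat.Coprime x y := by
    intro x hx y hy
    unfold pset at hx hy
    rw [Finset.mem_image] at hx hy
    obtain ⟨k, hk, rfl⟩ := hx
    obtain ⟨l, _, rfl⟩ := hy
    rw [Finset.mem_range] at hk
    exact pb_cop (by omega)
  exact ⟨key, fun x hx y hy => (key y hy x hx).symm⟩

theorem p_pb : S_pb := by
  refine ⟨pb_prime, pb_mono, ?_, pb_pset, pb_zset, pb_sets_cop, ?_⟩
  · intro p hp
    exact ⟨Nat.count Nat.Prime p, Nat.nth_count hp⟩
  · intro i t i' t' h1 h2 x hx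
    unfold pset at hx ⊢
    rw [Finset.mem_image] at hx ⊢
    obtain ⟨k, hk, rfl⟩ := hx
    rw [Finset.mem_range] at hk
    exact ⟨i + k - i', Finset.mem_range.mpr (by omega), by rw [show i' + (i + k - i') = i + k by omega]⟩

end Pool.Agent.Lib.MP_4b91fc_lc.GH
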