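import Pool.Agent.Lib.MP_4b91fc_lc.GH.Stm3
import Pool.Agent.Lib.MP_4b91fc_lc.PNat

set_option autoImplicit false

/-!
# `#GRAPHS` is hard for `#P_1`: total sum and total product in polynomial time (piece pss)
-/

namespace Pool.Agent.Lib.MP_4b91fc_lc.GH

open Finset Pool.Agent.PolyTime

open scoped Nat

section

variable {α : Type} [SCode α]

private theorem pss_psum (hpr : ∀ f : α × ℕ → ℕ, PTime f → PTime (fun b => pr (f b)))
    {i t : α → ℕ} (hi : PTime i) (ht : PTime t) : PTime (fun a => psum (i a) (t a)) :=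
  ptime_sum (n := t) (f := fun a k => pr (i a + k)) ht
    (hpr _ ((hi.comp PTime.fst).add PTime.snd))

private theorem pss_zsum (hpr : ∀ f : α × ℕ → ℕ, PTime f → PTime (fun b => pr (f b)))
    {i j t : α → ℕ} (hi : PTime i) (hj : PTime j) (ht : PTime t) :
    PTime (fun a => zsum (i a) (j a) (t a)) :=
  ptime_sum (n := t) (f := fun a k => pr (i a + (t a - 1 - k)) * pr (j a + k)) ht
    ((hpr _ ((hi.comp PTime.fst).add (((ht.comp PTime.fst).sub (PTime.const 1)).sub
      PTime.snd))).mul (hpr _ ((hj.comp PTime.fst).add PTime.snd)))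

private theorem pss_pprod (hA : Arith)
    (hpr : ∀ f : α × ℕ → ℕ, PTime f → PTime (fun b => pr (f b)))
    {i t : α → ℕ} (hi : PTime i) (ht : PTime t) : PB (fun a => pprod (i a) (t a)) :=
  hA.prod α inferInstance t (fun a k => pr (i a + k)) ht
    (hA.un _ inferInstance _ (hpr _ ((hi.comp PTime.fst).add PTime.snd)))

end

theorem p_pss : S_pss := by
  intro hA hpfi hppr hpfs hch hpb hwi P α iα M e x y hM he hx hy
  have hpfi' := hpfi hpfs hA
  have hppr' := hppr hch hpb hwi
  have hpr : ∀ f : α × ℕ → ℕ, PTime f → PTime (fun b => pr (f b)) :=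
    (hppr' (α × ℕ) inferInstance).1
  have hpr1 : ∀ f : α → ℕ, PTime f → PTime (fun b => pr (f b)) := (hppr' α iα).1
  have hwin : ∀ f g : α → ℕ, PTime f → PTime g → PTime (fun a => win (f a) (g a)) :=
    (hppr' α iα).2
  have hmul : ∀ f g : α → ℕ, PB f → PB g → PB (fun a => f a * g a) := hA.mul α iα
  have hpow : ∀ (f : α → ℕ) (k : ℕ), PB f → PB (fun a => f a ^ k) := fun f k hf =>
    hA.pow α iα f (fun _ => k) hf (PTime.const k)
  have hSe : PTime (fun a => ∑ i, e a i) :=
    (hpfi' (Fin P.r) inferInstance α iα).2.1 e he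
  have h4M : PTime (fun a => 4 * M a) := (PTime.const 4).mul hM
  have hiC : PTime (fun a => win (4 * M a) (M a)) := hwin _ _ h4M hM
  have hiD : PTime (fun a => win (4 * M a * pr (win (4 * M a) (M a))) (M a + ∑ i, e a i)) :=
    hwin _ _ (h4M.mul (hpr1 _ hiC)) (hM.add hSe)
  have hit : PTime (fun a => win (4 * M a) (M a) +
      win (4 * M a * pr (win (4 * M a) (M a))) (M a + ∑ i, e a i) + M a + ∑ i, e a i) :=
    ((hiC.add hiD).add hM).add hSe
  have hsh : ∀ o : Option (Fin P.r),
      PTime (fun a => (mkPar (M a) (e a) (x a) (y a)).sh o) := by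
    intro o
    cases o with
    | none => exact PTime.const 0
    | some i => exact he i
  have h0 : PTime (fun _ : α => 0) := PTime.const 0
  have hD : ∀ o : Option (Fin P.r), PTime (fun a => (mkPar (M a) (e a) (x a) (y a)).iD +
      (mkPar (M a) (e a) (x a) (y a)).sh o) := fun o => hiD.add (hsh o)
  have hJ : ∀ j : Fin P.b, PTime (fun a => (mkPar (M a) (e a) (x a) (y a)).iC +
      (mkPar (M a) (e a) (x a) (y a)).M - (mkPar (M a) (e a) (x a) (y a)).y j) :=
    fun j => (hiC.add hM).sub (hy j)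
  have hI : ∀ j : Fin P.b, PTime (fun a => (mkPar (M a) (e a) (x a) (y a)).y j -
      (mkPar (M a) (e a) (x a) (y a)).x j) := fun j => (hy j).sub (hx j)
  constructor
  · unfold WP.SS
    refine PTime.add (PTime.add (PTime.add (PTime.add (PTime.add ?_ ?_) ?_) ?_) ?_) ?_
    · exact (PTime.const 2).mul (pss_psum hpr h0 hit)
    · exact pss_psum hpr h0 hiC
    · exact (PTime.const 2).mul (pss_psum hpr hiC hM)
    · exact pss_psum hpr hiD hM
    · exact (hpfi' (Option (Fin P.r)) inferInstance α iα).2.1 (fun a o =>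
        psum 0 ((mkPar (M a) (e a) (x a) (y a)).iD + (mkPar (M a) (e a) (x a) (y a)).sh o) +
          psum ((mkPar (M a) (e a) (x a) (y a)).iD + (mkPar (M a) (e a) (x a) (y a)).sh o) (M a) +
          3 * zsum (mkPar (M a) (e a) (x a) (y a)).iC
            ((mkPar (M a) (e a) (x a) (y a)).iD + (mkPar (M a) (e a) (x a) (y a)).sh o) (M a))
        (fun o => ((pss_psum hpr h0 (hD o)).add (pss_psum hpr (hD o) hM)).add
          ((PTime.const 3).mul (pss_zsum hpr hiC (hD o) hM)))
    · exact (hpfi' (Fin P.b) inferInstance α iα).2.1 (fun a j =>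
        psum 0 ((mkPar (M a) (e a) (x a) (y a)).iC + (mkPar (M a) (e a) (x a) (y a)).M -
          (mkPar (M a) (e a) (x a) (y a)).y j) +
        psum ((mkPar (M a) (e a) (x a) (y a)).iC + (mkPar (M a) (e a) (x a) (y a)).M -
          (mkPar (M a) (e a) (x a) (y a)).y j)
          ((mkPar (M a) (e a) (x a) (y a)).y j - (mkPar (M a) (e a) (x a) (y a)).x j))
        (fun j => (pss_psum hpr h0 (hJ j)).add (pss_psum hpr (hJ j) (hI j)))
  · unfold WP.ZZ
    refine hmul _ _ (hmul _ _ (hmul _ _ (hmul _ _ (hmul _ _ ?_ ?_) ?_) ?_) ?_) ?_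
    · exact hpow _ 2 (pss_pprod hA hpr h0 hit)
    · exact pss_pprod hA hpr h0 hiC
    · exact hpow _ 2 (pss_pprod hA hpr hiC hM)
    · exact pss_pprod hA hpr hiD hM
    · exact ((hpfi' (Option (Fin P.r)) inferInstance α iα).1 (fun a o =>
        pprod 0 ((mkPar (M a) (e a) (x a) (y a)).iD + (mkPar (M a) (e a) (x a) (y a)).sh o) *
          pprod ((mkPar (M a) (e a) (x a) (y a)).iD + (mkPar (M a) (e a) (x a) (y a)).sh o) (M a) *
          (pprod (mkPar (M a) (e a) (x a) (y a)).iC (M a) *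
            pprod ((mkPar (M a) (e a) (x a) (y a)).iD +
              (mkPar (M a) (e a) (x a) (y a)).sh o) (M a)) ^ 3)
        (fun o => hmul _ _ (hmul _ _ (pss_pprod hA hpr h0 (hD o)) (pss_pprod hA hpr (hD o) hM))
          (hpow _ 3 (hmul _ _ (pss_pprod hA hpr hiC hM) (pss_pprod hA hpr (hD o) hM))))).2
    · exact ((hpfi' (Fin P.b) inferInstance α iα).1 (fun a j =>
        pprod 0 ((mkPar (M a) (e a) (x a) (y a)).iC + (mkPar (M a) (e a) (x a) (y a)).M -
          (mkPar (M a) (e a) (x a) (y a)).y j) *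
        pprod ((mkPar (M a) (e a) (x a) (y a)).iC + (mkPar (M a) (e a) (x a) (y a)).M -
          (mkPar (M a) (e a) (x a) (y a)).y j)
          ((mkPar (M a) (e a) (x a) (y a)).y j - (mkPar (M a) (e a) (x a) (y a)).x j))
        (fun j => hmul _ _ (pss_pprod hA hpr h0 (hJ j)) (pss_pprod hA hpr (hJ j) (hI j)))).2

end Pool.Agent.Lib.MP_4b91fc_lc.GH
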