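import Pool.Agent.Lib.MP_4b91fc_lc.GH.Stm1

set_option autoImplicit false

/-!
# `#GRAPHS`, piece `t2`: the partitions with many parts different from `k`
-/

namespace Pool.Agent.Lib.MP_4b91fc_lc.GH

open Finset

open scoped Nat

private theorem t2_two_pow (m : ℕ) (hm : 20 ≤ m) : 2048 * (m + 1) ^ 2 ≤ 2 ^ m := by
  induction m, hm using Nat.le_induction with
  | base => norm_num
  | succ n hn ih =>
    have h : 2048 * (n + 1 + 1) ^ 2 ≤ 2 * (2048 * (n + 1) ^ 2) := by nlinarith
    calc 2048 * (n + 1 + 1) ^ 2 ≤ 2 * (2048 * (n + 1) ^ 2) := h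
      _ ≤ 2 * 2 ^ n := Nat.mul_le_mul_left _ ih
      _ = 2 ^ (n + 1) := by rw [pow_succ, mul_comm]

private theorem t2_big {s N : ℕ} (hs : 4 ≤ s) (hN : s ^ 12 ≤ N) :
    16777216 ≤ N ∧ 80 * s ^ 4 ≤ N ∧ 16 * s ≤ N ∧ s ^ 2 ≤ N := by
  have h4 : 4 ^ 8 ≤ s ^ 8 := Nat.pow_le_pow_left hs 8
  have h12 : 4 ^ 12 ≤ s ^ 12 := Nat.pow_le_pow_left hs 12
  have h1 : s ^ 12 = s ^ 8 * s ^ 4 := by rw [← pow_add]
  have hp : 1 ≤ s ^ 4 := Nat.one_le_pow _ _ (by omega)
  have h5 : 65536 * s ^ 4 ≤ s ^ 12 := by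
    rw [h1]
    exact Nat.mul_le_mul_right _ (by simpa using h4)
  have h6 : s ≤ s ^ 4 := by
    calc s = s ^ 1 := (pow_one s).symm
      _ ≤ s ^ 4 := Nat.pow_le_pow_right (by omega) (by norm_num)
  have h7 : s ^ 2 ≤ s ^ 4 := Nat.pow_le_pow_right (by omega) (by norm_num)
  norm_num at h12
  refine ⟨by omega, by omega, by omega, by omega⟩

private theorem t2_Y {k u s N : ℕ} (hs : 4 ≤ s) (hk : k ≤ s) (hu : u ≤ s) (hN : s ^ 12 ≤ N) :
    k * (N + u) ≤ 2 ^ (N / 32) := by
  obtain ⟨h1, h2, h3, h4⟩ := t2_big hs hN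
  have h5 := t2_two_pow (N / 32) (by omega)
  have h6 : N ≤ 32 * (N / 32 + 1) := by omega
  have h7 : k * (N + u) ≤ N * (2 * N) := Nat.mul_le_mul (by omega) (by omega)
  calc k * (N + u) ≤ N * (2 * N) := h7
    _ ≤ (32 * (N / 32 + 1)) * (2 * (32 * (N / 32 + 1))) :=
      Nat.mul_le_mul h6 (Nat.mul_le_mul_left _ h6)
    _ = 2048 * (N / 32 + 1) ^ 2 := by ring
    _ ≤ 2 ^ (N / 32) := h5

private theorem t2_L (k u l : ℕ) : L2 k u l ≤ 2 ^ (4 * sN k u l ^ 4) := by
  unfold L2
  set n := u + k * (u + k * l) with hn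
  set s := sN k u l with hs
  have hs' : s = u + k * l + k + 2 := hs
  have h1 : n ≤ 2 * s ^ 2 := by
    have h2 : k * (u + k * l) ≤ s * s := Nat.mul_le_mul (by omega) (by omega)
    have h3 : u ≤ s * s := by
      have h4 : s * 1 ≤ s * s := Nat.mul_le_mul_left _ (by omega)
      omega
    nlinarith
  calc n ! ≤ n ^ n := Nat.factorial_le_pow n
    _ ≤ (2 ^ n) ^ n := Nat.pow_le_pow_left Nat.lt_two_pow_self.le n
    _ = 2 ^ (n * n) := by rw [← pow_mul]
    _ ≤ 2 ^ (4 * s ^ 4) := by
      apply Nat.pow_le_pow_right (by norm_num)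
      calc n * n ≤ (2 * s ^ 2) * (2 * s ^ 2) := Nat.mul_le_mul h1 h1
        _ = 4 * s ^ 4 := by ring

private theorem t2_e2 (k N : ℕ) : k * N ^ 2 ≤ 2 * e2 k N + N := by
  unfold e2
  have h1 : 2 * N.choose 2 + N = N ^ 2 := by
    have h2 := Nat.choose_two_right N
    have h3 : 2 * N.choose 2 = N * (N - 1) := by
      rw [h2]
      exact Nat.mul_div_cancel' (Nat.even_mul_pred_self N).two_dvd
    rw [h3]
    cases N with
    | zero => rfl
    | succ m =>
      simp only [Nat.add_sub_cancel]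
      ring
  have h4 : k ≤ 2 * (k / 2) + 1 := by omega
  have h5 : N * k ≤ N * (2 * (k / 2) + 1) := Nat.mul_le_mul_left _ h4
  have h6 : k * N ^ 2 = 2 * (k * N.choose 2) + N * k := by
    rw [← h1]
    ring
  rw [h6]
  nlinarith

private theorem t2_exp {k u l N b c q E s : ℕ} (hk : 2 ≤ k) (hs : 4 ≤ s) (hss : s = u + k * l + k + 2)
    (hN : s ^ 12 ≤ N) (hb : 16 * (s + 1) < b) (hc : 2 * c ≤ q)
    (hq : 2 * (q : ℤ) + ((l + b : ℕ) : ℤ) *
      (((N + l : ℕ) : ℤ) - |((k * N + u : ℕ) : ℤ) - k * ((N + l : ℕ) : ℤ)|) ≤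
      2 * ((k * N + u : ℕ) : ℤ) * ((N + l : ℕ) : ℤ))
    (hE : k * N ^ 2 ≤ 2 * E + N) :
    c + 4 * s ^ 4 + s ^ 4 + N / 32 * (u + b) + (N + u + k * b) ≤ E := by
  obtain ⟨h1, h2, h3, h4⟩ := t2_big hs hN
  have hkl : k * l + u + 2 ≤ s := by omega
  have e1 : ((k * N + u : ℕ) : ℤ) - k * ((N + l : ℕ) : ℤ) = (u : ℤ) - k * l := by
    push_cast
    ring
  have e2 : |(u : ℤ) - k * l| ≤ s := by
    rw [abs_le]
    have a1 : (0 : ℤ) ≤ (k : ℤ) * l := by positivity
    have a2 : ((k * l + u + 2 : ℕ) : ℤ) ≤ s := by exact_mod_cast hkl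
    push_cast at a2
    constructor <;> linarith [Int.natCast_nonneg u]
  rw [e1] at hq
  -- the lower bound for the product
  have e3 : (b : ℤ) * ((N : ℤ) - s) ≤
      ((l + b : ℕ) : ℤ) * (((N + l : ℕ) : ℤ) - |(u : ℤ) - k * l|) := by
    have a3 : (0 : ℤ) ≤ (N : ℤ) - s := by
      have : s ≤ N := by omega
      have : (s : ℤ) ≤ N := by exact_mod_cast this
      linarith
    have a4 : (N : ℤ) - s ≤ ((N + l : ℕ) : ℤ) - |(u : ℤ) - k * l| := by
      push_cast
      linarith [Int.natCast_nonneg l]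
    have a5 : (b : ℤ) ≤ ((l + b : ℕ) : ℤ) := by
      push_cast
      linarith [Int.natCast_nonneg l]
    exact mul_le_mul a5 a4 a3 (by positivity)
  have hcZ : 2 * (c : ℤ) ≤ q := by exact_mod_cast hc
  have hEZ : (k : ℤ) * (N : ℤ) ^ 2 ≤ 2 * E + N := by exact_mod_cast hE
  have e4 : 4 * (c : ℤ) + b * ((N : ℤ) - s) ≤ 2 * (k * N + u) * (N + l) := by
    push_cast at hq e3
    linarith
  have e5 : 4 * (c : ℤ) + b * ((N : ℤ) - s) ≤ 4 * E + 2 * N * (k * l + u + 1) + 2 * (u * l) := by
    nlinarith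
  have hbZ : 16 * ((s : ℤ) + 1) + 1 ≤ b := by exact_mod_cast hb
  have hNs : 16 * (s : ℤ) ≤ N := by exact_mod_cast h3
  have hNs2 : (s : ℤ) ^ 2 ≤ N := by exact_mod_cast h4
  have hN0 : (0 : ℤ) ≤ N := Int.natCast_nonneg N
  have hb0 : (0 : ℤ) ≤ b := Int.natCast_nonneg b
  have hs0 : (0 : ℤ) ≤ s := Int.natCast_nonneg s
  have e6 : 2 * (N : ℤ) * (k * l + u + 1) ≤ 2 * N * s := by
    have a2 : ((k * l + u + 2 : ℕ) : ℤ) ≤ s := by exact_mod_cast hkl
    push_cast at a2
    exact mul_le_mul_of_nonneg_left (by linarith) (by linarith)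
  have hul : (u : ℤ) * l ≤ s ^ 2 := by
    have b1 : u ≤ s := by omega
    have b2 : l ≤ s := by
      have : l ≤ k * l := Nat.le_mul_of_pos_left l (by omega)
      omega
    have b3 : u * l ≤ s ^ 2 := by
      rw [pow_two]
      exact Nat.mul_le_mul b1 b2
    exact_mod_cast b3
  have p1 : (16 * ((s : ℤ) + 1) + 1) * N ≤ b * N := mul_le_mul_of_nonneg_right hbZ hN0
  have p2 : (b : ℤ) * (16 * s) ≤ b * N := mul_le_mul_of_nonneg_left hNs hb0
  have e7 : 16 * (c : ℤ) + 3 * (b * N) ≤ 16 * E := by nlinarith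
  have e7' : 16 * c + 3 * (b * N) ≤ 16 * E := by exact_mod_cast e7
  have q1 : N / 32 * (u + b) * 16 ≤ b * N := by
    have r1 : N / 32 * 32 ≤ N := Nat.div_mul_le_self N 32
    have r2 : u + b ≤ 2 * b := by omega
    calc N / 32 * (u + b) * 16 ≤ N / 32 * (2 * b) * 16 :=
          Nat.mul_le_mul_right _ (Nat.mul_le_mul_left _ r2)
      _ = b * (N / 32 * 32) := by ring
      _ ≤ b * N := Nat.mul_le_mul_left _ r1
  have q2 : 16 * (k * b) ≤ b * N := by
    have r1 : 16 * k ≤ N := by omega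
    calc 16 * (k * b) = b * (16 * k) := by ring
      _ ≤ b * N := Nat.mul_le_mul_left _ r1
  have q3 : 33 * N ≤ b * N := Nat.mul_le_mul_right _ (by omega)
  have q4 : 16 * u ≤ N := by omega
  omega

private theorem t2_nat {k u l g N M : ℕ} {ν : Multiset ℕ} (hk : 2 ≤ k) (hN : N2 k u l ≤ N)
    (hM : M + 16 * (sN k u l + 1) < N) (hkν : k ∉ ν)
    (hz : zee (ν + Multiset.replicate M k) = k ^ M * M ! * zee ν) (hz0 : 0 < zee ν)
    (hc : 2 * cc (ν + Multiset.replicate M k) ≤
      qq (ν + Multiset.replicate M k) (ν + Multiset.replicate M k))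
    (hsum : (ν + Multiset.replicate M k).sum = k * N + u)
    (hcard : (ν + Multiset.replicate M k).card = N + l)
    (hq : 2 * (qq (ν + Multiset.replicate M k) (ν + Multiset.replicate M k) : ℤ) +
      ((ν + Multiset.replicate M k).countP (fun x => x ≠ k) : ℤ) *
      (((ν + Multiset.replicate M k).card : ℤ) -
        |((ν + Multiset.replicate M k).sum : ℤ) - k * (ν + Multiset.replicate M k).card|) ≤
      2 * (ν + Multiset.replicate M k).sum * (ν + Multiset.replicate M k).card) :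
    2 ^ cc (ν + Multiset.replicate M k) * L2 k u l * 2 ^ E2 k u l * k ^ (N + u) * (N + u)! *
      2 ^ (N + u + k * (N - M)) ≤
    zee (ν + Multiset.replicate M k) * 2 ^ (e2 k N + N * g) := by
  set s := sN k u l with hs
  have hs' : s = u + k * l + k + 2 := hs
  have hN' : s ^ 12 ≤ N := hN
  have hs4 : 4 ≤ s := by omega
  set b := N - M with hb
  have hMb : N = M + b := by omega
  have hcount : (ν + Multiset.replicate M k).countP (fun x => x ≠ k) = l + b := by
    rw [Multiset.countP_add]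
    have h1 : (Multiset.replicate M k).countP (fun x => x ≠ k) = 0 := by
      rw [Multiset.countP_eq_zero]
      intro a ha
      rw [Multiset.eq_of_mem_replicate ha]
      simp
    have h2 : ν.countP (fun x => x ≠ k) = ν.card := by
      rw [Multiset.countP_eq_card]
      intro a ha h
      exact hkν (h ▸ ha)
    rw [h1, h2]
    rw [Multiset.card_add, Multiset.card_replicate] at hcard
    omega
  rw [hcount, hcard, hsum] at hq
  have hexp := t2_exp (k := k) (u := u) (l := l) (N := N) (b := b)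
    (c := cc (ν + Multiset.replicate M k))
    (q := qq (ν + Multiset.replicate M k) (ν + Multiset.replicate M k)) (E := e2 k N) (s := s)
    hk hs4 hs' hN' (by omega) hc hq (t2_e2 k N)
  have hY : k * (N + u) ≤ 2 ^ (N / 32) := t2_Y hs4 (by omega) (by omega) hN'
  have hL : L2 k u l ≤ 2 ^ (4 * s ^ 4) := t2_L k u l
  have hE : E2 k u l = s ^ 4 := rfl
  have hNu : N + u = M + (u + b) := by omega
  have hfac : (N + u)! ≤ M ! * (N + u) ^ (u + b) := by
    rw [hNu, ← Nat.factorial_mul_ascFactorial]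
    exact Nat.mul_le_mul_left _ (Nat.ascFactorial_le_pow_add M (u + b))
  have hkp : k ^ (N + u) = k ^ M * k ^ (u + b) := by rw [hNu, pow_add]
  rw [hE]
  calc 2 ^ cc (ν + Multiset.replicate M k) * L2 k u l * 2 ^ s ^ 4 * k ^ (N + u) * (N + u)! *
      2 ^ (N + u + k * b)
      ≤ 2 ^ cc (ν + Multiset.replicate M k) * 2 ^ (4 * s ^ 4) * 2 ^ s ^ 4 *
        (k ^ M * k ^ (u + b)) * (M ! * (N + u) ^ (u + b)) * 2 ^ (N + u + k * b) := by
        rw [hkp]
        gcongr
    _ = k ^ M * M ! * ((k * (N + u)) ^ (u + b) * (2 ^ cc (ν + Multiset.replicate M k) *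
        2 ^ (4 * s ^ 4) * 2 ^ s ^ 4 * 2 ^ (N + u + k * b))) := by
        rw [mul_pow]
        ring
    _ ≤ k ^ M * M ! * ((2 ^ (N / 32)) ^ (u + b) * (2 ^ cc (ν + Multiset.replicate M k) *
        2 ^ (4 * s ^ 4) * 2 ^ s ^ 4 * 2 ^ (N + u + k * b))) := by
        gcongr
    _ = k ^ M * M ! * 2 ^ (cc (ν + Multiset.replicate M k) + 4 * s ^ 4 + s ^ 4 +
        N / 32 * (u + b) + (N + u + k * b)) := by
        rw [← pow_mul, pow_add, pow_add, pow_add, pow_add]
        ring
    _ ≤ k ^ M * M ! * 2 ^ (e2 k N) := by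
        gcongr
        · norm_num
    _ ≤ (k ^ M * M ! * zee ν) * 2 ^ (e2 k N + N * g) := by
        refine Nat.mul_le_mul (Nat.le_mul_of_pos_right _ hz0) ?_
        exact Nat.pow_le_pow_right (by norm_num) (Nat.le_add_right _ _)
    _ = _ := by rw [hz]

private theorem t2_term {k u l g N T : ℕ} {μ : Multiset ℕ} (hz0 : 0 < zee μ)
    (h : 2 ^ cc μ * L2 k u l * 2 ^ E2 k u l * k ^ (N + u) * (N + u)! * 2 ^ T ≤
      zee μ * 2 ^ (e2 k N + N * g)) : vt k u l g N μ ≤ 1 / 2 ^ T := by
  have hq : ((2 ^ cc μ * L2 k u l * 2 ^ E2 k u l * k ^ (N + u) * (N + u)! * 2 ^ T : ℕ) : ℚ) ≤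
      ((zee μ * 2 ^ (e2 k N + N * g) : ℕ) : ℚ) := by exact_mod_cast h
  push_cast at hq
  have hz : (0 : ℚ) < zee μ := by exact_mod_cast hz0
  have e : vt k u l g N μ = (2 ^ cc μ * L2 k u l * 2 ^ E2 k u l * k ^ (N + u) * (N + u)!) /
      (zee μ * 2 ^ (e2 k N + N * g)) := by
    unfold vt ww
    field_simp
  rw [e, div_le_div_iff₀ (by positivity) (by positivity)]
  linarith

/-- **GH t2** -/
theorem p_t2 : S_t2 := by
  intro hptn hzee hcc hdef k u l g N hk hg hN
  obtain ⟨hp1, hp2, hp3⟩ := hptn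
  obtain ⟨hz1, -, hz3, -, -⟩ := hzee
  have hc1 := hcc.1
  have hs' : sN k u l = u + k * l + k + 2 := rfl
  have hN' : sN k u l ^ 12 ≤ N := hN
  have hs4 : 4 ≤ sN k u l := by omega
  obtain ⟨hb1, hb2, hb3, hb4⟩ := t2_big hs4 hN'
  rw [Finset.sum_filter, hp3 (k * N + u) k (by omega)]
  have hin : ∀ M ∈ range ((k * N + u) / k + 1),
      (∑ ν ∈ (Ptn (k * N + u - k * M)).filter (fun μ => k ∉ μ),
        if (ν + Multiset.replicate M k).card = N + l ∧
          ¬ N ≤ (ν + Multiset.replicate M k).count k + 16 * (sN k u l + 1) then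
          vt k u l g N (ν + Multiset.replicate M k) else 0) ≤ 1 / 2 ^ N := by
    intro M hMr
    have hMk : k * M ≤ k * N + u := by
      have h1 : M ≤ (k * N + u) / k := by
        have := mem_range.1 hMr
        omega
      calc k * M ≤ k * ((k * N + u) / k) := Nat.mul_le_mul_left _ h1
        _ ≤ k * N + u := Nat.mul_div_le _ _
    by_cases hM : M + 16 * (sN k u l + 1) < N
    · have hsub : k * N + u - k * M = u + k * (N - M) := by
        have h1 : k * (N - M) = k * N - k * M := Nat.mul_sub k N M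
        have h2 : k * M ≤ k * N := Nat.mul_le_mul_left _ (by omega)
        omega
      have hterm : ∀ ν ∈ (Ptn (k * N + u - k * M)).filter (fun μ => k ∉ μ),
          (if (ν + Multiset.replicate M k).card = N + l ∧
            ¬ N ≤ (ν + Multiset.replicate M k).count k + 16 * (sN k u l + 1) then
            vt k u l g N (ν + Multiset.replicate M k) else 0) ≤
              (1 : ℚ) / 2 ^ (N + u + k * (N - M)) := by
        intro ν hν
        rw [mem_filter, hp1] at hν
        obtain ⟨⟨hsum, h0⟩, hkν⟩ := hν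
        split_ifs with hcond
        · have h0' : 0 ∉ ν + Multiset.replicate M k := by
            intro h
            rcases Multiset.mem_add.1 h with h | h
            · exact h0 h
            · have := Multiset.eq_of_mem_replicate h
              omega
          have hsum' : (ν + Multiset.replicate M k).sum = k * N + u := by
            rw [Multiset.sum_add, Multiset.sum_replicate, hsum, smul_eq_mul, mul_comm M k]
            omega
          apply t2_term (hz3 _ h0')
          refine t2_nat hk hN hM hkν (hz1 ν k M hkν) (hz3 ν h0) ?_ hsum' hcond.1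
            (hdef _ k h0')
          have := hc1 (ν + Multiset.replicate M k)
          omega
        · positivity
      calc _ ≤ ((Ptn (k * N + u - k * M)).filter (fun μ => k ∉ μ)).card •
            ((1 : ℚ) / 2 ^ (N + u + k * (N - M))) := Finset.sum_le_card_nsmul _ _ _ hterm
        _ ≤ 2 ^ (u + k * (N - M)) * ((1 : ℚ) / 2 ^ (N + u + k * (N - M))) := by
            rw [nsmul_eq_mul]
            apply mul_le_mul_of_nonneg_right _ (by positivity)
            have h1 : ((Ptn (k * N + u - k * M)).filter (fun μ => k ∉ μ)).card ≤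
                2 ^ (u + k * (N - M)) := by
              calc _ ≤ (Ptn (k * N + u - k * M)).card := Finset.card_filter_le _ _
                _ ≤ 2 ^ (k * N + u - k * M) := hp2 _
                _ = 2 ^ (u + k * (N - M)) := by rw [hsub]
            exact_mod_cast h1
        _ = 1 / 2 ^ N := by
            rw [add_assoc, pow_add]
            field_simp
            ring
    · rw [Finset.sum_eq_zero]
      · positivity
      · intro ν hν
        rw [mem_filter] at hν
        rw [if_neg]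
        rintro ⟨-, h⟩
        apply h
        rw [Multiset.count_add, Multiset.count_replicate_self, Multiset.count_eq_zero.2 hν.2]
        omega
  calc _ ≤ ∑ M ∈ range ((k * N + u) / k + 1), (1 : ℚ) / 2 ^ N := Finset.sum_le_sum hin
    _ = (((k * N + u) / k + 1 : ℕ) : ℚ) / 2 ^ N := by
        rw [Finset.sum_const, card_range, nsmul_eq_mul]
        ring
    _ < 1 / 2 := by
        have h1 : (k * N + u) / k ≤ N + u := by
          apply Nat.div_le_of_le_mul
          nlinarith [Nat.le_mul_of_pos_left u (show 0 < k by omega)]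
        have h2 : 2 * ((k * N + u) / k + 1) < 2 ^ N := by
          have h3 : N < 2 ^ (N / 32 + 1) * 32 := by
            have := Nat.lt_two_pow_self (n := N / 32 + 1)
            omega
          have h4 : 2 * ((k * N + u) / k + 1) ≤ 8 * N := by omega
          have h5 : 2 ^ (N / 32 + 1) * 32 * 8 ≤ 2 ^ N := by
            have h6 : 2 ^ (N / 32 + 1) * 32 * 8 = 2 ^ (N / 32 + 1 + 8) := by
              rw [pow_add]
              norm_num
              ring
            rw [h6]
            exact Nat.pow_le_pow_right (by norm_num) (by omega)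
          omega
        rw [div_lt_div_iff₀ (by positivity) (by norm_num)]
        have h3 : ((2 * ((k * N + u) / k + 1) : ℕ) : ℚ) < ((2 ^ N : ℕ) : ℚ) := by
          exact_mod_cast h2
        push_cast at h3 ⊢
        linarith

end Pool.Agent.Lib.MP_4b91fc_lc.GH
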