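import Pool.Agent.Lib.MP_4b91fc_lc.GH.Stm5

set_option autoImplicit false

/-!
# `#GRAPHS` is complete for `#P_1`: piece `v2s`
-/

namespace Pool.Agent.Lib.MP_4b91fc_lc.GH

open Finset

/-- the last letter of `c :: w` -/
def v2s_l : Bool → List Bool → Bool
  | c, [] => c
  | _, x :: w => v2s_l x w

/-- the pairs (letter of `w`, previous letter of `c :: w`) -/
def v2s_c : Bool → List Bool → List (Bool × Bool)
  | _, [] => []
  | c, x :: w => (x, c) :: v2s_c x w

lemma v2s_getLast (x : Bool) (w : List Bool) :
    (x :: w).getLast (List.cons_ne_nil x w) = v2s_l x w := by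
  induction w generalizing x with
  | nil => rfl
  | cons a w ih =>
    rw [List.getLast_cons (List.cons_ne_nil a w), ih]
    rfl

lemma v2s_dropLast (x : Bool) (w : List Bool) :
    (x :: w).dropLast = (v2s_c x w).map Prod.snd := by
  induction w generalizing x with
  | nil => rfl
  | cons a w ih =>
    rw [List.dropLast_cons_of_ne_nil (List.cons_ne_nil a w), ih]
    rfl

lemma v2s_fst (x : Bool) (w : List Bool) : (v2s_c x w).map Prod.fst = w := by
  induction w generalizing x with
  | nil => rfl
  | cons a w ih =>
    change a :: (v2s_c a w).map Prod.fst = a :: w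
    rw [ih]

lemma v2s_rot1 (x : Bool) (w : List Bool) :
    rot1 (x :: w) = v2s_l x w :: (v2s_c x w).map Prod.snd := by
  unfold rot1
  rw [List.rotate_eq_drop_append_take (Nat.sub_le _ _), ← List.dropLast_eq_take,
    List.drop_length_sub_one (List.cons_ne_nil x w), v2s_getLast, v2s_dropLast]
  rfl

lemma v2s_zip (L : List (Bool × Bool)) : (L.map Prod.fst).zip (L.map Prod.snd) = L := by
  induction L with
  | nil => rfl
  | cons a L ih =>
    change (a.1, a.2) :: (L.map Prod.fst).zip (L.map Prod.snd) = a :: L
    rw [ih]

lemma v2s_zip_rot1 (x : Bool) (w : List Bool) :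
    (x :: w).zip (rot1 (x :: w)) = (x, v2s_l x w) :: v2s_c x w := by
  rw [v2s_rot1, List.zip_cons_cons]
  congr 1
  conv_lhs => rw [← v2s_fst x w]
  rw [v2s_fst]
  conv_rhs => rw [← v2s_zip (v2s_c x w), v2s_fst]

lemma v2s_rot1_eq (x : Bool) (w : List Bool) :
    rot1 (x :: w) = x :: w ↔ v2s_l x w = x ∧ ∀ p ∈ v2s_c x w, p.2 = p.1 := by
  rw [v2s_rot1, List.cons.injEq]
  refine and_congr_right fun _ => ?_
  conv_lhs => rw [← v2s_fst x w]
  rw [v2s_fst]
  conv_lhs => rhs; rw [← v2s_fst x w]
  exact List.map_inj_left

/-- the sum over a word: first letter -/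
lemma v2s_cons (n : ℕ) (h : List Bool → ℕ) :
    ∑ w : Fin (n + 1) → Bool, h (List.ofFn w) =
      ∑ x : Bool, ∑ w : Fin n → Bool, h (x :: List.ofFn w) := by
  rw [← (Fin.consEquiv (fun _ : Fin (n + 1) => Bool)).sum_comp, Fintype.sum_prod_type]
  refine Finset.sum_congr rfl fun x _ => Finset.sum_congr rfl fun w _ => ?_
  congr 1
  exact List.ofFn_cons x w

lemma v2s_rotS (F : LS × LA → ℕ) (la x y : Bool) :
    ∑ z ∈ rotS true la true x y, F z = ∑ x' : Bool, ∑ g : Bool,
      if (la = true → g = x') then F (.rot true la true x' g, .lt true x' g) else 0 := by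
  have h : rotS true la true x y =
      (univ.filter (fun z : Bool × Bool => la = true → z.2 = z.1)).image
        (fun z => (LS.rot true la true z.1 z.2, LA.lt true z.1 z.2)) := by
    cases la <;> cases x <;> cases y <;> decide
  rw [h, Finset.sum_image, Finset.sum_filter, Fintype.sum_prod_type]
  intro a _ b _ hab
  simp only [Prod.mk.injEq, LS.rot.injEq, LA.lt.injEq, true_and] at hab
  exact Prod.ext hab.1.1 hab.1.2

lemma v2s_rotC (F : LS × LA → ℕ) (la c g x y : Bool) :
    ∑ z ∈ rotC true la true c g x y, F z = ∑ x' : Bool,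
      if (la = true → c = x') then F (.rot true la true x' g, .lt false x' c) else 0 := by
  have h : rotC true la true c g x y =
      (univ.filter (fun z : Bool => la = true → c = z)).image
        (fun z => (LS.rot true la true z g, LA.lt false z c)) := by
    cases la <;> cases c <;> cases g <;> cases x <;> cases y <;> decide
  rw [h, Finset.sum_image, Finset.sum_filter]
  intro a _ b _ hab
  simp only [Prod.mk.injEq, LS.rot.injEq, true_and] at hab
  exact hab.1.1

lemma v2s_sumX_zero (l : List ℕ) : sumX l (fun _ => 0) = 0 := by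
  induction l with
  | nil => rfl
  | cons a l ih =>
    change ∑ w : Fin a → Bool, sumX l (fun _ => 0) = 0
    rw [ih]
    simp

variable (v : List LA → ℕ)

/-- the rest of a block -/
lemma v2s_A (la g : Bool) (B : List (Bool × Bool)) (c : Bool) (P R : List LA) :
    GW.swp (GW.endv v) (.rot true la true c g) P (B.map ltf ++ R) =
      ∑ w : Fin B.length → Bool,
        if (la = true → ∀ p ∈ v2s_c c (List.ofFn w), p.2 = p.1) then
          GW.swp (GW.endv v) (.rot true la true (v2s_l c (List.ofFn w)) g)
            (P ++ (v2s_c c (List.ofFn w)).map ltf) R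
        else 0 := by
  induction B generalizing c P with
  | nil =>
    simp [v2s_c, v2s_l]
  | cons b B ih =>
    rw [show (b :: B).length = B.length + 1 from rfl,
      v2s_cons B.length (fun w => if (la = true → ∀ p ∈ v2s_c c w, p.2 = p.1) then
          GW.swp (GW.endv v) (.rot true la true (v2s_l c w) g)
            (P ++ (v2s_c c w).map ltf) R else 0)]
    have h1 : GW.swp (GW.endv v) (.rot true la true c g) P ((b :: B).map ltf ++ R) =
        ∑ z ∈ rotC true la true c g b.1 b.2,
          GW.swp (GW.endv v) z.1 (P ++ [z.2]) (B.map ltf ++ R) := rfl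
    rw [h1, v2s_rotC (fun z => GW.swp (GW.endv v) z.1 (P ++ [z.2]) (B.map ltf ++ R))]
    refine Finset.sum_congr rfl fun x _ => ?_
    by_cases hc : la = true → c = x
    · rw [if_pos hc]
      simp only
      rw [ih]
      refine Finset.sum_congr rfl fun w _ => ?_
      have e1 : (la = true → ∀ p ∈ v2s_c c (x :: List.ofFn w), p.2 = p.1) ↔
          (la = true → ∀ p ∈ v2s_c x (List.ofFn w), p.2 = p.1) := by
        constructor
        · intro h hl p hp
          exact h hl p (List.mem_cons_of_mem _ hp)
        · intro h hl p hp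
          rcases List.mem_cons.1 hp with rfl | hp
          · exact hc hl
          · exact h hl p hp
      have e2 : P ++ [LA.lt false x c] ++ (v2s_c x (List.ofFn w)).map ltf =
          P ++ (v2s_c c (x :: List.ofFn w)).map ltf := by
        rw [List.append_assoc]
        rfl
      rw [e2]
      by_cases h : la = true → ∀ p ∈ v2s_c x (List.ofFn w), p.2 = p.1
      · rw [if_pos h, if_pos (e1.2 h)]
        rfl
      · rw [if_neg h, if_neg (fun h' => h (e1.1 h'))]
    · rw [if_neg hc]
      symm
      refine Finset.sum_eq_zero fun w _ => ?_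
      rw [if_neg]
      intro h
      apply hc
      intro hl
      exact h hl (x, c) List.mem_cons_self

lemma v2s_tpe (b : Bool × Bool) (B : List (Bool × Bool)) (D : List (List (Bool × Bool))) :
    tpe ((b :: B) :: D) = LA.lt true b.1 b.2 :: (B.map ltf ++ tpe D) := rfl

/-- the guess was wrong -/
lemma v2s_B0 (la c g : Bool) (hcg : c ≠ g) (D : List (List (Bool × Bool)))
    (hD : ∀ B ∈ D, B ≠ []) (P : List LA) :
    GW.swp (GW.endv v) (.rot true la true c g) P (tpe D) = 0 := by
  cases D with
  | nil =>
    change GW.endv v (.rot true la true c g) P = 0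
    unfold Sw.endv
    have : finG (.rot true la true c g) = none := by
      simp [finG, hcg]
    change (match finG (.rot true la true c g) with
      | some true => 1
      | some false => v P
      | none => 0) = 0
    rw [this]
  | cons B D =>
    obtain ⟨b, B, rfl⟩ : ∃ b B', B = b :: B' := by
      cases B with
      | nil => exact absurd rfl (hD [] List.mem_cons_self)
      | cons b B => exact ⟨b, B, rfl⟩
    rw [v2s_tpe]
    change ∑ z ∈ (if c = g then rotS true la true b.1 b.2 else ∅), _ = 0
    rw [if_neg hcg, Finset.sum_empty]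

/-- the first cell of a block -/
lemma v2s_first (la : Bool) (b : Bool × Bool) (B : List (Bool × Bool))
    (D : List (List (Bool × Bool))) (P : List LA)
    (hD : ∀ B ∈ D, B ≠ [])
    (ih : ∀ (c : Bool) (P : List LA), GW.swp (GW.endv v) (.rot true la true c c) P (tpe D) =
      sumX (D.map List.length) (fun Z =>
        if la = true → ∀ w ∈ Z, rot1 w = w then
          v (P ++ tpe (Z.map (fun w => w.zip (rot1 w)))) else 0)) :
    ∑ z ∈ rotS true la true b.1 b.2,
      GW.swp (GW.endv v) z.1 (P ++ [z.2]) (B.map ltf ++ tpe D) =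
      sumX (((b :: B) :: D).map List.length) (fun Z =>
        if la = true → ∀ w ∈ Z, rot1 w = w then
          v (P ++ tpe (Z.map (fun w => w.zip (rot1 w)))) else 0) := by
  rw [v2s_rotS (fun z => GW.swp (GW.endv v) z.1 (P ++ [z.2]) (B.map ltf ++ tpe D))]
  have hR : sumX (((b :: B) :: D).map List.length) (fun Z =>
        if la = true → ∀ w ∈ Z, rot1 w = w then
          v (P ++ tpe (Z.map (fun w => w.zip (rot1 w)))) else 0) =
      ∑ w : Fin (B.length + 1) → Bool, sumX (D.map List.length) (fun Z =>
        if la = true → ∀ w' ∈ List.ofFn w :: Z, rot1 w' = w' then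
          v (P ++ tpe ((List.ofFn w :: Z).map (fun w => w.zip (rot1 w)))) else 0) := rfl
  rw [hR, v2s_cons B.length (fun w => sumX (D.map List.length) (fun Z =>
        if la = true → ∀ w' ∈ w :: Z, rot1 w' = w' then
          v (P ++ tpe ((w :: Z).map (fun w => w.zip (rot1 w)))) else 0))]
  refine Finset.sum_congr rfl fun x _ => ?_
  have h1 : ∀ g : Bool, (if la = true → g = x then
      GW.swp (GW.endv v) (LS.rot true la true x g, LA.lt true x g).1
        (P ++ [(LS.rot true la true x g, LA.lt true x g).2]) (B.map ltf ++ tpe D) else 0) =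
      ∑ w : Fin B.length → Bool, if la = true → g = x then
        (if (la = true → ∀ p ∈ v2s_c x (List.ofFn w), p.2 = p.1) then
          GW.swp (GW.endv v) (.rot true la true (v2s_l x (List.ofFn w)) g)
            ((P ++ [LA.lt true x g]) ++ (v2s_c x (List.ofFn w)).map ltf) (tpe D)
        else 0) else 0 := by
    intro g
    by_cases hg : la = true → g = x
    · rw [if_pos hg]
      simp only [if_pos hg]
      exact v2s_A v la g B x (P ++ [LA.lt true x g]) (tpe D)
    · rw [if_neg hg]
      simp only [if_neg hg]
      simp
  rw [Finset.sum_congr rfl fun g _ => h1 g, Finset.sum_comm]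
  refine Finset.sum_congr rfl fun w _ => ?_
  rw [Finset.sum_eq_single (v2s_l x (List.ofFn w))]
  · rw [ih]
    by_cases h : la = true → rot1 (x :: List.ofFn w) = x :: List.ofFn w
    · have ha : la = true → v2s_l x (List.ofFn w) = x :=
        fun hl => ((v2s_rot1_eq _ _).1 (h hl)).1
      have hb : la = true → ∀ p ∈ v2s_c x (List.ofFn w), p.2 = p.1 :=
        fun hl => ((v2s_rot1_eq _ _).1 (h hl)).2
      rw [if_pos ha, if_pos hb]
      congr 1
      funext Z
      have e1 : (la = true → ∀ w' ∈ (x :: List.ofFn w) :: Z, rot1 w' = w') ↔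
          (la = true → ∀ w' ∈ Z, rot1 w' = w') := by
        constructor
        · intro h hl p hp
          exact h hl p (List.mem_cons_of_mem _ hp)
        · intro h' hl p hp
          rcases List.mem_cons.1 hp with rfl | hp
          · exact h hl
          · exact h' hl p hp
      have e2 : P ++ [LA.lt true x (v2s_l x (List.ofFn w))] ++ (v2s_c x (List.ofFn w)).map ltf ++
            tpe (Z.map (fun w => w.zip (rot1 w))) =
          P ++ tpe (((x :: List.ofFn w) :: Z).map (fun w => w.zip (rot1 w))) := by
        rw [List.map_cons, v2s_zip_rot1, v2s_tpe, List.append_assoc, List.append_assoc]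
        rfl
      rw [e2]
      by_cases h' : la = true → ∀ w' ∈ Z, rot1 w' = w'
      · rw [if_pos h', if_pos (e1.2 h')]
      · rw [if_neg h', if_neg (fun h'' => h' (e1.1 h''))]
    · have hR0 : sumX (D.map List.length) (fun Z =>
          if la = true → ∀ w' ∈ (x :: List.ofFn w) :: Z, rot1 w' = w' then
            v (P ++ tpe (((x :: List.ofFn w) :: Z).map (fun w => w.zip (rot1 w)))) else 0) = 0 := by
        have e : (fun Z : List (List Bool) =>
            if la = true → ∀ w' ∈ (x :: List.ofFn w) :: Z, rot1 w' = w' then
              v (P ++ tpe (((x :: List.ofFn w) :: Z).map (fun w => w.zip (rot1 w)))) else 0) =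
            fun _ => 0 := by
          funext Z
          rw [if_neg]
          intro h'
          exact h fun hl => h' hl _ List.mem_cons_self
        rw [e, v2s_sumX_zero]
      rw [hR0]
      by_cases ha : la = true → v2s_l x (List.ofFn w) = x
      · by_cases hb : la = true → ∀ p ∈ v2s_c x (List.ofFn w), p.2 = p.1
        · exact absurd (fun hl => (v2s_rot1_eq _ _).2 ⟨ha hl, hb hl⟩) h
        · rw [if_pos ha, if_neg hb]
      · rw [if_neg ha]
  · intro g _ hg
    rw [v2s_B0 v la _ g (Ne.symm hg) D hD]
    split_ifs <;> rfl
  · intro h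
    exact absurd (Finset.mem_univ _) h

/-- the later blocks -/
lemma v2s_B (la : Bool) (D : List (List (Bool × Bool))) (hD : ∀ B ∈ D, B ≠ []) (c : Bool)
    (P : List LA) :
    GW.swp (GW.endv v) (.rot true la true c c) P (tpe D) =
      sumX (D.map List.length) (fun Z =>
        if la = true → ∀ w ∈ Z, rot1 w = w then
          v (P ++ tpe (Z.map (fun w => w.zip (rot1 w)))) else 0) := by
  induction D generalizing c P with
  | nil =>
    change GW.endv v (.rot true la true c c) P = _
    have h1 : finG (.rot true la true c c) = some false := by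
      simp [finG]
    change (match finG (.rot true la true c c) with
      | some true => 1
      | some false => v P
      | none => 0) = _
    rw [h1]
    simp [sumX, tpe]
  | cons B D ih =>
    obtain ⟨b, B, rfl⟩ : ∃ b B', B = b :: B' := by
      cases B with
      | nil => exact absurd rfl (hD [] List.mem_cons_self)
      | cons b B => exact ⟨b, B, rfl⟩
    have hD' : ∀ B ∈ D, B ≠ [] := fun B hB => hD B (List.mem_cons_of_mem _ hB)
    rw [← v2s_first v la b B D P hD' (ih hD'), v2s_tpe]
    change ∑ z ∈ (if c = c then rotS true la true b.1 b.2 else ∅), _ = _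
    rw [if_pos rfl]

/-- the current block -/
lemma v2s_own (O : List (Bool × Bool)) (P R : List LA) :
    GW.swp (GW.endv v) (.own true true) P (O.map ltf ++ R) =
      GW.swp (GW.endv v) (.own true true) (P ++ O.map ltf) R := by
  induction O generalizing P with
  | nil => simp
  | cons o O ih =>
    change ∑ z ∈ (chs true).image (fun ch' => (LS.own true ch', LA.lt false o.1 o.2)),
      GW.swp (GW.endv v) z.1 (P ++ [z.2]) (O.map ltf ++ R) = _
    have h : (chs true).image (fun ch' => (LS.own true ch', LA.lt false o.1 o.2)) =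
        {(LS.own true true, LA.lt false o.1 o.2)} := rfl
    rw [h, Finset.sum_singleton, ih, List.append_assoc]
    rfl

lemma v2s_ownD (D : List (List (Bool × Bool))) (hD : ∀ B ∈ D, B ≠ []) (P : List LA) :
    GW.swp (GW.endv v) (.own true true) P (tpe D) =
      GW.swp (GW.endv v) (.rot true false true true true) P (tpe D) := by
  cases D with
  | nil => rfl
  | cons B D =>
    obtain ⟨b, B, rfl⟩ : ∃ b B', B = b :: B' := by
      cases B with
      | nil => exact absurd rfl (hD [] List.mem_cons_self)
      | cons b B => exact ⟨b, B, rfl⟩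
    rfl

lemma v2s_fstD (D : List (List (Bool × Bool))) (hD : ∀ B ∈ D, B ≠ []) (P : List LA) :
    GW.swp (GW.endv v) (.fst true true) P (tpe D) =
      GW.swp (GW.endv v) (.rot true true true true true) P (tpe D) := by
  cases D with
  | nil => rfl
  | cons B D =>
    obtain ⟨b, B, rfl⟩ : ∃ b B', B = b :: B' := by
      cases B with
      | nil => exact absurd rfl (hD [] List.mem_cons_self)
      | cons b B => exact ⟨b, B, rfl⟩
    rfl

lemma v2s_dn (i : ℕ) (P R : List LA) :
    GW.swp (GW.endv v) .s0 P (List.replicate i .dn ++ R) =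
      GW.swp (GW.endv v) .s0 (P ++ List.replicate i .dn) R := by
  induction i generalizing P with
  | zero => simp
  | succ i ih =>
    change ∑ z ∈ ({(LS.s0, LA.dn)} : Finset (LS × LA)),
      GW.swp (GW.endv v) z.1 (P ++ [z.2]) (List.replicate i .dn ++ R) = _
    rw [Finset.sum_singleton, ih, List.append_assoc]
    rfl

theorem p_v2s : S_v2s := by
  intro v i x y O D hD
  rw [v2s_dn]
  have h0 : GW.swp (GW.endv v) .s0 ([] ++ List.replicate i .dn)
      (LA.lt true x y :: (O.map ltf ++ tpe D)) =
      GW.swp (GW.endv v) (.fst true true) (List.replicate (i + 1) .dn) (O.map ltf ++ tpe D) := by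
    change ∑ z ∈ (chs true).image (fun ch => (LS.fst true ch, LA.dn)),
      GW.swp (GW.endv v) z.1 (([] ++ List.replicate i .dn) ++ [z.2]) (O.map ltf ++ tpe D) = _
    have h : (chs true).image (fun ch => (LS.fst true ch, LA.dn)) =
        {(LS.fst true true, LA.dn)} := rfl
    rw [h, Finset.sum_singleton, List.nil_append, List.replicate_succ']
  rw [h0]
  cases O with
  | nil =>
    rw [List.map_nil, List.nil_append, v2s_fstD v D hD, v2s_B v true D hD]
    simp
  | cons o O =>
    have h1 : GW.swp (GW.endv v) (.fst true true) (List.replicate (i + 1) .dn)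
        ((o :: O).map ltf ++ tpe D) = GW.swp (GW.endv v) (.own true true)
          (List.replicate (i + 1) .dn ++ [ltf o]) (O.map ltf ++ tpe D) := by
      change ∑ z ∈ (chs true).image (fun ch' => (LS.own true ch', LA.lt false o.1 o.2)),
        GW.swp (GW.endv v) z.1 (List.replicate (i + 1) .dn ++ [z.2]) (O.map ltf ++ tpe D) = _
      have h : (chs true).image (fun ch' => (LS.own true ch', LA.lt false o.1 o.2)) =
          {(LS.own true true, LA.lt false o.1 o.2)} := rfl
      rw [h, Finset.sum_singleton]
      rfl
    rw [h1, v2s_own, v2s_ownD v D hD, v2s_B v false D hD]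
    simp

end Pool.Agent.Lib.MP_4b91fc_lc.GH
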