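import Pool.Agent.Lib.MP_4b91fc_lc.GH.Stm3

set_option autoImplicit false

/-!
# The solutions of the relational system of a word problem are the admissible words
-/

namespace Pool.Agent.Lib.MP_4b91fc_lc.GH

open Finset

open scoped Nat

/-- the tuple of sets of a word -/
private noncomputable def wd_phi (P : WP) (p : Par P.r P.b) (f : Fin p.M → P.A) :
    Fin P.m → Finset ℕ := fun i => XX P p f (P.eq.symm i)

private theorem wd_sum (P : WP) (g : P.S → ℕ) : ∑ i, g (P.eq.symm i) = ∑ t, g t :=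
  Equiv.sum_comp P.eq.symm g

private theorem wd_prod (P : WP) (g : P.S → ℕ) : ∏ i, g (P.eq.symm i) = ∏ t, g t :=
  Equiv.prod_comp P.eq.symm g

private theorem wd_back (hbk : S_bk) (htot : S_tot) (hpb : S_pb) (hxc : S_xc)
    (P : WP) (p : Par P.r P.b) (hp : p.Good) (S B : ℕ) (h1 : P.SS p ≤ S) (h2 : S ≤ B)
    (f : Fin p.M → P.A) (hf : P.Ok p.M p.e p.x p.y f) :
    wd_phi P p f ∈ Sol P.R (P.num p) S B := by
  have hs := hbk hpb hxc P p hp f hf
  have ht := htot hpb hxc P p hp f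
  unfold Sol
  rw [Finset.mem_filter, Fintype.mem_piFinset]
  refine ⟨fun i => ?_, fun i => hs.1 _, fun i j h => hs.2.1 _ _ h, fun i j h => hs.2.2.1 _ _ h,
    ?_, ?_, ?_⟩
  · rw [Finset.mem_powerset]
    intro x hx
    rw [Finset.mem_Icc]
    refine ⟨(hs.1 _).1 x hx, ?_⟩
    have h3 : x ≤ ∑ y ∈ XX P p f (P.eq.symm i), y :=
      Finset.single_le_sum (f := fun y => y) (fun y _ => Nat.zero_le y) hx
    have h4 : ∑ y ∈ XX P p f (P.eq.symm i), y ≤ ∑ t, ∑ y ∈ XX P p f t, y :=
      Finset.single_le_sum (f := fun t => ∑ y ∈ XX P p f t, y) (fun y _ => Nat.zero_le _)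
        (Finset.mem_univ (P.eq.symm i))
    have h5 := ht.1
    omega
  · unfold WP.num
    rw [decide_eq_true_iff]
    have h3 := hs.2.2.2
    simp only [wd_phi, Equiv.symm_apply_apply]
    exact h3
  · have h3 := ht.2.2.1
    have h4 : ∑ i, (wd_phi P p f i).card = ∑ t, (XX P p f t).card :=
      wd_sum P (fun t => (XX P p f t).card)
    rw [h4]
    omega
  · have h3 := ht.1
    have h4 : ∑ i, ∑ x ∈ wd_phi P p f i, x = ∑ t, ∑ x ∈ XX P p f t, x :=
      wd_sum P (fun t => ∑ x ∈ XX P p f t, x)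
    rw [h4]
    omega

private theorem wd_forth (hst : S_st) (hpb : S_pb) (hpa : S_pa) (hzz : S_zz) (hst1 : S_st1)
    (hst2 : S_st2) (P : WP) (p : Par P.r P.b) (hp : p.Good) (S B : ℕ)
    (X : Fin P.m → Finset ℕ) (hX : X ∈ Sol P.R (P.num p) S B) :
    ∃ f : Fin p.M → P.A, P.Ok p.M p.e p.x p.y f ∧ X = wd_phi P p f := by
  unfold Sol at hX
  rw [Finset.mem_filter] at hX
  obtain ⟨_, h1, h2, h3, h4, _, _⟩ := hX
  have hs : SolS P p (fun t => X (P.eq t)) := by
    refine ⟨fun t => h1 _, fun t t' h => h2 _ _ ?_, fun t t' h => h3 _ _ ?_, ?_⟩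
    · show dvS (P.eq.symm (P.eq t)) (P.eq.symm (P.eq t')) = true
      rwa [Equiv.symm_apply_apply, Equiv.symm_apply_apply]
    · show cpS P (P.eq.symm (P.eq t)) (P.eq.symm (P.eq t')) = true
      rwa [Equiv.symm_apply_apply, Equiv.symm_apply_apply]
    · unfold WP.num at h4
      rw [decide_eq_true_iff] at h4
      exact h4
  obtain ⟨f, hf, he⟩ := hst hpb hpa hzz hst1 hst2 P p hp _ hs
  refine ⟨f, hf, ?_⟩
  funext i
  have h5 := congrFun he (P.eq.symm i)
  rw [Equiv.apply_symm_apply] at h5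
  exact h5

theorem p_wd : S_wd := by
  intro hst hbk htot hwx hpb hpa hzz hst1 hst2 hxc hzee P p hp S B h1 h2
  have hcard : P.count p.M p.e p.x p.y = (Sol P.R (P.num p) S B).card := by
    have hbij : Function.Bijective (fun f : {f : Fin p.M → P.A // P.Ok p.M p.e p.x p.y f} =>
        (⟨wd_phi P p f.1, wd_back hbk htot hpb hxc P p hp S B h1 h2 f.1 f.2⟩ :
          {X // X ∈ Sol P.R (P.num p) S B})) := by
      constructor
      · intro f g h
        have h3 : wd_phi P p f.1 = wd_phi P p g.1 := congrArg Subtype.val h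
        refine Subtype.ext ((htot hpb hxc P p hp f.1).2.2.2 g.1 ?_)
        funext t
        have h4 := congrFun h3 (P.eq t)
        unfold wd_phi at h4
        rwa [Equiv.symm_apply_apply] at h4
      · rintro ⟨X, hX⟩
        obtain ⟨f, hf, he⟩ := wd_forth hst hpb hpa hzz hst1 hst2 P p hp S B X hX
        exact ⟨⟨f, hf⟩, Subtype.ext he.symm⟩
    unfold WP.count
    rw [Nat.card_eq_of_bijective _ hbij, Nat.card_eq_fintype_card, Fintype.card_coe]
  have hw : ∀ X ∈ Sol P.R (P.num p) S B, wtX B X * P.ZZ p = B ! ^ P.m := by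
    intro X hX
    obtain ⟨f, hf, rfl⟩ := wd_forth hst hpb hpa hzz hst1 hst2 P p hp S B X hX
    have ht := htot hpb hxc P p hp f
    have hs := hbk hpb hxc P p hp f hf
    have h3 : ∏ i, ∏ x ∈ wd_phi P p f i, x = P.ZZ p :=
      (wd_prod P (fun t => ∏ x ∈ XX P p f t, x)).trans ht.2.1
    rw [← h3]
    refine hwx hzee P.m B (wd_phi P p f) (fun i => hs.1 _) fun i => ?_
    have h4 : ∑ y ∈ XX P p f (P.eq.symm i), y ≤ ∑ t, ∑ y ∈ XX P p f t, y :=
      Finset.single_le_sum (f := fun t => ∑ y ∈ XX P p f t, y) (fun y _ => Nat.zero_le _)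
        (Finset.mem_univ (P.eq.symm i))
    have h5 := ht.1
    show ∑ y ∈ XX P p f (P.eq.symm i), y ≤ B
    omega
  rw [hcard, Finset.sum_mul, Finset.sum_congr rfl hw, Finset.sum_const, smul_eq_mul]

end Pool.Agent.Lib.MP_4b91fc_lc.GH
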